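import Pool.Agent.Lib.MP_cb6a70_gt_HB.Fills

/-!
# Universal cover of a connected locally Euclidean space
-/

namespace CubeHom

namespace UCover

open Topology Set unitInterval Path.Homotopic

variable {M : Type} [TopologicalSpace M]

/-- The homotopy class is represented by a path in `U`. -/
def In (U : Set M) {x y : M} (q : Path.Homotopic.Quotient x y) : Prop :=
  ∃ δ : Path x y, (∀ t, δ t ∈ U) ∧ q = Path.Homotopic.Quotient.mk δ

theorem In.left {U : Set M} {x y : M} {q : Path.Homotopic.Quotient x y} (h : In U q) : x ∈ U := by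
  obtain ⟨δ, hδ, -⟩ := h
  have := hδ 0
  rwa [δ.source] at this

theorem In.right {U : Set M} {x y : M} {q : Path.Homotopic.Quotient x y} (h : In U q) : y ∈ U := by
  obtain ⟨δ, hδ, -⟩ := h
  have := hδ 1
  rwa [δ.target] at this

theorem In.mono {U V : Set M} {x y : M} {q : Path.Homotopic.Quotient x y} (h : In U q)
    (hUV : U ⊆ V) : In V q := by
  obtain ⟨δ, hδ, e⟩ := h
  exact ⟨δ, fun t => hUV (hδ t), e⟩

theorem in_refl {U : Set M} {x : M} (h : x ∈ U) : In U (Path.Homotopic.Quotient.refl x) :=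
  ⟨Path.refl x, fun _ => h, rfl⟩

theorem In.trans {U : Set M} {x y z : M} {q : Path.Homotopic.Quotient x y}
    {r : Path.Homotopic.Quotient y z} (hq : In U q) (hr : In U r) : In U (q.trans r) := by
  obtain ⟨δ, hδ, rfl⟩ := hq
  obtain ⟨ε, hε, rfl⟩ := hr
  refine ⟨δ.trans ε, fun t => ?_, rfl⟩
  have h : δ.trans ε t ∈ Set.range (δ.trans ε) := ⟨t, rfl⟩
  rw [Path.trans_range] at h
  rcases h with ⟨s, hs⟩ | ⟨s, hs⟩
  · rw [← hs]; exact hδ s
  · rw [← hs]; exact hε s

/-- Uniqueness of the class of paths in a simply connected subset. -/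
theorem In.unique {S : Set M} [SimplyConnectedSpace S] {x y : M}
    {q r : Path.Homotopic.Quotient x y} (hq : In S q) (hr : In S r) : q = r := by
  have hx : x ∈ S := hq.left
  have hy : y ∈ S := hq.right
  obtain ⟨δ, hδ, rfl⟩ := hq
  obtain ⟨ε, hε, rfl⟩ := hr
  let δ' : Path (⟨x, hx⟩ : S) ⟨y, hy⟩ :=
    { toFun := fun t => ⟨δ t, hδ t⟩
      continuous_toFun := δ.continuous.subtype_mk _
      source' := Subtype.ext δ.source
      target' := Subtype.ext δ.target }
  let ε' : Path (⟨x, hx⟩ : S) ⟨y, hy⟩ :=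
    { toFun := fun t => ⟨ε t, hε t⟩
      continuous_toFun := ε.continuous.subtype_mk _
      source' := Subtype.ext ε.source
      target' := Subtype.ext ε.target }
  have h := (SimplyConnectedSpace.paths_homotopic δ' ε').map
    (⟨Subtype.val, continuous_subtype_val⟩ : C(S, M))
  exact Path.Homotopic.Quotient.eq.2 h

theorem exists_in {U : Set M} (hU : IsPathConnected U) {x y : M} (hx : x ∈ U) (hy : y ∈ U) :
    ∃ q : Path.Homotopic.Quotient x y, In U q := by
  obtain ⟨δ, hδ⟩ := hU.joinedIn x hx y hy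
  exact ⟨_, δ, hδ, rfl⟩

/-- The points of the universal cover. -/
structure Tot (x₀ : M) where
  /-- the point of the base -/
  pt : M
  /-- the class of paths -/
  cl : Path.Homotopic.Quotient x₀ pt

variable {x₀ : M}

theorem Tot.ext' {e e' : Tot x₀} (h : e'.pt = e.pt) (h' : e.cl = e'.cl.cast rfl h.symm) :
    e = e' := by
  obtain ⟨x, c⟩ := e
  obtain ⟨y, d⟩ := e'
  dsimp only at h
  subst h
  have h1 : c = d := h'.trans (Path.Homotopic.Quotient.cast_rfl_rfl d)
  rw [h1]

/-- Basic neighbourhoods. -/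
def nb (U : Set M) (e : Tot x₀) : Set (Tot x₀) :=
  {e' | ∃ q : Path.Homotopic.Quotient e.pt e'.pt, In U q ∧ e'.cl = e.cl.trans q}

theorem self_mem_nb {U : Set M} {e : Tot x₀} (h : e.pt ∈ U) : e ∈ nb U e :=
  ⟨_, in_refl h, (Path.Homotopic.Quotient.trans_refl _).symm⟩

theorem nb_mono {U V : Set M} (h : U ⊆ V) (e : Tot x₀) : nb U e ⊆ nb V e := by
  rintro e' ⟨q, hq, h'⟩
  exact ⟨q, hq.mono h, h'⟩

theorem nb_subset {U : Set M} {e e' : Tot x₀} (h : e' ∈ nb U e) : nb U e' ⊆ nb U e := by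
  obtain ⟨q, hq, h1⟩ := h
  rintro e'' ⟨r, hr, h2⟩
  exact ⟨q.trans r, hq.trans hr, by rw [h2, h1, Path.Homotopic.Quotient.trans_assoc]⟩

theorem mem_nb_pt {U : Set M} {e e' : Tot x₀} (h : e' ∈ nb U e) : e'.pt ∈ U := by
  obtain ⟨q, hq, -⟩ := h
  exact hq.right

instance : TopologicalSpace (Tot x₀) where
  IsOpen W := ∀ e ∈ W, ∃ U : Set M, IsOpen U ∧ e.pt ∈ U ∧ nb U e ⊆ W
  isOpen_univ _ _ := ⟨univ, isOpen_univ, mem_univ _, subset_univ _⟩
  isOpen_inter := by
    rintro V W hV hW e ⟨h1, h2⟩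
    obtain ⟨U, hU, hx, hs⟩ := hV e h1
    obtain ⟨U', hU', hx', hs'⟩ := hW e h2
    exact ⟨U ∩ U', hU.inter hU', ⟨hx, hx'⟩, fun e' he' =>
      ⟨hs (nb_mono inter_subset_left e he'), hs' (nb_mono inter_subset_right e he')⟩⟩
  isOpen_sUnion := by
    rintro S hS e ⟨W, hW, he⟩
    obtain ⟨U, hU, hx, hs⟩ := hS W hW e he
    exact ⟨U, hU, hx, fun e' he' => ⟨W, hW, hs he'⟩⟩

theorem isOpen_iff {W : Set (Tot x₀)} :
    IsOpen W ↔ ∀ e ∈ W, ∃ U : Set M, IsOpen U ∧ e.pt ∈ U ∧ nb U e ⊆ W := Iff.rfl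

theorem isOpen_nb {U : Set M} (hU : IsOpen U) (e : Tot x₀) : IsOpen (nb U e) :=
  fun _ he' => ⟨U, hU, mem_nb_pt he', nb_subset he'⟩

theorem nb_mem_nhds {U : Set M} (hU : IsOpen U) {e : Tot x₀} (h : e.pt ∈ U) : nb U e ∈ 𝓝 e :=
  (isOpen_nb hU e).mem_nhds (self_mem_nb h)

theorem continuous_pt : Continuous (Tot.pt : Tot x₀ → M) := by
  refine ⟨fun V hV => ?_⟩
  intro e he
  exact ⟨V, hV, he, fun e' he' => mem_nb_pt he'⟩

/-- A criterion for continuity of maps to the universal cover. -/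
theorem continuous_of {A : Type*} [TopologicalSpace A] {f : A → Tot x₀}
    (h : ∀ a : A, ∀ U : Set M, IsOpen U → (f a).pt ∈ U → ∀ᶠ b in 𝓝 a, f b ∈ nb U (f a)) :
    Continuous f := by
  refine continuous_iff_continuousAt.2 fun a => ?_
  intro W hW
  obtain ⟨V, hVW, hV, haV⟩ := mem_nhds_iff.1 hW
  obtain ⟨U, hU, hx, hs⟩ := isOpen_iff.1 hV _ haV
  exact Filter.mem_of_superset (h a U hU hx) fun b hb => hVW (hs hb)

/-! ### Trivialisations -/

section Triv

variable {S : Set M} [SimplyConnectedSpace S] {i : M}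

theorem isPathConnected_of : IsPathConnected S :=
  isPathConnected_iff_pathConnectedSpace.2 inferInstance

/-- The class of the paths from `i` to `y` in `S`. -/
noncomputable def sg (hi : i ∈ S) {y : M} (hy : y ∈ S) : Path.Homotopic.Quotient i y :=
  (exists_in (isPathConnected_of (S := S)) hi hy).choose

theorem in_sg (hi : i ∈ S) {y : M} (hy : y ∈ S) : In S (sg hi hy) :=
  (exists_in (isPathConnected_of (S := S)) hi hy).choose_spec

theorem sg_trans (hi : i ∈ S) {x y : M} (hx : x ∈ S) {q : Path.Homotopic.Quotient x y}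
    (hq : In S q) : (sg hi hx).trans q = sg hi hq.right :=
  ((in_sg hi hx).trans hq).unique (in_sg hi hq.right)

variable [LocallyPathConnectedSpace M]

/-- The section of the universal cover over `S`. -/
noncomputable def sec (hi : i ∈ S) (c : Path.Homotopic.Quotient x₀ i) (y : S) : Tot x₀ :=
  ⟨y.1, c.trans (sg hi y.2)⟩

omit [LocallyPathConnectedSpace M] in
theorem sec_mem_nb (hi : i ∈ S) (c : Path.Homotopic.Quotient x₀ i) {y z : S} {U : Set M}
    {q : Path.Homotopic.Quotient y.1 z.1} (hU : In U q) (hS : In S q) :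
    sec hi c z ∈ nb U (sec hi c y) := by
  refine ⟨q, hU, ?_⟩
  change c.trans (sg hi z.2) = (c.trans (sg hi y.2)).trans q
  rw [Path.Homotopic.Quotient.trans_assoc, sg_trans hi y.2 hS]

theorem continuous_sec (hS : IsOpen S) (hi : i ∈ S) (c : Path.Homotopic.Quotient x₀ i) :
    Continuous (sec hi c : S → Tot x₀) := by
  refine continuous_of fun y U hU hy => ?_
  have hy' : y.1 ∈ U ∩ S := ⟨hy, y.2⟩
  obtain ⟨V, ⟨hV1, hV2⟩, hV3⟩ := (path_connected_basis y.1).mem_iff.1
    ((hU.inter hS).mem_nhds hy')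
  have h1 : ∀ᶠ z : S in 𝓝 y, z.1 ∈ V := continuous_subtype_val.continuousAt.eventually_mem hV1
  filter_upwards [h1] with z hz
  obtain ⟨q, hq⟩ := exists_in hV2 (mem_of_mem_nhds hV1) hz
  exact sec_mem_nb hi c (hq.mono (hV3.trans inter_subset_left))
    (hq.mono (hV3.trans inter_subset_right))

omit [LocallyPathConnectedSpace M] in
theorem isOpenMap_sec (hS : IsOpen S) (hi : i ∈ S) (c : Path.Homotopic.Quotient x₀ i) :
    IsOpenMap (sec hi c : S → Tot x₀) := by
  rintro V hV _ ⟨y, hy, rfl⟩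
  refine ⟨Subtype.val '' V, hS.isOpenMap_subtype_val V hV, ⟨y, hy, rfl⟩, ?_⟩
  rintro ⟨z, d⟩ ⟨q, hq, h1⟩
  obtain ⟨z', hz', h2⟩ := hq.right
  dsimp only at h2
  subst h2
  refine ⟨z', hz', ?_⟩
  have h3 : In S q := hq.mono (by rintro _ ⟨w, -, rfl⟩; exact w.2)
  change (⟨z'.1, c.trans (sg hi z'.2)⟩ : Tot x₀) = ⟨z'.1, d⟩
  have h4 : d = (c.trans (sg hi y.2)).trans q := h1
  rw [h4, Path.Homotopic.Quotient.trans_assoc, sg_trans hi y.2 h3]

omit [LocallyPathConnectedSpace M] in
theorem sg_self (hi : i ∈ S) : sg hi hi = Path.Homotopic.Quotient.refl i :=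
  (in_sg hi hi).unique (in_refl hi)

/-- The fibre coordinate. -/
noncomputable def fib (hi : i ∈ S) (e : Tot x₀) (he : e.pt ∈ S) : Path.Homotopic.Quotient x₀ i :=
  e.cl.trans (sg hi he).symm

omit [LocallyPathConnectedSpace M] in
theorem fib_eq (hi : i ∈ S) {e e' : Tot x₀} (he : e.pt ∈ S) (he' : e'.pt ∈ S)
    (h : e' ∈ nb S e) : fib hi e' he' = fib hi e he := by
  obtain ⟨q, hq, h1⟩ := h
  have h0 : sg hi he' = (sg hi he).trans q := (sg_trans hi he hq).symm
  unfold fib
  rw [h1, h0, Path.Homotopic.Quotient.trans_assoc]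
  congr 1
  have h2 : (sg hi he).trans (q.trans ((sg hi he).trans q).symm) =
      (sg hi he).trans (sg hi he).symm := by
    rw [← Path.Homotopic.Quotient.trans_assoc, Path.Homotopic.Quotient.trans_symm,
      Path.Homotopic.Quotient.trans_symm]
  have h3 := congrArg (Path.Homotopic.Quotient.trans (sg hi he).symm) h2
  rwa [← Path.Homotopic.Quotient.trans_assoc, Path.Homotopic.Quotient.symm_trans,
    Path.Homotopic.Quotient.refl_trans, ← Path.Homotopic.Quotient.trans_assoc,
    Path.Homotopic.Quotient.symm_trans, Path.Homotopic.Quotient.refl_trans] at h3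

theorem evenly (hS : IsOpen S) (hi : i ∈ S) :
    ∃ (J : Type) (_ : TopologicalSpace J), IsEvenlyCovered (Tot.pt : Tot x₀ → M) i J := by
  refine ⟨Path.Homotopic.Quotient x₀ i, ⊥, ?_⟩
  let _ : TopologicalSpace (Path.Homotopic.Quotient x₀ i) := ⊥
  have : DiscreteTopology (Path.Homotopic.Quotient x₀ i) := ⟨rfl⟩
  refine ⟨inferInstance, S, hi, hS, continuous_pt.isOpen_preimage _ hS,
    { toFun := fun e => (⟨e.1.pt, e.2⟩, fib hi e.1 e.2)
      invFun := fun z => ⟨sec hi z.2 z.1, z.1.2⟩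
      left_inv := ?_
      right_inv := ?_
      continuous_toFun := ?_
      continuous_invFun := ?_ }, fun _ => rfl⟩
  · rintro ⟨⟨x, c⟩, hx⟩
    refine Subtype.ext ?_
    change (⟨x, (c.trans (sg hi hx).symm).trans (sg hi hx)⟩ : Tot x₀) = ⟨x, c⟩
    rw [Path.Homotopic.Quotient.trans_assoc, Path.Homotopic.Quotient.symm_trans,
      Path.Homotopic.Quotient.trans_refl]
  · rintro ⟨⟨y, hy⟩, c⟩
    refine Prod.ext rfl ?_
    change (c.trans (sg hi hy)).trans (sg hi hy).symm = c
    rw [Path.Homotopic.Quotient.trans_assoc, Path.Homotopic.Quotient.trans_symm,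
      Path.Homotopic.Quotient.trans_refl]
  · refine Continuous.prodMk ((continuous_pt.comp continuous_subtype_val).subtype_mk _) ?_
    refine IsLocallyConstant.continuous ?_
    rw [IsLocallyConstant.iff_eventually_eq]
    rintro ⟨e, he⟩
    have h1 : ∀ᶠ e' : (Tot.pt ⁻¹' S : Set (Tot x₀)) in 𝓝 ⟨e, he⟩, e'.1 ∈ nb S e :=
      continuous_subtype_val.continuousAt.eventually_mem (nb_mem_nhds hS he)
    filter_upwards [h1] with e' he'
    exact fib_eq hi he e'.2 he'
  · refine Continuous.subtype_mk ?_ _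
    refine continuous_prod_of_discrete_right.2 fun c => ?_
    exact continuous_sec hS hi c

end Triv

/-! ### Lifts of paths -/

/-- The lift of a path. -/
noncomputable def lft (e : Tot x₀) {y : M} (g : Path e.pt y) (t : I) : Tot x₀ :=
  ⟨g t, (e.cl.cast rfl g.source).trans (Path.Homotopic.Quotient.mk (g.subpath 0 t))⟩

theorem continuous_lft (e : Tot x₀) {y : M} (g : Path e.pt y) : Continuous (lft e g) := by
  refine continuous_of fun t U hU ht => ?_
  have h1 : g ⁻¹' U ∈ 𝓝 t := (hU.preimage g.continuous).mem_nhds ht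
  filter_upwards [ordConnectedComponent_mem_nhds.2 h1] with s hs
  refine ⟨Path.Homotopic.Quotient.mk (g.subpath t s), ⟨g.subpath t s, fun r => ?_, rfl⟩, ?_⟩
  · have h2 : g.subpath t s r ∈ Set.range (g.subpath t s) := ⟨r, rfl⟩
    rw [Path.range_subpath] at h2
    obtain ⟨r', hr', h3⟩ := h2
    have h4 : g r' ∈ U := hs hr'
    rw [h3] at h4
    exact h4
  · change (e.cl.cast rfl g.source).trans (Path.Homotopic.Quotient.mk (g.subpath 0 s)) =
      ((e.cl.cast rfl g.source).trans (Path.Homotopic.Quotient.mk (g.subpath 0 t))).trans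
        (Path.Homotopic.Quotient.mk (g.subpath t s))
    rw [Path.Homotopic.Quotient.trans_assoc, ← Path.Homotopic.Quotient.mk_trans]
    congr 1
    exact (Path.Homotopic.Quotient.eq.2 ⟨Path.Homotopy.subpathTransSubpath g 0 t s⟩).symm

theorem lft_zero (e : Tot x₀) {y : M} (g : Path e.pt y) : lft e g 0 = e := by
  refine Tot.ext' g.source.symm ?_
  change (e.cl.cast rfl g.source).trans (Path.Homotopic.Quotient.mk (g.subpath 0 0)) =
    e.cl.cast rfl g.source
  rw [Path.subpath_self]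
  exact Path.Homotopic.Quotient.trans_refl _

theorem lft_one_aux {x x' y y' : M} (c : Path.Homotopic.Quotient x₀ x) (g : Path x y)
    (hx : x' = x) (hy : y' = y) :
    (⟨y', (c.cast rfl hx).trans (Path.Homotopic.Quotient.mk (g.cast hx hy))⟩ : Tot x₀) =
      ⟨y, c.trans (Path.Homotopic.Quotient.mk g)⟩ := by
  subst hx
  subst hy
  rw [Path.Homotopic.Quotient.cast_rfl_rfl]
  rfl

theorem lft_one (e : Tot x₀) {y : M} (g : Path e.pt y) :
    lft e g 1 = ⟨y, e.cl.trans (Path.Homotopic.Quotient.mk g)⟩ := by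
  unfold lft
  rw [Path.subpath_zero_one]
  exact lft_one_aux e.cl g g.source g.target

instance : PathConnectedSpace (Tot x₀) := by
  have h : ∀ e : Tot x₀, Joined (⟨x₀, Path.Homotopic.Quotient.refl x₀⟩ : Tot x₀) e := by
    rintro ⟨y, c⟩
    obtain ⟨g, rfl⟩ := Path.Homotopic.Quotient.mk_surjective c
    let e₀ : Tot x₀ := ⟨x₀, Path.Homotopic.Quotient.refl x₀⟩
    refine ⟨{ toFun := lft e₀ g, continuous_toFun := continuous_lft e₀ g,
              source' := lft_zero e₀ g, target' := ?_ }⟩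
    rw [lft_one]
    change (⟨y, (Path.Homotopic.Quotient.refl x₀).trans _⟩ : Tot x₀) = _
    rw [Path.Homotopic.Quotient.refl_trans]
  exact { nonempty := ⟨⟨x₀, Path.Homotopic.Quotient.refl x₀⟩⟩
          joined := fun e e' => (h e).symm.trans (h e') }

theorem simplyConnected_of (hp : IsCoveringMap (Tot.pt : Tot x₀ → M)) :
    SimplyConnectedSpace (Tot x₀) := by
  rw [simply_connected_iff_loops_nullhomotopic]
  refine ⟨inferInstance, fun e Γ => ?_⟩
  let g : Path e.pt e.pt := Γ.map continuous_pt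
  have h1 : (Γ : I → Tot x₀) = lft e g :=
    hp.eq_of_comp_eq Γ.continuous (continuous_lft e g) rfl 0 (by rw [lft_zero, Γ.source])
  have h2 : e = ⟨e.pt, e.cl.trans (Path.Homotopic.Quotient.mk g)⟩ := by
    rw [← lft_one, ← h1, Γ.target]
  have h3 : e.cl = e.cl.trans (Path.Homotopic.Quotient.mk g) := by
    obtain ⟨x, c⟩ := e
    exact eq_of_heq (Tot.mk.inj h2).2
  have h4 : Path.Homotopic.Quotient.mk g = Path.Homotopic.Quotient.refl e.pt := by
    have h5 := congrArg (Path.Homotopic.Quotient.trans e.cl.symm) h3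
    rw [Path.Homotopic.Quotient.symm_trans, ← Path.Homotopic.Quotient.trans_assoc,
      Path.Homotopic.Quotient.symm_trans, Path.Homotopic.Quotient.refl_trans] at h5
    exact h5.symm
  refine Path.Homotopic.Quotient.eq.1 (hp.injective_path_homotopic_map e e ?_)
  exact h4

/-! ### Locally Euclidean spaces -/

theorem simplyConnectedSpace_of {n : ℕ} {S : Set M} (φ : S ≃ₜ (Fin n → ℝ)) :
    SimplyConnectedSpace S := by
  have : ContractibleSpace S := φ.contractibleSpace
  infer_instance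

theorem locallyPathConnectedSpace_of {n : ℕ} (hM : LocEuc n M) :
    LocallyPathConnectedSpace M where
  path_connected_basis x := by
    rw [Filter.hasBasis_self]
    intro t ht
    obtain ⟨S, hS, hx, ⟨φ⟩⟩ := hM x
    have : LocallyPathConnectedSpace S := φ.isOpenEmbedding.locallyPathConnectedSpace
    have h1 : (Subtype.val ⁻¹' t : Set S) ∈ 𝓝 (⟨x, hx⟩ : S) :=
      continuous_subtype_val.continuousAt ht
    obtain ⟨W, ⟨hW1, hW2⟩, hW3⟩ := (path_connected_basis (⟨x, hx⟩ : S)).mem_iff.1 h1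
    refine ⟨Subtype.val '' W, hS.isOpenEmbedding_subtypeVal.image_mem_nhds.2 hW1,
      hW2.image continuous_subtype_val, ?_⟩
    rintro _ ⟨w, hw, rfl⟩
    exact hW3 hw

end UCover

open Topology UCover in
/-- **Main theorem of this file.** -/
theorem exists_universal_cover {n : ℕ} {M : Type} [TopologicalSpace M] [T2Space M]
    [ConnectedSpace M] (hM : LocEuc n M) :
    ∃ (E : Type) (_ : TopologicalSpace E) (p : E → M), T2Space E ∧ SimplyConnectedSpace E ∧
      LocEuc n E ∧ IsCoveringMap p ∧ Function.Surjective p ∧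
      ∀ e e' : E, p e = p e' → ∃ g : E ≃ₜ E, (∀ x, p (g x) = p x) ∧ g e = e' := by
  obtain ⟨x₀⟩ : Nonempty M := inferInstance
  have i1 : LocallyPathConnectedSpace M := locallyPathConnectedSpace_of hM
  have i2 : PathConnectedSpace M := pathConnectedSpace_iff_connectedSpace.2 inferInstance
  have hp : IsCoveringMap (Tot.pt : Tot x₀ → M) := fun x => by
    obtain ⟨S, hS, hx, ⟨φ⟩⟩ := hM x
    have : SimplyConnectedSpace S := simplyConnectedSpace_of φ
    obtain ⟨J, _, h⟩ := evenly (x₀ := x₀) hS hx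
    exact h.to_isEvenlyCovered_preimage
  have i3 : SimplyConnectedSpace (Tot x₀) := simplyConnected_of hp
  have i4 : LocEuc n (Tot x₀) := by
    intro e
    obtain ⟨S, hS, hx, ⟨φ⟩⟩ := hM e.pt
    have : SimplyConnectedSpace S := simplyConnectedSpace_of φ
    have h1 : IsOpenEmbedding (sec hx e.cl : S → Tot x₀) := by
      refine IsOpenEmbedding.of_continuous_injective_isOpenMap (continuous_sec hS hx e.cl) ?_
        (isOpenMap_sec hS hx e.cl)
      intro y z hyz
      exact Subtype.ext (congrArg Tot.pt hyz)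
    refine ⟨Set.range (sec hx e.cl), h1.isOpen_range, ⟨⟨e.pt, hx⟩, ?_⟩,
      ⟨h1.isEmbedding.toHomeomorph.symm.trans φ⟩⟩
    change (⟨e.pt, e.cl.trans (sg hx hx)⟩ : Tot x₀) = e
    rw [sg_self, Path.Homotopic.Quotient.trans_refl]
  have i5 : LocallyPathConnectedSpace (Tot x₀) := locallyPathConnectedSpace_of i4
  refine ⟨Tot x₀, inferInstance, Tot.pt, ⟨fun e e' hne => ?_⟩, i3, i4, hp, fun x => ?_,
    fun e e' hee => ?_⟩
  · by_cases h : e.pt = e'.pt
    · exact hp.isSeparatedMap e e' h hne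
    · obtain ⟨U, V, hU, hV, h1, h2, h3⟩ := t2_separation h
      exact ⟨Tot.pt ⁻¹' U, Tot.pt ⁻¹' V, hU.preimage continuous_pt, hV.preimage continuous_pt,
        h1, h2, h3.preimage _⟩
  · exact ⟨⟨x, Path.Homotopic.Quotient.mk (PathConnectedSpace.somePath x₀ x)⟩, rfl⟩
  · let f : C(Tot x₀, M) := ⟨Tot.pt, continuous_pt⟩
    obtain ⟨F, ⟨hF, hF'⟩, -⟩ := hp.existsUnique_continuousMap_lifts f e e' hee.symm
    obtain ⟨G, ⟨hG, hG'⟩, -⟩ := hp.existsUnique_continuousMap_lifts f e' e hee
    have h1 : ∀ x, (F x).pt = x.pt := fun x => congrFun hF' x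
    have h2 : ∀ x, (G x).pt = x.pt := fun x => congrFun hG' x
    have h3 : G ∘ F = id := hp.eq_of_comp_eq (G.continuous.comp F.continuous) continuous_id
      (funext fun x => by
        change (G (F x)).pt = x.pt
        rw [h2, h1]) e (by change G (F e) = e; rw [hF, hG])
    have h4 : F ∘ G = id := hp.eq_of_comp_eq (F.continuous.comp G.continuous) continuous_id
      (funext fun x => by
        change (F (G x)).pt = x.pt
        rw [h1, h2]) e' (by change F (G e') = e'; rw [hG, hF])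
    exact ⟨{ toFun := F, invFun := G, left_inv := congrFun h3, right_inv := congrFun h4,
             continuous_toFun := F.continuous, continuous_invFun := G.continuous }, h1, hF⟩

end CubeHom
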