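import Pool.Agent.Lib.MP_cb6a70_gt_HB.Setup
import Pool.Agent.Lib.MP_cb6a70_gt_HB.UCover

/-!
# Covering combinatorics: the alternative
-/

namespace CubeHom

open Set Metric Topology

/-- `σ` is a section of `p` over the closed side `W ∪ S` (`W` one of `U`, `V`) with closed image
which is open over `W`. -/
structure SideSection {M E : Type} [TopologicalSpace M] [TopologicalSpace E] (p : E → M)
    (W S : Set M) where
  σ : ↥(W ∪ S) → E
  cont : Continuous σ
  sec : ∀ x, p (σ x) = x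
  closed : IsClosed (Set.range σ)
  openW : IsOpen (σ '' {x : ↥(W ∪ S) | (x : M) ∈ W})

/-- Rescaling a box, preserving the sign of the coordinate `0`. -/
theorem univBall_coord {n : ℕ} (v₀ : Fin (n + 1) → ℝ) (h0 : v₀ 0 = 0) {r : ℝ} (hr : 0 < r)
    (v : Fin (n + 1) → ℝ) :
    ∃ c : ℝ, 0 < c ∧ (OpenPartialHomeomorph.univBall v₀ r : (Fin (n + 1) → ℝ) → _) v 0 = c * v 0 := by
  have hs : (0 : ℝ) < (√(1 + ‖v‖ ^ 2))⁻¹ := by positivity
  refine ⟨r * (√(1 + ‖v‖ ^ 2))⁻¹, by positivity, ?_⟩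
  rw [OpenPartialHomeomorph.univBall, dif_pos hr]
  simp [OpenPartialHomeomorph.univUnitBall_apply, h0, mul_assoc]

/-- The flat charts lift to the covering, at the points of the lifted sphere. -/
theorem lift_flat {n : ℕ} {M E : Type} [TopologicalSpace M] [TopologicalSpace E] [T2Space M]
    {p : E → M} (hp : IsCoveringMap p) (P : FlatSphere n M)
    (D' : C(Fin (n + 1) → unitInterval, E)) (hD : ∀ u, p (D' u) = P.D u) :
    ∀ s ∈ D' '' bdry (n + 1), ∃ N : Set E, IsOpen N ∧ s ∈ N ∧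
      ∃ θ : N ≃ₜ (Fin (n + 1) → ℝ), ∀ x : N,
        ((x : E) ∈ D' '' bdry (n + 1) ↔ θ x 0 = 0) ∧ (p x ∈ P.S ↔ θ x 0 = 0) ∧
        (p x ∈ P.U ↔ 0 < θ x 0) ∧ (p x ∈ P.V ↔ θ x 0 < 0) := by
  rintro s ⟨us, hus, rfl⟩
  have hps : p (D' us) ∈ P.D '' bdry (n + 1) := ⟨us, hus, (hD us).symm⟩
  obtain ⟨NM, hNM, hsNM, θM, hθM⟩ := P.flat _ hps
  obtain ⟨q, hsq, hq⟩ := hp.isLocalHomeomorph (D' us)
  -- the good neighbourhood in `M`
  have hcb : IsCompact (bdry (n + 1)) := by
    have h : bdry (n + 1) = ⋃ i, ({u | u i = 0} ∪ {u | u i = 1}) := by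
      ext u
      simp [bdry]
    rw [h]
    refine (isClosed_iUnion_of_finite fun i => ?_).isCompact
    exact (isClosed_eq (continuous_apply i) continuous_const).union
      (isClosed_eq (continuous_apply i) continuous_const)
  let O : Set M := q.target ∩ NM ∩ (P.D '' (bdry (n + 1) ∩ (D' ⁻¹' q.source)ᶜ))ᶜ
  have hO : IsOpen O := by
    refine (q.open_target.inter hNM).inter (IsCompact.isClosed ?_).isOpen_compl
    exact (hcb.inter_right (q.open_source.preimage D'.continuous).isClosed_compl).image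
      P.D.continuous
  have hsO : p (D' us) ∈ O := by
    refine ⟨⟨?_, hsNM⟩, ?_⟩
    · rw [hq]; exact q.map_source hsq
    · rintro ⟨u, ⟨hu, hu'⟩, h⟩
      rw [hD] at h
      have := P.inj hu hus h
      exact hu' (by rw [this]; exact hsq)
  -- the ball in the chart
  set v₀ : Fin (n + 1) → ℝ := θM ⟨p (D' us), hsNM⟩ with hv₀
  have hv00 : v₀ 0 = 0 := (hθM ⟨p (D' us), hsNM⟩).1.1 hps
  let j : (Fin (n + 1) → ℝ) → M := fun v => θM.symm v
  have hj : IsOpenEmbedding j := hNM.isOpenEmbedding_subtypeVal.comp θM.symm.isOpenEmbedding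
  have hj0 : j v₀ = p (D' us) := by simp [j, hv₀]
  obtain ⟨r, hr, hrO⟩ := Metric.isOpen_iff.1 (hO.preimage hj.continuous) v₀ (by
    rw [mem_preimage, hj0]; exact hsO)
  let b := (OpenPartialHomeomorph.univBall v₀ r : OpenPartialHomeomorph (Fin (n + 1) → ℝ)
    (Fin (n + 1) → ℝ))
  have hb : IsOpenEmbedding b := b.isOpenEmbedding (OpenPartialHomeomorph.univBall_source _ _)
  have hbr : ∀ v, b v ∈ ball v₀ r := by
    intro v
    have : b v ∈ b.target := b.map_source (by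
      rw [OpenPartialHomeomorph.univBall_source]; trivial)
    rwa [OpenPartialHomeomorph.univBall_target _ hr] at this
  have hjb : IsOpenEmbedding (j ∘ b) := hj.comp hb
  have hjbO : ∀ v, j (b v) ∈ O := fun v => hrO (hbr v)
  let f : (Fin (n + 1) → ℝ) → E := fun v => q.symm (j (b v))
  have hpf : ∀ v, p (f v) = j (b v) := by
    intro v
    rw [hq]
    exact q.right_inv (hjbO v).1.1
  have hfs : ∀ v, f v ∈ q.source := fun v => q.map_target (hjbO v).1.1
  have hfc : Continuous f := by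
    refine q.continuousOn_symm.comp_continuous hjb.continuous fun v => (hjbO v).1.1
  have hfo : IsOpenEmbedding f := by
    have h1 : IsLocalHomeomorph (p ∘ f) := by
      have : p ∘ f = j ∘ b := funext hpf
      rw [this]
      exact hjb.isLocalHomeomorph
    have h2 : IsLocalHomeomorph f := h1.of_comp hp.isLocalHomeomorph hfc
    refine h2.isOpenEmbedding_of_injective fun v w hvw => ?_
    apply hjb.injective
    show j (b v) = j (b w)
    rw [← hpf, ← hpf, hvw]
  have hf0 : f 0 = D' us := by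
    show q.symm (j (b 0)) = D' us
    rw [show b 0 = v₀ from OpenPartialHomeomorph.univBall_apply_zero _ _, hj0, hq]
    exact q.left_inv hsq
  refine ⟨range f, hfo.isOpen_range, ⟨0, hf0⟩, hfo.isEmbedding.toHomeomorph.symm, ?_⟩
  rintro ⟨x, v, rfl⟩
  have hθ : hfo.isEmbedding.toHomeomorph.symm ⟨f v, ⟨v, rfl⟩⟩ = v :=
    hfo.isEmbedding.toHomeomorph_symm_apply v
  rw [hθ]
  obtain ⟨c, hc, hcv⟩ := univBall_coord v₀ hv00 hr v
  have hcv' : b v 0 = c * v 0 := hcv
  have hmem : p (f v) ∈ NM := by rw [hpf]; exact (hjbO v).1.2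
  have hθv : θM ⟨p (f v), hmem⟩ = b v := by
    have : (⟨p (f v), hmem⟩ : NM) = θM.symm (b v) := Subtype.ext (hpf v)
    rw [this, θM.apply_symm_apply]
  obtain ⟨h1, h2, h3⟩ := hθM ⟨p (f v), hmem⟩
  rw [hθv, hcv'] at h1 h2 h3
  have e1 : c * v 0 = 0 ↔ v 0 = 0 := by simp [hc.ne']
  have e2 : 0 < c * v 0 ↔ 0 < v 0 := by
    constructor
    · intro h; by_contra h'; nlinarith
    · intro h; positivity
  have e3 : c * v 0 < 0 ↔ v 0 < 0 := by
    constructor
    · intro h; by_contra h'; nlinarith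
    · intro h; nlinarith
  have hS : p (f v) ∈ P.S ↔ v 0 = 0 := h1.trans e1
  refine ⟨?_, hS, h2.trans e2, h3.trans e3⟩
  rw [← hS]
  constructor
  · rintro ⟨u, hu, h⟩
    exact ⟨u, hu, by rw [← hD, h]⟩
  · rintro ⟨u, hu, h⟩
    refine ⟨u, hu, ?_⟩
    have hu' : D' u ∈ q.source := by
      by_contra hns
      refine (hjbO v).2 ?_
      rw [← hpf]
      exact ⟨u, ⟨hu, hns⟩, h⟩
    apply q.injOn hu' (hfs v)
    rw [← hq]
    show p (D' u) = p (f v)
    rw [hD, h]


namespace AltAux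

/-! ### Components on the two sides of the lifted sphere -/

theorem convex_pos (n : ℕ) : Convex ℝ {v : Fin (n + 1) → ℝ | 0 < v 0} := by
  intro x hx y hy a b ha hb hab
  simp only [mem_ofPred_eq, Pi.add_apply, Pi.smul_apply, smul_eq_mul] at *
  rcases ha.eq_or_lt with h | h
  · subst h
    have : b = 1 := by linarith
    subst this
    simpa using hy
  · have h1 : 0 < a * x 0 := mul_pos h hx
    have h2 : 0 ≤ b * y 0 := mul_nonneg hb hy.le
    linarith

variable {n : ℕ} {M E : Type} [TopologicalSpace M] [TopologicalSpace E]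

/-- Small neighbourhoods of the points of the lifted sphere. -/
theorem exists_nbhd [T2Space M] {p : E → M} (hp : IsCoveringMap p) (P : FlatSphere n M)
    (D' : C(Fin (n + 1) → unitInterval, E)) (hD : ∀ u, p (D' u) = P.D u) :
    ∀ s ∈ D' '' bdry (n + 1), ∃ N : Set E, IsOpen N ∧ s ∈ N ∧
      IsPreconnected (N ∩ p ⁻¹' P.U) ∧
      (∀ s' ∈ N, s' ∈ D' '' bdry (n + 1) → s' ∈ closure (N ∩ p ⁻¹' P.U)) ∧
      (∀ x ∈ N, p x ∈ P.S → x ∈ D' '' bdry (n + 1)) := by
  intro s hs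
  obtain ⟨N, hN, hsN, θ, hθ⟩ := lift_flat hp P D' hD s hs
  let f : (Fin (n + 1) → ℝ) → E := fun v => θ.symm v
  have hf : Continuous f := continuous_subtype_val.comp θ.symm.continuous
  have himg : N ∩ p ⁻¹' P.U = f '' {v | 0 < v 0} := by
    ext x
    constructor
    · rintro ⟨hx, hxU⟩
      exact ⟨θ ⟨x, hx⟩, (hθ ⟨x, hx⟩).2.2.1.1 hxU, by simp [f]⟩
    · rintro ⟨v, hv, rfl⟩
      refine ⟨(θ.symm v).2, (hθ (θ.symm v)).2.2.1.2 ?_⟩
      rw [θ.apply_symm_apply]
      exact hv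
  refine ⟨N, hN, hsN, ?_, ?_, ?_⟩
  · rw [himg]
    exact (convex_pos n).isPreconnected.image f hf.continuousOn
  · intro s' hs' hss
    rw [himg]
    have h0 : θ ⟨s', hs'⟩ 0 = 0 := (hθ ⟨s', hs'⟩).1.1 hss
    let g : ℝ → E := fun t => f (θ ⟨s', hs'⟩ + t • Pi.single 0 1)
    have hg : Continuous g := hf.comp (by fun_prop)
    have hg0 : g 0 = s' := by simp [g, f]
    rw [← hg0]
    refine map_mem_closure hg (s := Ioi 0) (by simp) fun t ht => ⟨_, ?_, rfl⟩
    simpa [h0] using ht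
  · intro x hx hxS
    exact (hθ ⟨x, hx⟩).1.2 ((hθ ⟨x, hx⟩).2.1.1 hxS)

/-- `Q` is the component of `p ⁻¹ U` adjacent to `Sg`. -/
structure Side (p : E → M) (U : Set M) (Sg Q : Set E) : Prop where
  isOpen : IsOpen Q
  conn : IsConnected Q
  sub : ∀ e ∈ Q, p e ∈ U
  max : ∀ C : Set E, IsPreconnected C → (∀ e ∈ C, p e ∈ U) → (C ∩ Q).Nonempty → C ⊆ Q
  near : ∀ s ∈ Sg, ∀ᶠ e in 𝓝 s, p e ∈ U → e ∈ Q
  cl : Sg ⊆ closure Q

theorem exists_side (hn : 1 ≤ n) [T2Space M] [LocallyConnectedSpace E] {p : E → M}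
    (hp : IsCoveringMap p) (P : FlatSphere n M)
    (D' : C(Fin (n + 1) → unitInterval, E)) (hD : ∀ u, p (D' u) = P.D u) :
    ∃ Q, Side p P.U (D' '' bdry (n + 1)) Q := by
  set Sg := D' '' bdry (n + 1) with hSg
  have hSgc : IsPreconnected Sg :=
    ((bdry_isPathConnected (by omega)).image D'.continuous).isConnected.isPreconnected
  have hne : Sg.Nonempty := ((bdry_isPathConnected (by omega)).nonempty).image _
  obtain ⟨s₀, hs₀⟩ := hne
  have hN := exists_nbhd hp P D' hD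
  obtain ⟨N₀, hN₀, hsN₀, hc₀, hcl₀, -⟩ := hN s₀ hs₀
  obtain ⟨q₀, -, hq₀⟩ := mem_closure_iff.1 (hcl₀ s₀ hsN₀ hs₀) univ isOpen_univ (mem_univ _)
  have hpU : IsOpen (p ⁻¹' P.U) := P.openU.preimage hp.continuous
  set Q := connectedComponentIn (p ⁻¹' P.U) q₀ with hQ
  have hQo : IsOpen Q := hpU.connectedComponentIn
  have hmax : ∀ C : Set E, IsPreconnected C → (∀ e ∈ C, p e ∈ P.U) → (C ∩ Q).Nonempty →
      C ⊆ Q := by
    rintro C hC hCU ⟨x, hxC, hxQ⟩
    rw [hQ, connectedComponentIn_eq hxQ]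
    exact hC.subset_connectedComponentIn hxC hCU
  have hnear : ∀ s ∈ Sg, ∃ N : Set E, IsOpen N ∧ s ∈ N ∧ N ∩ p ⁻¹' P.U ⊆ Q := by
    let O₁ : Set E := ⋃₀ {N | IsOpen N ∧ N ∩ p ⁻¹' P.U ⊆ Q}
    let O₂ : Set E := ⋃₀ {N | IsOpen N ∧ Disjoint (N ∩ p ⁻¹' P.U) Q}
    have hO₁ : IsOpen O₁ := isOpen_sUnion fun N h => h.1
    have hO₂ : IsOpen O₂ := isOpen_sUnion fun N h => h.1
    have hcov : Sg ⊆ O₁ ∪ O₂ := by
      intro s hs
      obtain ⟨N, hN, hsN, hc, -, -⟩ := hN s hs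
      by_cases h : ((N ∩ p ⁻¹' P.U) ∩ Q).Nonempty
      · exact Or.inl ⟨N, ⟨hN, hmax _ hc (fun e he => he.2) h⟩, hsN⟩
      · rw [Set.not_nonempty_iff_eq_empty] at h
        exact Or.inr ⟨N, ⟨hN, Set.disjoint_iff_inter_eq_empty.2 h⟩, hsN⟩
    have h12 : ¬ (Sg ∩ (O₁ ∩ O₂)).Nonempty := by
      rintro ⟨s, hs, ⟨N₁, ⟨h1, h1'⟩, hs1⟩, ⟨N₂, ⟨h2, h2'⟩, hs2⟩⟩
      obtain ⟨N, hN, hsN, hc, hcl, -⟩ := hN s hs
      obtain ⟨x, hx, hx'⟩ := mem_closure_iff.1 (hcl s hsN hs) (N₁ ∩ N₂) (h1.inter h2) ⟨hs1, hs2⟩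
      exact Set.disjoint_left.1 h2' ⟨hx.2, hx'.2⟩ (h1' ⟨hx.1, hx'.2⟩)
    have h1 : (Sg ∩ O₁).Nonempty := by
      refine ⟨s₀, hs₀, N₀, ⟨hN₀, hmax _ hc₀ (fun e he => he.2) ⟨q₀, hq₀, ?_⟩⟩, hsN₀⟩
      exact mem_connectedComponentIn hq₀.2
    have hsub : Sg ⊆ O₁ := by
      intro s hs
      rcases hcov hs with h | h
      · exact h
      · exact absurd (hSgc O₁ O₂ hO₁ hO₂ hcov h1 ⟨s, hs, h⟩) h12
    intro s hs
    obtain ⟨N, ⟨h1, h2⟩, h3⟩ := hsub hs
    exact ⟨N, h1, h3, h2⟩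
  refine ⟨Q, hQo, ⟨⟨q₀, mem_connectedComponentIn hq₀.2⟩, isPreconnected_connectedComponentIn⟩,
    fun e he => (connectedComponentIn_subset (p ⁻¹' P.U) q₀ he : e ∈ p ⁻¹' P.U), hmax, ?_, ?_⟩
  · intro s hs
    obtain ⟨N, h1, h2, h3⟩ := hnear s hs
    exact Filter.mem_of_superset (h1.mem_nhds h2) fun e he hU => h3 ⟨he, hU⟩
  · intro s hs
    obtain ⟨N, h1, h2, h3⟩ := hnear s hs
    obtain ⟨N', hN', hsN', -, hcl, -⟩ := hN s hs
    rw [_root_.mem_closure_iff]
    intro O hO hsO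
    obtain ⟨x, hx, hx'⟩ := mem_closure_iff.1 (hcl s hsN' hs) (O ∩ N) (hO.inter h1) ⟨hsO, h2⟩
    exact ⟨x, hx.1, h3 ⟨hx.2, hx'.2⟩⟩

/-! ### Deck transformations -/

theorem deck_eq_one [ConnectedSpace E] {p : E → M} (hp : IsCoveringMap p) {g : E ≃ₜ E}
    (hg : ∀ x, p (g x) = p x) {x : E} (hx : g x = x) : g = 1 := by
  have h := hp.eq_of_comp_eq (g₁ := g) (g₂ := id) g.continuous continuous_id
    (funext fun y => hg y) x hx
  exact Homeomorph.ext fun y => congrFun h y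

omit [TopologicalSpace M] in
theorem deck_inv {p : E → M} {g : E ≃ₜ E} (hg : ∀ x, p (g x) = p x) (x : E) :
    p (g⁻¹ x) = p x := by
  rw [← hg (g⁻¹ x)]
  exact congrArg p (g.apply_symm_apply x)

omit [TopologicalSpace M] in
/-- A deck transformation mapping a point of `Q` to `Q` maps `Q` onto `Q`. -/
theorem Side.image_eq {p : E → M} {U : Set M} {Sg Q : Set E} (hQ : Side p U Sg Q) {g : E ≃ₜ E}
    (hg : ∀ x, p (g x) = p x) {q : E} (hq : q ∈ Q) (hgq : g q ∈ Q) : g '' Q = Q := by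
  refine Subset.antisymm ?_ ?_
  · refine hQ.max _ (hQ.conn.isPreconnected.image _ g.continuous.continuousOn) ?_
      ⟨g q, mem_image_of_mem _ hq, hgq⟩
    rintro _ ⟨x, hx, rfl⟩
    rw [hg]
    exact hQ.sub x hx
  · have : (g⁻¹ : E ≃ₜ E) '' Q ⊆ Q := by
      refine hQ.max _ (hQ.conn.isPreconnected.image _ (g⁻¹ : E ≃ₜ E).continuous.continuousOn) ?_
        ⟨g⁻¹ (g q), mem_image_of_mem _ hgq, by
          rw [show g⁻¹ (g q) = q from g.symm_apply_apply q]; exact hq⟩
      rintro _ ⟨x, hx, rfl⟩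
      rw [deck_inv hg]
      exact hQ.sub x hx
    intro x hx
    exact ⟨g⁻¹ x, this (mem_image_of_mem _ hx), g.apply_symm_apply x⟩

/-- If the stabiliser of `Q` is trivial there is a section. -/
theorem exists_section [T2Space M] [T2Space E] [ConnectedSpace M]
    [ConnectedSpace E] (hM : LocEuc (n + 1) M) (hE : LocEuc (n + 1) E) {p : E → M}
    (hp : IsCoveringMap p)
    (hdeck : ∀ e e' : E, p e = p e' → ∃ g : E ≃ₜ E, (∀ x, p (g x) = p x) ∧ g e = e')
    (P : FlatSphere n M) (D' : C(Fin (n + 1) → unitInterval, E)) (hD : ∀ u, p (D' u) = P.D u)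
    {Q : Set E} (hQ : Side p P.U (D' '' bdry (n + 1)) Q)
    (hK : ∀ g : E ≃ₜ E, (∀ x, p (g x) = p x) → (∃ q ∈ Q, g q ∈ Q) → g = 1) :
    ∃ τ : SideSection p P.U P.S, ∀ x : ↥(P.U ∪ P.S), (x : M) ∈ P.U → τ.σ x ∈ Q := by
  have i1 : LocallyPathConnectedSpace M := UCover.locallyPathConnectedSpace_of hM
  have i2 : LocallyPathConnectedSpace E := UCover.locallyPathConnectedSpace_of hE
  set Sg := D' '' bdry (n + 1) with hSg
  have hUS : ∀ x, x ∈ P.U → x ∉ P.S := by
    intro x hx hx'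
    have h1 : x ∈ (P.D '' bdry (n + 1))ᶜ := P.compl ▸ Or.inl hx
    exact h1 hx'
  have hSgS : ∀ e ∈ Sg, p e ∈ P.S := by
    rintro _ ⟨u, hu, rfl⟩
    exact ⟨u, hu, (hD u).symm⟩
  -- surjectivity over `U`
  have hsurj : ∀ x ∈ P.U, ∃ e ∈ Q, p e = x := by
    intro x hx
    obtain ⟨q₀, hq₀⟩ := hQ.conn.nonempty
    have hpc : IsPathConnected P.U := P.openU.isConnected_iff_isPathConnected.1 P.connU
    obtain ⟨γ, hγ⟩ := hpc.joinedIn (p q₀) (hQ.sub _ hq₀) x hx
    obtain ⟨Γ, hΓ, hΓ0⟩ := hp.exists_path_lifts (γ : C(unitInterval, M)) q₀ (by simp)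
    have hΓp : ∀ t, p (Γ t) = γ t := fun t => congrFun hΓ t
    have hsub : range Γ ⊆ Q := by
      refine hQ.max _ (isPreconnected_range Γ.continuous) ?_ ⟨q₀, ⟨0, hΓ0⟩, hq₀⟩
      rintro _ ⟨t, rfl⟩
      rw [hΓp]
      exact hγ t
    exact ⟨Γ 1, hsub ⟨1, rfl⟩, by rw [hΓp]; simp⟩
  have hex : ∀ x : ↥(P.U ∪ P.S), ∃ e, e ∈ Q ∪ Sg ∧ p e = x := by
    rintro ⟨x, hx | ⟨u, hu, rfl⟩⟩
    · obtain ⟨e, he, h⟩ := hsurj x hx
      exact ⟨e, Or.inl he, h⟩
    · exact ⟨D' u, Or.inr ⟨u, hu, rfl⟩, hD u⟩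
  have huniq : ∀ e ∈ Q ∪ Sg, ∀ e' ∈ Q ∪ Sg, p e = p e' → e = e' := by
    rintro e (he | he) e' (he' | he') h
    · obtain ⟨g, hg, rfl⟩ := hdeck e e' h
      rw [hK g hg ⟨e, he, he'⟩]
      rfl
    · exact absurd (hSgS _ he') (h ▸ hUS _ (hQ.sub _ he))
    · exact absurd (hSgS _ he) (h ▸ hUS _ (hQ.sub _ he'))
    · obtain ⟨u, hu, rfl⟩ := he
      obtain ⟨v, hv, rfl⟩ := he'
      rw [hD, hD] at h
      rw [P.inj hu hv h]
  choose σ hσ hσp using hex
  have hσeq : ∀ e ∈ Q ∪ Sg, ∀ h : p e ∈ P.U ∪ P.S, σ ⟨p e, h⟩ = e := fun e he h =>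
    huniq _ (hσ _) e he (hσp _)
  -- neighbourhoods
  have hrel : ∀ e ∈ Q ∪ Sg, ∃ O : Set E, IsOpen O ∧ e ∈ O ∧
      ∀ x ∈ O, p x ∈ P.U ∪ P.S → x ∈ Q ∪ Sg := by
    rintro e (he | he)
    · exact ⟨Q, hQ.isOpen, he, fun x hx _ => Or.inl hx⟩
    · obtain ⟨N, hN, heN, -, -, hNS⟩ := exists_nbhd hp P D' hD e he
      obtain ⟨O, hO, hO', heO⟩ := eventually_nhds_iff.1 (hQ.near e he)
      refine ⟨N ∩ O, hN.inter hO', ⟨heN, heO⟩, ?_⟩
      rintro x ⟨hx, hx'⟩ (h | h)
      · exact Or.inl (hO x hx' h)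
      · exact Or.inr (hNS x hx h)
  have hrange : range σ = Q ∪ Sg := by
    refine Subset.antisymm ?_ ?_
    · rintro _ ⟨x, rfl⟩
      exact hσ x
    · intro e he
      have : p e ∈ P.U ∪ P.S := by
        rcases he with he | he
        · exact Or.inl (hQ.sub _ he)
        · exact Or.inr (hSgS _ he)
      exact ⟨⟨p e, this⟩, hσeq e he this⟩
  refine ⟨⟨σ, ?_, hσp, ?_, ?_⟩, ?_⟩
  · -- continuity
    rw [continuous_iff_continuousAt]
    intro x
    rw [ContinuousAt, _root_.tendsto_nhds]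
    intro O hO hxO
    obtain ⟨O', hO', hx', h⟩ := hrel (σ x) (hσ x)
    have hop : IsOpen (p '' (O ∩ O')) := hp.isOpenMap _ (hO.inter hO')
    have hmem : (x : M) ∈ p '' (O ∩ O') := ⟨σ x, ⟨hxO, hx'⟩, hσp x⟩
    refine Filter.mem_of_superset (continuous_subtype_val.continuousAt (hop.mem_nhds hmem)) ?_
    rintro ⟨y, hy⟩ ⟨e, ⟨heO, heO'⟩, hey⟩
    subst hey
    show σ ⟨p e, hy⟩ ∈ O
    rw [hσeq e (h e heO' hy) hy]
    exact heO
  · -- closed range
    rw [hrange]
    refine isClosed_of_closure_subset fun e he => ?_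
    have hSgcl : IsClosed Sg := by
      have hcb : IsCompact (bdry (n + 1)) := by
        have h : bdry (n + 1) = ⋃ i, ({u | u i = 0} ∪ {u | u i = 1}) := by
          ext u
          simp [bdry]
        rw [h]
        refine (isClosed_iUnion_of_finite fun i => ?_).isCompact
        exact (isClosed_eq (continuous_apply i) continuous_const).union
          (isClosed_eq (continuous_apply i) continuous_const)
      exact (hcb.image D'.continuous).isClosed
    rw [closure_union, hSgcl.closure_eq] at he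
    rcases he with he | he
    · have hpe : p e ∈ P.U ∪ P.S := by
        have h1 : p e ∈ closure (P.U ∪ P.S) :=
          map_mem_closure hp.continuous he fun x hx => Or.inl (hQ.sub x hx)
        rwa [P.isClosed_side.closure_eq] at h1
      rcases hpe with hpe | ⟨u, hu, hpe⟩
      · left
        have hpU : IsOpen (p ⁻¹' P.U) := P.openU.preimage hp.continuous
        have hop : IsOpen (connectedComponentIn (p ⁻¹' P.U) e) := hpU.connectedComponentIn
        obtain ⟨x, hx, hx'⟩ := mem_closure_iff.1 he _ hop (mem_connectedComponentIn hpe)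
        exact hQ.max _ isPreconnected_connectedComponentIn
          (fun y hy => (connectedComponentIn_subset (p ⁻¹' P.U) e hy : y ∈ p ⁻¹' P.U))
          ⟨x, hx, hx'⟩
          (mem_connectedComponentIn hpe)
      · obtain ⟨g, hg, hgu⟩ := hdeck (D' u) e (by rw [hD, hpe])
        have h1 := hQ.near (D' u) ⟨u, hu, rfl⟩
        obtain ⟨O, hO, hO', hsO⟩ := eventually_nhds_iff.1 h1
        have h2 : IsOpen (g '' O) := g.isOpenMap _ hO'
        obtain ⟨x, ⟨y, hy, rfl⟩, hx'⟩ := mem_closure_iff.1 he _ h2 ⟨D' u, hsO, hgu⟩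
        have hyQ : y ∈ Q := hO y hy (by rw [← hg y]; exact hQ.sub _ hx')
        have hg1 := hK g hg ⟨y, hyQ, hx'⟩
        rw [hg1] at hgu
        right
        exact ⟨u, hu, hgu⟩
    · exact Or.inr he
  · -- open over `U`
    have : σ '' {x : ↥(P.U ∪ P.S) | (x : M) ∈ P.U} = Q := by
      refine Subset.antisymm ?_ ?_
      · rintro _ ⟨x, hx, rfl⟩
        rcases hσ x with h | h
        · exact h
        · exact absurd (hSgS _ h) (by rw [hσp]; exact hUS _ hx)
      · intro e he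
        exact ⟨⟨p e, Or.inl (hQ.sub _ he)⟩, hQ.sub _ he, hσeq e (Or.inl he) _⟩
    rw [this]
    exact hQ.isOpen
  · intro x hx
    rcases hσ x with h | h
    · exact h
    · exact absurd (hSgS _ h) (by rw [hσp]; exact hUS _ hx)

/-! ### The two components of the complement of the lifted sphere -/

/-- The complement of `Sg` is the union of the components adjacent to the two sides. -/
theorem exists_sep [ConnectedSpace E] [LocallyConnectedSpace E] {Sg Q Q' : Set E}
    (hSg : IsClosed Sg) (hQ : IsConnected Q) (hQ' : IsConnected Q') (hQS : Q ⊆ Sgᶜ)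
    (hQS' : Q' ⊆ Sgᶜ) (hnear : ∀ s ∈ Sg, ∀ᶠ e in 𝓝 s, e ∈ Q ∪ Q' ∪ Sg) :
    ∃ A B : Set E, IsOpen A ∧ IsOpen B ∧ IsPreconnected A ∧ IsPreconnected B ∧
      A ∪ B = Sgᶜ ∧ Q ⊆ B ∧ Q' ⊆ A := by
  obtain ⟨q, hq⟩ := hQ.nonempty
  obtain ⟨q', hq'⟩ := hQ'.nonempty
  set B := connectedComponentIn Sgᶜ q with hB
  set A := connectedComponentIn Sgᶜ q' with hA
  have hBo : IsOpen B := hSg.isOpen_compl.connectedComponentIn
  have hAo : IsOpen A := hSg.isOpen_compl.connectedComponentIn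
  have hQB : Q ⊆ B := hQ.isPreconnected.subset_connectedComponentIn hq hQS
  have hQA : Q' ⊆ A := hQ'.isPreconnected.subset_connectedComponentIn hq' hQS'
  refine ⟨A, B, hAo, hBo, isPreconnected_connectedComponentIn,
    isPreconnected_connectedComponentIn, ?_, hQB, hQA⟩
  have huniv : A ∪ B ∪ Sg = univ := by
    refine IsClopen.eq_univ ⟨?_, ?_⟩ ⟨q, Or.inl (Or.inr (hQB hq))⟩
    · rw [← isOpen_compl_iff, isOpen_iff_mem_nhds]
      intro e he
      have heS : e ∈ Sgᶜ := fun h => he (Or.inr h)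
      refine Filter.mem_of_superset ((hSg.isOpen_compl.connectedComponentIn
        (x := e)).mem_nhds (mem_connectedComponentIn heS)) ?_
      rintro x hx ((hxA | hxB) | hxS)
      · apply he
        left; left
        rw [hA, connectedComponentIn_eq hxA, ← connectedComponentIn_eq hx]
        exact mem_connectedComponentIn heS
      · apply he
        left; right
        rw [hB, connectedComponentIn_eq hxB, ← connectedComponentIn_eq hx]
        exact mem_connectedComponentIn heS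
      · exact connectedComponentIn_subset _ _ hx hxS
    · rw [isOpen_iff_mem_nhds]
      rintro e ((he | he) | he)
      · exact Filter.mem_of_superset (hAo.mem_nhds he) fun x hx => Or.inl (Or.inl hx)
      · exact Filter.mem_of_superset (hBo.mem_nhds he) fun x hx => Or.inl (Or.inr hx)
      · refine Filter.mem_of_superset (hnear e he) ?_
        rintro x ((hx | hx) | hx)
        · exact Or.inl (Or.inr (hQB hx))
        · exact Or.inl (Or.inl (hQA hx))
        · exact Or.inr hx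
  refine Subset.antisymm ?_ ?_
  · rintro x (hx | hx)
    · exact connectedComponentIn_subset _ _ hx
    · exact connectedComponentIn_subset _ _ hx
  · intro x hx
    have : x ∈ A ∪ B ∪ Sg := huniv ▸ mem_univ x
    exact this.resolve_right hx

/-- Nesting. -/
theorem nest {Sg A B Q : Set E} (hne : Sg.Nonempty) (hA : IsOpen A)
    (hB : IsOpen B) (hAc : IsPreconnected A) (hdisj : Disjoint A B)
    (hAB : A ∪ B = Sgᶜ) (hAcl : Sg ⊆ closure A) (hQB : Q ⊆ B) (hQcl : Sg ⊆ closure Q)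
    (k : E ≃ₜ E) (hkS : Disjoint (k '' Sg) Sg) (hkQ : k '' Q = Q) :
    k '' (A ∪ Sg) ⊆ B := by
  have hBcl : closure B ⊆ B ∪ Sg := by
    intro x hx
    by_contra h
    have hxA : x ∈ A := by
      have : x ∈ A ∪ B := by rw [hAB]; exact fun hs => h (Or.inr hs)
      exact this.resolve_right fun hb => h (Or.inl hb)
    obtain ⟨y, hy, hy'⟩ := mem_closure_iff.1 hx A hA hxA
    exact Set.disjoint_left.1 hdisj hy hy'
  have hkcl : ∀ T : Set E, k '' closure T = closure (k '' T) := fun T => k.image_closure T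
  have hkSB : k '' Sg ⊆ B := by
    intro x hx
    have h1 : x ∈ closure B := by
      have h2 : k '' Sg ⊆ closure (k '' Q) := by
        rw [← hkcl]; exact image_mono hQcl
      rw [hkQ] at h2
      exact closure_mono hQB (h2 hx)
    exact (hBcl h1).resolve_right fun h => Set.disjoint_left.1 hkS hx h
  have hSkB : Sg ⊆ k '' B := by
    intro x hx
    have h1 : x ∈ closure (k '' B) := by
      have h2 := hQcl hx
      rw [← hkQ] at h2
      exact closure_mono (image_mono hQB) h2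
    rw [← hkcl] at h1
    obtain ⟨y, hy, rfl⟩ := h1
    rcases hBcl hy with h | h
    · exact mem_image_of_mem _ h
    · exact absurd hx fun h' => Set.disjoint_left.1 hkS (mem_image_of_mem _ h) h'
  have hASc : IsPreconnected (A ∪ Sg) :=
    hAc.subset_closure subset_union_left (union_subset subset_closure hAcl)
  have hkA : IsOpen (k '' A) := k.isOpenMap _ hA
  have hkB : IsOpen (k '' B) := k.isOpenMap _ hB
  have hkdisj : Disjoint (k '' B) (k '' A) := by
    rw [Set.disjoint_image_iff k.injective]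
    exact hdisj.symm
  have hcov : A ∪ Sg ⊆ k '' B ∪ k '' A := by
    intro x hx
    have hx1 : x ∉ k '' Sg := by
      intro h
      have hxB := hkSB h
      rcases hx with hx | hx
      · exact Set.disjoint_left.1 hdisj hx hxB
      · have : x ∈ Sgᶜ := hAB ▸ Or.inr hxB
        exact this hx
    obtain ⟨y, rfl⟩ := k.surjective x
    have hy : y ∈ A ∪ B := by
      rw [hAB]
      exact fun h => hx1 (mem_image_of_mem _ h)
    rcases hy with hy | hy
    · exact Or.inr (mem_image_of_mem _ hy)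
    · exact Or.inl (mem_image_of_mem _ hy)
  obtain ⟨s, hs⟩ := hne
  have hsub : A ∪ Sg ⊆ k '' B :=
    hASc.subset_left_of_subset_union hkB hkA hkdisj hcov ⟨s, Or.inr hs, hSkB hs⟩
  rintro _ ⟨x, hx | hx, rfl⟩
  · have h1 : k x ∉ A ∪ Sg := fun h =>
      Set.disjoint_left.1 hkdisj (hsub h) (mem_image_of_mem _ hx)
    have h2 : k x ∈ A ∪ B := by
      rw [hAB]
      exact fun h => h1 (Or.inr h)
    exact h2.resolve_left fun h => h1 (Or.inl h)
  · exact hkSB (mem_image_of_mem _ hx)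

/-- Points of infinite orbits leave every compact set. -/
theorem exists_escape [T2Space M] [ConnectedSpace E] {p : E → M} (hp : IsCoveringMap p)
    {Sg A K : Set E} (hK : IsCompact K) (hne : Sg.Nonempty) (hAS : Disjoint A Sg)
    (hA : A.Nonempty) {f : E ≃ₜ E} (hf : ∀ x, p (f x) = p x) (hfA : f '' (A ∪ Sg) ⊆ A) :
    ∃ x ∈ A, x ∉ K := by
  have hpow : ∀ (j : ℕ) (x : E), p ((f ^ j) x) = p x := by
    intro j
    induction j with
    | zero => intro x; rfl
    | succ j ih =>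
      intro x
      rw [pow_succ', Homeomorph.mul_apply, hf, ih]
  have hpowA : ∀ (j : ℕ) (x : E), x ∈ A → (f ^ j) x ∈ A := by
    intro j
    induction j with
    | zero => intro x hx; exact hx
    | succ j ih =>
      intro x hx
      rw [pow_succ', Homeomorph.mul_apply]
      exact hfA ⟨_, Or.inl (ih x hx), rfl⟩
  have hpowS : ∀ (j : ℕ) (x : E), x ∈ Sg → (f ^ (j + 1)) x ∈ A := by
    intro j x hx
    rw [pow_succ, Homeomorph.mul_apply]
    exact hpowA j _ (hfA ⟨x, Or.inr hx, rfl⟩)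
  obtain ⟨e, he⟩ := hA
  obtain ⟨s, hs⟩ := hne
  have hinj : Function.Injective fun j : ℕ => (f ^ j) e := by
    have key : ∀ i d : ℕ, (f ^ i) e ≠ (f ^ (i + (d + 1))) e := by
      intro i d h
      rw [pow_add, Homeomorph.mul_apply] at h
      have h1 := (f ^ i : E ≃ₜ E).injective h
      have h2 : f ^ (d + 1) = 1 := deck_eq_one hp (hpow _) h1.symm
      have h3 := hpowS d s hs
      rw [h2] at h3
      exact Set.disjoint_left.1 hAS h3 hs
    intro i j hij
    by_contra hne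
    rcases lt_or_gt_of_ne hne with h | h
    · obtain ⟨d, rfl⟩ := Nat.exists_eq_add_of_lt h
      exact key i d (by simpa [add_assoc] using hij)
    · obtain ⟨d, rfl⟩ := Nat.exists_eq_add_of_lt h
      exact key j d (by simpa [add_assoc] using hij.symm)
  by_contra hcon
  push Not at hcon
  have hfin : (K ∩ p ⁻¹' {p e}).Finite := by
    refine (hK.inter_right (isClosed_singleton.preimage hp.continuous)).finite ?_
    have h1 : IsDiscrete (p ⁻¹' {p e}) := ⟨(hp (p e)).1⟩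
    exact h1.mono inter_subset_right
  refine hfin.not_infinite ((infinite_range_of_injective hinj).mono ?_)
  rintro _ ⟨j, rfl⟩
  exact ⟨hcon _ (hpowA j e he), hpow j e⟩

end AltAux

open AltAux in
/-- **The alternative.** Let `p : E → M` be a covering with transitive deck transformations,
`E` connected, `D'` a lift of the disc of the flat sphere `P`, and `m : E → ℕ` a function which
vanishes off the image of `D'`, is locally constant off `D' (bdry)`, and has at every point of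
`D' (bdry)` on the two sides coprime values of different parity.  Then either there is a section
over the closed side `U ∪ S`, or there is a section `σ` over the closed side `V ∪ S` and a deck
transformation `g` such that `m` has constant coprime values `a`, `b` on `g (σ V)` and `σ V`. -/
theorem alternative {n : ℕ} (hn : 1 ≤ n) {M E : Type} [TopologicalSpace M] [TopologicalSpace E]
    [T2Space M] [T2Space E] [ConnectedSpace M] [ConnectedSpace E]
    (hM : LocEuc (n + 1) M) (hE : LocEuc (n + 1) E) {p : E → M} (hp : IsCoveringMap p)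
    (hdeck : ∀ e e' : E, p e = p e' → ∃ g : E ≃ₜ E, (∀ x, p (g x) = p x) ∧ g e = e')
    (P : FlatSphere n M) (D' : C(Fin (n + 1) → unitInterval, E)) (hD : ∀ u, p (D' u) = P.D u)
    (m : E → ℕ) (h0 : ∀ e, e ∉ Set.range D' → m e = 0)
    (hloc : ∀ e, e ∉ D' '' bdry (n + 1) → ∀ᶠ e' in nhds e, m e' = m e)
    (hjump : ∀ s ∈ D' '' bdry (n + 1), ∃ W ∈ nhds s, ∃ a b : ℕ, Nat.Coprime a b ∧
      a % 2 ≠ b % 2 ∧ ∀ e ∈ W, (p e ∈ P.U → m e = a) ∧ (p e ∈ P.V → m e = b)) :
    Nonempty (SideSection p P.U P.S) ∨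
    ∃ (τ : SideSection p P.V P.S) (g : E ≃ₜ E) (a b : ℕ), (∀ x, p (g x) = p x) ∧
      Nat.Coprime a b ∧
      (∀ x : ↥(P.V ∪ P.S), (x : M) ∈ P.V → τ.σ x ∉ D' '' bdry (n + 1) ∧ m (τ.σ x) = b) ∧
      (∀ x : ↥(P.V ∪ P.S), (x : M) ∈ P.V → g (τ.σ x) ∉ D' '' bdry (n + 1) ∧ m (g (τ.σ x)) = a) := by
  have i1 : LocallyPathConnectedSpace M := UCover.locallyPathConnectedSpace_of hM
  have i2 : LocallyPathConnectedSpace E := UCover.locallyPathConnectedSpace_of hE
  set Sg := D' '' bdry (n + 1) with hSgdef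
  have hcb : IsCompact (bdry (n + 1)) := by
    have h : bdry (n + 1) = ⋃ i, ({u | u i = 0} ∪ {u | u i = 1}) := by
      ext u
      simp [bdry]
    rw [h]
    refine (isClosed_iUnion_of_finite fun i => ?_).isCompact
    exact (isClosed_eq (continuous_apply i) continuous_const).union
      (isClosed_eq (continuous_apply i) continuous_const)
  have hSgcl : IsClosed Sg := (hcb.image D'.continuous).isClosed
  have hSgne : Sg.Nonempty := ((bdry_isPathConnected (by omega)).nonempty).image _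
  obtain ⟨Q, hQ⟩ := exists_side hn hp P D' hD
  obtain ⟨Q', hQ'⟩ := exists_side hn hp P.symm D' hD
  rw [← hSgdef] at hQ hQ'
  have hSgS : ∀ e ∈ Sg, p e ∈ P.S := by
    rintro _ ⟨u, hu, rfl⟩
    exact ⟨u, hu, (hD u).symm⟩
  have hUS : ∀ x, x ∈ P.U → x ∉ P.S := by
    intro x hx hx'
    have h1 : x ∈ (P.D '' bdry (n + 1))ᶜ := P.compl ▸ Or.inl hx
    exact h1 hx'
  have hVS : ∀ x, x ∈ P.V → x ∉ P.S := by
    intro x hx hx'
    have h1 : x ∈ (P.D '' bdry (n + 1))ᶜ := P.compl ▸ Or.inr hx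
    exact h1 hx'
  have hQS : Q ⊆ Sgᶜ := fun e he hs => hUS _ (hQ.sub e he) (hSgS e hs)
  have hQS' : Q' ⊆ Sgᶜ := fun e he hs => hVS _ (hQ'.sub e he) (hSgS e hs)
  by_cases hK : ∀ g : E ≃ₜ E, (∀ x, p (g x) = p x) → (∃ q ∈ Q, g q ∈ Q) → g = 1
  · left
    obtain ⟨τ, -⟩ := exists_section hM hE hp hdeck P D' hD hQ hK
    exact ⟨τ⟩
  push Not at hK
  obtain ⟨k, hk, ⟨q, hq, hkq⟩, hk1⟩ := hK
  -- the two components
  have hnear : ∀ s ∈ Sg, ∀ᶠ e in 𝓝 s, e ∈ Q ∪ Q' ∪ Sg := by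
    intro s hs
    obtain ⟨N, hN, hsN, -, -, hNS⟩ := exists_nbhd hp P D' hD s hs
    filter_upwards [hQ.near s hs, hQ'.near s hs, hN.mem_nhds hsN] with e h1 h2 h3
    by_cases hS : p e ∈ P.S
    · exact Or.inr (hNS e h3 hS)
    · have h4 : p e ∈ P.U ∪ P.V := by
        rw [P.compl]
        exact hS
      rcases h4 with h4 | h4
      · exact Or.inl (Or.inl (h1 h4))
      · exact Or.inl (Or.inr (h2 h4))
  obtain ⟨A, B, hA, hB, hAc, hBc, hAB, hQB, hQA⟩ :=
    exists_sep hSgcl hQ.conn hQ'.conn hQS hQS' hnear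
  have hconst : ∀ T : Set E, IsPreconnected T → T ⊆ Sgᶜ → ∀ x ∈ T, ∀ y ∈ T, m x = m y := by
    intro T hT hTS x hx y hy
    refine hT.constant (f := m) (fun e he => ?_) hx hy
    refine ContinuousAt.continuousWithinAt ?_
    exact (continuousAt_const (y := m e)).congr ((hloc e (hTS he)).mono fun _ h => h.symm)
  have hAS : A ⊆ Sgᶜ := hAB ▸ subset_union_left
  have hBS : B ⊆ Sgᶜ := hAB ▸ subset_union_right
  obtain ⟨q', hq'⟩ := hQ'.conn.nonempty
  -- the values
  obtain ⟨s, hs⟩ := id hSgne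
  obtain ⟨W, hW, a, b, hab, hpar, hval⟩ := hjump s hs
  have ha : ∀ e ∈ B, m e = a := by
    intro e he
    obtain ⟨x, hx, hx'⟩ := mem_closure_iff_nhds.1 (hQ.cl hs) W hW
    rw [hconst B hBc hBS e he x (hQB hx')]
    exact (hval x hx).1 (hQ.sub x hx')
  have hb : ∀ e ∈ A, m e = b := by
    intro e he
    obtain ⟨x, hx, hx'⟩ := mem_closure_iff_nhds.1 (hQ'.cl hs) W hW
    rw [hconst A hAc hAS e he x (hQA hx')]
    exact (hval x hx).2 (hQ'.sub x hx')
  have hdisj : Disjoint A B := by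
    rw [Set.disjoint_left]
    intro x hxA hxB
    rw [← ha x hxB, ← hb x hxA] at hpar
    exact hpar rfl
  have hAcl : Sg ⊆ closure A := fun x hx => closure_mono hQA (hQ'.cl hx)
  have hBcl : Sg ⊆ closure B := fun x hx => closure_mono hQB (hQ.cl hx)
  have hmove : ∀ g : E ≃ₜ E, (∀ x, p (g x) = p x) → g ≠ 1 → Disjoint (g '' Sg) Sg := by
    intro g hg hg1
    rw [Set.disjoint_left]
    rintro _ ⟨_, ⟨u, hu, rfl⟩, rfl⟩ ⟨v, hv, hv'⟩
    apply hg1
    have h1 : P.D v = P.D u := by rw [← hD, hv', hg, hD]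
    rw [P.inj hv hu h1] at hv'
    exact deck_eq_one hp hg hv'.symm
  have hkAB : k '' (A ∪ Sg) ⊆ B :=
    nest hSgne hA hB hAc hdisj hAB hAcl hQB hQ.cl k (hmove k hk hk1)
      (hQ.image_eq hk hq hkq)
  by_cases hH : ∀ g : E ≃ₜ E, (∀ x, p (g x) = p x) → (∃ q ∈ Q', g q ∈ Q') → g = 1
  · right
    obtain ⟨τ, hτ⟩ := exists_section hM hE hp hdeck P.symm D' hD hQ' hH
    refine ⟨τ, k, a, b, hk, hab, fun x hx => ?_, fun x hx => ?_⟩
    · have h1 : τ.σ x ∈ A := hQA (hτ x hx)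
      exact ⟨hAS h1, hb _ h1⟩
    · have h1 : τ.σ x ∈ A := hQA (hτ x hx)
      have h2 : k (τ.σ x) ∈ B := hkAB ⟨_, Or.inl h1, rfl⟩
      exact ⟨hBS h2, ha _ h2⟩
  · exfalso
    push Not at hH
    obtain ⟨h, hh, ⟨r, hr, hhr⟩, hh1⟩ := hH
    have hhAB : h '' (B ∪ Sg) ⊆ A :=
      nest hSgne hB hA hBc hdisj.symm (by rw [union_comm]; exact hAB) hBcl hQA hQ'.cl h
        (hmove h hh hh1) (hQ'.image_eq hh hr hhr)
    have hASd : Disjoint A Sg := Set.disjoint_left.2 fun x hx => hAS hx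
    have hBSd : Disjoint B Sg := Set.disjoint_left.2 fun x hx => hBS hx
    have hKc : IsCompact (range D') := isCompact_range D'.continuous
    have hb0 : b = 0 := by
      have h1 : (h * k : E ≃ₜ E) '' (A ∪ Sg) ⊆ A := by
        rintro _ ⟨x, hx, rfl⟩
        exact hhAB ⟨k x, Or.inl (hkAB ⟨x, hx, rfl⟩), rfl⟩
      obtain ⟨x, hx, hx'⟩ := exists_escape hp hKc hSgne hASd ⟨q', hQA hq'⟩
        (f := h * k) (fun x => by rw [Homeomorph.mul_apply, hh, hk]) h1
      rw [← hb x hx, h0 x hx']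
    have ha0 : a = 0 := by
      have h1 : (k * h : E ≃ₜ E) '' (B ∪ Sg) ⊆ B := by
        rintro _ ⟨x, hx, rfl⟩
        exact hkAB ⟨h x, Or.inl (hhAB ⟨x, hx, rfl⟩), rfl⟩
      obtain ⟨x, hx, hx'⟩ := exists_escape hp hKc hSgne hBSd ⟨q, hQB hq⟩
        (f := k * h) (fun x => by rw [Homeomorph.mul_apply, hk, hh]) h1
      rw [← ha x hx, h0 x hx']
    rw [ha0, hb0] at hpar
    exact hpar rfl

end CubeHom
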