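import Pool.Agent.Lib.MP_cb6a70_gt_HB.Grid

/-!
# A compact space with Euclidean or half space charts, all of whose cube boundaries fill, is
contractible
-/

namespace CubeHom

open Set Topology

/-! ### Absolute neighbourhood extensors -/

/-- `S` is an absolute neighbourhood extensor for normal spaces. -/
def ANE {X : Type} [TopologicalSpace X] (S : Set X) : Prop :=
  ∀ (T : Type) [TopologicalSpace T] [NormalSpace T] (A : Set T) (f : T → X),
    IsClosed A → ContinuousOn f A → MapsTo f A S →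
    ∃ W : Set T, IsOpen W ∧ A ⊆ W ∧ ∃ g : T → X, ContinuousOn g W ∧ EqOn g f A ∧ MapsTo g W S

variable {X : Type} [TopologicalSpace X]

theorem ane_of_tietze {S : Set X} {Y : Type} [TopologicalSpace Y] [TietzeExtension.{0, 0} Y]
    (h : S ≃ₜ Y) : ANE S := by
  intro T _ _ A f hA hf hm
  have hc : Continuous fun a : A => h ⟨f a, hm a.2⟩ :=
    h.continuous.comp (Continuous.subtype_mk (continuousOn_iff_continuous_domRestrict.1 hf) _)
  obtain ⟨G, hG⟩ := ContinuousMap.exists_restrict_eq hA (⟨_, hc⟩ : C(A, Y))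
  refine ⟨univ, isOpen_univ, subset_univ _, fun t => (h.symm (G t) : X), ?_, ?_, ?_⟩
  · exact (continuous_subtype_val.comp (h.symm.continuous.comp G.continuous)).continuousOn
  · intro a ha
    have : G a = h ⟨f a, hm ha⟩ := by
      have := DFunLike.congr_fun hG ⟨a, ha⟩
      simpa using this
    simp [this]
  · intro t _
    exact (h.symm (G t)).2

theorem ane_open {S U : Set X} (hS : ANE S) (hU : IsOpen U) (hUS : U ⊆ S) : ANE U := by
  intro T _ _ A f hA hf hm
  obtain ⟨W, hW, hAW, g, hg, hgf, hgm⟩ := hS T A f hA hf (fun a ha => hUS (hm ha))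
  refine ⟨W ∩ g ⁻¹' U, hg.isOpen_inter_preimage hW hU, fun a ha => ⟨hAW ha, ?_⟩, g,
    hg.mono inter_subset_left, hgf, fun t ht => ht.2⟩
  simpa [hgf ha] using hm ha

theorem ane_union {S₁ S₂ : Set X} (h₁ : ANE S₁) (h₂ : ANE S₂) (o₁ : IsOpen S₁)
    (o₂ : IsOpen S₂) : ANE (S₁ ∪ S₂) := by
  classical
  intro T _ _ A f hA hf hm
  -- the two closed sets
  have hF₁ : IsClosed (A ∩ f ⁻¹' S₂ᶜ) := hf.preimage_isClosed_of_isClosed hA o₂.isClosed_compl
  have hF₂ : IsClosed (A ∩ f ⁻¹' S₁ᶜ) := hf.preimage_isClosed_of_isClosed hA o₁.isClosed_compl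
  have hdis : Disjoint (A ∩ f ⁻¹' S₂ᶜ) (A ∩ f ⁻¹' S₁ᶜ) := by
    rw [Set.disjoint_left]
    rintro x ⟨hx, h2⟩ ⟨-, h1⟩
    rcases hm hx with h | h
    · exact h1 h
    · exact h2 h
  obtain ⟨P, Q, hP, hQ, hFP, hFQ, hPQ⟩ := NormalSpace.normal _ _ hF₁ hF₂ hdis
  -- `T₁ = Qᶜ`, `T₂ = Pᶜ`
  have hT₁ : IsClosed Qᶜ := hQ.isClosed_compl
  have hT₂ : IsClosed Pᶜ := hP.isClosed_compl
  have hcov : ∀ x, x ∈ Qᶜ ∨ x ∈ Pᶜ := by
    intro x
    by_contra h
    push Not at h
    exact Set.disjoint_left.1 hPQ (not_not.1 h.2) (not_not.1 h.1)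
  have hA₁ : ∀ x ∈ A, x ∈ Qᶜ → f x ∈ S₁ := by
    intro x hx hxQ
    by_contra h
    exact hxQ (hFQ ⟨hx, h⟩)
  have hA₂ : ∀ x ∈ A, x ∈ Pᶜ → f x ∈ S₂ := by
    intro x hx hxP
    by_contra h
    exact hxP (hFP ⟨hx, h⟩)
  -- extension over a neighbourhood in the intersection
  obtain ⟨O, hO, hAO, f₀, hf₀, hf₀f, hf₀m⟩ := ane_open h₁ (o₁.inter o₂) inter_subset_left T
    (A ∩ (Qᶜ ∩ Pᶜ)) f (hA.inter (hT₁.inter hT₂)) (hf.mono inter_subset_left)
    (fun x hx => ⟨hA₁ x hx.1 hx.2.1, hA₂ x hx.1 hx.2.2⟩)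
  obtain ⟨O', hO', hAO', hO'O⟩ := normal_exists_closure_subset
    (hA.inter (hT₁.inter hT₂)) hO hAO
  set V₀ : Set T := closure O' ∩ (Qᶜ ∩ Pᶜ) with hV₀
  have hV₀c : IsClosed V₀ := isClosed_closure.inter (hT₁.inter hT₂)
  have key : ∀ (S : Set X), ANE S → ∀ B : Set T, IsClosed B → (∀ x ∈ A, x ∈ B → f x ∈ S) →
      (S₁ ∩ S₂ ⊆ S) → ∃ V : Set T, IsOpen V ∧ A ∩ B ⊆ V ∧ V₀ ⊆ V ∧
        ∃ g : T → X, ContinuousOn g V ∧ EqOn g f (A ∩ B) ∧ EqOn g f₀ V₀ ∧ MapsTo g V S := by
    intro S hS B hB hAB hSS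
    have e1 : EqOn (fun x => if x ∈ V₀ then f₀ x else f x) f (A ∩ B) := by
      intro x hx
      by_cases h : x ∈ V₀
      · simp only [h, if_true]
        exact hf₀f ⟨hx.1, h.2⟩
      · simp only [h, if_false]
    have e2 : EqOn (fun x => if x ∈ V₀ then f₀ x else f x) f₀ V₀ := by
      intro x hx
      simp only [hx, if_true]
    obtain ⟨V, hV, hsub, g, hg, hgf, hgm⟩ := hS T ((A ∩ B) ∪ V₀)
      (fun x => if x ∈ V₀ then f₀ x else f x) ((hA.inter hB).union hV₀c)
      (ContinuousOn.union_of_isClosed ((hf.mono inter_subset_left).congr e1)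
        ((hf₀.mono fun x hx => hO'O hx.1).congr e2) (hA.inter hB) hV₀c)
      (by
        rintro x (hx | hx)
        · rw [e1 hx]; exact hAB x hx.1 hx.2
        · rw [e2 hx]; exact hSS (hf₀m (hO'O hx.1)))
    exact ⟨V, hV, subset_union_left.trans hsub, subset_union_right.trans hsub, g, hg,
      fun x hx => (hgf (Or.inl hx)).trans (e1 hx), fun x hx => (hgf (Or.inr hx)).trans (e2 hx),
      hgm⟩
  obtain ⟨V₁, hV₁, hAV₁, -, g₁, hg₁, hg₁f, hg₁0, hg₁m⟩ := key S₁ h₁ Qᶜ hT₁ hA₁ inter_subset_left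
  obtain ⟨V₂, hV₂, hAV₂, -, g₂, hg₂, hg₂f, hg₂0, hg₂m⟩ := key S₂ h₂ Pᶜ hT₂ hA₂ inter_subset_right
  refine ⟨(V₁ ∪ Q) ∩ (V₂ ∪ P) ∩ (O' ∪ (Q ∪ P)), ((hV₁.union hQ).inter (hV₂.union hP)).inter
    (hO'.union (hQ.union hP)), ?_, fun x => if x ∈ Qᶜ then g₁ x else g₂ x, ?_, ?_, ?_⟩
  · intro x hx
    refine ⟨⟨?_, ?_⟩, ?_⟩
    · by_cases h : x ∈ Q
      · exact Or.inr h
      · exact Or.inl (hAV₁ ⟨hx, h⟩)
    · by_cases h : x ∈ P
      · exact Or.inr h
      · exact Or.inl (hAV₂ ⟨hx, h⟩)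
    · by_cases h : x ∈ Q
      · exact Or.inr (Or.inl h)
      by_cases h' : x ∈ P
      · exact Or.inr (Or.inr h')
      exact Or.inl (hAO' ⟨hx, h, h'⟩)
  · set W : Set T := (V₁ ∪ Q) ∩ (V₂ ∪ P) ∩ (O' ∪ (Q ∪ P)) with hW
    intro x hx
    have e1 : EqOn (fun x => if x ∈ Qᶜ then g₁ x else g₂ x) g₁ (W ∩ Qᶜ) := by
      rintro y ⟨-, hy⟩
      simp only [hy, if_true]
    have e2 : EqOn (fun x => if x ∈ Qᶜ then g₁ x else g₂ x) g₂ (W ∩ Pᶜ) := by
      rintro y ⟨hy, hyP⟩
      by_cases h : y ∈ Qᶜ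
      · simp only [h, if_true]
        have hO : y ∈ O' := by
          rcases hy.2 with h3 | h3 | h3
          · exact h3
          · exact absurd h3 h
          · exact absurd h3 hyP
        have hy0 : y ∈ V₀ := ⟨subset_closure hO, h, hyP⟩
        rw [hg₁0 hy0, hg₂0 hy0]
      · simp only [h, if_false]
    have c1 : ContinuousWithinAt (fun x => if x ∈ Qᶜ then g₁ x else g₂ x) (W ∩ Qᶜ) x := by
      by_cases h : x ∈ Qᶜ
      · refine (hg₁.mono ?_).congr e1 x ⟨hx, h⟩
        rintro y ⟨hy, hyQ⟩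
        exact hy.1.1.resolve_right hyQ
      · refine continuousWithinAt_of_notMem_closure fun hc => h ?_
        exact (closure_minimal inter_subset_right hT₁) hc
    have c2 : ContinuousWithinAt (fun x => if x ∈ Qᶜ then g₁ x else g₂ x) (W ∩ Pᶜ) x := by
      by_cases h : x ∈ Pᶜ
      · refine (hg₂.mono ?_).congr e2 x ⟨hx, h⟩
        rintro y ⟨hy, hyP⟩
        exact hy.1.2.resolve_right hyP
      · refine continuousWithinAt_of_notMem_closure fun hc => h ?_
        exact (closure_minimal inter_subset_right hT₂) hc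
    refine (c1.union c2).mono fun y hy => ?_
    rcases hcov y with h | h
    · exact Or.inl ⟨hy, h⟩
    · exact Or.inr ⟨hy, h⟩
  · intro x hx
    by_cases h : x ∈ Qᶜ
    · simp only [h, if_true]
      exact hg₁f ⟨hx, h⟩
    · simp only [h, if_false]
      exact hg₂f ⟨hx, (hcov x).resolve_left h⟩
  · rintro x ⟨⟨h1, h2⟩, h3⟩
    by_cases h : x ∈ Qᶜ
    · simp only [h, if_true]
      exact Or.inl (hg₁m (h1.resolve_right h))
    · simp only [h, if_false]
      exact Or.inr (hg₂m (h2.resolve_right ((hcov x).resolve_left h)))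

theorem ane_half {S : Set X} {k : ℕ} (h : S ≃ₜ Half k) : ANE S := by
  intro T _ _ A f hA hf hm
  have hc : Continuous fun a : A => (h ⟨f a, hm a.2⟩ : Fin (k + 1) → ℝ) :=
    continuous_subtype_val.comp (h.continuous.comp
      (Continuous.subtype_mk (continuousOn_iff_continuous_domRestrict.1 hf) _))
  obtain ⟨G, hG⟩ := ContinuousMap.exists_restrict_eq hA (⟨_, hc⟩ : C(A, Fin (k + 1) → ℝ))
  have hr : Continuous fun v : Fin (k + 1) → ℝ => Function.update v 0 (max (v 0) 0) :=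
    continuous_id.update 0 ((continuous_apply 0).max continuous_const)
  refine ⟨univ, isOpen_univ, subset_univ _, fun t => (h.symm ⟨Function.update (G t) 0
    (max (G t 0) 0), by simp⟩ : X), ?_, ?_, ?_⟩
  · refine (continuous_subtype_val.comp (h.symm.continuous.comp ?_)).continuousOn
    exact Continuous.subtype_mk (hr.comp G.continuous) _
  · intro a ha
    have : G a = h ⟨f a, hm ha⟩ := by
      have := DFunLike.congr_fun hG ⟨a, ha⟩
      simpa using this
    have h0 : (0 : ℝ) ≤ G a 0 := by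
      rw [this]; exact (h ⟨f a, hm ha⟩).2
    have h1 : Function.update (G a) 0 (max (G a 0) 0) = G a := by
      rw [max_eq_left h0]; exact Function.update_eq_self _ _
    have h2 : (⟨Function.update (G a) 0 (max (G a 0) 0), by simp⟩ : Half k)
        = h ⟨f a, hm ha⟩ := by
      apply Subtype.ext
      exact h1.trans this
    simp [h2]
  · intro t _
    exact (h.symm _).2

theorem ane_empty : ANE (∅ : Set X) := by
  intro T _ _ A f hA hf hm
  refine ⟨∅, isOpen_empty, fun a ha => (hm ha).elim, f, continuousOn_empty f, fun a ha => rfl,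
    fun a ha => ha.elim⟩

theorem ane_univ [CompactSpace X] (hloc : LocHalf X) : ANE (univ : Set X) := by
  have h : ∀ x : X, ∃ S : Set X, IsOpen S ∧ x ∈ S ∧ ANE S := by
    intro x
    obtain ⟨S, hS, hx, k, h | h⟩ := hloc x
    · obtain ⟨h⟩ := h
      exact ⟨S, hS, hx, ane_of_tietze h⟩
    · obtain ⟨h⟩ := h
      exact ⟨S, hS, hx, ane_half h⟩
  choose S hS hx hA using h
  obtain ⟨t, ht⟩ := isCompact_univ.elim_finite_subcover S hS
    (fun x _ => mem_iUnion.2 ⟨x, hx x⟩)
  have : ∀ t : Finset X, ANE (⋃ i ∈ t, S i) := by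
    classical
    intro t
    induction t using Finset.induction_on with
    | empty => simpa using ane_empty
    | insert a t ha ih =>
      rw [Finset.set_biUnion_insert]
      exact ane_union (hA a) ih (hS a) (isOpen_biUnion fun i _ => hS i)
  have h2 := this t
  rwa [univ_subset_iff.1 ht] at h2

/-! ### Extension of maps from compact subsets of Euclidean space -/

theorem extend_of_compact (hA : ANE (univ : Set X)) {M : ℕ} (hF : ∀ j ≤ M, Fills X j)
    {A : Set (Fin M → ℝ)} (hAc : IsCompact A) {f : (Fin M → ℝ) → X} (hf : ContinuousOn f A) :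
    ∃ F : (Fin M → ℝ) → X, Continuous F ∧ EqOn F f A := by
  obtain ⟨W, hW, hAW, g, hg, hgf, -⟩ := hA (Fin M → ℝ) A f hAc.isClosed hf (mapsTo_univ _ _)
  obtain ⟨δ, hδ, hsub⟩ := hAc.exists_cthickening_subset_open hW hAW
  -- rescale
  have hmem : ∀ v : Fin M → ℝ, (∃ b : Fin M → ℤ, v ∈ cube b ∧ ∃ a ∈ A, (δ⁻¹ • a) ∈ cube b) →
      δ • v ∈ W := by
    rintro v ⟨b, hv, a, ha, hab⟩
    refine hsub (Metric.mem_cthickening_of_dist_le _ a _ _ ha ?_)
    have h1 : dist v (δ⁻¹ • a) ≤ 1 := by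
      refine (dist_pi_le_iff zero_le_one).2 fun i => ?_
      have h2 := hv i
      have h3 := hab i
      rw [Real.dist_eq, abs_le]
      constructor <;> linarith
    have h4 : a = δ • (δ⁻¹ • a) := by rw [smul_smul, mul_inv_cancel₀ hδ.ne', one_smul]
    calc dist (δ • v) a = dist (δ • v) (δ • (δ⁻¹ • a)) := by rw [← h4]
      _ = ‖δ‖ * dist v (δ⁻¹ • a) := dist_smul₀ _ _ _
      _ ≤ ‖δ‖ * 1 := by gcongr
      _ = δ := by rw [mul_one, Real.norm_of_nonneg hδ.le]
  obtain ⟨F, hFc, hFe⟩ := grid_ext hF {b : Fin M → ℤ | ∃ a ∈ A, (δ⁻¹ • a) ∈ cube b}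
    (fun v => g (δ • v)) (by
      refine hg.comp (continuous_const_smul δ).continuousOn ?_
      intro v hv
      obtain ⟨b, hb, hvb⟩ := mem_iUnion₂.1 hv
      exact hmem v ⟨b, hvb, hb⟩)
  refine ⟨fun u => F (δ⁻¹ • u), hFc.comp (continuous_const_smul _), fun a ha => ?_⟩
  have hc : (δ⁻¹ • a) ∈ cube (fun i => ⌊(δ⁻¹ • a) i⌋) := fun i =>
    ⟨Int.floor_le _, (Int.lt_floor_add_one _).le⟩
  have h1 : F (δ⁻¹ • a) = g (δ • (δ⁻¹ • a)) :=
    hFe (mem_iUnion₂.2 ⟨_, ⟨a, ha, hc⟩, hc⟩)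
  show F (δ⁻¹ • a) = f a
  rw [h1, smul_smul, mul_inv_cancel₀ hδ.ne', one_smul]
  exact hgf ha

/-- Extension of maps from closed subsets of cubes. -/
theorem extend_cube {X : Type} [TopologicalSpace X] [CompactSpace X] (hloc : LocHalf X) {m : ℕ}
    (hF : ∀ i ≤ m, Fills X i) {A : Set (Fin m → unitInterval)} (hA : IsClosed A)
    {g : (Fin m → unitInterval) → X} (hg : ContinuousOn g A) :
    ∃ G : (Fin m → unitInterval) → X, Continuous G ∧ Set.EqOn G g A := by
  have hι : Continuous fun s : Fin m → unitInterval => fun i => (s i : ℝ) :=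
    continuous_pi fun i => continuous_subtype_val.comp (continuous_apply i)
  have hπ : Continuous fun u : Fin m → ℝ => fun i => projIcc (0 : ℝ) 1 zero_le_one (u i) :=
    continuous_pi fun i => continuous_projIcc.comp (continuous_apply i)
  have hπι : ∀ s : Fin m → unitInterval,
      (fun i => projIcc (0 : ℝ) 1 zero_le_one (s i : ℝ)) = s := by
    intro s
    funext i
    exact projIcc_val zero_le_one (s i)
  obtain ⟨F, hFc, hFe⟩ := extend_of_compact (ane_univ hloc) hF (hA.isCompact.image hι)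
    (f := fun u => g fun i => projIcc (0 : ℝ) 1 zero_le_one (u i)) (by
      refine hg.comp hπ.continuousOn ?_
      rintro _ ⟨s, hs, rfl⟩
      simp only [hπι]
      exact hs)
  refine ⟨fun s => F fun i => (s i : ℝ), hFc.comp hι, fun s hs => ?_⟩
  have h1 := hFe ⟨s, hs, rfl⟩
  simp only [hπι] at h1
  exact h1

/-- **Main theorem of this file.** -/
theorem contractible_of_fills {X : Type} [TopologicalSpace X] [CompactSpace X] [Nonempty X]
    {N : ℕ} (e : X → (Fin N → ℝ)) (he : Topology.IsEmbedding e) (hloc : LocHalf X)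
    (hF : ∀ m, Fills X m) : ContractibleSpace X := by
  classical
  obtain ⟨x₀⟩ := ‹Nonempty X›
  -- the two ends of the cylinder
  have hj : ∀ t : ℝ, Continuous fun x : X => (Fin.cons t (e x) : Fin (N + 1) → ℝ) := by
    intro t
    refine continuous_pi fun i => ?_
    refine Fin.cases ?_ (fun i => ?_) i
    · simpa using continuous_const
    · simp only [Fin.cons_succ]
      exact (continuous_apply i).comp he.continuous
  set A₀ : Set (Fin (N + 1) → ℝ) := range fun x : X => (Fin.cons 0 (e x) : Fin (N + 1) → ℝ)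
  set A₁ : Set (Fin (N + 1) → ℝ) := range fun x : X => (Fin.cons 1 (e x) : Fin (N + 1) → ℝ)
  have hc₀ : IsCompact A₀ := isCompact_range (hj 0)
  have hc₁ : IsCompact A₁ := isCompact_range (hj 1)
  let f : (Fin (N + 1) → ℝ) → X := fun u =>
    if h : u 0 = 0 ∧ ∃ x, e x = Fin.tail u then h.2.choose else x₀
  have hf0 : ∀ x, f (Fin.cons 0 (e x)) = x := by
    intro x
    have h : (Fin.cons 0 (e x) : Fin (N + 1) → ℝ) 0 = 0 ∧
        ∃ y, e y = Fin.tail (Fin.cons 0 (e x) : Fin (N + 1) → ℝ) := by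
      refine ⟨by simp, x, by simp [Fin.tail_cons]⟩
    have h2 : f (Fin.cons 0 (e x)) = h.2.choose := dif_pos h
    rw [h2]
    apply he.injective
    rw [h.2.choose_spec, Fin.tail_cons]
  have hf1 : ∀ x, f (Fin.cons 1 (e x)) = x₀ := by
    intro x
    refine dif_neg ?_
    rintro ⟨h, -⟩
    simp at h
  have hf : ContinuousOn f (A₀ ∪ A₁) := by
    refine ContinuousOn.union_of_isClosed ?_ ?_ hc₀.isClosed hc₁.isClosed
    · have hemb : IsEmbedding fun x : X => (Fin.cons 0 (e x) : Fin (N + 1) → ℝ) := by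
        refine IsEmbedding.of_comp (hj 0) (g := fun u : Fin (N + 1) → ℝ => Fin.tail u) ?_ ?_
        · exact continuous_pi fun i => continuous_apply _
        · have : ((fun u : Fin (N + 1) → ℝ => Fin.tail u) ∘
              fun x : X => (Fin.cons 0 (e x) : Fin (N + 1) → ℝ)) = e := by
            funext x
            simp [Fin.tail_cons]
          rw [this]
          exact he
      rw [continuousOn_iff_continuous_domRestrict]
      have h4 : (A₀.domRestrict f) = fun u => hemb.toHomeomorph.symm u := by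
        funext u
        obtain ⟨x, rfl⟩ := hemb.toHomeomorph.surjective u
        rw [Homeomorph.symm_apply_apply]
        exact hf0 x
      rw [h4]
      exact hemb.toHomeomorph.symm.continuous
    · refine (continuousOn_const (c := x₀)).congr ?_
      rintro _ ⟨x, rfl⟩
      exact hf1 x
  obtain ⟨F, hFc, hFe⟩ := extend_of_compact (ane_univ hloc) (fun j _ => hF j) (hc₀.union hc₁) hf
  rw [contractible_iff_id_nullhomotopic]
  refine ⟨x₀, ⟨⟨⟨fun p => F (Fin.cons (p.1 : ℝ) (e p.2)), ?_⟩, ?_, ?_⟩⟩⟩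
  · refine hFc.comp (continuous_pi fun i => ?_)
    refine Fin.cases ?_ (fun i => ?_) i
    · simp only [Fin.cons_zero]
      exact continuous_subtype_val.comp continuous_fst
    · simp only [Fin.cons_succ]
      exact (continuous_apply i).comp (he.continuous.comp continuous_snd)
  · intro x
    show F (Fin.cons ((0 : unitInterval) : ℝ) (e x)) = x
    rw [Icc.coe_zero, hFe (Or.inl ⟨x, rfl⟩), hf0]
  · intro x
    show F (Fin.cons ((1 : unitInterval) : ℝ) (e x)) = x₀
    rw [Icc.coe_one, hFe (Or.inr ⟨x, rfl⟩), hf1]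

end CubeHom
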