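import Pool.Agent.Lib.MP_cb6a70_gt_HB.Defs

/-!
# Basic properties of cubical chains: faces, boundary, push-forward
-/

namespace CubeHom

variable {R : Type*} [CommRing R]
variable {X Y B : Type*} [TopologicalSpace X] [TopologicalSpace Y] [TopologicalSpace B]

/-! ### Auxiliary lemmas -/

/-- Checking a linear map on a supported submodule. -/
theorem map_mem_of_supported {ι M : Type*} [AddCommGroup M] [Module R M] {S : Set ι}
    (f : (ι →₀ R) →ₗ[R] M) (P : Submodule R M) (h : ∀ σ ∈ S, f (Finsupp.single σ 1) ∈ P)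
    {c : ι →₀ R} (hc : c ∈ Finsupp.supported R R S) : f c ∈ P := by
  rw [Finsupp.supported_eq_span_single] at hc
  have h1 : Submodule.span R ((fun i => Finsupp.single i (1 : R)) '' S) ≤ P.comap f := by
    rw [Submodule.span_le]
    rintro _ ⟨σ, hσ, rfl⟩
    exact h σ hσ
  exact h1 hc

/-- Two linear maps which agree on the cubes of `S` agree on the chains supported in `S`. -/
theorem map_eq_of_supported {ι M : Type*} [AddCommGroup M] [Module R M] {S : Set ι}
    (f g : (ι →₀ R) →ₗ[R] M) (h : ∀ σ ∈ S, f (Finsupp.single σ 1) = g (Finsupp.single σ 1))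
    {c : ι →₀ R} (hc : c ∈ Finsupp.supported R R S) : f c = g c := by
  have h1 : (f - g) c ∈ (⊥ : Submodule R M) :=
    map_mem_of_supported (f - g) ⊥ (fun σ hσ => by simp [h σ hσ]) hc
  simpa [sub_eq_zero] using h1

theorem single_mem_supported {ι : Type*} {S : Set ι} {σ : ι} (h : σ ∈ S) (r : R) :
    Finsupp.single σ r ∈ Finsupp.supported R R S :=
  Finsupp.single_mem_supported R r h

theorem dependsOn_comp_right {f : C(Cb, Cb)} {σ : C(Cb, X)} {S T : Set ℕ}
    (hσ : DependsOn (σ : Cb → X) S)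
    (hf : ∀ ⦃x y : Cb⦄, (∀ i ∈ T, x i = y i) → ∀ j ∈ S, f x j = f y j) :
    DependsOn ((σ.comp f : C(Cb, X)) : Cb → X) T := by
  intro x y hxy
  exact hσ (hf hxy)

theorem dependsOn_comp_left {f : C(X, Y)} {σ : C(Cb, X)} {S : Set ℕ}
    (hσ : DependsOn (σ : Cb → X) S) : DependsOn ((f.comp σ : C(Cb, Y)) : Cb → Y) S := by
  intro x y hxy
  exact congrArg f (hσ hxy)

theorem ins_apply_lt {i j : ℕ} (h : j < i) (e : I) (u : Cb) : ins i e u j = u j := by
  simp [ins, h]

theorem ins_apply_self (i : ℕ) (e : I) (u : Cb) : ins i e u i = e := by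
  simp [ins]

theorem ins_apply_gt {i j : ℕ} (h : i < j) (e : I) (u : Cb) : ins i e u j = u (j - 1) := by
  have h1 : ¬ j < i := by omega
  have h2 : j ≠ i := by omega
  simp [ins, h1, h2]

theorem drop_apply (n j : ℕ) (u : Cb) : drop n u j = u (n + j) := rfl

@[simp] theorem push_single (f : C(X, Y)) (σ : C(Cb, X)) (r : R) :
    push f (Finsupp.single σ r) = Finsupp.single (f.comp σ) r := by
  simp [push, Finsupp.mapDomain_single]

theorem push_push (g : C(Y, B)) (f : C(X, Y)) (c : Ch R X) :
    push g (push f c) = push (g.comp f) c := by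
  have h : (push (R := R) g).comp (push f) = push (g.comp f) := by
    ext σ : 2
    simp [ContinuousMap.comp_assoc]
  exact LinearMap.congr_fun h c

@[simp] theorem push_id (c : Ch R X) : push (ContinuousMap.id X) c = c := by
  have h : push (R := R) (ContinuousMap.id X) = LinearMap.id := by
    ext σ : 2
    simp
  exact LinearMap.congr_fun h c

@[simp] theorem face_single (i : ℕ) (e : I) (σ : C(Cb, X)) (r : R) :
    face i e (Finsupp.single σ r) = Finsupp.single (σ.comp (ins i e)) r := by
  simp [face, Finsupp.mapDomain_single]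

theorem face_push (f : C(X, Y)) (i : ℕ) (e : I) (c : Ch R X) :
    face i e (push f c) = push f (face i e c) := by
  have h : (face (R := R) i e).comp (push f) = (push f).comp (face i e) := by
    ext σ : 2
    simp [ContinuousMap.comp_assoc]
  exact LinearMap.congr_fun h c

theorem bd_apply (k : ℤ) (c : Ch R X) :
    bd k c = ∑ i ∈ Finset.range k.toNat, ((-1 : R) ^ i) • (face i 1 c - face i 0 c) := by
  simp [bd]

theorem bd_push (f : C(X, Y)) (k : ℤ) (c : Ch R X) :
    bd k (push f c) = push f (bd k c) := by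
  simp only [bd_apply, map_sum, map_smul, map_sub, face_push]

theorem bd_of_nonpos {k : ℤ} (hk : k ≤ 0) (c : Ch R X) : bd k c = 0 := by
  rw [bd_apply, Int.toNat_of_nonpos hk]
  simp

/-- the cubical identity: for `j ≤ i`, inserting first at `i` and then at `j` ... -/
theorem ins_ins {i j : ℕ} (hij : j ≤ i) (e e' : I) :
    (ins j e').comp (ins i e) = (ins (i + 1) e).comp (ins j e') := by
  ext u l : 2
  simp only [ContinuousMap.comp_apply]
  rcases lt_trichotomy l j with h | h | h
  · rw [ins_apply_lt h, ins_apply_lt (by omega), ins_apply_lt (by omega), ins_apply_lt h]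
  · subst h
    rw [ins_apply_self, ins_apply_lt (by omega), ins_apply_self]
  · rw [ins_apply_gt h]
    rcases lt_trichotomy l (i + 1) with h' | h' | h'
    · rw [ins_apply_lt (by omega), ins_apply_lt h', ins_apply_gt h]
    · subst h'
      rw [Nat.add_sub_cancel, ins_apply_self, ins_apply_self]
    · rw [ins_apply_gt (by omega), ins_apply_gt h', ins_apply_gt (by omega)]

theorem face_face {i j : ℕ} (hij : j ≤ i) (e e' : I) (c : Ch R X) :
    face i e (face j e' c) = face j e' (face (i + 1) e c) := by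
  have h : (face (R := R) (X := X) i e).comp (face j e') = (face j e').comp (face (i + 1) e) := by
    ext σ : 2
    simp [ContinuousMap.comp_assoc, ins_ins hij]
  exact LinearMap.congr_fun h c

/-- The difference of the two opposite faces. -/
noncomputable def dface (i : ℕ) : Ch R X →ₗ[R] Ch R X := face i 1 - face i 0

theorem dface_apply (i : ℕ) (c : Ch R X) : dface i c = face i 1 c - face i 0 c := rfl

theorem dface_dface {i j : ℕ} (hij : j ≤ i) (c : Ch R X) :
    dface i (dface j c) = dface j (dface (i + 1) c) := by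
  simp only [dface_apply, map_sub, face_face hij]
  abel

theorem bd_apply' (k : ℤ) (c : Ch R X) :
    bd k c = ∑ i ∈ Finset.range k.toNat, ((-1 : R) ^ i) • dface i c := by
  rw [bd_apply]
  rfl

theorem bd_bd (k : ℤ) (c : Ch R X) : bd (k - 1) (bd k c) = 0 := by
  rcases le_or_gt k 1 with hk | hk
  · exact bd_of_nonpos (by omega) _
  obtain ⟨n, rfl⟩ : ∃ n : ℕ, k = n + 1 := ⟨(k - 1).toNat, by omega⟩
  rw [bd_apply', bd_apply', add_sub_cancel_right, Int.toNat_natCast,
    show ((n : ℤ) + 1).toNat = n + 1 by omega]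
  simp only [map_sum, map_smul, Finset.smul_sum, smul_smul]
  rw [← Finset.sum_product']
  refine Finset.sum_involution
    (fun a _ => if a.2 ≤ a.1 then (a.2, a.1 + 1) else (a.2 - 1, a.1)) ?_ ?_ ?_ ?_
  · rintro ⟨i, j⟩ -
    simp only
    by_cases h : j ≤ i
    · rw [if_pos h]
      simp only
      rw [dface_dface h, ← add_smul, pow_succ]
      convert zero_smul R _ using 2
      ring
    · rw [if_neg h]
      simp only
      obtain ⟨l, rfl⟩ : ∃ l, j = l + 1 := ⟨j - 1, by omega⟩
      rw [Nat.add_sub_cancel, dface_dface (show i ≤ l by omega), ← add_smul, pow_succ]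
      convert zero_smul R _ using 2
      ring
  · rintro ⟨i, j⟩ - -
    simp only
    by_cases h : j ≤ i
    · rw [if_pos h]
      intro h1
      rw [Prod.mk.injEq] at h1
      omega
    · rw [if_neg h]
      intro h1
      rw [Prod.mk.injEq] at h1
      omega
  · rintro ⟨i, j⟩ ha
    simp only [Finset.mem_product, Finset.mem_range] at ha ⊢
    by_cases h : j ≤ i
    · rw [if_pos h]
      simp only
      omega
    · rw [if_neg h]
      simp only
      omega
  · rintro ⟨i, j⟩ ha
    simp only [Finset.mem_product, Finset.mem_range] at ha ⊢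
    by_cases h : j ≤ i
    · simp only [if_pos h]
      rw [if_neg (by omega)]
      simp
    · simp only [if_neg h]
      rw [if_pos (by omega)]
      simp only [Prod.mk.injEq, true_and]
      omega

theorem C_mono (k : ℤ) {U V : Set X} (h : U ⊆ V) : C R k U ≤ C R k V :=
  Finsupp.supported_mono fun _ hσ => ⟨hσ.1, fun u => h (hσ.2 u)⟩

theorem Q_mono (k : ℤ) {U V : Set X} (h : U ⊆ V) : Q R k U ≤ Q R k V :=
  Finsupp.supported_mono fun _ hσ => ⟨hσ.1, hσ.2.imp (fun h' u => h (h' u)) id⟩

theorem C_le_Q (k : ℤ) (U : Set X) : C R k U ≤ Q R k U :=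
  Finsupp.supported_mono fun _ hσ => ⟨hσ.1, Or.inl hσ.2⟩

theorem Q_le_C_univ (k : ℤ) (U : Set X) : Q R k U ≤ C R k Set.univ :=
  Finsupp.supported_mono fun _ hσ => ⟨hσ.1, fun _ => Set.mem_univ _⟩

theorem C_inter (k : ℤ) (U V : Set X) : C R k (U ∩ V) = C R k U ⊓ C R k V := by
  unfold C
  rw [← Finsupp.supported_inter]
  congr 1
  ext σ
  simp only [Set.mem_inter_iff, Set.mem_ofPred_eq]
  constructor
  · rintro ⟨h1, h2⟩
    exact ⟨⟨h1, fun u => (h2 u).1⟩, h1, fun u => (h2 u).2⟩
  · rintro ⟨⟨h1, h2⟩, _, h3⟩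
    exact ⟨h1, fun u => ⟨h2 u, h3 u⟩⟩

/-- a chain in the span of `U`-chains and `V`-chains which is also zero relative to `A` splits. -/
theorem Q_split (k : ℤ) (A U V : Set X) :
    Q R k A ⊓ (C R k U ⊔ C R k V) ≤ (Q R k A ⊓ C R k U) ⊔ (Q R k A ⊓ C R k V) := by
  unfold C Q
  rw [← Finsupp.supported_union, ← Finsupp.supported_inter, ← Finsupp.supported_inter,
    ← Finsupp.supported_inter, ← Finsupp.supported_union, Set.inter_union_distrib_left]

theorem C_of_neg {k : ℤ} (hk : k < 0) (U : Set X) : C R k U = ⊥ := by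
  unfold C
  have h : {σ : C(Cb, X) | IsCube k σ ∧ ∀ u, σ u ∈ U} = ∅ := by
    ext σ
    simp only [Set.mem_ofPred_eq, Set.mem_empty_iff_false, iff_false]
    rintro ⟨h, -⟩
    exact absurd h.1 (by omega)
  rw [h, Finsupp.supported_empty]

theorem Q_of_neg {k : ℤ} (hk : k < 0) (U : Set X) : Q R k U = ⊥ := by
  rw [eq_bot_iff, ← C_of_neg (R := R) hk (Set.univ : Set X)]
  exact Q_le_C_univ k U

/-- A face of a `k`-cube is a `(k - 1)`-cube. -/
theorem IsCube.face {k : ℤ} {σ : C(Cb, X)} (h : IsCube k σ) {i : ℕ} (hi : (i : ℤ) < k) (e : I) :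
    IsCube (k - 1) (σ.comp (ins i e)) := by
  refine ⟨by omega, dependsOn_comp_right h.2 fun x y hxy j hj => ?_⟩
  simp only [Set.mem_ofPred_eq] at hxy hj
  rcases lt_trichotomy j i with h' | h' | h'
  · rw [ins_apply_lt h', ins_apply_lt h']
    exact hxy j (by omega)
  · subst h'
    rw [ins_apply_self, ins_apply_self]
  · rw [ins_apply_gt h', ins_apply_gt h']
    exact hxy (j - 1) (by omega)

/-- Opposite faces in a direction on which the cube does not depend agree. -/
theorem comp_ins_eq {σ : C(Cb, X)} {i : ℕ} (h : DependsOn (σ : Cb → X) {j : ℕ | j ≠ i})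
    (e e' : I) : σ.comp (ins i e) = σ.comp (ins i e') := by
  ext u
  refine h fun j hj => ?_
  simp only [Set.mem_ofPred_eq] at hj
  rcases lt_or_gt_of_ne hj with h' | h'
  · rw [ins_apply_lt h', ins_apply_lt h']
  · rw [ins_apply_gt h', ins_apply_gt h']

/-- The other faces are degenerate. -/
theorem degen_face {k : ℤ} {σ : C(Cb, X)} {i j : ℕ}
    (h : DependsOn (σ : Cb → X) {l : ℕ | l ≠ i}) (hi : (i : ℤ) < k) (hij : j ≠ i)
    (hj : (j : ℤ) < k) (e : I) : Degen (k - 1) (σ.comp (ins j e)) := by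
  rcases lt_or_gt_of_ne hij with h' | h'
  · -- `j < i`: the face does not depend on the coordinate `i - 1`
    refine ⟨i - 1, by omega, dependsOn_comp_right h fun x y hxy l hl => ?_⟩
    simp only [Set.mem_ofPred_eq] at hxy hl
    rcases lt_trichotomy l j with h1 | h1 | h1
    · rw [ins_apply_lt h1, ins_apply_lt h1]
      exact hxy l (by omega)
    · subst h1
      rw [ins_apply_self, ins_apply_self]
    · rw [ins_apply_gt h1, ins_apply_gt h1]
      exact hxy (l - 1) (by omega)
  · refine ⟨i, by omega, dependsOn_comp_right h fun x y hxy l hl => ?_⟩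
    simp only [Set.mem_ofPred_eq] at hxy hl
    rcases lt_trichotomy l j with h1 | h1 | h1
    · rw [ins_apply_lt h1, ins_apply_lt h1]
      exact hxy l (by omega)
    · subst h1
      rw [ins_apply_self, ins_apply_self]
    · rw [ins_apply_gt h1, ins_apply_gt h1]
      exact hxy (l - 1) (by omega)

theorem mem_C_single {k : ℤ} {U : Set X} {σ : C(Cb, X)} (h1 : IsCube k σ) (h2 : ∀ u, σ u ∈ U)
    (r : R) : Finsupp.single σ r ∈ C R k U :=
  single_mem_supported (S := {σ | IsCube k σ ∧ ∀ u, σ u ∈ U}) ⟨h1, h2⟩ r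

theorem mem_Q_single {k : ℤ} {A : Set X} {σ : C(Cb, X)} (h1 : IsCube k σ)
    (h2 : (∀ u, σ u ∈ A) ∨ Degen k σ) (r : R) : Finsupp.single σ r ∈ Q R k A :=
  single_mem_supported (S := {σ | IsCube k σ ∧ ((∀ u, σ u ∈ A) ∨ Degen k σ)}) ⟨h1, h2⟩ r

theorem bd_mem_C {k : ℤ} {U : Set X} {c : Ch R X} (hc : c ∈ C R k U) :
    bd k c ∈ C R (k - 1) U := by
  refine map_mem_of_supported (bd k) _ (fun σ hσ => ?_) hc
  rw [bd_apply]
  refine Submodule.sum_mem _ fun i hi => Submodule.smul_mem _ _ (Submodule.sub_mem _ ?_ ?_)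
  all_goals
    rw [Finset.mem_range] at hi
    rw [face_single]
    exact mem_C_single (hσ.1.face (by omega) _) (fun u => hσ.2 _) _

theorem bd_mem_Q {k : ℤ} {A : Set X} {c : Ch R X} (hc : c ∈ Q R k A) :
    bd k c ∈ Q R (k - 1) A := by
  refine map_mem_of_supported (bd k) _ (fun σ hσ => ?_) hc
  obtain ⟨h1, h2⟩ := hσ
  rcases h2 with h2 | ⟨i, hi, h2⟩
  · exact C_le_Q _ _ (bd_mem_C (mem_C_single h1 h2 1))
  · rw [bd_apply]
    refine Submodule.sum_mem _ fun j hj => Submodule.smul_mem _ _ ?_
    rw [Finset.mem_range] at hj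
    rw [face_single, face_single]
    rcases eq_or_ne j i with hij | hij
    · subst hij
      rw [comp_ins_eq h2 1 0, sub_self]
      exact Submodule.zero_mem _
    · exact Submodule.sub_mem _
        (mem_Q_single (h1.face (by omega) _) (Or.inr (degen_face h2 hi hij (by omega) _)) _)
        (mem_Q_single (h1.face (by omega) _) (Or.inr (degen_face h2 hi hij (by omega) _)) _)

theorem IsCube.comp {k : ℤ} {σ : C(Cb, X)} (h : IsCube k σ) (f : C(X, Y)) :
    IsCube k (f.comp σ) := ⟨h.1, dependsOn_comp_left h.2⟩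

theorem Degen.comp {k : ℤ} {σ : C(Cb, X)} (h : Degen k σ) (f : C(X, Y)) :
    Degen k (f.comp σ) := by
  obtain ⟨i, hi, h⟩ := h
  exact ⟨i, hi, dependsOn_comp_left h⟩

theorem push_mem_C {k : ℤ} {U : Set X} {V : Set Y} {f : C(X, Y)} (hf : Set.MapsTo f U V)
    {c : Ch R X} (hc : c ∈ C R k U) : push f c ∈ C R k V := by
  refine map_mem_of_supported (push f) _ (fun σ hσ => ?_) hc
  rw [push_single]
  exact mem_C_single (hσ.1.comp f) (fun u => hf (hσ.2 u)) _

theorem push_mem_Q {k : ℤ} {U : Set X} {V : Set Y} {f : C(X, Y)} (hf : Set.MapsTo f U V)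
    {c : Ch R X} (hc : c ∈ Q R k U) : push f c ∈ Q R k V := by
  refine map_mem_of_supported (push f) _ (fun σ hσ => ?_) hc
  rw [push_single]
  exact mem_Q_single (hσ.1.comp f) (hσ.2.imp (fun h u => hf (h u)) fun h => h.comp f) _

end CubeHom
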