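import Pool.Agent.Lib.MP_cb6a70_gt_HB.Calc

/-!
# Calculus of relative cycles and boundaries: excision along open embeddings, change of rings
-/

namespace CubeHom

variable {R : Type*} [CommRing R]
variable {X Y : Type*} [TopologicalSpace X] [TopologicalSpace Y]

theorem bd_bd' (k : ℤ) (c : Ch R X) : bd k (bd (k + 1) c) = 0 := by
  have h := bd_bd (R := R) (k + 1) c
  rwa [add_sub_cancel_right] at h

theorem bd_mem_C' {k : ℤ} {U : Set X} {c : Ch R X} (hc : c ∈ C R (k + 1) U) :
    bd (k + 1) c ∈ C R k U := by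
  have h := bd_mem_C hc
  rwa [add_sub_cancel_right] at h

theorem bd_mem_Q' {k : ℤ} {A : Set X} {c : Ch R X} (hc : c ∈ Q R (k + 1) A) :
    bd (k + 1) c ∈ Q R k A := by
  have h := bd_mem_Q hc
  rwa [add_sub_cancel_right] at h

theorem bd_mem_Z {k : ℤ} {U A : Set X} {b : Ch R X} (hb : b ∈ C R (k + 1) U) :
    bd (k + 1) b ∈ Z R k U A := by
  refine ⟨bd_mem_C' hb, ?_⟩
  change bd k (bd (k + 1) b) ∈ Q R (k - 1) A
  rw [bd_bd']
  exact Submodule.zero_mem _

/-- A chain of `S` which is zero relative to `A` is zero relative to `A ∩ S`. -/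
theorem Q_inf_C_le (k : ℤ) (A S : Set X) : Q R k A ⊓ C R k S ≤ Q R k (A ∩ S) := by
  unfold C Q
  rw [← Finsupp.supported_inter]
  refine Finsupp.supported_mono ?_
  rintro σ ⟨⟨h1, h2⟩, _, h3⟩
  exact ⟨h1, h2.imp (fun h u => ⟨h u, h3 u⟩) id⟩

namespace Bd

variable {k : ℤ} {U V A A' : Set X} {c c' : Ch R X}

theorem of_sub (h : Bd R k U A (c - c')) (h' : Bd R k U A c') : Bd R k U A c := by
  rw [← sub_add_cancel c c']
  exact h.add h'

/-- A chain which bounds is a relative cycle. -/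
theorem mem_Z (hc : c ∈ C R k U) (h : Bd R k U A c) : c ∈ Z R k U A := by
  obtain ⟨b, hb, h1⟩ := h
  refine ⟨hc, ?_⟩
  change CubeHom.bd k c ∈ Q R (k - 1) A
  have h2 := bd_mem_Q h1
  rwa [map_sub, bd_bd', sub_zero] at h2

end Bd

section Excision

variable {i : C(X, Y)} {A : Set Y} {k : ℤ}

/-- **Excision**, surjectivity. -/
theorem embed_surj (hi : Topology.IsOpenEmbedding i) (hA : IsOpen A)
    (hcov : A ∪ Set.range i = Set.univ) {w : Ch R Y} (hw : w ∈ Z R k Set.univ A) :
    ∃ c ∈ Z R k Set.univ (i ⁻¹' A), Bd R k Set.univ A (w - push i c) := by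
  have hd : bd k w ∈ C R (k - 1) (Set.range i ∩ Set.univ) ⊔ C R (k - 1) (A ∩ Set.univ) ⊔
      Q R (k - 1) A := Submodule.mem_sup_right hw.2
  obtain ⟨b, hb, hs⟩ := small_cubes hi.isOpen_range hA
    (W := Set.univ) (by rw [Set.union_comm, hcov]) hw.1 hd
  rw [Set.inter_univ, Set.inter_univ] at hs
  obtain ⟨y, hy, q, hq, e1⟩ := Submodule.mem_sup.mp hs
  obtain ⟨s, hs1, a, ha, rfl⟩ := Submodule.mem_sup.mp hy
  rw [← map_push_C hi.isInducing hi.injective] at hs1
  obtain ⟨c, hc, rfl⟩ := hs1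
  have haq : a + q ∈ Q R k A := Submodule.add_mem _ (C_le_Q _ _ ha) hq
  refine ⟨c, ⟨hc, ?_⟩, b, hb, ?_⟩
  · change bd k c ∈ Q R (k - 1) (i ⁻¹' A)
    rw [← push_mem_Q_iff hi.injective, ← bd_push]
    have e2 : push i c = w - bd (k + 1) b - (a + q) := by rw [← e1]; abel
    rw [e2, map_sub, map_sub, bd_bd', sub_zero]
    exact Submodule.sub_mem _ hw.2 (bd_mem_Q haq)
  · have e2 : w - push i c - bd (k + 1) b = a + q := by
      have e3 : w = bd (k + 1) b + (push i c + a + q) := by rw [e1]; abel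
      rw [e3]
      abel
    rw [e2]
    exact haq

/-- **Excision**, injectivity. -/
theorem embed_inj (hi : Topology.IsOpenEmbedding i) (hA : IsOpen A)
    (hcov : A ∪ Set.range i = Set.univ) {c : Ch R X} (hc : c ∈ C R k Set.univ)
    (h : Bd R k Set.univ A (push i c)) : Bd R k Set.univ (i ⁻¹' A) c := by
  obtain ⟨b, hb, h1⟩ := h
  have hic : push i c ∈ C R k (Set.range i) := by
    rw [← map_push_C hi.isInducing hi.injective]
    exact ⟨c, hc, rfl⟩
  have hd : bd (k + 1) b ∈ C R (k + 1 - 1) (Set.range i ∩ Set.univ) ⊔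
      C R (k + 1 - 1) (A ∩ Set.univ) ⊔ Q R (k + 1 - 1) A := by
    rw [add_sub_cancel_right, Set.inter_univ, Set.inter_univ]
    have e : bd (k + 1) b = push i c + -(push i c - bd (k + 1) b) := by abel
    rw [e]
    exact Submodule.add_mem_sup (Submodule.mem_sup_left hic) (Submodule.neg_mem _ h1)
  obtain ⟨b', hb', hs⟩ := small_cubes hi.isOpen_range hA
    (W := Set.univ) (by rw [Set.union_comm, hcov]) hb hd
  rw [Set.inter_univ, Set.inter_univ] at hs
  obtain ⟨y, hy, q, hq, e1⟩ := Submodule.mem_sup.mp hs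
  obtain ⟨s, hs1, a, ha, rfl⟩ := Submodule.mem_sup.mp hy
  rw [← map_push_C hi.isInducing hi.injective] at hs1
  obtain ⟨s', hs', rfl⟩ := hs1
  have haq : a + q ∈ Q R (k + 1) A := Submodule.add_mem _ (C_le_Q _ _ ha) hq
  refine ⟨s', hs', ?_⟩
  rw [← push_mem_Q_iff hi.injective, map_sub, ← bd_push]
  have e2 : push i s' = b - bd (k + 1 + 1) b' - (a + q) := by rw [← e1]; abel
  rw [e2, map_sub, map_sub, bd_bd', sub_zero]
  have e3 : push i c - (bd (k + 1) b - bd (k + 1) (a + q)) =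
      (push i c - bd (k + 1) b) + bd (k + 1) (a + q) := by abel
  rw [e3]
  exact Submodule.add_mem _ h1 (bd_mem_Q' haq)

end Excision

/-! ### Change of rings -/

variable (R) in
/-- The image of an integral chain. -/
noncomputable def castCh : Ch ℤ X →+ Ch R X := Finsupp.mapRange.addMonoidHom (Int.castAddHom R)

theorem castCh_single (σ : C(Cb, X)) (r : ℤ) :
    castCh R (Finsupp.single σ r) = Finsupp.single σ (r : R) := by
  simp [castCh]

theorem castCh_smul (r : ℤ) (c : Ch ℤ X) : castCh R (r • c) = (r : R) • castCh R c := by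
  rw [map_zsmul]
  exact (Int.cast_smul_eq_zsmul R r _).symm

theorem castCh_push (f : C(X, Y)) (c : Ch ℤ X) : castCh R (push f c) = push f (castCh R c) := by
  have h : (castCh R).comp (push (R := ℤ) f).toAddMonoidHom =
      (push (R := R) f).toAddMonoidHom.comp (castCh R) := by
    refine Finsupp.addHom_ext fun σ r => ?_
    simp [castCh_single]
  exact DFunLike.congr_fun h c

theorem castCh_face (i : ℕ) (e : I) (c : Ch ℤ X) :
    castCh R (face i e c) = face i e (castCh R c) := by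
  have h : (castCh R).comp (face (R := ℤ) (X := X) i e).toAddMonoidHom =
      (face (R := R) (X := X) i e).toAddMonoidHom.comp (castCh R) := by
    refine Finsupp.addHom_ext fun σ r => ?_
    simp [castCh_single]
  exact DFunLike.congr_fun h c

theorem castCh_bd (k : ℤ) (c : Ch ℤ X) : castCh R (bd k c) = bd k (castCh R c) := by
  rw [bd_apply, bd_apply, map_sum]
  refine Finset.sum_congr rfl fun i _ => ?_
  have h : ((-1 : ℤ) ^ i) • (face i 1 c - face i 0 c) =
      (((-1 : ℤ) ^ i : ℤ)) • (face i 1 c - face i 0 c) := rfl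
  rw [castCh_smul, map_sub, castCh_face, castCh_face]
  push_cast
  rfl

theorem castCh_mem_C {k : ℤ} {U : Set X} {c : Ch ℤ X} (hc : c ∈ C ℤ k U) :
    castCh R c ∈ C R k U := by
  unfold C at hc ⊢
  rw [Finsupp.mem_supported] at hc ⊢
  exact (Finset.coe_subset.2 (Finsupp.support_mapRange (hf := by simp))).trans hc

theorem castCh_mem_Q {k : ℤ} {A : Set X} {c : Ch ℤ X} (hc : c ∈ Q ℤ k A) :
    castCh R c ∈ Q R k A := by
  unfold Q at hc ⊢
  rw [Finsupp.mem_supported] at hc ⊢
  exact (Finset.coe_subset.2 (Finsupp.support_mapRange (hf := by simp))).trans hc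

theorem castCh_mem_Z {k : ℤ} {U A : Set X} {c : Ch ℤ X} (hc : c ∈ Z ℤ k U A) :
    castCh R c ∈ Z R k U A := by
  refine ⟨castCh_mem_C hc.1, ?_⟩
  change bd k (castCh R c) ∈ Q R (k - 1) A
  rw [← castCh_bd]
  exact castCh_mem_Q hc.2

theorem Bd.castCh {k : ℤ} {U A : Set X} {c : Ch ℤ X} (h : Bd ℤ k U A c) :
    Bd R k U A (CubeHom.castCh R c) := by
  obtain ⟨b, hb, h1⟩ := h
  refine ⟨CubeHom.castCh R b, castCh_mem_C hb, ?_⟩
  rw [← castCh_bd, ← map_sub]
  exact castCh_mem_Q h1

end CubeHom
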