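import Pool.Agent.Lib.MP_cb6a70_gt_HB.Fills

/-!
# The box retraction
-/

namespace CubeHom

/-- The box: the boundary of the cube without the face `u 0 = 1`. -/
def Box (k : ℕ) : Set (Fin (k + 1) → unitInterval) :=
  {u | u 0 = 0 ∨ ∃ i : Fin k, u i.succ = 0 ∨ u i.succ = 1}

/-- The stretching factor. -/
noncomputable def boxRho {k : ℕ} (u : Fin (k + 1) → unitInterval) : ℝ :=
  max ((2 - (u 0 : ℝ)) / 2) (2 * ‖fun i : Fin k => (u i.succ : ℝ) - 1 / 2‖)

theorem continuous_boxRho {k : ℕ} :
    Continuous (boxRho : (Fin (k + 1) → unitInterval) → ℝ) := by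
  unfold boxRho
  fun_prop

theorem half_le_boxRho {k : ℕ} (u : Fin (k + 1) → unitInterval) : 1 / 2 ≤ boxRho u := by
  refine le_trans ?_ (le_max_left _ _)
  have := (u 0).2.2
  linarith

theorem boxRho_pos {k : ℕ} (u : Fin (k + 1) → unitInterval) : 0 < boxRho u :=
  lt_of_lt_of_le (by norm_num) (half_le_boxRho u)

theorem abs_le_half (x : unitInterval) : |(x : ℝ) - 1 / 2| ≤ 1 / 2 := by
  have h1 := x.2.1
  have h2 := x.2.2
  rw [abs_le]
  constructor <;> linarith

theorem boxRho_le_one {k : ℕ} (u : Fin (k + 1) → unitInterval) : boxRho u ≤ 1 := by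
  refine max_le ?_ ?_
  · have := (u 0).2.1
    linarith
  · have h : ‖fun i : Fin k => (u i.succ : ℝ) - 1 / 2‖ ≤ 1 / 2 := by
      rw [pi_norm_le_iff_of_nonneg (by norm_num)]
      intro i
      exact abs_le_half _
    linarith

theorem boxRho_zero_mem {k : ℕ} (u : Fin (k + 1) → unitInterval) :
    2 + ((u 0 : ℝ) - 2) / boxRho u ∈ Set.Icc (0 : ℝ) 1 := by
  have hp := boxRho_pos u
  have h1 : (2 - (u 0 : ℝ)) / 2 ≤ boxRho u := le_max_left _ _
  have h2 := boxRho_le_one u
  have h3 := (u 0).2.2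
  constructor
  · have : -2 ≤ ((u 0 : ℝ) - 2) / boxRho u := by
      rw [le_div_iff₀ hp]; linarith
    linarith
  · have : ((u 0 : ℝ) - 2) / boxRho u ≤ -1 := by
      rw [div_le_iff₀ hp]; linarith
    linarith

theorem boxRho_succ_mem {k : ℕ} (u : Fin (k + 1) → unitInterval) (i : Fin k) :
    1 / 2 + ((u i.succ : ℝ) - 1 / 2) / boxRho u ∈ Set.Icc (0 : ℝ) 1 := by
  have hp := boxRho_pos u
  have h1 : 2 * ‖fun i : Fin k => (u i.succ : ℝ) - 1 / 2‖ ≤ boxRho u := le_max_right _ _
  have h2 := norm_le_pi_norm (fun i : Fin k => (u i.succ : ℝ) - 1 / 2) i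
  simp only [Real.norm_eq_abs] at h2
  have h3 : |(u i.succ : ℝ) - 1 / 2| ≤ boxRho u / 2 := by linarith
  rw [abs_le] at h3
  constructor
  · have : -(1 / 2) ≤ ((u i.succ : ℝ) - 1 / 2) / boxRho u := by
      rw [le_div_iff₀ hp]; linarith
    linarith
  · have : ((u i.succ : ℝ) - 1 / 2) / boxRho u ≤ 1 / 2 := by
      rw [div_le_iff₀ hp]; linarith
    linarith

/-- The retraction of the cube onto the box. -/
noncomputable def boxRet {k : ℕ} (u : Fin (k + 1) → unitInterval) :
    Fin (k + 1) → unitInterval :=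
  Fin.cons ⟨_, boxRho_zero_mem u⟩ fun i => ⟨_, boxRho_succ_mem u i⟩

theorem boxRet_zero {k : ℕ} (u : Fin (k + 1) → unitInterval) :
    (boxRet u 0 : ℝ) = 2 + ((u 0 : ℝ) - 2) / boxRho u := rfl

theorem boxRet_succ {k : ℕ} (u : Fin (k + 1) → unitInterval) (i : Fin k) :
    (boxRet u i.succ : ℝ) = 1 / 2 + ((u i.succ : ℝ) - 1 / 2) / boxRho u := rfl

theorem continuous_boxRet {k : ℕ} :
    Continuous (boxRet : (Fin (k + 1) → unitInterval) → Fin (k + 1) → unitInterval) := by
  refine continuous_pi fun j => ?_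
  refine Fin.cases ?_ (fun i => ?_) j
  · refine Continuous.subtype_mk ?_ _
    exact continuous_const.add (Continuous.div (by fun_prop) continuous_boxRho
      fun u => (boxRho_pos u).ne')
  · refine Continuous.subtype_mk ?_ _
    exact continuous_const.add (Continuous.div (by fun_prop) continuous_boxRho
      fun u => (boxRho_pos u).ne')

theorem boxRho_of_mem {k : ℕ} {u : Fin (k + 1) → unitInterval} (hu : u ∈ Box k) :
    boxRho u = 1 := by
  refine le_antisymm (boxRho_le_one u) ?_
  rcases hu with h0 | ⟨i, hi⟩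
  · refine le_trans (le_of_eq ?_) (le_max_left _ _)
    rw [h0]; norm_num
  · refine le_trans ?_ (le_max_right _ _)
    have h2 := norm_le_pi_norm (fun i : Fin k => (u i.succ : ℝ) - 1 / 2) i
    have h3 : ‖(u i.succ : ℝ) - 1 / 2‖ = 1 / 2 := by
      rcases hi with hi | hi
      · rw [hi, Real.norm_eq_abs, abs_of_nonpos] <;> norm_num
      · rw [hi, Real.norm_eq_abs, abs_of_nonneg] <;> norm_num
    rw [h3] at h2
    linarith

theorem boxRet_of_mem {k : ℕ} {u : Fin (k + 1) → unitInterval} (hu : u ∈ Box k) :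
    boxRet u = u := by
  have h := boxRho_of_mem hu
  funext j
  refine Fin.cases ?_ (fun i => ?_) j
  · apply Subtype.ext
    rw [boxRet_zero, h]; ring
  · apply Subtype.ext
    rw [boxRet_succ, h]; ring

theorem boxRet_mem {k : ℕ} (u : Fin (k + 1) → unitInterval) : boxRet u ∈ Box k := by
  have hp := boxRho_pos u
  rcases max_choice ((2 - (u 0 : ℝ)) / 2) (2 * ‖fun i : Fin k => (u i.succ : ℝ) - 1 / 2‖)
    with h | h
  · left
    apply Subtype.ext
    rw [boxRet_zero]
    have h1 : (u 0 : ℝ) - 2 = -2 * boxRho u := by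
      unfold boxRho; rw [h]; ring
    rw [h1]
    field_simp
    simp
  · right
    -- the norm is attained
    have hk : 0 < k := by
      rcases Nat.eq_zero_or_pos k with rfl | hk
      · exfalso
        have h0 : ‖fun i : Fin 0 => (u i.succ : ℝ) - 1 / 2‖ = 0 := by
          rw [norm_eq_zero]; exact Subsingleton.elim _ _
        rw [h0] at h
        have := half_le_boxRho u
        unfold boxRho at this
        rw [h0, h] at this
        norm_num at this
      · exact hk
    have : Nonempty (Fin k) := ⟨⟨0, hk⟩⟩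
    obtain ⟨i, hi⟩ := Finite.exists_max (fun i : Fin k => ‖(u i.succ : ℝ) - 1 / 2‖)
    have hn : ‖fun i : Fin k => (u i.succ : ℝ) - 1 / 2‖ = ‖(u i.succ : ℝ) - 1 / 2‖ := by
      refine le_antisymm ?_ (norm_le_pi_norm (fun i : Fin k => (u i.succ : ℝ) - 1 / 2) i)
      rw [pi_norm_le_iff_of_nonneg (norm_nonneg _)]
      exact hi
    refine ⟨i, ?_⟩
    have h1 : boxRho u = 2 * |(u i.succ : ℝ) - 1 / 2| := by
      unfold boxRho; rw [h, hn, Real.norm_eq_abs]
    rcases le_or_gt 0 ((u i.succ : ℝ) - 1 / 2) with h2 | h2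
    · right
      apply Subtype.ext
      rw [boxRet_succ]
      rw [abs_of_nonneg h2] at h1
      have h3 : (u i.succ : ℝ) - 1 / 2 = boxRho u / 2 := by linarith
      rw [h3]
      field_simp
      norm_num
    · left
      apply Subtype.ext
      rw [boxRet_succ]
      rw [abs_of_neg h2] at h1
      have h3 : (u i.succ : ℝ) - 1 / 2 = -(boxRho u / 2) := by linarith
      rw [h3]
      field_simp
      norm_num

/-- Every map on the box extends to the cube. -/
theorem box_extend {X : Type*} [TopologicalSpace X] {k : ℕ}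
    (f : (Fin (k + 1) → unitInterval) → X) (hf : ContinuousOn f (Box k)) :
    ∃ G : (Fin (k + 1) → unitInterval) → X, Continuous G ∧ ∀ u ∈ Box k, G u = f u :=
  ⟨f ∘ boxRet, hf.comp_continuous continuous_boxRet boxRet_mem,
    fun _ hu => congrArg f (boxRet_of_mem hu)⟩

end CubeHom
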