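import Pool.Agent.Lib.MP_cb6a70_gt_HB.CubeSys

/-!
# Calculus of relative cycles and boundaries; excision
-/

namespace CubeHom

variable {R : Type*} [CommRing R]
variable {X Y B : Type*} [TopologicalSpace X] [TopologicalSpace Y] [TopologicalSpace B]

theorem mem_Z {k : ℤ} {U A : Set X} {c : Ch R X} :
    c ∈ Z R k U A ↔ c ∈ C R k U ∧ bd k c ∈ Q R (k - 1) A := Iff.rfl

theorem Z_mono {k : ℤ} {U U' A A' : Set X} (hU : U ⊆ U') (hA : A ⊆ A') :
    Z R k U A ≤ Z R k U' A' := fun _ hc => ⟨C_mono k hU hc.1, Q_mono _ hA hc.2⟩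

theorem Bd.of_mem_Q {k : ℤ} {U A : Set X} {c : Ch R X} (h : c ∈ Q R k A) : Bd R k U A c :=
  ⟨0, Submodule.zero_mem _, by rwa [map_zero, sub_zero]⟩

theorem Bd.zero (k : ℤ) (U A : Set X) : Bd R k U A 0 := Bd.of_mem_Q (Submodule.zero_mem _)

theorem Bd.of_mem_C {k : ℤ} {U A : Set X} {c : Ch R X} (h : c ∈ C R k A) : Bd R k U A c :=
  Bd.of_mem_Q (C_le_Q k A h)

theorem Bd.of_bd {k : ℤ} {U A : Set X} {b : Ch R X} (hb : b ∈ C R (k + 1) U) :
    Bd R k U A (bd (k + 1) b) := ⟨b, hb, by rw [sub_self]; exact Submodule.zero_mem _⟩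

theorem Bd.add {k : ℤ} {U A : Set X} {c c' : Ch R X} (h : Bd R k U A c) (h' : Bd R k U A c') :
    Bd R k U A (c + c') := by
  obtain ⟨b, hb, h⟩ := h
  obtain ⟨b', hb', h'⟩ := h'
  refine ⟨b + b', Submodule.add_mem _ hb hb', ?_⟩
  rw [map_add, add_sub_add_comm]
  exact Submodule.add_mem _ h h'

theorem Bd.smul {k : ℤ} {U A : Set X} {c : Ch R X} (r : R) (h : Bd R k U A c) :
    Bd R k U A (r • c) := by
  obtain ⟨b, hb, h⟩ := h
  refine ⟨r • b, Submodule.smul_mem _ _ hb, ?_⟩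
  rw [map_smul, ← smul_sub]
  exact Submodule.smul_mem _ _ h

theorem Bd.neg {k : ℤ} {U A : Set X} {c : Ch R X} (h : Bd R k U A c) : Bd R k U A (-c) := by
  have := h.smul (-1)
  rwa [neg_one_smul] at this

theorem Bd.sub {k : ℤ} {U A : Set X} {c c' : Ch R X} (h : Bd R k U A c) (h' : Bd R k U A c') :
    Bd R k U A (c - c') := by
  rw [sub_eq_add_neg]
  exact h.add h'.neg

theorem Bd.sub_comm {k : ℤ} {U A : Set X} {c c' : Ch R X} (h : Bd R k U A (c - c')) :
    Bd R k U A (c' - c) := by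
  have := h.neg
  rwa [neg_sub] at this

theorem Bd.trans {k : ℤ} {U A : Set X} {c c' c'' : Ch R X} (h : Bd R k U A (c - c'))
    (h' : Bd R k U A (c' - c'')) : Bd R k U A (c - c'') := by
  have := h.add h'
  rwa [sub_add_sub_cancel] at this

/-- A chain homologous to a boundary is a boundary. -/
theorem Bd.congr {k : ℤ} {U A : Set X} {c c' : Ch R X} (h : Bd R k U A (c - c'))
    (h' : Bd R k U A c') : Bd R k U A c := by
  have := h.add h'
  rwa [sub_add_cancel] at this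

theorem Bd.mono {k : ℤ} {U U' A A' : Set X} (hU : U ⊆ U') (hA : A ⊆ A') {c : Ch R X}
    (h : Bd R k U A c) : Bd R k U' A' c := by
  obtain ⟨b, hb, h⟩ := h
  exact ⟨b, C_mono _ hU hb, Q_mono _ hA h⟩

theorem Bd.bd_mem {k : ℤ} {U A : Set X} {c : Ch R X} (h : Bd R k U A c) :
    bd k c ∈ Q R (k - 1) A := by
  obtain ⟨b, _, h⟩ := h
  have h1 := bd_mem_Q h
  have h2 := bd_bd (R := R) (k + 1) b
  rw [add_sub_cancel_right] at h2
  rwa [map_sub, h2, sub_zero] at h1

theorem push_mem_Z {k : ℤ} {U A : Set X} {V A' : Set Y} {f : C(X, Y)} (hU : Set.MapsTo f U V)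
    (hA : Set.MapsTo f A A') {c : Ch R X} (hc : c ∈ Z R k U A) : push f c ∈ Z R k V A' := by
  refine ⟨push_mem_C hU hc.1, ?_⟩
  change bd k (push f c) ∈ Q R (k - 1) A'
  rw [bd_push]
  exact push_mem_Q hA hc.2

theorem Bd.push {k : ℤ} {U A : Set X} {V A' : Set Y} {f : C(X, Y)} (hU : Set.MapsTo f U V)
    (hA : Set.MapsTo f A A') {c : Ch R X} (hc : Bd R k U A c) :
    Bd R k V A' (CubeHom.push f c) := by
  obtain ⟨b, hb, h⟩ := hc
  refine ⟨CubeHom.push f b, push_mem_C hU hb, ?_⟩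
  rw [bd_push, ← map_sub]
  exact push_mem_Q hA h

/-- Chains of `U` which are zero relative to `A` are zero relative to `U ∩ A`. -/
theorem mem_Q_inter {k : ℤ} {U A : Set X} {c : Ch R X} (h1 : c ∈ C R k U) (h2 : c ∈ Q R k A) :
    c ∈ Q R k (U ∩ A) := by
  have h3 : c ∈ C R k U ⊓ Q R k A := ⟨h1, h2⟩
  unfold C Q at h3
  rw [← Finsupp.supported_inter] at h3
  refine Finsupp.supported_mono ?_ h3
  rintro σ ⟨⟨hc, hU⟩, -, h | h⟩
  · exact ⟨hc, Or.inl fun u => ⟨hU u, h u⟩⟩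
  · exact ⟨hc, Or.inr h⟩

/-- A zero chain is a chain of `A` plus a degenerate chain. -/
theorem Q_eq_sup {k : ℤ} {A : Set X} : Q R k A = C R k A ⊔ Q R k (∅ : Set X) := by
  refine le_antisymm ?_ (sup_le (C_le_Q k A) (Q_mono k (Set.empty_subset _)))
  unfold C Q
  rw [← Finsupp.supported_union]
  refine Finsupp.supported_mono ?_
  rintro σ ⟨hc, h | h⟩
  · exact Or.inl ⟨hc, h⟩
  · exact Or.inr ⟨hc, Or.inr h⟩

theorem cr_mem_Z {n : ℕ} {k : ℤ} {V V' : Set Y} {U A : Set B} {W A' : Set (Y × B)} {z : Ch R Y}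
    {c : Ch R B} (hz : z ∈ Z R n V V') (hc : c ∈ Z R k U A) (hW : V ×ˢ U ⊆ W)
    (h1 : V' ×ˢ U ⊆ A') (h2 : V ×ˢ A ⊆ A') : cr n z c ∈ Z R (n + k) W A' := by
  refine ⟨C_mono _ hW (cr_mem_C hz.1 hc.1), ?_⟩
  change bd (n + k) (cr n z c) ∈ Q R (n + k - 1) A'
  rw [bd_cr (C_mono _ (Set.subset_univ _) hz.1) (C_mono _ (Set.subset_univ _) hc.1)]
  refine Submodule.add_mem _ ?_ (Submodule.smul_mem _ _ ?_)
  · rcases Nat.eq_zero_or_pos n with h0 | h0
    · subst h0
      rw [bd_of_nonpos (by simp)]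
      simp
    · obtain ⟨m, rfl⟩ : ∃ m, n = m + 1 := ⟨n - 1, by omega⟩
      have h3 : bd ((m + 1 : ℕ) : ℤ) z ∈ Q R (m : ℤ) V' := by
        have h3 : bd ((m + 1 : ℕ) : ℤ) z ∈ Q R (((m + 1 : ℕ) : ℤ) - 1) V' := hz.2
        have h4 : (((m + 1 : ℕ) : ℤ) - 1) = (m : ℤ) := by push_cast; ring
        rwa [h4] at h3
      have h5 := cr_mem_Q_left h3 hc.1
      have h6 : (((m + 1 : ℕ) : ℤ) + k - 1) = (m : ℤ) + k := by push_cast; ring
      rw [h6]
      exact Q_mono _ h1 h5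
  · have h7 : bd k c ∈ Q R (k - 1) A := hc.2
    have h8 := cr_mem_Q_right hz.1 h7
    rw [← add_sub_assoc] at h8
    exact Q_mono _ h2 h8

/-- Cross product with a fixed relative cycle preserves boundaries. -/
theorem Bd.cr_right {n : ℕ} {k : ℤ} {V V' : Set Y} {U A : Set B} {W A' : Set (Y × B)} {z : Ch R Y}
    {c : Ch R B} (hz : z ∈ Z R n V V') (hc : Bd R k U A c) (hW : V ×ˢ U ⊆ W)
    (h1 : V' ×ˢ U ⊆ A') (h2 : V ×ˢ A ⊆ A') : Bd R (n + k) W A' (cr n z c) := by
  obtain ⟨b, hb, hcb⟩ := hc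
  have e3 : ((-1 : R) ^ n) * ((-1 : R) ^ n) = 1 := by
    rw [← mul_pow]; simp
  refine ⟨((-1 : R) ^ n) • cr n z b, Submodule.smul_mem _ _ ?_, ?_⟩
  · have := C_mono _ hW (cr_mem_C hz.1 hb)
    rwa [← add_assoc] at this
  · have h3 := bd_cr (R := R) (n := n) (k := k + 1) (C_mono _ (Set.subset_univ _) hz.1)
      (C_mono _ (Set.subset_univ _) hb)
    rw [← add_assoc] at h3
    rw [map_smul, h3, smul_add, smul_smul, e3, one_smul]
    have h4 : cr n z c - (((-1 : R) ^ n) • cr (n - 1) (bd (n : ℤ) z) b + cr n z (bd (k + 1) b))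
        = cr n z (c - bd (k + 1) b) - ((-1 : R) ^ n) • cr (n - 1) (bd (n : ℤ) z) b := by
      rw [map_sub]; abel
    rw [h4]
    refine Submodule.sub_mem _ (Q_mono _ h2 (cr_mem_Q_right hz.1 hcb)) (Submodule.smul_mem _ _ ?_)
    rcases Nat.eq_zero_or_pos n with h0 | h0
    · subst h0
      rw [bd_of_nonpos (by simp)]
      simp
    · obtain ⟨m, rfl⟩ : ∃ m, n = m + 1 := ⟨n - 1, by omega⟩
      have h3 : bd ((m + 1 : ℕ) : ℤ) z ∈ Q R (m : ℤ) V' := by
        have h3 : bd ((m + 1 : ℕ) : ℤ) z ∈ Q R (((m + 1 : ℕ) : ℤ) - 1) V' := hz.2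
        have h4 : (((m + 1 : ℕ) : ℤ) - 1) = (m : ℤ) := by push_cast; ring
        rwa [h4] at h3
      have h5 := cr_mem_Q_left h3 hb
      have h6 : (((m + 1 : ℕ) : ℤ) + k) = (m : ℤ) + (k + 1) := by push_cast; ring
      rw [h6]
      exact Q_mono _ h1 h5

/-- Cross product of a boundary with a fixed relative cycle is a boundary. -/
theorem Bd.cr_left {n : ℕ} {k : ℤ} {V V' : Set Y} {U A : Set B} {W A' : Set (Y × B)} {z : Ch R Y}
    {c : Ch R B} (hz : Bd R n V V' z) (hc : c ∈ Z R k U A) (hW : V ×ˢ U ⊆ W)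
    (h1 : V' ×ˢ U ⊆ A') (h2 : V ×ˢ A ⊆ A') : Bd R (n + k) W A' (cr n z c) := by
  obtain ⟨b, hb, hzb⟩ := hz
  have hb' : b ∈ C R ((n + 1 : ℕ) : ℤ) V := by exact_mod_cast hb
  refine ⟨cr (n + 1) b c, ?_, ?_⟩
  · have h3 := cr_mem_C hb' hc.1
    have h4 : (((n + 1 : ℕ) : ℤ) + k) = (n : ℤ) + k + 1 := by push_cast; ring
    rw [h4] at h3
    exact C_mono _ hW h3
  · have h3 := bd_cr (R := R) (n := n + 1) (k := k) (C_mono _ (Set.subset_univ _) hb')
      (C_mono _ (Set.subset_univ _) hc.1)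
    have h4 : (((n + 1 : ℕ) : ℤ) + k) = (n : ℤ) + k + 1 := by push_cast; ring
    rw [h4] at h3
    rw [h3, Nat.add_sub_cancel]
    have h5 : cr n z c - (cr n (bd ((n + 1 : ℕ) : ℤ) b) c + ((-1 : R) ^ (n + 1)) •
        cr (n + 1) b (bd k c)) = cr n (z - bd ((n + 1 : ℕ) : ℤ) b) c -
        ((-1 : R) ^ (n + 1)) • cr (n + 1) b (bd k c) := by
      rw [map_sub, LinearMap.sub_apply]; abel
    rw [h5]
    refine Submodule.sub_mem _ ?_ (Submodule.smul_mem _ _ ?_)
    · have h6 : z - bd ((n + 1 : ℕ) : ℤ) b ∈ Q R (n : ℤ) V' := by exact_mod_cast hzb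
      exact Q_mono _ h1 (cr_mem_Q_left h6 hc.1)
    · have h7 : bd k c ∈ Q R (k - 1) A := hc.2
      have h8 := cr_mem_Q_right hb' h7
      have h9 : (((n + 1 : ℕ) : ℤ) + (k - 1)) = (n : ℤ) + k := by push_cast; ring
      rw [h9] at h8
      exact Q_mono _ h2 h8

/-- **Excision**, surjectivity. -/
theorem excision_surj {k : ℤ} {S W V : Set X} (hW : IsOpen W) (hV : IsOpen V) (hS : S = W ∪ V)
    {w : Ch R X} (hw : w ∈ Z R k S V) :
    ∃ w' ∈ Z R k W V, Bd R k S V (w - w') := by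
  have hWS : W ∩ S = W := Set.inter_eq_left.mpr (hS ▸ Set.subset_union_left)
  have hVS : V ∩ S = V := Set.inter_eq_left.mpr (hS ▸ Set.subset_union_right)
  obtain ⟨b, hb, h⟩ := small_cubes hW hV (le_of_eq hS) hw.1
    (A := V) (Submodule.mem_sup_right hw.2)
  rw [hWS, hVS] at h
  obtain ⟨y, hy, q, hq, hyq⟩ := Submodule.mem_sup.mp h
  obtain ⟨a, ha, v, hv, rfl⟩ := Submodule.mem_sup.mp hy
  have h2 := bd_bd (R := R) (k + 1) b
  rw [add_sub_cancel_right] at h2
  have ha' : a = w - bd (k + 1) b - v - q := by rw [← hyq]; abel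
  refine ⟨a, ⟨ha, ?_⟩, b, hb, ?_⟩
  · change bd k a ∈ Q R (k - 1) V
    rw [ha', map_sub, map_sub, map_sub, h2, sub_zero]
    exact Submodule.sub_mem _ (Submodule.sub_mem _ hw.2 (C_le_Q _ _ (bd_mem_C hv)))
      (bd_mem_Q hq)
  · have h3 : w - a - bd (k + 1) b = v + q := by rw [ha']; abel
    rw [h3]
    exact Submodule.add_mem _ (C_le_Q _ _ hv) hq

/-- **Excision**, injectivity. -/
theorem excision_inj {k : ℤ} {S W V : Set X} (hW : IsOpen W) (hV : IsOpen V) (hS : S = W ∪ V)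
    {w : Ch R X} (hw : w ∈ C R k W) (h : Bd R k S V w) : Bd R k W V w := by
  have hWS : W ∩ S = W := Set.inter_eq_left.mpr (hS ▸ Set.subset_union_left)
  have hVS : V ∩ S = V := Set.inter_eq_left.mpr (hS ▸ Set.subset_union_right)
  obtain ⟨b, hb, hwb⟩ := h
  obtain ⟨e, he, h⟩ := small_cubes hW hV (le_of_eq hS) hb (A := V) (by
    rw [hWS, hVS, add_sub_cancel_right]
    have h1 : bd (k + 1) b = w - (w - bd (k + 1) b) := by abel
    rw [h1]
    exact Submodule.sub_mem _ (Submodule.mem_sup_left (Submodule.mem_sup_left hw))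
      (Submodule.mem_sup_right hwb))
  rw [hWS, hVS] at h
  obtain ⟨y, hy, q, hq, hyq⟩ := Submodule.mem_sup.mp h
  obtain ⟨a, ha, v, hv, rfl⟩ := Submodule.mem_sup.mp hy
  have h2 := bd_bd (R := R) (k + 1 + 1) e
  rw [add_sub_cancel_right] at h2
  have ha' : a = b - bd (k + 1 + 1) e - v - q := by rw [← hyq]; abel
  refine ⟨a, ha, ?_⟩
  rw [ha', map_sub, map_sub, map_sub, h2, sub_zero]
  have h3 : w - (bd (k + 1) b - bd (k + 1) v - bd (k + 1) q) =
      (w - bd (k + 1) b) + bd (k + 1) v + bd (k + 1) q := by abel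
  rw [h3]
  have h4 := C_le_Q _ _ (bd_mem_C hv)
  have h5 := bd_mem_Q hq
  rw [add_sub_cancel_right] at h4 h5
  exact Submodule.add_mem _ (Submodule.add_mem _ hwb h4) h5

/-- The images of the cubes of a chain are bounded with respect to a continuous function. -/
theorem exists_bound (c : Ch R X) (f : C(X, ℝ)) :
    ∃ L : ℝ, 0 ≤ L ∧ ∀ σ ∈ c.support, ∀ u, |f (σ u)| ≤ L := by
  have h : ∀ σ : C(Cb, X), ∃ L : ℝ, ∀ u, |f (σ u)| ≤ L := by
    intro σ
    obtain ⟨u0, -, h⟩ := isCompact_univ.exists_isMaxOn (Set.univ_nonempty (α := Cb))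
      (f := fun u => |f (σ u)|) (by fun_prop)
    exact ⟨_, fun u => h (Set.mem_univ u)⟩
  choose L hL using h
  refine ⟨∑ σ ∈ c.support, |L σ|, Finset.sum_nonneg fun _ _ => abs_nonneg _, fun σ hσ u => ?_⟩
  refine (hL σ u).trans ((le_abs_self _).trans ?_)
  exact Finset.single_le_sum (f := fun σ => |L σ|) (fun _ _ => abs_nonneg _) hσ

theorem mem_C_of_support {k : ℤ} {U V : Set X} {c : Ch R X} (hc : c ∈ C R k U)
    (h : ∀ σ ∈ c.support, ∀ u, σ u ∈ V) : c ∈ C R k V := by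
  unfold C at hc ⊢
  rw [Finsupp.mem_supported] at hc ⊢
  exact fun σ hσ => ⟨(hc hσ).1, h σ hσ⟩

theorem push_mem_C_of_support {k : ℤ} {U : Set X} {V : Set Y} {f : C(X, Y)} {c : Ch R X}
    (hc : c ∈ C R k U) (h : ∀ σ ∈ c.support, ∀ u, f (σ u) ∈ V) : push f c ∈ C R k V := by
  have h1 : c ∈ C R k (f ⁻¹' V) := mem_C_of_support hc h
  exact push_mem_C (fun x hx => hx) h1

/-- The mapping cone of a cross product is acyclic iff the cross product is an isomorphism of
relative homology groups. -/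
theorem cone_cross_iff {n : ℕ} {V' : Set Y} {A : Set B} {A' : Set (Y × B)} (z : Ch R Y)
    (hz : z ∈ Z R n Set.univ V') (hA : Set.univ ×ˢ A ⊆ A') (hV : V' ×ˢ Set.univ ⊆ A') :
    (Sys.cone (crossHom (R := R) (n := n) (Y := Y) (V' := V') (A := A) (A' := A') z hz hA
      hV)).Acyc Set.univ ↔
      (∀ k : ℤ, ∀ c ∈ Z R k (Set.univ : Set B) A, Bd R (n + k) Set.univ A' (cr n z c) →
        Bd R k Set.univ A c) ∧
      (∀ k : ℤ, ∀ w ∈ Z R (n + k) (Set.univ : Set (Y × B)) A',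
        ∃ c ∈ Z R k (Set.univ : Set B) A, Bd R (n + k) Set.univ A' (w - cr n z c)) := by
  have e3 : ((-1 : R) ^ n) * ((-1 : R) ^ n) = 1 := by
    rw [← mul_pow]; simp
  rw [Sys.cone_acyc_iff_bij]
  refine and_congr (forall_congr' fun k => ?_) (forall_congr' fun k => ?_)
  · constructor
    · rintro h c hc ⟨b, hb, hcb⟩
      have h' := h c (by simpa [cubeSys] using hc.1)
        (by
          have := hc.2
          simpa [cubeSys] using this)
        ⟨((-1 : R) ^ n) • b, by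
          have : ((-1 : R) ^ n) • b ∈ C R (n + (k + 1)) (Set.univ : Set (Y × B)) := by
            rw [← add_assoc]; exact Submodule.smul_mem _ _ hb
          simpa [cubeSys] using this, by
          have : cr n z c - ((-1 : R) ^ n) • bd (n + (k + 1)) (((-1 : R) ^ n) • b) ∈
              Q R (n + k) A' := by
            rw [map_smul, smul_smul, e3, one_smul, ← add_assoc]; exact hcb
          simpa [cubeSys, crossHom] using this⟩
      obtain ⟨b', hb', h2⟩ := h'
      refine ⟨b', by simpa [cubeSys] using hb', by simpa [cubeSys] using h2⟩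
    · rintro h c hc hdc ⟨w, hw, hcw⟩
      have hc' : c ∈ Z R k (Set.univ : Set B) A := by
        refine ⟨by simpa [cubeSys] using hc, ?_⟩
        have : bd k c ∈ Q R (k - 1) A := by simpa [cubeSys] using hdc
        exact this
      have hw' : w ∈ C R (n + (k + 1)) (Set.univ : Set (Y × B)) := by
        simpa [cubeSys] using hw
      have hcw' : cr n z c - ((-1 : R) ^ n) • bd (n + (k + 1)) w ∈ Q R (n + k) A' := by
        simpa [cubeSys, crossHom] using hcw
      obtain ⟨b, hb, h2⟩ := h c hc' ⟨((-1 : R) ^ n) • w, by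
        rw [add_assoc]; exact Submodule.smul_mem _ _ hw', by
        rw [map_smul, add_assoc]; exact hcw'⟩
      exact ⟨b, by simpa [cubeSys] using hb, by simpa [cubeSys] using h2⟩
  · constructor
    · intro h w hw
      have hw2 : bd (n + k) w ∈ Q R (n + k - 1) A' := hw.2
      obtain ⟨c, hc, hdc, x, hx, hwx⟩ := h w (by simpa [cubeSys] using hw.1) (by
        have : ((-1 : R) ^ n) • bd (n + k) w ∈ Q R (n + (k - 1)) A' := by
          rw [← add_sub_assoc]; exact Submodule.smul_mem _ _ hw2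
        simpa [cubeSys] using this)
      have hc' : c ∈ Z R k (Set.univ : Set B) A := by
        refine ⟨by simpa [cubeSys] using hc, ?_⟩
        have : bd k c ∈ Q R (k - 1) A := by simpa [cubeSys] using hdc
        exact this
      refine ⟨c, hc', ((-1 : R) ^ n) • x, ?_, ?_⟩
      · have : x ∈ C R (n + (k + 1)) (Set.univ : Set (Y × B)) := by
          simpa [cubeSys] using hx
        rw [add_assoc]; exact Submodule.smul_mem _ _ this
      · have : w - cr n z c - ((-1 : R) ^ n) • bd (n + (k + 1)) x ∈ Q R (n + k) A' := by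
          simpa [cubeSys, crossHom] using hwx
        rw [map_smul, add_assoc]; exact this
    · intro h w hw hdw
      have hw' : w ∈ C R (n + k) (Set.univ : Set (Y × B)) := by
        simpa [cubeSys] using hw
      have hdw' : ((-1 : R) ^ n) • bd (n + k) w ∈ Q R (n + (k - 1)) A' := by
        simpa [cubeSys] using hdw
      obtain ⟨c, hc, b, hb, hwb⟩ := h w ⟨hw', by
        change bd (n + k) w ∈ Q R (n + k - 1) A'
        have h4 := Submodule.smul_mem _ ((-1 : R) ^ n) hdw'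
        rw [smul_smul, e3, one_smul, ← add_sub_assoc] at h4
        exact h4⟩
      refine ⟨c, by simpa [cubeSys] using hc.1, ?_, ((-1 : R) ^ n) • b, ?_, ?_⟩
      · have := hc.2
        simpa [cubeSys] using this
      · have : ((-1 : R) ^ n) • b ∈ C R (n + (k + 1)) (Set.univ : Set (Y × B)) := by
          rw [← add_assoc]; exact Submodule.smul_mem _ _ hb
        simpa [cubeSys] using this
      · have : w - cr n z c - ((-1 : R) ^ n) • bd (n + (k + 1)) (((-1 : R) ^ n) • b) ∈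
            Q R (n + k) A' := by
          rw [map_smul, smul_smul, e3, one_smul, ← add_assoc]; exact hwb
        simpa [cubeSys, crossHom] using this

end CubeHom
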