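import Pool.Agent.Lib.MP_cb6a70_gt_HB.BoxRet

/-!
# Vanishing homotopy groups imply that all maps from boundaries of cubes extend
-/

namespace CubeHom

open unitInterval

theorem isClosed_cubeBoundary (k : ℕ) : IsClosed (Cube.boundary (Fin k)) := by
  have h : Cube.boundary (Fin k) = ⋃ i : Fin k, {y | y i = 0 ∨ y i = 1} := by
    ext y; simp [Cube.boundary]
  rw [h]
  refine isClosed_iUnion_of_finite fun i => ?_
  exact (isClosed_eq (continuous_apply i) continuous_const).union
    (isClosed_eq (continuous_apply i) continuous_const)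

theorem continuous_finTail {k : ℕ} :
    Continuous (fun v : Fin (k + 1) → unitInterval => (Fin.tail v : Fin k → unitInterval)) :=
  continuous_pi fun i => continuous_apply i.succ

/-- The homotopy extension property of the pair of a cube and its boundary. -/
theorem hep {X : Type*} [TopologicalSpace X] {k : ℕ} (G0 : (Fin k → unitInterval) → X)
    (h0 : Continuous G0) (H : unitInterval × (Fin k → unitInterval) → X)
    (hH : ContinuousOn H {p | p.2 ∈ Cube.boundary (Fin k)})
    (h : ∀ u ∈ Cube.boundary (Fin k), H (0, u) = G0 u) :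
    ∃ E : unitInterval × (Fin k → unitInterval) → X, Continuous E ∧ (∀ u, E (0, u) = G0 u) ∧
      ∀ t, ∀ u ∈ Cube.boundary (Fin k), E (t, u) = H (t, u) := by
  classical
  set f : (Fin (k + 1) → unitInterval) → X := fun v =>
    if v 0 = 0 then G0 (Fin.tail v) else H (v 0, Fin.tail v) with hf
  have f_zero : ∀ v, v 0 = 0 → f v = G0 (Fin.tail v) := fun v hv => by simp [hf, hv]
  have f_bdry : ∀ v : Fin (k + 1) → unitInterval, Fin.tail v ∈ Cube.boundary (Fin k) →
      f v = H (v 0, Fin.tail v) := fun v hv => by
    by_cases h' : v 0 = 0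
    · rw [f_zero v h', h', h _ hv]
    · simp [hf, h']
  have hbox : Box k = {v | v 0 = 0} ∪ {v | (Fin.tail v : Fin k → unitInterval) ∈
      Cube.boundary (Fin k)} := by
    ext v; simp [Box, Cube.boundary, Fin.tail]
  have hcont : ContinuousOn f (Box k) := by
    rw [hbox]
    refine ContinuousOn.union_of_isClosed ?_ ?_ (isClosed_eq (continuous_apply 0)
      continuous_const) ((isClosed_cubeBoundary k).preimage continuous_finTail)
    · exact (h0.comp continuous_finTail).continuousOn.congr fun v hv => f_zero v hv
    · refine ContinuousOn.congr (f := fun v => H (v 0, Fin.tail v)) ?_ fun v hv => f_bdry v hv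
      refine hH.comp (Continuous.continuousOn ?_) fun v hv => hv
      exact (continuous_apply 0).prodMk continuous_finTail
  obtain ⟨G, hG, hGf⟩ := box_extend f hcont
  have hcons : Continuous (fun p : unitInterval × (Fin k → unitInterval) =>
      (Fin.cons p.1 p.2 : Fin (k + 1) → unitInterval)) := by
    refine continuous_pi fun i => ?_
    refine Fin.cases ?_ (fun i => ?_) i
    · simpa using continuous_fst
    · simp only [Fin.cons_succ]
      exact (continuous_apply i).comp continuous_snd
  refine ⟨fun p => G (Fin.cons p.1 p.2), hG.comp hcons, fun u => ?_, fun t u hu => ?_⟩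
  · have h1 := hGf (Fin.cons 0 u) (Or.inl (by simp))
    simp only at h1 ⊢
    rw [h1, f_zero _ (by simp), Fin.tail_cons]
  · have hm : (Fin.cons t u : Fin (k + 1) → unitInterval) ∈ Box k := by
      rw [hbox]; right
      simpa using hu
    have h1 := hGf _ hm
    simp only
    rw [h1, f_bdry _ (by simpa using hu)]
    simp

/-- A backwards form of the homotopy extension property, used to fill. -/
theorem fill_back {X : Type*} [TopologicalSpace X] {k : ℕ} (G1 : (Fin k → unitInterval) → X)
    (h1 : Continuous G1) (H : unitInterval × (Fin k → unitInterval) → X)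
    (hH : ContinuousOn H {p | p.2 ∈ Cube.boundary (Fin k)})
    (h : ∀ u ∈ Cube.boundary (Fin k), H (1, u) = G1 u) :
    ∃ G : (Fin k → unitInterval) → X, Continuous G ∧
      ∀ u ∈ Cube.boundary (Fin k), G u = H (0, u) := by
  obtain ⟨E, hE, -, hEb⟩ := hep G1 h1 (fun p => H (σ p.1, p.2))
    (hH.comp (by fun_prop) fun p hp => hp) (fun u hu => by simpa using h u hu)
  refine ⟨fun u => E (1, u), hE.comp (by fun_prop), fun u hu => ?_⟩
  simpa using hEb 1 u hu

/-- If all homotopy groups in degree `j` vanish then all maps from the boundary of the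
`(j + 1)`-cube extend. -/
theorem fills_of_pi {X : Type*} [TopologicalSpace X] {j : ℕ}
    (hpi : ∀ (x0 : X) (f : GenLoop (Fin j) X x0), GenLoop.Homotopic f GenLoop.const) :
    Fills X (j + 1) := by
  classical
  intro g hg
  have hBd : ∀ u : Fin (j + 1) → unitInterval, u ∈ Cube.boundary (Fin (j + 1)) ↔
      u 0 = 1 ∨ u ∈ Box j := fun u => by
    simp only [Cube.boundary, Box, Set.mem_ofPred_eq, Fin.exists_fin_succ]
    constructor
    · rintro ((h | h) | h)
      exacts [Or.inr (Or.inl h), Or.inl h, Or.inr (Or.inr h)]
    · rintro (h | h | h)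
      exacts [Or.inl (Or.inr h), Or.inl (Or.inl h), Or.inr h]
  have hg' : ContinuousOn g (Cube.boundary (Fin (j + 1))) := hg
  have hgB : ContinuousOn g (Box j) := hg'.mono fun u hu => (hBd u).2 (Or.inr hu)
  -- the contraction of the box
  set A : unitInterval × (Fin (j + 1) → unitInterval) → X :=
    fun p => g (boxRet fun i => σ p.1 * p.2 i) with hA
  have hAc : Continuous A := by
    refine hgB.comp_continuous (continuous_boxRet.comp ?_) fun p => boxRet_mem _
    refine continuous_pi fun i => ?_
    exact (continuous_symm.comp continuous_fst).mul ((continuous_apply i).comp continuous_snd)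
  set x0 : X := g 0 with hx0
  have hA0 : ∀ u ∈ Box j, A (0, u) = g u := fun u hu => by
    simp [hA, boxRet_of_mem hu]
  have hA1 : ∀ u, A (1, u) = x0 := fun u => by
    have : boxRet (0 : Fin (j + 1) → unitInterval) = 0 := boxRet_of_mem (Or.inl rfl)
    simp only [hA, symm_one, zero_mul, hx0]
    exact congrArg g this
  have hcons : ∀ a : unitInterval, Continuous (fun u : Fin j → unitInterval =>
      (Fin.cons a u : Fin (j + 1) → unitInterval)) := fun a => by
    refine continuous_pi fun i => ?_
    refine Fin.cases ?_ (fun i => ?_) i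
    · simpa using continuous_const
    · simpa using continuous_apply i
  have hconsB : ∀ u ∈ Cube.boundary (Fin j), (Fin.cons 1 u : Fin (j + 1) → unitInterval) ∈
      Box j := fun u hu => by
    obtain ⟨i, hi⟩ := hu
    exact Or.inr ⟨i, by simpa using hi⟩
  -- extend over the face `u 0 = 1`
  obtain ⟨E, hE, hE0, hEb⟩ := hep (fun u : Fin j → unitInterval => g (Fin.cons 1 u))
    (hg'.comp_continuous (hcons 1) fun u => (hBd _).2 (Or.inl (by simp)))
    (fun p => A (p.1, Fin.cons 1 p.2))
    (Continuous.continuousOn (hAc.comp (continuous_fst.prodMk ((hcons 1).comp continuous_snd))))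
    (fun u hu => hA0 _ (hconsB u hu))
  -- the loop
  let f : GenLoop (Fin j) X x0 := ⟨⟨fun u => E (1, u), hE.comp (by fun_prop)⟩, fun u hu => by
    change E (1, u) = x0
    rw [hEb 1 u hu]; exact hA1 _⟩
  obtain ⟨K⟩ := hpi x0 f
  -- the homotopy of the boundary
  set H : unitInterval × (Fin (j + 1) → unitInterval) → X := fun p =>
    if p.2 0 = 1 then E (p.1, Fin.tail p.2) else A p with hH
  have hH1 : ∀ p : unitInterval × (Fin (j + 1) → unitInterval), p.2 0 = 1 →
      H p = E (p.1, Fin.tail p.2) := fun p hp => by simp [hH, hp]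
  have hHB : ∀ p : unitInterval × (Fin (j + 1) → unitInterval), p.2 ∈ Box j → H p = A p := by
    intro p hp
    by_cases h1 : p.2 0 = 1
    · rw [hH1 p h1]
      have hb : (Fin.tail p.2 : Fin j → unitInterval) ∈ Cube.boundary (Fin j) := by
        rcases hp with hp | ⟨i, hi⟩
        · rw [hp] at h1
          exact absurd h1 (by simp)
        · exact ⟨i, hi⟩
      rw [hEb _ _ hb]
      have : (Fin.cons 1 (Fin.tail p.2) : Fin (j + 1) → unitInterval) = p.2 := by
        rw [← h1]; exact Fin.cons_self_tail _
      rw [this]
    · simp [hH, h1]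
  have hHc : ContinuousOn H {p | p.2 ∈ Cube.boundary (Fin (j + 1))} := by
    have hset : {p : unitInterval × (Fin (j + 1) → unitInterval) |
        p.2 ∈ Cube.boundary (Fin (j + 1))} = {p | p.2 0 = 1} ∪ {p | p.2 ∈ Box j} := by
      ext p; simp only [Set.mem_ofPred_eq, Set.mem_union, hBd]
    rw [hset]
    have hboxc : IsClosed (Box j) := by
      have hbox : Box j = {v | v 0 = 0} ∪ {v | (Fin.tail v : Fin j → unitInterval) ∈
          Cube.boundary (Fin j)} := by
        ext v; simp [Box, Cube.boundary, Fin.tail]
      rw [hbox]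
      exact (isClosed_eq (continuous_apply 0) continuous_const).union
        ((isClosed_cubeBoundary j).preimage continuous_finTail)
    refine ContinuousOn.union_of_isClosed ?_ ?_ (isClosed_eq (by fun_prop) continuous_const)
      (hboxc.preimage continuous_snd)
    · refine ContinuousOn.congr (f := fun p => E (p.1, Fin.tail p.2)) ?_ fun p hp => hH1 p hp
      exact (hE.comp (continuous_fst.prodMk (continuous_finTail.comp
        continuous_snd))).continuousOn
    · exact hAc.continuousOn.congr fun p hp => hHB p hp
  -- fill the end of the homotopy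
  obtain ⟨G, hG, hGb⟩ := fill_back (k := j + 1)
    (fun u => K (σ (u 0), Fin.tail u))
    (K.continuous.comp ((continuous_symm.comp (continuous_apply 0)).prodMk continuous_finTail))
    H hHc (by
      intro u hu
      rcases (hBd u).1 hu with h1 | hB
      · rw [hH1 _ h1]
        simp only [h1, symm_one]
        rw [K.apply_zero]
        rfl
      · rw [hHB _ hB, hA1]
        rcases hB with h0 | ⟨i, hi⟩
        · simp only [h0, symm_zero]
          rw [K.apply_one]
          rfl
        · have hb : (Fin.tail u : Fin j → unitInterval) ∈ Cube.boundary (Fin j) := ⟨i, hi⟩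
          rw [K.eq_fst _ hb]
          exact (f.2 _ hb).symm)
  refine ⟨G, hG, fun u hu => ?_⟩
  rw [hGb u hu]
  rcases (hBd u).1 hu with h1 | hB
  · rw [hH1 _ h1]
    simp only
    rw [hE0]
    have : (Fin.cons 1 (Fin.tail u) : Fin (j + 1) → unitInterval) = u := by
      rw [← h1]; exact Fin.cons_self_tail _
    rw [this]
  · rw [hHB _ hB]
    exact hA0 u hB

end CubeHom
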