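import Pool.Agent.Lib.MP_cb6a70_gt_HB.Basic
import Pool.Agent.Lib.MP_cb6a70_gt_HB.BoxRet

/-!
# Face data of cubes; Kan fillings
-/

namespace CubeHom

variable {X : Type*} [TopologicalSpace X]

/-- The end points of the unit interval. -/
def pt (e : Bool) : I := if e then 1 else 0

/-- `φ i e` (for the faces `(i, e)` of the `n`-cube with `P i e`) are `(n-1)`-cubes which agree on
the common faces. -/
def FD (n : ℕ) (P : ℕ → Bool → Prop) (φ : ℕ → Bool → C(Cb, X)) : Prop :=
  (∀ i < n, ∀ e, P i e → IsCube ((n : ℤ) - 1) (φ i e)) ∧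
    ∀ i j, i ≤ j → j + 1 < n → ∀ e e', P i e → P (j + 1) e' →
      (φ (j + 1) e').comp (ins i (pt e)) = (φ i e).comp (ins j (pt e'))

/-- Delete the coordinate `i`. -/
def del (i : ℕ) : C(Cb, Cb) where
  toFun u := fun j => if j < i then u j else u (j + 1)
  continuous_toFun := by
    refine continuous_pi fun j => ?_
    by_cases h1 : j < i
    · simpa [h1] using continuous_apply j
    · simpa [h1] using continuous_apply (j + 1)

theorem del_apply (i : ℕ) (u : Cb) (j : ℕ) : del i u j = if j < i then u j else u (j + 1) := rfl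

theorem ins_del (i : ℕ) (e : I) (u : Cb) (hu : u i = e) : ins i e (del i u) = u := by
  funext j
  rcases lt_trichotomy j i with h | h | h
  · rw [ins_apply_lt h, del_apply, if_pos h]
  · rw [h, ins_apply_self, hu]
  · rw [ins_apply_gt h, del_apply, if_neg (by omega), Nat.sub_add_cancel (by omega)]

theorem del_ins (i : ℕ) (e : I) (u : Cb) : del i (ins i e u) = u := by
  funext j
  rw [del_apply]
  split_ifs with h
  · rw [ins_apply_lt h]
  · rw [ins_apply_gt (by omega), Nat.add_sub_cancel]

theorem del_del {i j : ℕ} (hij : i ≤ j) (u : Cb) : del j (del i u) = del i (del (j + 1) u) := by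
  funext k
  simp only [del_apply]
  split_ifs <;> first | rfl | omega

/-- Glueing of compatible faces. -/
theorem glue {n : ℕ} {P : ℕ → Bool → Prop} {φ : ℕ → Bool → C(Cb, X)} (h : FD n P φ) :
    ∃ g : Cb → X, ContinuousOn g {u | ∃ i < n, ∃ e, P i e ∧ u i = pt e} ∧
      ∀ i < n, ∀ e, P i e → ∀ u : Cb, u i = pt e → g u = φ i e (del i u) := by
  classical
  -- compatibility
  have hlt : ∀ i j, i < j → j < n → ∀ e e', P i e → P j e' → ∀ u : Cb, u i = pt e → u j = pt e' →
      φ j e' (del j u) = φ i e (del i u) := by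
    intro i j hij hj e e' he he' u hu hu'
    obtain ⟨k, rfl⟩ : ∃ k, j = k + 1 := ⟨j - 1, by omega⟩
    have h1 := h.2 i k (by omega) hj e e' he he'
    have h2 : del (k + 1) u = ins i (pt e) (del i (del (k + 1) u)) := by
      rw [ins_del]
      rw [del_apply, if_pos hij, hu]
    have h3 : del i u = ins k (pt e') (del i (del (k + 1) u)) := by
      rw [← del_del (by omega : i ≤ k), ins_del]
      rw [del_apply, if_neg (by omega), hu']
    rw [h2, h3]
    exact DFunLike.congr_fun h1 _
  have hne : ∀ i j, i < n → j < n → ∀ e e', P i e → P j e' → ∀ u : Cb, u i = pt e →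
      u j = pt e' → φ j e' (del j u) = φ i e (del i u) := by
    intro i j hi hj e e' he he' u hu hu'
    rcases lt_trichotomy i j with hij | hij | hij
    · exact hlt i j hij hj e e' he he' u hu hu'
    · subst hij
      have : e = e' := by
        rw [hu] at hu'
        cases e <;> cases e' <;> simp [pt] at hu' ⊢
      rw [this]
    · exact (hlt j i hij hi e' e he' he u hu' hu).symm
  set g : Cb → X := fun u =>
    if hu : ∃ q : ℕ × Bool, q.1 < n ∧ P q.1 q.2 ∧ u q.1 = pt q.2 then
      φ hu.choose.1 hu.choose.2 (del hu.choose.1 u) else φ 0 true u with hg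
  have hgs : ∀ i < n, ∀ e, P i e → ∀ u : Cb, u i = pt e → g u = φ i e (del i u) := by
    intro i hi e he u hu
    have hq : ∃ q : ℕ × Bool, q.1 < n ∧ P q.1 q.2 ∧ u q.1 = pt q.2 := ⟨(i, e), hi, he, hu⟩
    have hs := hq.choose_spec
    simp only [hg, dif_pos hq]
    exact hne i _ hi hs.1 e _ he hs.2.1 u hu hs.2.2
  refine ⟨g, ?_, hgs⟩
  -- continuity on a finite union of closed sets
  have hset : {u : Cb | ∃ i < n, ∃ e, P i e ∧ u i = pt e} =
      ⋃ q : {q : Fin n × Bool // P q.1 q.2}, {u : Cb | u q.1.1 = pt q.1.2} := by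
    ext u
    simp only [Set.mem_ofPred_eq, Set.mem_iUnion]
    constructor
    · rintro ⟨i, hi, e, he, hu⟩
      exact ⟨⟨(⟨i, hi⟩, e), he⟩, hu⟩
    · rintro ⟨⟨⟨i, e⟩, he⟩, hu⟩
      exact ⟨i, i.2, e, he, hu⟩
  rw [hset]
  refine (locallyFinite_of_finite _).continuousOn_iUnion
    (fun q => isClosed_eq (continuous_apply _) continuous_const) fun q => ?_
  obtain ⟨⟨i, e⟩, he⟩ := q
  exact ((φ i e).continuous.comp (del i).continuous).continuousOn.congr
    fun u hu => hgs i i.2 e he u hu

/-- Extend a point of the cube by zero. -/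
def ext (n : ℕ) (v : Fin n → I) : Cb := fun j => if h : j < n then v ⟨j, h⟩ else 0

/-- Restrict to the first coordinates. -/
def res (n : ℕ) (u : Cb) : Fin n → I := fun k => u k

theorem continuous_ext (n : ℕ) : Continuous (ext n) := by
  refine continuous_pi fun j => ?_
  by_cases h : j < n
  · simpa [ext, h] using continuous_apply (⟨j, h⟩ : Fin n)
  · simpa [ext, h] using continuous_const

theorem continuous_res (n : ℕ) : Continuous (res n) :=
  continuous_pi fun k => continuous_apply (k : ℕ)

theorem ext_apply_lt {n : ℕ} (v : Fin n → I) {j : ℕ} (h : j < n) : ext n v j = v ⟨j, h⟩ := by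
  simp [ext, h]

theorem ext_apply (n : ℕ) (v : Fin n → I) (k : Fin n) : ext n v k = v k := by
  rw [ext_apply_lt v k.2]

theorem res_ext (n : ℕ) (v : Fin n → I) : res n (ext n v) = v := by
  funext k
  exact ext_apply n v k

theorem ext_res {n : ℕ} (u : Cb) {j : ℕ} (h : j < n) : ext n (res n u) j = u j := by
  rw [ext_apply_lt _ h]; rfl

/-- A face does not see the coordinates which are cut off. -/
theorem face_cut {n i : ℕ} {ψ : C(Cb, X)} (hψ : IsCube ((n : ℤ) - 1) ψ) (e : I)
    (u : Cb) : ψ (del i (ext n (res n (ins i e u)))) = ψ u := by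
  refine hψ.2 fun k hk => ?_
  simp only [Set.mem_ofPred_eq] at hk
  rw [del_apply]
  split_ifs with h
  · rw [ext_res _ (by omega), ins_apply_lt h]
  · rw [ext_res _ (by omega), ins_apply_gt (by omega), Nat.add_sub_cancel]

theorem isCube_of_res {n : ℕ} {T : C(Cb, X)} {G : (Fin n → I) → X} (hT : ∀ u, T u = G (res n u)) :
    IsCube (n : ℤ) T := by
  refine ⟨by omega, fun u v huv => ?_⟩
  rw [hT, hT]
  congr 1
  funext k
  exact huv _ (by simp)

/-- Filling of complete face data. -/
theorem fill {n : ℕ} (hF : Fills X n) {φ : ℕ → Bool → C(Cb, X)} (h : FD n (fun _ _ => True) φ) :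
    ∃ T : C(Cb, X), IsCube (n : ℤ) T ∧ ∀ i < n, ∀ e, T.comp (ins i (pt e)) = φ i e := by
  obtain ⟨g, hg, hgφ⟩ := glue h
  obtain ⟨G, hG, hGg⟩ := hF (fun v => g (ext n v)) (by
    refine hg.comp (continuous_ext n).continuousOn ?_
    rintro v ⟨i, hi⟩
    rcases hi with hi | hi
    · exact ⟨i, i.2, false, trivial, by rw [ext_apply, hi]; rfl⟩
    · exact ⟨i, i.2, true, trivial, by rw [ext_apply, hi]; rfl⟩)
  refine ⟨⟨fun u => G (res n u), hG.comp (continuous_res n)⟩, isCube_of_res (G := G)
    fun u => rfl, fun i hi e => ?_⟩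
  ext u
  change G (res n (ins i (pt e) u)) = φ i e u
  have hr : res n (ins i (pt e) u) ⟨i, hi⟩ = pt e := ins_apply_self i (pt e) u
  rw [hGg _ ⟨⟨i, hi⟩, by rw [hr]; cases e <;> simp [pt]⟩]
  rw [hgφ i hi e trivial _ (by rw [ext_apply_lt _ hi, hr])]
  exact face_cut (h.1 i hi e trivial) (pt e) u

/-- The retraction onto the box without the face `(0, e0)`. -/
theorem exists_ret (n : ℕ) (e0 : Bool) : ∃ r : (Fin (n + 1) → I) → (Fin (n + 1) → I),
    Continuous r ∧ (∀ v, ∃ i e, (i, e) ≠ (0, e0) ∧ r v i = pt e) ∧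
      ∀ v, (∃ i e, (i, e) ≠ (0, e0) ∧ v i = pt e) → r v = v := by
  have hbox : ∀ v : Fin (n + 1) → I, v ∈ Box n ↔ ∃ i e, (i, e) ≠ (0, true) ∧ v i = pt e := by
    intro v
    simp only [Box, Set.mem_ofPred_eq]
    constructor
    · rintro (h | ⟨i, h | h⟩)
      · exact ⟨0, false, by simp, by rw [h]; rfl⟩
      · exact ⟨i.succ, false, by simp, by rw [h]; rfl⟩
      · exact ⟨i.succ, true, by simp, by rw [h]; rfl⟩
    · rintro ⟨i, e, hne, h⟩
      rcases Fin.eq_zero_or_eq_succ i with rfl | ⟨k, rfl⟩
      · cases e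
        · exact Or.inl h
        · exact absurd rfl hne
      · refine Or.inr ⟨k, ?_⟩
        rw [h]
        cases e
        · exact Or.inl rfl
        · exact Or.inr rfl
  cases e0
  · -- reflect
    let s : (Fin (n + 1) → I) → (Fin (n + 1) → I) := fun v => Function.update v 0
      (unitInterval.symm (v 0))
    have hs : Continuous s := continuous_id.update 0
      (unitInterval.continuous_symm.comp (continuous_apply 0))
    have hss : ∀ v, s (s v) = v := fun v => by
      funext i
      rcases Fin.eq_zero_or_eq_succ i with rfl | ⟨k, rfl⟩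
      · simp [s]
      · simp [s]
    have hsb : ∀ v : Fin (n + 1) → I, s v ∈ Box n ↔
        ∃ i e, (i, e) ≠ (0, false) ∧ v i = pt e := by
      intro v
      simp only [Box, Set.mem_ofPred_eq]
      constructor
      · rintro (h | ⟨i, h⟩)
        · refine ⟨0, true, by simp, ?_⟩
          have h1 : unitInterval.symm (v 0) = 0 := by simpa [s] using h
          rw [unitInterval.symm_eq_zero.1 h1]; rfl
        · rcases h with h | h
          · exact ⟨i.succ, false, by simp, by simpa [s, pt] using h⟩
          · exact ⟨i.succ, true, by simp, by simpa [s, pt] using h⟩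
      · rintro ⟨i, e, hne, h⟩
        rcases Fin.eq_zero_or_eq_succ i with rfl | ⟨k, rfl⟩
        · cases e
          · exact absurd rfl hne
          · left
            simp [s, h, pt]
        · refine Or.inr ⟨k, ?_⟩
          cases e
          · left; simpa [s, pt] using h
          · right; simpa [s, pt] using h
    refine ⟨fun v => s (boxRet (s v)), hs.comp (continuous_boxRet.comp hs), fun v => ?_,
      fun v hv => ?_⟩
    · rw [← hsb, hss]; exact boxRet_mem _
    · change s (boxRet (s v)) = v
      rw [boxRet_of_mem ((hsb v).2 hv), hss]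
  · exact ⟨boxRet, continuous_boxRet, fun v => (hbox _).1 (boxRet_mem v),
      fun v hv => boxRet_of_mem ((hbox v).2 hv)⟩

/-- Open boxes (without the face `(0, e0)`) can be filled. -/
theorem kan {n : ℕ} (e0 : Bool) {φ : ℕ → Bool → C(Cb, X)}
    (h : FD (n + 1) (fun i e => (i, e) ≠ (0, e0)) φ) :
    ∃ T : C(Cb, X), IsCube ((n : ℤ) + 1) T ∧
      ∀ i < n + 1, ∀ e, (i, e) ≠ (0, e0) → T.comp (ins i (pt e)) = φ i e := by
  obtain ⟨g, hg, hgφ⟩ := glue h
  obtain ⟨r, hr, hrm, hri⟩ := exists_ret n e0
  have hc : Continuous fun v => g (ext (n + 1) (r v)) := by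
    refine hg.comp_continuous ((continuous_ext _).comp hr) fun v => ?_
    obtain ⟨i, e, hne, hi⟩ := hrm v
    refine ⟨i, i.2, e, ?_, by rw [ext_apply, hi]⟩
    intro hc
    apply hne
    simp only [Prod.mk.injEq] at hc ⊢
    exact ⟨Fin.ext hc.1, hc.2⟩
  refine ⟨⟨fun u => g (ext (n + 1) (r (res (n + 1) u))), hc.comp (continuous_res _)⟩, ?_,
    fun i hi e hne => ?_⟩
  · have := isCube_of_res (X := X) (n := n + 1)
      (T := ⟨fun u => g (ext (n + 1) (r (res (n + 1) u))), hc.comp (continuous_res _)⟩)
      (G := fun v => g (ext (n + 1) (r v))) fun u => rfl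
    exact_mod_cast this
  · ext u
    change g (ext (n + 1) (r (res (n + 1) (ins i (pt e) u)))) = φ i e u
    have hr' : res (n + 1) (ins i (pt e) u) ⟨i, hi⟩ = pt e := ins_apply_self i (pt e) u
    rw [hri _ ⟨⟨i, hi⟩, e, ?_, hr'⟩]
    · rw [hgφ i hi e hne _ (by rw [ext_apply_lt _ hi, hr'])]
      exact face_cut (h.1 i hi e hne) (pt e) u
    · intro hc
      apply hne
      simp only [Prod.mk.injEq] at hc ⊢
      exact ⟨congrArg Fin.val hc.1, hc.2⟩

theorem fills_zero [Nonempty X] : Fills X 0 := by
  intro g _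
  exact ⟨g, continuous_of_const fun a b => congrArg g (Subsingleton.elim a b), fun u _ => rfl⟩

theorem fills_of_cb {n : ℕ} (h : ∀ φ : ℕ → Bool → C(Cb, X), FD n (fun _ _ => True) φ →
    ∃ T : C(Cb, X), ∀ i < n, ∀ e, T.comp (ins i (pt e)) = φ i e) : Fills X n := by
  intro g hg
  rcases Nat.eq_zero_or_pos n with rfl | hn
  · exact ⟨g, continuous_of_const fun a b => congrArg g (Subsingleton.elim a b), fun u _ => rfl⟩
  have hc : ∀ i < n, ∀ e, Continuous fun u : Cb => g (res n (ins i (pt e) u)) := by
    intro i hi e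
    refine hg.comp_continuous ((continuous_res n).comp (ins i (pt e)).continuous) fun u => ?_
    refine ⟨⟨i, hi⟩, ?_⟩
    have : res n (ins i (pt e) u) ⟨i, hi⟩ = pt e := ins_apply_self i (pt e) u
    rw [this]; cases e <;> simp [pt]
  let φ : ℕ → Bool → C(Cb, X) := fun i e =>
    if hi : i < n then ⟨fun u => g (res n (ins i (pt e) u)), hc i hi e⟩
    else ContinuousMap.const _ (g 0)
  have hφ : ∀ i (hi : i < n) e u, φ i e u = g (res n (ins i (pt e) u)) := fun i hi e u => by
    simp [φ, hi]
  obtain ⟨T, hT⟩ := h φ (by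
    refine ⟨fun i hi e _ => ⟨by omega, fun u v huv => ?_⟩, fun i j hij hj e e' _ _ => ?_⟩
    · rw [hφ i hi, hφ i hi]
      congr 1
      funext k
      change ins i (pt e) u k = ins i (pt e) v k
      rcases lt_trichotomy (k : ℕ) i with hk | hk | hk
      · rw [ins_apply_lt hk, ins_apply_lt hk]
        exact huv _ (by simp only [Set.mem_ofPred_eq]; omega)
      · rw [hk, ins_apply_self, ins_apply_self]
      · rw [ins_apply_gt hk, ins_apply_gt hk]
        refine huv _ ?_
        simp only [Set.mem_ofPred_eq]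
        have := k.2
        omega
    · ext u
      change φ (j + 1) e' (ins i (pt e) u) = φ i e (ins j (pt e') u)
      rw [hφ _ hj, hφ _ (by omega)]
      have := DFunLike.congr_fun (ins_ins hij (pt e') (pt e)) u
      simp only [ContinuousMap.comp_apply] at this
      rw [this])
  refine ⟨fun v => T (ext n v), T.continuous.comp (continuous_ext n), ?_⟩
  rintro v ⟨i, hi⟩
  obtain ⟨e, he⟩ : ∃ e, v i = pt e := by
    rcases hi with hi | hi
    · exact ⟨false, hi⟩
    · exact ⟨true, hi⟩
  have h1 : ins i (pt e) (del i (ext n v)) = ext n v := ins_del _ _ _ (by rw [ext_apply, he])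
  have h2 := DFunLike.congr_fun (hT i i.2 e) (del i (ext n v))
  simp only [ContinuousMap.comp_apply] at h2
  rw [h1, hφ i i.2, h1, res_ext] at h2
  exact h2

theorem fills_one [PathConnectedSpace X] : Fills X 1 := by
  intro g _
  obtain ⟨γ⟩ := PathConnectedSpace.joined (g 0) (g 1)
  refine ⟨fun u => γ (u 0), γ.continuous.comp (continuous_apply 0), ?_⟩
  rintro u ⟨i, hi⟩
  have hi0 : i = 0 := Subsingleton.elim _ _
  subst hi0
  rcases hi with hi | hi
  · have : u = 0 := by
      funext k; rw [Subsingleton.elim k 0, hi]; rfl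
    subst this
    simp
  · have : u = 1 := by
      funext k; rw [Subsingleton.elim k 0, hi]; rfl
    subst this
    simp

theorem null_one [SimplyConnectedSpace X] (x0 : X) (f : GenLoop (Fin 1) X x0) :
    GenLoop.Homotopic f GenLoop.const := by
  have h : Subsingleton (HomotopyGroup (Fin 1) X x0) :=
    (HomotopyGroup.pi1EquivFundamentalGroup (x := x0)).subsingleton
  exact Quotient.exact (s := GenLoop.Homotopic.setoid (Fin 1) x0)
    (h.elim (Quotient.mk _ f) (Quotient.mk _ GenLoop.const))

end CubeHom
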