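import Pool.Agent.Lib.MP_cb6a70_gt_HB.FillPi
import Pool.Agent.Lib.MP_cb6a70_gt_HB.Kan

/-!
# Simply connected spaces fill the boundary of the square
-/

namespace CubeHom

/-- Maps from the boundary of the square to a simply connected space extend. -/
theorem fills_two {X : Type*} [TopologicalSpace X] [SimplyConnectedSpace X] : Fills X 2 :=
  fills_of_pi fun x0 f => null_one x0 f

end CubeHom
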