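import Pool.Agent.Lib.MP_cb6a70_gt_HB.UCover
import Pool.Agent.Lib.MP_cb6a70_gt_HB.Low

/-!
# Spheres of dimension at least two are simply connected
-/

namespace CubeHom

open Set Metric Topology

/-- A connected locally Euclidean space covered by two simply connected open sets with connected
intersection is simply connected (by the universal cover). -/
theorem sc_of_two {n : ℕ} {X : Type} [TopologicalSpace X] [T2Space X] [ConnectedSpace X]
    (hX : LocEuc n X) {U₁ U₂ : Set X} (h₁ : IsOpen U₁) (h₂ : IsOpen U₂)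
    (s₁ : SimplyConnectedSpace U₁) (s₂ : SimplyConnectedSpace U₂) (hU : U₁ ∪ U₂ = univ)
    (hc : IsConnected (U₁ ∩ U₂)) : SimplyConnectedSpace X := by
  obtain ⟨E, _, p, hT2, hSC, hE, hp, hsurj, -⟩ := exists_universal_cover hX
  have hlX : LocallyPathConnectedSpace X := UCover.locallyPathConnectedSpace_of hX
  have hlE : LocallyPathConnectedSpace E := UCover.locallyPathConnectedSpace_of hE
  have l₁ : LocallyPathConnectedSpace U₁ := h₁.locallyPathConnectedSpace
  have l₂ : LocallyPathConnectedSpace U₂ := h₂.locallyPathConnectedSpace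
  obtain ⟨x₀, hx₁, hx₂⟩ := hc.nonempty
  obtain ⟨e₀, he₀⟩ := hsurj x₀
  obtain ⟨f₁, ⟨f₁0, hf₁⟩, -⟩ := hp.existsUnique_continuousMap_lifts
    (⟨Subtype.val, continuous_subtype_val⟩ : C(U₁, X)) ⟨x₀, hx₁⟩ e₀ he₀
  obtain ⟨f₂, ⟨f₂0, hf₂⟩, -⟩ := hp.existsUnique_continuousMap_lifts
    (⟨Subtype.val, continuous_subtype_val⟩ : C(U₂, X)) ⟨x₀, hx₂⟩ e₀ he₀
  have hcc : ConnectedSpace ↥(U₁ ∩ U₂) := isConnected_iff_connectedSpace.1 hc
  -- the two sections agree on the intersection
  have hag : ∀ x (hx : x ∈ U₁ ∩ U₂), f₁ ⟨x, hx.1⟩ = f₂ ⟨x, hx.2⟩ := by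
    have := hp.eq_of_comp_eq (A := ↥(U₁ ∩ U₂))
      (g₁ := fun x => f₁ ⟨x, x.2.1⟩) (g₂ := fun x => f₂ ⟨x, x.2.2⟩)
      (f₁.continuous.comp (by fun_prop)) (f₂.continuous.comp (by fun_prop))
      (by
        funext x
        have a := congrFun hf₁ ⟨x, x.2.1⟩
        have b := congrFun hf₂ ⟨x, x.2.2⟩
        simp only [Function.comp_apply] at a b ⊢
        rw [a, b]
        rfl) ⟨x₀, hx₁, hx₂⟩ (by rw [f₁0, f₂0])
    intro x hx
    exact congrFun this ⟨x, hx⟩
  classical
  let s : X → E := fun x => if h : x ∈ U₁ then f₁ ⟨x, h⟩ else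
    f₂ ⟨x, (by have : x ∈ U₁ ∪ U₂ := hU ▸ mem_univ x; exact this.resolve_left h)⟩
  have hs₁ : ∀ x (h : x ∈ U₁), s x = f₁ ⟨x, h⟩ := fun x h => dif_pos h
  have hs₂ : ∀ x (h : x ∈ U₂), s x = f₂ ⟨x, h⟩ := by
    intro x h
    by_cases h' : x ∈ U₁
    · rw [hs₁ x h', hag x ⟨h', h⟩]
    · exact dif_neg h'
  have hsc : Continuous s := by
    rw [continuous_iff_continuousAt]
    intro x
    have hx : x ∈ U₁ ∪ U₂ := hU ▸ mem_univ x
    rcases hx with hx | hx
    · have : ContinuousOn s U₁ := by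
        rw [continuousOn_iff_continuous_domRestrict]
        refine f₁.continuous.congr fun y => (hs₁ y y.2).symm
      exact this.continuousAt (h₁.mem_nhds hx)
    · have : ContinuousOn s U₂ := by
        rw [continuousOn_iff_continuous_domRestrict]
        refine f₂.continuous.congr fun y => (hs₂ y y.2).symm
      exact this.continuousAt (h₂.mem_nhds hx)
  have hps : ∀ x, p (s x) = x := by
    intro x
    have hx : x ∈ U₁ ∪ U₂ := hU ▸ mem_univ x
    rcases hx with hx | hx
    · rw [hs₁ x hx]; exact congrFun hf₁ ⟨x, hx⟩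
    · rw [hs₂ x hx]; exact congrFun hf₂ ⟨x, hx⟩
  have hs0 : s x₀ = e₀ := by rw [hs₁ x₀ hx₁, f₁0]
  have hsp : s ∘ p = id := by
    refine hp.eq_of_comp_eq (hsc.comp hp.continuous) continuous_id ?_ e₀ ?_
    · funext e
      simp [hps]
    · simp [he₀, hs0]
  let φ : X ≃ₜ E :=
    { toFun := s
      invFun := p
      left_inv := hps
      right_inv := fun e => congrFun hsp e
      continuous_toFun := hsc
      continuous_invFun := hp.continuous }
  exact φ.toHomotopyEquiv.simplyConnectedSpace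

/-- The complement of a point of the sphere is a Euclidean space. -/
noncomputable def sphereChart {n : ℕ}
    (v : sphere (0 : EuclideanSpace ℝ (Fin (n + 1))) 1) :
    ({v}ᶜ : Set (sphere (0 : EuclideanSpace ℝ (Fin (n + 1))) 1)) ≃ₜ (Fin n → ℝ) :=
  haveI : Fact (Module.finrank ℝ (EuclideanSpace ℝ (Fin (n + 1))) = n + 1) := ⟨by simp⟩
  (Homeomorph.setCongr (stereographic'_source (n := n) v).symm).trans
    ((stereographic' n v).toHomeomorphSourceTarget.trans
      ((Homeomorph.setCongr (stereographic'_target (n := n) v)).trans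
        ((Homeomorph.Set.univ _).trans (EuclideanSpace.equiv (Fin n) ℝ).toHomeomorph)))

theorem locEuc_sphere {n : ℕ} : LocEuc n (sphere (0 : EuclideanSpace ℝ (Fin (n + 1))) 1) := by
  intro x
  refine ⟨{-x}ᶜ, isOpen_compl_singleton, ?_, ⟨sphereChart (-x)⟩⟩
  simpa using ne_neg_of_mem_unit_sphere ℝ x

theorem one_lt_rank_euclidean {m : ℕ} (hm : 2 ≤ m) :
    1 < Module.rank ℝ (EuclideanSpace ℝ (Fin m)) := by
  rw [← Module.finrank_eq_rank, finrank_euclideanSpace_fin]
  exact_mod_cast hm

theorem sphere_connected {n : ℕ} (hn : 1 ≤ n) :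
    PathConnectedSpace (sphere (0 : EuclideanSpace ℝ (Fin (n + 1))) 1) :=
  isPathConnected_iff_pathConnectedSpace.1
    (isPathConnected_sphere (one_lt_rank_euclidean (by omega)) 0 zero_le_one)

theorem sphere_simplyConnected {n : ℕ} (hn : 2 ≤ n) :
    SimplyConnectedSpace (sphere (0 : EuclideanSpace ℝ (Fin (n + 1))) 1) := by
  have hpc := sphere_connected (n := n) (by omega)
  obtain ⟨v⟩ := hpc.nonempty
  have hv : v ≠ -v := ne_neg_of_mem_unit_sphere ℝ v
  have h1 : ∀ w : sphere (0 : EuclideanSpace ℝ (Fin (n + 1))) 1,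
      SimplyConnectedSpace ({w}ᶜ : Set (sphere (0 : EuclideanSpace ℝ (Fin (n + 1))) 1)) :=
    fun w => UCover.simplyConnectedSpace_of (sphereChart w)
  refine sc_of_two locEuc_sphere (U₁ := {v}ᶜ) (U₂ := {-v}ᶜ) isOpen_compl_singleton
    isOpen_compl_singleton (h1 _) (h1 _) ?_ ?_
  · rw [← Set.compl_inter, Set.compl_univ_iff]
    ext x
    simp only [mem_inter_iff, mem_singleton_iff, mem_empty_iff_false, iff_false, not_and]
    rintro rfl
    exact hv
  · -- the image of the complement of a point under the inverse chart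
    have h2 : ({v}ᶜ ∩ {-v}ᶜ : Set (sphere (0 : EuclideanSpace ℝ (Fin (n + 1))) 1)) =
        (fun x => ((sphereChart v).symm x : sphere (0 : EuclideanSpace ℝ (Fin (n + 1))) 1)) ''
          {(sphereChart v) ⟨-v, fun h => hv (by simpa using h.symm)⟩}ᶜ := by
      ext x
      constructor
      · rintro ⟨hx1, hx2⟩
        refine ⟨sphereChart v ⟨x, hx1⟩, ?_, by simp⟩
        intro h
        have := (sphereChart v).injective h
        exact hx2 (congrArg Subtype.val this)
      · rintro ⟨y, hy, rfl⟩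
        refine ⟨((sphereChart v).symm y).2, fun h => hy ?_⟩
        have : (sphereChart v).symm y = ⟨-v, fun h => hv (by simpa using h.symm)⟩ :=
          Subtype.ext h
        rw [mem_singleton_iff, ← this, Homeomorph.apply_symm_apply]
    rw [h2]
    refine IsConnected.image ?_ _
      (continuous_subtype_val.comp (sphereChart v).symm.continuous).continuousOn
    refine isConnected_compl_singleton_of_one_lt_rank ?_ _
    rw [← Module.finrank_eq_rank, Module.finrank_fin_fun]
    exact_mod_cast hn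

theorem fills_sphere_two {n : ℕ} (hn : 2 ≤ n) :
    Fills (Metric.sphere (0 : EuclideanSpace ℝ (Fin (n + 1))) 1) 2 := by
  have := sphere_simplyConnected hn
  exact fills_two

theorem fills_sphere_one {n : ℕ} (hn : 1 ≤ n) :
    Fills (Metric.sphere (0 : EuclideanSpace ℝ (Fin (n + 1))) 1) 1 := by
  have := sphere_connected hn
  exact fills_one

instance {n : ℕ} : Nonempty (sphere (0 : EuclideanSpace ℝ (Fin (n + 1))) 1) :=
  (NormedSpace.sphere_nonempty.2 zero_le_one).to_subtype

theorem fills_sphere_zero {n : ℕ} :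
    Fills (Metric.sphere (0 : EuclideanSpace ℝ (Fin (n + 1))) 1) 0 := fills_zero

theorem locHalf_sphere {n : ℕ} :
    LocHalf (Metric.sphere (0 : EuclideanSpace ℝ (Fin (n + 1))) 1) := by
  intro x
  obtain ⟨S, hS, hx, h⟩ := locEuc_sphere x
  exact ⟨S, hS, hx, n, Or.inl h⟩

end CubeHom
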