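import Pool.Agent.Lib.MP_cb6a70_gt_HB.Ane
import Pool.Agent.Lib.MP_cb6a70_gt_HB.Alt
import Pool.Agent.Lib.MP_cb6a70_gt_HB.SphereSC

/-!
# Simple connectivity of a closed side from a section into a simply connected cover
-/

namespace CubeHom

open Set

theorem Fills.of_homeo {X Y : Type*} [TopologicalSpace X] [TopologicalSpace Y] (e : X ≃ₜ Y)
    {m : ℕ} (h : Fills X m) : Fills Y m := by
  intro g hg
  obtain ⟨G, hG, hGg⟩ := h (fun u => e.symm (g u)) (e.symm.continuous.comp_continuousOn hg)
  exact ⟨fun u => e (G u), e.continuous.comp hG, fun u hu => by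
    show e (G u) = g u
    rw [hGg u hu, e.apply_symm_apply]⟩

theorem simplyConnected_iff_fills {X : Type*} [TopologicalSpace X] [Nonempty X] :
    SimplyConnectedSpace X ↔ Fills X 1 ∧ Fills X 2 := by
  constructor
  · intro h
    exact ⟨fills_one, fills_two⟩
  rintro ⟨h1, h2⟩
  have hpc : PathConnectedSpace X := by
    refine ⟨inferInstance, fun x y => ?_⟩
    obtain ⟨G, hG, hg⟩ := h1 (fun u => if u 0 = 0 then x else y) (by
      have hfin : ({u : Fin 1 → unitInterval | ∃ i, u i = 0 ∨ u i = 1}).Finite := by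
        refine Set.Finite.subset (Set.toFinite {(fun _ => 0), (fun _ => 1)}) ?_
        rintro u ⟨i, hi⟩
        have hi0 : i = 0 := Subsingleton.elim _ _
        subst hi0
        rcases hi with hi | hi
        · exact Or.inl (funext fun j => by rw [Subsingleton.elim j 0, hi])
        · exact Or.inr (funext fun j => by rw [Subsingleton.elim j 0, hi])
      have hd : DiscreteTopology ({u : Fin 1 → unitInterval | ∃ i, u i = 0 ∨ u i = 1}) :=
        hfin.isDiscrete.to_subtype
      rw [continuousOn_iff_continuous_domRestrict]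
      exact continuous_of_discreteTopology)
    refine ⟨{ toFun := fun t => G (fun _ => t)
              continuous_toFun := hG.comp (by fun_prop)
              source' := ?_
              target' := ?_ }⟩
    · rw [hg _ ⟨0, Or.inl rfl⟩]; simp
    · rw [hg _ ⟨0, Or.inr rfl⟩]; simp
  rw [simply_connected_iff_paths_homotopic']
  refine ⟨hpc, fun {x y} p q => ?_⟩
  let g : (Fin 2 → unitInterval) → X := fun u =>
    if u 0 = 0 then p (u 1) else if u 0 = 1 then q (u 1) else if u 1 = 0 then x else y
  have hgc : ContinuousOn g {u | ∃ i, u i = 0 ∨ u i = 1} := by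
    have hset : {u : Fin 2 → unitInterval | ∃ i, u i = 0 ∨ u i = 1} =
        (({u | u 0 = 0} ∪ {u | u 0 = 1}) ∪ {u | u 1 = 0}) ∪ {u | u 1 = 1} := by
      ext u
      simp only [Fin.exists_fin_two, mem_ofPred_eq, mem_union]
      tauto
    have c0 : ∀ (i : Fin 2) (c : unitInterval), IsClosed {u : Fin 2 → unitInterval | u i = c} :=
      fun i c => isClosed_eq (continuous_apply i) continuous_const
    have e1 : ContinuousOn g {u | u 0 = 0} :=
      ContinuousOn.congr (f := fun u => p (u 1)) (by fun_prop)
        (fun u (hu : u 0 = 0) => by simp [g, hu])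
    have e2 : ContinuousOn g {u | u 0 = 1} :=
      ContinuousOn.congr (f := fun u => q (u 1)) (by fun_prop)
        (fun u (hu : u 0 = 1) => by simp [g, hu])
    have e3 : ContinuousOn g {u | u 1 = 0} := by
      refine ContinuousOn.congr (f := fun _ => x) continuousOn_const ?_
      intro u (hu : u 1 = 0)
      simp only [g, hu, Path.source, if_true]
      split_ifs <;> rfl
    have e4 : ContinuousOn g {u | u 1 = 1} := by
      refine ContinuousOn.congr (f := fun _ => y) continuousOn_const ?_
      intro u (hu : u 1 = 1)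
      simp only [g, hu, Path.target]
      split_ifs with h1 h2 h3
      · rfl
      · rfl
      · exact absurd h3 one_ne_zero
      · rfl
    rw [hset]
    exact ((e1.union_of_isClosed e2 (c0 _ _) (c0 _ _)).union_of_isClosed e3
      ((c0 _ _).union (c0 _ _)) (c0 _ _)).union_of_isClosed e4
      (((c0 _ _).union (c0 _ _)).union (c0 _ _)) (c0 _ _)
  obtain ⟨G, hG, hGg⟩ := h2 g hgc
  refine ⟨{ toFun := fun t => G ![t.1, t.2]
            continuous_toFun := hG.comp (by fun_prop)
            map_zero_left := fun t => ?_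
            map_one_left := fun t => ?_
            prop' := fun t s hs => ?_ }⟩
  · rw [hGg _ ⟨0, Or.inl rfl⟩]; simp [g]
  · rw [hGg _ ⟨0, Or.inr rfl⟩]; simp [g]
  · simp only [mem_insert_iff, mem_singleton_iff] at hs
    rcases hs with rfl | rfl
    · show G ![t, 0] = _
      rw [hGg _ ⟨1, Or.inl rfl⟩]
      simp only [g, Matrix.cons_val_zero, Matrix.cons_val_one]
      simp
    · show G ![t, 1] = _
      rw [hGg _ ⟨1, Or.inr rfl⟩]
      simp only [g, Matrix.cons_val_zero, Matrix.cons_val_one]
      simp

/-- **Maps of closed sets into the hypersphere extend** (dimension at most two). -/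
theorem extend_into_sphere {n : ℕ} (hn : 2 ≤ n) {M : Type} [TopologicalSpace M] {S : Set M}
    (β : Metric.sphere (0 : EuclideanSpace ℝ (Fin (n + 1))) 1 ≃ₜ S) {m : ℕ} (hm : m ≤ 2)
    {A : Set (Fin m → unitInterval)} (hA : IsClosed A) {g : (Fin m → unitInterval) → M}
    (hg : ContinuousOn g A) (hgS : Set.MapsTo g A S) :
    ∃ G : (Fin m → unitInterval) → M, Continuous G ∧ Set.EqOn G g A ∧ ∀ u, G u ∈ S := by
  classical
  let g' : (Fin m → unitInterval) → Metric.sphere (0 : EuclideanSpace ℝ (Fin (n + 1))) 1 :=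
    fun u => if h : g u ∈ S then β.symm ⟨g u, h⟩ else Classical.arbitrary _
  have hg' : ∀ u (h : g u ∈ S), g' u = β.symm ⟨g u, h⟩ := fun u h => dif_pos h
  have hc : ContinuousOn g' A := by
    rw [continuousOn_iff_continuous_domRestrict]
    have h1 : Continuous fun u : A => β.symm ⟨g u, hgS u.2⟩ :=
      β.symm.continuous.comp
        ((continuousOn_iff_continuous_domRestrict.1 hg).subtype_mk fun u => hgS u.2)
    exact h1.congr fun u => (hg' u (hgS u.2)).symm
  have hF : ∀ i ≤ m, Fills (Metric.sphere (0 : EuclideanSpace ℝ (Fin (n + 1))) 1) i := by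
    intro i hi
    have hi2 : i ≤ 2 := hi.trans hm
    interval_cases i
    · exact fills_sphere_zero
    · exact fills_sphere_one (by omega)
    · exact fills_sphere_two hn
  obtain ⟨G, hG, hGg⟩ := extend_cube locHalf_sphere hF hA hc
  refine ⟨fun u => (β (G u) : M), continuous_subtype_val.comp (β.continuous.comp hG), ?_,
    fun u => (β (G u)).2⟩
  intro u hu
  simp only
  rw [hGg hu, hg' u (hgS hu), β.apply_symm_apply]

/-- **Main theorem of this file.** A section over the closed side `W ∪ S` into a simply connected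
space makes the closed side simply connected. -/
theorem simplyConnected_of_section {n : ℕ} (hn : 2 ≤ n) {M E : Type} [TopologicalSpace M]
    [TopologicalSpace E] [SimplyConnectedSpace E] {p : E → M} (hp : Continuous p) {W S : Set M}
    (_hWS : Disjoint W S)
    (β : Metric.sphere (0 : EuclideanSpace ℝ (Fin (n + 1))) 1 ≃ₜ S)
    (hpc : IsPathConnected (W ∪ S)) (τ : SideSection p W S) :
    SimplyConnectedSpace ↥(W ∪ S) := by
  classical
  have hpc' : PathConnectedSpace ↥(W ∪ S) := isPathConnected_iff_pathConnectedSpace.1 hpc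
  rw [simplyConnected_iff_fills]
  refine ⟨fills_one, fun g hg => ?_⟩
  obtain ⟨G, hG, hGg⟩ := (fills_two (X := E)) (fun u => τ.σ (g u)) (τ.cont.comp_continuousOn hg)
  -- the closed set outside of the open part
  set C' : Set (Fin 2 → unitInterval) := G ⁻¹' (τ.σ '' {x | (x : M) ∈ W})ᶜ with hC'
  set A' : Set (Fin 2 → unitInterval) := G ⁻¹' Set.range τ.σ with hA'
  have hC'c : IsClosed C' := (τ.openW.isClosed_compl).preimage hG
  have hA'c : IsClosed A' := τ.closed.preimage hG
  have hmem : ∀ u ∈ C' ∩ A', p (G u) ∈ S := by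
    rintro u ⟨h1, x, hx⟩
    rw [← hx, τ.sec]
    rcases x.2 with h | h
    · exact absurd ⟨x, h, hx⟩ h1
    · exact h
  obtain ⟨F, hF, hFe, hFS⟩ := extend_into_sphere hn β le_rfl (hC'c.inter hA'c)
    (g := fun u => p (G u)) (hp.comp hG).continuousOn hmem
  have hside : ∀ u ∈ A', p (G u) ∈ W ∪ S := by
    rintro u ⟨x, hx⟩
    rw [← hx, τ.sec]
    exact x.2
  let K : (Fin 2 → unitInterval) → M := fun u => if u ∈ A' then p (G u) else F u
  have hKA : ∀ u ∈ A', K u = p (G u) := fun u hu => if_pos hu
  have hKC : ∀ u ∈ C', K u = F u := by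
    intro u hu
    by_cases h : u ∈ A'
    · rw [hKA u h, hFe ⟨hu, h⟩]
    · exact if_neg h
  have hcov : A' ∪ C' = univ := by
    ext u
    simp only [mem_union, mem_univ, iff_true]
    by_cases h : G u ∈ τ.σ '' {x : ↥(W ∪ S) | (x : M) ∈ W}
    · obtain ⟨x, -, hx⟩ := h
      exact Or.inl ⟨x, hx⟩
    · exact Or.inr h
  have hKW : ∀ u, K u ∈ W ∪ S := by
    intro u
    rcases (hcov ▸ mem_univ u : u ∈ A' ∪ C') with h | h
    · rw [hKA u h]; exact hside u h
    · rw [hKC u h]; exact Or.inr (hFS u)
  have hKc : Continuous K := by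
    rw [← continuousOn_univ, ← hcov]
    refine ContinuousOn.union_of_isClosed ?_ ?_ hA'c hC'c
    · exact ((hp.comp hG).continuousOn).congr hKA
    · exact hF.continuousOn.congr hKC
  refine ⟨fun u => ⟨K u, hKW u⟩, hKc.subtype_mk _, fun u hu => ?_⟩
  apply Subtype.ext
  have h1 := hGg u hu
  have h2 : u ∈ A' := ⟨g u, h1.symm⟩
  show K u = g u
  rw [hKA u h2, h1, τ.sec]

end CubeHom
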