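import Pool.Agent.Lib.MP_cb6a70_gt_HB.CapEuc
import Pool.Agent.Lib.MP_cb6a70_gt_HB.Simply
import Pool.Agent.Lib.MP_cb6a70_gt_HB.FillPi

/-!
# Capping off a side with a ball
-/

namespace CubeHom

open Metric Topology

variable {n : ℕ} {M : Type} [TopologicalSpace M]
  {ι : sphere (0 : EuclideanSpace ℝ (Fin (n + 1))) 1 → M} {X₀ : Set M}

open Classical in
/-- left inverse of `capL` -/
noncomputable def invL (ι : sphere (0 : EuclideanSpace ℝ (Fin (n + 1))) 1 → M) (X₀ : Set M)
    (x₀ : X₀) (y : Cap ι X₀) : X₀ :=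
  if h : ∃ v, capL ι X₀ v = y then h.choose else x₀

theorem invL_capL (x₀ x : X₀) : invL ι X₀ x₀ (capL ι X₀ x) = x := by
  have h : ∃ w, capL ι X₀ w = capL ι X₀ x := ⟨x, rfl⟩
  have h2 : invL ι X₀ x₀ (capL ι X₀ x) = h.choose := dif_pos h
  rw [h2]
  exact capL_injective h.choose_spec

theorem capL_invL (x₀ : X₀) {y : Cap ι X₀} (hy : y ∈ Set.range (capL ι X₀)) :
    capL ι X₀ (invL ι X₀ x₀ y) = y := by
  obtain ⟨v, rfl⟩ := hy
  rw [invL_capL]

theorem continuousOn_invL [T2Space M] (hι : Topology.IsEmbedding ι) (hX : ∀ s, ι s ∈ X₀)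
    (x₀ : X₀) : ContinuousOn (invL ι X₀ x₀) (Set.range (capL ι X₀)) := by
  have hL := (capL_isClosedEmbedding (X₀ := X₀) hι hX).isEmbedding
  rw [continuousOn_iff_continuous_domRestrict]
  have h4 : (Set.range (capL ι X₀)).domRestrict (invL ι X₀ x₀) =
      fun u => hL.toHomeomorph.symm u := by
    funext u
    obtain ⟨x, rfl⟩ := hL.toHomeomorph.surjective u
    rw [Homeomorph.symm_apply_apply]
    exact invL_capL x₀ x
  rw [h4]
  exact hL.toHomeomorph.symm.continuous

/-- Straight lines in the ball. -/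
noncomputable def lin (t : unitInterval)
    (v w : closedBall (0 : EuclideanSpace ℝ (Fin (n + 1))) 1) :
    closedBall (0 : EuclideanSpace ℝ (Fin (n + 1))) 1 :=
  ⟨(1 - (t : ℝ)) • (v : EuclideanSpace ℝ (Fin (n + 1))) +
      (t : ℝ) • (w : EuclideanSpace ℝ (Fin (n + 1))),
    (convex_closedBall _ _) v.2 w.2 (by have := t.2.2; linarith) t.2.1 (by ring)⟩

theorem lin_zero (v w : closedBall (0 : EuclideanSpace ℝ (Fin (n + 1))) 1) :
    lin 0 v w = v := by
  apply Subtype.ext; simp [lin]

theorem lin_one (v w : closedBall (0 : EuclideanSpace ℝ (Fin (n + 1))) 1) :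
    lin 1 v w = w := by
  apply Subtype.ext; simp [lin]

theorem lin_self (t : unitInterval) (v : closedBall (0 : EuclideanSpace ℝ (Fin (n + 1))) 1) :
    lin t v v = v := by
  apply Subtype.ext
  simp only [lin]
  rw [← add_smul, sub_add_cancel, one_smul]

theorem continuous_lin : Continuous fun p : unitInterval ×
    (closedBall (0 : EuclideanSpace ℝ (Fin (n + 1))) 1 ×
      closedBall (0 : EuclideanSpace ℝ (Fin (n + 1))) 1) => lin p.1 p.2.1 p.2.2 := by
  refine Continuous.subtype_mk ?_ _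
  have h1 : Continuous fun p : unitInterval ×
    (closedBall (0 : EuclideanSpace ℝ (Fin (n + 1))) 1 ×
      closedBall (0 : EuclideanSpace ℝ (Fin (n + 1))) 1) => (p.1 : ℝ) :=
    continuous_subtype_val.comp continuous_fst
  exact ((continuous_const.sub h1).smul
    (continuous_subtype_val.comp (continuous_fst.comp continuous_snd))).add
    (h1.smul (continuous_subtype_val.comp (continuous_snd.comp continuous_snd)))

theorem cap_pathConnected (hX : ∀ s, ι s ∈ X₀) [PathConnectedSpace X₀] :
    PathConnectedSpace (Cap ι X₀) := by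
  have h1 : IsPathConnected (Set.range (capL ι X₀)) := isPathConnected_range continuous_capL
  have hb : IsPathConnected (closedBall (0 : EuclideanSpace ℝ (Fin (n + 1))) 1) :=
    (convex_closedBall _ _).isPathConnected ⟨0, by simp⟩
  have : PathConnectedSpace (closedBall (0 : EuclideanSpace ℝ (Fin (n + 1))) 1) :=
    isPathConnected_iff_pathConnectedSpace.1 hb
  have h2 : IsPathConnected (Set.range (capR ι X₀)) := isPathConnected_range continuous_capR
  obtain ⟨s⟩ : Nonempty (sphere (0 : EuclideanSpace ℝ (Fin (n + 1))) 1) :=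
    (NormedSpace.sphere_nonempty.2 zero_le_one).to_subtype
  have h3 := h1.union h2 ⟨capL ι X₀ ⟨ι s, hX s⟩, ⟨_, rfl⟩, ⟨sphBall s, capR_sphBall hX s⟩⟩
  have h4 : Set.range (capL ι X₀) ∪ Set.range (capR ι X₀) = Set.univ :=
    Set.eq_univ_of_forall fun y => cap_cover y
  rw [h4] at h3
  exact pathConnectedSpace_iff_univ.2 h3

/-- Capping off a simply connected side gives a simply connected space. -/
theorem cap_simplyConnected [T2Space M] [CompactSpace M] (hn : 2 ≤ n)
    (hι : Topology.IsEmbedding ι) (hX : ∀ s, ι s ∈ X₀) (hcl : IsClosed X₀)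
    (hsc : SimplyConnectedSpace X₀) : SimplyConnectedSpace (Cap ι X₀) := by
  classical
  have : Nonempty (Cap ι X₀) := ⟨capC ι X₀⟩
  have hpc : PathConnectedSpace (Cap ι X₀) := cap_pathConnected hX
  obtain ⟨x₀⟩ : Nonempty X₀ := inferInstance
  have hL := capL_isClosedEmbedding (X₀ := X₀) hι hX
  have hR := capR_isClosedEmbedding (X₀ := X₀) hι hX
  rw [simplyConnected_iff_fills]
  constructor
  · intro g _
    obtain ⟨γ⟩ := PathConnectedSpace.joined (g 0) (g 1)
    refine ⟨fun u => γ (u 0), γ.continuous.comp (continuous_apply 0), ?_⟩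
    rintro u ⟨i, hi⟩
    have hi0 : i = 0 := Subsingleton.elim _ _
    subst hi0
    rcases hi with hi | hi
    · have : u = 0 := by
        funext k; rw [Subsingleton.elim k 0, hi]; rfl
      subst this
      simp
    · have : u = 1 := by
        funext k; rw [Subsingleton.elim k 0, hi]; rfl
      subst this
      simp
  intro g hg
  set Bd : Set (Fin 2 → unitInterval) := {u | ∃ i, u i = 0 ∨ u i = 1} with hBd
  have hBdc : IsClosed Bd := isClosed_cubeBoundary 2
  set A : Set (Fin 2 → unitInterval) := Bd ∩ g ⁻¹' (Set.range (capL ι X₀)) with hAdef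
  set C : Set (Fin 2 → unitInterval) := Bd ∩ g ⁻¹' (Set.range (capR ι X₀)) with hCdef
  have hA : IsClosed A := hg.preimage_isClosed_of_isClosed hBdc hL.isClosed_range
  have hC : IsClosed C := hg.preimage_isClosed_of_isClosed hBdc hR.isClosed_range
  have hcov : ∀ u ∈ Bd, u ∈ A ∨ u ∈ C := by
    intro u hu
    rcases cap_cover (g u) with h | h
    · exact Or.inl ⟨hu, h⟩
    · exact Or.inr ⟨hu, h⟩
  have hgA : ContinuousOn g A := hg.mono Set.inter_subset_left
  have hgC : ContinuousOn g C := hg.mono Set.inter_subset_left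
  have hiA : ContinuousOn (fun u => invL ι X₀ x₀ (g u)) A :=
    (continuousOn_invL hι hX x₀).comp hgA fun u hu => hu.2
  have hiC : ContinuousOn (fun u => invR ι X₀ (g u)) C :=
    (continuousOn_invR hι hX).comp hgC fun u hu => hu.2
  -- extension of the part in the sphere
  obtain ⟨G, hGc, hGe, hGm⟩ := extend_into_sphere hn hι.toHomeomorph (m := 2) le_rfl
    (A := A ∩ C) (hA.inter hC) (g := fun u => (invL ι X₀ x₀ (g u) : M))
    (continuous_subtype_val.comp_continuousOn (hiA.mono Set.inter_subset_left)) (by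
      rintro u ⟨hu, hu'⟩
      obtain ⟨x, hx⟩ := hu.2
      obtain ⟨v, hv⟩ := hu'.2
      obtain ⟨s, hs, -⟩ := (capL_eq_capR_iff hι x v).1 (hx.trans hv.symm)
      refine ⟨s, ?_⟩
      show ι s = (invL ι X₀ x₀ (g u) : M)
      rw [← hx, invL_capL, hs])
  let s : (Fin 2 → unitInterval) → sphere (0 : EuclideanSpace ℝ (Fin (n + 1))) 1 := fun u =>
    hι.toHomeomorph.symm ⟨G u, hGm u⟩
  have hsc' : Continuous s := hι.toHomeomorph.symm.continuous.comp (hGc.subtype_mk _)
  have hs : ∀ u, ι (s u) = G u := by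
    intro u
    have h1 : hι.toHomeomorph (s u) = ⟨G u, hGm u⟩ := hι.toHomeomorph.apply_symm_apply _
    exact congrArg Subtype.val h1
  have hGX : ∀ u, G u ∈ X₀ := fun u => by rw [← hs]; exact hX _
  -- the loop in the side
  let g₁ : (Fin 2 → unitInterval) → X₀ := fun u =>
    if u ∈ A then invL ι X₀ x₀ (g u) else ⟨G u, hGX u⟩
  have hg₁A : ∀ u ∈ A, g₁ u = invL ι X₀ x₀ (g u) := fun u hu => if_pos hu
  have hg₁C : ∀ u ∈ C, g₁ u = ⟨G u, hGX u⟩ := by
    intro u hu
    by_cases h : u ∈ A
    · rw [hg₁A u h]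
      exact Subtype.ext (hGe ⟨h, hu⟩).symm
    · exact if_neg h
  have hg₁ : ContinuousOn g₁ Bd := by
    refine ContinuousOn.mono (ContinuousOn.union_of_isClosed ?_ ?_ hA hC) hcov
    · exact hiA.congr hg₁A
    · exact (hGc.subtype_mk hGX).continuousOn.congr hg₁C
  obtain ⟨Γ, hΓ, hΓe⟩ := (simplyConnected_iff_fills.1 hsc).2 g₁ hg₁
  -- the homotopy on the boundary
  have hRs : ∀ u, capR ι X₀ (sphBall (s u)) = capL ι X₀ ⟨G u, hGX u⟩ := by
    intro u
    rw [capR_sphBall hX]
    congr 1
    exact Subtype.ext (hs u)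
  have hAC : ∀ u ∈ A, u ∈ C → invR ι X₀ (g u) = sphBall (s u) := by
    intro u hu hu'
    apply capR_injective (X₀ := X₀) hι.injective
    rw [capR_invR hι.injective hu'.2, hRs, ← hg₁C u hu', hg₁A u hu, capL_invL x₀ hu.2]
  let H : unitInterval × (Fin 2 → unitInterval) → Cap ι X₀ := fun p =>
    if p.2 ∈ A then g p.2 else capR ι X₀ (lin p.1 (invR ι X₀ (g p.2)) (sphBall (s p.2)))
  have hHA : ∀ p : unitInterval × (Fin 2 → unitInterval), p.2 ∈ A → H p = g p.2 :=
    fun p hp => if_pos hp
  have hHC : ∀ p : unitInterval × (Fin 2 → unitInterval), p.2 ∈ C →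
      H p = capR ι X₀ (lin p.1 (invR ι X₀ (g p.2)) (sphBall (s p.2))) := by
    intro p hp
    by_cases h : p.2 ∈ A
    · rw [hHA p h, hAC _ h hp, lin_self, ← hAC _ h hp, capR_invR hι.injective hp.2]
    · exact if_neg h
  have hH : ContinuousOn H {p | p.2 ∈ Cube.boundary (Fin 2)} := by
    refine ContinuousOn.mono (s := (Prod.snd ⁻¹' A) ∪ (Prod.snd ⁻¹' C))
      (ContinuousOn.union_of_isClosed ?_ ?_ (hA.preimage continuous_snd)
      (hC.preimage continuous_snd)) fun p hp => hcov p.2 hp
    · exact (hgA.comp continuous_snd.continuousOn fun p hp => hp).congr fun p hp => hHA p hp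
    · refine ContinuousOn.congr ?_ fun p hp => hHC p hp
      refine continuous_capR.comp_continuousOn (continuous_lin.comp_continuousOn
        (f := fun p : unitInterval × (Fin 2 → unitInterval) =>
          (p.1, (invR ι X₀ (g p.2), sphBall (s p.2)))) ?_)
      refine continuous_fst.continuousOn.prodMk (ContinuousOn.prodMk ?_ ?_)
      · exact hiC.comp continuous_snd.continuousOn fun p hp => hp
      · exact (continuous_sphBall.comp (hsc'.comp continuous_snd)).continuousOn
  obtain ⟨F, hF, hFe⟩ := fill_back (fun u => capL ι X₀ (Γ u)) (continuous_capL.comp hΓ) H hH (by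
    intro u hu
    have hu' : u ∈ Bd := hu
    show H (1, u) = capL ι X₀ (Γ u)
    rw [hΓe u hu']
    rcases hcov u hu' with h | h
    · rw [hHA (1, u) h, hg₁A u h, capL_invL x₀ h.2]
    · rw [hHC (1, u) h, hg₁C u h, lin_one, hRs])
  refine ⟨F, hF, fun u hu => ?_⟩
  rw [hFe u hu]
  rcases hcov u hu with h | h
  · exact hHA (0, u) h
  · rw [hHC (0, u) h, lin_zero, capR_invR hι.injective h.2]

end CubeHom
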