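import Pool.Agent.Lib.MP_cb6a70_gt_HB.Setup

/-!
# Capping off a side with a ball: basic topology
-/

namespace CubeHom

open Metric

/-- The relation generating the gluing of the closed ball to `X₀ ⊆ M` along `ι : sphere → M`. -/
def CapRel {n : ℕ} {M : Type*} (ι : sphere (0 : EuclideanSpace ℝ (Fin (n + 1))) 1 → M)
    (X₀ : Set M) : X₀ ⊕ closedBall (0 : EuclideanSpace ℝ (Fin (n + 1))) 1 →
      X₀ ⊕ closedBall (0 : EuclideanSpace ℝ (Fin (n + 1))) 1 → Prop
  | Sum.inl x, Sum.inr v => ∃ s : sphere (0 : EuclideanSpace ℝ (Fin (n + 1))) 1,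
      ι s = (x : M) ∧ (s : EuclideanSpace ℝ (Fin (n + 1))) = v
  | _, _ => False

/-- `X₀` with a closed ball glued along `ι`, with the quotient topology. -/
abbrev Cap {n : ℕ} {M : Type*} [TopologicalSpace M]
    (ι : sphere (0 : EuclideanSpace ℝ (Fin (n + 1))) 1 → M) (X₀ : Set M) : Type _ :=
  Quot (CapRel ι X₀)

variable {n : ℕ} {M : Type} [TopologicalSpace M]

/-- the inclusion of `X₀` -/
def capL (ι : sphere (0 : EuclideanSpace ℝ (Fin (n + 1))) 1 → M) (X₀ : Set M) :
    X₀ → Cap ι X₀ := fun x => Quot.mk _ (Sum.inl x)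

/-- the inclusion of the ball -/
def capR (ι : sphere (0 : EuclideanSpace ℝ (Fin (n + 1))) 1 → M) (X₀ : Set M) :
    closedBall (0 : EuclideanSpace ℝ (Fin (n + 1))) 1 → Cap ι X₀ := fun v => Quot.mk _ (Sum.inr v)

/-- the centre of the cap -/
def capC (ι : sphere (0 : EuclideanSpace ℝ (Fin (n + 1))) 1 → M) (X₀ : Set M) : Cap ι X₀ :=
  capR ι X₀ ⟨0, by simp⟩

section
variable {ι : sphere (0 : EuclideanSpace ℝ (Fin (n + 1))) 1 → M} {X₀ : Set M}

/-- Being equal to the image of `x₀`. -/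
def isL (ι : sphere (0 : EuclideanSpace ℝ (Fin (n + 1))) 1 → M) (X₀ : Set M)
    (x₀ : X₀) : X₀ ⊕ closedBall (0 : EuclideanSpace ℝ (Fin (n + 1))) 1 → Prop
  | Sum.inl y => y = x₀
  | Sum.inr v => ∃ s : sphere (0 : EuclideanSpace ℝ (Fin (n + 1))) 1,
      ι s = (x₀ : M) ∧ (s : EuclideanSpace ℝ (Fin (n + 1))) = v

/-- Being equal to the image of `v₀`. -/
def isR (ι : sphere (0 : EuclideanSpace ℝ (Fin (n + 1))) 1 → M) (X₀ : Set M)
    (v₀ : closedBall (0 : EuclideanSpace ℝ (Fin (n + 1))) 1) :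
    X₀ ⊕ closedBall (0 : EuclideanSpace ℝ (Fin (n + 1))) 1 → Prop
  | Sum.inl y => ∃ s : sphere (0 : EuclideanSpace ℝ (Fin (n + 1))) 1,
      ι s = (y : M) ∧ (s : EuclideanSpace ℝ (Fin (n + 1))) = v₀
  | Sum.inr v => v = v₀

omit [TopologicalSpace M] in
theorem isL_lift (x₀ : X₀) :
    ∀ a b, CapRel ι X₀ a b → isL ι X₀ x₀ a = isL ι X₀ x₀ b := by
  rintro (x | v) (y | w) h
  · exact h.elim
  · obtain ⟨s, hs, hsw⟩ := h
    simp only [isL, eq_iff_iff]
    constructor
    · rintro rfl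
      exact ⟨s, hs, hsw⟩
    · rintro ⟨s', hs', hsw'⟩
      have : s = s' := Subtype.ext (hsw.trans hsw'.symm)
      subst this
      exact Subtype.ext (hs.symm.trans hs')
  · exact h.elim
  · exact h.elim

omit [TopologicalSpace M] in
theorem isR_lift (hι : Function.Injective ι)
    (v₀ : closedBall (0 : EuclideanSpace ℝ (Fin (n + 1))) 1) :
    ∀ a b, CapRel ι X₀ a b → isR ι X₀ v₀ a = isR ι X₀ v₀ b := by
  rintro (x | v) (y | w) h
  · exact h.elim
  · obtain ⟨s, hs, hsw⟩ := h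
    simp only [isR, eq_iff_iff]
    constructor
    · rintro ⟨s', hs', hsw'⟩
      have : s = s' := hι (hs.trans hs'.symm)
      subst this
      exact Subtype.ext (hsw.symm.trans hsw')
    · rintro rfl
      exact ⟨s, hs, hsw⟩
  · exact h.elim
  · exact h.elim

theorem capL_injective : Function.Injective (capL ι X₀) := by
  intro x y h
  have h2 : Quot.lift (isL ι X₀ y) (isL_lift y) (capL ι X₀ x) =
      Quot.lift (isL ι X₀ y) (isL_lift y) (capL ι X₀ y) := congrArg _ h
  have h3 : (x = y) = (y = y) := h2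
  rw [h3]

theorem capR_injective (hι : Function.Injective ι) : Function.Injective (capR ι X₀) := by
  intro x y h
  have h2 : Quot.lift (isR ι X₀ y) (isR_lift hι y) (capR ι X₀ x) =
      Quot.lift (isR ι X₀ y) (isR_lift hι y) (capR ι X₀ y) := congrArg _ h
  have h3 : (x = y) = (y = y) := h2
  rw [h3]

theorem capL_eq_capR_iff (hι : Topology.IsEmbedding ι) (x : X₀)
    (v : closedBall (0 : EuclideanSpace ℝ (Fin (n + 1))) 1) :
    capL ι X₀ x = capR ι X₀ v ↔ ∃ s : sphere (0 : EuclideanSpace ℝ (Fin (n + 1))) 1,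
      ι s = (x : M) ∧ (s : EuclideanSpace ℝ (Fin (n + 1))) = v := by
  constructor
  · intro h
    have h2 : Quot.lift (isR ι X₀ v) (isR_lift hι.injective v) (capL ι X₀ x) =
        Quot.lift (isR ι X₀ v) (isR_lift hι.injective v) (capR ι X₀ v) := congrArg _ h
    have h3 : (∃ s : sphere (0 : EuclideanSpace ℝ (Fin (n + 1))) 1,
      ι s = (x : M) ∧ (s : EuclideanSpace ℝ (Fin (n + 1))) = v) = (v = v) := h2
    rw [h3]
  · intro h
    exact Quot.sound h

theorem cap_cover (y : Cap ι X₀) : (∃ x, capL ι X₀ x = y) ∨ ∃ v, capR ι X₀ v = y := by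
  induction y using Quot.inductionOn with
  | h a =>
    rcases a with x | v
    · exact Or.inl ⟨x, rfl⟩
    · exact Or.inr ⟨v, rfl⟩

theorem continuous_capL : Continuous (capL ι X₀) := continuous_quot_mk.comp continuous_inl

theorem continuous_capR : Continuous (capR ι X₀) := continuous_quot_mk.comp continuous_inr

theorem cap_isOpen_iff {O : Set (Cap ι X₀)} :
    IsOpen O ↔ IsOpen (capL ι X₀ ⁻¹' O) ∧ IsOpen (capR ι X₀ ⁻¹' O) := by
  rw [← isQuotientMap_quot_mk.isOpen_preimage, isOpen_sum_iff]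
  rfl

theorem cap_isClosed_iff {O : Set (Cap ι X₀)} :
    IsClosed O ↔ IsClosed (capL ι X₀ ⁻¹' O) ∧ IsClosed (capR ι X₀ ⁻¹' O) := by
  simp only [← isOpen_compl_iff]
  exact cap_isOpen_iff

/-- the inclusion of the sphere in the closed ball -/
def sphBall (s : sphere (0 : EuclideanSpace ℝ (Fin (n + 1))) 1) :
    closedBall (0 : EuclideanSpace ℝ (Fin (n + 1))) 1 := ⟨s, sphere_subset_closedBall s.2⟩

theorem continuous_sphBall : Continuous (sphBall (n := n)) :=
  Continuous.subtype_mk continuous_subtype_val _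

theorem capR_sphBall (hX : ∀ s, ι s ∈ X₀) (s : sphere (0 : EuclideanSpace ℝ (Fin (n + 1))) 1) :
    capR ι X₀ (sphBall s) = capL ι X₀ ⟨ι s, hX s⟩ :=
  (Quot.sound (show CapRel ι X₀ (Sum.inl ⟨ι s, hX s⟩) (Sum.inr (sphBall s)) from
    ⟨s, rfl, rfl⟩)).symm

theorem capL_isClosedEmbedding [T2Space M] (hι : Topology.IsEmbedding ι)
    (hX : ∀ s, ι s ∈ X₀) : Topology.IsClosedEmbedding (capL ι X₀) := by
  refine Topology.IsClosedEmbedding.of_continuous_injective_isClosedMap continuous_capL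
    capL_injective fun C hC => ?_
  rw [cap_isClosed_iff, Set.preimage_image_eq _ capL_injective]
  refine ⟨hC, ?_⟩
  have : capR ι X₀ ⁻¹' (capL ι X₀ '' C) = sphBall '' {s | (⟨ι s, hX s⟩ : X₀) ∈ C} := by
    ext v
    constructor
    · rintro ⟨x, hx, hxv⟩
      obtain ⟨s, hs, hsv⟩ := (capL_eq_capR_iff hι x v).1 hxv
      refine ⟨s, ?_, Subtype.ext hsv⟩
      have : (⟨ι s, hX s⟩ : X₀) = x := Subtype.ext hs
      simpa [this] using hx
    · rintro ⟨s, hs, rfl⟩
      exact ⟨_, hs, (capR_sphBall hX s).symm⟩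
  rw [this]
  refine (IsClosed.isCompact ?_).image continuous_sphBall |>.isClosed
  exact hC.preimage (Continuous.subtype_mk hι.continuous _)

theorem capR_isClosedEmbedding [T2Space M] (hι : Topology.IsEmbedding ι)
    (hX : ∀ s, ι s ∈ X₀) : Topology.IsClosedEmbedding (capR ι X₀) := by
  refine Topology.IsClosedEmbedding.of_continuous_injective_isClosedMap continuous_capR
    (capR_injective hι.injective) fun C hC => ?_
  rw [cap_isClosed_iff, Set.preimage_image_eq _ (capR_injective hι.injective)]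
  refine ⟨?_, hC⟩
  have : capL ι X₀ ⁻¹' (capR ι X₀ '' C) = Subtype.val ⁻¹' (ι '' {s | sphBall s ∈ C}) := by
    ext x
    constructor
    · rintro ⟨v, hv, hxv⟩
      obtain ⟨s, hs, hsv⟩ := (capL_eq_capR_iff hι x v).1 hxv.symm
      refine ⟨s, ?_, hs⟩
      have : sphBall s = v := Subtype.ext hsv
      simpa [this] using hv
    · rintro ⟨s, hs, hsx⟩
      refine ⟨sphBall s, hs, ?_⟩
      rw [capR_sphBall hX]
      congr 1
      exact Subtype.ext hsx
  rw [this]
  refine IsClosed.preimage continuous_subtype_val ?_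
  exact ((hC.preimage continuous_sphBall).isCompact.image hι.continuous).isClosed

theorem cap_compact [CompactSpace M] (hcl : IsClosed X₀) : CompactSpace (Cap ι X₀) := by
  have : CompactSpace X₀ := isCompact_iff_compactSpace.1 hcl.isCompact
  infer_instance

theorem cap_t2 [T2Space M] [CompactSpace M] (hι : Topology.IsEmbedding ι)
    (hX : ∀ s, ι s ∈ X₀) (hcl : IsClosed X₀) : T2Space (Cap ι X₀) := by
  have : CompactSpace X₀ := isCompact_iff_compactSpace.1 hcl.isCompact
  have hL := capL_isClosedEmbedding (X₀ := X₀) hι hX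
  have hR := capR_isClosedEmbedding (X₀ := X₀) hι hX
  let π : X₀ ⊕ closedBall (0 : EuclideanSpace ℝ (Fin (n + 1))) 1 → Cap ι X₀ := Quot.mk _
  have hπc : Continuous π := continuous_quot_mk
  have hπs : Function.Surjective π := Quot.mk_surjective
  have hπm : IsClosedMap π := by
    intro C hC
    have : π '' C = capL ι X₀ '' (Sum.inl ⁻¹' C) ∪ capR ι X₀ '' (Sum.inr ⁻¹' C) := by
      ext y
      constructor
      · rintro ⟨a | a, ha, rfl⟩
        · exact Or.inl ⟨a, ha, rfl⟩
        · exact Or.inr ⟨a, ha, rfl⟩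
      · rintro (⟨a, ha, rfl⟩ | ⟨a, ha, rfl⟩)
        · exact ⟨_, ha, rfl⟩
        · exact ⟨_, ha, rfl⟩
    rw [this]
    exact (hL.isClosedMap _ (hC.preimage continuous_inl)).union
      (hR.isClosedMap _ (hC.preimage continuous_inr))
  have hsing : ∀ y : Cap ι X₀, IsClosed ({y} : Set (Cap ι X₀)) := by
    intro y
    obtain ⟨a, rfl⟩ := hπs y
    have := hπm {a} isClosed_singleton
    rwa [Set.image_singleton] at this
  refine ⟨fun y z hyz => ?_⟩
  obtain ⟨U, V, hU, hV, hyU, hzV, hUV⟩ := NormalSpace.normal (π ⁻¹' {y}) (π ⁻¹' {z})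
    ((hsing y).preimage hπc) ((hsing z).preimage hπc) (by
      rw [Set.disjoint_left]
      rintro a ha hb
      exact hyz (ha.symm.trans hb))
  refine ⟨(π '' Uᶜ)ᶜ, (π '' Vᶜ)ᶜ, (hπm _ hU.isClosed_compl).isOpen_compl,
    (hπm _ hV.isClosed_compl).isOpen_compl, ?_, ?_, ?_⟩
  · rintro ⟨a, ha, hay⟩
    exact ha (hyU hay)
  · rintro ⟨a, ha, hay⟩
    exact ha (hzV hay)
  · rw [Set.disjoint_left]
    intro w hw1 hw2
    obtain ⟨a, rfl⟩ := hπs w
    have h1 : a ∈ U := by
      by_contra h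
      exact hw1 ⟨a, h, rfl⟩
    have h2 : a ∈ V := by
      by_contra h
      exact hw2 ⟨a, h, rfl⟩
    exact Set.disjoint_left.1 hUV h1 h2

theorem cap_connected (hX : ∀ s, ι s ∈ X₀) (hc : IsConnected X₀) : ConnectedSpace (Cap ι X₀) := by
  have : ConnectedSpace X₀ := Subtype.connectedSpace hc
  have h1 : IsConnected (Set.range (capL ι X₀)) := isConnected_range continuous_capL
  have hb : IsConnected (closedBall (0 : EuclideanSpace ℝ (Fin (n + 1))) 1) :=
    ⟨⟨0, by simp⟩, (convex_closedBall _ _).isPreconnected⟩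
  have : ConnectedSpace (closedBall (0 : EuclideanSpace ℝ (Fin (n + 1))) 1) :=
    Subtype.connectedSpace hb
  have h2 : IsConnected (Set.range (capR ι X₀)) := isConnected_range continuous_capR
  obtain ⟨s⟩ : Nonempty (sphere (0 : EuclideanSpace ℝ (Fin (n + 1))) 1) :=
    (NormedSpace.sphere_nonempty.2 zero_le_one).to_subtype
  have h3 := IsConnected.union (s := Set.range (capL ι X₀)) (t := Set.range (capR ι X₀))
    ⟨capL ι X₀ ⟨ι s, hX s⟩, ⟨_, rfl⟩, ⟨sphBall s, capR_sphBall hX s⟩⟩ h1 h2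
  have h4 : Set.range (capL ι X₀) ∪ Set.range (capR ι X₀) = Set.univ :=
    Set.eq_univ_of_forall fun y => cap_cover y
  rw [h4] at h3
  exact connectedSpace_iff_univ.2 h3

end

end CubeHom
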