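import Pool.Agent.Lib.MP_cb6a70_gt_HB.CapRet

/-!
# Capping off a side with a ball: the result is locally Euclidean
-/

namespace CubeHom

open Metric Topology

/-- Open embeddings of the Euclidean space give charts. -/
theorem chart_of_openEmbedding {k : ℕ} {Y : Type*} [TopologicalSpace Y] {y : Y}
    {f : (Fin k → ℝ) → Y} (hf : IsOpenEmbedding f) (hy : y ∈ Set.range f) :
    ∃ S : Set Y, IsOpen S ∧ y ∈ S ∧ Nonempty (S ≃ₜ (Fin k → ℝ)) :=
  ⟨Set.range f, hf.isOpen_range, hy, ⟨hf.isEmbedding.toHomeomorph.symm⟩⟩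

/-- A chart gives an open embedding of the Euclidean space. -/
theorem openEmbedding_of_chart {k : ℕ} {Y : Type*} [TopologicalSpace Y] {S : Set Y}
    (hS : IsOpen S) (θ : S ≃ₜ (Fin k → ℝ)) :
    IsOpenEmbedding fun w => (θ.symm w : Y) :=
  hS.isOpenEmbedding_subtypeVal.comp θ.symm.isOpenEmbedding

/-- Small charts. -/
theorem exists_small_openEmbedding {k : ℕ} {Y : Type*} [TopologicalSpace Y] (hY : LocEuc k Y)
    {W : Set Y} (hW : IsOpen W) {y : Y} (hy : y ∈ W) :
    ∃ f : (Fin k → ℝ) → Y, IsOpenEmbedding f ∧ y ∈ Set.range f ∧ Set.range f ⊆ W := by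
  obtain ⟨S, hS, hyS, ⟨θ⟩⟩ := hY y
  have hf := openEmbedding_of_chart hS θ
  set f := fun w => (θ.symm w : Y) with hfdef
  have hfy : f (θ ⟨y, hyS⟩) = y := by simp [hfdef]
  have hO : IsOpen (f ⁻¹' W) := hW.preimage hf.continuous
  have hm : θ ⟨y, hyS⟩ ∈ f ⁻¹' W := by
    show f _ ∈ W
    rw [hfy]; exact hy
  obtain ⟨ε, hε, hball⟩ := Metric.isOpen_iff.1 hO _ hm
  let g := OpenPartialHomeomorph.univBall (θ ⟨y, hyS⟩) ε
  have hg : IsOpenEmbedding g := by
    have hs : g.source = Set.univ := OpenPartialHomeomorph.univBall_source _ _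
    exact g.isOpenEmbedding hs
  have hgr : Set.range g = ball (θ ⟨y, hyS⟩) ε := by
    have hs : g.source = Set.univ := OpenPartialHomeomorph.univBall_source _ _
    have ht : g.target = ball (θ ⟨y, hyS⟩) ε := OpenPartialHomeomorph.univBall_target _ hε
    rw [← ht, ← g.image_source_eq_target, hs, Set.image_univ]
  refine ⟨f ∘ g, hf.comp hg, ?_, ?_⟩
  · rw [Set.range_comp, hgr]
    exact ⟨_, mem_ball_self hε, hfy⟩
  · rw [Set.range_comp, hgr]
    rintro _ ⟨w, hw, rfl⟩
    exact hball hw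

variable {n : ℕ} {M : Type} [TopologicalSpace M]
  {ι : sphere (0 : EuclideanSpace ℝ (Fin (n + 1))) 1 → M} {X₀ : Set M}

/-- Charts of the cap at points of the open part of the side. -/
theorem cap_chart_left [T2Space M] (hM : LocEuc (n + 1) M) (hι : Topology.IsEmbedding ι)
    {W : Set M} (hX : ∀ s, ι s ∈ X₀) (hW : IsOpen W) (hWX : W ⊆ X₀) (hWS : ∀ s, ι s ∉ W)
    (x : X₀) (hx : (x : M) ∈ W) :
    ∃ S : Set (Cap ι X₀), IsOpen S ∧ capL ι X₀ x ∈ S ∧
      Nonempty (S ≃ₜ (Fin (n + 1) → ℝ)) := by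
  obtain ⟨f, hf, hxf, hfW⟩ := exists_small_openEmbedding hM hW hx
  have hL := capL_isClosedEmbedding (X₀ := X₀) hι hX
  let f' : (Fin (n + 1) → ℝ) → X₀ := fun w => ⟨f w, hWX (hfW ⟨w, rfl⟩)⟩
  have hf' : IsEmbedding f' :=
    IsEmbedding.of_comp (hf.continuous.subtype_mk _) continuous_subtype_val hf.isEmbedding
  have hr : Set.range f' = Subtype.val ⁻¹' (Set.range f) := by
    ext z
    constructor
    · rintro ⟨w, rfl⟩
      exact ⟨w, rfl⟩
    · rintro ⟨w, hw⟩
      exact ⟨w, Subtype.ext hw⟩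
  refine chart_of_openEmbedding (f := capL ι X₀ ∘ f') ⟨hL.isEmbedding.comp hf', ?_⟩ ?_
  · rw [cap_isOpen_iff, Set.range_comp, Set.preimage_image_eq _ capL_injective, hr]
    refine ⟨hf.isOpen_range.preimage continuous_subtype_val, ?_⟩
    have : capR ι X₀ ⁻¹' (capL ι X₀ '' (Subtype.val ⁻¹' (Set.range f))) = ∅ := by
      rw [Set.eq_empty_iff_forall_notMem]
      rintro v ⟨z, hz, hzv⟩
      obtain ⟨s, hs, -⟩ := (capL_eq_capR_iff hι z v).1 hzv
      exact hWS s (hs ▸ hfW hz)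
    rw [this]
    exact isOpen_empty
  · rw [Set.range_comp, hr]
    exact ⟨x, hxf, rfl⟩

/-- Charts of the cap at points of the open ball. -/
theorem cap_chart_right [T2Space M] (hι : Topology.IsEmbedding ι) (hX : ∀ s, ι s ∈ X₀)
    (v : closedBall (0 : EuclideanSpace ℝ (Fin (n + 1))) 1)
    (hv : ‖(v : EuclideanSpace ℝ (Fin (n + 1)))‖ < 1) :
    ∃ S : Set (Cap ι X₀), IsOpen S ∧ capR ι X₀ v ∈ S ∧
      Nonempty (S ≃ₜ (Fin (n + 1) → ℝ)) := by
  have hR := capR_isClosedEmbedding (X₀ := X₀) hι hX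
  let e : (Fin (n + 1) → ℝ) ≃ₜ EuclideanSpace ℝ (Fin (n + 1)) :=
    (EuclideanSpace.equiv (Fin (n + 1)) ℝ).toHomeomorph.symm
  let g := OpenPartialHomeomorph.univBall (0 : EuclideanSpace ℝ (Fin (n + 1))) 1
  have hs : g.source = Set.univ := OpenPartialHomeomorph.univBall_source _ _
  have ht : g.target = ball (0 : EuclideanSpace ℝ (Fin (n + 1))) 1 :=
    OpenPartialHomeomorph.univBall_target _ one_pos
  have hg : IsOpenEmbedding g := g.isOpenEmbedding hs
  have hgr : Set.range g = ball (0 : EuclideanSpace ℝ (Fin (n + 1))) 1 := by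
    rw [← ht, ← g.image_source_eq_target, hs, Set.image_univ]
  have hge : IsOpenEmbedding (g ∘ e) := hg.comp e.isOpenEmbedding
  have hger : Set.range (g ∘ e) = ball (0 : EuclideanSpace ℝ (Fin (n + 1))) 1 := by
    rw [Set.range_comp, e.surjective.range_eq, Set.image_univ, hgr]
  let f' : (Fin (n + 1) → ℝ) → closedBall (0 : EuclideanSpace ℝ (Fin (n + 1))) 1 :=
    fun w => ⟨g (e w), ball_subset_closedBall (hger ▸ ⟨w, rfl⟩ : g (e w) ∈ ball _ _)⟩
  have hf' : IsEmbedding f' :=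
    IsEmbedding.of_comp (hge.continuous.subtype_mk _) continuous_subtype_val hge.isEmbedding
  have hr : Set.range f' = Subtype.val ⁻¹' (ball (0 : EuclideanSpace ℝ (Fin (n + 1))) 1) := by
    ext z
    constructor
    · rintro ⟨w, rfl⟩
      show g (e w) ∈ ball _ _
      rw [← hger]
      exact ⟨w, rfl⟩
    · intro hz
      have hz' : (z : EuclideanSpace ℝ (Fin (n + 1))) ∈ Set.range (g ∘ e) := by
        rw [hger]; exact hz
      obtain ⟨w, hw⟩ := hz'
      exact ⟨w, Subtype.ext hw⟩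
  refine chart_of_openEmbedding (f := capR ι X₀ ∘ f') ⟨hR.isEmbedding.comp hf', ?_⟩ ?_
  · rw [cap_isOpen_iff, Set.range_comp,
      Set.preimage_image_eq _ (capR_injective hι.injective), hr]
    refine ⟨?_, isOpen_ball.preimage continuous_subtype_val⟩
    have : capL ι X₀ ⁻¹' (capR ι X₀ '' (Subtype.val ⁻¹' ball 0 1)) = ∅ := by
      rw [Set.eq_empty_iff_forall_notMem]
      rintro x ⟨z, hz, hzx⟩
      obtain ⟨s, -, hs⟩ := (capL_eq_capR_iff hι x z).1 hzx.symm
      have h1 : ‖(z : EuclideanSpace ℝ (Fin (n + 1)))‖ < 1 := mem_ball_zero_iff.1 hz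
      rw [← hs] at h1
      simp at h1
    rw [this]
    exact isOpen_empty
  · rw [Set.range_comp, hr]
    exact ⟨v, mem_ball_zero_iff.2 hv, rfl⟩

/-- Normalisation of a vector of the ball (junk at zero). -/
noncomputable def nrm (v : closedBall (0 : EuclideanSpace ℝ (Fin (n + 1))) 1) :
    sphere (0 : EuclideanSpace ℝ (Fin (n + 1))) 1 :=
  if h : (v : EuclideanSpace ℝ (Fin (n + 1))) ≠ 0 then
    ⟨‖(v : EuclideanSpace ℝ (Fin (n + 1)))‖⁻¹ • (v : EuclideanSpace ℝ (Fin (n + 1))), by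
      rw [mem_sphere_zero_iff_norm, norm_smul, norm_inv, norm_norm]
      exact inv_mul_cancel₀ (norm_ne_zero_iff.2 h)⟩
  else (NormedSpace.sphere_nonempty.2 zero_le_one).to_subtype.some

theorem nrm_coe {v : closedBall (0 : EuclideanSpace ℝ (Fin (n + 1))) 1}
    (h : (v : EuclideanSpace ℝ (Fin (n + 1))) ≠ 0) :
    (nrm v : EuclideanSpace ℝ (Fin (n + 1))) =
      ‖(v : EuclideanSpace ℝ (Fin (n + 1)))‖⁻¹ • (v : EuclideanSpace ℝ (Fin (n + 1))) := by
  rw [nrm, dif_pos h]

theorem continuousOn_nrm : ContinuousOn (nrm (n := n))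
    {v | (v : EuclideanSpace ℝ (Fin (n + 1))) ≠ 0} := by
  rw [continuousOn_iff_continuous_domRestrict, continuous_induced_rng]
  have h2 : Continuous fun p : {v : closedBall (0 : EuclideanSpace ℝ (Fin (n + 1))) 1 |
        (v : EuclideanSpace ℝ (Fin (n + 1))) ≠ 0} =>
          (p.1 : EuclideanSpace ℝ (Fin (n + 1))) :=
    continuous_subtype_val.comp continuous_subtype_val
  have h3 := h2.norm.inv₀ (fun p => norm_ne_zero_iff.2 p.2)
  refine (h3.smul h2).congr fun p => ?_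
  exact (nrm_coe p.2).symm

/-- Charts of the cap at points of the hypersphere. -/
theorem cap_chart_mid [T2Space M] (hι : Topology.IsEmbedding ι) (hX : ∀ s, ι s ∈ X₀)
    {φ : (Fin (n + 1) → ℝ) → M} (hφ : IsOpenEmbedding φ)
    (hφS : ∀ w, φ w ∈ Set.range ι ↔ w 0 = 0) (hφX : ∀ w, φ w ∈ X₀ ↔ 0 ≤ w 0)
    (x : X₀) (hx : (x : M) ∈ Set.range ι) (hxφ : (x : M) ∈ Set.range φ) :
    ∃ S : Set (Cap ι X₀), IsOpen S ∧ capL ι X₀ x ∈ S ∧
      Nonempty (S ≃ₜ (Fin (n + 1) → ℝ)) := by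
  classical
  -- the inverse of `φ`
  let ψ : M → (Fin (n + 1) → ℝ) := (hφ.toOpenPartialHomeomorph φ).symm
  have hψφ : ∀ w, ψ (φ w) = w := fun w => hφ.toOpenPartialHomeomorph_left_inv φ
  have hψc : ContinuousOn ψ (Set.range φ) := by
    have := (hφ.toOpenPartialHomeomorph φ).continuousOn_symm
    rwa [hφ.toOpenPartialHomeomorph_target] at this
  -- the two halves
  have hup : Continuous fun w : Fin (n + 1) → ℝ => Function.update w 0 (max (w 0) 0) :=
    continuous_id.update 0 ((continuous_apply 0).max continuous_const)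
  have hzero : Continuous fun w : Fin (n + 1) → ℝ => Function.update w 0 (0 : ℝ) :=
    continuous_id.update 0 continuous_const
  have hA : ∀ w : Fin (n + 1) → ℝ, φ (Function.update w 0 (max (w 0) 0)) ∈ X₀ := by
    intro w
    rw [hφX]; simp
  have hB : ∀ w : Fin (n + 1) → ℝ, φ (Function.update w 0 (0 : ℝ)) ∈ Set.range ι := by
    intro w
    rw [hφS]; simp
  let σ : (Fin (n + 1) → ℝ) → sphere (0 : EuclideanSpace ℝ (Fin (n + 1))) 1 := fun w =>
    hι.toHomeomorph.symm ⟨φ (Function.update w 0 (0 : ℝ)), hB w⟩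
  have hσc : Continuous σ := hι.toHomeomorph.symm.continuous.comp
    ((hφ.continuous.comp hzero).subtype_mk _)
  have hσ : ∀ w, ι (σ w) = φ (Function.update w 0 (0 : ℝ)) := by
    intro w
    have h1 : hι.toHomeomorph (σ w) = ⟨φ (Function.update w 0 (0 : ℝ)), hB w⟩ :=
      hι.toHomeomorph.apply_symm_apply _
    exact congrArg Subtype.val h1
  let r : (Fin (n + 1) → ℝ) → ℝ := fun w => (1 - min (w 0) 0)⁻¹
  have hr0 : ∀ w : Fin (n + 1) → ℝ, 1 ≤ 1 - min (w 0) 0 := by
    intro w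
    have := min_le_right (w 0) 0
    linarith
  have hr1 : ∀ w, 0 < r w := fun w => inv_pos.2 (by have := hr0 w; linarith)
  have hr2 : ∀ w, r w ≤ 1 := fun w => inv_le_one_of_one_le₀ (hr0 w)
  have hrc : Continuous r := (continuous_const.sub
    ((continuous_apply 0).min continuous_const)).inv₀ fun w => by
      have := hr0 w
      positivity
  have hσn : ∀ w, ‖r w • (σ w : EuclideanSpace ℝ (Fin (n + 1)))‖ = r w := by
    intro w
    rw [norm_smul, Real.norm_of_nonneg (hr1 w).le]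
    simp
  let b : (Fin (n + 1) → ℝ) → closedBall (0 : EuclideanSpace ℝ (Fin (n + 1))) 1 := fun w =>
    ⟨r w • (σ w : EuclideanSpace ℝ (Fin (n + 1))), by
      rw [mem_closedBall_zero_iff, hσn]; exact hr2 w⟩
  have hbc : Continuous b := (hrc.smul (continuous_subtype_val.comp hσc)).subtype_mk _
  let A : (Fin (n + 1) → ℝ) → Cap ι X₀ := fun w => capL ι X₀ ⟨_, hA w⟩
  have hAc : Continuous A := continuous_capL.comp ((hφ.continuous.comp hup).subtype_mk _)
  let B : (Fin (n + 1) → ℝ) → Cap ι X₀ := fun w => capR ι X₀ (b w)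
  have hBc : Continuous B := continuous_capR.comp hbc
  have hupeq : ∀ w : Fin (n + 1) → ℝ, 0 ≤ w 0 → Function.update w 0 (max (w 0) 0) = w := by
    intro w hw
    rw [max_eq_left hw]
    exact Function.update_eq_self _ _
  have hAB : ∀ w : Fin (n + 1) → ℝ, 0 = w 0 → A w = B w := by
    intro w hw
    have h1 : r w = 1 := by simp [r, ← hw]
    have h2 : b w = sphBall (σ w) := by
      apply Subtype.ext
      show r w • (σ w : EuclideanSpace ℝ (Fin (n + 1))) = σ w
      rw [h1, one_smul]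
    show capL ι X₀ _ = capR ι X₀ (b w)
    rw [h2, capR_sphBall hX]
    congr 1
    apply Subtype.ext
    show φ _ = ι (σ w)
    rw [hσ, hupeq w hw.le, hw, Function.update_eq_self]
  let Ψ : (Fin (n + 1) → ℝ) → Cap ι X₀ := fun w => if 0 ≤ w 0 then A w else B w
  have hΨc : Continuous Ψ := Continuous.if_le hAc hBc continuous_const (continuous_apply 0) hAB
  have hΨA : ∀ w : Fin (n + 1) → ℝ, ∀ h : 0 ≤ w 0, Ψ w = capL ι X₀ ⟨φ w, (hφX w).2 h⟩ := by
    intro w h
    have h1 : Ψ w = A w := if_pos h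
    rw [h1]
    show capL ι X₀ _ = _
    congr 1
    apply Subtype.ext
    show φ _ = φ w
    rw [hupeq w h]
  have hΨB : ∀ w : Fin (n + 1) → ℝ, w 0 ≤ 0 → Ψ w = capR ι X₀ (b w) := by
    intro w h
    rcases h.lt_or_eq with h | h
    · exact if_neg (not_le.2 h)
    · have h1 : Ψ w = A w := if_pos h.ge
      rw [h1, hAB w h.symm]
  -- preimage in the side
  have hpL : ∀ O : Set (Fin (n + 1) → ℝ),
      capL ι X₀ ⁻¹' (Ψ '' O) = Subtype.val ⁻¹' (φ '' O) := by
    intro O
    ext z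
    constructor
    · rintro ⟨w, hw, hwz⟩
      rcases le_or_gt 0 (w 0) with h | h
      · rw [hΨA w h] at hwz
        exact ⟨w, hw, congrArg Subtype.val (capL_injective hwz)⟩
      · exfalso
        rw [hΨB w h.le] at hwz
        obtain ⟨s, -, hs⟩ := (capL_eq_capR_iff hι z (b w)).1 hwz.symm
        have h1 : ‖(b w : EuclideanSpace ℝ (Fin (n + 1)))‖ = 1 := by rw [← hs]; simp
        have h2 : ‖(b w : EuclideanSpace ℝ (Fin (n + 1)))‖ = r w := hσn w
        have h3 : r w < 1 := by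
          have : 1 < 1 - min (w 0) 0 := by rw [min_eq_left h.le]; linarith
          exact inv_lt_one_of_one_lt₀ this
        linarith
    · rintro ⟨w, hw, hwz⟩
      have h0 : 0 ≤ w 0 := (hφX w).1 (hwz ▸ z.2)
      refine ⟨w, hw, ?_⟩
      rw [hΨA w h0]
      congr 1
      exact Subtype.ext hwz
  -- preimage in the ball
  let μ : closedBall (0 : EuclideanSpace ℝ (Fin (n + 1))) 1 → (Fin (n + 1) → ℝ) := fun v =>
    Function.update (ψ (ι (nrm v))) 0 (1 - ‖(v : EuclideanSpace ℝ (Fin (n + 1)))‖⁻¹)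
  let V₁ : Set (closedBall (0 : EuclideanSpace ℝ (Fin (n + 1))) 1) :=
    {v | (v : EuclideanSpace ℝ (Fin (n + 1))) ≠ 0}
  have hV₁ : IsOpen V₁ := isOpen_ne.preimage continuous_subtype_val
  have hκ : ContinuousOn (fun v => ι (nrm v)) V₁ := hι.continuous.comp_continuousOn
    continuousOn_nrm
  let V₂ : Set (closedBall (0 : EuclideanSpace ℝ (Fin (n + 1))) 1) :=
    V₁ ∩ (fun v => ι (nrm v)) ⁻¹' (Set.range φ)
  have hV₂ : IsOpen V₂ := hκ.isOpen_inter_preimage hV₁ hφ.isOpen_range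
  have hμ : ContinuousOn μ V₂ := by
    have hu : Continuous fun p : (Fin (n + 1) → ℝ) × ℝ => Function.update p.1 0 p.2 :=
      continuous_fst.update 0 continuous_snd
    refine hu.comp_continuousOn (ContinuousOn.prodMk ?_ ?_)
    · exact hψc.comp (hκ.mono Set.inter_subset_left) fun v hv => hv.2
    · refine continuousOn_const.sub (ContinuousOn.inv₀ ?_ fun v hv => norm_ne_zero_iff.2 hv.1)
      exact (continuous_subtype_val.norm).continuousOn
  have hbμ : ∀ w : Fin (n + 1) → ℝ, w 0 ≤ 0 → b w ∈ V₂ ∧ μ (b w) = w := by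
    intro w hw
    have hnorm : ‖(b w : EuclideanSpace ℝ (Fin (n + 1)))‖ = r w := hσn w
    have hne : (b w : EuclideanSpace ℝ (Fin (n + 1))) ≠ 0 := by
      rw [← norm_ne_zero_iff, hnorm]
      exact (hr1 w).ne'
    have hn : nrm (b w) = σ w := by
      apply Subtype.ext
      rw [nrm_coe hne, hnorm]
      show (r w)⁻¹ • (r w • (σ w : EuclideanSpace ℝ (Fin (n + 1)))) = σ w
      rw [smul_smul, inv_mul_cancel₀ (hr1 w).ne', one_smul]
    refine ⟨⟨hne, ?_⟩, ?_⟩
    · show ι (nrm (b w)) ∈ Set.range φ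
      rw [hn, hσ]
      exact ⟨_, rfl⟩
    · show Function.update (ψ (ι (nrm (b w)))) 0 _ = w
      rw [hn, hσ, hψφ, hnorm, Function.update_idem]
      have : 1 - (r w)⁻¹ = w 0 := by
        show 1 - ((1 - min (w 0) 0)⁻¹)⁻¹ = w 0
        rw [inv_inv, min_eq_left hw]
        ring
      rw [this, Function.update_eq_self]
  have hμb : ∀ v ∈ V₂, μ v 0 ≤ 0 ∧ b (μ v) = v := by
    rintro v ⟨hv, hvφ⟩
    have hvn : 0 < ‖(v : EuclideanSpace ℝ (Fin (n + 1)))‖ := norm_pos_iff.2 hv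
    have hv1 : ‖(v : EuclideanSpace ℝ (Fin (n + 1)))‖ ≤ 1 := mem_closedBall_zero_iff.1 v.2
    have h0 : μ v 0 = 1 - ‖(v : EuclideanSpace ℝ (Fin (n + 1)))‖⁻¹ := by simp [μ]
    have h1 : μ v 0 ≤ 0 := by
      rw [h0]
      have := (one_le_inv₀ hvn).2 hv1
      linarith
    refine ⟨h1, ?_⟩
    obtain ⟨u, hu⟩ := hvφ
    have hu' : φ u = ι (nrm v) := hu
    have hu0 : u 0 = 0 := (hφS u).1 ⟨nrm v, hu'.symm⟩
    have h2 : Function.update (μ v) 0 0 = u := by
      show Function.update (Function.update (ψ (ι (nrm v))) 0 _) 0 0 = u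
      rw [← hu', hψφ, Function.update_idem, ← hu0, Function.update_eq_self]
    have h3 : σ (μ v) = nrm v := by
      apply hι.injective
      rw [hσ, h2, hu']
    have h4 : r (μ v) = ‖(v : EuclideanSpace ℝ (Fin (n + 1)))‖ := by
      show (1 - min (μ v 0) 0)⁻¹ = _
      rw [min_eq_left h1, h0, sub_sub_cancel, inv_inv]
    apply Subtype.ext
    show r (μ v) • (σ (μ v) : EuclideanSpace ℝ (Fin (n + 1))) = v
    rw [h3, h4, nrm_coe hv, smul_smul, mul_inv_cancel₀ hvn.ne', one_smul]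
  have hpR : ∀ O : Set (Fin (n + 1) → ℝ), capR ι X₀ ⁻¹' (Ψ '' O) = V₂ ∩ μ ⁻¹' O := by
    intro O
    ext v
    constructor
    · rintro ⟨w, hw, hwv⟩
      rcases le_or_gt (w 0) 0 with h | h
      · rw [hΨB w h] at hwv
        have := capR_injective hι.injective hwv
        subst this
        obtain ⟨h1, h2⟩ := hbμ w h
        refine ⟨h1, ?_⟩
        show μ (b w) ∈ O
        rw [h2]; exact hw
      · exfalso
        rw [hΨA w h.le] at hwv
        obtain ⟨s, hs, -⟩ := (capL_eq_capR_iff hι _ v).1 hwv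
        have := (hφS w).1 ⟨s, hs⟩
        linarith
    · rintro ⟨hv, hvO⟩
      obtain ⟨h1, h2⟩ := hμb v hv
      refine ⟨μ v, hvO, ?_⟩
      rw [hΨB _ h1, h2]
  have hinj : Function.Injective Ψ := by
    intro w w' h
    rcases le_or_gt 0 (w 0) with h0 | h0
    · have h1 : (⟨φ w, (hφX w).2 h0⟩ : X₀) ∈ capL ι X₀ ⁻¹' (Ψ '' {w'}) :=
        ⟨w', rfl, by rw [← h, hΨA w h0]⟩
      rw [hpL] at h1
      obtain ⟨w'', hw'', h2⟩ := h1
      have h3 : w'' = w' := hw''
      subst h3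
      exact (hφ.injective h2).symm
    · have h1 : b w ∈ capR ι X₀ ⁻¹' (Ψ '' {w'}) := ⟨w', rfl, by rw [← h, hΨB w h0.le]⟩
      rw [hpR] at h1
      have h2 : μ (b w) = w' := h1.2
      rw [(hbμ w h0.le).2] at h2
      exact h2
  have hopen : IsOpenMap Ψ := by
    intro O hO
    rw [cap_isOpen_iff, hpL, hpR]
    exact ⟨(hφ.isOpenMap O hO).preimage continuous_subtype_val,
      hμ.isOpen_inter_preimage hV₂ hO⟩
  refine chart_of_openEmbedding
    (IsOpenEmbedding.of_continuous_injective_isOpenMap hΨc hinj hopen) ?_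
  obtain ⟨w, hw⟩ := hxφ
  have hw0 : w 0 = 0 := (hφS w).1 (hw ▸ hx)
  refine ⟨w, ?_⟩
  rw [hΨA w hw0.ge]
  congr 1
  exact Subtype.ext hw

/-- The capped closed side of a flat hypersphere is locally Euclidean. -/
theorem cap_locEuc [T2Space M] [CompactSpace M] (hM : LocEuc (n + 1) M) (P : FlatSphere n M)
    (hι : Topology.IsEmbedding ι) (hS : Set.range ι = P.S) :
    LocEuc (n + 1) (Cap ι (P.U ∪ P.S)) := by
  have hX : ∀ s, ι s ∈ P.U ∪ P.S := fun s => Or.inr (hS ▸ ⟨s, rfl⟩)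
  have hUS : ∀ z, z ∈ P.U → z ∉ P.S := by
    intro z hz hzS
    have h1 : z ∈ (P.D '' bdry (n + 1))ᶜ := P.compl ▸ Or.inl hz
    exact h1 hzS
  have hleft : ∀ x : ↥(P.U ∪ P.S), ∃ S : Set (Cap ι (P.U ∪ P.S)), IsOpen S ∧
      capL ι (P.U ∪ P.S) x ∈ S ∧ Nonempty (S ≃ₜ (Fin (n + 1) → ℝ)) := by
    intro x
    rcases x.2 with hx | hx
    · exact cap_chart_left hM hι hX P.openU Set.subset_union_left
        (fun s hs => hUS _ hs (hS ▸ ⟨s, rfl⟩)) x hx
    · obtain ⟨N, hN, hxN, θ, hθ⟩ := P.flat x hx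
      refine cap_chart_mid hι hX (openEmbedding_of_chart hN θ) ?_ ?_ x (by rw [hS]; exact hx)
        ⟨θ ⟨x, hxN⟩, by simp⟩
      · intro w
        have h1 := (hθ (θ.symm w)).1
        rw [Homeomorph.apply_symm_apply] at h1
        rw [hS]
        exact h1
      · intro w
        have h1 := (hθ (θ.symm w)).1
        have h2 := (hθ (θ.symm w)).2.1
        rw [Homeomorph.apply_symm_apply] at h1 h2
        constructor
        · rintro (h | h)
          · exact (h2.1 h).le
          · exact (h1.1 h).ge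
        · intro h
          rcases h.lt_or_eq with h | h
          · exact Or.inl (h2.2 h)
          · exact Or.inr (h1.2 h.symm)
  intro y
  rcases cap_cover y with ⟨x, rfl⟩ | ⟨v, rfl⟩
  · exact hleft x
  · rcases (mem_closedBall_zero_iff.1 v.2).lt_or_eq with h | h
    · exact cap_chart_right hι hX v h
    · let s : sphere (0 : EuclideanSpace ℝ (Fin (n + 1))) 1 :=
        ⟨v, mem_sphere_zero_iff_norm.2 h⟩
      have h1 : sphBall s = v := Subtype.ext rfl
      rw [← h1, capR_sphBall hX]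
      exact hleft _

end CubeHom
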