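import Pool.Agent.Lib.MP_cb6a70_gt_HB.CapBasic

/-!
# Capping off a side with a ball: the radial retraction
-/

namespace CubeHom

open Metric

variable {n : ℕ} {M : Type} [TopologicalSpace M]
  {ι : sphere (0 : EuclideanSpace ℝ (Fin (n + 1))) 1 → M} {X₀ : Set M}

open Classical in
/-- left inverse of `capR` -/
noncomputable def invR (ι : sphere (0 : EuclideanSpace ℝ (Fin (n + 1))) 1 → M) (X₀ : Set M)
    (y : Cap ι X₀) : closedBall (0 : EuclideanSpace ℝ (Fin (n + 1))) 1 :=
  if h : ∃ v, capR ι X₀ v = y then h.choose else ⟨0, by simp⟩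

theorem invR_capR (hι : Function.Injective ι)
    (v : closedBall (0 : EuclideanSpace ℝ (Fin (n + 1))) 1) :
    invR ι X₀ (capR ι X₀ v) = v := by
  have h : ∃ w, capR ι X₀ w = capR ι X₀ v := ⟨v, rfl⟩
  have h2 : invR ι X₀ (capR ι X₀ v) = h.choose := dif_pos h
  rw [h2]
  exact capR_injective hι h.choose_spec

theorem capR_invR (hι : Function.Injective ι) {y : Cap ι X₀} (hy : y ∈ Set.range (capR ι X₀)) :
    capR ι X₀ (invR ι X₀ y) = y := by
  obtain ⟨v, rfl⟩ := hy
  rw [invR_capR hι]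

theorem continuousOn_invR [T2Space M] (hι : Topology.IsEmbedding ι) (hX : ∀ s, ι s ∈ X₀) :
    ContinuousOn (invR ι X₀) (Set.range (capR ι X₀)) := by
  have hR := (capR_isClosedEmbedding (X₀ := X₀) hι hX).isEmbedding
  rw [continuousOn_iff_continuous_domRestrict]
  have h4 : (Set.range (capR ι X₀)).domRestrict (invR ι X₀) =
      fun u => hR.toHomeomorph.symm u := by
    funext u
    obtain ⟨x, rfl⟩ := hR.toHomeomorph.surjective u
    rw [Homeomorph.symm_apply_apply]
    exact invR_capR hι.injective x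
  rw [h4]
  exact hR.toHomeomorph.symm.continuous

/-- Radial push towards the sphere. -/
noncomputable def pushR (t : unitInterval)
    (v : closedBall (0 : EuclideanSpace ℝ (Fin (n + 1))) 1) :
    closedBall (0 : EuclideanSpace ℝ (Fin (n + 1))) 1 :=
  ⟨(1 - (t : ℝ)) • (v : EuclideanSpace ℝ (Fin (n + 1))) +
      (t : ℝ) • (‖(v : EuclideanSpace ℝ (Fin (n + 1)))‖⁻¹ •
        (v : EuclideanSpace ℝ (Fin (n + 1)))), by
    have h1 : (‖(v : EuclideanSpace ℝ (Fin (n + 1)))‖⁻¹ •
        (v : EuclideanSpace ℝ (Fin (n + 1)))) ∈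
        closedBall (0 : EuclideanSpace ℝ (Fin (n + 1))) 1 := by
      rw [mem_closedBall_zero_iff, norm_smul, norm_inv, norm_norm]
      exact inv_mul_le_one
    exact (convex_closedBall _ _) v.2 h1 (by have := t.2.2; linarith) t.2.1 (by ring)⟩

theorem pushR_zero (v : closedBall (0 : EuclideanSpace ℝ (Fin (n + 1))) 1) :
    pushR 0 v = v := by
  apply Subtype.ext
  simp [pushR]

theorem pushR_sphBall (t : unitInterval) (s : sphere (0 : EuclideanSpace ℝ (Fin (n + 1))) 1) :
    pushR t (sphBall s) = sphBall s := by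
  apply Subtype.ext
  have h : ‖(s : EuclideanSpace ℝ (Fin (n + 1)))‖ = 1 := by simp
  simp only [pushR, sphBall, h, inv_one, one_smul]
  rw [← add_smul, sub_add_cancel, one_smul]

theorem pushR_one {v : closedBall (0 : EuclideanSpace ℝ (Fin (n + 1))) 1}
    (hv : (v : EuclideanSpace ℝ (Fin (n + 1))) ≠ 0) :
    ∃ s, pushR 1 v = sphBall s := by
  refine ⟨⟨‖(v : EuclideanSpace ℝ (Fin (n + 1)))‖⁻¹ • (v : EuclideanSpace ℝ (Fin (n + 1))), ?_⟩, ?_⟩
  · rw [mem_sphere_zero_iff_norm, norm_smul, norm_inv, norm_norm]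
    exact inv_mul_cancel₀ (norm_ne_zero_iff.2 hv)
  · apply Subtype.ext
    simp [pushR, sphBall]

theorem pushR_ne_zero (t : unitInterval) {v : closedBall (0 : EuclideanSpace ℝ (Fin (n + 1))) 1}
    (hv : (v : EuclideanSpace ℝ (Fin (n + 1))) ≠ 0) :
    (pushR t v : EuclideanSpace ℝ (Fin (n + 1))) ≠ 0 := by
  have h : (pushR t v : EuclideanSpace ℝ (Fin (n + 1))) =
      ((1 - (t : ℝ)) + (t : ℝ) * ‖(v : EuclideanSpace ℝ (Fin (n + 1)))‖⁻¹) •
        (v : EuclideanSpace ℝ (Fin (n + 1))) := by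
    simp only [pushR]
    rw [add_smul, mul_smul]
  rw [h]
  refine smul_ne_zero ?_ hv
  have h1 : (0 : ℝ) ≤ t := t.2.1
  have h2 : (t : ℝ) ≤ 1 := t.2.2
  have h3 : (1 : ℝ) ≤ ‖(v : EuclideanSpace ℝ (Fin (n + 1)))‖⁻¹ := by
    rw [one_le_inv₀ (norm_pos_iff.2 hv)]
    exact mem_closedBall_zero_iff.1 v.2
  nlinarith

theorem continuousOn_pushR : ContinuousOn
    (fun p : unitInterval × closedBall (0 : EuclideanSpace ℝ (Fin (n + 1))) 1 => pushR p.1 p.2)
    {p | (p.2 : EuclideanSpace ℝ (Fin (n + 1))) ≠ 0} := by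
  rw [continuousOn_iff_continuous_domRestrict]
  refine Continuous.subtype_mk ?_ _
  have h1 : Continuous fun p : {p : unitInterval ×
      closedBall (0 : EuclideanSpace ℝ (Fin (n + 1))) 1 |
        (p.2 : EuclideanSpace ℝ (Fin (n + 1))) ≠ 0} => (p.1.1 : ℝ) :=
    continuous_subtype_val.comp (continuous_fst.comp continuous_subtype_val)
  have h2 : Continuous fun p : {p : unitInterval ×
      closedBall (0 : EuclideanSpace ℝ (Fin (n + 1))) 1 |
        (p.2 : EuclideanSpace ℝ (Fin (n + 1))) ≠ 0} =>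
          (p.1.2 : EuclideanSpace ℝ (Fin (n + 1))) :=
    continuous_subtype_val.comp (continuous_snd.comp continuous_subtype_val)
  have h3 := h2.norm.inv₀ (fun p => norm_ne_zero_iff.2 p.2)
  exact ((continuous_const.sub h1).smul h2).add (h1.smul (h3.smul h2))

/-- The capped side minus the centre of the cap deformation retracts onto the side: there is a
homotopy of the punctured capped side from the identity to a map into `X₀`, fixing `X₀`. -/
theorem cap_retract [T2Space M] [CompactSpace M] (hι : Topology.IsEmbedding ι)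
    (hX : ∀ s, ι s ∈ X₀) (hcl : IsClosed X₀) :
    ∃ H : C(unitInterval × {y : Cap ι X₀ // y ≠ capC ι X₀}, Cap ι X₀),
      (∀ y : {y : Cap ι X₀ // y ≠ capC ι X₀}, H (0, y) = y) ∧
      (∀ y : {y : Cap ι X₀ // y ≠ capC ι X₀}, H (1, y) ∈ Set.range (capL ι X₀)) ∧
      (∀ t, ∀ y : {y : Cap ι X₀ // y ≠ capC ι X₀}, H (t, y) ≠ capC ι X₀) ∧
      (∀ t, ∀ y : {y : Cap ι X₀ // y ≠ capC ι X₀},
        (y : Cap ι X₀) ∈ Set.range (capL ι X₀) → H (t, y) = y) := by
  classical
  have hL := capL_isClosedEmbedding (X₀ := X₀) hι hX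
  have hR := capR_isClosedEmbedding (X₀ := X₀) hι hX
  -- a nonzero point of the ball for each point off the centre
  have hne : ∀ y : Cap ι X₀, y ≠ capC ι X₀ → y ∈ Set.range (capR ι X₀) →
      (invR ι X₀ y : EuclideanSpace ℝ (Fin (n + 1))) ≠ 0 := by
    rintro y hy ⟨v, rfl⟩ h0
    rw [invR_capR hι.injective] at h0
    exact hy (congrArg _ (Subtype.ext h0))
  have hRf : ∀ (t : unitInterval) (y : Cap ι X₀), y ∈ Set.range (capL ι X₀) →
      y ∈ Set.range (capR ι X₀) → capR ι X₀ (pushR t (invR ι X₀ y)) = y := by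
    rintro t y ⟨x, hx⟩ ⟨v, rfl⟩
    obtain ⟨s, hs, hsv⟩ := (capL_eq_capR_iff hι x v).1 hx
    have : sphBall s = v := Subtype.ext hsv
    rw [invR_capR hι.injective, ← this, pushR_sphBall]
  let f : unitInterval × {y : Cap ι X₀ // y ≠ capC ι X₀} → Cap ι X₀ := fun p =>
    if (p.2 : Cap ι X₀) ∈ Set.range (capL ι X₀) then (p.2 : Cap ι X₀)
    else capR ι X₀ (pushR p.1 (invR ι X₀ p.2))
  have hfL : ∀ p : unitInterval × {y : Cap ι X₀ // y ≠ capC ι X₀},
      (p.2 : Cap ι X₀) ∈ Set.range (capL ι X₀) → f p = p.2 := fun p hp => if_pos hp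
  have hfR : ∀ p : unitInterval × {y : Cap ι X₀ // y ≠ capC ι X₀},
      (p.2 : Cap ι X₀) ∈ Set.range (capR ι X₀) →
        f p = capR ι X₀ (pushR p.1 (invR ι X₀ p.2)) := by
    intro p hp
    by_cases h : (p.2 : Cap ι X₀) ∈ Set.range (capL ι X₀)
    · rw [hfL p h, hRf p.1 p.2 h hp]
    · exact if_neg h
  have hval : Continuous fun p : unitInterval × {y : Cap ι X₀ // y ≠ capC ι X₀} =>
      (p.2 : Cap ι X₀) := continuous_subtype_val.comp continuous_snd
  have hf : Continuous f := by
    rw [← continuousOn_univ]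
    have hcov : (Set.univ : Set (unitInterval × {y : Cap ι X₀ // y ≠ capC ι X₀})) =
        {p | (p.2 : Cap ι X₀) ∈ Set.range (capL ι X₀)} ∪
          {p | (p.2 : Cap ι X₀) ∈ Set.range (capR ι X₀)} := by
      symm
      exact Set.eq_univ_of_forall fun p => cap_cover _
    rw [hcov]
    refine ContinuousOn.union_of_isClosed ?_ ?_ (hL.isClosed_range.preimage hval)
      (hR.isClosed_range.preimage hval)
    · exact hval.continuousOn.congr fun p hp => hfL p hp
    · refine ContinuousOn.congr (f := fun p => capR ι X₀ (pushR p.1 (invR ι X₀ p.2))) ?_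
        fun p hp => hfR p hp
      refine continuous_capR.comp_continuousOn ?_
      refine continuousOn_pushR.comp (f := fun p : unitInterval ×
        {y : Cap ι X₀ // y ≠ capC ι X₀} => (p.1, invR ι X₀ p.2)) ?_ ?_
      · refine continuous_fst.continuousOn.prodMk ?_
        exact (continuousOn_invR hι hX).comp hval.continuousOn fun p hp => hp
      · intro p hp
        exact hne _ p.2.2 hp
  refine ⟨⟨f, hf⟩, ?_, ?_, ?_, ?_⟩
  · intro y
    rcases cap_cover (y : Cap ι X₀) with h | h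
    · exact hfL (0, y) h
    · show f (0, y) = y
      rw [hfR (0, y) h, pushR_zero, capR_invR hι.injective h]
  · intro y
    show f (1, y) ∈ _
    rcases cap_cover (y : Cap ι X₀) with h | h
    · rw [hfL (1, y) h]
      exact h
    · rw [hfR (1, y) h]
      obtain ⟨s, hs⟩ := pushR_one (hne _ y.2 h)
      simp only [hs]
      exact ⟨_, (capR_sphBall hX s).symm⟩
  · intro t y
    show f (t, y) ≠ _
    rcases cap_cover (y : Cap ι X₀) with h | h
    · rw [hfL (t, y) h]
      exact y.2
    · rw [hfR (t, y) h]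
      intro h0
      have := capR_injective hι.injective h0
      exact pushR_ne_zero t (hne _ y.2 h) (congrArg Subtype.val this)
  · intro t y h
    exact hfL (t, y) h

end CubeHom
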