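import Pool.Agent.Lib.MP_cb6a70_gt_HB.Degree
import Pool.Agent.Lib.MP_cb6a70_gt_HB.Cap

/-!
# Collapsing the disc onto a capped side
-/

namespace CubeHom

open Metric Topology

/-! ### Charts given by open embeddings -/

/-- The chart whose inverse is a given open embedding. -/
noncomputable def chartOf {n : ℕ} {Y : Type*} [TopologicalSpace Y] {ψ : (Fin n → ℝ) → Y}
    (hψ : IsOpenEmbedding ψ) : ↥(Set.range ψ) ≃ₜ (Fin n → ℝ) :=
  hψ.isEmbedding.toHomeomorph.symm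

theorem chartOf_symm_apply {n : ℕ} {Y : Type*} [TopologicalSpace Y] {ψ : (Fin n → ℝ) → Y}
    (hψ : IsOpenEmbedding ψ) (v : Fin n → ℝ) : ((chartOf hψ).symm v : Y) = ψ v := rfl

theorem chartOf_apply {n : ℕ} {Y : Type*} [TopologicalSpace Y] {ψ : (Fin n → ℝ) → Y}
    (hψ : IsOpenEmbedding ψ) (v : Fin n → ℝ) (h : ψ v ∈ Set.range ψ) :
    chartOf hψ ⟨ψ v, h⟩ = v := by
  apply (chartOf hψ).symm.injective
  rw [Homeomorph.symm_apply_apply]
  exact Subtype.ext (chartOf_symm_apply hψ v).symm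

/-- There are charts inside any open set. -/
theorem exists_openEmbedding {n : ℕ} {Y : Type*} [TopologicalSpace Y] (hY : LocEuc n Y)
    {W : Set Y} (hW : IsOpen W) {y : Y} (hy : y ∈ W) :
    ∃ ψ : (Fin n → ℝ) → Y, IsOpenEmbedding ψ ∧ ψ 0 = y ∧ Set.range ψ ⊆ W := by
  obtain ⟨S, hS, hyS, ⟨φ⟩⟩ := hY y
  have h1 : IsOpenEmbedding (fun v : Fin n → ℝ => (φ.symm v : Y)) :=
    hS.isOpenEmbedding_subtypeVal.comp φ.symm.isOpenEmbedding
  have h2 : IsOpen ((fun v : Fin n → ℝ => (φ.symm v : Y)) ⁻¹' W) := hW.preimage h1.continuous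
  have h3 : φ ⟨y, hyS⟩ ∈ (fun v : Fin n → ℝ => (φ.symm v : Y)) ⁻¹' W := by
    simpa using hy
  obtain ⟨r, hr, hball⟩ := Metric.isOpen_iff.1 h2 _ h3
  have h4 : IsOpenEmbedding (OpenPartialHomeomorph.univBall (φ ⟨y, hyS⟩) r) :=
    OpenPartialHomeomorph.isOpenEmbedding _ (OpenPartialHomeomorph.univBall_source _ _)
  refine ⟨_, h1.comp h4, ?_, ?_⟩
  · simp
  · rintro _ ⟨v, rfl⟩
    apply hball
    have h5 := (OpenPartialHomeomorph.univBall (φ ⟨y, hyS⟩) r).map_source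
      (x := v) (by rw [OpenPartialHomeomorph.univBall_source]; trivial)
    rwa [OpenPartialHomeomorph.univBall_target _ hr] at h5

/-- The absolute degree can be computed in any chart. -/
theorem AbsDeg.chart {Y : Type*} [TopologicalSpace Y] [T2Space Y] {n : ℕ} {c : Ch ℤ Y} {y : Y}
    {d : ℕ} (h : AbsDeg n c y d) {S' : Set Y} (hS' : IsOpen S') (ψ : S' ≃ₜ (Fin n → ℝ))
    (hy' : y ∈ S') (h0 : ψ ⟨y, hy'⟩ = 0) :
    ∃ r : ℤ, r.natAbs = d ∧ Bd ℤ n Set.univ ({y}ᶜ : Set Y) (c - r • locCh ℤ ψ) := by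
  obtain ⟨S, hS, φ, hy, hφ, r, hr, hb⟩ := h
  obtain ⟨ε, hε, hc⟩ := loc_change hS hS' φ ψ hy hy' (by intro i; rw [hφ]; norm_num)
    (by intro i; rw [h0]; norm_num)
  refine ⟨r * ε, ?_, ?_⟩
  · rw [Int.natAbs_mul, hr]
    rcases hε with rfl | rfl <;> simp
  · have h1 := hb.add (hc.smul r)
    have h2 : c - r • locCh ℤ φ + r • (locCh ℤ φ - ε • locCh ℤ ψ)
        = c - (r * ε) • locCh ℤ ψ := by
      rw [smul_sub, smul_smul]; abel
    rwa [h2] at h1

/-! ### The collapse -/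

theorem bdry_isClosed (m : ℕ) : IsClosed (bdry m) := by
  have h : bdry m = ⋃ i : Fin m, ({u | u i = 0} ∪ {u | u i = 1}) := by
    ext u
    simp only [bdry, Set.mem_ofPred_eq, Set.mem_iUnion, Set.mem_union]
  rw [h]
  refine isClosed_iUnion_of_finite fun i => ?_
  exact (isClosed_eq (continuous_apply i) continuous_const).union
    (isClosed_eq (continuous_apply i) continuous_const)

section
variable {n : ℕ} {M E : Type} [TopologicalSpace M] [TopologicalSpace E]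
  {ι : Metric.sphere (0 : EuclideanSpace ℝ (Fin (n + 1))) 1 → M}

/-- a map of a cube whose boundary goes to the ball can be changed to a map to the ball -/
theorem exists_ballMap {X₀ : Set M} (hR : IsClosedEmbedding (capR ι X₀)) {m : ℕ}
    (f : C(Fin m → unitInterval, Cap ι X₀))
    (hf : ∀ u ∈ bdry m, f u ∈ Set.range (capR ι X₀)) :
    ∃ h : C(Fin m → unitInterval, Cap ι X₀), (∀ u ∈ bdry m, f u = h u) ∧
      ∀ u, h u ∈ Set.range (capR ι X₀) := by
  have hT : TietzeExtension.{0, 0}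
      (closedBall (0 : EuclideanSpace ℝ (Fin (n + 1))) 1) :=
    Set.instTietzeExtensionUnitClosedBall (𝕜 := ℝ)
  let e := hR.isEmbedding.toHomeomorph
  let f₁ : C(bdry m, closedBall (0 : EuclideanSpace ℝ (Fin (n + 1))) 1) :=
    ⟨fun u => e.symm ⟨f u, hf u u.2⟩, by fun_prop⟩
  obtain ⟨g, hg⟩ := ContinuousMap.exists_restrict_eq (bdry_isClosed m) f₁
  refine ⟨⟨fun u => capR ι X₀ (g u), hR.continuous.comp g.continuous⟩, fun u hu => ?_,
    fun u => ⟨g u, rfl⟩⟩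
  have h1 : g u = e.symm ⟨f u, hf u hu⟩ := by
    have := ContinuousMap.congr_fun hg ⟨u, hu⟩
    exact this
  have h2 : e (g u) = ⟨f u, hf u hu⟩ := by rw [h1, Homeomorph.apply_symm_apply]
  exact (congrArg Subtype.val h2).symm

/-- the points of the open side are not in the ball -/
theorem capL_notMem_range_capR (P : FlatSphere n M) (hι : IsEmbedding ι)
    (hS : Set.range ι = P.S) {x : ↥(P.U ∪ P.S)} (hx : (x : M) ∈ P.U) :
    capL ι (P.U ∪ P.S) x ∉ Set.range (capR ι (P.U ∪ P.S)) := by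
  rintro ⟨v, hv⟩
  obtain ⟨s, hs, _⟩ := (capL_eq_capR_iff hι x v).1 hv.symm
  have h1 : ι s ∈ P.S := hS ▸ Set.mem_range_self s
  rw [hs] at h1
  have h2 : (x : M) ∈ (P.D '' bdry (n + 1))ᶜ := by
    rw [← P.compl]; exact Or.inl hx
  exact h2 h1

/-- the collapse of a compact subset of `E` onto the capped side -/
theorem exists_kappa [T2Space M] [T2Space E] {p : E → M} (hp : Continuous p)
    (P : FlatSphere n M) (hι : IsEmbedding ι) (hS : Set.range ι = P.S)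
    (hL : IsClosedEmbedding (capL ι (P.U ∪ P.S))) (hR : IsClosedEmbedding (capR ι (P.U ∪ P.S)))
    (τ : SideSection p P.U P.S) {K : Set E} (hK : IsCompact K) :
    ∃ κ : C(K, Cap ι (P.U ∪ P.S)), (∀ (e : K) (x : ↥(P.U ∪ P.S)), τ.σ x = e →
      κ e = capL ι _ x) ∧ (∀ e : K, (∀ x : ↥(P.U ∪ P.S), (x : M) ∈ P.U → τ.σ x ≠ e) →
        κ e ∈ Set.range (capR ι (P.U ∪ P.S))) := by
  classical
  have hT : TietzeExtension.{0, 0}
      (closedBall (0 : EuclideanSpace ℝ (Fin (n + 1))) 1) :=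
    Set.instTietzeExtensionUnitClosedBall (𝕜 := ℝ)
  have hKc : CompactSpace K := isCompact_iff_compactSpace.1 hK
  set A₁ : Set K := {e | (e : E) ∈ Set.range τ.σ} with hA₁
  set A₂ : Set K := {e | (e : E) ∉ τ.σ '' {x : ↥(P.U ∪ P.S) | (x : M) ∈ P.U}} with hA₂
  have c₁ : IsClosed A₁ := τ.closed.preimage continuous_subtype_val
  have c₂ : IsClosed A₂ := by
    have : IsOpen A₂ᶜ := by
      have h : A₂ᶜ = Subtype.val ⁻¹' (τ.σ '' {x : ↥(P.U ∪ P.S) | (x : M) ∈ P.U}) := by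
        ext e; simp [hA₂]
      rw [h]
      exact τ.openW.preimage continuous_subtype_val
    exact isOpen_compl_iff.1 this
  have cover : A₁ ∪ A₂ = Set.univ := by
    ext e
    simp only [Set.mem_union, Set.mem_univ, iff_true]
    by_cases h : (e : E) ∈ τ.σ '' {x : ↥(P.U ∪ P.S) | (x : M) ∈ P.U}
    · obtain ⟨x, _, hx⟩ := h
      exact Or.inl ⟨x, hx⟩
    · exact Or.inr h
  -- the points over the sphere
  have hmid : ∀ e : ↥(A₁ ∩ A₂), p (e : K) ∈ Set.range ι := by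
    rintro ⟨e, ⟨x, hx⟩, h2⟩
    have h3 : (x : M) ∉ P.U := fun h => h2 ⟨x, h, hx⟩
    rw [hS]
    have h4 : (x : M) ∈ P.S := x.2.resolve_left h3
    have h5 : p (e : E) = x := by rw [← hx, τ.sec]
    simpa only [h5] using h4
  let e₀ := hι.toHomeomorph
  let f₀ : C(↥(A₁ ∩ A₂), closedBall (0 : EuclideanSpace ℝ (Fin (n + 1))) 1) :=
    ⟨fun e => ⟨(e₀.symm ⟨p (e : K), hmid e⟩ : EuclideanSpace ℝ (Fin (n + 1))),
      sphere_subset_closedBall (e₀.symm ⟨p (e : K), hmid e⟩).2⟩, by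
      refine Continuous.subtype_mk ?_ _
      refine continuous_subtype_val.comp (e₀.symm.continuous.comp ?_)
      exact (hp.comp (continuous_subtype_val.comp continuous_subtype_val)).subtype_mk _⟩
  obtain ⟨g, hg⟩ := ContinuousMap.exists_restrict_eq (c₁.inter c₂) f₀
  -- the map
  let k : K → Cap ι (P.U ∪ P.S) := fun e =>
    if e ∈ A₂ then capR ι _ (g e) else
      if h : p (e : E) ∈ P.U ∪ P.S then capL ι _ ⟨p (e : E), h⟩ else capR ι _ (g e)
  have k1 : ∀ e : K, ∀ x : ↥(P.U ∪ P.S), τ.σ x = e → k e = capL ι _ x := by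
    intro e x hx
    have h5 : p (e : E) = x := by rw [← hx, τ.sec]
    by_cases h2 : e ∈ A₂
    · have h6 : k e = capR ι _ (g e) := if_pos h2
      have h7 : g e = f₀ ⟨e, ⟨x, hx⟩, h2⟩ := ContinuousMap.congr_fun hg ⟨e, ⟨x, hx⟩, h2⟩
      rw [h6, h7]
      refine ((capL_eq_capR_iff hι x _).2
        ⟨e₀.symm ⟨p (e : E), hmid ⟨e, ⟨x, hx⟩, h2⟩⟩, ?_, rfl⟩).symm
      have h8 := congrArg Subtype.val (e₀.apply_symm_apply ⟨p (e : E), hmid ⟨e, ⟨x, hx⟩, h2⟩⟩)
      rw [← h5]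
      exact h8
    · have h6 : k e = if h : p (e : E) ∈ P.U ∪ P.S then capL ι _ ⟨p (e : E), h⟩
        else capR ι _ (g e) := if_neg h2
      have h7 : p (e : E) ∈ P.U ∪ P.S := by rw [h5]; exact x.2
      rw [h6, dif_pos h7]
      congr 1
      exact Subtype.ext h5
  have hk : Continuous k := by
    rw [← continuousOn_univ, ← cover]
    refine ContinuousOn.union_of_isClosed ?_ ?_ c₁ c₂
    · have h1 : ∀ e ∈ A₁, p (e : E) ∈ P.U ∪ P.S := by
        rintro e ⟨x, hx⟩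
        rw [← hx, τ.sec]
        exact x.2
      rw [continuousOn_iff_continuous_domRestrict]
      have h2 : A₁.domRestrict k =
          fun e : A₁ => capL ι (P.U ∪ P.S) ⟨p ((e : K) : E), h1 e e.2⟩ := by
        funext e
        obtain ⟨x, hx⟩ := e.2
        have h3 := k1 e x hx
        have h4 : A₁.domRestrict k e = k e := rfl
        rw [h4, h3]
        congr 1
        exact Subtype.ext ((τ.sec x).symm.trans (congrArg p hx))
      rw [h2]
      refine hL.continuous.comp ?_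
      exact (hp.comp (continuous_subtype_val.comp continuous_subtype_val)).subtype_mk _
    · have h2 : Set.EqOn k (fun e => capR ι _ (g e)) A₂ := fun e he => if_pos he
      exact (hR.continuous.comp g.continuous).continuousOn.congr h2
  refine ⟨⟨k, hk⟩, k1, fun e he => ?_⟩
  have h2 : e ∈ A₂ := by
    rintro ⟨x, hx, hxe⟩
    exact he x hx hxe
  exact ⟨g e, (if_pos h2).symm⟩

/-- a nice chart on the side gives compatible charts on `E` and on the capped side -/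
theorem embE {p : E → M} (hp : Continuous p)
    (P : FlatSphere n M) (τ : SideSection p P.U P.S) {m : ℕ} {ψ : (Fin m → ℝ) → M}
    (hψ : IsOpenEmbedding ψ) (hU : Set.range ψ ⊆ P.U) :
    IsOpenEmbedding (fun v => τ.σ ⟨ψ v, Or.inl (hU ⟨v, rfl⟩)⟩) := by
  have hc : Continuous (fun v => τ.σ ⟨ψ v, Or.inl (hU ⟨v, rfl⟩)⟩) :=
    τ.cont.comp (hψ.continuous.subtype_mk _)
  have h1 : p ∘ (fun v => τ.σ ⟨ψ v, Or.inl (hU ⟨v, rfl⟩)⟩) = ψ := by
    funext v
    exact τ.sec _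
  have h2 : IsEmbedding (fun v => τ.σ ⟨ψ v, Or.inl (hU ⟨v, rfl⟩)⟩) := by
    refine IsEmbedding.of_comp hc hp ?_
    rw [h1]
    exact hψ.isEmbedding
  refine ⟨h2, ?_⟩
  have h3 : Set.range (fun v => τ.σ ⟨ψ v, Or.inl (hU ⟨v, rfl⟩)⟩)
      = τ.σ '' {x : ↥(P.U ∪ P.S) | (x : M) ∈ P.U} ∩ p ⁻¹' (Set.range ψ) := by
    ext e
    constructor
    · rintro ⟨v, rfl⟩
      exact ⟨⟨_, hU ⟨v, rfl⟩, rfl⟩, v, (τ.sec ⟨ψ v, Or.inl (hU ⟨v, rfl⟩)⟩).symm⟩
    · rintro ⟨⟨x, hx, rfl⟩, v, hv⟩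
      refine ⟨v, ?_⟩
      rw [τ.sec] at hv
      exact congrArg τ.σ (Subtype.ext hv)
  rw [h3]
  exact τ.openW.inter (hψ.isOpen_range.preimage hp)

theorem embC (P : FlatSphere n M) (hι : IsEmbedding ι) (hS : Set.range ι = P.S)
    (hL : IsClosedEmbedding (capL ι (P.U ∪ P.S))) (hR : IsClosedEmbedding (capR ι (P.U ∪ P.S)))
    {m : ℕ} {ψ : (Fin m → ℝ) → M}
    (hψ : IsOpenEmbedding ψ) (hU : Set.range ψ ⊆ P.U) :
    IsOpenEmbedding (fun v => capL ι (P.U ∪ P.S) ⟨ψ v, Or.inl (hU ⟨v, rfl⟩)⟩) := by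
  have h1 : IsEmbedding (fun v => (⟨ψ v, Or.inl (hU ⟨v, rfl⟩)⟩ : ↥(P.U ∪ P.S))) := by
    refine IsEmbedding.of_comp (hψ.continuous.subtype_mk _) continuous_subtype_val ?_
    exact hψ.isEmbedding
  refine ⟨hL.isEmbedding.comp h1, ?_⟩
  set O : Set ↥(P.U ∪ P.S) := Subtype.val ⁻¹' (Set.range ψ) with hO
  have hOo : IsOpen O := hψ.isOpen_range.preimage continuous_subtype_val
  have h2 : (Set.range (fun v => capL ι (P.U ∪ P.S) ⟨ψ v, Or.inl (hU ⟨v, rfl⟩)⟩))ᶜ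
      = Set.range (capR ι (P.U ∪ P.S)) ∪ capL ι (P.U ∪ P.S) '' Oᶜ := by
    ext y
    constructor
    · intro hy
      rcases cap_cover y with ⟨x, rfl⟩ | h
      · right
        refine ⟨x, ?_, rfl⟩
        rintro ⟨v, hv⟩
        exact hy ⟨v, congrArg (capL ι (P.U ∪ P.S)) (Subtype.ext hv)⟩
      · exact Or.inl h
    · rintro (hy | ⟨x, hx, rfl⟩)
      · rintro ⟨v, rfl⟩
        exact capL_notMem_range_capR P hι hS (hU ⟨v, rfl⟩) hy
      · rintro ⟨v, hv⟩
        apply hx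
        exact ⟨v, congrArg Subtype.val (hL.injective hv)⟩
  have h3 : IsClosed (Set.range (fun v => capL ι (P.U ∪ P.S) ⟨ψ v, Or.inl (hU ⟨v, rfl⟩)⟩))ᶜ := by
    rw [h2]
    exact hR.isClosed_range.union (hL.isClosedMap _ hOo.isClosed_compl)
  exact isClosed_compl_iff.1 h3

end

/-- the cubes of a finite chain lie in a compact set -/
theorem exists_compact {E : Type*} [TopologicalSpace E] {k : ℤ} {b : Ch ℤ E}
    (hb : b ∈ C ℤ k Set.univ) : ∃ K : Set E, IsCompact K ∧ b ∈ C ℤ k K := by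
  classical
  refine ⟨⋃ σ ∈ b.support, Set.range σ, ?_, ?_⟩
  · exact b.support.isCompact_biUnion fun σ _ => isCompact_range σ.continuous
  · unfold C at hb ⊢
    rw [Finsupp.mem_supported] at hb ⊢
    intro σ hσ
    refine ⟨(hb hσ).1, fun u => ?_⟩
    exact Set.mem_biUnion (Finset.mem_coe.1 hσ) ⟨u, rfl⟩

/-- a cycle of locally constant absolute degree -/
theorem absDeg_everywhere {m : ℕ} {Y : Type*} [TopologicalSpace Y] [T2Space Y]
    [PreconnectedSpace Y] (hY : LocEuc m Y) {c : Ch ℤ Y} (hc : c ∈ Z ℤ m Set.univ (∅ : Set Y))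
    {y₀ : Y} {d : ℕ} (h : AbsDeg m c y₀ d) (y : Y) : AbsDeg m c y d := by
  have hcl : IsClopen {y : Y | AbsDeg m c y d} := by
    constructor
    · rw [← isOpen_compl_iff, isOpen_iff_mem_nhds]
      intro y hy
      obtain ⟨d', hd'⟩ := AbsDeg.exists hY (c := c) (y := y)
        (Z_mono subset_rfl (Set.empty_subset _) hc)
      have hne : d' ≠ d := fun e => hy (e ▸ hd')
      have h1 := AbsDeg.locConst hY isClosed_empty hc (Set.notMem_empty y) hd'
      filter_upwards [h1] with y' hy' h2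
      exact hne (hy'.unique h2)
    · rw [isOpen_iff_mem_nhds]
      intro y hy
      exact AbsDeg.locConst hY isClosed_empty hc (Set.notMem_empty y) hy
  have h2 := hcl.eq_univ ⟨y₀, h⟩
  have h3 : y ∈ {y : Y | AbsDeg m c y d} := by rw [h2]; trivial
  exact h3

/-- A disc `D'` in `E` whose boundary avoids the open part of the side section and which has
constant absolute degree `a` on it gives a cycle `[f] - [h]` of absolute degree `a` in the capped
side. -/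
theorem exists_capMap {n : ℕ} (hn : 1 ≤ n) {M E : Type} [TopologicalSpace M] [TopologicalSpace E]
    [T2Space M] [T2Space E] [CompactSpace M] (hM : LocEuc (n + 1) M) (hE : LocEuc (n + 1) E)
    {p : E → M} (hp : Continuous p) (P : FlatSphere n M)
    {ι : Metric.sphere (0 : EuclideanSpace ℝ (Fin (n + 1))) 1 → M}
    (hι : Topology.IsEmbedding ι) (hS : Set.range ι = P.S)
    (τ : SideSection p P.U P.S) (D' : C(Fin (n + 1) → unitInterval, E)) {a : ℕ}
    (hb : ∀ u ∈ bdry (n + 1), ∀ x : ↥(P.U ∪ P.S), (x : M) ∈ P.U → D' u ≠ τ.σ x)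
    (ha : ∀ x : ↥(P.U ∪ P.S), (x : M) ∈ P.U →
      AbsDeg (n + 1) (Finsupp.single (cubeOf D') 1) (τ.σ x) a) :
    ∃ f h : C(Fin (n + 1) → unitInterval, Cap ι (P.U ∪ P.S)),
      (∀ u ∈ bdry (n + 1), f u = h u) ∧ ∀ y, AbsDeg (n + 1) (diffCh ℤ f h) y a := by
  -- the capped side
  have hX : ∀ s, ι s ∈ P.U ∪ P.S := fun s => Or.inr (hS ▸ Set.mem_range_self s)
  have hL := capL_isClosedEmbedding hι hX
  have hR := capR_isClosedEmbedding hι hX
  have hT2 : T2Space (Cap ι (P.U ∪ P.S)) := cap_t2 hι hX P.isClosed_side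
  have hcon : ConnectedSpace (Cap ι (P.U ∪ P.S)) :=
    cap_connected hX (P.pathConnected_side hM).isConnected
  have hY : LocEuc (n + 1) (Cap ι (P.U ∪ P.S)) := cap_locEuc hM P hι hS
  -- a point of the open side and its charts
  obtain ⟨x₀, hx₀⟩ := P.connU.nonempty
  obtain ⟨ψ, hψ, hψ0, hψU⟩ := exists_openEmbedding hM P.openU hx₀
  have eE := embE hp P τ hψ hψU
  have eC := embC P hι hS hL hR hψ hψU
  set X₀ : ↥(P.U ∪ P.S) := ⟨x₀, Or.inl hx₀⟩ with hX₀
  have e0 : (⟨ψ 0, Or.inl (hψU ⟨0, rfl⟩)⟩ : ↥(P.U ∪ P.S)) = X₀ := Subtype.ext hψ0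
  have yE : τ.σ X₀ ∈ Set.range (fun v => τ.σ ⟨ψ v, Or.inl (hψU ⟨v, rfl⟩)⟩) :=
    ⟨0, congrArg τ.σ e0⟩
  have yC : capL ι (P.U ∪ P.S) X₀ ∈
      Set.range (fun v => capL ι (P.U ∪ P.S) ⟨ψ v, Or.inl (hψU ⟨v, rfl⟩)⟩) :=
    ⟨0, congrArg (capL ι (P.U ∪ P.S)) e0⟩
  have zE : chartOf eE ⟨τ.σ X₀, yE⟩ = 0 := by
    have h := chartOf_apply eE 0 ⟨0, rfl⟩
    have h2 : (⟨τ.σ X₀, yE⟩ : ↥(Set.range (fun v => τ.σ ⟨ψ v, Or.inl (hψU ⟨v, rfl⟩)⟩)))
        = ⟨(fun v => τ.σ ⟨ψ v, Or.inl (hψU ⟨v, rfl⟩)⟩) 0, ⟨0, rfl⟩⟩ :=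
      Subtype.ext (congrArg τ.σ e0.symm)
    rw [h2]
    exact h
  have zC : chartOf eC ⟨capL ι (P.U ∪ P.S) X₀, yC⟩ = 0 := by
    have h := chartOf_apply eC 0 ⟨0, rfl⟩
    have h2 : (⟨capL ι (P.U ∪ P.S) X₀, yC⟩ :
        ↥(Set.range (fun v => capL ι (P.U ∪ P.S) ⟨ψ v, Or.inl (hψU ⟨v, rfl⟩)⟩)))
        = ⟨(fun v => capL ι (P.U ∪ P.S) ⟨ψ v, Or.inl (hψU ⟨v, rfl⟩)⟩) 0, ⟨0, rfl⟩⟩ :=
      Subtype.ext (congrArg (capL ι (P.U ∪ P.S)) e0.symm)
    rw [h2]
    exact h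
  obtain ⟨r, hr, b, hbC, hbQ⟩ := (ha X₀ hx₀).chart eE.isOpen_range (chartOf eE) yE zE
  -- the compact set
  obtain ⟨K₁, hK₁, hbK₁⟩ := exists_compact hbC
  set K : Set E := K₁ ∪ (Set.range D' ∪ Set.range (chartCube (chartOf eE))) with hK
  have hKc : IsCompact K :=
    hK₁.union ((isCompact_range D'.continuous).union
      (isCompact_range (chartCube (chartOf eE)).continuous))
  obtain ⟨κ, hκ1, hκ2⟩ := exists_kappa hp P hι hS hL hR τ hKc
  let j : C(K, E) := ⟨Subtype.val, continuous_subtype_val⟩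
  have jinj : Function.Injective j := Subtype.val_injective
  -- lifts
  have hbK : b ∈ C ℤ (((n + 1 : ℕ) : ℤ) + 1) (Set.range j) := by
    refine C_mono _ ?_ hbK₁
    intro e he
    exact ⟨⟨e, Or.inl he⟩, rfl⟩
  rw [← map_push_C Topology.IsInducing.subtypeVal jinj] at hbK
  obtain ⟨b', hb', hb'b⟩ := hbK
  let D₁ : C(Fin (n + 1) → unitInterval, K) :=
    ⟨fun u => ⟨D' u, Or.inr (Or.inl ⟨u, rfl⟩)⟩, D'.continuous.subtype_mk _⟩
  let L₁ : C(Cb, K) :=
    ⟨fun u => ⟨chartCube (chartOf eE) u, Or.inr (Or.inr ⟨u, rfl⟩)⟩,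
      (chartCube (chartOf eE)).continuous.subtype_mk _⟩
  have hQ : Finsupp.single (cubeOf D₁) (1 : ℤ) - r • Finsupp.single L₁ (1 : ℤ)
      - bd (((n + 1 : ℕ) : ℤ) + 1) b' ∈ Q ℤ ((n + 1 : ℕ) : ℤ) (j ⁻¹' ({τ.σ X₀}ᶜ : Set E)) := by
    rw [← push_mem_Q_iff jinj, map_sub, map_sub, map_smul, ← bd_push]
    have h1 : push j b' = b := hb'b
    rw [h1, push_single, push_single]
    exact hbQ
  -- the map `f` and the map `h`
  set f : C(Fin (n + 1) → unitInterval, Cap ι (P.U ∪ P.S)) := κ.comp D₁ with hf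
  have hfb : ∀ u ∈ bdry (n + 1), f u ∈ Set.range (capR ι (P.U ∪ P.S)) := by
    intro u hu
    refine hκ2 _ fun x hx h => ?_
    exact hb u hu x hx h.symm
  obtain ⟨h, hfh, hh⟩ := exists_ballMap hR f hfb
  refine ⟨f, h, hfh, ?_⟩
  have hcyc : diffCh ℤ f h ∈ Z ℤ ((n + 1 : ℕ) : ℤ) Set.univ (∅ : Set (Cap ι (P.U ∪ P.S))) :=
    diffCh_mem hfh
  refine absDeg_everywhere hY hcyc (y₀ := capL ι _ X₀) ?_
  have hdeg : AbsDeg (n + 1) (Finsupp.single (cubeOf f) (1 : ℤ)) (capL ι (P.U ∪ P.S) X₀) a := by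
    refine ⟨_, eC.isOpen_range, chartOf eC, yC, zC, r, hr, push κ b', ?_, ?_⟩
    · exact push_mem_C (fun _ _ => Set.mem_univ _) hb'
    · have h1 := push_mem_Q (f := κ) (V := ({capL ι (P.U ∪ P.S) X₀}ᶜ : Set _)) (by
        intro e he hmem
        rw [Set.mem_singleton_iff] at hmem
        by_cases hex : ∃ x : ↥(P.U ∪ P.S), (x : M) ∈ P.U ∧ τ.σ x = e
        · obtain ⟨x, _, hx⟩ := hex
          rw [hκ1 e x hx] at hmem
          have h3 := hL.injective hmem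
          exact he (by rw [← h3]; exact hx.symm)
        · have h4 := hκ2 e fun x hx hxe => hex ⟨x, hx, hxe⟩
          rw [hmem] at h4
          exact capL_notMem_range_capR P hι hS hx₀ h4) hQ
      rw [map_sub, map_sub, map_smul, ← bd_push, push_single, push_single] at h1
      have h2 : κ.comp (cubeOf D₁) = cubeOf f := rfl
      have h3 : κ.comp L₁ = chartCube (chartOf eC) := by
        ext u
        exact hκ1 _ ⟨ψ (stdCube (n + 1) u), Or.inl (hψU ⟨_, rfl⟩)⟩ rfl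
      rw [h2, h3] at h1
      exact h1
  have hav : -Finsupp.single (cubeOf h) (1 : ℤ) ∈
      C ℤ ((n + 1 : ℕ) : ℤ) ({capL ι (P.U ∪ P.S) X₀}ᶜ : Set (Cap ι (P.U ∪ P.S))) := by
    refine Submodule.neg_mem _ (mem_C_single ?_ ?_ _)
    · refine ⟨by positivity, ?_⟩
      intro u v huv
      refine congrArg h (funext fun i => huv i ?_)
      simp only [Set.mem_ofPred_eq]
      have := i.2
      omega
    · intro u hu
      rw [Set.mem_singleton_iff] at hu
      have h5 := hh fun i => u i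
      have h6 : cubeOf h u = h fun i => u i := rfl
      rw [← h6, hu] at h5
      exact capL_notMem_range_capR P hι hS hx₀ h5
  have := hdeg.add hav
  rwa [← sub_eq_add_neg] at this

end CubeHom
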