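import Pool.Agent.Lib.MP_cb6a70_gt_HB.ConseqB

/-!
# A pair of cubes with the same boundary as a map of the complement of a flat cube
-/

set_option linter.unusedSectionVars false

namespace CubeHom

/-- A map of the `n`-cube `Fin n → I` as a cube. -/
noncomputable def cubeOf {n : ℕ} {Y : Type*} [TopologicalSpace Y]
    (f : C(Fin n → unitInterval, Y)) : C(Cb, Y) :=
  ⟨fun u => f (fun i => u i), f.continuous.comp (by fun_prop)⟩

/-- The chain `[f] - [h]`. -/
noncomputable def diffCh (R : Type*) [CommRing R] {n : ℕ} {Y : Type*} [TopologicalSpace Y]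
    (f h : C(Fin n → unitInterval, Y)) : Ch R Y :=
  Finsupp.single (cubeOf f) 1 - Finsupp.single (cubeOf h) 1

namespace Cq

variable {R : Type*} [CommRing R] {n : ℕ} {Y : Type*} [TopologicalSpace Y]
  {f h : C(Fin n → unitInterval, Y)}

theorem isCube_cubeOf (f : C(Fin n → unitInterval, Y)) : IsCube (n : ℤ) (cubeOf f) := by
  refine ⟨by omega, fun x y hxy => ?_⟩
  change f (fun i => x i) = f (fun i => y i)
  congr 1
  funext i
  exact hxy i (by simp only [Set.mem_ofPred_eq]; have := i.2; omega)

theorem bit_face (hfh : ∀ u, (∃ i, u i = 0 ∨ u i = 1) → f u = h u) {i : ℕ} (hi : i < n) {e : I}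
    (he : e = 0 ∨ e = 1) : (cubeOf f).comp (ins i e) = (cubeOf h).comp (ins i e) := by
  ext u : 1
  refine hfh _ ⟨⟨i, hi⟩, ?_⟩
  rw [ins_apply_self]
  exact he

theorem diffCh_mem' (hfh : ∀ u, (∃ i, u i = 0 ∨ u i = 1) → f u = h u) :
    diffCh R f h ∈ Z R n Set.univ (∅ : Set Y) := by
  rw [mem_Z_iff]
  constructor
  · exact Submodule.sub_mem _ (mem_C_single (isCube_cubeOf f) (fun _ => Set.mem_univ _) _)
      (mem_C_single (isCube_cubeOf h) (fun _ => Set.mem_univ _) _)
  · have e : bd (n : ℤ) (diffCh R f h) = 0 := by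
      rw [bd_apply]
      refine Finset.sum_eq_zero fun i hi => ?_
      rw [Finset.mem_range, Int.toNat_natCast] at hi
      unfold diffCh
      rw [map_sub, map_sub, face_single, face_single, face_single, face_single,
        bit_face hfh hi (Or.inr rfl), bit_face hfh hi (Or.inl rfl), sub_self, sub_self, sub_self,
        smul_zero]
    rw [e]
    exact Submodule.zero_mem _

/-- The clamping map. -/
noncomputable def cl (x : ℝ) : I := Set.projIcc 0 1 zero_le_one x

theorem continuous_cl : Continuous cl := continuous_projIcc (h := zero_le_one)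

theorem cl_one_le {x : ℝ} (hx : 1 ≤ x) : cl x = 1 := Set.projIcc_of_right_le _ hx

theorem cl_le_zero {x : ℝ} (hx : x ≤ 0) : cl x = 0 := Set.projIcc_of_le_left _ hx

theorem cl_coe (x : I) : cl (x : ℝ) = x := Set.projIcc_val zero_le_one x

/-- The first coordinates, clamped. -/
noncomputable def clI (n : ℕ) (x : Fin (n + 1) → ℝ) : Fin n → I :=
  fun i => cl (x i.castSucc + 1 / 2)

theorem continuous_clI (n : ℕ) : Continuous (clI n) :=
  continuous_pi fun i => continuous_cl.comp (by fun_prop)

open Classical in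
/-- The map of the complement of the flat cube given by two cubes with the same boundary. -/
noncomputable def FT (f h : C(Fin n → unitInterval, Y))
    (hfh : ∀ u, (∃ i, u i = 0 ∨ u i = 1) → f u = h u) : C(T n, Y) where
  toFun x := if (0 : ℝ) ≤ x.1 (Fin.last n) then f (clI n x.1) else h (clI n x.1)
  continuous_toFun := by
    refine Continuous.if_le (f := fun _ : T n => (0 : ℝ))
      (g := fun x : T n => x.1 (Fin.last n)) ?_ ?_ ?_ ?_ ?_
    · exact f.continuous.comp ((continuous_clI n).comp continuous_subtype_val)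
    · exact h.continuous.comp ((continuous_clI n).comp continuous_subtype_val)
    · exact continuous_const
    · exact (continuous_apply _).comp continuous_subtype_val
    · intro x hx
      have hx2 := x.2
      have h1 : ¬ ∀ i : Fin n, x.1 i.castSucc ∈ Set.Icc (-(1 / 2) : ℝ) (1 / 2) :=
        fun h2 => hx2 ⟨hx.symm, h2⟩
      push Not at h1
      obtain ⟨i, hi⟩ := h1
      refine hfh _ ⟨i, ?_⟩
      rw [Set.mem_Icc, not_and_or, not_le, not_le] at hi
      rcases hi with hi | hi
      · left
        exact cl_le_zero (by linarith)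
      · right
        exact cl_one_le (by linarith)

variable (hfh : ∀ u, (∃ i, u i = 0 ∨ u i = 1) → f u = h u)

/-- The stretched cube. -/
noncomputable def strC (f : C(Fin n → unitInterval, Y)) : C(Cb, Y) :=
  ⟨fun u => f (fun i => cl (2 * ((u i : I) : ℝ) - 1 / 2)), f.continuous.comp
    (continuous_pi fun i => continuous_cl.comp (by fun_prop))⟩

theorem FT_last (e : Bool) :
    (FT f h hfh).comp (bcube n (Fin.last n) e) = strC (if e then f else h) := by
  ext u : 1
  change (if (0 : ℝ) ≤ 2 * ((ins ((Fin.last n : Fin (n + 1)) : ℕ) (if e then 1 else 0) u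
      ((Fin.last n : Fin (n + 1)) : ℕ) : I) : ℝ) - 1 then f _ else h _) = _
  rw [ins_apply_self]
  have key : clI n (stdCube (n + 1) (ins ((Fin.last n : Fin (n + 1)) : ℕ)
      (if e then 1 else 0) u)) = fun i : Fin n => cl (2 * ((u i : I) : ℝ) - 1 / 2) := by
    funext i
    change cl (2 * ((ins ((Fin.last n : Fin (n + 1)) : ℕ) (if e then 1 else 0) u
      ((i.castSucc : Fin (n + 1)) : ℕ) : I) : ℝ) - 1 + 1 / 2) = _
    rw [Fin.val_last, Fin.val_castSucc, ins_apply_lt i.2]
    congr 1
    ring
  cases e
  · rw [if_neg (by simp)]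
    change h (clI n (stdCube (n + 1) (ins ((Fin.last n : Fin (n + 1)) : ℕ)
      (if false then 1 else 0) u))) = _
    rw [key]
    rfl
  · rw [if_pos (by simp)]
    change f (clI n (stdCube (n + 1) (ins ((Fin.last n : Fin (n + 1)) : ℕ)
      (if true then 1 else 0) u))) = _
    rw [key]
    rfl

/-- The side faces give degenerate cubes. -/
theorem FT_side (i : Fin n) (e : Bool) :
    Finsupp.single ((FT f h hfh).comp (bcube n i.castSucc e)) (1 : R) ∈ Q R n (∅ : Set Y) := by
  refine mem_Q_single ((isCube_bcube n i.castSucc e).comp _) (Or.inr ⟨n - 1, ?_, ?_⟩) _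
  · have := i.2
    omega
  · have key : ∀ u : Cb, FT f h hfh (bcube n i.castSucc e u) =
        f (clI n (stdCube (n + 1) (ins i (if e then 1 else 0) u))) := by
      intro u
      change (if (0 : ℝ) ≤ _ then f (clI n (stdCube (n + 1) (ins i (if e then 1 else 0) u))) else
        h (clI n (stdCube (n + 1) (ins i (if e then 1 else 0) u)))) = _
      by_cases h1 : (0 : ℝ) ≤ (bcube n i.castSucc e u).1 (Fin.last n)
      · exact if_pos h1
      · refine (if_neg h1).trans ?_
        symm
        refine hfh _ ⟨i, ?_⟩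
        have h2 : clI n (stdCube (n + 1) (ins i (if e then 1 else 0) u)) i =
            cl (2 * (((if e then 1 else 0 : I)) : ℝ) - 1 + 1 / 2) := by
          change cl (2 * ((ins (i : ℕ) (if e then 1 else 0) u (i : ℕ) : I) : ℝ) - 1 + 1 / 2) = _
          rw [ins_apply_self]
        rw [h2]
        cases e
        · left
          exact cl_le_zero (by norm_num)
        · right
          exact cl_one_le (by norm_num)
    intro x y hxy
    change FT f h hfh (bcube n i.castSucc e x) = FT f h hfh (bcube n i.castSucc e y)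
    rw [key, key]
    congr 1
    funext l
    change cl (2 * ((ins (i : ℕ) (if e then 1 else 0) x (l : ℕ) : I) : ℝ) - 1 + 1 / 2) =
      cl (2 * ((ins (i : ℕ) (if e then 1 else 0) y (l : ℕ) : I) : ℝ) - 1 + 1 / 2)
    have h3 : ins (i : ℕ) (if e then 1 else 0) x (l : ℕ) =
        ins (i : ℕ) (if e then 1 else 0) y (l : ℕ) := by
      have hl := l.2
      have hi := i.2
      rcases lt_trichotomy (l : ℕ) (i : ℕ) with h' | h' | h'
      · rw [ins_apply_lt h', ins_apply_lt h']
        exact hxy _ (by simp only [Set.mem_ofPred_eq]; omega)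
      · rw [h', ins_apply_self, ins_apply_self]
      · rw [ins_apply_gt h', ins_apply_gt h']
        exact hxy _ (by simp only [Set.mem_ofPred_eq]; omega)
    rw [h3]

/-- The stretching homotopy. -/
noncomputable def rho (s v : I) : I :=
  cl ((1 - (s : ℝ)) * (v : ℝ) + (s : ℝ) * ((cl (2 * (v : ℝ) - 1 / 2) : I) : ℝ))

theorem continuous_rho : Continuous (fun p : I × I => rho p.1 p.2) := by
  unfold rho
  have h := continuous_cl
  fun_prop

theorem rho_zero (v : I) : rho 0 v = v := by
  unfold rho
  simp [cl_coe]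

theorem rho_one (v : I) : rho 1 v = cl (2 * (v : ℝ) - 1 / 2) := by
  unfold rho
  simp [cl_coe]

theorem rho_ex (s : I) {v : I} (hv : v = 0 ∨ v = 1) : rho s v = 0 ∨ rho s v = 1 := by
  rcases hv with rfl | rfl
  · left
    unfold rho
    rw [cl_le_zero (x := 2 * ((0 : I) : ℝ) - 1 / 2) (by norm_num)]
    simpa using cl_coe 0
  · right
    unfold rho
    rw [cl_one_le (x := 2 * ((1 : I) : ℝ) - 1 / 2) (by norm_num)]
    simpa using cl_coe 1

/-- The homotopy from `f` to the stretched cube. -/
noncomputable def prC (f : C(Fin n → unitInterval, Y)) : C(Cb, Y) :=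
  ⟨fun u => f (fun i => rho (u 0) (u (i + 1))), f.continuous.comp
    (continuous_pi fun i => continuous_rho.comp (f := fun u : Cb => (u 0, u ((i : ℕ) + 1)))
      ((continuous_apply 0).prodMk (continuous_apply ((i : ℕ) + 1))))⟩

theorem isCube_prC (f : C(Fin n → unitInterval, Y)) : IsCube ((n : ℤ) + 1) (prC f) := by
  refine ⟨by omega, fun x y hxy => ?_⟩
  change f (fun i => rho (x 0) (x (i + 1))) = f (fun i => rho (y 0) (y (i + 1)))
  congr 1
  funext i
  rw [hxy 0 (by simp only [Set.mem_ofPred_eq]; push_cast; omega),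
    hxy (i + 1) (by simp only [Set.mem_ofPred_eq]; have := i.2; push_cast; omega)]

theorem prC_zero (f : C(Fin n → unitInterval, Y)) : (prC f).comp (ins 0 0) = cubeOf f := by
  ext u : 1
  change f (fun i => rho (ins 0 0 u 0) (ins 0 0 u (i + 1))) = f (fun i => u i)
  congr 1
  funext i
  rw [ins_apply_self, ins_apply_gt (Nat.succ_pos _), rho_zero]
  rfl

theorem prC_one (f : C(Fin n → unitInterval, Y)) : (prC f).comp (ins 0 1) = strC f := by
  ext u : 1
  change f (fun i => rho (ins 0 1 u 0) (ins 0 1 u (i + 1))) =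
    f (fun i => cl (2 * ((u i : I) : ℝ) - 1 / 2))
  congr 1
  funext i
  rw [ins_apply_self, ins_apply_gt (Nat.succ_pos _), rho_one]
  rfl

theorem prC_succ (hfh : ∀ u, (∃ i, u i = 0 ∨ u i = 1) → f u = h u) {i : ℕ} (hi : i < n) {e : I}
    (he : e = 0 ∨ e = 1) : (prC f).comp (ins (i + 1) e) = (prC h).comp (ins (i + 1) e) := by
  ext u : 1
  refine hfh _ ⟨⟨i, hi⟩, ?_⟩
  refine rho_ex _ ?_
  rw [ins_apply_self]
  exact he

theorem bd_str (hfh : ∀ u, (∃ i, u i = 0 ∨ u i = 1) → f u = h u) :
    Bd R n Set.univ (∅ : Set Y)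
      (Finsupp.single (strC f) 1 - Finsupp.single (strC h) 1 - diffCh R f h) := by
  have e : bd ((n : ℤ) + 1) (Finsupp.single (prC f) 1 - Finsupp.single (prC h) 1 : Ch R Y) =
      Finsupp.single (strC f) 1 - Finsupp.single (strC h) 1 - diffCh R f h := by
    rw [bd_apply, show ((n : ℤ) + 1).toNat = n + 1 by omega, Finset.sum_range_succ',
      Finset.sum_eq_zero, zero_add, pow_zero, one_smul]
    · rw [map_sub, map_sub, face_single, face_single, face_single, face_single, prC_zero,
        prC_zero, prC_one, prC_one]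
      rfl
    · intro i hi
      rw [Finset.mem_range] at hi
      rw [map_sub, map_sub, face_single, face_single, face_single, face_single,
        prC_succ hfh hi (Or.inr rfl), prC_succ hfh hi (Or.inl rfl), sub_self, sub_self, sub_self,
        smul_zero]
  rw [← e]
  refine bd_bd' (Submodule.sub_mem _ ?_ ?_)
  · exact mem_C_single (isCube_prC f) (fun _ => Set.mem_univ _) _
  · exact mem_C_single (isCube_prC h) (fun _ => Set.mem_univ _) _

/-- The image of the boundary of the box. -/
theorem push_FT_zeta : Bd R n Set.univ (∅ : Set Y)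
    (push (FT f h hfh) (zeta R n) - ((-1 : R) ^ n) • diffCh R f h) := by
  refine bd_trans (b := ((-1 : R) ^ n) •
    (Finsupp.single (strC f) 1 - Finsupp.single (strC h) 1)) (bd_of_Q ?_) ?_
  · rw [zeta, map_sum, Fin.sum_univ_castSucc, map_smul, map_sub, push_single, push_single,
      FT_last, FT_last, Fin.val_last, if_pos rfl, if_neg Bool.false_ne_true, add_sub_cancel_right]
    refine Submodule.sum_mem _ fun i _ => ?_
    rw [map_smul, map_sub, push_single, push_single]
    exact Submodule.smul_mem _ _ (Submodule.sub_mem _ (FT_side hfh i true) (FT_side hfh i false))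
  · rw [← smul_sub]
    exact bd_smul _ (bd_str hfh)

end Cq

end CubeHom
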