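import Pool.Agent.Lib.MP_cb6a70_gt_HB.ThmL
import Pool.Agent.Lib.MP_cb6a70_gt_HB.ConseqC

/-!
# Consequences of Theorem L for a space with a locally generating cycle of the form `[f] - [h]`
-/

set_option linter.unusedSectionVars false
set_option linter.unusedVariables false

namespace CubeHom

variable {R : Type*} [CommRing R]

theorem diffCh_mem {n : ℕ} {Y : Type*} [TopologicalSpace Y]
    {f h : C(Fin n → unitInterval, Y)} (hfh : ∀ u, (∃ i, u i = 0 ∨ u i = 1) → f u = h u) :
    diffCh R f h ∈ Z R n Set.univ (∅ : Set Y) :=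
  Cq.diffCh_mem' hfh

namespace Cq

/-- The exchange of the factors. -/
def sw (X Y : Type*) [TopologicalSpace X] [TopologicalSpace Y] : C(X × Y, Y × X) :=
  ⟨Prod.swap, continuous_swap⟩

section local_part

variable {n : ℕ} {Y : Type*} [TopologicalSpace Y] [T2Space Y]

/-- The inverse of the chart. -/
noncomputable def inv {S : Set Y} (φ : S ≃ₜ (Fin n → ℝ)) : C(Fin n → ℝ, Y) :=
  ⟨fun x => (φ.symm x : Y), continuous_subtype_val.comp φ.symm.continuous⟩

theorem locCh_eq {S : Set Y} (φ : S ≃ₜ (Fin n → ℝ)) :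
    locCh R φ = push (inv φ) (stdCh R n) := by
  unfold locCh stdCh
  rw [push_single]
  rfl

/-- The cross product with the chart chain is injective in local homology. -/
theorem cross_local {S : Set Y} (hS : IsOpen S) (φ : S ≃ₜ (Fin n → ℝ)) {y : Y} (hy : y ∈ S)
    (h0 : φ ⟨y, hy⟩ = 0) {k : ℤ} {c : Ch R Y} (hc : c ∈ Z R k Set.univ ({y}ᶜ : Set Y))
    (h : Bd R (n + k) Set.univ ({(y, y)}ᶜ : Set (Y × Y)) (cr n (locCh R φ) c)) :
    Bd R k Set.univ ({y}ᶜ : Set Y) c := by
  let j : C((Fin n → ℝ) × Y, Y × Y) := (inv φ).prodMap (ContinuousMap.id Y)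
  have hinv : Topology.IsOpenEmbedding (inv φ) := by
    have h1 : Topology.IsOpenEmbedding (Subtype.val : S → Y) := hS.isOpenEmbedding_subtypeVal
    exact h1.comp φ.symm.isOpenEmbedding
  have hj : Topology.IsOpenEmbedding j := by
    change Topology.IsOpenEmbedding (Prod.map (inv φ) (id : Y → Y))
    exact hinv.prodMap Topology.IsOpenEmbedding.id
  have e1 : push j (cr n (stdCh R n) c) = cr n (locCh R φ) c := by
    rw [locCh_eq, ← push_cr, push_id]
  have hpt : ∀ x : Fin n → ℝ, inv φ x = y ↔ x = 0 := by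
    intro x
    constructor
    · intro hx
      have h1 : φ.symm x = ⟨y, hy⟩ := Subtype.ext hx
      rw [← φ.apply_symm_apply x, h1, h0]
    · rintro rfl
      change ((φ.symm 0 : S) : Y) = y
      rw [← h0, φ.symm_apply_apply]
  have e2 : j ⁻¹' ({(y, y)}ᶜ : Set (Y × Y)) =
      {p : (Fin n → ℝ) × Y | p.1 ≠ 0 ∨ p.2 ∈ ({y}ᶜ : Set Y)} := by
    ext ⟨x, y'⟩
    change ¬ ((inv φ x, y') = (y, y)) ↔ (x ≠ 0 ∨ ¬ y' = y)
    rw [Prod.mk.injEq, hpt, not_and_or]
  have hopen : IsOpen ({y}ᶜ : Set Y) := isClosed_singleton.isOpen_compl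
  have hb := cross_bij _ _ _ (suspensionN (R := R) n (B := Y) hopen)
  rw [mem_Z_iff] at hc
  refine hb.1 k c hc ?_
  rw [← e2]
  refine excise hj.isInducing hj.injective hj.isOpen_range
    (isClosed_singleton.isOpen_compl) ?_ ?_ (by rw [e1]; exact h)
  · rw [Set.eq_univ_iff_forall]
    rintro ⟨a, b⟩
    by_cases hab : (a, b) = (y, y)
    · left
      rw [Prod.mk.injEq] at hab
      refine ⟨(0, b), ?_⟩
      change (inv φ 0, b) = (a, b)
      rw [(hpt 0).2 rfl, hab.1]
    · right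
      exact hab
  · have h3 := cr_mem_C (stdCh_mem (R := R) n).1 hc.1
    rwa [Set.univ_prod_univ] at h3

/-- A chart centred at the point. -/
theorem exists_chart (hY : LocEuc n Y) (y : Y) :
    ∃ (S : Set Y) (_ : IsOpen S) (hy : y ∈ S) (φ : S ≃ₜ (Fin n → ℝ)), φ ⟨y, hy⟩ = 0 := by
  obtain ⟨S, hS, hy, ⟨φ⟩⟩ := hY y
  refine ⟨S, hS, hy, φ.trans (Homeomorph.addRight (-(φ ⟨y, hy⟩))), ?_⟩
  change φ ⟨y, hy⟩ + -(φ ⟨y, hy⟩) = 0
  exact add_neg_cancel _

theorem inChart_zero {S : Set Y} (φ : S ≃ₜ (Fin n → ℝ)) {y : Y} (hy : y ∈ S)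
    (h0 : φ ⟨y, hy⟩ = 0) : inChart φ {0} = {y} := by
  unfold inChart
  rw [Set.image_singleton, ← h0, φ.symm_apply_apply]

/-- If a multiple of `z × z` vanishes locally at a point of the diagonal, then the multiple is
zero. -/
theorem eq_zero_of_local (hY : LocEuc n Y) {z : Ch R Y} (hz : z ∈ Z R n Set.univ ∅)
    (hgen : LocGen n z) (y : Y) {r : R}
    (h : Bd R (n + n) Set.univ ({(y, y)}ᶜ : Set (Y × Y)) (r • cr n z z)) : r = 0 := by
  obtain ⟨S, hS, hy, φ, h0⟩ := exists_chart hY y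
  have hK := inChart_zero φ hy h0
  have hK1 : ∀ x ∈ ({0} : Set (Fin n → ℝ)), ∀ i, -1 < x i ∧ x i < 1 := by
    rintro x rfl i
    constructor <;> simp
  have hcm := locCh_mem (R := R) φ hK1
  rw [hK] at hcm
  have hz' : z ∈ Z R n Set.univ ({y}ᶜ : Set Y) :=
    Z_mono (Set.Subset.refl _) (Set.empty_subset _) hz
  obtain ⟨s, hs⟩ := loc_gen (R := R) hS φ (isCompact_singleton) (convex_singleton 0)
    (Set.singleton_nonempty 0) hK1 (w := z) (by rw [hK]; exact hz')
  rw [hK] at hs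
  obtain ⟨r', hr'⟩ := hgen y (locCh R φ) hcm
  -- `r' * s = 1`
  have hunit : 1 - r' * s = 0 := by
    refine loc_free (R := R) hS φ (isCompact_singleton) (convex_singleton 0)
      (Set.singleton_nonempty 0) hK1 ?_
    rw [hK]
    have h1 := bd_add hr' (bd_smul r' hs)
    convert h1 using 1
    rw [sub_smul, one_smul, smul_sub, smul_smul]
    abel
  have hA : (Set.univ : Set Y) ×ˢ ({y}ᶜ : Set Y) ⊆ ({(y, y)}ᶜ : Set (Y × Y)) := by
    rintro ⟨a, b⟩ ⟨-, hb⟩ hab
    rw [Set.mem_singleton_iff, Prod.mk.injEq] at hab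
    exact hb hab.2
  have hA' : ({y}ᶜ : Set Y) ×ˢ (Set.univ : Set Y) ⊆ ({(y, y)}ᶜ : Set (Y × Y)) := by
    rintro ⟨a, b⟩ ⟨ha, -⟩ hab
    rw [Set.mem_singleton_iff, Prod.mk.injEq] at hab
    exact ha hab.1
  -- replace the first factor
  have h2 : Bd R (n + n) Set.univ ({(y, y)}ᶜ : Set (Y × Y))
      (cr n (locCh R φ) ((r * s) • z)) := by
    have h3 := cr_bd_left (A' := ({(y, y)}ᶜ : Set (Y × Y))) hs hz hA'
      (by rw [Set.prod_empty]; exact Set.empty_subset _)
    rw [map_sub, LinearMap.sub_apply, map_smul, LinearMap.smul_apply] at h3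
    have h4 := bd_sub h (bd_smul r h3)
    convert h4 using 1
    rw [map_smul, smul_sub, smul_smul]
    abel
  have h5 := cross_local hS φ hy h0 (Submodule.smul_mem _ (r * s) hz') h2
  have h6 : r * s * s = 0 := by
    refine loc_free (R := R) hS φ (isCompact_singleton) (convex_singleton 0)
      (Set.singleton_nonempty 0) hK1 ?_
    rw [hK]
    have h7 := bd_sub h5 (bd_smul (r * s) hs)
    convert h7 using 1
    rw [smul_sub, smul_smul]
    abel
  have h8 : r' * s = 1 := (sub_eq_zero.mp hunit).symm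
  calc r = r * (r' * s) * (r' * s) := by rw [h8, mul_one, mul_one]
    _ = r * s * s * (r' * r') := by ring
    _ = 0 := by rw [h6, zero_mul]

end local_part

section main

variable {n : ℕ} {Y : Type*} [TopologicalSpace Y] [T2Space Y] [CompactSpace Y]
  {f h : C(Fin n → unitInterval, Y)}

theorem swap_mapsTo (g : C(T n, Y)) :
    Set.MapsTo ((g.prodMap (ContinuousMap.id Y)).comp (sw Y (T n)))
      {p : Y × T n | p.1 ≠ g p.2} {p : Y × Y | p.1 ≠ ContinuousMap.id Y p.2} := by
  rintro ⟨y, t⟩ hyt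
  exact fun h => hyt h.symm

/-- The cross product `z × c` comes from the complement of the flat cube. -/
theorem key_step (hY : LocEuc n Y) (hfh : ∀ u, (∃ i, u i = 0 ∨ u i = 1) → f u = h u)
    (hgen : LocGen n (diffCh R f h)) {k : ℤ} {c : Ch R Y} (hc : c ∈ Z R k Set.univ ∅) :
    ∃ c' ∈ Z R k (Set.univ : Set (T n)) ∅,
      Bd R (n + k) Set.univ {p : Y × Y | p.1 ≠ ContinuousMap.id Y p.2}
        (cr n (diffCh R f h) c - ((-1 : R) ^ n) •
          push (((FT f h hfh).prodMap (ContinuousMap.id Y)).comp (sw Y (T n)))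
            (cr n (diffCh R f h) c')) := by
  have hz : diffCh R f h ∈ Z R n Set.univ (∅ : Set Y) := diffCh_mem hfh
  have e3 : ((-1 : R) ^ n) * ((-1 : R) ^ n) = 1 := by
    rw [← mul_pow]; simp
  have h1 : Bd R n Set.univ (∅ : Set Y)
      (diffCh R f h - ((-1 : R) ^ n) • push (FT f h hfh) (zeta R n)) := by
    have h2 := bd_smul (-((-1 : R) ^ n)) (push_FT_zeta (R := R) hfh)
    convert h2 using 1
    rw [smul_sub, smul_smul, neg_mul, e3]
    rw [neg_smul, neg_smul, one_smul]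
    abel
  have h2 := cr_bd_left (A' := {p : Y × Y | p.1 ≠ ContinuousMap.id Y p.2}) h1 hc
    (by rw [Set.empty_prod]; exact Set.empty_subset _)
    (by rw [Set.prod_empty]; exact Set.empty_subset _)
  rw [map_sub, LinearMap.sub_apply, map_smul, LinearMap.smul_apply] at h2
  have e4 : cr n (push (FT f h hfh) (zeta R n)) c =
      push ((FT f h hfh).prodMap (ContinuousMap.id Y)) (cr n (zeta R n) c) := by
    rw [← push_cr, push_id]
  rw [e4] at h2
  -- surjectivity over the complement of the flat cube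
  have hw0 : cr n (zeta R n) c ∈ Z R (n + k) Set.univ (∅ : Set (T n × Y)) :=
    cr_mem_Z (zeta_mem n) hc (by rw [Set.empty_prod]) (by rw [Set.prod_empty])
  have hw : push (sw (T n) Y) (cr n (zeta R n) c) ∈
      Z R (n + k) Set.univ {p : Y × T n | p.1 ≠ FT f h hfh p.2} :=
    push_mem_Z (fun _ _ => Set.mem_univ _) (fun _ h => h.elim) hw0
  have hL := cross_bij _ _ _ (thmL hY hz hgen (FT f h hfh))
  obtain ⟨c', hc', hb⟩ := hL.2 k _ hw
  refine ⟨c', hc', ?_⟩
  have h5 := bd_push' (V := Set.univ) (fun _ _ => Set.mem_univ _) (swap_mapsTo (FT f h hfh)) hb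
  rw [map_sub, push_push] at h5
  have e5 : (((FT f h hfh).prodMap (ContinuousMap.id Y)).comp (sw Y (T n))).comp (sw (T n) Y) =
      (FT f h hfh).prodMap (ContinuousMap.id Y) := by
    ext p : 1
    rfl
  rw [e5] at h5
  refine bd_trans h2 ?_
  rw [← smul_sub]
  exact bd_smul _ h5

/-- Injectivity over the space itself. -/
theorem inj_id (hY : LocEuc n Y) (hfh : ∀ u, (∃ i, u i = 0 ∨ u i = 1) → f u = h u)
    (hgen : LocGen n (diffCh R f h)) {k : ℤ} {c : Ch R Y} (hc : c ∈ Z R k Set.univ ∅)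
    (hb : Bd R (n + k) Set.univ {p : Y × Y | p.1 ≠ ContinuousMap.id Y p.2}
      (cr n (diffCh R f h) c)) : Bd R k Set.univ ∅ c :=
  (cross_bij _ _ _ (thmL hY (diffCh_mem hfh) hgen (ContinuousMap.id Y))).1 k c hc hb

end main

end Cq

open Cq

/-- If `[f] - [h]` generates the local homology everywhere, the homology of `Y` vanishes in the
positive degrees different from `n`. -/
theorem vanish_of_locGen {n : ℕ} (hn : 1 ≤ n) {Y : Type*} [TopologicalSpace Y] [T2Space Y]
    [CompactSpace Y] (hY : LocEuc n Y) {f h : C(Fin n → unitInterval, Y)}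
    (hfh : ∀ u, (∃ i, u i = 0 ∨ u i = 1) → f u = h u) (hgen : LocGen n (diffCh R f h))
    {k : ℤ} (hk : 1 ≤ k) (hkn : k ≠ n) {c : Ch R Y} (hc : c ∈ Z R k Set.univ ∅) :
    Bd R k Set.univ ∅ c := by
  obtain ⟨c', hc', h1⟩ := key_step hY hfh hgen hc
  refine inj_id hY hfh hgen hc (bd_of_sub h1 (bd_smul _ ?_))
  have h2 := cr_bd_right (A' := {p : Y × T n | p.1 ≠ FT f h hfh p.2}) (diffCh_mem (R := R) hfh)
    (T_vanish hk hkn hc') (by rw [Set.empty_prod]; exact Set.empty_subset _)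
    (by rw [Set.prod_empty]; exact Set.empty_subset _)
  exact bd_push' (fun _ _ => Set.mem_univ _) (swap_mapsTo _) h2

/-- In degree `n` a class which vanishes locally at one point vanishes. -/
theorem inj_of_locGen {n : ℕ} (hn : 1 ≤ n) {Y : Type*} [TopologicalSpace Y] [T2Space Y]
    [CompactSpace Y] (hY : LocEuc n Y) {f h : C(Fin n → unitInterval, Y)}
    (hfh : ∀ u, (∃ i, u i = 0 ∨ u i = 1) → f u = h u) (hgen : LocGen n (diffCh R f h))
    {c : Ch R Y} (hc : c ∈ Z R n Set.univ ∅) {y : Y} (hy : Bd R n Set.univ {y}ᶜ c) :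
    Bd R n Set.univ ∅ c := by
  have hz : diffCh R f h ∈ Z R n Set.univ (∅ : Set Y) := diffCh_mem hfh
  have e3 : ((-1 : R) ^ n) * ((-1 : R) ^ n) = 1 := by
    rw [← mul_pow]; simp
  obtain ⟨c', hc', h1⟩ := key_step hY hfh hgen hc
  obtain ⟨r, hr⟩ := T_gen hn hc'
  -- `z × c ~ r (z × z)` up to the exchange of the factors
  have h2 := cr_bd_right (A' := (∅ : Set (Y × T n))) (diffCh_mem (R := R) hfh) hr
    (by rw [Set.empty_prod]) (by rw [Set.prod_empty])
  have h3 := bd_push' (V := Set.univ) (A' := {p : Y × Y | p.1 ≠ ContinuousMap.id Y p.2})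
    (f := ((FT f h hfh).prodMap (ContinuousMap.id Y)).comp (sw Y (T n)))
    (fun _ _ => Set.mem_univ _) (fun _ h => h.elim) h2
  rw [map_sub, map_smul, map_sub, map_smul] at h3
  have e5 : ((FT f h hfh).prodMap (ContinuousMap.id Y)).comp (sw Y (T n)) =
      (sw Y Y).comp ((ContinuousMap.id Y).prodMap (FT f h hfh)) := by
    ext p : 1
    rfl
  have e6 : push (((FT f h hfh).prodMap (ContinuousMap.id Y)).comp (sw Y (T n)))
      (cr n (diffCh R f h) (zeta R n)) =
      push (sw Y Y) (cr n (diffCh R f h) (push (FT f h hfh) (zeta R n))) := by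
    rw [e5, ← push_push, ← push_cr, push_id]
  have h4 := cr_bd_right (A' := (∅ : Set (Y × Y))) (diffCh_mem (R := R) hfh)
    (push_FT_zeta (R := R) hfh) (by rw [Set.empty_prod]) (by rw [Set.prod_empty])
  have h5 := bd_push' (V := Set.univ) (A' := {p : Y × Y | p.1 ≠ ContinuousMap.id Y p.2})
    (f := sw Y Y) (fun _ _ => Set.mem_univ _) (fun _ h => h.elim) h4
  rw [map_sub, map_smul, map_sub, map_smul] at h5
  rw [e6] at h3
  have h6 : Bd R (n + n) Set.univ {p : Y × Y | p.1 ≠ ContinuousMap.id Y p.2}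
      (cr n (diffCh R f h) c - r • push (sw Y Y) (cr n (diffCh R f h) (diffCh R f h))) := by
    refine bd_trans h1 ?_
    have h7 := bd_smul ((-1 : R) ^ n) (bd_add h3 (bd_smul r h5))
    convert h7 using 1
    rw [smul_add, smul_sub, smul_sub, smul_sub, smul_smul, smul_smul, smul_smul]
    have e7 : (-1 : R) ^ n * r * (-1) ^ n = r := by
      rw [mul_right_comm, e3, one_mul]
    rw [e7]
    abel
  have hr0 : r = 0 := by
    refine eq_zero_of_local hY hz hgen y ?_
    have hA : (Set.univ : Set Y) ×ˢ ({y}ᶜ : Set Y) ⊆ ({(y, y)}ᶜ : Set (Y × Y)) := by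
      rintro ⟨a, b⟩ ⟨-, hb⟩ hab
      rw [Set.mem_singleton_iff, Prod.mk.injEq] at hab
      exact hb hab.2
    have h8 := cr_bd_right (A' := ({(y, y)}ᶜ : Set (Y × Y))) hz hy
      (by rw [Set.empty_prod]; exact Set.empty_subset _) hA
    have h9 : Bd R (n + n) Set.univ ({(y, y)}ᶜ : Set (Y × Y))
        (cr n (diffCh R f h) c - r • push (sw Y Y) (cr n (diffCh R f h) (diffCh R f h))) := by
      refine bd_mono (Set.Subset.refl _) ?_ h6
      rintro ⟨a, b⟩ hab hab'
      rw [Set.mem_singleton_iff, Prod.mk.injEq] at hab'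
      apply hab
      change a = b
      rw [hab'.1, hab'.2]
    have h10 := bd_push' (V := Set.univ) (A' := ({(y, y)}ᶜ : Set (Y × Y)))
      (f := sw Y Y) (fun _ _ => Set.mem_univ _) (by
        rintro ⟨a, b⟩ hab hab'
        rw [Set.mem_singleton_iff] at hab'
        apply hab
        change (b, a) = (y, y) at hab'
        rw [Prod.mk.injEq] at hab'
        rw [Set.mem_singleton_iff, hab'.1, hab'.2]) (bd_sub h8 h9)
    rw [sub_sub_cancel, map_smul, push_push] at h10
    have e8 : (sw Y Y).comp (sw Y Y) = ContinuousMap.id (Y × Y) := by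
      ext p : 1
      rfl
    rwa [e8, push_id] at h10
  rw [hr0, zero_smul, sub_zero] at h6
  exact inj_id hY hfh hgen hc h6

end CubeHom
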