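import Pool.Agent.Lib.MP_cb6a70_gt_HB.CubeSys

/-!
# Calculus of relative boundaries, for the consequences of Theorem L
-/

set_option linter.unusedSectionVars false

namespace CubeHom

namespace Cq

variable {R : Type*} [CommRing R]
variable {X Y B X₀ : Type*} [TopologicalSpace X] [TopologicalSpace Y] [TopologicalSpace B]
  [TopologicalSpace X₀]

section calculus

variable {k : ℤ} {U V : Set X} {A A' : Set X} {c c' : Ch R X}

theorem bd_of_Q (h : c ∈ Q R k A) : Bd R k U A c :=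
  ⟨0, Submodule.zero_mem _, by rwa [map_zero, sub_zero]⟩

theorem bd_zero : Bd R k U A (0 : Ch R X) := bd_of_Q (Submodule.zero_mem _)

theorem bd_add (h : Bd R k U A c) (h' : Bd R k U A c') : Bd R k U A (c + c') := by
  obtain ⟨b, hb, hq⟩ := h
  obtain ⟨b', hb', hq'⟩ := h'
  refine ⟨b + b', Submodule.add_mem _ hb hb', ?_⟩
  have := Submodule.add_mem _ hq hq'
  rw [map_add]
  convert this using 1
  abel

theorem bd_smul (r : R) (h : Bd R k U A c) : Bd R k U A (r • c) := by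
  obtain ⟨b, hb, hq⟩ := h
  refine ⟨r • b, Submodule.smul_mem _ _ hb, ?_⟩
  rw [map_smul, ← smul_sub]
  exact Submodule.smul_mem _ _ hq

theorem bd_neg (h : Bd R k U A c) : Bd R k U A (-c) := by
  have := bd_smul (-1 : R) h
  rwa [neg_one_smul] at this

theorem bd_sub (h : Bd R k U A c) (h' : Bd R k U A c') : Bd R k U A (c - c') := by
  rw [sub_eq_add_neg]
  exact bd_add h (bd_neg h')

theorem bd_trans {a b c : Ch R X} (h : Bd R k U A (a - b)) (h' : Bd R k U A (b - c)) :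
    Bd R k U A (a - c) := by
  have := bd_add h h'
  rwa [sub_add_sub_cancel] at this

theorem bd_symm {a b : Ch R X} (h : Bd R k U A (a - b)) : Bd R k U A (b - a) := by
  have := bd_neg h
  rwa [neg_sub] at this

/-- If `a ~ b` and `b` bounds then `a` bounds. -/
theorem bd_of_sub {a b : Ch R X} (h : Bd R k U A (a - b)) (h' : Bd R k U A b) :
    Bd R k U A a := by
  have := bd_add h h'
  rwa [sub_add_cancel] at this

theorem bd_mono (hU : U ⊆ V) (hA : A ⊆ A') (h : Bd R k U A c) : Bd R k V A' c := by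
  obtain ⟨b, hb, hq⟩ := h
  exact ⟨b, C_mono _ hU hb, Q_mono _ hA hq⟩

theorem bd_bd' {b : Ch R X} (hb : b ∈ C R (k + 1) U) : Bd R k U A (bd (k + 1) b) :=
  ⟨b, hb, by rw [sub_self]; exact Submodule.zero_mem _⟩

theorem bd_push' {f : C(X, Y)} {V : Set Y} {A' : Set Y} (hU : Set.MapsTo f U V)
    (hA : Set.MapsTo f A A') (h : Bd R k U A c) : Bd R k V A' (push f c) := by
  obtain ⟨b, hb, hq⟩ := h
  refine ⟨push f b, push_mem_C hU hb, ?_⟩
  rw [bd_push, ← map_sub]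
  exact push_mem_Q hA hq

theorem mem_Z_iff : c ∈ Z R k U A ↔ c ∈ C R k U ∧ bd k c ∈ Q R (k - 1) A := Iff.rfl

theorem push_mem_Z {f : C(X, Y)} {V : Set Y} {A' : Set Y} (hU : Set.MapsTo f U V)
    (hA : Set.MapsTo f A A') (h : c ∈ Z R k U A) : push f c ∈ Z R k V A' := by
  rw [mem_Z_iff] at h ⊢
  exact ⟨push_mem_C hU h.1, by rw [bd_push]; exact push_mem_Q hA h.2⟩

theorem Z_mono (hU : U ⊆ V) (hA : A ⊆ A') (h : c ∈ Z R k U A) : c ∈ Z R k V A' := by
  rw [mem_Z_iff] at h ⊢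
  exact ⟨C_mono _ hU h.1, Q_mono _ hA h.2⟩

/-- Zero chains are sums of chains in `A` and degenerate chains. -/
theorem Q_le_sup (k : ℤ) (A : Set X) : Q R k A ≤ C R k A ⊔ Q R k ∅ := by
  unfold C Q
  rw [← Finsupp.supported_union]
  refine Finsupp.supported_mono ?_
  rintro σ ⟨h1, h2 | h2⟩
  · exact Or.inl ⟨h1, h2⟩
  · exact Or.inr ⟨h1, Or.inr h2⟩

end calculus

section cross

/-- The cross product of a boundary with a cycle is a boundary. -/
theorem cr_bd_left {n : ℕ} {k : ℤ} {A : Set Y} {A₂ : Set B} {A' : Set (Y × B)} {z : Ch R Y}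
    {c : Ch R B} (hz : Bd R n Set.univ A z) (hc : c ∈ Z R k Set.univ A₂)
    (h1 : A ×ˢ Set.univ ⊆ A') (h2 : Set.univ ×ˢ A₂ ⊆ A') :
    Bd R (n + k) Set.univ A' (cr n z c) := by
  obtain ⟨b, hb, hq⟩ := hz
  rw [mem_Z_iff] at hc
  have hb' : b ∈ C R ((n + 1 : ℕ) : ℤ) (Set.univ : Set Y) := by
    push_cast
    exact hb
  have e1 := bd_cr hb' hc.1
  rw [Nat.add_sub_cancel] at e1
  have e2 : (((n + 1 : ℕ) : ℤ) + k) = (n : ℤ) + k + 1 := by push_cast; ring
  have e3 : (((n + 1 : ℕ) : ℤ)) = (n : ℤ) + 1 := by push_cast; ring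
  rw [e2, e3] at e1
  have h3 := cr_mem_C hb' hc.1
  rw [e2, Set.univ_prod_univ] at h3
  refine ⟨cr (n + 1) b c, h3, ?_⟩
  rw [e1]
  have h4 := cr_mem_Q_left hq hc.1
  rw [map_sub, LinearMap.sub_apply] at h4
  have h5 := cr_mem_Q_right hb' hc.2
  have e4 : (((n + 1 : ℕ) : ℤ) + (k - 1)) = (n : ℤ) + k := by push_cast; ring
  rw [e4] at h5
  have h6 := Submodule.sub_mem _ (Q_mono _ h1 h4)
    (Submodule.smul_mem _ ((-1 : R) ^ (n + 1)) (Q_mono _ h2 h5))
  rwa [sub_sub] at h6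

theorem cr_bdz_mem {n : ℕ} {k : ℤ} {A : Set Y} {A' : Set (Y × B)} {z : Ch R Y}
    {b : Ch R B} (hz : bd (n : ℤ) z ∈ Q R ((n : ℤ) - 1) A) (hb : b ∈ C R k Set.univ)
    (h1 : A ×ˢ Set.univ ⊆ A') :
    cr (n - 1) (bd (n : ℤ) z) b ∈ Q R ((n : ℤ) + (k - 1)) A' := by
  rcases Nat.eq_zero_or_pos n with h0 | h0
  · subst h0
    rw [bd_of_nonpos (by simp)]
    simp
  · obtain ⟨m, rfl⟩ : ∃ m, n = m + 1 := ⟨n - 1, by omega⟩
    have h3 : bd ((m + 1 : ℕ) : ℤ) z ∈ Q R (m : ℤ) A := by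
      have h4 : (((m + 1 : ℕ) : ℤ) - 1) = (m : ℤ) := by push_cast; ring
      rwa [h4] at hz
    have h5 := cr_mem_Q_left h3 hb
    have h6 : (((m + 1 : ℕ) : ℤ) + (k - 1)) = (m : ℤ) + k := by push_cast; ring
    rw [h6]
    exact Q_mono _ h1 h5

/-- The cross product of a cycle with a boundary is a boundary. -/
theorem cr_bd_right {n : ℕ} {k : ℤ} {A : Set Y} {A₂ : Set B} {A' : Set (Y × B)} {z : Ch R Y}
    {c : Ch R B} (hz : z ∈ Z R n Set.univ A) (hc : Bd R k Set.univ A₂ c)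
    (h1 : A ×ˢ Set.univ ⊆ A') (h2 : Set.univ ×ˢ A₂ ⊆ A') :
    Bd R (n + k) Set.univ A' (cr n z c) := by
  obtain ⟨b, hb, hq⟩ := hc
  rw [mem_Z_iff] at hz
  have e1 := bd_cr hz.1 hb
  have e2 : (n : ℤ) + (k + 1) = (n : ℤ) + k + 1 := by ring
  rw [e2] at e1
  have h3 := cr_mem_C hz.1 hb
  rw [e2, Set.univ_prod_univ] at h3
  refine ⟨((-1 : R) ^ n) • cr n z b, Submodule.smul_mem _ _ h3, ?_⟩
  have e3 : ((-1 : R) ^ n) * ((-1 : R) ^ n) = 1 := by
    rw [← mul_pow]; simp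
  rw [map_smul, e1, smul_add, smul_smul, e3, one_smul]
  have h4 := cr_mem_Q_right hz.1 hq
  rw [map_sub] at h4
  have h5 := cr_bdz_mem hz.2 hb h1
  rw [add_sub_cancel_right] at h5
  have h6 := Submodule.sub_mem _ (Q_mono _ h2 h4) (Submodule.smul_mem _ ((-1 : R) ^ n) h5)
  convert h6 using 1
  abel

/-- The cross product of cycles is a cycle. -/
theorem cr_mem_Z {n : ℕ} {k : ℤ} {A : Set Y} {A₂ : Set B} {A' : Set (Y × B)} {z : Ch R Y}
    {c : Ch R B} (hz : z ∈ Z R n Set.univ A) (hc : c ∈ Z R k Set.univ A₂)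
    (h1 : A ×ˢ Set.univ ⊆ A') (h2 : Set.univ ×ˢ A₂ ⊆ A') :
    cr n z c ∈ Z R (n + k) Set.univ A' := by
  rw [mem_Z_iff] at hz hc ⊢
  have h3 := cr_mem_C hz.1 hc.1
  rw [Set.univ_prod_univ] at h3
  refine ⟨h3, ?_⟩
  rw [bd_cr hz.1 hc.1, add_sub_assoc]
  refine Submodule.add_mem _ (cr_bdz_mem hz.2 hc.1 h1) (Submodule.smul_mem _ _ ?_)
  exact Q_mono _ h2 (cr_mem_Q_right hz.1 hc.2)

end cross

section bij

variable {n : ℕ} {V' : Set Y} {A : Set B} {A' : Set (Y × B)} {z : Ch R Y}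

/-- Unfolding of the acyclicity of the cone of a cross product. -/
theorem cross_bij (hz : z ∈ Z R n Set.univ V') (hA : Set.univ ×ˢ A ⊆ A')
    (hV : V' ×ˢ Set.univ ⊆ A')
    (h : (Sys.cone (crossHom (R := R) (n := n) (Y := Y) (V' := V') (A := A) (A' := A') z hz
      hA hV)).Acyc Set.univ) :
    (∀ k, ∀ c ∈ Z R k (Set.univ : Set B) A, Bd R (n + k) Set.univ A' (cr n z c) →
      Bd R k Set.univ A c) ∧
    (∀ k : ℤ, ∀ w ∈ Z R (n + k) (Set.univ : Set (Y × B)) A',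
      ∃ c ∈ Z R k (Set.univ : Set B) A, Bd R (n + k) Set.univ A' (w - cr n z c)) := by
  have e3 : ((-1 : R) ^ n) * ((-1 : R) ^ n) = 1 := by
    rw [← mul_pow]; simp
  rw [Sys.cone_acyc_iff_bij] at h
  obtain ⟨h1, h2⟩ := h
  constructor
  · intro k c hc hb
    rw [mem_Z_iff] at hc
    obtain ⟨b, hb, hq⟩ := hb
    obtain ⟨b', hb', hq'⟩ := h1 k c (show c ∈ C R (((0 : ℕ) : ℤ) + k) (Set.univ : Set B) by
        rw [Nat.cast_zero, zero_add]; exact hc.1) (show (((-1 : R) ^ 0) • bd (((0 : ℕ) : ℤ) + k) :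
          Ch R B →ₗ[R] Ch R B) c ∈ Q R (((0 : ℕ) : ℤ) + (k - 1)) A by
        rw [Nat.cast_zero, zero_add, zero_add, pow_zero, one_smul]; exact hc.2)
      ⟨((-1 : R) ^ n) • b, Submodule.smul_mem _ _ (show b ∈ C R ((n : ℤ) + (k + 1))
          (Set.univ : Set (Y × B)) by rw [← add_assoc]; exact hb),
        show cr n z c - (((-1 : R) ^ n) • bd ((n : ℤ) + (k + 1)) :
          Ch R (Y × B) →ₗ[R] Ch R (Y × B)) (((-1 : R) ^ n) • b) ∈ Q R ((n : ℤ) + k) A' by
          rw [LinearMap.smul_apply, map_smul, smul_smul, e3, one_smul, ← add_assoc]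
          exact hq⟩
    have hb2 : b' ∈ C R (((0 : ℕ) : ℤ) + (k + 1)) (Set.univ : Set B) := hb'
    have hq2 : c - (((-1 : R) ^ 0) • bd (((0 : ℕ) : ℤ) + (k + 1)) :
          Ch R B →ₗ[R] Ch R B) b' ∈ Q R (((0 : ℕ) : ℤ) + k) A := hq'
    rw [Nat.cast_zero, zero_add] at hb2
    rw [Nat.cast_zero, zero_add, zero_add, pow_zero, one_smul] at hq2
    exact ⟨b', hb2, hq2⟩
  · intro k w hw
    rw [mem_Z_iff] at hw
    obtain ⟨c, hc, hdc, x, hx, hq⟩ := h2 k w hw.1 (show (((-1 : R) ^ n) • bd ((n : ℤ) + k) :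
          Ch R (Y × B) →ₗ[R] Ch R (Y × B)) w ∈ Q R ((n : ℤ) + (k - 1)) A' by
        rw [LinearMap.smul_apply]
        refine Submodule.smul_mem _ _ ?_
        have := hw.2
        rwa [add_sub_assoc] at this)
    have hc2 : c ∈ C R (((0 : ℕ) : ℤ) + k) (Set.univ : Set B) := hc
    have hdc2 : (((-1 : R) ^ 0) • bd (((0 : ℕ) : ℤ) + k) :
          Ch R B →ₗ[R] Ch R B) c ∈ Q R (((0 : ℕ) : ℤ) + (k - 1)) A := hdc
    have hx2 : x ∈ C R ((n : ℤ) + (k + 1)) (Set.univ : Set (Y × B)) := hx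
    have hq2 : w - cr n z c - (((-1 : R) ^ n) • bd ((n : ℤ) + (k + 1)) :
          Ch R (Y × B) →ₗ[R] Ch R (Y × B)) x ∈ Q R ((n : ℤ) + k) A' := hq
    rw [Nat.cast_zero, zero_add] at hc2
    rw [Nat.cast_zero, zero_add, zero_add, pow_zero, one_smul] at hdc2
    rw [← add_assoc] at hx2
    rw [← add_assoc, LinearMap.smul_apply] at hq2
    refine ⟨c, ⟨hc2, hdc2⟩, ((-1 : R) ^ n) • x, Submodule.smul_mem _ _ hx2, ?_⟩
    rw [map_smul]
    exact hq2

end bij

section excision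

/-- Excision: a chain of an open subspace which bounds modulo an open set `V` bounds there. -/
theorem excise {j : C(X₀, X)} (hj : Topology.IsInducing j) (hj' : Function.Injective j)
    (hU : IsOpen (Set.range j)) {V : Set X} (hV : IsOpen V) (hUV : Set.range j ∪ V = Set.univ)
    {k : ℤ} {c : Ch R X₀} (hc : c ∈ C R k Set.univ) (h : Bd R k Set.univ V (push j c)) :
    Bd R k Set.univ (j ⁻¹' V) c := by
  obtain ⟨b, hb, hq⟩ := h
  have hcU : push j c ∈ C R k (Set.range j) := by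
    rw [← map_push_C hj hj']
    exact ⟨c, hc, rfl⟩
  have hd : bd (k + 1) b ∈ C R (k + 1 - 1) (Set.range j ∩ Set.univ) ⊔
      C R (k + 1 - 1) (V ∩ Set.univ) ⊔ Q R (k + 1 - 1) V := by
    rw [add_sub_cancel_right, Set.inter_univ, Set.inter_univ]
    have e1 : bd (k + 1) b = push j c - (push j c - bd (k + 1) b) := by abel
    rw [e1]
    exact Submodule.sub_mem _ (Submodule.mem_sup_left (Submodule.mem_sup_left hcU))
      (Submodule.mem_sup_right hq)
  obtain ⟨b', hb', hs⟩ := small_cubes hU hV hUV.symm.subset hb hd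
  rw [Set.inter_univ, Set.inter_univ] at hs
  obtain ⟨y, hy, q, hqQ, hyq⟩ := Submodule.mem_sup.mp hs
  obtain ⟨a, ha, a', ha', rfl⟩ := Submodule.mem_sup.mp hy
  have hdd : bd (k + 1) (bd (k + 1 + 1) b') = 0 := by
    have := bd_bd (k + 1 + 1) b'
    rwa [add_sub_cancel_right] at this
  have e2 : bd (k + 1) b = bd (k + 1) a + bd (k + 1) a' + bd (k + 1) q := by
    have e3 : b = bd (k + 1 + 1) b' + (a + a' + q) := by rw [hyq]; abel
    rw [e3, map_add, hdd, zero_add, map_add, map_add]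
  rw [← map_push_C hj hj'] at ha
  obtain ⟨a₀, ha₀, rfl⟩ := ha
  refine ⟨a₀, ha₀, ?_⟩
  rw [← push_mem_Q_iff hj', map_sub, ← bd_push]
  have e4 : push j c - bd (k + 1) (push j a₀) =
      push j c - bd (k + 1) b + (bd (k + 1) a' + bd (k + 1) q) := by rw [e2]; abel
  rw [e4]
  have h1 := bd_mem_C ha'
  have h2 := bd_mem_Q hqQ
  rw [add_sub_cancel_right] at h1 h2
  exact Submodule.add_mem _ hq (Submodule.add_mem _ (C_le_Q _ _ h1) h2)

end excision

section connecting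

variable {j : C(X₀, X)} {k : ℤ}

/-- `ε` represents the image of the relative class of `e` under the connecting homomorphism. -/
def Con (j : C(X₀, X)) (k : ℤ) (e : Ch R X) (ε : Ch R X₀) : Prop :=
  e ∈ Z R (k + 1) Set.univ (Set.range j) ∧ ε ∈ Z R k Set.univ ∅ ∧
    bd (k + 1) e - push j ε ∈ Q R k ∅

theorem Con.sub {e e' : Ch R X} {ε ε' : Ch R X₀} (h : Con j k e ε) (h' : Con j k e' ε') :
    Con j k (e - e') (ε - ε') := by
  refine ⟨Submodule.sub_mem _ h.1 h'.1, Submodule.sub_mem _ h.2.1 h'.2.1, ?_⟩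
  have := Submodule.sub_mem _ h.2.2 h'.2.2
  rw [map_sub, map_sub]
  convert this using 1
  abel

theorem Con.smul {e : Ch R X} {ε : Ch R X₀} (r : R) (h : Con j k e ε) :
    Con j k (r • e) (r • ε) := by
  refine ⟨Submodule.smul_mem _ _ h.1, Submodule.smul_mem _ _ h.2.1, ?_⟩
  rw [map_smul, map_smul, ← smul_sub]
  exact Submodule.smul_mem _ _ h.2.2

/-- Relative boundaries have trivial image. -/
theorem Con.bd (hj : Topology.IsInducing j) (hj' : Function.Injective j) {e : Ch R X}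
    {ε : Ch R X₀} (h : Con j k e ε) (he : Bd R (k + 1) Set.univ (Set.range j) e) :
    Bd R k Set.univ ∅ ε := by
  obtain ⟨-, -, h3⟩ := h
  obtain ⟨b, hb, hq⟩ := he
  have hdd : CubeHom.bd (k + 1) (CubeHom.bd (k + 1 + 1) b) = 0 := by
    have := bd_bd (k + 1 + 1) b
    rwa [add_sub_cancel_right] at this
  obtain ⟨a, ha, q, hqQ, haq⟩ := Submodule.mem_sup.mp (Q_le_sup _ _ hq)
  rw [← map_push_C hj hj'] at ha
  obtain ⟨a₀, ha₀, rfl⟩ := ha
  refine ⟨a₀, ha₀, ?_⟩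
  have e0 : (∅ : Set X₀) = j ⁻¹' ∅ := Set.preimage_empty.symm
  rw [e0, ← push_mem_Q_iff hj', map_sub, ← bd_push]
  have e2 : CubeHom.bd (k + 1) e = CubeHom.bd (k + 1) (push j a₀) + CubeHom.bd (k + 1) q := by
    have e3 : e = CubeHom.bd (k + 1 + 1) b + (push j a₀ + q) := by rw [haq]; abel
    conv_lhs => rw [e3]
    rw [map_add, hdd, zero_add, map_add]
  have e4 : push j ε - CubeHom.bd (k + 1) (push j a₀) =
      -(CubeHom.bd (k + 1) e - push j ε) + CubeHom.bd (k + 1) q := by rw [e2]; abel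
  rw [e4]
  have h2 := bd_mem_Q hqQ
  rw [add_sub_cancel_right] at h2
  exact Submodule.add_mem _ (Submodule.neg_mem _ h3) h2

/-- A cycle of the subspace which bounds in the space is in the image. -/
theorem exists_con {ε : Ch R X₀} (hε : ε ∈ Z R k Set.univ ∅)
    (h : Bd R k Set.univ ∅ (push j ε)) : ∃ e, Con j k e ε := by
  obtain ⟨b, hb, hq⟩ := h
  refine ⟨b, ⟨hb, ?_⟩, hε, ?_⟩
  · change bd (k + 1) b ∈ Q R (k + 1 - 1) (Set.range j)
    rw [add_sub_cancel_right]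
    have e1 : bd (k + 1) b = push j ε - (push j ε - bd (k + 1) b) := by abel
    rw [e1]
    have h1 : Set.MapsTo j Set.univ (Set.range j) := fun x _ => ⟨x, rfl⟩
    exact Submodule.sub_mem _ (C_le_Q _ _ (push_mem_C h1 hε.1))
      (Q_mono _ (Set.empty_subset _) hq)
  · have := Submodule.neg_mem _ hq
    rwa [neg_sub] at this

end connecting

end Cq

end CubeHom
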