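import Mathlib

/-!
# Extension of maps from boundaries of cubes; local structure of the spaces considered
-/

namespace CubeHom

/-- Every map from the boundary of the `m`-cube to `X` extends to the cube. -/
def Fills (X : Type*) [TopologicalSpace X] (m : ℕ) : Prop :=
  ∀ g : (Fin m → unitInterval) → X, ContinuousOn g {u | ∃ i, u i = 0 ∨ u i = 1} →
    ∃ G : (Fin m → unitInterval) → X, Continuous G ∧
      ∀ u, (∃ i, u i = 0 ∨ u i = 1) → G u = g u

/-- `X` is locally Euclidean of dimension `n`. -/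
def LocEuc (n : ℕ) (X : Type*) [TopologicalSpace X] : Prop :=
  ∀ x : X, ∃ S : Set X, IsOpen S ∧ x ∈ S ∧ Nonempty (S ≃ₜ (Fin n → ℝ))

/-- The closed half space of dimension `n + 1`. -/
abbrev Half (n : ℕ) : Type := {v : Fin (n + 1) → ℝ // 0 ≤ v 0}

/-- Every point of `X` has an open neighbourhood homeomorphic to a Euclidean space or to a closed
half space. -/
def LocHalf (X : Type*) [TopologicalSpace X] : Prop :=
  ∀ x : X, ∃ S : Set X, IsOpen S ∧ x ∈ S ∧
    ∃ k : ℕ, Nonempty (S ≃ₜ (Fin k → ℝ)) ∨ Nonempty (S ≃ₜ Half k)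

end CubeHom
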