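import Pool.Agent.Lib.MP_cb6a70_gt_HB.Susp
import Pool.Agent.Lib.MP_cb6a70_gt_HB.Fills
import Pool.Agent.Lib.MP_cb6a70_gt_HB.BdCalc

/-!
# Local homology of locally Euclidean spaces
-/

namespace CubeHom

variable {R : Type*} [CommRing R]
variable {Y : Type*} [TopologicalSpace Y]

/-- The chart cube of a chart `φ : S ≃ₜ ℝ^n` with `S ⊆ Y`. -/
noncomputable def chartCube {n : ℕ} {S : Set Y} (φ : S ≃ₜ (Fin n → ℝ)) : C(Cb, Y) :=
  ⟨fun u => (φ.symm (stdCube n u) : Y),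
    continuous_subtype_val.comp (φ.symm.continuous.comp (stdCube n).continuous)⟩

variable (R) in
/-- The chart chain. -/
noncomputable def locCh {n : ℕ} {S : Set Y} (φ : S ≃ₜ (Fin n → ℝ)) : Ch R Y :=
  Finsupp.single (chartCube φ) 1

/-- The compact set of `Y` with chart image `K`. -/
def inChart {n : ℕ} {S : Set Y} (φ : S ≃ₜ (Fin n → ℝ)) (K : Set (Fin n → ℝ)) : Set Y :=
  (fun x => (φ.symm x : Y)) '' K

namespace Loc

/-! ### The standard chain -/

/-- The complement of the open box. -/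
def offBox (n : ℕ) : Set (Fin n → ℝ) := {x | ∃ i, x i = -1 ∨ x i = 1}

theorem stdCh_mem_offBox (n : ℕ) : stdCh R n ∈ Z R n Set.univ (offBox n) := by
  refine ⟨mem_C_single (stdCube_isCube n) (fun _ => Set.mem_univ _) _, ?_⟩
  change bd (n : ℤ) (stdCh R n) ∈ Q R ((n : ℤ) - 1) (offBox n)
  unfold stdCh
  rw [bd_apply]
  refine Submodule.sum_mem _ fun i hi => Submodule.smul_mem _ _ (Submodule.sub_mem _ ?_ ?_)
  · rw [Finset.mem_range, Int.toNat_natCast] at hi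
    rw [face_single]
    refine mem_Q_single ((stdCube_isCube n).face (by omega) _) (Or.inl fun u => ?_) _
    refine ⟨⟨i, hi⟩, Or.inr ?_⟩
    change 2 * (((ins i 1 u) i : I) : ℝ) - 1 = 1
    rw [ins_apply_self]
    norm_num
  · rw [Finset.mem_range, Int.toNat_natCast] at hi
    rw [face_single]
    refine mem_Q_single ((stdCube_isCube n).face (by omega) _) (Or.inl fun u => ?_) _
    refine ⟨⟨i, hi⟩, Or.inl ?_⟩
    change 2 * (((ins i 0 u) i : I) : ℝ) - 1 = -1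
    rw [ins_apply_self]
    norm_num

theorem offBox_subset {n : ℕ} {K : Set (Fin n → ℝ)} (hK1 : ∀ x ∈ K, ∀ i, -1 < x i ∧ x i < 1) :
    offBox n ⊆ Kᶜ := by
  rintro x ⟨i, hi⟩ hx
  have h := hK1 x hx i
  rcases hi with hi | hi <;> linarith [h.1, h.2]

theorem stdCh_mem_compl {n : ℕ} {K : Set (Fin n → ℝ)}
    (hK1 : ∀ x ∈ K, ∀ i, -1 < x i ∧ x i < 1) : stdCh R n ∈ Z R n Set.univ Kᶜ :=
  Z_mono subset_rfl (offBox_subset hK1) (stdCh_mem_offBox n)

/-! ### The origin -/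

/-- The inclusion of `E` in `E × Unit`. -/
def iU (E : Type*) [TopologicalSpace E] : C(E, E × Unit) := ⟨fun x => (x, ()), by fun_prop⟩

/-- The projection of `E × Unit` to `E`. -/
def pU (E : Type*) [TopologicalSpace E] : C(E × Unit, E) := ⟨Prod.fst, by fun_prop⟩

theorem push_pU_iU {E : Type*} [TopologicalSpace E] (c : Ch R E) :
    push (pU E) (push (iU E) c) = c := by
  rw [push_push]
  have : (pU E).comp (iU E) = ContinuousMap.id E := rfl
  rw [this, push_id]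

theorem cube_unit_eq (σ τ : C(Cb, Unit)) : σ = τ := by
  ext u

/-- The cube of a point. -/
def pt0 : C(Cb, Unit) := ContinuousMap.const _ ()

theorem ch_unit_eq (c : Ch R Unit) : c = Finsupp.single pt0 (c pt0) := by
  ext σ
  rw [cube_unit_eq σ pt0, Finsupp.single_eq_same]

theorem isCube_unit {k : ℤ} (hk : 0 ≤ k) (σ : C(Cb, Unit)) : IsCube k σ :=
  ⟨hk, fun _ _ _ => rfl⟩

/-- The chains of a point of positive degree are degenerate. -/
theorem unit_C_le_Q {k : ℤ} (hk : k ≠ 0) : C R k (Set.univ : Set Unit) ≤ Q R k ∅ := by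
  rcases lt_or_gt_of_ne hk with h | h
  · rw [C_of_neg h]
    exact bot_le
  · refine Finsupp.supported_mono fun σ hσ => ⟨hσ.1, Or.inr ⟨0, by exact_mod_cast h, ?_⟩⟩
    exact fun _ _ _ => rfl

theorem unit_bd (k : ℤ) (c : Ch R Unit) : bd k c = 0 := by
  rw [ch_unit_eq c, bd_apply]
  refine Finset.sum_eq_zero fun i _ => ?_
  rw [face_single, face_single, cube_unit_eq (pt0.comp (ins i 1)) (pt0.comp (ins i 0)), sub_self,
    smul_zero]

theorem unit_Q_zero : Q R 0 (∅ : Set Unit) = ⊥ := by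
  unfold Q
  have h : {σ : C(Cb, Unit) | IsCube 0 σ ∧ ((∀ u, σ u ∈ (∅ : Set Unit)) ∨ Degen 0 σ)} = ∅ := by
    ext σ
    simp only [Set.mem_ofPred_eq, Set.mem_empty_iff_false, iff_false]
    rintro ⟨-, h | ⟨i, hi, -⟩⟩
    · exact h 0
    · omega
  rw [h, Finsupp.supported_empty]

section Origin

variable (n : ℕ)

/-- The exceptional set of the suspension. -/
def susA (n : ℕ) : Set ((Fin n → ℝ) × Unit) := {p | p.1 ≠ 0 ∨ p.2 ∈ (∅ : Set Unit)}

theorem iU_mapsTo : Set.MapsTo (iU (Fin n → ℝ)) ({0}ᶜ : Set (Fin n → ℝ)) (susA n) :=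
  fun _ hx => Or.inl hx

theorem pU_mapsTo : Set.MapsTo (pU (Fin n → ℝ)) (susA n) ({0}ᶜ : Set (Fin n → ℝ)) :=
  fun _ hp => hp.resolve_right (fun h => h)

theorem push_pU_cr (r : R) :
    push (pU (Fin n → ℝ)) (cr n (stdCh R n) (Finsupp.single pt0 r)) = r • stdCh R n := by
  unfold stdCh
  rw [cr_single_single, one_mul, push_single, Finsupp.smul_single, smul_eq_mul, mul_one]
  rfl

theorem cr_eq (r : R) :
    cr n (stdCh R n) (Finsupp.single pt0 r) = push (iU (Fin n → ℝ)) (r • stdCh R n) := by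
  unfold stdCh
  rw [cr_single_single, one_mul, Finsupp.smul_single, smul_eq_mul, mul_one, push_single]
  rfl

/-- Surjectivity at the origin. -/
theorem origin_surj {j : ℤ} {w : Ch R (Fin n → ℝ)} (hw : w ∈ Z R j Set.univ ({0}ᶜ)) :
    ∃ r : R, (j ≠ n → r = 0) ∧ Bd R j Set.univ ({0}ᶜ) (w - r • stdCh R n) := by
  obtain ⟨k, rfl⟩ : ∃ k : ℤ, j = n + k := ⟨j - n, by ring⟩
  have hS := (Sys.cone_acyc_iff_bij _ _).1
    (suspensionN (R := R) n (B := Unit) (A := (∅ : Set Unit)) isOpen_empty)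
  have hwC : push (iU (Fin n → ℝ)) w ∈ C R ((n : ℤ) + k) (Set.univ : Set ((Fin n → ℝ) × Unit)) :=
    push_mem_C (Set.mapsTo_univ _ _) hw.1
  have hwQ : bd ((n : ℤ) + k) (push (iU (Fin n → ℝ)) w) ∈ Q R ((n : ℤ) + k - 1) (susA n) := by
    rw [bd_push]
    exact push_mem_Q (iU_mapsTo n) hw.2
  obtain ⟨c, hc, -, x, hx, h1⟩ := hS.2 k (push (iU (Fin n → ℝ)) w) hwC (by
    change ((-1 : R) ^ n) • bd ((n : ℤ) + k) (push (iU (Fin n → ℝ)) w) ∈
      Q R ((n : ℤ) + (k - 1)) (susA n)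
    rw [← add_sub_assoc]
    exact Submodule.smul_mem _ _ hwQ)
  have hx' : x ∈ C R ((n : ℤ) + (k + 1)) (Set.univ : Set ((Fin n → ℝ) × Unit)) := hx
  have h1' : push (iU (Fin n → ℝ)) w - cr n (stdCh R n) c -
      ((-1 : R) ^ n) • bd ((n : ℤ) + (k + 1)) x ∈ Q R ((n : ℤ) + k) (susA n) := h1
  rw [← add_assoc] at hx' h1'
  have h2 : Bd R ((n : ℤ) + k) Set.univ (susA n)
      (push (iU (Fin n → ℝ)) w - cr n (stdCh R n) c) := by
    refine ⟨((-1 : R) ^ n) • x, Submodule.smul_mem _ _ hx', ?_⟩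
    rw [map_smul]
    exact h1'
  by_cases hk : k = 0
  · subst hk
    refine ⟨c pt0, fun h => absurd (add_zero _) h, ?_⟩
    have h3 := h2.push (f := pU (Fin n → ℝ)) (Set.mapsTo_univ _ _) (pU_mapsTo n)
    rw [map_sub, push_pU_iU, ch_unit_eq c, push_pU_cr] at h3
    exact h3
  · refine ⟨0, fun _ => rfl, ?_⟩
    have hc' : c ∈ C R (((0 : ℕ) : ℤ) + k) (Set.univ : Set Unit) := hc
    rw [Nat.cast_zero, zero_add] at hc'
    have h4 : cr n (stdCh R n) c ∈ Q R ((n : ℤ) + k) (susA n) := by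
      have h5 := cr_mem_Q_right (R := R) (n := n) (stdCh_mem n).1 (unit_C_le_Q hk hc')
      refine Q_mono _ ?_ h5
      rintro p ⟨-, hp⟩
      exact absurd hp (Set.notMem_empty _)
    have h5 := (h2.of_sub (Bd.of_mem_Q h4)).push (f := pU (Fin n → ℝ)) (Set.mapsTo_univ _ _)
      (pU_mapsTo n)
    rw [push_pU_iU] at h5
    rw [zero_smul, sub_zero]
    exact h5

/-- Injectivity at the origin. -/
theorem origin_inj {r : R} (h : Bd R n Set.univ ({0}ᶜ) (r • stdCh R n)) : r = 0 := by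
  have hS := (Sys.cone_acyc_iff_bij _ _).1
    (suspensionN (R := R) n (B := Unit) (A := (∅ : Set Unit)) isOpen_empty)
  obtain ⟨b0, hb0, h1⟩ := h
  have e3 : ((-1 : R) ^ n) * ((-1 : R) ^ n) = 1 := by
    rw [← mul_pow]; simp
  obtain ⟨b, hb, h2⟩ := hS.1 0 (Finsupp.single pt0 r)
    (mem_C_single (isCube_unit (by simp) _) (fun _ => Set.mem_univ _) _) (by
      change ((-1 : R) ^ 0) • bd (((0 : ℕ) : ℤ) + 0) (Finsupp.single pt0 r) ∈ _
      rw [unit_bd, smul_zero]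
      exact Submodule.zero_mem _)
    ⟨((-1 : R) ^ n) • push (iU (Fin n → ℝ)) b0, by
      refine Submodule.smul_mem _ _ ?_
      change push (iU (Fin n → ℝ)) b0 ∈ C R ((n : ℤ) + (0 + 1)) (Set.univ : Set _)
      rw [zero_add]
      exact push_mem_C (Set.mapsTo_univ _ _) hb0, by
      change cr n (stdCh R n) (Finsupp.single pt0 r) - ((-1 : R) ^ n) • bd ((n : ℤ) + (0 + 1))
        (((-1 : R) ^ n) • push (iU (Fin n → ℝ)) b0) ∈ Q R ((n : ℤ) + 0) (susA n)
      rw [map_smul, smul_smul, e3, one_smul, zero_add, add_zero, bd_push, cr_eq, ← map_sub]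
      exact push_mem_Q (iU_mapsTo n) h1⟩
  have h3 : Finsupp.single pt0 r - ((-1 : R) ^ 0) • bd (((0 : ℕ) : ℤ) + (0 + 1)) b ∈
    Q R (((0 : ℕ) : ℤ) + 0) (∅ : Set Unit) := h2
  rw [unit_bd, smul_zero, sub_zero, Nat.cast_zero, add_zero, unit_Q_zero, Submodule.mem_bot,
    Finsupp.single_eq_zero] at h3
  exact h3

end Origin

/-! ### Translation -/

section Trans

variable {n : ℕ}

/-- The translation by `a`. -/
def tl (a : Fin n → ℝ) : C(Fin n → ℝ, Fin n → ℝ) := ⟨fun x => x + a, by fun_prop⟩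

theorem push_tl_tl (a : Fin n → ℝ) (c : Ch R (Fin n → ℝ)) :
    push (tl a) (push (tl (-a)) c) = c := by
  rw [push_push]
  have : (tl a).comp (tl (-a)) = ContinuousMap.id _ := by
    ext x i
    simp [tl]
  rw [this, push_id]

theorem tl_mapsTo (a : Fin n → ℝ) : Set.MapsTo (tl a) ({0}ᶜ : Set (Fin n → ℝ)) {a}ᶜ := by
  intro x hx h
  apply hx
  have h2 : x + a = a := h
  exact (add_eq_right).1 h2

theorem tl_neg_mapsTo (a : Fin n → ℝ) : Set.MapsTo (tl (-a)) ({a}ᶜ : Set (Fin n → ℝ)) {0}ᶜ := by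
  intro x hx h
  apply hx
  have h2 : x + -a = 0 := h
  rw [← sub_eq_add_neg] at h2
  exact sub_eq_zero.1 h2

/-- The homotopy moving the standard box. -/
def tlH (a : Fin n → ℝ) : C(I × (Fin n → ℝ), Fin n → ℝ) :=
  ⟨fun p => p.2 + ((p.1 : I) : ℝ) • a, by fun_prop⟩

/-- The translated box is homologous to the standard box. -/
theorem std_tl (a : Fin n → ℝ) (ha : ∀ i, -1 < a i ∧ a i < 1) :
    Bd R n Set.univ ({a}ᶜ) (push (tl a) (stdCh R n) - stdCh R n) := by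
  have h := Bd_homotopy (R := R) (H := tlH a) (k := n) (U := Set.univ) (A := offBox n)
    (V := Set.univ) (A' := {a}ᶜ) (fun _ _ _ => Set.mem_univ _) ?_ (stdCh_mem_offBox n)
  · have e1 : atTime (tlH a) 1 = tl a := by
      ext x i
      simp [atTime, tlH, tl]
    have e0 : atTime (tlH a) 0 = ContinuousMap.id _ := by
      ext x i
      simp [atTime, tlH]
    rw [e1, e0, push_id] at h
    exact h
  · rintro t x ⟨i, hi⟩ hx
    have h2 : x + ((t : I) : ℝ) • a = a := hx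
    have h3 := congrFun h2 i
    simp only [Pi.add_apply, Pi.smul_apply, smul_eq_mul] at h3
    have h4 : x i = (1 - (t : ℝ)) * a i := by linarith
    have ht0 : 0 ≤ 1 - (t : ℝ) := by linarith [t.2.2]
    have ht1 : 1 - (t : ℝ) ≤ 1 := by linarith [t.2.1]
    have h5 := ha i
    rcases hi with hi | hi
    · rw [hi] at h4
      nlinarith [h5.1, h5.2]
    · rw [hi] at h4
      nlinarith [h5.1, h5.2]

/-- Vanishing at a point. -/
theorem pt_vanish (a : Fin n → ℝ) {k : ℤ} (hk : k ≠ n) {w : Ch R (Fin n → ℝ)}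
    (hw : w ∈ Z R k Set.univ ({a}ᶜ)) : Bd R k Set.univ ({a}ᶜ) w := by
  obtain ⟨r, hr, h⟩ := origin_surj n (push_mem_Z (Set.mapsTo_univ _ _) (tl_neg_mapsTo a) hw)
  rw [hr hk, zero_smul, sub_zero] at h
  have h2 := h.push (f := tl a) (Set.mapsTo_univ _ _) (tl_mapsTo a)
  rwa [push_tl_tl] at h2

theorem pt_gen (a : Fin n → ℝ) (ha : ∀ i, -1 < a i ∧ a i < 1) {w : Ch R (Fin n → ℝ)}
    (hw : w ∈ Z R n Set.univ ({a}ᶜ)) :
    ∃ r : R, Bd R n Set.univ ({a}ᶜ) (w - r • stdCh R n) := by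
  obtain ⟨r, -, h⟩ := origin_surj n (push_mem_Z (Set.mapsTo_univ _ _) (tl_neg_mapsTo a) hw)
  refine ⟨r, ?_⟩
  have h2 := h.push (f := tl a) (Set.mapsTo_univ _ _) (tl_mapsTo a)
  rw [map_sub, push_tl_tl, map_smul] at h2
  refine h2.trans ?_
  rw [← smul_sub]
  exact (std_tl a ha).smul r

theorem pt_free (a : Fin n → ℝ) (ha : ∀ i, -1 < a i ∧ a i < 1) {r : R}
    (h : Bd R n Set.univ ({a}ᶜ) (r • stdCh R n)) : r = 0 := by
  apply origin_inj n
  have h1 : Bd R n Set.univ ({a}ᶜ) (r • push (tl a) (stdCh R n)) := by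
    refine Bd.of_sub (c' := r • stdCh R n) ?_ h
    rw [← smul_sub]
    exact (std_tl a ha).smul r
  have h2 := h1.push (f := tl (-a)) (Set.mapsTo_univ _ _) (tl_neg_mapsTo a)
  have e : push (tl (-a)) (push (tl a) (stdCh R n)) = stdCh R n := by
    have := push_tl_tl (R := R) (-a) (stdCh R n)
    rwa [neg_neg] at this
  rw [map_smul, e] at h2
  exact h2

end Trans

/-! ### Dilation -/

section Dil

variable {n : ℕ}

/-- The dilation with centre `a`. -/
def dil (a : Fin n → ℝ) (L : ℝ) : C(I × (Fin n → ℝ), Fin n → ℝ) :=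
  ⟨fun p => a + (1 + ((p.1 : I) : ℝ) * L) • (p.2 - a), by fun_prop⟩

theorem dil_mapsTo {K : Set (Fin n → ℝ)} (hconv : Convex ℝ K) {a : Fin n → ℝ} (ha : a ∈ K)
    {L : ℝ} (hL : 0 ≤ L) (t : I) {x : Fin n → ℝ} (hx : x ∈ Kᶜ) : dil a L (t, x) ∈ Kᶜ := by
  intro h
  apply hx
  have hs : 0 ≤ ((t : I) : ℝ) * L := mul_nonneg t.2.1 hL
  set s : ℝ := ((t : I) : ℝ) * L with hs'
  have hp : 0 < 1 + s := by linarith
  have h2 : a + (1 + s) • (x - a) ∈ K := h
  have h3 := hconv.add_smul_sub_mem ha h2 (t := (1 + s)⁻¹)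
    ⟨by positivity, inv_le_one_of_one_le₀ (by linarith)⟩
  have e : a + (1 + s)⁻¹ • (a + (1 + s) • (x - a) - a) = x := by
    rw [add_sub_cancel_left, smul_smul, inv_mul_cancel₀ hp.ne', one_smul, add_sub_cancel]
  rwa [e] at h3

/-- A finite family of cubes avoiding `a` is moved out of `K` by a large dilation. -/
theorem exists_dil {K : Set (Fin n → ℝ)} (hK : IsCompact K) (a : Fin n → ℝ)
    (T : Set (Fin n → ℝ)) (hT : IsCompact T) (haT : a ∉ T) :
    ∃ L : ℝ, 0 ≤ L ∧ ∀ x ∈ T, dil a L (1, x) ∈ Kᶜ := by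
  obtain ⟨ε, hε, hball⟩ := Metric.isOpen_iff.1 hT.isClosed.isOpen_compl a haT
  obtain ⟨ρ, hρ⟩ := hK.isBounded.subset_closedBall a
  refine ⟨|ρ| / ε, by positivity, fun x hx h => ?_⟩
  have h1 : dil a (|ρ| / ε) (1, x) ∈ Metric.closedBall a ρ := hρ h
  rw [Metric.mem_closedBall, dist_eq_norm] at h1
  have e : dil a (|ρ| / ε) (1, x) - a = (1 + |ρ| / ε) • (x - a) := by
    change a + (1 + ((1 : I) : ℝ) * (|ρ| / ε)) • (x - a) - a = _
    rw [add_sub_cancel_left, Set.Icc.coe_one, one_mul]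
  rw [e, norm_smul, Real.norm_of_nonneg (by positivity)] at h1
  have h2 : ε ≤ ‖x - a‖ := by
    by_contra hlt
    push Not at hlt
    have h3 : x ∈ Metric.ball a ε := by rwa [Metric.mem_ball, dist_eq_norm]
    exact hball h3 hx
  have h3 : (1 + |ρ| / ε) * ε ≤ ρ := (mul_le_mul_of_nonneg_left h2 (by positivity)).trans h1
  have h4 : (1 + |ρ| / ε) * ε = ε + |ρ| := by field_simp
  rw [h4] at h3
  linarith [le_abs_self ρ]

/-- A relative cycle of the complement of `K` which bounds relative to the complement of a point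
of `K` bounds. -/
theorem dil_inj {K : Set (Fin n → ℝ)} (hK : IsCompact K) (hconv : Convex ℝ K) {a : Fin n → ℝ}
    (ha : a ∈ K) {k : ℤ} {w : Ch R (Fin n → ℝ)} (hw : w ∈ Z R k Set.univ Kᶜ)
    (h : Bd R k Set.univ ({a}ᶜ) w) : Bd R k Set.univ Kᶜ w := by
  classical
  obtain ⟨b, hb, hq⟩ := h
  set q := w - bd (k + 1) b with hqdef
  -- the cubes which avoid `a`
  set F : Finset (C(Cb, Fin n → ℝ)) := q.support.filter fun σ => ∀ u, σ u ≠ a with hF
  set T : Set (Fin n → ℝ) := ⋃ σ ∈ F, Set.range σ with hT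
  have hTc : IsCompact T := F.isCompact_biUnion fun σ _ => isCompact_range σ.continuous
  have haT : a ∉ T := by
    intro h
    rw [hT, Set.mem_iUnion₂] at h
    obtain ⟨σ, hσ, u, hu⟩ := h
    exact (Finset.mem_filter.1 hσ).2 u hu
  obtain ⟨L, hL, hout⟩ := exists_dil hK a T hTc haT
  -- the dilated chain
  have hq2 : push (atTime (dil a L) 1) q ∈ Q R k Kᶜ := by
    have hqF : q ∈ Finsupp.supported R R
        {σ : C(Cb, Fin n → ℝ) | IsCube k σ ∧ ((∀ u, σ u ∈ T) ∨ Degen k σ)} := by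
      rw [Finsupp.mem_supported]
      intro σ hσ
      have h3 : q ∈ Q R k ({a}ᶜ) := hq
      unfold Q at h3
      rw [Finsupp.mem_supported] at h3
      obtain ⟨h4, h5⟩ := h3 hσ
      refine ⟨h4, ?_⟩
      rcases h5 with h5 | h5
      · left
        intro u
        rw [hT, Set.mem_iUnion₂]
        exact ⟨σ, Finset.mem_filter.2 ⟨hσ, fun u hu => h5 u hu⟩, u, rfl⟩
      · exact Or.inr h5
    exact push_mem_Q (U := T) (fun x hx => hout x hx) hqF
  have h1 : Bd R k Set.univ Kᶜ (push (atTime (dil a L) 1) w) := by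
    refine ⟨push (atTime (dil a L) 1) b, push_mem_C (Set.mapsTo_univ _ _) hb, ?_⟩
    rw [bd_push, ← map_sub]
    exact hq2
  have h2 := Bd_homotopy (R := R) (H := dil a L) (k := k) (U := Set.univ) (A := Kᶜ)
    (V := Set.univ) (A' := Kᶜ) (fun _ _ _ => Set.mem_univ _)
    (fun t x hx => dil_mapsTo hconv ha hL t hx) hw
  have e0 : atTime (dil a L) 0 = ContinuousMap.id _ := by
    ext x i
    simp [atTime, dil]
  rw [e0, push_id] at h2
  exact (h2.sub_comm).of_sub h1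

end Dil

/-! ### Compact convex sets of Euclidean space -/

section Euc

variable {n : ℕ} {K : Set (Fin n → ℝ)}

theorem euc_vanish (hK : IsCompact K) (hconv : Convex ℝ K) (hne : K.Nonempty) {k : ℤ}
    (hk : k ≠ n) {w : Ch R (Fin n → ℝ)} (hw : w ∈ Z R k Set.univ Kᶜ) :
    Bd R k Set.univ Kᶜ w := by
  obtain ⟨a, ha⟩ := hne
  refine dil_inj hK hconv ha hw (pt_vanish a hk ?_)
  exact Z_mono subset_rfl (Set.compl_subset_compl.2 (Set.singleton_subset_iff.2 ha)) hw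

theorem euc_gen (hK : IsCompact K) (hconv : Convex ℝ K) (hne : K.Nonempty)
    (hK1 : ∀ x ∈ K, ∀ i, -1 < x i ∧ x i < 1) {w : Ch R (Fin n → ℝ)}
    (hw : w ∈ Z R n Set.univ Kᶜ) : ∃ r : R, Bd R n Set.univ Kᶜ (w - r • stdCh R n) := by
  obtain ⟨a, ha⟩ := hne
  obtain ⟨r, hr⟩ := pt_gen a (hK1 a ha)
    (Z_mono subset_rfl (Set.compl_subset_compl.2 (Set.singleton_subset_iff.2 ha)) hw)
  refine ⟨r, dil_inj hK hconv ha ?_ hr⟩
  exact Submodule.sub_mem _ hw (Submodule.smul_mem _ _ (stdCh_mem_compl hK1))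

theorem euc_free (hne : K.Nonempty) (hK1 : ∀ x ∈ K, ∀ i, -1 < x i ∧ x i < 1) {r : R}
    (hr : Bd R n Set.univ Kᶜ (r • stdCh R n)) : r = 0 := by
  obtain ⟨a, ha⟩ := hne
  exact pt_free a (hK1 a ha)
    (hr.mono subset_rfl (Set.compl_subset_compl.2 (Set.singleton_subset_iff.2 ha)))

end Euc

/-! ### Charts -/

section Chart

variable {n : ℕ} {S : Set Y}

/-- The inclusion of the chart. -/
noncomputable def chartMap (φ : S ≃ₜ (Fin n → ℝ)) : C(Fin n → ℝ, Y) :=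
  ⟨fun x => (φ.symm x : Y), continuous_subtype_val.comp φ.symm.continuous⟩

theorem chartMap_openEmbedding (hS : IsOpen S) (φ : S ≃ₜ (Fin n → ℝ)) :
    Topology.IsOpenEmbedding (chartMap φ) :=
  hS.isOpenEmbedding_subtypeVal.comp φ.symm.isOpenEmbedding

theorem chartMap_injective (φ : S ≃ₜ (Fin n → ℝ)) : Function.Injective (chartMap φ) :=
  Subtype.val_injective.comp φ.symm.injective

theorem preimage_inChart (φ : S ≃ₜ (Fin n → ℝ)) (K : Set (Fin n → ℝ)) :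
    chartMap φ ⁻¹' (inChart φ K)ᶜ = Kᶜ := by
  rw [Set.preimage_compl]
  congr 1
  exact Set.preimage_image_eq K (chartMap_injective φ)

theorem chart_cov (φ : S ≃ₜ (Fin n → ℝ)) (K : Set (Fin n → ℝ)) :
    (inChart φ K)ᶜ ∪ Set.range (chartMap φ) = Set.univ := by
  rw [Set.eq_univ_iff_forall]
  intro y
  by_cases hy : y ∈ inChart φ K
  · right
    obtain ⟨x, -, rfl⟩ := hy
    exact ⟨x, rfl⟩
  · exact Or.inl hy

theorem isOpen_compl_inChart [T2Space Y] (φ : S ≃ₜ (Fin n → ℝ)) {K : Set (Fin n → ℝ)}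
    (hK : IsCompact K) : IsOpen (inChart φ K)ᶜ :=
  (hK.image (chartMap φ).continuous).isClosed.isOpen_compl

theorem locCh_eq (φ : S ≃ₜ (Fin n → ℝ)) : locCh R φ = push (chartMap φ) (stdCh R n) := by
  unfold locCh stdCh
  rw [push_single]
  rfl

end Chart

end Loc

open Loc

/-- the chart chain is a relative cycle -/
theorem locCh_mem {n : ℕ} {S : Set Y} (φ : S ≃ₜ (Fin n → ℝ)) {K : Set (Fin n → ℝ)}
    (hK1 : ∀ x ∈ K, ∀ i, -1 < x i ∧ x i < 1) :
    locCh R φ ∈ Z R n Set.univ (inChart φ K)ᶜ := by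
  rw [locCh_eq]
  refine push_mem_Z (Set.mapsTo_univ _ _) ?_ (stdCh_mem_compl hK1)
  rw [← preimage_inChart φ K]
  exact Set.mapsTo_preimage _ _

/-- Local homology vanishes in the degrees other than `n`. -/
theorem loc_vanish [T2Space Y] {n : ℕ} {S : Set Y} (hS : IsOpen S) (φ : S ≃ₜ (Fin n → ℝ))
    {K : Set (Fin n → ℝ)} (hK : IsCompact K) (hconv : Convex ℝ K) (hne : K.Nonempty)
    {k : ℤ} (hk : k ≠ n) {w : Ch R Y} (hw : w ∈ Z R k Set.univ (inChart φ K)ᶜ) :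
    Bd R k Set.univ (inChart φ K)ᶜ w := by
  obtain ⟨c, hc, h⟩ := embed_surj (chartMap_openEmbedding hS φ) (isOpen_compl_inChart φ hK)
    (chart_cov φ K) hw
  rw [preimage_inChart] at hc
  refine h.of_sub ((euc_vanish hK hconv hne hk hc).push (Set.mapsTo_univ _ _) ?_)
  rw [← preimage_inChart φ K]
  exact Set.mapsTo_preimage _ _

/-- Local homology in degree `n` is generated by the chart chain. -/
theorem loc_gen [T2Space Y] {n : ℕ} {S : Set Y} (hS : IsOpen S) (φ : S ≃ₜ (Fin n → ℝ))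
    {K : Set (Fin n → ℝ)} (hK : IsCompact K) (hconv : Convex ℝ K) (hne : K.Nonempty)
    (hK1 : ∀ x ∈ K, ∀ i, -1 < x i ∧ x i < 1)
    {w : Ch R Y} (hw : w ∈ Z R n Set.univ (inChart φ K)ᶜ) :
    ∃ r : R, Bd R n Set.univ (inChart φ K)ᶜ (w - r • locCh R φ) := by
  obtain ⟨c, hc, h⟩ := embed_surj (chartMap_openEmbedding hS φ) (isOpen_compl_inChart φ hK)
    (chart_cov φ K) hw
  rw [preimage_inChart] at hc
  obtain ⟨r, hr⟩ := euc_gen hK hconv hne hK1 hc
  refine ⟨r, h.trans ?_⟩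
  rw [locCh_eq, ← map_smul, ← map_sub]
  refine hr.push (Set.mapsTo_univ _ _) ?_
  rw [← preimage_inChart φ K]
  exact Set.mapsTo_preimage _ _

/-- The chart chain generates freely. -/
theorem loc_free [T2Space Y] {n : ℕ} {S : Set Y} (hS : IsOpen S) (φ : S ≃ₜ (Fin n → ℝ))
    {K : Set (Fin n → ℝ)} (hK : IsCompact K) (hconv : Convex ℝ K) (hne : K.Nonempty)
    (hK1 : ∀ x ∈ K, ∀ i, -1 < x i ∧ x i < 1)
    {r : R} (hr : Bd R n Set.univ (inChart φ K)ᶜ (r • locCh R φ)) : r = 0 := by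
  rw [locCh_eq, ← map_smul] at hr
  have h := embed_inj (chartMap_openEmbedding hS φ) (isOpen_compl_inChart φ hK)
    (chart_cov φ K) (Submodule.smul_mem _ _ (stdCh_mem_compl hK1).1) hr
  rw [preimage_inChart] at h
  exact euc_free hne hK1 h

namespace Loc

theorem inChart_singleton {n : ℕ} {S : Set Y} (φ : S ≃ₜ (Fin n → ℝ)) {y : Y} (hy : y ∈ S) :
    inChart φ {φ ⟨y, hy⟩} = {y} := by
  unfold inChart
  rw [Set.image_singleton, φ.symm_apply_apply]

/-- Change of charts. -/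
theorem change [T2Space Y] {n : ℕ} {S S' : Set Y} (hS : IsOpen S) (hS' : IsOpen S')
    (φ : S ≃ₜ (Fin n → ℝ)) (ψ : S' ≃ₜ (Fin n → ℝ)) {y : Y} (hy : y ∈ S) (hy' : y ∈ S')
    (h1 : ∀ i, -1 < φ ⟨y, hy⟩ i ∧ φ ⟨y, hy⟩ i < 1)
    (h2 : ∀ i, -1 < ψ ⟨y, hy'⟩ i ∧ ψ ⟨y, hy'⟩ i < 1) :
    ∃ u v : R, u * v = 1 ∧ Bd R n Set.univ ({y}ᶜ : Set Y) (locCh R φ - u • locCh R ψ) := by
  have k1 : ∀ x ∈ ({φ ⟨y, hy⟩} : Set (Fin n → ℝ)), ∀ i, -1 < x i ∧ x i < 1 := by
    rintro x rfl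
    exact h1
  have k2 : ∀ x ∈ ({ψ ⟨y, hy'⟩} : Set (Fin n → ℝ)), ∀ i, -1 < x i ∧ x i < 1 := by
    rintro x rfl
    exact h2
  have z1 := locCh_mem (R := R) φ k1
  have z2 := locCh_mem (R := R) ψ k2
  rw [inChart_singleton] at z1 z2
  have z1' := z1
  have z2' := z2
  rw [← inChart_singleton ψ hy'] at z1'
  rw [← inChart_singleton φ hy] at z2'
  obtain ⟨u, hu⟩ := loc_gen hS' ψ isCompact_singleton (convex_singleton _)
    (Set.singleton_nonempty _) k2 z1'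
  obtain ⟨v, hv⟩ := loc_gen hS φ isCompact_singleton (convex_singleton _)
    (Set.singleton_nonempty _) k1 z2'
  rw [inChart_singleton] at hu hv
  refine ⟨u, v, ?_, hu⟩
  have h3 : Bd R n Set.univ ({y}ᶜ : Set Y) ((1 - u * v) • locCh R φ) := by
    have h4 := hu.add (hv.smul u)
    have e : locCh R φ - u • locCh R ψ + u • (locCh R ψ - v • locCh R φ) =
        (1 - u * v) • locCh R φ := by
      rw [smul_sub, smul_smul, sub_smul, one_smul]
      abel
    rwa [e] at h4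
  rw [← inChart_singleton φ hy] at h3
  have h5 := loc_free hS φ isCompact_singleton (convex_singleton _)
    (Set.singleton_nonempty _) k1 h3
  exact (sub_eq_zero.1 h5).symm

end Loc

/-- Change of charts: over the integers the two chart chains agree up to sign. -/
theorem loc_change [T2Space Y] {n : ℕ} {S S' : Set Y} (hS : IsOpen S) (hS' : IsOpen S')
    (φ : S ≃ₜ (Fin n → ℝ)) (ψ : S' ≃ₜ (Fin n → ℝ)) {y : Y} (hy : y ∈ S) (hy' : y ∈ S')
    (h1 : ∀ i, -1 < φ ⟨y, hy⟩ i ∧ φ ⟨y, hy⟩ i < 1)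
    (h2 : ∀ i, -1 < ψ ⟨y, hy'⟩ i ∧ ψ ⟨y, hy'⟩ i < 1) :
    ∃ ε : ℤ, (ε = 1 ∨ ε = -1) ∧
      Bd ℤ n Set.univ ({y}ᶜ : Set Y) (locCh ℤ φ - ε • locCh ℤ ψ) := by
  obtain ⟨u, v, huv, h⟩ := Loc.change (R := ℤ) hS hS' φ ψ hy hy' h1 h2
  exact ⟨u, Int.eq_one_or_neg_one_of_mul_eq_one huv, h⟩

/-- Over a general ring the two chart chains agree up to a unit. -/
theorem loc_change_unit [T2Space Y] {n : ℕ} {S S' : Set Y} (hS : IsOpen S) (hS' : IsOpen S')
    (φ : S ≃ₜ (Fin n → ℝ)) (ψ : S' ≃ₜ (Fin n → ℝ)) {y : Y} (hy : y ∈ S) (hy' : y ∈ S')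
    (h1 : ∀ i, -1 < φ ⟨y, hy⟩ i ∧ φ ⟨y, hy⟩ i < 1)
    (h2 : ∀ i, -1 < ψ ⟨y, hy'⟩ i ∧ ψ ⟨y, hy'⟩ i < 1) :
    ∃ u : R, IsUnit u ∧
      Bd R n Set.univ ({y}ᶜ : Set Y) (locCh R φ - u • locCh R ψ) := by
  obtain ⟨u, v, huv, h⟩ := Loc.change (R := R) hS hS' φ ψ hy hy' h1 h2
  exact ⟨u, IsUnit.of_mul_eq_one v huv, h⟩

end CubeHom
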