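import Pool.Agent.Lib.MP_cb6a70_gt_HB.ConseqA
import Pool.Agent.Lib.MP_cb6a70_gt_HB.Local

/-!
# The homology of the complement of a flat cube
-/

set_option linter.unusedSectionVars false

namespace CubeHom

namespace Cq

variable {R : Type*} [CommRing R]

/-- Contractible spaces have no homology in positive degrees. -/
theorem bd_of_contraction {X : Type*} [TopologicalSpace X] {H : C(I × X, X)}
    (h0 : ∃ x₀, ∀ x, H (0, x) = x₀) (h1 : ∀ x, H (1, x) = x) {k : ℤ} (hk : 1 ≤ k)
    {c : Ch R X} (hc : c ∈ Z R k Set.univ ∅) : Bd R k Set.univ ∅ c := by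
  have h2 := Bd_homotopy (R := R) (H := H) (U := Set.univ) (A := ∅) (V := Set.univ) (A' := ∅)
    (fun _ _ _ => Set.mem_univ _) (fun _ _ h => h.elim) hc
  have e1 : atTime H 1 = ContinuousMap.id X := ContinuousMap.ext h1
  rw [e1, push_id] at h2
  refine bd_of_sub h2 (bd_of_Q ?_)
  obtain ⟨x₀, hx₀⟩ := h0
  refine map_mem_of_supported (push (atTime H 0)) _ (fun σ hσ => ?_) hc.1
  rw [push_single]
  refine mem_Q_single (hσ.1.comp _) (Or.inr ⟨0, by push_cast; omega, ?_⟩) _
  intro x y _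
  change H (0, σ x) = H (0, σ y)
  rw [hx₀, hx₀]

/-- The flat cube. -/
def K (n : ℕ) : Set (Fin (n + 1) → ℝ) :=
  {x | x (Fin.last n) = 0 ∧ ∀ i : Fin n, x i.castSucc ∈ Set.Icc (-(1 / 2) : ℝ) (1 / 2)}

theorem isCompact_K (n : ℕ) : IsCompact (K n) := by
  have h : IsClosed (K n) := by
    have e : K n = {x | x (Fin.last n) = 0} ∩
        ⋂ i : Fin n, {x | x i.castSucc ∈ Set.Icc (-(1 / 2) : ℝ) (1 / 2)} := by
      ext x
      simp [K]
    rw [e]
    refine (isClosed_eq (continuous_apply _) continuous_const).inter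
      (isClosed_iInter fun i => ?_)
    exact isClosed_Icc.preimage (continuous_apply _)
  refine IsCompact.of_isClosed_subset (isCompact_univ_pi fun _ => isCompact_Icc
    (a := (-(1 / 2) : ℝ)) (b := 1 / 2)) h ?_
  rintro x ⟨h1, h2⟩ i _
  refine Fin.lastCases ?_ (fun i => h2 i) i
  rw [h1]
  constructor <;> norm_num

theorem convex_K (n : ℕ) : Convex ℝ (K n) := by
  rintro x ⟨h1, h2⟩ y ⟨h3, h4⟩ a b ha hb hab
  refine ⟨?_, fun i => ?_⟩
  · rw [Pi.add_apply, Pi.smul_apply, Pi.smul_apply, h1, h3, smul_zero, smul_zero, add_zero]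
  · exact (convex_Icc _ _) (h2 i) (h4 i) ha hb hab

theorem nonempty_K (n : ℕ) : (K n).Nonempty := by
  refine ⟨0, rfl, fun i => ?_⟩
  constructor <;> norm_num

theorem K_lt (n : ℕ) : ∀ x ∈ K n, ∀ i, -1 < x i ∧ x i < 1 := by
  rintro x ⟨h1, h2⟩ i
  refine Fin.lastCases ?_ (fun i => ?_) i
  · rw [h1]
    constructor <;> norm_num
  · have := h2 i
    rw [Set.mem_Icc] at this
    constructor <;> linarith [this.1, this.2]

/-- The complement of the flat cube. -/
abbrev T (n : ℕ) : Type := {x : Fin (n + 1) → ℝ // x ∉ K n}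

/-- The inclusion. -/
def jT (n : ℕ) : C(T n, Fin (n + 1) → ℝ) := ⟨Subtype.val, continuous_subtype_val⟩

theorem jT_ind (n : ℕ) : Topology.IsInducing (jT n) := Topology.IsInducing.subtypeVal

theorem jT_inj (n : ℕ) : Function.Injective (jT n) := Subtype.val_injective

theorem range_jT (n : ℕ) : Set.range (jT n) = (K n)ᶜ := Subtype.range_val

/-- The identity chart. -/
noncomputable def idc (n : ℕ) : (Set.univ : Set (Fin n → ℝ)) ≃ₜ (Fin n → ℝ) :=
  Homeomorph.Set.univ _

theorem idc_symm (n : ℕ) (x : Fin n → ℝ) : (((idc n).symm x : (Set.univ : Set (Fin n → ℝ))) :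
    Fin n → ℝ) = x := rfl

theorem inChart_idc (n : ℕ) : inChart (idc (n + 1)) (K n) = K n := by
  ext x
  constructor
  · rintro ⟨y, hy, rfl⟩
    exact hy
  · intro hx
    exact ⟨x, hx, rfl⟩

theorem locCh_idc (n : ℕ) : locCh R (idc n) = stdCh R n := by
  unfold locCh stdCh
  congr 1

/-- The faces of the box. -/
noncomputable def bcube (n : ℕ) (i : Fin (n + 1)) (e : Bool) : C(Cb, T n) :=
  ⟨fun u => ⟨stdCube (n + 1) (ins i (if e then 1 else 0) u), by
    intro h
    have h1 := K_lt n _ h i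
    have h2 : stdCube (n + 1) (ins i (if e then 1 else 0) u) i =
        2 * (((if e then 1 else 0 : I)) : ℝ) - 1 := by
      change 2 * ((ins (i : ℕ) (if e then 1 else 0) u (i : ℕ) : I) : ℝ) - 1 = _
      rw [ins_apply_self]
    rw [h2] at h1
    cases e
    · norm_num at h1
    · norm_num at h1⟩, by
    refine Continuous.subtype_mk ?_ _
    exact (stdCube (n + 1)).continuous.comp (ins i _).continuous⟩

variable (R) in
/-- The boundary of the box, as a chain of the complement of the flat cube. -/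
noncomputable def zeta (n : ℕ) : Ch R (T n) :=
  ∑ i : Fin (n + 1), ((-1 : R) ^ (i : ℕ)) •
    (Finsupp.single (bcube n i true) 1 - Finsupp.single (bcube n i false) 1)

theorem push_zeta (n : ℕ) : push (jT n) (zeta R n) = bd ((n : ℤ) + 1) (stdCh R (n + 1)) := by
  rw [bd_apply, show ((n : ℤ) + 1).toNat = n + 1 by omega, Finset.sum_range, zeta, map_sum]
  refine Finset.sum_congr rfl fun i _ => ?_
  rw [map_smul, map_sub, push_single, push_single]
  unfold stdCh
  rw [face_single, face_single]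
  rfl

theorem isCube_bcube (n : ℕ) (i : Fin (n + 1)) (e : Bool) : IsCube (n : ℤ) (bcube n i e) := by
  rw [← isCube_comp_iff (jT_inj n)]
  have h : IsCube ((n : ℤ) + 1) (stdCube (n + 1)) := by
    refine ⟨by omega, fun x y hxy => ?_⟩
    funext l
    change 2 * ((x l : I) : ℝ) - 1 = 2 * ((y l : I) : ℝ) - 1
    rw [hxy l (by simp only [Set.mem_ofPred_eq]; have := l.2; omega)]
  have h2 := h.face (i := i) (by have := i.2; omega) (if e then 1 else 0)
  rw [add_sub_cancel_right] at h2
  exact h2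

theorem zeta_mem (n : ℕ) : zeta R n ∈ Z R n Set.univ ∅ := by
  rw [mem_Z_iff]
  constructor
  · unfold zeta
    refine Submodule.sum_mem _ fun i _ => Submodule.smul_mem _ _ (Submodule.sub_mem _ ?_ ?_)
    · exact mem_C_single (isCube_bcube n i true) (fun _ => Set.mem_univ _) _
    · exact mem_C_single (isCube_bcube n i false) (fun _ => Set.mem_univ _) _
  · have e0 : (∅ : Set (T n)) = jT n ⁻¹' ∅ := Set.preimage_empty.symm
    rw [e0, ← push_mem_Q_iff (jT_inj n), ← bd_push, push_zeta]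
    have h := bd_bd ((n : ℤ) + 1) (stdCh R (n + 1))
    rw [add_sub_cancel_right] at h
    rw [h]
    exact Submodule.zero_mem _

theorem con_zeta (n : ℕ) : Con (jT n) n (stdCh R (n + 1)) (zeta R n) := by
  refine ⟨?_, zeta_mem n, ?_⟩
  · have h := locCh_mem (R := R) (idc (n + 1)) (K_lt n)
    rw [locCh_idc, inChart_idc, ← range_jT] at h
    have e : (((n + 1 : ℕ) : ℤ)) = (n : ℤ) + 1 := by push_cast; ring
    rw [e] at h
    exact h
  · rw [push_zeta, sub_self]
    exact Submodule.zero_mem _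

/-- Cycles of positive degree bound in the Euclidean space. -/
theorem bd_euclid {n : ℕ} {k : ℤ} (hk : 1 ≤ k) {c : Ch R (Fin n → ℝ)}
    (hc : c ∈ Z R k Set.univ ∅) : Bd R k Set.univ ∅ c := by
  let H : C(I × (Fin n → ℝ), Fin n → ℝ) := ⟨fun p => (p.1 : ℝ) • p.2, by fun_prop⟩
  refine bd_of_contraction (H := H) ⟨0, fun x => ?_⟩ (fun x => ?_) hk hc
  · change ((0 : I) : ℝ) • x = 0
    simp
  · change ((1 : I) : ℝ) • x = x
    simp

/-- The homology of the complement vanishes in positive degrees different from `n`. -/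
theorem T_vanish {n : ℕ} {k : ℤ} (hk : 1 ≤ k) (hkn : k ≠ n) {c : Ch R (T n)}
    (hc : c ∈ Z R k Set.univ ∅) : Bd R k Set.univ ∅ c := by
  have h1 : push (jT n) c ∈ Z R k Set.univ ∅ :=
    push_mem_Z (fun _ _ => Set.mem_univ _) (fun _ h => h) hc
  obtain ⟨e, he⟩ := exists_con hc (bd_euclid hk h1)
  refine he.bd (jT_ind n) (jT_inj n) ?_
  have h2 := he.1
  rw [range_jT, ← inChart_idc] at h2 ⊢
  exact loc_vanish isOpen_univ (idc (n + 1)) (isCompact_K n) (convex_K n) (nonempty_K n)
    (by push_cast; omega) h2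

/-- The homology of the complement in degree `n` is generated by the boundary of the box. -/
theorem T_gen {n : ℕ} (hn : 1 ≤ n) {c : Ch R (T n)} (hc : c ∈ Z R n Set.univ ∅) :
    ∃ r : R, Bd R n Set.univ ∅ (c - r • zeta R n) := by
  have h1 : push (jT n) c ∈ Z R n Set.univ ∅ :=
    push_mem_Z (fun _ _ => Set.mem_univ _) (fun _ h => h) hc
  obtain ⟨e, he⟩ := exists_con hc (bd_euclid (by omega) h1)
  have h2 := he.1
  have e1 : (((n + 1 : ℕ) : ℤ)) = (n : ℤ) + 1 := by push_cast; ring
  rw [range_jT, ← inChart_idc, ← e1] at h2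
  obtain ⟨r, hr⟩ := loc_gen isOpen_univ (idc (n + 1)) (isCompact_K n) (convex_K n) (nonempty_K n)
    (K_lt n) h2
  refine ⟨r, (he.sub ((con_zeta n).smul r)).bd (jT_ind n) (jT_inj n) ?_⟩
  rw [range_jT, ← inChart_idc, ← e1, ← locCh_idc]
  exact hr

end Cq

end CubeHom
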