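import Pool.Agent.Lib.MP_cb6a70_gt_HB.Side
import Pool.Agent.Lib.MP_cb6a70_gt_HB.UCover

/-!
# The topological core theorem
-/

namespace CubeHom

open Set Metric

/-- The cube as a convex set. -/
def cubeHomeoConvex (m : ℕ) :
    (Fin m → unitInterval) ≃ₜ {v : Fin m → ℝ // v ∈ Set.Icc (0 : Fin m → ℝ) 1} where
  toFun u := ⟨fun i => u i, ⟨fun i => (u i).2.1, fun i => (u i).2.2⟩⟩
  invFun v := fun i => ⟨v.1 i, ⟨v.2.1 i, v.2.2 i⟩⟩
  left_inv u := rfl
  right_inv v := rfl
  continuous_toFun := by fun_prop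
  continuous_invFun := continuous_pi fun i =>
    (((continuous_apply i).comp continuous_subtype_val).subtype_mk _)

theorem cube_contractible (m : ℕ) : ContractibleSpace (Fin m → unitInterval) := by
  have h : ContractibleSpace {v : Fin m → ℝ // v ∈ Set.Icc (0 : Fin m → ℝ) 1} :=
    (convex_Icc (0 : Fin m → ℝ) 1).contractibleSpace ⟨0, by simp⟩
  exact (cubeHomeoConvex m).contractibleSpace

theorem cube_locallyPathConnected (m : ℕ) : LocallyPathConnectedSpace (Fin m → unitInterval) := by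
  have h : LocallyPathConnectedSpace {v : Fin m → ℝ // v ∈ Set.Icc (0 : Fin m → ℝ) 1} :=
    (convex_Icc (0 : Fin m → ℝ) 1).locallyPathConnectedSpace
  exact (cubeHomeoConvex m).isOpenEmbedding.locallyPathConnectedSpace

/-- The cube is simply connected and locally path connected; discs lift to coverings. -/
theorem exists_lift_disc {m : ℕ} {M E : Type} [TopologicalSpace M] [TopologicalSpace E]
    {p : E → M} (hp : IsCoveringMap p) (hs : Function.Surjective p)
    (D : C(Fin m → unitInterval, M)) : ∃ D' : C(Fin m → unitInterval, E), ∀ u, p (D' u) = D u := by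
  have hloc := cube_locallyPathConnected m
  have hc := cube_contractible m
  obtain ⟨e, he⟩ := hs (D fun _ => 0)
  obtain ⟨F, hF, -⟩ := hp.existsUnique_continuousMap_lifts D (fun _ => 0) e he
  exact ⟨F, fun u => congrFun hF.2 u⟩

theorem isCube_disc {m : ℕ} {Y : Type*} [TopologicalSpace Y]
    (D : C(Fin m → unitInterval, Y)) : IsCube (m : ℤ) (cubeOf D) := by
  refine ⟨by omega, fun x y hxy => ?_⟩
  refine congrArg D (funext fun i => hxy i ?_)
  simp

/-- The chain of a disc is a cycle relative to the image of the boundary. -/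
theorem disc_mem_Z {R : Type*} [CommRing R] {m : ℕ} {Y : Type*} [TopologicalSpace Y]
    (D : C(Fin m → unitInterval, Y)) :
    (Finsupp.single (cubeOf D) 1 : Ch R Y) ∈ Z R m Set.univ (D '' bdry m) := by
  have hcube : IsCube (m : ℤ) (cubeOf D) := isCube_disc D
  refine Submodule.mem_inf.2 ⟨mem_C_single hcube (fun _ => mem_univ _) 1, ?_⟩
  rw [Submodule.mem_comap, bd_apply]
  refine Submodule.sum_mem _ fun i hi => Submodule.smul_mem _ _ (Submodule.sub_mem _ ?_ ?_)
  all_goals
    rw [face_single]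
    have hi' : i < m := by simpa using hi
    refine mem_Q_single (hcube.face (by exact_mod_cast hi') _) (Or.inl fun u => ?_) 1
  · exact ⟨_, ⟨⟨i, hi'⟩, Or.inr (ins_apply_self i 1 u)⟩, rfl⟩
  · exact ⟨_, ⟨⟨i, hi'⟩, Or.inl (ins_apply_self i 0 u)⟩, rfl⟩

theorem compact_bdry (m : ℕ) : IsCompact (bdry m) := by
  have h : bdry m = ⋃ i, ({u | u i = 0} ∪ {u | u i = 1}) := by
    ext u
    simp [bdry]
  rw [h]
  refine (isClosed_iUnion_of_finite fun i => ?_).isCompact
  exact (isClosed_eq (continuous_apply i) continuous_const).union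
    (isClosed_eq (continuous_apply i) continuous_const)

theorem disc_mem_C {R : Type*} [CommRing R] {m : ℕ} {Y : Type*} [TopologicalSpace Y]
    (D : C(Fin m → unitInterval, Y)) {A : Set Y} (h : ∀ u, D u ∈ A) :
    (Finsupp.single (cubeOf D) 1 : Ch R Y) ∈ C R m A :=
  mem_C_single (isCube_disc D) (fun _ => h _) 1

/-- **Core theorem.** For a flat hypersphere with a filling disc in a compact connected locally
Euclidean space of dimension `n + 1 ≥ 3` which embeds in a Euclidean space: if the side `V ∪ S` is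
not contractible, then `U ∪ S` is simply connected. -/
theorem core {n : ℕ} (hn : 2 ≤ n) {M : Type} [TopologicalSpace M] [T2Space M] [CompactSpace M]
    [ConnectedSpace M] (hM : LocEuc (n + 1) M) {N : ℕ} (e : M → (Fin N → ℝ))
    (he : Topology.IsEmbedding e) (P : FlatSphere n M)
    {ι : Metric.sphere (0 : EuclideanSpace ℝ (Fin (n + 1))) 1 → M}
    (hι : Topology.IsEmbedding ι) (hS : Set.range ι = P.S)
    (hV : ¬ ContractibleSpace ↥(P.V ∪ P.S)) : SimplyConnectedSpace ↥(P.U ∪ P.S) := by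
  classical
  obtain ⟨E, _, p, hT2, hSC, hE, hp, hsurj, hdeck⟩ := exists_universal_cover hM
  obtain ⟨D', hD⟩ := exists_lift_disc hp hsurj P.D
  have hEc : ConnectedSpace E := inferInstance
  -- the parametrisation of the sphere
  let β : Metric.sphere (0 : EuclideanSpace ℝ (Fin (n + 1))) 1 ≃ₜ P.S :=
    hι.toHomeomorph.trans (Homeomorph.setCongr hS)
  have hdisjU : Disjoint P.U P.S := by
    rw [Set.disjoint_left]
    intro x hx hx'
    have : x ∈ (P.D '' bdry (n + 1))ᶜ := P.compl ▸ Or.inl hx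
    exact this hx'
  have hdisjV : Disjoint P.V P.S := by
    rw [Set.disjoint_left]
    intro x hx hx'
    have : x ∈ (P.D '' bdry (n + 1))ᶜ := P.compl ▸ Or.inr hx
    exact this hx'
  -- the absolute degree
  set c : Ch ℤ E := Finsupp.single (cubeOf D') 1 with hc
  let m : E → ℕ := fun x => if h : ∃ d, AbsDeg (n + 1) c x d then h.choose else 0
  have hm : ∀ x d, AbsDeg (n + 1) c x d → m x = d := by
    intro x d h
    have h' : ∃ d, AbsDeg (n + 1) c x d := ⟨d, h⟩
    have : m x = h'.choose := dif_pos h'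
    rw [this]
    exact h'.choose_spec.unique h
  have hZ : c ∈ Z ℤ ((n + 1 : ℕ) : ℤ) Set.univ (D' '' bdry (n + 1)) := disc_mem_Z D'
  have hclosed : IsClosed (D' '' bdry (n + 1)) :=
    ((compact_bdry _).image D'.continuous).isClosed
  have hex : ∀ x, x ∉ D' '' bdry (n + 1) → ∃ d, AbsDeg (n + 1) c x d := by
    intro x hx
    refine AbsDeg.exists hE ⟨hZ.1, ?_⟩
    refine Q_mono _ ?_ hZ.2
    intro y hy hyx
    rw [Set.mem_singleton_iff] at hyx
    exact hx (hyx ▸ hy)
  have h0 : ∀ x, x ∉ Set.range D' → m x = 0 := by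
    intro x hx
    refine hm x 0 (AbsDeg.zero hE (disc_mem_C D' fun u => ?_))
    intro hu
    rw [Set.mem_singleton_iff] at hu
    exact hx ⟨u, hu⟩
  have hloc : ∀ x, x ∉ D' '' bdry (n + 1) → ∀ᶠ x' in nhds x, m x' = m x := by
    intro x hx
    obtain ⟨d, hd⟩ := hex x hx
    have := AbsDeg.locConst hE hclosed hZ hx hd
    rw [hm x d hd]
    exact this.mono fun x' hx' => hm x' d hx'
  have hflat := lift_flat hp P D' hD
  have hjump : ∀ s ∈ D' '' bdry (n + 1), ∃ W ∈ nhds s, ∃ a b : ℕ, Nat.Coprime a b ∧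
      a % 2 ≠ b % 2 ∧ ∀ x ∈ W, (p x ∈ P.U → m x = a) ∧ (p x ∈ P.V → m x = b) := by
    intro s hs
    obtain ⟨N', hN', hsN, θ, hθ⟩ := hflat s hs
    have hinj : Set.InjOn D' (bdry (n + 1)) := by
      intro u hu v hv huv
      exact P.inj hu hv (by rw [← hD u, ← hD v, huv])
    obtain ⟨a, b, hab, hpar, hval⟩ := jump (by omega) hE D' hinj hN' θ (fun x => (hθ x).1)
    refine ⟨N', hN'.mem_nhds hsN, a, b, hab, hpar, fun x hx => ⟨fun hU => ?_, fun hV => ?_⟩⟩
    · exact hm x a ((hval ⟨x, hx⟩).1 ((hθ ⟨x, hx⟩).2.2.1.1 hU))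
    · exact hm x b ((hval ⟨x, hx⟩).2 ((hθ ⟨x, hx⟩).2.2.2.1 hV))
  rcases alternative (by omega) hM hE hp hdeck P D' hD m h0 hloc hjump with ⟨⟨τ⟩⟩ | h
  · exact simplyConnected_of_section hn hp.continuous hdisjU β (P.pathConnected_side hM) τ
  · obtain ⟨τ, g, a, b, hg, hab, h1, h2⟩ := h
    exfalso
    have hsc : SimplyConnectedSpace ↥(P.V ∪ P.S) :=
      simplyConnected_of_section hn hp.continuous hdisjV β (P.symm.pathConnected_side hM) τ
    have hdeg : ∀ x : ↥(P.V ∪ P.S), (x : M) ∈ P.V → AbsDeg (n + 1) c (τ.σ x) b := by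
      intro x hx
      obtain ⟨d, hd⟩ := hex _ (h1 x hx).1
      have h3 := hm _ d hd
      rw [(h1 x hx).2] at h3
      exact h3 ▸ hd
    have hdeg2 : ∀ x : ↥(P.V ∪ P.S), (x : M) ∈ P.V →
        AbsDeg (n + 1) c (g (τ.σ x)) a := by
      intro x hx
      obtain ⟨d, hd⟩ := hex _ (h2 x hx).1
      have h3 := hm _ d hd
      rw [(h2 x hx).2] at h3
      exact h3 ▸ hd
    let D₂ : C(Fin (n + 1) → unitInterval, E) := (g.symm : C(E, E)).comp D'
    have hpush : push (g.symm : C(E, E)) c = Finsupp.single (cubeOf D₂) 1 := by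
      rw [hc, push_single]
      rfl
    refine hV (contractible_side (by omega) hM hE hp.continuous P.symm hι hS τ D' D₂
      hab.symm ?_ ?_ hdeg ?_ hsc e he)
    · intro u hu x hx hux
      exact (h1 x hx).1 ⟨u, hu, hux⟩
    · intro u hu x hx hux
      refine (h2 x hx).1 ⟨u, hu, ?_⟩
      rw [← hux]
      exact (g.apply_symm_apply (D' u)).symm
    · intro x hx
      have h4 := (hdeg2 x hx).homeo g.symm
      rw [hpush, g.symm_apply_apply] at h4
      exact h4

end CubeHom
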