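import Pool.Agent.Lib.MP_cb6a70_gt_HB.Basic

/-!
# The cross product and the prism operator
-/

namespace CubeHom

variable {R : Type*} [CommRing R]
variable {X Y B X' Y' B' : Type*} [TopologicalSpace X] [TopologicalSpace Y] [TopologicalSpace B]
  [TopologicalSpace X'] [TopologicalSpace Y'] [TopologicalSpace B']

@[simp] theorem cr_single_single (n : ℕ) (τ : C(Cb, Y)) (σ : C(Cb, B)) (r s : R) :
    cr n (Finsupp.single τ r) (Finsupp.single σ s) =
      Finsupp.single (crossCube n τ σ) (r * s) := by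
  simp [cr, Finsupp.mapDomain_single]

/-- Checking a property of cross products on cubes. -/
theorem cr_mem_of_supported {n : ℕ} {S : Set (C(Cb, Y))} {T : Set (C(Cb, B))}
    (P : Submodule R (Ch R (Y × B)))
    (h : ∀ τ ∈ S, ∀ σ ∈ T, Finsupp.single (crossCube n τ σ) (1 : R) ∈ P)
    {z : Ch R Y} {c : Ch R B} (hz : z ∈ Finsupp.supported R R S)
    (hc : c ∈ Finsupp.supported R R T) : cr n z c ∈ P := by
  refine map_mem_of_supported ((cr n).flip c) P (fun τ hτ => ?_) hz
  rw [LinearMap.flip_apply]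
  refine map_mem_of_supported (cr n (Finsupp.single τ 1)) P (fun σ hσ => ?_) hc
  rw [cr_single_single, one_mul]
  exact h τ hτ σ hσ

/-- Two bilinear maps which agree on the cubes agree. -/
theorem bilin_eq_of_supported {M : Type*} [AddCommGroup M] [Module R M] {S : Set (C(Cb, Y))}
    {T : Set (C(Cb, B))} (f g : Ch R Y →ₗ[R] Ch R B →ₗ[R] M)
    (h : ∀ τ ∈ S, ∀ σ ∈ T, f (Finsupp.single τ 1) (Finsupp.single σ 1) =
      g (Finsupp.single τ 1) (Finsupp.single σ 1))
    {z : Ch R Y} {c : Ch R B} (hz : z ∈ Finsupp.supported R R S)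
    (hc : c ∈ Finsupp.supported R R T) : f z c = g z c := by
  have h1 := map_eq_of_supported (f.flip c) (g.flip c) (fun τ hτ => by
    rw [LinearMap.flip_apply, LinearMap.flip_apply]
    exact map_eq_of_supported (f (Finsupp.single τ 1)) (g (Finsupp.single τ 1))
      (fun σ hσ => h τ hτ σ hσ) hc) hz
  simpa using h1

theorem crossCube_apply (n : ℕ) (τ : C(Cb, Y)) (σ : C(Cb, B)) (u : Cb) :
    crossCube n τ σ u = (τ u, σ (drop n u)) := rfl

theorem isCube_cross {n : ℕ} {k : ℤ} {τ : C(Cb, Y)} {σ : C(Cb, B)} (hτ : IsCube n τ)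
    (hσ : IsCube k σ) : IsCube (n + k) (crossCube n τ σ) := by
  refine ⟨by have := hσ.1; omega, fun x y hxy => ?_⟩
  simp only [Set.mem_ofPred_eq] at hxy
  rw [crossCube_apply, crossCube_apply]
  congr 1
  · refine hτ.2 fun j hj => hxy j ?_
    simp only [Set.mem_ofPred_eq] at hj
    have := hσ.1
    omega
  · refine hσ.2 fun j hj => ?_
    simp only [Set.mem_ofPred_eq] at hj
    rw [drop_apply, drop_apply]
    exact hxy _ (by push_cast; omega)

theorem degen_cross_left {n : ℕ} {k : ℤ} {τ : C(Cb, Y)} {σ : C(Cb, B)} (hτ : Degen n τ)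
    (hσ : IsCube k σ) : Degen (n + k) (crossCube n τ σ) := by
  obtain ⟨i, hi, hτ⟩ := hτ
  refine ⟨i, by have := hσ.1; omega, fun x y hxy => ?_⟩
  simp only [Set.mem_ofPred_eq] at hxy
  rw [crossCube_apply, crossCube_apply]
  congr 1
  · exact hτ hxy
  · congr 1
    funext j
    rw [drop_apply, drop_apply]
    exact hxy _ (by omega)

theorem degen_cross_right {n : ℕ} {k : ℤ} {τ : C(Cb, Y)} {σ : C(Cb, B)} (hτ : IsCube n τ)
    (hσ : Degen k σ) : Degen (n + k) (crossCube n τ σ) := by
  obtain ⟨i, hi, hσ⟩ := hσ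
  refine ⟨n + i, by push_cast; omega, fun x y hxy => ?_⟩
  simp only [Set.mem_ofPred_eq] at hxy
  rw [crossCube_apply, crossCube_apply]
  congr 1
  · refine hτ.2 fun j hj => hxy j ?_
    simp only [Set.mem_ofPred_eq] at hj
    omega
  · refine hσ fun j hj => ?_
    simp only [Set.mem_ofPred_eq] at hj
    rw [drop_apply, drop_apply]
    exact hxy _ (by omega)

theorem cr_mem_C {n : ℕ} {k : ℤ} {V : Set Y} {U : Set B} {z : Ch R Y} {c : Ch R B}
    (hz : z ∈ C R n V) (hc : c ∈ C R k U) : cr n z c ∈ C R (n + k) (V ×ˢ U) := by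
  refine cr_mem_of_supported _ (fun τ hτ σ hσ => ?_) hz hc
  exact mem_C_single (isCube_cross hτ.1 hσ.1) (fun u => Set.mk_mem_prod (hτ.2 u) (hσ.2 _)) _

theorem cr_mem_Q_left {n : ℕ} {k : ℤ} {V : Set Y} {U : Set B} {z : Ch R Y} {c : Ch R B}
    (hz : z ∈ Q R n V) (hc : c ∈ C R k U) : cr n z c ∈ Q R (n + k) (V ×ˢ U) := by
  refine cr_mem_of_supported _ (fun τ hτ σ hσ => ?_) hz hc
  exact mem_Q_single (isCube_cross hτ.1 hσ.1)
    (hτ.2.imp (fun h u => Set.mk_mem_prod (h u) (hσ.2 _)) fun h => degen_cross_left h hσ.1) _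

theorem cr_mem_Q_right {n : ℕ} {k : ℤ} {V : Set Y} {U : Set B} {z : Ch R Y} {c : Ch R B}
    (hz : z ∈ C R n V) (hc : c ∈ Q R k U) : cr n z c ∈ Q R (n + k) (V ×ˢ U) := by
  refine cr_mem_of_supported _ (fun τ hτ σ hσ => ?_) hz hc
  exact mem_Q_single (isCube_cross hτ.1 hσ.1)
    (hσ.2.imp (fun h u => Set.mk_mem_prod (hτ.2 u) (h _)) fun h => degen_cross_right hτ.1 h) _

theorem push_cr (n : ℕ) (f : C(Y, Y')) (g : C(B, B')) (z : Ch R Y) (c : Ch R B) :
    cr n (push f z) (push g c) = push (f.prodMap g) (cr n z c) := by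
  have h := bilin_eq_of_supported (R := R) (S := (Set.univ : Set (C(Cb, Y))))
    (T := (Set.univ : Set (C(Cb, B)))) ((cr n).compl₁₂ (push f) (push g))
    ((cr n).compr₂ (push (f.prodMap g))) (fun τ _ σ _ => by
      simp only [LinearMap.compl₁₂_apply, LinearMap.compr₂_apply, push_single, cr_single_single]
      rfl) (z := z) (c := c) (by simp [Finsupp.supported_univ]) (by simp [Finsupp.supported_univ])
  simpa using h

theorem cross_ins_left {n i : ℕ} (hi : i < n) (e : I) (τ : C(Cb, Y)) (σ : C(Cb, B)) :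
    (crossCube n τ σ).comp (ins i e) = crossCube (n - 1) (τ.comp (ins i e)) σ := by
  ext u : 1
  simp only [ContinuousMap.comp_apply, crossCube_apply]
  congr 2
  funext j
  rw [drop_apply, drop_apply, ins_apply_gt (by omega)]
  congr 1
  omega

theorem cross_ins_right {n : ℕ} (j : ℕ) (e : I) {τ : C(Cb, Y)} (hτ : IsCube n τ)
    (σ : C(Cb, B)) :
    (crossCube n τ σ).comp (ins (n + j) e) = crossCube n τ (σ.comp (ins j e)) := by
  ext u : 1
  simp only [ContinuousMap.comp_apply, crossCube_apply]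
  congr 1
  · refine hτ.2 fun l hl => ?_
    simp only [Set.mem_ofPred_eq] at hl
    rw [ins_apply_lt (by omega)]
  · congr 1
    funext l
    rw [drop_apply]
    rcases lt_trichotomy l j with h | h | h
    · rw [ins_apply_lt (by omega), ins_apply_lt h, drop_apply]
    · subst h
      rw [ins_apply_self, ins_apply_self]
    · rw [ins_apply_gt (by omega), ins_apply_gt h, drop_apply]
      congr 1
      omega

/-- The boundary of a cross product (Leibniz rule). -/
theorem bd_cr {n : ℕ} {k : ℤ} {z : Ch R Y} {c : Ch R B}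
    (hz : z ∈ C R n Set.univ) (hc : c ∈ C R k Set.univ) :
    bd (n + k) (cr n z c) =
      cr (n - 1) (bd n z) c + ((-1 : R) ^ n) • cr n z (bd k c) := by
  have h := bilin_eq_of_supported (R := R) ((cr n).compr₂ (bd (n + k)) : Ch R Y →ₗ[R] Ch R B →ₗ[R] _)
    ((cr (n - 1)).comp (bd (n : ℤ)) + ((-1 : R) ^ n) • (cr n).compl₂ (bd k))
    (fun τ hτ σ hσ => ?_) hz hc
  · simpa using h
  obtain ⟨k', rfl⟩ : ∃ m : ℕ, k = m := ⟨k.toNat, by have := hσ.1.1; omega⟩
  simp only [LinearMap.compr₂_apply, LinearMap.add_apply, LinearMap.comp_apply,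
    LinearMap.smul_apply, LinearMap.compl₂_apply, cr_single_single, mul_one]
  rw [bd_apply, bd_apply, bd_apply, show ((n : ℤ) + (k' : ℤ)).toNat = n + k' by omega,
    Int.toNat_natCast, Int.toNat_natCast, Finset.sum_range_add]
  congr 1
  · rw [map_sum, LinearMap.sum_apply]
    refine Finset.sum_congr rfl fun i hi => ?_
    rw [Finset.mem_range] at hi
    simp only [face_single, map_smul, map_sub, LinearMap.smul_apply, LinearMap.sub_apply,
      cr_single_single, mul_one, cross_ins_left hi]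
  · rw [map_sum, Finset.smul_sum]
    refine Finset.sum_congr rfl fun i _ => ?_
    simp only [face_single, map_smul, map_sub, cr_single_single, mul_one,
      cross_ins_right i _ hτ.1, smul_smul, pow_add]

theorem iota_isCube : IsCube 1 iota := by
  refine ⟨by norm_num, fun x y hxy => hxy 0 ?_⟩
  simp

theorem iota_mem : (Finsupp.single iota 1 : Ch R I) ∈ C R ((1 : ℕ) : ℤ) Set.univ :=
  mem_C_single (by exact_mod_cast iota_isCube) (fun _ => Set.mem_univ _) _

@[simp] theorem prism_single (H : C(I × X, Y)) (σ : C(Cb, X)) (r : R) :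
    prism H (Finsupp.single σ r) =
      Finsupp.single (H.comp (crossCube 1 iota σ)) r := by
  simp [prism]

theorem prism_apply (H : C(I × X, Y)) (c : Ch R X) :
    prism H c = push H (cr 1 (Finsupp.single iota 1) c) := rfl

theorem bd_prism {H : C(I × X, Y)} {k : ℤ} {c : Ch R X} (hc : c ∈ C R k Set.univ) :
    bd (k + 1) (prism H c) =
      push (atTime H 1) c - push (atTime H 0) c - prism H (bd k c) := by
  rw [prism_apply, prism_apply, bd_push, add_comm k 1]
  have h := bd_cr (R := R) (n := 1) iota_mem hc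
  rw [Nat.cast_one] at h
  rw [h, map_add, map_smul, pow_one, neg_one_smul, ← sub_eq_add_neg]
  congr 1
  have key : ∀ e : I, push H (cr 0 (Finsupp.single (iota.comp (ins 0 e)) 1) c) =
      push (atTime H e) c := by
    intro e
    have h2 : (push H).comp (cr 0 (Finsupp.single (iota.comp (ins 0 e)) (1 : R))) =
        push (R := R) (atTime H e) := by
      ext σ : 2
      simp only [LinearMap.comp_apply, Finsupp.lsingle_apply, cr_single_single, mul_one,
        push_single]
      congr 1
      ext u : 1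
      simp only [ContinuousMap.comp_apply, crossCube_apply, atTime, ContinuousMap.coe_mk]
      have h3 : drop 0 u = u := by
        funext j
        rw [drop_apply, zero_add]
      have h4 : iota (ins 0 e u) = e := ins_apply_self 0 e u
      rw [h3, h4]
    exact LinearMap.congr_fun h2 c
  rw [bd_apply]
  simp only [Int.toNat_one, Finset.range_one, Finset.sum_singleton, pow_zero, one_smul,
    face_single, map_sub, LinearMap.sub_apply, Nat.sub_self, key]

theorem prism_mem_C {H : C(I × X, Y)} {k : ℤ} {U : Set X} {V : Set Y}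
    (hH : ∀ t, ∀ x ∈ U, H (t, x) ∈ V) {c : Ch R X} (hc : c ∈ C R k U) :
    prism H c ∈ C R (k + 1) V := by
  have h := cr_mem_C (R := R) (n := 1) iota_mem hc
  rw [Nat.cast_one, add_comm] at h
  exact push_mem_C (fun p hp => hH p.1 p.2 hp.2) h

theorem prism_mem_Q {H : C(I × X, Y)} {k : ℤ} {U : Set X} {V : Set Y}
    (hH : ∀ t, ∀ x ∈ U, H (t, x) ∈ V) {c : Ch R X} (hc : c ∈ Q R k U) :
    prism H c ∈ Q R (k + 1) V := by
  have h := cr_mem_Q_right (R := R) (n := 1) iota_mem hc
  rw [Nat.cast_one, add_comm] at h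
  exact push_mem_Q (fun p hp => hH p.1 p.2 hp.2) h

/-- If the homotopy does not move the points of `U`, the prism of a chain of `U` is degenerate. -/
theorem prism_const {H : C(I × X, Y)} {k : ℤ} {U : Set X} {A : Set Y}
    (hH : ∀ s t, ∀ x ∈ U, H (s, x) = H (t, x)) {c : Ch R X} (hc : c ∈ C R k U) :
    prism H c ∈ Q R (k + 1) A := by
  refine map_mem_of_supported (prism H) _ (fun σ hσ => ?_) hc
  rw [prism_single]
  have h1 : IsCube (1 + k) (crossCube 1 iota σ) := by
    have := isCube_cross (n := 1) (by exact_mod_cast iota_isCube) hσ.1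
    exact_mod_cast this
  rw [add_comm] at h1
  refine mem_Q_single (h1.comp H) (Or.inr ⟨0, by have := hσ.1.1; push_cast; omega, ?_⟩) _
  intro x y hxy
  simp only [Set.mem_ofPred_eq] at hxy
  simp only [ContinuousMap.comp_apply, crossCube_apply]
  have h2 : drop 1 x = drop 1 y := by
    funext j
    rw [drop_apply, drop_apply]
    exact hxy _ (by omega)
  rw [h2]
  exact hH _ _ _ (hσ.2 _)

/-- **Homotopy lemma.** A relative cycle is moved by a homotopy within its relative class. -/
theorem Bd_homotopy {H : C(I × X, Y)} {k : ℤ} {U A : Set X} {V A' : Set Y}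
    (hU : ∀ t, ∀ x ∈ U, H (t, x) ∈ V) (hA : ∀ t, ∀ x ∈ A, H (t, x) ∈ A')
    {c : Ch R X} (hc : c ∈ Z R k U A) :
    Bd R k V A' (push (atTime H 1) c - push (atTime H 0) c) := by
  refine ⟨prism H c, prism_mem_C hU hc.1, ?_⟩
  rw [bd_prism (C_mono k (Set.subset_univ U) hc.1), sub_sub_cancel]
  have h := prism_mem_Q (R := R) hA hc.2
  rwa [sub_add_cancel] at h

end CubeHom
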