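import Mathlib

/-!
# Abstract Mayer-Vietoris systems

A `Sys` is a differential `d` on a module, submodules `C U k` of chains for every subset `U` of a
space, and submodules `Q k` of chains considered to be zero, with the small chain property.
`Acyc U` says that the complex `C U / Q` is acyclic.  Acyclicity passes from `U`, `V`, `U ∩ V`
to `U ∪ V`, and a quasi-isomorphism is encoded by the acyclicity of the mapping cone, which is
again a `Sys`.
-/

namespace CubeHom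

variable {R : Type*} [CommRing R]

structure Sys (B : Type*) [TopologicalSpace B] (R : Type*) [CommRing R]
    (M : Type*) [AddCommGroup M] [Module R M] where
  d : ℤ → M →ₗ[R] M
  Q : ℤ → Submodule R M
  C : Set B → ℤ → Submodule R M
  dC : ∀ U k, ∀ c ∈ C U k, d k c ∈ C U (k - 1)
  dQ : ∀ k, ∀ c ∈ Q k, d k c ∈ Q (k - 1)
  dd : ∀ k, ∀ c ∈ C Set.univ k, d (k - 1) (d k c) ∈ Q (k - 1 - 1)
  mono : ∀ U V, U ⊆ V → ∀ k, C U k ≤ C V k
  inter : ∀ U V k, C (U ∩ V) k = C U k ⊓ C V k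
  split : ∀ U V k, Q k ⊓ (C U k ⊔ C V k) ≤ (Q k ⊓ C U k) ⊔ (Q k ⊓ C V k)
  small : ∀ U V, IsOpen U → IsOpen V → ∀ k, ∀ c ∈ C (U ∪ V) k,
    d k c ∈ C U (k - 1) ⊔ C V (k - 1) ⊔ Q (k - 1) →
    ∃ b ∈ C (U ∪ V) (k + 1), c - d (k + 1) b ∈ C U k ⊔ C V k ⊔ Q k

namespace Sys

variable {B : Type*} [TopologicalSpace B] {M M' : Type*} [AddCommGroup M] [Module R M]
  [AddCommGroup M'] [Module R M']

/-- The complex `C U / Q` is acyclic. -/
def Acyc (P : Sys B R M) (U : Set B) : Prop :=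
  ∀ k, ∀ c ∈ P.C U k, P.d k c ∈ P.Q (k - 1) →
    ∃ b ∈ P.C U (k + 1), c - P.d (k + 1) b ∈ P.Q k

/-- **Mayer-Vietoris.** -/
theorem Acyc.union {P : Sys B R M} {U V : Set B} (hU : IsOpen U) (hV : IsOpen V)
    (h1 : P.Acyc U) (h2 : P.Acyc V) (h12 : P.Acyc (U ∩ V)) : P.Acyc (U ∪ V) := by
  intro k c hc hdc
  obtain ⟨b, hb, hs⟩ := P.small U V hU hV k c hc (Submodule.mem_sup_right hdc)
  obtain ⟨y, hy, q, hq, hyq⟩ := Submodule.mem_sup.mp hs
  obtain ⟨a, ha, a', ha', rfl⟩ := Submodule.mem_sup.mp hy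
  have hddb : P.d k (P.d (k + 1) b) ∈ P.Q (k - 1) := by
    have h := P.dd (k + 1) b (P.mono _ _ (Set.subset_univ _) _ hb)
    rwa [add_sub_cancel_right] at h
  have h3 : P.d k a + P.d k a' ∈ P.Q (k - 1) := by
    have h4 : P.d k a + P.d k a' = P.d k c - P.d k (P.d (k + 1) b) - P.d k q := by
      have h5 : a + a' = c - P.d (k + 1) b - q := by rw [← hyq]; abel
      rw [← map_add, h5, map_sub, map_sub]
    rw [h4]
    exact Submodule.sub_mem _ (Submodule.sub_mem _ hdc hddb) (P.dQ k q hq)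
  obtain ⟨q1, hq1, q2, hq2, h6⟩ := Submodule.mem_sup.mp (P.split U V (k - 1) (Submodule.mem_inf.mpr
    ⟨h3, Submodule.add_mem_sup (P.dC U k a ha) (P.dC V k a' ha')⟩))
  obtain ⟨hq1Q, hq1U⟩ := Submodule.mem_inf.mp hq1
  obtain ⟨hq2Q, hq2V⟩ := Submodule.mem_inf.mp hq2
  have he : P.d k a - q1 = q2 - P.d k a' := by
    have : P.d k a = q1 + q2 - P.d k a' := by rw [h6]; abel
    rw [this]; abel
  have heC : P.d k a - q1 ∈ P.C (U ∩ V) (k - 1) := by
    rw [P.inter]
    refine Submodule.mem_inf.mpr ⟨Submodule.sub_mem _ (P.dC U k a ha) hq1U, ?_⟩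
    rw [he]
    exact Submodule.sub_mem _ hq2V (P.dC V k a' ha')
  have hde : P.d (k - 1) (P.d k a - q1) ∈ P.Q (k - 1 - 1) := by
    rw [map_sub]
    exact Submodule.sub_mem _ (P.dd k a (P.mono _ _ (Set.subset_univ _) _ ha)) (P.dQ _ _ hq1Q)
  obtain ⟨f, hf, hef⟩ := h12 (k - 1) _ heC hde
  rw [sub_add_cancel] at hf hef
  rw [P.inter] at hf
  obtain ⟨hfU, hfV⟩ := Submodule.mem_inf.mp hf
  obtain ⟨g1, hg1, hag⟩ := h1 k (a - f) (Submodule.sub_mem _ ha hfU) (by
    have h7 : P.d k (a - f) = (P.d k a - q1 - P.d k f) + q1 := by rw [map_sub]; abel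
    rw [h7]
    exact Submodule.add_mem _ hef hq1Q)
  obtain ⟨g2, hg2, hag2⟩ := h2 k (a' + f) (Submodule.add_mem _ ha' hfV) (by
    have h7 : P.d k (a' + f) = q2 - (P.d k a - q1 - P.d k f) := by
      rw [map_add, he]; abel
    rw [h7]
    exact Submodule.sub_mem _ hq2Q hef)
  refine ⟨b + g1 + g2, Submodule.add_mem _ (Submodule.add_mem _ hb
    (P.mono _ _ Set.subset_union_left _ hg1)) (P.mono _ _ Set.subset_union_right _ hg2), ?_⟩
  have h8 : c - P.d (k + 1) (b + g1 + g2)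
      = (a - f - P.d (k + 1) g1) + (a' + f - P.d (k + 1) g2) + q := by
    have h9 : c = P.d (k + 1) b + (a + a' + q) := by rw [hyq]; abel
    rw [map_add, map_add]
    nth_rewrite 1 [h9]
    abel
  rw [h8]
  exact Submodule.add_mem _ (Submodule.add_mem _ hag hag2) hq

/-- If `W` is covered by finitely many open sets `O i` such that all open subsets of each `O i`
are acyclic, then `W` is acyclic. -/
theorem Acyc.of_finite_cover {P : Sys B R M} {ι : Type*} [Finite ι] (O : ι → Set B)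
    (hO : ∀ i, IsOpen (O i)) (h : ∀ i, ∀ U, IsOpen U → U ⊆ O i → P.Acyc U)
    {W : Set B} (hW : IsOpen W) (hcov : W ⊆ ⋃ i, O i) (h0 : P.Acyc ∅) : P.Acyc W := by
  classical
  cases nonempty_fintype ι
  have key : ∀ s : Finset ι, ∀ W : Set B, IsOpen W → W ⊆ ⋃ i ∈ s, O i → P.Acyc W := by
    intro s
    induction s using Finset.induction_on with
    | empty =>
      intro W _ hWs
      have : W = ∅ := by
        apply Set.eq_empty_of_subset_empty
        simpa using hWs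
      rw [this]
      exact h0
    | insert i s _ ih =>
      intro W hW hWs
      have hUo : IsOpen (⋃ j ∈ s, O j) := isOpen_biUnion fun j _ => hO j
      have hWeq : W = (W ∩ O i) ∪ (W ∩ ⋃ j ∈ s, O j) := by
        rw [← Set.inter_union_distrib_left]
        refine (Set.inter_eq_left.mpr ?_).symm
        rwa [Finset.set_biUnion_insert] at hWs
      rw [hWeq]
      refine Acyc.union (hW.inter (hO i)) (hW.inter hUo) (h i _ (hW.inter (hO i))
        Set.inter_subset_right) (ih _ (hW.inter hUo) Set.inter_subset_right) ?_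
      exact h i _ ((hW.inter (hO i)).inter (hW.inter hUo))
        (Set.inter_subset_left.trans Set.inter_subset_right)
  refine key Finset.univ W hW ?_
  simpa using hcov

/-- A morphism of systems: a linear map preserving chains and zero chains and commuting with the
differentials up to zero chains. -/
structure Hom (P : Sys B R M) (P' : Sys B R M') where
  f : M →ₗ[R] M'
  fC : ∀ U k, ∀ c ∈ P.C U k, f c ∈ P'.C U k
  fQ : ∀ k, ∀ c ∈ P.Q k, f c ∈ P'.Q k
  comm : ∀ k, ∀ c ∈ P.C Set.univ k, f (P.d k c) - P'.d k (f c) ∈ P'.Q (k - 1)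

/-- The mapping cone. The chains of degree `k` are the pairs `(c, w)`, `c ∈ P.C U k`,
`w ∈ P'.C U (k + 1)`, with differential `(c, w) ↦ (d c, f c - d w)`. -/
def cone {P : Sys B R M} {P' : Sys B R M'} (F : Hom P P') : Sys B R (M × M') where
  d k := LinearMap.prod ((P.d k).comp (LinearMap.fst R M M'))
    (F.f.comp (LinearMap.fst R M M') - (P'.d (k + 1)).comp (LinearMap.snd R M M'))
  Q k := (P.Q k).prod (P'.Q (k + 1))
  C U k := (P.C U k).prod (P'.C U (k + 1))
  dC := by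
    rintro U k ⟨c, w⟩ ⟨hc, hw⟩
    refine ⟨P.dC U k c hc, ?_⟩
    have h1 := P'.dC U (k + 1) w hw
    rw [add_sub_cancel_right] at h1
    have h2 : F.f c - P'.d (k + 1) w ∈ P'.C U (k - 1 + 1) := by
      rw [sub_add_cancel]
      exact Submodule.sub_mem _ (F.fC U k c hc) h1
    exact h2
  dQ := by
    rintro k ⟨c, w⟩ ⟨hc, hw⟩
    refine ⟨P.dQ k c hc, ?_⟩
    have h1 := P'.dQ (k + 1) w hw
    rw [add_sub_cancel_right] at h1
    have h2 : F.f c - P'.d (k + 1) w ∈ P'.Q (k - 1 + 1) := by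
      rw [sub_add_cancel]
      exact Submodule.sub_mem _ (F.fQ k c hc) h1
    exact h2
  dd := by
    rintro k ⟨c, w⟩ ⟨hc, hw⟩
    refine ⟨P.dd k c hc, ?_⟩
    have h1 := P'.dd (k + 1) w hw
    rw [add_sub_cancel_right] at h1
    have h2 : F.f (P.d k c) - P'.d (k - 1 + 1) (F.f c - P'.d (k + 1) w)
        ∈ P'.Q (k - 1 - 1 + 1) := by
      rw [sub_add_cancel, sub_add_cancel, map_sub]
      have h3 : F.f (P.d k c) - (P'.d k (F.f c) - P'.d k (P'.d (k + 1) w))
          = (F.f (P.d k c) - P'.d k (F.f c)) + P'.d k (P'.d (k + 1) w) := by abel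
      rw [h3]
      exact Submodule.add_mem _ (F.comm k c hc) h1
    exact h2
  mono := by
    intro U V h k
    exact Submodule.prod_mono (P.mono U V h k) (P'.mono U V h (k + 1))
  inter := by
    intro U V k
    rw [P.inter, P'.inter, Submodule.prod_inf_prod]
  split := by
    intro U V k
    rw [Submodule.prod_sup_prod, Submodule.prod_inf_prod, Submodule.prod_inf_prod,
      Submodule.prod_inf_prod, Submodule.prod_sup_prod]
    exact Submodule.prod_mono (P.split U V k) (P'.split U V (k + 1))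
  small := by
    rintro U V hU hV k ⟨c, w⟩ ⟨hc, hw⟩ hd
    rw [Submodule.prod_sup_prod, Submodule.prod_sup_prod] at hd
    obtain ⟨hd1, hd2⟩ := hd
    have hd3 : F.f c - P'.d (k + 1) w ∈
        P'.C U (k - 1 + 1) ⊔ P'.C V (k - 1 + 1) ⊔ P'.Q (k - 1 + 1) := hd2
    rw [sub_add_cancel] at hd3
    obtain ⟨b, hb, hs⟩ := P.small U V hU hV k c hc hd1
    have hFs : ∀ z ∈ P.C U k ⊔ P.C V k ⊔ P.Q k, F.f z ∈ P'.C U k ⊔ P'.C V k ⊔ P'.Q k := by
      intro z hz
      obtain ⟨y, hy, q, hq, rfl⟩ := Submodule.mem_sup.mp hz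
      obtain ⟨a, ha, a', ha', rfl⟩ := Submodule.mem_sup.mp hy
      rw [map_add, map_add]
      exact Submodule.add_mem_sup (Submodule.add_mem_sup (F.fC U k a ha) (F.fC V k a' ha'))
        (F.fQ k q hq)
    have hcomm := F.comm (k + 1) b (P.mono _ _ (Set.subset_univ _) _ hb)
    rw [add_sub_cancel_right] at hcomm
    obtain ⟨x, hx, hxs⟩ := P'.small U V hU hV (k + 1) (w - F.f b)
      (Submodule.sub_mem _ hw (F.fC _ _ b hb)) (by
        rw [add_sub_cancel_right]
        have h5 : P'.d (k + 1) (w - F.f b) = F.f (c - P.d (k + 1) b)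
            - (F.f c - P'.d (k + 1) w) + (F.f (P.d (k + 1) b) - P'.d (k + 1) (F.f b)) := by
          rw [map_sub, map_sub]; abel
        rw [h5]
        exact Submodule.add_mem _ (Submodule.sub_mem _ (hFs _ hs) hd3)
          (Submodule.mem_sup_right hcomm))
    refine ⟨(b, -x), ⟨hb, Submodule.neg_mem _ hx⟩, ?_⟩
    rw [Submodule.prod_sup_prod, Submodule.prod_sup_prod]
    refine ⟨hs, ?_⟩
    have h6 : w - (F.f b - P'.d (k + 1 + 1) (-x)) ∈
        P'.C U (k + 1) ⊔ P'.C V (k + 1) ⊔ P'.Q (k + 1) := by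
      have h7 : w - (F.f b - P'.d (k + 1 + 1) (-x)) = w - F.f b - P'.d (k + 1 + 1) x := by
        rw [map_neg]; abel
      rw [h7]
      exact hxs
    exact h6

/-- Unfolding of acyclicity of the cone: injectivity and surjectivity in homology at once. -/
theorem cone_acyc_iff {P : Sys B R M} {P' : Sys B R M'} (F : Hom P P') (U : Set B) :
    (cone F).Acyc U ↔ ∀ k, ∀ c ∈ P.C U k, ∀ w ∈ P'.C U (k + 1), P.d k c ∈ P.Q (k - 1) →
      F.f c - P'.d (k + 1) w ∈ P'.Q k →
      ∃ b ∈ P.C U (k + 1), ∃ x ∈ P'.C U (k + 1 + 1),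
        c - P.d (k + 1) b ∈ P.Q k ∧ w - (F.f b - P'.d (k + 1 + 1) x) ∈ P'.Q (k + 1) := by
  constructor
  · intro h k c hc w hw h1 h2
    have h3 : F.f c - P'.d (k + 1) w ∈ P'.Q (k - 1 + 1) := by rwa [sub_add_cancel]
    obtain ⟨⟨b, x⟩, ⟨hb, hx⟩, h4, h5⟩ := h k (c, w) ⟨hc, hw⟩ ⟨h1, h3⟩
    exact ⟨b, hb, x, hx, h4, h5⟩
  · rintro h k ⟨c, w⟩ ⟨hc, hw⟩ ⟨h1, h2⟩
    have h3 : F.f c - P'.d (k + 1) w ∈ P'.Q (k - 1 + 1) := h2
    rw [sub_add_cancel] at h3
    obtain ⟨b, hb, x, hx, h4, h5⟩ := h k c hc w hw h1 h3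
    exact ⟨(b, x), ⟨hb, hx⟩, h4, h5⟩

/-- The cone is acyclic iff the map is injective and surjective in homology. -/
theorem cone_acyc_iff_bij {P : Sys B R M} {P' : Sys B R M'} (F : Hom P P') (U : Set B) :
    (cone F).Acyc U ↔
      (∀ k, ∀ c ∈ P.C U k, P.d k c ∈ P.Q (k - 1) →
        (∃ w ∈ P'.C U (k + 1), F.f c - P'.d (k + 1) w ∈ P'.Q k) →
          ∃ b ∈ P.C U (k + 1), c - P.d (k + 1) b ∈ P.Q k) ∧
      (∀ k, ∀ w ∈ P'.C U k, P'.d k w ∈ P'.Q (k - 1) →
        ∃ c ∈ P.C U k, P.d k c ∈ P.Q (k - 1) ∧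
          ∃ x ∈ P'.C U (k + 1), w - F.f c - P'.d (k + 1) x ∈ P'.Q k) := by
  rw [cone_acyc_iff]
  constructor
  · intro h
    refine ⟨?_, ?_⟩
    · rintro k c hc hdc ⟨w, hw, hcw⟩
      obtain ⟨b, hb, _, _, h4, _⟩ := h k c hc w hw hdc hcw
      exact ⟨b, hb, h4⟩
    · intro k w hw hdw
      obtain ⟨j, rfl⟩ : ∃ j, k = j + 1 := ⟨k - 1, by ring⟩
      rw [add_sub_cancel_right] at hdw
      obtain ⟨b, hb, x, hx, h4, h5⟩ := h j 0 (Submodule.zero_mem _) w hw
        (by rw [map_zero]; exact Submodule.zero_mem _)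
        (by rw [map_zero, zero_sub]; exact Submodule.neg_mem _ hdw)
      refine ⟨b, hb, ?_, -x, Submodule.neg_mem _ hx, ?_⟩
      · rw [add_sub_cancel_right]
        rw [zero_sub] at h4
        exact (Submodule.neg_mem_iff _).mp h4
      · have h7 : w - F.f b - P'.d (j + 1 + 1) (-x) = w - (F.f b - P'.d (j + 1 + 1) x) := by
          rw [map_neg]; abel
        rw [h7]
        exact h5
  · rintro ⟨hinj, hsurj⟩ k c hc w hw hdc hcw
    obtain ⟨b0, hb0, hcb⟩ := hinj k c hc hdc ⟨w, hw, hcw⟩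
    have hcomm := F.comm (k + 1) b0 (P.mono _ _ (Set.subset_univ _) _ hb0)
    rw [add_sub_cancel_right] at hcomm
    obtain ⟨c1, hc1, hdc1, x, hx, h5⟩ := hsurj (k + 1) (w - F.f b0)
      (Submodule.sub_mem _ hw (F.fC _ _ b0 hb0)) (by
        rw [add_sub_cancel_right]
        have h5 : P'.d (k + 1) (w - F.f b0) = F.f (c - P.d (k + 1) b0)
            - (F.f c - P'.d (k + 1) w) + (F.f (P.d (k + 1) b0) - P'.d (k + 1) (F.f b0)) := by
          rw [map_sub, map_sub]; abel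
        rw [h5]
        exact Submodule.add_mem _ (Submodule.sub_mem _ (F.fQ _ _ hcb) hcw) hcomm)
    rw [add_sub_cancel_right] at hdc1
    refine ⟨b0 + c1, Submodule.add_mem _ hb0 hc1, -x, Submodule.neg_mem _ hx, ?_, ?_⟩
    · have h6 : c - P.d (k + 1) (b0 + c1) = c - P.d (k + 1) b0 - P.d (k + 1) c1 := by
        rw [map_add]; abel
      rw [h6]
      exact Submodule.sub_mem _ hcb hdc1
    · have h7 : w - (F.f (b0 + c1) - P'.d (k + 1 + 1) (-x))
          = w - F.f b0 - F.f c1 - P'.d (k + 1 + 1) x := by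
        rw [map_neg, map_add]; abel
      rw [h7]
      exact h5

end Sys

end CubeHom
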