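import Pool.Agent.Lib.MP_cb6a70_gt_HB.Small
import Pool.Agent.Lib.MP_cb6a70_gt_HB.Sys

/-!
# The cubical systems and the cross product morphism
-/


namespace CubeHom

variable {R : Type*} [CommRing R]
variable {X B Y : Type*} [TopologicalSpace X] [TopologicalSpace B] [TopologicalSpace Y]

variable (R) in
/-- The system of cubical chains of `X` over `B` (via `p : X → B`), relative to `A ⊆ X`,
shifted by `n`. -/
noncomputable def cubeSys (p : C(X, B)) (n : ℕ) (A : Set X) : Sys B R (Ch R X) where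
  d k := ((-1 : R) ^ n) • bd (n + k)
  Q k := Q R (n + k) A
  C U k := C R (n + k) (p ⁻¹' U)
  dC := by
    intro U k c hc
    have h := bd_mem_C hc
    rw [add_sub_assoc] at h
    exact Submodule.smul_mem _ _ h
  dQ := by
    intro k c hc
    have h := bd_mem_Q hc
    rw [add_sub_assoc] at h
    exact Submodule.smul_mem _ _ h
  dd := by
    intro k c _
    have h := bd_bd (R := R) ((n : ℤ) + k) c
    rw [add_sub_assoc] at h
    simp only [LinearMap.smul_apply, map_smul, h, smul_zero]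
    exact Submodule.zero_mem _
  mono := fun U V h k => C_mono _ (Set.preimage_mono h)
  inter := fun U V k => C_inter _ _ _
  split := fun U V k => Q_split _ _ _ _
  small := by
    intro U V hU hV k c hc hd
    have e1 : p ⁻¹' U ∩ p ⁻¹' (U ∪ V) = p ⁻¹' U :=
      Set.inter_eq_left.mpr (Set.preimage_mono Set.subset_union_left)
    have e2 : p ⁻¹' V ∩ p ⁻¹' (U ∪ V) = p ⁻¹' V :=
      Set.inter_eq_left.mpr (Set.preimage_mono Set.subset_union_right)
    have e3 : ((-1 : R) ^ n) * ((-1 : R) ^ n) = 1 := by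
      rw [← mul_pow]; simp
    have hd' : bd ((n : ℤ) + k) c ∈ C R (n + k - 1) (p ⁻¹' U ∩ p ⁻¹' (U ∪ V)) ⊔
        C R (n + k - 1) (p ⁻¹' V ∩ p ⁻¹' (U ∪ V)) ⊔ Q R (n + k - 1) A := by
      rw [e1, e2, add_sub_assoc]
      have h := Submodule.smul_mem _ ((-1 : R) ^ n) hd
      rwa [LinearMap.smul_apply, smul_smul, e3, one_smul] at h
    obtain ⟨b, hb, hs⟩ := small_cubes (hU.preimage p.continuous) (hV.preimage p.continuous)
      (W := p ⁻¹' (U ∪ V)) (by rw [Set.preimage_union]) hc hd'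
    rw [e1, e2] at hs
    rw [add_assoc] at hb hs
    refine ⟨((-1 : R) ^ n) • b, Submodule.smul_mem _ _ hb, ?_⟩
    rw [LinearMap.smul_apply, map_smul, smul_smul, e3, one_smul]
    exact hs

/-- Cross product with a relative `n`-cycle `z` of `(Y, V')`, where `V' × B ⊆ A'` and
`Y × A ⊆ A'`. -/
noncomputable def crossHom {n : ℕ} {V' : Set Y} {A : Set B} {A' : Set (Y × B)} (z : Ch R Y)
    (hz : z ∈ Z R n Set.univ V') (hA : Set.univ ×ˢ A ⊆ A') (hV : V' ×ˢ Set.univ ⊆ A') :
    Sys.Hom (cubeSys R (ContinuousMap.id B) 0 A)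
      (cubeSys R (⟨Prod.snd, continuous_snd⟩ : C(Y × B, B)) n A') where
  f := cr n z
  fC := by
    intro U k c hc
    have hc' : c ∈ C R (((0 : ℕ) : ℤ) + k) U := hc
    rw [Nat.cast_zero, zero_add] at hc'
    have h := cr_mem_C hz.1 hc'
    refine C_mono _ ?_ h
    rintro ⟨y, x⟩ ⟨_, hx⟩
    exact hx
  fQ := by
    intro k c hc
    have hc' : c ∈ Q R (((0 : ℕ) : ℤ) + k) A := hc
    rw [Nat.cast_zero, zero_add] at hc'
    exact Q_mono _ hA (cr_mem_Q_right hz.1 hc')
  comm := by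
    intro k c hc
    have hc' : c ∈ C R (((0 : ℕ) : ℤ) + k) (Set.univ : Set B) := hc
    rw [Nat.cast_zero, zero_add] at hc'
    have hz1 : z ∈ C R n (Set.univ : Set Y) := hz.1
    have hz2 : bd (n : ℤ) z ∈ Q R ((n : ℤ) - 1) V' := hz.2
    have e3 : ((-1 : R) ^ n) * ((-1 : R) ^ n) = 1 := by
      rw [← mul_pow]; simp
    have h1 : cr n z ((((-1 : R) ^ 0) • bd (((0 : ℕ) : ℤ) + k) : Ch R B →ₗ[R] Ch R B) c)
        - (((-1 : R) ^ n) • bd ((n : ℤ) + k) : Ch R (Y × B) →ₗ[R] Ch R (Y × B)) (cr n z c)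
        = -(((-1 : R) ^ n) • cr (n - 1) (bd n z) c) := by
      rw [LinearMap.smul_apply, LinearMap.smul_apply, bd_cr hz1 hc', pow_zero, one_smul,
        Nat.cast_zero, zero_add, smul_add, smul_smul, e3, one_smul]
      abel
    have h2 : cr (n - 1) (bd (n : ℤ) z) c ∈ Q R ((n : ℤ) + (k - 1)) A' := by
      rcases Nat.eq_zero_or_pos n with h0 | h0
      · subst h0
        rw [bd_of_nonpos (by simp)]
        simp
      · obtain ⟨m, rfl⟩ : ∃ m, n = m + 1 := ⟨n - 1, by omega⟩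
        have h3 : bd ((m + 1 : ℕ) : ℤ) z ∈ Q R (m : ℤ) V' := by
          have h4 : (((m + 1 : ℕ) : ℤ) - 1) = (m : ℤ) := by push_cast; ring
          rwa [h4] at hz2
        have h5 := cr_mem_Q_left h3 hc'
        have h6 : (((m + 1 : ℕ) : ℤ) + (k - 1)) = (m : ℤ) + k := by push_cast; ring
        rw [h6]
        exact Q_mono _ hV h5
    have h7 := Submodule.neg_mem _ (Submodule.smul_mem _ ((-1 : R) ^ n) h2)
    rw [← h1] at h7
    exact h7

theorem dependsOn_comp_iff {X₀ : Type*} [TopologicalSpace X₀] {j : C(X₀, X)}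
    (hj : Function.Injective j) (σ : C(Cb, X₀)) (s : Set ℕ) :
    DependsOn (j.comp σ : Cb → X) s ↔ DependsOn (σ : Cb → X₀) s := by
  constructor
  · intro h u v huv
    exact hj (h huv)
  · intro h u v huv
    exact congrArg j (h huv)

theorem isCube_comp_iff {X₀ : Type*} [TopologicalSpace X₀] {j : C(X₀, X)}
    (hj : Function.Injective j) (k : ℤ) (σ : C(Cb, X₀)) :
    IsCube k (j.comp σ) ↔ IsCube k σ := by
  unfold IsCube
  rw [dependsOn_comp_iff hj]

theorem degen_comp_iff {X₀ : Type*} [TopologicalSpace X₀] {j : C(X₀, X)}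
    (hj : Function.Injective j) (k : ℤ) (σ : C(Cb, X₀)) :
    Degen k (j.comp σ) ↔ Degen k σ := by
  unfold Degen
  simp only [dependsOn_comp_iff hj]

theorem comp_injective {X₀ : Type*} [TopologicalSpace X₀] {j : C(X₀, X)}
    (hj : Function.Injective j) : Function.Injective (fun σ : C(Cb, X₀) => j.comp σ) :=
  fun _ _ h => (ContinuousMap.cancel_left hj).mp h

/-- Zero chains can be recognised after an injective push-forward. -/
theorem push_mem_Q_iff {X₀ : Type*} [TopologicalSpace X₀] {j : C(X₀, X)}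
    (hj : Function.Injective j) (k : ℤ) (A : Set X) (c : Ch R X₀) :
    push j c ∈ Q R k A ↔ c ∈ Q R k (j ⁻¹' A) := by
  classical
  have h1 : (push j c).support = c.support.image (fun σ : C(Cb, X₀) => j.comp σ) :=
    Finsupp.mapDomain_support_of_injective (comp_injective hj) c
  unfold Q
  rw [Finsupp.mem_supported, Finsupp.mem_supported, h1, Finset.coe_image, Set.image_subset_iff]
  have h2 : (fun σ : C(Cb, X₀) => j.comp σ) ⁻¹'
      {σ : C(Cb, X) | IsCube k σ ∧ ((∀ u, σ u ∈ A) ∨ Degen k σ)}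
      = {σ : C(Cb, X₀) | IsCube k σ ∧ ((∀ u, σ u ∈ j ⁻¹' A) ∨ Degen k σ)} := by
    ext σ
    simp only [Set.mem_preimage, Set.mem_ofPred_eq, isCube_comp_iff hj, degen_comp_iff hj]
    rfl
  rw [h2]

/-- The chains of the range of an embedding are the pushed forward chains. -/
theorem map_push_C {X₀ : Type*} [TopologicalSpace X₀] {j : C(X₀, X)}
    (hj : Topology.IsInducing j) (hj' : Function.Injective j) (k : ℤ) :
    (C R k (Set.univ : Set X₀)).map (push j) = C R k (Set.range j) := by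
  unfold C push
  rw [Finsupp.lmapDomain_supported]
  congr 1
  ext σ
  constructor
  · rintro ⟨τ, ⟨hτ, _⟩, rfl⟩
    exact ⟨(isCube_comp_iff hj' k τ).mpr hτ, fun u => ⟨τ u, rfl⟩⟩
  · rintro ⟨hσ, hr⟩
    choose g hg using hr
    have hgc : Continuous g := by
      rw [hj.continuous_iff]
      have : j ∘ g = σ := funext hg
      rw [this]
      exact σ.continuous
    refine ⟨⟨g, hgc⟩, ⟨?_, fun _ => Set.mem_univ _⟩, ?_⟩
    · rw [← isCube_comp_iff hj']
      have : j.comp ⟨g, hgc⟩ = σ := ContinuousMap.ext hg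
      rw [this]
      exact hσ
    · exact ContinuousMap.ext hg

/-- Acyclicity over a set `U` can be tested after restriction to the subspace. -/
theorem acyc_congr_of_preimage {X' B' : Type*} [TopologicalSpace X'] [TopologicalSpace B']
    (p : C(X, B)) (n : ℕ) (A : Set X) (U : Set B) :
    (cubeSys R p n A).Acyc U ↔
      (cubeSys R (⟨fun x : (p ⁻¹' U) => (⟨p x, x.2⟩ : U), by fun_prop⟩ : C((p ⁻¹' U), U)) n
        ((↑) ⁻¹' A)).Acyc Set.univ := by
  obtain ⟨j, hj⟩ : ∃ j : C((p ⁻¹' U), X), j = ⟨Subtype.val, continuous_subtype_val⟩ := ⟨_, rfl⟩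
  have hji : Function.Injective j := by rw [hj]; exact Subtype.val_injective
  have hjt : Topology.IsInducing j := by rw [hj]; exact Topology.IsInducing.subtypeVal
  have hjr : Set.range j = p ⁻¹' U := by rw [hj]; exact Subtype.range_val
  have hjA : j ⁻¹' A = ((↑) ⁻¹' A : Set (p ⁻¹' U)) := by rw [hj]; rfl
  have hC : ∀ k, (C R k (Set.univ : Set (p ⁻¹' U))).map (push j) = C R k (p ⁻¹' U) := by
    intro k
    rw [map_push_C hjt hji, hjr]
  have hQ : ∀ k (c : Ch R (p ⁻¹' U)),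
      push j c ∈ Q R k A ↔ c ∈ Q R k ((↑) ⁻¹' A : Set (p ⁻¹' U)) := by
    intro k c
    rw [push_mem_Q_iff hji, hjA]
  have hd : ∀ k (c : Ch R (p ⁻¹' U)),
      (((-1 : R) ^ n) • bd ((n : ℤ) + k) : Ch R X →ₗ[R] Ch R X) (push j c)
      = push j ((((-1 : R) ^ n) • bd ((n : ℤ) + k) :
          Ch R (p ⁻¹' U) →ₗ[R] Ch R (p ⁻¹' U)) c) := by
    intro k c
    rw [LinearMap.smul_apply, LinearMap.smul_apply, map_smul, bd_push]
  constructor
  · intro h k c hc hdc
    have hc1 : push j c ∈ C R ((n : ℤ) + k) (p ⁻¹' U) := by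
      rw [← hC]
      exact ⟨c, hc, rfl⟩
    have hdc1 : (((-1 : R) ^ n) • bd ((n : ℤ) + k) : Ch R X →ₗ[R] Ch R X) (push j c)
        ∈ Q R ((n : ℤ) + (k - 1)) A := by
      rw [hd, hQ]
      exact hdc
    obtain ⟨b, hb, hcb⟩ := h k (push j c) hc1 hdc1
    have hb1 : b ∈ (C R ((n : ℤ) + (k + 1)) (Set.univ : Set (p ⁻¹' U))).map (push j) := by
      rw [hC]
      exact hb
    obtain ⟨b0, hb0, rfl⟩ := hb1
    refine ⟨b0, hb0, ?_⟩
    have h2 : push j c - (((-1 : R) ^ n) • bd ((n : ℤ) + (k + 1)) : Ch R X →ₗ[R] Ch R X)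
        (push j b0) ∈ Q R ((n : ℤ) + k) A := hcb
    rw [hd, ← map_sub, hQ] at h2
    exact h2
  · intro h k c hc hdc
    have hc1 : c ∈ (C R ((n : ℤ) + k) (Set.univ : Set (p ⁻¹' U))).map (push j) := by
      rw [hC]
      exact hc
    obtain ⟨c0, hc0, rfl⟩ := hc1
    have hdc1 : (((-1 : R) ^ n) • bd ((n : ℤ) + k) : Ch R X →ₗ[R] Ch R X) (push j c0)
        ∈ Q R ((n : ℤ) + (k - 1)) A := hdc
    rw [hd, hQ] at hdc1
    obtain ⟨b0, hb0, hcb⟩ := h k c0 hc0 hdc1
    refine ⟨push j b0, ?_, ?_⟩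
    · have : push j b0 ∈ (C R ((n : ℤ) + (k + 1)) (Set.univ : Set (p ⁻¹' U))).map (push j) :=
        ⟨b0, hb0, rfl⟩
      rw [hC] at this
      exact this
    · have h2 : push j c0 - (((-1 : R) ^ n) • bd ((n : ℤ) + (k + 1)) : Ch R X →ₗ[R] Ch R X)
          (push j b0) ∈ Q R ((n : ℤ) + k) A := by
        rw [hd, ← map_sub, hQ]
        exact hcb
      exact h2

end CubeHom
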