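import Pool.Agent.Lib.MP_cb6a70_gt_HB.Kan

/-!
# The deformation of cubes: the faces of dimension `< j` are moved to the base point
-/

namespace CubeHom

variable {X : Type*} [TopologicalSpace X]

theorem isCube_const (n : ℕ) (x0 : X) : IsCube (n : ℤ) (ContinuousMap.const Cb x0) :=
  ⟨by omega, fun _ _ _ => rfl⟩

theorem const_comp (x0 : X) (f : C(Cb, Cb)) :
    (ContinuousMap.const Cb x0).comp f = ContinuousMap.const Cb x0 := rfl

theorem ins_ins_comp {i j : ℕ} (hij : j ≤ i) (e e' : I) (σ : C(Cb, X)) :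
    (σ.comp (ins (i + 1) e)).comp (ins j e') = (σ.comp (ins j e')).comp (ins i e) := by
  rw [ContinuousMap.comp_assoc, ContinuousMap.comp_assoc, ins_ins hij]

/-- The conditions on the deformation `T` of the `m`-cube `σ`. -/
def St (x0 : X) (j m : ℕ) (Dp : C(Cb, X) → C(Cb, X)) (σ T : C(Cb, X)) : Prop :=
  IsCube ((m : ℤ) + 1) T ∧ T.comp (ins 0 (pt false)) = σ ∧
    (∀ i < m, ∀ e, T.comp (ins (i + 1) (pt e)) = Dp (σ.comp (ins i (pt e)))) ∧
    (m < j → T.comp (ins 0 (pt true)) = ContinuousMap.const Cb x0) ∧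
    (σ = ContinuousMap.const Cb x0 → T = ContinuousMap.const Cb x0)

theorem exists_T {x0 : X} {j : ℕ} (hF : ∀ m < j, Fills X (m + 1)) (m : ℕ)
    (Dp Dpp : C(Cb, X) → C(Cb, X))
    (hprev : ∀ n, m = n + 1 → ∀ σ, IsCube (n : ℤ) σ → St x0 j n Dpp σ (Dp σ))
    (σ : C(Cb, X)) (hσ : IsCube (m : ℤ) σ) : ∃ T, St x0 j m Dp σ T := by
  by_cases hc : σ = ContinuousMap.const Cb x0
  · subst hc
    refine ⟨ContinuousMap.const Cb x0, by exact_mod_cast isCube_const (m + 1) x0, rfl, ?_,
      fun _ => rfl, fun _ => rfl⟩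
    intro i hi e
    obtain ⟨n, rfl⟩ : ∃ n, m = n + 1 := ⟨m - 1, by omega⟩
    rw [const_comp, const_comp]
    exact ((hprev n rfl _ (isCube_const n x0)).2.2.2.2 rfl).symm
  · let φ : ℕ → Bool → C(Cb, X) := fun i e =>
      match i with
      | 0 => if e then ContinuousMap.const Cb x0 else σ
      | i + 1 => Dp (σ.comp (ins i (pt e)))
    have hφ1 : φ 0 true = ContinuousMap.const Cb x0 := rfl
    have hφ0 : φ 0 false = σ := rfl
    have hφ : ∀ i e, φ (i + 1) e = Dp (σ.comp (ins i (pt e))) := fun _ _ => rfl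
    have hFD : ∀ P : ℕ → Bool → Prop, (P 0 true → m < j) → FD (m + 1) P φ := by
      intro P hP
      constructor
      · intro i hi e hPe
        rw [show (((m + 1 : ℕ) : ℤ)) - 1 = m by push_cast; ring]
        rcases i with _ | i
        · rcases e with _ | _
          · rw [hφ0]; exact hσ
          · rw [hφ1]; exact isCube_const m x0
        · rw [hφ]
          obtain ⟨n, rfl⟩ : ∃ n, m = n + 1 := ⟨m - 1, by omega⟩
          have h1 := (hprev n rfl _ (by
            have := hσ.face (i := i) (by push_cast; omega) (pt e)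
            rwa [show (((n + 1 : ℕ) : ℤ)) - 1 = n by push_cast; ring] at this)).1
          exact_mod_cast h1
      · intro i l hil hl e e' hPe hPe'
        obtain ⟨n, rfl⟩ : ∃ n, m = n + 1 := ⟨m - 1, by omega⟩
        have hc' : ∀ i < n + 1, ∀ e : I, IsCube (n : ℤ) (σ.comp (ins i e)) := by
          intro i hi e
          have := hσ.face (i := i) (by push_cast; omega) e
          rwa [show (((n + 1 : ℕ) : ℤ)) - 1 = n by push_cast; ring] at this
        rcases i with _ | i
        · rcases e with _ | _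
          · rw [hφ, hφ0]
            exact (hprev n rfl _ (hc' l (by omega) _)).2.1
          · rw [hφ, hφ1, const_comp]
            exact (hprev n rfl _ (hc' l (by omega) _)).2.2.2.1 (by have := hP hPe; omega)
        · obtain ⟨l, rfl⟩ : ∃ l', l = l' + 1 := ⟨l - 1, by omega⟩
          rw [hφ, hφ, (hprev n rfl _ (hc' (l + 1) (by omega) _)).2.2.1 i (by omega) e,
            (hprev n rfl _ (hc' i (by omega) _)).2.2.1 l (by omega) e']
          rw [ins_ins_comp (by omega)]
    by_cases hm : m < j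
    · obtain ⟨T, hT, hTf⟩ := fill (hF m hm) (hFD (fun _ _ => True) (fun _ => hm))
      refine ⟨T, by exact_mod_cast hT, hTf 0 (by omega) false, fun i hi e =>
        hTf (i + 1) (by omega) e, fun _ => hTf 0 (by omega) true, fun h => absurd h hc⟩
    · obtain ⟨T, hT, hTf⟩ := kan true (hFD (fun i e => (i, e) ≠ (0, true)) (fun h => by simp at h))
      refine ⟨T, hT, hTf 0 (by omega) false (by simp), fun i hi e =>
        hTf (i + 1) (by omega) e (by simp), fun h => absurd h hm, fun h => absurd h hc⟩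

open Classical in
/-- The deformation. -/
noncomputable def DD (x0 : X) (j : ℕ) : ℕ → C(Cb, X) → C(Cb, X)
  | 0 => fun σ => if h : ∃ T, St x0 j 0 id σ T then h.choose else σ
  | m + 1 => fun σ => if h : ∃ T, St x0 j (m + 1) (DD x0 j m) σ T then h.choose else σ

theorem DD_zero {x0 : X} {j : ℕ} (hF : ∀ m < j, Fills X (m + 1)) (σ : C(Cb, X))
    (hσ : IsCube ((0 : ℕ) : ℤ) σ) : St x0 j 0 id σ (DD x0 j 0 σ) := by
  have h : ∃ T, St x0 j 0 id σ T :=
    exists_T hF 0 id id (fun n hn => by omega) σ hσ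
  have e : DD x0 j 0 σ = h.choose := dif_pos h
  rw [e]
  exact h.choose_spec

theorem DD_succ {x0 : X} {j : ℕ} (hF : ∀ m < j, Fills X (m + 1)) (m : ℕ) : ∀ (σ : C(Cb, X)),
    IsCube ((m + 1 : ℕ) : ℤ) σ → St x0 j (m + 1) (DD x0 j m) σ (DD x0 j (m + 1) σ) := by
  induction m with
  | zero =>
    intro σ hσ
    have h : ∃ T, St x0 j (0 + 1) (DD x0 j 0) σ T :=
      exists_T hF (0 + 1) (DD x0 j 0) id (fun n hn σ' hσ' => by
        obtain rfl : n = 0 := by omega
        exact DD_zero hF σ' hσ') σ hσ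
    have e : DD x0 j (0 + 1) σ = h.choose := dif_pos h
    rw [e]
    exact h.choose_spec
  | succ m ih =>
    intro σ hσ
    have h : ∃ T, St x0 j (m + 1 + 1) (DD x0 j (m + 1)) σ T :=
      exists_T hF (m + 1 + 1) (DD x0 j (m + 1)) (DD x0 j m) (fun n hn σ' hσ' => by
        obtain rfl : n = m + 1 := by omega
        exact ih σ' hσ') σ hσ
    have e : DD x0 j (m + 1 + 1) σ = h.choose := dif_pos h
    rw [e]
    exact h.choose_spec

end CubeHom
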