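import Mathlib

/-!
# Singular cubical chains, all dimensions in one type

A singular cube of a space `X` is a continuous map `σ : C(ℕ → I, X)`; it is a `k`-cube
(`IsCube k σ`, `k : ℤ`) if `0 ≤ k` and `σ` depends only on the coordinates `< k`.
`Ch R X` is the free `R`-module on all cubes.
-/


namespace CubeHom

universe u v

/-- The unit interval, as a type. -/
abbrev I : Type := unitInterval

/-- The domain of all singular cubes. -/
abbrev Cb : Type := ℕ → I

/-- `ins i e u` inserts the value `e` at the coordinate `i` of the sequence `u`. -/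
def ins (i : ℕ) (e : I) : C(Cb, Cb) where
  toFun u := fun j => if j < i then u j else if j = i then e else u (j - 1)
  continuous_toFun := by
    refine continuous_pi fun j => ?_
    by_cases h1 : j < i
    · simpa [h1] using continuous_apply j
    · by_cases h2 : j = i
      · simpa [h1, h2] using continuous_const
      · simpa [h1, h2] using continuous_apply (j - 1)

/-- The shift: drop the first `n` coordinates. -/
def drop (n : ℕ) : C(Cb, Cb) where
  toFun u := fun j => u (n + j)
  continuous_toFun := continuous_pi fun j => continuous_apply (n + j)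

section
variable (X : Type*) [TopologicalSpace X]

/-- `σ` is a `k`-cube: `0 ≤ k` and `σ` depends only on the coordinates `< k`. -/
def IsCube {X : Type*} [TopologicalSpace X] (k : ℤ) (σ : C(Cb, X)) : Prop :=
  0 ≤ k ∧ DependsOn (σ : Cb → X) {j : ℕ | (j : ℤ) < k}

/-- `σ` is degenerate as a `k`-cube: it does not depend on one of the first `k` coordinates. -/
def Degen {X : Type*} [TopologicalSpace X] (k : ℤ) (σ : C(Cb, X)) : Prop :=
  ∃ i : ℕ, (i : ℤ) < k ∧ DependsOn (σ : Cb → X) {j : ℕ | j ≠ i}

end

/-- Chains (finite `R`-combinations of cubes of all dimensions). -/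
abbrev Ch (R : Type u) (X : Type v) [CommRing R] [TopologicalSpace X] : Type (max u v) :=
  C(Cb, X) →₀ R

section
variable {R : Type*} [CommRing R]
variable {X Y B : Type*} [TopologicalSpace X] [TopologicalSpace Y] [TopologicalSpace B]

/-- Push-forward of chains along a continuous map. -/
noncomputable def push (f : C(X, Y)) : Ch R X →ₗ[R] Ch R Y :=
  Finsupp.lmapDomain R R (fun σ : C(Cb, X) => f.comp σ)

/-- The face operator: restriction of all cubes to `u_i = e`. -/
noncomputable def face (i : ℕ) (e : I) : Ch R X →ₗ[R] Ch R X :=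
  Finsupp.lmapDomain R R (fun σ : C(Cb, X) => σ.comp (ins i e))

/-- The boundary operator in degree `k`. -/
noncomputable def bd (k : ℤ) : Ch R X →ₗ[R] Ch R X :=
  ∑ i ∈ Finset.range k.toNat, ((-1 : R) ^ i) • (face i 1 - face i 0)

variable (R) in
/-- `k`-chains in the subset `U`. -/
noncomputable def C (k : ℤ) (U : Set X) : Submodule R (Ch R X) :=
  Finsupp.supported R R {σ | IsCube k σ ∧ ∀ u, σ u ∈ U}

variable (R) in
/-- The `k`-chains considered to be zero relative to `A`: combinations of `k`-cubes which lie
in `A` or are degenerate. -/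
noncomputable def Q (k : ℤ) (A : Set X) : Submodule R (Ch R X) :=
  Finsupp.supported R R {σ | IsCube k σ ∧ ((∀ u, σ u ∈ A) ∨ Degen k σ)}

variable (R) in
/-- Relative `k`-cycles of `(U, A)`. -/
noncomputable def Z (k : ℤ) (U A : Set X) : Submodule R (Ch R X) :=
  C R k U ⊓ (Q R (k - 1) A).comap (bd k)

variable (R) in
/-- `Bd R k U A c`: the `k`-chain `c` bounds in `U` relative to `A`. -/
def Bd (k : ℤ) (U A : Set X) (c : Ch R X) : Prop :=
  ∃ b ∈ C R (k + 1) U, c - bd (k + 1) b ∈ Q R k A

/-- The product cube. -/
def crossCube (n : ℕ) (τ : C(Cb, Y)) (σ : C(Cb, B)) : C(Cb, Y × B) :=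
  τ.prodMk (σ.comp (drop n))

/-- The cross product of an `n`-chain with a chain. -/
noncomputable def cr (n : ℕ) : Ch R Y →ₗ[R] Ch R B →ₗ[R] Ch R (Y × B) :=
  Finsupp.lift _ R _ (fun τ : C(Cb, Y) =>
    Finsupp.lmapDomain R R (fun σ : C(Cb, B) => crossCube n τ σ))

/-- The tautological `1`-cube of the unit interval. -/
def iota : C(Cb, I) := ⟨fun u => u 0, continuous_apply 0⟩

/-- The prism of a chain along a homotopy `H : I × X → Y`. -/
noncomputable def prism (H : C(I × X, Y)) : Ch R X →ₗ[R] Ch R Y :=
  (push H).comp (cr 1 (Finsupp.single iota 1))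

/-- The time `t` map of a homotopy. -/
def atTime (H : C(I × X, Y)) (t : I) : C(X, Y) :=
  ⟨fun x => H (t, x), H.continuous.comp (by fun_prop)⟩

end

end CubeHom
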