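import Pool.Agent.Lib.MP_cb6a70_gt_HB.DegDef

/-!
# Absolute local degree: basic properties
-/

namespace CubeHom

variable {Y : Type*} [TopologicalSpace Y] [T2Space Y] {n : ℕ}

section charts

omit [T2Space Y]

/-- Translation of a chart. -/
noncomputable def chTr {S : Set Y} (φ : S ≃ₜ (Fin n → ℝ)) (a : Fin n → ℝ) : S ≃ₜ (Fin n → ℝ) :=
  φ.trans (Homeomorph.addRight (-a))

theorem chTr_apply {S : Set Y} (φ : S ≃ₜ (Fin n → ℝ)) (a : Fin n → ℝ) (x : S) :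
    chTr φ a x = φ x - a := by
  simp [chTr, sub_eq_add_neg]

theorem inChart_zero {S : Set Y} {φ : S ≃ₜ (Fin n → ℝ)} {y : Y} {hy : y ∈ S}
    (h : φ ⟨y, hy⟩ = 0) : inChart φ {0} = {y} := by
  rw [inChart, Set.image_singleton, ← h, φ.symm_apply_apply]

theorem inChart_apply {S : Set Y} {φ : S ≃ₜ (Fin n → ℝ)} {K : Set (Fin n → ℝ)} {y : Y}
    (hy : y ∈ S) (h : φ ⟨y, hy⟩ ∈ K) : y ∈ inChart φ K :=
  ⟨_, h, congrArg Subtype.val (φ.symm_apply_apply _)⟩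

theorem exists_chart (hY : LocEuc n Y) (y : Y) :
    ∃ S : Set Y, IsOpen S ∧ ∃ φ : S ≃ₜ (Fin n → ℝ), ∃ hy : y ∈ S, φ ⟨y, hy⟩ = 0 := by
  obtain ⟨S, hS, hy, ⟨φ⟩⟩ := hY y
  exact ⟨S, hS, chTr φ (φ ⟨y, hy⟩), hy, by rw [chTr_apply, sub_self]⟩

end charts

theorem AbsDeg.of_chart {S : Set Y} (hS : IsOpen S) (φ : S ≃ₜ (Fin n → ℝ)) {y : Y} (hy : y ∈ S)
    (h1 : ∀ i, -1 < φ ⟨y, hy⟩ i ∧ φ ⟨y, hy⟩ i < 1) {c : Ch ℤ Y} {r : ℤ}
    (h : Bd ℤ n Set.univ ({y}ᶜ : Set Y) (c - r • locCh ℤ φ)) : AbsDeg n c y r.natAbs := by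
  have h0 : chTr φ (φ ⟨y, hy⟩) ⟨y, hy⟩ = 0 := by rw [chTr_apply, sub_self]
  obtain ⟨ε, hε, h2⟩ := loc_change hS hS φ (chTr φ (φ ⟨y, hy⟩)) hy hy h1
    (fun i => by rw [h0]; simp)
  refine ⟨S, hS, chTr φ (φ ⟨y, hy⟩), hy, h0, r * ε, ?_, ?_⟩
  · rcases hε with rfl | rfl
    · rw [mul_one]
    · rw [mul_neg_one, Int.natAbs_neg]
  · have h3 := h2.smul r
    rw [smul_sub, smul_smul] at h3
    exact h.trans h3

theorem AbsDeg.unique {c : Ch ℤ Y} {y : Y} {d d' : ℕ} (h : AbsDeg n c y d)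
    (h' : AbsDeg n c y d') : d = d' := by
  obtain ⟨S, hS, φ, hy, h0, r, hr, h⟩ := h
  obtain ⟨S', hS', φ', hy', h0', r', hr', h'⟩ := h'
  obtain ⟨ε, hε, h2⟩ := loc_change hS hS' φ φ' hy hy'
    (fun i => by rw [h0]; simp) (fun i => by rw [h0']; simp)
  have h3 := h2.smul r
  rw [smul_sub, smul_smul] at h3
  have h4 := (h.trans h3).sub_comm.trans h'
  rw [← sub_smul] at h4
  have h5 : (r * ε - r') = 0 := by
    refine loc_free hS' φ' (K := {0}) isCompact_singleton (convex_singleton _)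
      (Set.singleton_nonempty _) (fun x hx i => ?_) ?_
    · rw [Set.mem_singleton_iff] at hx
      subst hx
      simp
    · rw [inChart_zero h0']
      exact h4
  rw [← hr, ← hr']
  have h6 : r' = r * ε := by omega
  rcases hε with rfl | rfl
  · rw [h6, mul_one]
  · rw [h6, mul_neg_one, Int.natAbs_neg]

theorem AbsDeg.exists (hY : LocEuc n Y) {c : Ch ℤ Y} {y : Y}
    (hc : c ∈ Z ℤ n Set.univ ({y}ᶜ : Set Y)) : ∃ d, AbsDeg n c y d := by
  obtain ⟨S, hS, φ, hy, h0⟩ := exists_chart hY y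
  obtain ⟨r, hr⟩ := loc_gen hS φ (K := {0}) isCompact_singleton (convex_singleton _)
    (Set.singleton_nonempty _) (fun x hx i => by
      rw [Set.mem_singleton_iff] at hx
      subst hx
      simp) (w := c) (by rw [inChart_zero h0]; exact hc)
  rw [inChart_zero h0] at hr
  exact ⟨_, S, hS, φ, hy, h0, r, rfl, hr⟩

theorem AbsDeg.zero (hY : LocEuc n Y) {c : Ch ℤ Y} {y : Y} (hc : c ∈ C ℤ n ({y}ᶜ : Set Y)) :
    AbsDeg n c y 0 := by
  obtain ⟨S, hS, φ, hy, h0⟩ := exists_chart hY y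
  refine ⟨S, hS, φ, hy, h0, 0, rfl, ?_⟩
  rw [zero_smul, sub_zero]
  exact Bd.of_mem_C hc

omit [T2Space Y] in
/-- Adding a chain which avoids `y` does not change the degree at `y`. -/
theorem AbsDeg.add {c c' : Ch ℤ Y} {y : Y} {d : ℕ} (h : AbsDeg n c y d)
    (hc' : c' ∈ C ℤ n ({y}ᶜ : Set Y)) : AbsDeg n (c + c') y d := by
  obtain ⟨S, hS, φ, hy, h0, r, hr, h⟩ := h
  refine ⟨S, hS, φ, hy, h0, r, hr, ?_⟩
  rw [add_sub_right_comm]
  exact h.add (Bd.of_mem_C hc')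

omit [T2Space Y] in
theorem AbsDeg.neg {c : Ch ℤ Y} {y : Y} {d : ℕ} (h : AbsDeg n c y d) : AbsDeg n (-c) y d := by
  obtain ⟨S, hS, φ, hy, h0, r, hr, h⟩ := h
  refine ⟨S, hS, φ, hy, h0, -r, by rw [Int.natAbs_neg, hr], ?_⟩
  have h1 := h.neg
  have h2 : -(c - r • locCh ℤ φ) = -c - (-r) • locCh ℤ φ := by
    rw [neg_smul]
    abel
  rwa [h2] at h1

/-- The absolute degree is locally constant off the set containing the boundary. -/
theorem AbsDeg.locConst (hY : LocEuc n Y) {A : Set Y} (hA : IsClosed A) {c : Ch ℤ Y}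
    (hc : c ∈ Z ℤ n Set.univ A) {y : Y} (hy : y ∉ A) {d : ℕ} (h : AbsDeg n c y d) :
    ∀ᶠ y' in nhds y, AbsDeg n c y' d := by
  obtain ⟨S, hS, φ, hyS, h0⟩ := exists_chart hY y
  have hU : IsOpen {x : Fin n → ℝ | (φ.symm x : Y) ∉ A} :=
    (hA.isOpen_compl.preimage (continuous_subtype_val.comp φ.symm.continuous))
  have h0U : (0 : Fin n → ℝ) ∈ {x : Fin n → ℝ | (φ.symm x : Y) ∉ A} := by
    simp only [Set.mem_ofPred_eq, ← h0, φ.symm_apply_apply]
    exact hy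
  obtain ⟨δ, hδ, hδU⟩ := Metric.isOpen_iff.1 hU 0 h0U
  let φ' : S ≃ₜ (Fin n → ℝ) := φ.trans (Homeomorph.smulOfNeZero δ⁻¹ (inv_ne_zero hδ.ne'))
  have hφ' : ∀ x, φ' x = δ⁻¹ • φ x := fun x => rfl
  have hK1 : ∀ x ∈ Metric.closedBall (0 : Fin n → ℝ) (1 / 2), ∀ i, -1 < x i ∧ x i < 1 := by
    intro x hx i
    rw [mem_closedBall_zero_iff] at hx
    have h1 := (norm_le_pi_norm x i).trans hx
    rw [Real.norm_eq_abs, abs_le] at h1
    constructor <;> linarith [h1.1, h1.2]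
  have hKA : A ⊆ (inChart φ' (Metric.closedBall 0 (1 / 2)))ᶜ := by
    rintro z hz ⟨x, hx, rfl⟩
    have h1 : δ • x ∈ Metric.ball (0 : Fin n → ℝ) δ := by
      rw [mem_ball_zero_iff, norm_smul, Real.norm_eq_abs, abs_of_pos hδ]
      rw [mem_closedBall_zero_iff] at hx
      nlinarith
    have h2 := hδU h1
    have h3 : φ'.symm x = φ.symm (δ • x) := by
      rw [Homeomorph.symm_apply_eq, hφ', φ.apply_symm_apply, smul_smul, inv_mul_cancel₀ hδ.ne',
        one_smul]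
    simp only [Set.mem_ofPred_eq] at h2
    simp only [h3] at hz
    exact h2 hz
  obtain ⟨r, hr⟩ := loc_gen hS φ' (isCompact_closedBall (0 : Fin n → ℝ) (1 / 2))
    (convex_closedBall _ _) ⟨0, by simp⟩ hK1 (Z_mono subset_rfl hKA hc)
  have key : ∀ y' ∈ inChart φ' (Metric.closedBall 0 (1 / 2)), AbsDeg n c y' r.natAbs := by
    rintro y' ⟨x, hx, rfl⟩
    refine AbsDeg.of_chart hS φ' (φ'.symm x).2 (fun i => ?_) (hr.mono subset_rfl ?_)
    · rw [Subtype.coe_eta, φ'.apply_symm_apply]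
      exact hK1 x hx i
    · rw [Set.compl_subset_compl, Set.singleton_subset_iff]
      exact ⟨x, hx, rfl⟩
  have hy0 : φ'.symm 0 = ⟨y, hyS⟩ := by
    rw [Homeomorph.symm_apply_eq, hφ', h0, smul_zero]
  have hyK : y ∈ inChart φ' (Metric.closedBall 0 (1 / 2)) :=
    ⟨0, by simp, congrArg Subtype.val hy0⟩
  have hd : d = r.natAbs := h.unique (key y hyK)
  have hop : IsOpen ((fun x => (φ'.symm x : Y)) '' Metric.ball 0 (1 / 2)) :=
    (hS.isOpenEmbedding_subtypeVal.comp φ'.symm.isOpenEmbedding).isOpenMap _ Metric.isOpen_ball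
  have hmem : y ∈ (fun x => (φ'.symm x : Y)) '' Metric.ball 0 (1 / 2) :=
    ⟨0, by simp, congrArg Subtype.val hy0⟩
  filter_upwards [hop.mem_nhds hmem] with y' hy'
  rw [hd]
  exact key y' (Set.image_mono Metric.ball_subset_closedBall hy')

/-- Degrees are transported by homeomorphisms. -/
theorem AbsDeg.homeo {Y' : Type*} [TopologicalSpace Y'] [T2Space Y'] (g : Y ≃ₜ Y')
    {c : Ch ℤ Y} {y : Y} {d : ℕ} (h : AbsDeg n c y d) :
    AbsDeg n (push (g : C(Y, Y')) c) (g y) d := by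
  obtain ⟨S, hS, φ, hy, h0, r, hr, h⟩ := h
  refine ⟨g '' S, g.isOpenMap _ hS, (g.image S).symm.trans φ, ⟨y, hy, rfl⟩, ?_, r, hr, ?_⟩
  · have : (g.image S).symm ⟨g y, ⟨y, hy, rfl⟩⟩ = ⟨y, hy⟩ := by
      rw [Homeomorph.symm_apply_eq]
      rfl
    rw [Homeomorph.trans_apply, this, h0]
  · have h1 : locCh ℤ ((g.image S).symm.trans φ) = push (g : C(Y, Y')) (locCh ℤ φ) := by
      unfold locCh
      rw [push_single]
      congr 1
    rw [h1, ← map_smul, ← map_sub]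
    refine Bd.push (A := {y}ᶜ) (Set.mapsTo_univ _ _) (fun x hx => ?_) h
    simp only [Set.mem_compl_iff, Set.mem_singleton_iff] at hx ⊢
    exact fun h2 => hx (g.injective h2)

end CubeHom
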