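import Pool.Agent.Lib.MP_cb6a70_gt_HB.Fills
import Pool.Agent.Lib.MP_cb6a70_gt_HB.UCover

/-!
# The topological setting: a flat hypersphere with a filling disc
-/

namespace CubeHom

open Set Metric Topology

/-- The boundary of the cube. -/
def bdry (m : ℕ) : Set (Fin m → unitInterval) := {u | ∃ i, u i = 0 ∨ u i = 1}

/-- A hypersphere `S = D (bdry)` in the `n+1`-dimensional space `M`, filled by the disc `D`, with
the two sides `U`, `V`, locally flat, `U` being locally the positive side. -/
structure FlatSphere (n : ℕ) (M : Type) [TopologicalSpace M] where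
  D : C(Fin (n + 1) → unitInterval, M)
  U : Set M
  V : Set M
  inj : Set.InjOn D (bdry (n + 1))
  openU : IsOpen U
  openV : IsOpen V
  connU : IsConnected U
  connV : IsConnected V
  disj : Disjoint U V
  compl : U ∪ V = (D '' bdry (n + 1))ᶜ
  flat : ∀ s ∈ D '' bdry (n + 1), ∃ N : Set M, IsOpen N ∧ s ∈ N ∧
    ∃ θ : N ≃ₜ (Fin (n + 1) → ℝ), ∀ x : N,
      ((x : M) ∈ D '' bdry (n + 1) ↔ θ x 0 = 0) ∧ ((x : M) ∈ U ↔ 0 < θ x 0) ∧
        ((x : M) ∈ V ↔ θ x 0 < 0)

namespace FlatSphere

variable {n : ℕ} {M : Type} [TopologicalSpace M]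

/-- The hypersphere. -/
def S (P : FlatSphere n M) : Set M := P.D '' bdry (n + 1)

/-- The same hypersphere with the two sides exchanged. -/
def symm (P : FlatSphere n M) : FlatSphere n M where
  D := P.D
  U := P.V
  V := P.U
  inj := P.inj
  openU := P.openV
  openV := P.openU
  connU := P.connV
  connV := P.connU
  disj := P.disj.symm
  compl := by
    rw [union_comm]
    exact P.compl
  flat := by
    intro s hs
    obtain ⟨N, hN, hsN, θ, hθ⟩ := P.flat s hs
    refine ⟨N, hN, hsN, θ.trans (Homeomorph.neg _), fun x => ?_⟩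
    obtain ⟨h1, h2, h3⟩ := hθ x
    have h0 : (θ.trans (Homeomorph.neg _)) x 0 = -(θ x 0) := rfl
    rw [h0]
    exact ⟨h1.trans neg_eq_zero.symm, h3.trans neg_pos.symm, h2.trans neg_lt_zero.symm⟩

end FlatSphere

namespace SetupAux

/-! ### The boundary of the cube -/

theorem joinedIn_aux {m : ℕ} {u : Fin m → unitInterval} {i : Fin m} (hi : u i = 0 ∨ u i = 1) :
    JoinedIn (bdry m) u (fun l => if l = i then u i else 0) := by
  have hc : Continuous fun t : unitInterval =>
      (fun l => if l = i then u i else unitInterval.symm t * u l : Fin m → unitInterval) := by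
    refine continuous_pi fun l => ?_
    by_cases h : l = i
    · simp only [if_pos h]
      exact continuous_const
    · simp only [if_neg h]
      exact unitInterval.continuous_symm.mul continuous_const
  refine ⟨⟨⟨_, hc⟩, ?_, ?_⟩, fun t => ⟨i, ?_⟩⟩
  · funext l
    by_cases h : l = i
    · subst h; simp
    · simp [h]
  · funext l
    by_cases h : l = i
    · subst h; simp
    · simp [h]
  · show (if i = i then u i else unitInterval.symm t * u i) = 0 ∨
      (if i = i then u i else unitInterval.symm t * u i) = 1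
    rw [if_pos rfl]
    exact hi

theorem convex_pos (n : ℕ) : Convex ℝ {v : Fin (n + 1) → ℝ | 0 < v 0} := by
  intro x hx y hy a b ha hb hab
  simp only [mem_ofPred_eq, Pi.add_apply, Pi.smul_apply, smul_eq_mul] at *
  rcases ha.eq_or_lt with h | h
  · subst h
    have : b = 1 := by linarith
    subst this
    simpa using hy
  · have h1 : 0 < a * x 0 := mul_pos h hx
    have h2 : 0 ≤ b * y 0 := mul_nonneg hb hy.le
    linarith

/-- The positive side of a chart is connected and accumulates at the points of the wall. -/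
theorem pos_side {n : ℕ} {M : Type} [TopologicalSpace M] {N : Set M}
    (θ : N ≃ₜ (Fin (n + 1) → ℝ)) :
    IsPreconnected {x : M | ∃ h : x ∈ N, 0 < θ ⟨x, h⟩ 0} ∧
      ∀ x (h : x ∈ N), θ ⟨x, h⟩ 0 = 0 → x ∈ closure {x : M | ∃ h : x ∈ N, 0 < θ ⟨x, h⟩ 0} := by
  let f : (Fin (n + 1) → ℝ) → M := fun v => θ.symm v
  have hf : Continuous f := continuous_subtype_val.comp θ.symm.continuous
  have himg : {x : M | ∃ h : x ∈ N, 0 < θ ⟨x, h⟩ 0} = f '' {v | 0 < v 0} := by
    ext x
    constructor
    · rintro ⟨hx, hxU⟩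
      exact ⟨θ ⟨x, hx⟩, hxU, by simp [f]⟩
    · rintro ⟨v, hv, rfl⟩
      refine ⟨(θ.symm v).2, ?_⟩
      show 0 < θ (θ.symm v) 0
      rw [θ.apply_symm_apply]
      exact hv
  constructor
  · rw [himg]
    exact (convex_pos n).isPreconnected.image f hf.continuousOn
  · intro x hx h0
    rw [himg]
    let g : ℝ → M := fun t => f (θ ⟨x, hx⟩ + t • Pi.single 0 1)
    have hg : Continuous g := hf.comp (by fun_prop)
    have hg0 : g 0 = x := by simp [g, f]
    rw [← hg0]
    refine map_mem_closure hg (s := Ioi 0) (by simp) fun t ht => ⟨_, ?_, rfl⟩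
    simpa [h0] using ht

theorem neg_side {n : ℕ} {M : Type} [TopologicalSpace M] {N : Set M}
    (θ : N ≃ₜ (Fin (n + 1) → ℝ)) :
    IsPreconnected {x : M | ∃ h : x ∈ N, θ ⟨x, h⟩ 0 < 0} ∧
      ∀ x (h : x ∈ N), θ ⟨x, h⟩ 0 = 0 → x ∈ closure {x : M | ∃ h : x ∈ N, θ ⟨x, h⟩ 0 < 0} := by
  obtain ⟨h1, h2⟩ := pos_side (θ.trans (Homeomorph.neg _))
  have he : {x : M | ∃ h : x ∈ N, 0 < (θ.trans (Homeomorph.neg _)) ⟨x, h⟩ 0} =
      {x : M | ∃ h : x ∈ N, θ ⟨x, h⟩ 0 < 0} := by
    ext x
    refine exists_congr fun h => ?_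
    show 0 < -(θ ⟨x, h⟩ 0) ↔ _
    exact neg_pos
  rw [he] at h1 h2
  refine ⟨h1, fun x h h0 => h2 x h ?_⟩
  show -(θ ⟨x, h⟩ 0) = 0
  rw [h0, neg_zero]

end SetupAux

/-- The boundary of a cube of dimension at least two is path connected. -/
theorem bdry_isPathConnected {m : ℕ} (hm : 2 ≤ m) : IsPathConnected (bdry m) := by
  have key : ∀ u ∈ bdry m, JoinedIn (bdry m) u (fun _ => 0) := by
    rintro u ⟨i, hi⟩
    refine (SetupAux.joinedIn_aux hi).trans ?_
    obtain ⟨j, hj⟩ : ∃ j : Fin m, j ≠ i := by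
      have : Nontrivial (Fin m) := Fin.nontrivial_iff_two_le.2 hm
      exact exists_ne i
    set v : Fin m → unitInterval := fun l => if l = i then u i else 0 with hv
    have hvj : v j = 0 := if_neg hj
    have h1 := SetupAux.joinedIn_aux (u := v) (i := j) (Or.inl hvj)
    have h2 : (fun l => if l = j then v j else 0 : Fin m → unitInterval) = fun _ => 0 := by
      funext l
      split_ifs
      · exact hvj
      · rfl
    rwa [h2] at h1
  refine ⟨fun _ => 0, ⟨⟨0, by omega⟩, Or.inl rfl⟩, fun {u} hu => (key u hu).symm⟩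

/-- **Sides.** Weak local flatness (no information on the sides) implies that every point of the
sphere has a flat chart with `U` on the positive side and `V` on the negative side. -/
theorem strong_flat {n : ℕ} (hn : 1 ≤ n) {M : Type} [TopologicalSpace M] [T2Space M]
    [ConnectedSpace M] (D : C(Fin (n + 1) → unitInterval, M)) {U V : Set M}
    (hU : IsOpen U) (hV : IsOpen V) (hU' : IsConnected U) (hV' : IsConnected V)
    (hdisj : Disjoint U V) (hcompl : U ∪ V = (D '' bdry (n + 1))ᶜ)
    (hflat : ∀ s ∈ D '' bdry (n + 1), ∃ N : Set M, IsOpen N ∧ s ∈ N ∧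
      ∃ θ : N ≃ₜ (Fin (n + 1) → ℝ), ∀ x : N, ((x : M) ∈ D '' bdry (n + 1) ↔ θ x 0 = 0)) :
    ∀ s ∈ D '' bdry (n + 1), ∃ N : Set M, IsOpen N ∧ s ∈ N ∧
      ∃ θ : N ≃ₜ (Fin (n + 1) → ℝ), ∀ x : N,
        ((x : M) ∈ D '' bdry (n + 1) ↔ θ x 0 = 0) ∧ ((x : M) ∈ U ↔ 0 < θ x 0) ∧
          ((x : M) ∈ V ↔ θ x 0 < 0) := by
  set S := D '' bdry (n + 1) with hS
  have hSc : IsPreconnected S :=
    ((bdry_isPathConnected (by omega)).image D.continuous).isConnected.isPreconnected
  have hSne : S.Nonempty := (bdry_isPathConnected (by omega)).nonempty.image _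
  have hdis : ∀ x, x ∈ U → x ∈ V → False := fun x h1 h2 => Set.disjoint_left.1 hdisj h1 h2
  have hUS : ∀ x, x ∈ U → x ∉ S := fun x h => by
    have : x ∈ Sᶜ := hcompl ▸ Or.inl h
    exact this
  have hVS : ∀ x, x ∈ V → x ∉ S := fun x h => by
    have : x ∈ Sᶜ := hcompl ▸ Or.inr h
    exact this
  have hcov : ∀ x, x ∉ S → x ∈ U ∨ x ∈ V := fun x h => by
    have : x ∈ U ∪ V := by rw [hcompl]; exact h
    exact this
  -- mixed charts
  let Mx : Set (Set M) := {N | IsOpen N ∧ ∃ θ : N ≃ₜ (Fin (n + 1) → ℝ), ∀ x : N,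
        ((x : M) ∈ S ↔ θ x 0 = 0) ∧ ((x : M) ∈ U ↔ 0 < θ x 0) ∧ ((x : M) ∈ V ↔ θ x 0 < 0)}
  have hMxo : IsOpen (⋃₀ Mx) := isOpen_sUnion fun N h => h.1
  have hmixU : ∀ s ∈ ⋃₀ Mx, s ∈ S → s ∈ closure U ∧ s ∈ closure V := by
    rintro s ⟨N, ⟨hN, θ, hθ⟩, hsN⟩ hsS
    have h0 : θ ⟨s, hsN⟩ 0 = 0 := (hθ ⟨s, hsN⟩).1.1 hsS
    constructor
    · refine closure_mono ?_ ((SetupAux.pos_side θ).2 s hsN h0)
      rintro x ⟨hx, h⟩
      exact (hθ ⟨x, hx⟩).2.1.2 h
    · refine closure_mono ?_ ((SetupAux.neg_side θ).2 s hsN h0)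
      rintro x ⟨hx, h⟩
      exact (hθ ⟨x, hx⟩).2.2.2 h
  -- a connected set off the sphere is on one side
  have hside : ∀ C : Set M, IsPreconnected C → (∀ x ∈ C, x ∉ S) → C ⊆ U ∨ C ⊆ V := by
    intro C hC hCS
    exact hC.subset_or_subset hU hV hdisj fun x hx => hcov x (hCS x hx)
  have hlocal : ∀ s ∈ S, s ∈ ⋃₀ Mx ∨ (s ∈ interior (U ∪ S) ∪ interior (V ∪ S)) := by
    intro s hs
    obtain ⟨N, hN, hsN, θ, hθ⟩ := hflat s hs
    obtain ⟨hp1, hp2⟩ := SetupAux.pos_side θ
    obtain ⟨hn1, hn2⟩ := SetupAux.neg_side θ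
    have hpS : ∀ x ∈ {x : M | ∃ h : x ∈ N, 0 < θ ⟨x, h⟩ 0}, x ∉ S := by
      rintro x ⟨hx, h⟩ hxS
      rw [(hθ ⟨x, hx⟩).1 hxS] at h
      exact lt_irrefl _ h
    have hnS : ∀ x ∈ {x : M | ∃ h : x ∈ N, θ ⟨x, h⟩ 0 < 0}, x ∉ S := by
      rintro x ⟨hx, h⟩ hxS
      rw [(hθ ⟨x, hx⟩).1 hxS] at h
      exact lt_irrefl _ h
    rcases hside _ hp1 hpS with hpU | hpV <;> rcases hside _ hn1 hnS with hnU | hnV
    · right; left
      refine mem_interior.2 ⟨N, fun x hx => ?_, hN, hsN⟩
      rcases lt_trichotomy (θ ⟨x, hx⟩ 0) 0 with h | h | h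
      · exact Or.inl (hnU ⟨hx, h⟩)
      · exact Or.inr ((hθ ⟨x, hx⟩).2 h)
      · exact Or.inl (hpU ⟨hx, h⟩)
    · left
      refine ⟨N, ⟨hN, θ, fun x => ⟨hθ x, ?_, ?_⟩⟩, hsN⟩
      · constructor
        · intro hxU
          rcases lt_trichotomy (θ x 0) 0 with h | h | h
          · exact (hdis x hxU (hnV ⟨x.2, h⟩)).elim
          · exact absurd ((hθ x).2 h) (hUS x hxU)
          · exact h
        · intro h
          exact hpU ⟨x.2, h⟩
      · constructor
        · intro hxV
          rcases lt_trichotomy (θ x 0) 0 with h | h | h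
          · exact h
          · exact absurd ((hθ x).2 h) (hVS x hxV)
          · exact (hdis x (hpU ⟨x.2, h⟩) hxV).elim
        · intro h
          exact hnV ⟨x.2, h⟩
    · left
      refine ⟨N, ⟨hN, θ.trans (Homeomorph.neg _), fun x => ?_⟩, hsN⟩
      have h0 : (θ.trans (Homeomorph.neg _)) x 0 = -(θ x 0) := rfl
      rw [h0]
      refine ⟨(hθ x).trans neg_eq_zero.symm, ?_, ?_⟩
      · constructor
        · intro hxU
          rcases lt_trichotomy (θ x 0) 0 with h | h | h
          · exact neg_pos.2 h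
          · exact absurd ((hθ x).2 h) (hUS x hxU)
          · exact (hdis x hxU (hpV ⟨x.2, h⟩)).elim
        · intro h
          exact hnU ⟨x.2, neg_pos.1 h⟩
      · constructor
        · intro hxV
          rcases lt_trichotomy (θ x 0) 0 with h | h | h
          · exact (hdis x (hnU ⟨x.2, h⟩) hxV).elim
          · exact absurd ((hθ x).2 h) (hVS x hxV)
          · exact neg_lt_zero.2 h
        · intro h
          exact hpV ⟨x.2, neg_lt_zero.1 h⟩
    · right; right
      refine mem_interior.2 ⟨N, fun x hx => ?_, hN, hsN⟩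
      rcases lt_trichotomy (θ ⟨x, hx⟩ 0) 0 with h | h | h
      · exact Or.inl (hnV ⟨hx, h⟩)
      · exact Or.inr ((hθ ⟨x, hx⟩).2 h)
      · exact Or.inl (hpV ⟨hx, h⟩)
  -- points of the closure of the other side are not interior
  have hIV : ∀ s, s ∈ interior (U ∪ S) → s ∉ closure V := by
    intro s hs hsV
    obtain ⟨x, hx, hxV⟩ := mem_closure_iff_nhds.1 hsV _ (isOpen_interior.mem_nhds hs)
    rcases interior_subset hx with h | h
    · exact hdis x h hxV
    · exact hVS x hxV h
  have hIU : ∀ s, s ∈ interior (V ∪ S) → s ∉ closure U := by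
    intro s hs hsU
    obtain ⟨x, hx, hxU⟩ := mem_closure_iff_nhds.1 hsU _ (isOpen_interior.mem_nhds hs)
    rcases interior_subset hx with h | h
    · exact hdis x hxU h
    · exact hUS x hxU h
  have hSsub : S ⊆ ⋃₀ Mx := by
    have hcov1 : S ⊆ ⋃₀ Mx ∪ (interior (U ∪ S) ∪ interior (V ∪ S)) := fun s hs => hlocal s hs
    by_cases h1 : (S ∩ ⋃₀ Mx).Nonempty
    · intro s hs
      rcases hcov1 hs with h | h
      · exact h
      · exfalso
        obtain ⟨x, hx, hxM, hxI⟩ := hSc _ _ hMxo (isOpen_interior.union isOpen_interior) hcov1 h1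
          ⟨s, hs, h⟩
        obtain ⟨hcU, hcV⟩ := hmixU x hxM hx
        rcases hxI with hxI | hxI
        · exact hIV x hxI hcV
        · exact hIU x hxI hcU
    · exfalso
      rw [Set.not_nonempty_iff_eq_empty] at h1
      have hcov2 : S ⊆ interior (U ∪ S) ∪ interior (V ∪ S) := by
        intro s hs
        rcases hcov1 hs with h | h
        · exact absurd (show s ∈ S ∩ ⋃₀ Mx from ⟨hs, h⟩) (by rw [h1]; exact notMem_empty s)
        · exact h
      -- one of the two closed sides is open
      have hopen : S ⊆ interior (U ∪ S) ∨ S ⊆ interior (V ∪ S) := by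
        by_cases h2 : (S ∩ interior (U ∪ S)).Nonempty
        · left
          intro s hs
          rcases hcov2 hs with h | h
          · exact h
          · exfalso
            obtain ⟨x, hx, hxU, hxV⟩ := hSc _ _ isOpen_interior isOpen_interior hcov2 h2 ⟨s, hs, h⟩
            -- `x` is in the closure of the complement of `S`
            obtain ⟨N, hN, hxN, θ, hθ⟩ := hflat x hx
            have h0 : θ ⟨x, hxN⟩ 0 = 0 := (hθ ⟨x, hxN⟩).1 hx
            obtain ⟨y, hy, hy'⟩ := mem_closure_iff_nhds.1 ((SetupAux.pos_side θ).2 x hxN h0) _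
              ((isOpen_interior.inter isOpen_interior).mem_nhds ⟨hxU, hxV⟩)
            obtain ⟨hyN, hyp⟩ := hy'
            have hyS : y ∉ S := by
              intro hyS
              rw [(hθ ⟨y, hyN⟩).1 hyS] at hyp
              exact lt_irrefl _ hyp
            rcases interior_subset hy.1 with ha | ha
            · rcases interior_subset hy.2 with hb | hb
              · exact hdis y ha hb
              · exact hyS hb
            · exact hyS ha
        · right
          intro s hs
          rcases hcov2 hs with h | h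
          · exact absurd ⟨s, hs, h⟩ h2
          · exact h
      -- a closed and open side
      have hclopen : ∀ A B : Set M, IsOpen A → IsOpen B → A.Nonempty → B.Nonempty →
          (∀ x, x ∈ A → x ∈ B → False) → (∀ x, x ∉ S → x ∈ A ∨ x ∈ B) →
          (∀ x, x ∈ B → x ∉ S) → S ⊆ interior (A ∪ S) → False := by
        intro A B hA hB hAne hBne hd hc hBS hSI
        have hopenAS : IsOpen (A ∪ S) := by
          rw [isOpen_iff_mem_nhds]
          rintro x (hx | hx)
          · exact Filter.mem_of_superset (hA.mem_nhds hx) subset_union_left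
          · exact mem_interior_iff_mem_nhds.1 (hSI hx)
        have hBcl : (A ∪ S)ᶜ = B := by
          ext x
          constructor
          · intro hx
            rcases hc x (fun h => hx (Or.inr h)) with h | h
            · exact absurd (Or.inl h) hx
            · exact h
          · rintro hx (h | h)
            · exact hd x h hx
            · exact hBS x hx h
        have hBc : IsClopen B := ⟨hBcl ▸ hopenAS.isClosed_compl, hB⟩
        have huniv := hBc.eq_univ hBne
        obtain ⟨x, hx⟩ := hAne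
        exact hd x hx (huniv ▸ mem_univ x)
      rcases hopen with h | h
      · exact hclopen U V hU hV hU'.nonempty hV'.nonempty hdis hcov hVS h
      · exact hclopen V U hV hU hV'.nonempty hU'.nonempty (fun x h1 h2 => hdis x h2 h1)
          (fun x hx => (hcov x hx).symm) hUS h
  intro s hs
  obtain ⟨N, ⟨hN, θ, hθ⟩, hsN⟩ := hSsub hs
  exact ⟨N, hN, hsN, θ, hθ⟩

/-- The closed side `U ∪ S` is closed. -/
theorem FlatSphere.isClosed_side {n : ℕ} {M : Type} [TopologicalSpace M]
    (P : FlatSphere n M) : IsClosed (P.U ∪ P.S) := by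
  rw [← isOpen_compl_iff]
  have : (P.U ∪ P.S)ᶜ = P.V := by
    ext x
    constructor
    · intro hx
      have h1 : x ∈ P.U ∪ P.V := by
        rw [P.compl]
        exact fun h => hx (Or.inr h)
      exact h1.resolve_left fun h => hx (Or.inl h)
    · rintro hx (h | h)
      · exact Set.disjoint_left.1 P.disj h hx
      · have h1 : x ∈ (P.D '' bdry (n + 1))ᶜ := P.compl ▸ Or.inr hx
        exact h1 h
  rw [this]
  exact P.openV

/-- The closed side `U ∪ S` is path connected. -/
theorem FlatSphere.pathConnected_side {n : ℕ} {M : Type} [TopologicalSpace M] [T2Space M]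
    (hM : LocEuc (n + 1) M) (P : FlatSphere n M) : IsPathConnected (P.U ∪ P.S) := by
  have i1 : LocallyPathConnectedSpace M := UCover.locallyPathConnectedSpace_of hM
  have hpc : IsPathConnected P.U := P.openU.isConnected_iff_isPathConnected.1 P.connU
  obtain ⟨x₀, hx₀, hj⟩ := hpc
  refine ⟨x₀, Or.inl hx₀, ?_⟩
  rintro y (hy | hy)
  · exact (hj hy).mono subset_union_left
  · obtain ⟨N, hN, hyN, θ, hθ⟩ := P.flat y hy
    have h0 : θ ⟨y, hyN⟩ 0 = 0 := (hθ ⟨y, hyN⟩).1.1 hy
    let g : unitInterval → M := fun t => θ.symm (θ ⟨y, hyN⟩ + (t : ℝ) • Pi.single 0 1)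
    have hg : Continuous g :=
      continuous_subtype_val.comp (θ.symm.continuous.comp (by fun_prop))
    have hg0 : g 0 = y := by simp [g]
    have hgU : ∀ t : unitInterval, 0 < (t : ℝ) → g t ∈ P.U := by
      intro t ht
      refine (hθ (θ.symm _)).2.1.2 ?_
      rw [θ.apply_symm_apply]
      simpa [h0] using ht
    have hgt : ∀ t, g t ∈ P.U ∪ P.S := by
      intro t
      rcases t.2.1.eq_or_lt with h | h
      · have : t = 0 := Subtype.ext h.symm
        rw [this, hg0]
        exact Or.inr hy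
      · exact Or.inl (hgU t h)
    have hjg : JoinedIn (P.U ∪ P.S) y (g 1) := ⟨⟨⟨g, hg⟩, hg0, rfl⟩, hgt⟩
    exact ((hj (hgU 1 (by simp))).mono subset_union_left).trans hjg.symm

/-- The closed side `U ∪ S` is locally Euclidean or a half space. -/
theorem FlatSphere.locHalf_side {n : ℕ} {M : Type} [TopologicalSpace M]
    (hM : LocEuc (n + 1) M) (P : FlatSphere n M) : LocHalf (P.U ∪ P.S : Set M) := by
  rintro ⟨x, hx | hx⟩
  · -- a point of the open side
    obtain ⟨T, hT, hxT, ⟨φ⟩⟩ := hM x
    let j : (Fin (n + 1) → ℝ) → M := fun v => φ.symm v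
    have hj : IsOpenEmbedding j := hT.isOpenEmbedding_subtypeVal.comp φ.symm.isOpenEmbedding
    set v₀ : Fin (n + 1) → ℝ := φ ⟨x, hxT⟩ with hv₀
    have hj0 : j v₀ = x := by simp [j, hv₀]
    obtain ⟨r, hr, hrO⟩ := Metric.isOpen_iff.1 (P.openU.preimage hj.continuous) v₀ (by
      rw [mem_preimage, hj0]; exact hx)
    let b := (OpenPartialHomeomorph.univBall v₀ r : OpenPartialHomeomorph (Fin (n + 1) → ℝ)
      (Fin (n + 1) → ℝ))
    have hb : IsOpenEmbedding b := b.isOpenEmbedding (OpenPartialHomeomorph.univBall_source _ _)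
    have hbr : ∀ v, b v ∈ ball v₀ r := by
      intro v
      have : b v ∈ b.target := b.map_source (by
        rw [OpenPartialHomeomorph.univBall_source]; trivial)
      rwa [OpenPartialHomeomorph.univBall_target _ hr] at this
    let f : (Fin (n + 1) → ℝ) → M := fun v => j (b v)
    have hf : IsOpenEmbedding f := hj.comp hb
    have hfU : ∀ v, f v ∈ P.U := fun v => hrO (hbr v)
    have hf0 : f 0 = x := by
      show j (b 0) = x
      rw [show b 0 = v₀ from OpenPartialHomeomorph.univBall_apply_zero _ _, hj0]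
    let e := hf.isEmbedding.toHomeomorph
    refine ⟨{y | (y : M) ∈ range f}, hf.isOpen_range.preimage continuous_subtype_val, ⟨0, hf0⟩,
      n + 1, Or.inl ⟨{
        toFun := fun y => e.symm ⟨y.1.1, y.2⟩
        invFun := fun v => ⟨⟨f v, Or.inl (hfU v)⟩, ⟨v, rfl⟩⟩
        left_inv := ?_
        right_inv := ?_
        continuous_toFun := ?_
        continuous_invFun := ?_ }⟩⟩
    · rintro ⟨⟨y, hy⟩, hyv⟩
      refine Subtype.ext (Subtype.ext ?_)
      have h1 : (e (e.symm ⟨y, hyv⟩) : M) = y := by rw [e.apply_symm_apply]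
      exact h1
    · intro v
      exact hf.isEmbedding.toHomeomorph_symm_apply v
    · exact e.symm.continuous.comp
        ((continuous_subtype_val.comp continuous_subtype_val).subtype_mk _)
    · exact (hf.continuous.subtype_mk _).subtype_mk _
  · -- a point of the hypersphere
    obtain ⟨N, hN, hxN, θ, hθ⟩ := P.flat x hx
    have hmem : ∀ v : Half n, ((θ.symm v.1 : N) : M) ∈ P.U ∪ P.S := by
      intro v
      obtain ⟨h1, h2, h3⟩ := hθ (θ.symm v.1)
      rw [θ.apply_symm_apply] at h1 h2
      rcases v.2.eq_or_lt with h | h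
      · exact Or.inr (h1.2 h.symm)
      · exact Or.inl (h2.2 h)
    have hnonneg : ∀ y : M, ∀ h : y ∈ N, y ∈ P.U ∪ P.S → 0 ≤ θ ⟨y, h⟩ 0 := by
      rintro y h (hy | hy)
      · exact ((hθ ⟨y, h⟩).2.1.1 hy).le
      · exact ((hθ ⟨y, h⟩).1.1 hy).symm.le
    refine ⟨{y | (y : M) ∈ N}, hN.preimage continuous_subtype_val, hxN,
      n, Or.inr ⟨{
        toFun := fun y => ⟨θ ⟨y.1.1, y.2⟩, hnonneg _ _ y.1.2⟩
        invFun := fun v => ⟨⟨θ.symm v.1, hmem v⟩, (θ.symm v.1).2⟩
        left_inv := ?_
        right_inv := ?_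
        continuous_toFun := ?_
        continuous_invFun := ?_ }⟩⟩
    · rintro ⟨⟨y, hy⟩, hyN⟩
      refine Subtype.ext (Subtype.ext ?_)
      show ((θ.symm (θ ⟨y, hyN⟩) : N) : M) = y
      rw [θ.symm_apply_apply]
    · intro v
      refine Subtype.ext ?_
      show θ (θ.symm v.1) = v.1
      rw [θ.apply_symm_apply]
    · exact (θ.continuous.comp
        ((continuous_subtype_val.comp continuous_subtype_val).subtype_mk _)).subtype_mk _
    · exact ((continuous_subtype_val.comp (θ.symm.continuous.comp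
        continuous_subtype_val)).subtype_mk _).subtype_mk _

end CubeHom
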