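import Pool.Agent.Lib.MP_cb6a70_gt_HB.Conseq
import Pool.Agent.Lib.MP_cb6a70_gt_HB.Setup

/-!
# Absolute local degree: definition
-/

namespace CubeHom

/-- The chain `c` has absolute local degree `d` at `y`. -/
def AbsDeg {Y : Type*} [TopologicalSpace Y] (n : ℕ) (c : Ch ℤ Y) (y : Y) (d : ℕ) : Prop :=
  ∃ S : Set Y, IsOpen S ∧ ∃ φ : S ≃ₜ (Fin n → ℝ), ∃ hy : y ∈ S, φ ⟨y, hy⟩ = 0 ∧
    ∃ r : ℤ, r.natAbs = d ∧ Bd ℤ n Set.univ ({y}ᶜ : Set Y) (c - r • locCh ℤ φ)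

end CubeHom
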