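import Pool.Agent.Lib.MP_cb6a70_gt_HB.DegDef

/-!
# Embedded cubes have degree one
-/

namespace CubeHom

variable {Y : Type*} [TopologicalSpace Y] [T2Space Y] {n : ℕ}

/-- The identity of the `n`-cube as a cube. -/
def idCube (n : ℕ) : C(Cb, Fin n → unitInterval) := ⟨fun u i => u i, by fun_prop⟩

theorem idCube_isCube (n : ℕ) : IsCube (n : ℤ) (idCube n) := by
  refine ⟨by omega, fun u v huv => ?_⟩
  funext i
  exact huv i (by simp)

theorem idCube_mem_Z (R : Type*) [CommRing R] (n : ℕ) :
    (Finsupp.single (idCube n) 1 : Ch R (Fin n → unitInterval)) ∈ Z R n Set.univ (bdry n) := by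
  refine single_mem_Z (idCube_isCube n) (fun i hi e he u => ?_) 1
  refine ⟨⟨i, hi⟩, ?_⟩
  change ins i e u i = 0 ∨ ins i e u i = 1
  rw [ins_apply_self]
  exact he

/-- Convex combinations in the unit interval. -/
theorem convex_mem (t a b : unitInterval) :
    (1 - (t : ℝ)) * (a : ℝ) + (t : ℝ) * (b : ℝ) ∈ Set.Icc (0 : ℝ) 1 := by
  have ht0 := t.2.1
  have ht1 := t.2.2
  have ha0 := a.2.1
  have ha1 := a.2.2
  have hb0 := b.2.1
  have hb1 := b.2.2
  constructor
  · have := mul_nonneg (sub_nonneg.2 ht1) ha0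
    have := mul_nonneg ht0 hb0
    linarith
  · nlinarith

/-- A cube which is injective with open image near an interior point has degree one there, as a
`n`-cube of an `n`-dimensional space. -/
theorem AbsDeg.embedded {f : C(Fin n → unitInterval, Y)} (hf : Function.Injective f)
    {u : Fin n → unitInterval} (hu : u ∉ bdry n)
    (hopen : IsOpen (f '' (bdry n)ᶜ)) : AbsDeg n (Finsupp.single (cubeOf f) 1) (f u) 1 := by
  have hu' : ∀ i, 0 < u i ∧ u i < 1 := fun i => by
    constructor
    · exact lt_of_le_of_ne (u i).2.1 (fun h => hu ⟨i, Or.inl h.symm⟩)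
    · exact lt_of_le_of_ne (u i).2.2 (fun h => hu ⟨i, Or.inr h⟩)
  have hx : ∀ i, ∃ x : ℝ, unitInterval.sigmoid x = u i := fun i => by
    have h : u i ∈ Set.range unitInterval.sigmoid := by
      rw [unitInterval.range_sigmoid]; exact hu' i
    exact h
  choose x0 hx0 using hx
  -- the chart
  let q : (Fin n → ℝ) → (Fin n → unitInterval) := fun x i => unitInterval.sigmoid (x0 i + x i)
  have hq : Topology.IsEmbedding q := by
    have h1 : Topology.IsEmbedding (fun x : Fin n → ℝ => fun i => unitInterval.sigmoid (x i)) :=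
      Topology.IsEmbedding.piMap fun _ => Topology.isEmbedding_sigmoid
    exact h1.comp (Homeomorph.addLeft x0).isEmbedding
  have hfe : Topology.IsEmbedding f := (f.continuous.isClosedEmbedding hf).isEmbedding
  have hg : Topology.IsEmbedding (f ∘ q) := hfe.comp hq
  have hqr : Set.range q = (bdry n)ᶜ := by
    ext v
    constructor
    · rintro ⟨x, rfl⟩ ⟨i, hi⟩
      have h1 := unitInterval.sigmoid_pos (x0 i + x i)
      have h2 := unitInterval.sigmoid_lt_one (x0 i + x i)
      rcases hi with hi | hi
      · exact h1.ne' hi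
      · exact h2.ne hi
    · intro hv
      have hv' : ∀ i, ∃ x : ℝ, unitInterval.sigmoid x = v i := fun i => by
        have h : v i ∈ Set.range unitInterval.sigmoid := by
          rw [unitInterval.range_sigmoid]
          constructor
          · exact lt_of_le_of_ne (v i).2.1 (fun h => hv ⟨i, Or.inl h.symm⟩)
          · exact lt_of_le_of_ne (v i).2.2 (fun h => hv ⟨i, Or.inr h⟩)
        exact h
      choose y hy using hv'
      refine ⟨fun i => y i - x0 i, ?_⟩
      funext i
      change unitInterval.sigmoid (x0 i + (y i - x0 i)) = v i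
      rw [add_sub_cancel, hy]
  have hS : Set.range (f ∘ q) = f '' (bdry n)ᶜ := by rw [Set.range_comp, hqr]
  have hq0 : q 0 = u := by
    funext i
    change unitInterval.sigmoid (x0 i + 0) = u i
    rw [add_zero, hx0]
  have hmem : f u ∈ Set.range (f ∘ q) := ⟨0, by rw [Function.comp_apply, hq0]⟩
  refine ⟨Set.range (f ∘ q), hS ▸ hopen, hg.toHomeomorph.symm, hmem, ?_, 1, by simp, ?_⟩
  · rw [Homeomorph.symm_apply_eq]
    apply Subtype.ext
    change f u = (f ∘ q) 0
    rw [Function.comp_apply, hq0]
  -- the homotopy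
  let H : C(I × (Fin n → unitInterval), Y) :=
    ⟨fun p => f fun i => ⟨_, convex_mem p.1 (p.2 i)
      (unitInterval.sigmoid (x0 i + (2 * ((p.2 i : unitInterval) : ℝ) - 1)))⟩, by
      refine f.continuous.comp (continuous_pi fun i => Continuous.subtype_mk ?_ _)
      have h1 : Continuous fun p : I × (Fin n → unitInterval) => ((unitInterval.sigmoid
          (x0 i + (2 * ((p.2 i : unitInterval) : ℝ) - 1)) : unitInterval) : ℝ) :=
        continuous_subtype_val.comp (unitInterval.continuous_sigmoid.comp (by fun_prop))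
      exact (by fun_prop : Continuous fun p : I × (Fin n → unitInterval) =>
        (1 - (p.1 : ℝ)) * ((p.2 i : unitInterval) : ℝ)).add
        ((by fun_prop : Continuous fun p : I × (Fin n → unitInterval) => (p.1 : ℝ)).mul h1)⟩
  have hbd : ∀ t : I, ∀ v ∈ bdry n, H (t, v) ∈ ({f u}ᶜ : Set Y) := by
    rintro t v ⟨i, hi⟩ h
    have h1 := congrFun (hf (Set.mem_singleton_iff.1 h)) i
    have h2 := congrArg Subtype.val h1
    simp only at h2
    have ht0 := t.2.1
    have ht1 := t.2.2
    rcases hi with hi | hi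
    · rw [hi] at h2
      have h3 : (unitInterval.sigmoid (x0 i + (2 * ((0 : unitInterval) : ℝ) - 1)) : ℝ) <
          (u i : ℝ) := by
        rw [← hx0 i]
        refine unitInterval.sigmoid_lt ?_
        simp
      have h4 := (unitInterval.sigmoid (x0 i + (2 * ((0 : unitInterval) : ℝ) - 1))).2.1
      have h5 : ((0 : unitInterval) : ℝ) = 0 := rfl
      rw [h5] at h2 h3 h4
      nlinarith
    · rw [hi] at h2
      have h3 : (u i : ℝ) <
          (unitInterval.sigmoid (x0 i + (2 * ((1 : unitInterval) : ℝ) - 1)) : ℝ) := by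
        rw [← hx0 i]
        refine unitInterval.sigmoid_lt ?_
        simp only [Set.Icc.coe_one]
        linarith
      have h5 : ((1 : unitInterval) : ℝ) = 1 := rfl
      have h6 : (u i : ℝ) < 1 := (hu' i).2
      rw [h5] at h2 h3
      have h7 := mul_nonneg (sub_nonneg.2 ht1) (sub_nonneg.2 h6.le)
      rcases eq_or_lt_of_le ht0 with h0 | h0
      · rw [← h0] at h2
        linarith
      · have h8 := mul_pos h0 (sub_pos.2 h3)
        linarith
  have hB := Bd_homotopy (R := ℤ) (H := H) (k := n) (U := Set.univ) (A := bdry n)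
    (V := Set.univ) (A' := {f u}ᶜ) (fun _ _ _ => Set.mem_univ _) hbd (idCube_mem_Z ℤ n)
  rw [push_single, push_single] at hB
  have e0 : (atTime H 0).comp (idCube n) = cubeOf f := by
    ext v
    change f _ = f _
    congr 1
    funext i
    apply Subtype.ext
    change (1 - ((0 : I) : ℝ)) * ((v i : I) : ℝ) + ((0 : I) : ℝ) * _ = ((v i : I) : ℝ)
    have h5 : ((0 : I) : ℝ) = 0 := rfl
    rw [h5]
    ring
  have e1 : (atTime H 1).comp (idCube n) = chartCube hg.toHomeomorph.symm := by
    ext v
    change f _ = f (q (stdCube n v))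
    congr 1
    funext i
    apply Subtype.ext
    change (1 - ((1 : I) : ℝ)) * ((v i : I) : ℝ) + ((1 : I) : ℝ) * (unitInterval.sigmoid
      (x0 i + (2 * ((v i : I) : ℝ) - 1)) : ℝ) =
      (unitInterval.sigmoid (x0 i + (2 * ((v i : I) : ℝ) - 1)) : ℝ)
    have h5 : ((1 : I) : ℝ) = 1 := rfl
    rw [h5]
    ring
  rw [e0, e1] at hB
  rw [one_smul]
  exact hB.sub_comm

end CubeHom
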