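import Pool.Agent.Lib.MP_cb6a70_gt_HB.DegBasic
import Pool.Agent.Lib.MP_cb6a70_gt_HB.DegEmb

/-!
# The jump lemma at a point in the interior of a face
-/

namespace CubeHom

variable {n : ℕ}

namespace Jump

open Loc

/-! ### The boundary of a cube up to one face -/

theorem bd_face {X : Type*} [TopologicalSpace X] {m : ℕ} {σ : C(Cb, X)}
    (hσ : IsCube ((m : ℤ) + 1) σ) {i : ℕ} (hi : i < m + 1) {e : I} (he : e = 0 ∨ e = 1)
    {A : Set X} (hA : ∀ j < m + 1, ∀ e' : I, (e' = 0 ∨ e' = 1) → ¬ (j = i ∧ e' = e) →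
      ∀ u, σ (ins j e' u) ∈ A) :
    ∃ η : ℤ, (η = 1 ∨ η = -1) ∧ bd ((m : ℤ) + 1) (Finsupp.single σ 1 : Ch ℤ X) -
      η • Finsupp.single (σ.comp (ins i e)) 1 ∈ C ℤ (m : ℤ) A := by
  have hf : ∀ j < m + 1, ∀ e' : I, (e' = 0 ∨ e' = 1) → ¬ (j = i ∧ e' = e) →
      (Finsupp.single (σ.comp (ins j e')) 1 : Ch ℤ X) ∈ C ℤ (m : ℤ) A := by
    intro j hj e' he' hne
    have h := hσ.face (i := j) (by omega) e'
    rw [add_sub_cancel_right] at h
    exact mem_C_single h (fun u => hA j hj e' he' hne u) _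
  have ht : ((m : ℤ) + 1).toNat = m + 1 := by omega
  have hpow : ((-1 : ℤ) ^ i = 1 ∨ (-1 : ℤ) ^ i = -1) := neg_one_pow_eq_or ℤ i
  rw [bd_apply, ht, ← Finset.add_sum_erase _ _ (Finset.mem_range.2 hi)]
  have hrest : ∑ j ∈ (Finset.range (m + 1)).erase i, ((-1 : ℤ) ^ j) •
      (face j 1 (Finsupp.single σ 1 : Ch ℤ X) - face j 0 (Finsupp.single σ 1)) ∈
      C ℤ (m : ℤ) A := by
    refine Submodule.sum_mem _ fun j hj => Submodule.smul_mem _ _ ?_
    rw [Finset.mem_erase, Finset.mem_range] at hj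
    rw [face_single, face_single]
    exact Submodule.sub_mem _ (hf j hj.2 1 (Or.inr rfl) (fun h => hj.1 h.1))
      (hf j hj.2 0 (Or.inl rfl) (fun h => hj.1 h.1))
  rcases he with rfl | rfl
  · refine ⟨-(-1) ^ i, by rcases hpow with h | h <;> rw [h] <;> simp, ?_⟩
    have e1 : ((-1 : ℤ) ^ i) • (face i 1 (Finsupp.single σ 1 : Ch ℤ X) -
        face i 0 (Finsupp.single σ 1)) +
        ∑ j ∈ (Finset.range (m + 1)).erase i, ((-1 : ℤ) ^ j) •
          (face j 1 (Finsupp.single σ 1 : Ch ℤ X) - face j 0 (Finsupp.single σ 1)) -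
        (-(-1 : ℤ) ^ i) • (Finsupp.single (σ.comp (ins i 0)) 1 : Ch ℤ X) =
        ((-1 : ℤ) ^ i) • (Finsupp.single (σ.comp (ins i 1)) 1 : Ch ℤ X) +
        ∑ j ∈ (Finset.range (m + 1)).erase i, ((-1 : ℤ) ^ j) •
          (face j 1 (Finsupp.single σ 1 : Ch ℤ X) - face j 0 (Finsupp.single σ 1)) := by
      rw [face_single, face_single, smul_sub, neg_smul]
      abel
    rw [e1]
    refine Submodule.add_mem _ (Submodule.smul_mem _ _ (hf i hi 1 (Or.inr rfl) ?_)) hrest
    rintro ⟨-, h⟩
    exact one_ne_zero h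
  · refine ⟨(-1) ^ i, hpow, ?_⟩
    have e1 : ((-1 : ℤ) ^ i) • (face i 1 (Finsupp.single σ 1 : Ch ℤ X) -
        face i 0 (Finsupp.single σ 1)) +
        ∑ j ∈ (Finset.range (m + 1)).erase i, ((-1 : ℤ) ^ j) •
          (face j 1 (Finsupp.single σ 1 : Ch ℤ X) - face j 0 (Finsupp.single σ 1)) -
        ((-1 : ℤ) ^ i) • (Finsupp.single (σ.comp (ins i 1)) 1 : Ch ℤ X) =
        -(((-1 : ℤ) ^ i) • (Finsupp.single (σ.comp (ins i 0)) 1 : Ch ℤ X)) +
        ∑ j ∈ (Finset.range (m + 1)).erase i, ((-1 : ℤ) ^ j) •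
          (face j 1 (Finsupp.single σ 1 : Ch ℤ X) - face j 0 (Finsupp.single σ 1)) := by
      rw [face_single, face_single, smul_sub]
      abel
    rw [e1]
    refine Submodule.add_mem _ (Submodule.neg_mem _ (Submodule.smul_mem _ _
      (hf i hi 0 (Or.inl rfl) ?_))) hrest
    rintro ⟨-, h⟩
    exact zero_ne_one h

/-! ### The hypersurface -/

section Sec

variable {E : Type*} [TopologicalSpace E] {T N : Set E}

/-- The inclusion of the hyperplane. -/
def c0 (n : ℕ) : C(Fin n → ℝ, Fin (n + 1) → ℝ) :=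
  ⟨fun v => Fin.cons 0 v, by
    refine continuous_pi fun j => ?_
    refine Fin.cases ?_ (fun j => ?_) j
    · simpa using continuous_const
    · simpa using continuous_apply j⟩

theorem c0_zero (v : Fin n → ℝ) : c0 n v 0 = 0 := rfl

theorem c0_succ (v : Fin n → ℝ) (j : Fin n) : c0 n v j.succ = v j := rfl

/-- The chart of the hypersurface. -/
noncomputable def secChart (θ : N ≃ₜ (Fin (n + 1) → ℝ))
    (hθ : ∀ x : N, ((x : E) ∈ T ↔ θ x 0 = 0)) :
    ({x : T | (x : E) ∈ N} : Set T) ≃ₜ (Fin n → ℝ) where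
  toFun x := fun j => θ ⟨(x : T), x.2⟩ j.succ
  invFun v := ⟨⟨(θ.symm (c0 n v) : N), (hθ _).2 (by rw [θ.apply_symm_apply, c0_zero])⟩,
    (θ.symm (c0 n v)).2⟩
  left_inv := by
    rintro ⟨⟨x, hx⟩, hxN⟩
    have h0 : θ ⟨x, hxN⟩ 0 = 0 := (hθ ⟨x, hxN⟩).1 hx
    have e : c0 n (fun j => θ ⟨x, hxN⟩ j.succ) = θ ⟨x, hxN⟩ := by
      funext j
      refine Fin.cases ?_ (fun j => ?_) j
      · rw [c0_zero, h0]
      · rw [c0_succ]
    refine Subtype.ext (Subtype.ext ?_)
    change ((θ.symm (c0 n (fun j => θ ⟨x, hxN⟩ j.succ)) : N) : E) = x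
    rw [e, θ.symm_apply_apply]
  right_inv := by
    intro v
    funext j
    change θ (θ.symm (c0 n v)) j.succ = v j
    rw [θ.apply_symm_apply, c0_succ]
  continuous_toFun := by
    refine continuous_pi fun j => (continuous_apply _).comp (θ.continuous.comp ?_)
    exact Continuous.subtype_mk (continuous_subtype_val.comp continuous_subtype_val) _
  continuous_invFun := by
    refine Continuous.subtype_mk (Continuous.subtype_mk ?_ _) _
    exact continuous_subtype_val.comp (θ.symm.continuous.comp (c0 n).continuous)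

theorem isOpen_sec (hN : IsOpen N) : IsOpen ({x : T | (x : E) ∈ N} : Set T) :=
  hN.preimage continuous_subtype_val

/-- The inclusion of a subspace. -/
def incT (T : Set E) : C(T, E) := ⟨Subtype.val, continuous_subtype_val⟩

theorem push_incT_locCh (θ : N ≃ₜ (Fin (n + 1) → ℝ)) (hθ : ∀ x : N, ((x : E) ∈ T ↔ θ x 0 = 0)) :
    push (incT T) (locCh ℤ (secChart θ hθ)) =
      Finsupp.single ((chartMap θ).comp ((c0 n).comp (stdCube n))) 1 := by
  unfold locCh
  rw [push_single]
  rfl

end Sec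

/-! ### The face -/

section FaceEmb

variable {E : Type*} [TopologicalSpace E] [T2Space E] (D : C(Fin (n + 1) → unitInterval, E))

theorem isClosed_bdry (m : ℕ) : IsClosed (bdry m) := by
  have : bdry m = ⋃ i : Fin m, {u : Fin m → unitInterval | u i = 0} ∪ {u | u i = 1} := by
    ext u
    simp only [bdry, Set.mem_ofPred_eq, Set.mem_iUnion, Set.mem_union]
  rw [this]
  refine isClosed_iUnion_of_finite fun i => IsClosed.union ?_ ?_
  · exact isClosed_eq (continuous_apply i) continuous_const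
  · exact isClosed_eq (continuous_apply i) continuous_const

/-- The face `(i, e)` as a cube of the sphere. -/
def faceMap (i : Fin (n + 1)) {e : unitInterval} (he : e = 0 ∨ e = 1) :
    C(Fin n → unitInterval, (D '' bdry (n + 1) : Set E)) :=
  ⟨fun v => ⟨D (i.insertNth e v), _, ⟨i, by simpa using he⟩, rfl⟩, by
    refine Continuous.subtype_mk (D.continuous.comp ?_) _
    refine continuous_pi fun j => ?_
    refine Fin.succAboveCases i ?_ (fun j => ?_) j
    · simpa using continuous_const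
    · simpa using continuous_apply j⟩

variable {D}

omit [T2Space E] in
theorem faceMap_injective (hinj : Set.InjOn D (bdry (n + 1))) (i : Fin (n + 1))
    {e : unitInterval} (he : e = 0 ∨ e = 1) : Function.Injective (faceMap D i he) := by
  intro v v' h
  have h1 : D (i.insertNth e v) = D (i.insertNth e v') := congrArg Subtype.val h
  have h2 := hinj ⟨i, by simpa using he⟩ ⟨i, by simpa using he⟩ h1
  funext l
  have h3 := congrFun h2 (i.succAbove l)
  rwa [Fin.insertNth_apply_succAbove, Fin.insertNth_apply_succAbove] at h3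

theorem faceMap_isOpen (hinj : Set.InjOn D (bdry (n + 1))) (i : Fin (n + 1))
    {e : unitInterval} (he : e = 0 ∨ e = 1) : IsOpen (faceMap D i he '' (bdry n)ᶜ) := by
  set Cl : Set (Fin (n + 1) → unitInterval) := bdry (n + 1) ∩
    ((⋃ j : {j : Fin (n + 1) // j ≠ i}, {u | u j.1 = 0} ∪ {u | u j.1 = 1}) ∪
      (fun u => u i) ⁻¹' ({0, 1} \ {e})) with hCl
  have hclosed : IsClosed Cl := by
    refine (isClosed_bdry _).inter (IsClosed.union ?_ ?_)
    · refine isClosed_iUnion_of_finite fun j => IsClosed.union ?_ ?_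
      · exact isClosed_eq (continuous_apply j.1) continuous_const
      · exact isClosed_eq (continuous_apply j.1) continuous_const
    · exact (((Set.toFinite ({0, 1} : Set unitInterval)).subset
        Set.sdiff_subset).isClosed).preimage (continuous_apply i)
  have hDc : IsClosed (D '' Cl) := (hclosed.isCompact.image D.continuous).isClosed
  have key : (faceMap D i he '' (bdry n)ᶜ) =
      ((Subtype.val : (D '' bdry (n + 1) : Set E) → E) ⁻¹' (D '' Cl))ᶜ := by
    ext s
    constructor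
    · rintro ⟨v, hv, rfl⟩ ⟨u, hu, h⟩
      have h1 : D u = D (i.insertNth e v) := h
      have h2 : u = i.insertNth e v := hinj hu.1 ⟨i, by simpa using he⟩ h1
      subst h2
      rcases hu.2 with h3 | h3
      · rw [Set.mem_iUnion] at h3
        obtain ⟨⟨j, hj⟩, h3⟩ := h3
        obtain ⟨l, rfl⟩ := Fin.exists_succAbove_eq hj
        apply hv
        refine ⟨l, ?_⟩
        simpa using h3
      · apply h3.2
        simp
    · intro hs
      obtain ⟨s, u, hu, rfl⟩ := s
      have hnot : u ∉ Cl := fun h => hs ⟨u, h, rfl⟩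
      have h1 : ∀ j, j ≠ i → ¬ (u j = 0 ∨ u j = 1) := by
        intro j hj h
        exact hnot ⟨hu, Or.inl (Set.mem_iUnion.2 ⟨⟨j, hj⟩, h⟩)⟩
      have h2 : u i = 0 ∨ u i = 1 := by
        obtain ⟨j, hj⟩ := hu
        by_cases hji : j = i
        · rwa [hji] at hj
        · exact absurd hj (h1 j hji)
      have h3 : u i = e := by
        by_contra hne
        exact hnot ⟨hu, Or.inr ⟨h2, hne⟩⟩
      refine ⟨i.removeNth u, ?_, ?_⟩
      · rintro ⟨l, hl⟩
        exact h1 _ (Fin.succAbove_ne i l) hl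
      · refine Subtype.ext ?_
        change D (i.insertNth e (i.removeNth u)) = D u
        rw [← h3, Fin.insertNth_self_removeNth]
  rw [key]
  exact (hDc.preimage continuous_subtype_val).isOpen_compl

theorem ins_eq_insertNth (i : Fin (n + 1)) (e : I) (u : Cb) :
    (fun j : Fin (n + 1) => ins i e u j) = i.insertNth (α := fun _ => I) e (fun k : Fin n => u k) := by
  funext j
  refine Fin.succAboveCases i ?_ (fun k => ?_) j
  · rw [Fin.insertNth_apply_same, ins_apply_self]
  · rw [Fin.insertNth_apply_succAbove]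
    by_cases hk : k.castSucc < i
    · rw [Fin.succAbove_of_castSucc_lt i k hk]
      rw [ins_apply_lt (by exact_mod_cast hk)]
      rfl
    · rw [Fin.succAbove_of_le_castSucc i k (not_lt.1 hk)]
      have h : (i : ℕ) < (k.succ : ℕ) := by
        have := not_lt.1 hk
        have h2 : (i : ℕ) ≤ (k : ℕ) := this
        simp only [Fin.val_succ]
        omega
      rw [ins_apply_gt h]
      simp

omit [T2Space E] in
theorem push_incT_face (i : Fin (n + 1)) {e : unitInterval} (he : e = 0 ∨ e = 1) :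
    push (incT (D '' bdry (n + 1))) (Finsupp.single (cubeOf (faceMap D i he)) (1 : ℤ)) =
      Finsupp.single ((cubeOf D).comp (ins i e)) 1 := by
  rw [push_single]
  congr 1
  ext u
  change D (i.insertNth e (fun k : Fin n => u k)) = D (fun j : Fin (n + 1) => ins i e u j)
  rw [ins_eq_insertNth]

end FaceEmb

/-! ### The box and the segment -/

/-- The homotopy from the box `[-1,1]^{n+1}` to the box `[0,1] × [-1,1]^n`. -/
noncomputable def boxH (n : ℕ) : C(I × (Fin (n + 1) → ℝ), Fin (n + 1) → ℝ) :=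
  ⟨fun p => fun j => if j = 0 then (1 - ((p.1 : I) : ℝ)) * p.2 0 + ((p.1 : I) : ℝ) *
    ((p.2 0 + 1) / 2) else p.2 j, by
    refine continuous_pi fun j => ?_
    by_cases hj : j = 0
    · simp only [hj, if_true]
      fun_prop
    · simp only [hj, if_false]
      fun_prop⟩

/-- The box `[0,1] × [-1,1]^n`. -/
noncomputable def boxC (n : ℕ) : C(Cb, Fin (n + 1) → ℝ) :=
  (atTime (boxH n) 1).comp (stdCube (n + 1))

theorem boxC_zero (u : Cb) : boxC n u 0 = ((u 0 : I) : ℝ) := by
  change (1 - ((1 : I) : ℝ)) * (2 * ((u 0 : I) : ℝ) - 1) + ((1 : I) : ℝ) *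
    ((2 * ((u 0 : I) : ℝ) - 1 + 1) / 2) = _
  rw [Set.Icc.coe_one]
  ring

theorem boxC_ne {j : Fin (n + 1)} (hj : j ≠ 0) (u : Cb) :
    boxC n u j = 2 * ((u j : I) : ℝ) - 1 := by
  change (if j = 0 then _ else _) = _
  rw [if_neg hj]
  rfl

theorem boxC_isCube (n : ℕ) : IsCube ((n : ℤ) + 1) (boxC n) := by
  have h := stdCube_isCube (n + 1)
  rw [Nat.cast_add, Nat.cast_one] at h
  exact h.comp _

/-- The segment. -/
def seg (n : ℕ) : Set (Fin (n + 1) → ℝ) :=
  Set.univ.pi fun j => if j = 0 then Set.Icc (-(1 / 2)) (1 / 2) else {0}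

theorem mem_seg {v : Fin (n + 1) → ℝ} :
    v ∈ seg n ↔ (-(1 / 2) ≤ v 0 ∧ v 0 ≤ 1 / 2) ∧ ∀ j, j ≠ 0 → v j = 0 := by
  unfold seg
  rw [Set.mem_univ_pi]
  constructor
  · intro h
    refine ⟨by simpa using h 0, fun j hj => ?_⟩
    have := h j
    rw [if_neg hj] at this
    exact this
  · rintro ⟨h1, h2⟩ j
    by_cases hj : j = 0
    · subst hj
      rw [if_pos rfl]
      exact h1
    · rw [if_neg hj]
      exact h2 j hj

theorem seg_compact (n : ℕ) : IsCompact (seg n) := by
  refine isCompact_univ_pi fun j => ?_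
  split_ifs
  · exact isCompact_Icc
  · exact isCompact_singleton

theorem seg_convex (n : ℕ) : Convex ℝ (seg n) := by
  refine convex_pi fun j _ => ?_
  split_ifs
  · exact convex_Icc _ _
  · exact convex_singleton _

theorem seg_lt {v : Fin (n + 1) → ℝ} (hv : v ∈ seg n) (i : Fin (n + 1)) :
    -1 < v i ∧ v i < 1 := by
  obtain ⟨⟨h1, h2⟩, h3⟩ := mem_seg.1 hv
  by_cases hi : i = 0
  · subst hi
    constructor <;> linarith
  · rw [h3 i hi]
    norm_num

/-- The right end. -/
noncomputable def ptR (n : ℕ) : Fin (n + 1) → ℝ := fun j => if j = 0 then 1 / 2 else 0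

/-- The left end. -/
noncomputable def ptL (n : ℕ) : Fin (n + 1) → ℝ := fun j => if j = 0 then -(1 / 2) else 0

theorem ptR_mem (n : ℕ) : ptR n ∈ seg n := by
  rw [mem_seg]
  refine ⟨?_, fun j hj => if_neg hj⟩
  unfold ptR
  rw [if_pos rfl]
  norm_num

theorem ptL_mem (n : ℕ) : ptL n ∈ seg n := by
  rw [mem_seg]
  refine ⟨?_, fun j hj => if_neg hj⟩
  unfold ptL
  rw [if_pos rfl]
  norm_num

/-- The small box is homologous to the standard box at the right end. -/
theorem box_std (n : ℕ) : Bd ℤ ((n : ℤ) + 1) Set.univ ({ptR n}ᶜ)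
    (Finsupp.single (boxC n) 1 - stdCh ℤ (n + 1)) := by
  have hz := stdCh_mem_offBox (R := ℤ) (n + 1)
  rw [Nat.cast_add, Nat.cast_one] at hz
  have h := Bd_homotopy (R := ℤ) (H := boxH n) (U := Set.univ) (A := offBox (n + 1))
    (V := Set.univ) (A' := {ptR n}ᶜ) (fun _ _ _ => Set.mem_univ _) ?_ hz
  · have e1 : push (atTime (boxH n) 1) (stdCh ℤ (n + 1)) = Finsupp.single (boxC n) 1 := by
      unfold stdCh
      rw [push_single]
      rfl
    have e0 : atTime (boxH n) 0 = ContinuousMap.id _ := by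
      ext v j
      change (if j = 0 then (1 - ((0 : I) : ℝ)) * v 0 + ((0 : I) : ℝ) * ((v 0 + 1) / 2)
        else v j) = v j
      split_ifs with hj
      · subst hj
        rw [Set.Icc.coe_zero]
        ring
      · rfl
    rw [e1, e0, push_id] at h
    exact h
  · rintro t v ⟨j, hj⟩ hv
    have hv' : boxH n (t, v) = ptR n := hv
    have hj' := congrFun hv' j
    change (if j = 0 then (1 - ((t : I) : ℝ)) * v 0 + ((t : I) : ℝ) * ((v 0 + 1) / 2)
        else v j) = (if j = 0 then 1 / 2 else 0) at hj'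
    by_cases hj0 : j = 0
    · subst hj0
      rw [if_pos rfl, if_pos rfl] at hj'
      have ht0 := t.2.1
      have ht1 := t.2.2
      rcases hj with hj | hj
      · rw [hj] at hj'
        linarith
      · rw [hj] at hj'
        linarith
    · rw [if_neg hj0, if_neg hj0] at hj'
      rcases hj with hj | hj <;> linarith

end Jump

open Jump Loc

/-- The degrees at the two ends of a segment which crosses the sphere once, at the point `D w`,
`w` in the interior of the face `(i, w i)`, differ by one. -/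
theorem jump_at (hn : 1 ≤ n) {E : Type*} [TopologicalSpace E] [T2Space E]
    (D : C(Fin (n + 1) → unitInterval, E)) (hinj : Set.InjOn D (bdry (n + 1)))
    {N : Set E} (hN : IsOpen N) (θ : N ≃ₜ (Fin (n + 1) → ℝ))
    (hθ : ∀ x : N, ((x : E) ∈ D '' bdry (n + 1) ↔ θ x 0 = 0))
    {w : Fin (n + 1) → unitInterval} {i : Fin (n + 1)} (hwi : w i = 0 ∨ w i = 1)
    (hw : ∀ j, j ≠ i → w j ≠ 0 ∧ w j ≠ 1) (hwN : D w ∈ N) (h0 : θ ⟨D w, hwN⟩ = 0) :
    ∃ r ε : ℤ, (ε = 1 ∨ ε = -1) ∧
      AbsDeg (n + 1) (Finsupp.single (cubeOf D) 1)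
        (θ.symm (fun j => if j = 0 then 1 / 2 else 0) : E) (r + ε).natAbs ∧
      AbsDeg (n + 1) (Finsupp.single (cubeOf D) 1)
        (θ.symm (fun j => if j = 0 then -(1 / 2) else 0) : E) r.natAbs := by
  set T : Set E := D '' bdry (n + 1) with hT
  have hwb : w ∈ bdry (n + 1) := ⟨i, hwi⟩
  set s0 : T := ⟨D w, w, hwb, rfl⟩ with hs0
  set Sx : Set T := {x : T | (x : E) ∈ N} with hSx
  have hSxo : IsOpen Sx := isOpen_sec hN
  set ψ : Sx ≃ₜ (Fin n → ℝ) := secChart θ hθ with hψ
  have hs0S : s0 ∈ Sx := hwN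
  have hψ0 : ψ ⟨s0, hs0S⟩ = 0 := by
    funext j
    change θ ⟨D w, hwN⟩ j.succ = 0
    rw [h0]
    rfl
  -- the face has degree one
  have hface : AbsDeg n (Finsupp.single (cubeOf (faceMap D i hwi)) 1) s0 1 := by
    have h1 := AbsDeg.embedded (faceMap_injective hinj i hwi) (u := i.removeNth w) ?_
      (faceMap_isOpen hinj i hwi)
    · have e : faceMap D i hwi (i.removeNth w) = s0 := by
        refine Subtype.ext ?_
        change D (i.insertNth (w i) (i.removeNth w)) = D w
        rw [Fin.insertNth_self_removeNth]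
      rwa [e] at h1
    · rintro ⟨l, hl⟩
      have h2 := hw _ (Fin.succAbove_ne i l)
      rcases hl with hl | hl
      · exact h2.1 hl
      · exact h2.2 hl
  obtain ⟨S, hS, φ, hy, hφ0, r1, hr1, hB1⟩ := hface
  obtain ⟨ε1, hε1, hB2⟩ := loc_change hS hSxo φ ψ hy hs0S
    (fun j => by rw [hφ0]; simp) (fun j => by rw [hψ0]; simp)
  -- homologous to the face of the box
  have hB3 : Bd ℤ n Set.univ ({s0}ᶜ : Set T)
      (Finsupp.single (cubeOf (faceMap D i hwi)) 1 - (r1 * ε1) • locCh ℤ ψ) := by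
    have h3 := hB2.smul r1
    rw [smul_sub, smul_smul] at h3
    exact hB1.trans h3
  set A : Set E := {x | x ∈ T ∧ x ≠ D w} with hA
  have hm1 : Set.MapsTo (incT T) (Set.univ : Set T) T := fun x _ => x.2
  have hm2 : Set.MapsTo (incT T) ({s0}ᶜ : Set T) A := by
    intro x hx
    refine ⟨x.2, fun h => ?_⟩
    rw [Set.mem_compl_iff, Set.mem_singleton_iff] at hx
    exact hx (Subtype.ext h)
  have hB4 := hB3.push hm1 hm2
  rw [map_sub, map_smul, push_incT_face, push_incT_locCh] at hB4
  obtain ⟨x, hx, hxA⟩ := hB4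
  -- the other faces
  have hDcube : IsCube ((n : ℤ) + 1) (cubeOf D) := by
    refine ⟨by positivity, fun u v huv => ?_⟩
    change D (fun j : Fin (n + 1) => u j) = D (fun j : Fin (n + 1) => v j)
    congr 1
    funext j
    exact huv j (by have := j.2; simp only [Set.mem_ofPred_eq]; omega)
  obtain ⟨η, hη, hbd⟩ := bd_face hDcube (i := i) i.2 hwi (A := A) (by
    intro j hj e he hne u
    have hub : (fun l : Fin (n + 1) => ins j e u l) ∈ bdry (n + 1) :=
      ⟨⟨j, hj⟩, by
        change ins j e u j = 0 ∨ ins j e u j = 1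
        rw [ins_apply_self]; exact he⟩
    refine ⟨⟨_, hub, rfl⟩, fun h => hne ?_⟩
    have h1 : D (fun l : Fin (n + 1) => ins j e u l) = D w := h
    have h2 := hinj hub hwb h1
    have h3 : w ⟨j, hj⟩ = e := by
      rw [← h2]
      exact ins_apply_self j e u
    have h4 : (⟨j, hj⟩ : Fin (n + 1)) = i := by
      by_contra hji
      have h5 := hw _ hji
      rw [h3] at h5
      rcases he with he | he
      · exact h5.1 he
      · exact h5.2 he
    refine ⟨congrArg Fin.val h4, ?_⟩
    rw [← h3, h4])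
  -- the box
  set bx : C(Cb, E) := (chartMap θ).comp (boxC n) with hbx
  have hbxcube : IsCube ((n : ℤ) + 1) bx := (boxC_isCube n).comp _
  set L : Set E := inChart θ (seg n) with hL
  have hpre : ∀ v : Fin (n + 1) → ℝ, v ∉ seg n → chartMap θ v ∈ Lᶜ := by
    intro v hv
    have h1 : v ∈ chartMap θ ⁻¹' (inChart θ (seg n))ᶜ := by
      rw [preimage_inChart]
      exact hv
    exact h1
  obtain ⟨η0, hη0, hbd0⟩ := bd_face hbxcube (i := 0) (e := 0) (by omega) (Or.inl rfl) (A := Lᶜ) (by
    intro j hj e he hne u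
    refine hpre _ ?_
    rw [mem_seg]
    rintro ⟨⟨h1, h2⟩, h3⟩
    by_cases hj0 : j = 0
    · subst hj0
      have he1 : e = 1 := by
        rcases he with he | he
        · exact absurd ⟨rfl, he⟩ hne
        · exact he
      rw [boxC_zero, ins_apply_self, he1, Set.Icc.coe_one] at h2
      norm_num at h2
    · have h4 := h3 ⟨j, hj⟩ (fun h => hj0 (congrArg Fin.val h))
      rw [boxC_ne (fun h => hj0 (congrArg Fin.val h))] at h4
      change 2 * ((ins j e u j : I) : ℝ) - 1 = 0 at h4
      rw [ins_apply_self] at h4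
      rcases he with rfl | rfl
      · rw [Set.Icc.coe_zero] at h4
        norm_num at h4
      · rw [Set.Icc.coe_one] at h4
        norm_num at h4)
  have hface0 : bx.comp (ins 0 0) = (chartMap θ).comp ((c0 n).comp (stdCube n)) := by
    ext u
    change chartMap θ (boxC n (ins 0 0 u)) = chartMap θ (c0 n (stdCube n u))
    congr 1
    funext j
    refine Fin.cases ?_ (fun j => ?_) j
    · rw [boxC_zero, ins_apply_self, c0_zero, Set.Icc.coe_zero]
    · rw [boxC_ne (Fin.succ_ne_zero j), c0_succ, stdCube_apply, Fin.val_succ,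
        ins_apply_gt (by omega)]
      simp
  -- the sphere off the segment
  have hθs : ∀ v : Fin (n + 1) → ℝ, (chartMap θ v ∈ T ↔ v 0 = 0) := by
    intro v
    have h1 := hθ (θ.symm v)
    rwa [θ.apply_symm_apply] at h1
  have hAL : A ⊆ Lᶜ := by
    rintro y ⟨hyT, hyw⟩ ⟨v, hv, rfl⟩
    have h1 : v 0 = 0 := (hθs v).1 hyT
    have h2 : v = 0 := by
      funext j
      by_cases hj : j = 0
      · rw [hj, h1]
        rfl
      · exact (mem_seg.1 hv).2 j hj
    apply hyw
    change ((θ.symm v : N) : E) = D w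
    rw [h2, ← h0, θ.symm_apply_apply]
  -- the corrected chain
  set ε : ℤ := η * (r1 * ε1) * η0 with hε
  have hεs : ε = 1 ∨ ε = -1 := by
    have hr1s : r1 = 1 ∨ r1 = -1 := Int.natAbs_eq_iff.1 hr1
    rw [hε]
    rcases hη with h | h <;> rcases hη0 with h' | h' <;> rcases hr1s with h'' | h'' <;>
      rcases hε1 with h''' | h''' <;> rw [h, h', h'', h'''] <;> decide
  have hη0s : η0 * η0 = 1 := by rcases hη0 with rfl | rfl <;> norm_num
  set F : Ch ℤ E := Finsupp.single ((cubeOf D).comp (ins i (w i))) 1 with hF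
  set F0 : Ch ℤ E := Finsupp.single ((chartMap θ).comp ((c0 n).comp (stdCube n))) 1 with hF0
  set cD : Ch ℤ E := Finsupp.single (cubeOf D) 1 with hcD
  set cB : Ch ℤ E := Finsupp.single bx 1 with hcB
  rw [hface0] at hbd0
  have hD'C : cD - ε • cB - η • x ∈ C ℤ ((n : ℤ) + 1) (Set.univ : Set E) := by
    refine Submodule.sub_mem _ (Submodule.sub_mem _ (mem_C_single hDcube
      (fun _ => Set.mem_univ _) _) (Submodule.smul_mem _ _ (mem_C_single hbxcube
      (fun _ => Set.mem_univ _) _))) (Submodule.smul_mem _ _ (C_mono _ (Set.subset_univ _) hx))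
  have hD'Z : cD - ε • cB - η • x ∈ Z ℤ ((n : ℤ) + 1) Set.univ Lᶜ := by
    refine ⟨hD'C, ?_⟩
    change bd ((n : ℤ) + 1) (cD - ε • cB - η • x) ∈ Q ℤ ((n : ℤ) + 1 - 1) Lᶜ
    rw [add_sub_cancel_right, map_sub, map_sub, map_smul, map_smul]
    have e1 : bd ((n : ℤ) + 1) cD - ε • bd ((n : ℤ) + 1) cB - η • bd ((n : ℤ) + 1) x =
        (bd ((n : ℤ) + 1) cD - η • F) + η • (F - (r1 * ε1) • F0 - bd ((n : ℤ) + 1) x) -
          ε • (bd ((n : ℤ) + 1) cB - η0 • F0) := by
      have e2 : ε * η0 = η * (r1 * ε1) := by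
        rw [hε, mul_assoc, hη0s, mul_one]
      rw [smul_sub, smul_sub, smul_sub, smul_smul, smul_smul, e2]
      abel
    rw [e1]
    refine Submodule.sub_mem _ (Submodule.add_mem _ ?_ (Submodule.smul_mem _ _ ?_))
      (Submodule.smul_mem _ _ ?_)
    · exact Q_mono _ hAL (C_le_Q _ _ hbd)
    · exact Q_mono _ hAL hxA
    · exact C_le_Q _ _ hbd0
  have hcast : (((n + 1 : ℕ) : ℤ)) = (n : ℤ) + 1 := by push_cast; ring
  obtain ⟨r, hr⟩ := loc_gen hN θ (seg_compact n) (seg_convex n) ⟨_, ptR_mem n⟩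
    (fun v hv => seg_lt hv) (w := cD - ε • cB - η • x) (by rw [hcast]; exact hD'Z)
  rw [hcast] at hr
  have hxne : ∀ v : Fin (n + 1) → ℝ, v 0 ≠ 0 → x ∈ C ℤ ((n : ℤ) + 1) ({chartMap θ v}ᶜ : Set E) := by
    intro v hv
    refine C_mono _ ?_ hx
    intro y hy h
    rw [Set.mem_singleton_iff] at h
    rw [h] at hy
    exact hv ((hθs v).1 hy)
  refine ⟨r, ε, hεs, ?_, ?_⟩
  · -- the right end
    have hpt : ((θ.symm (fun j => if j = 0 then 1 / 2 else 0) : N) : E) = chartMap θ (ptR n) := rfl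
    rw [hpt]
    refine AbsDeg.of_chart hN θ (y := chartMap θ (ptR n)) (θ.symm (ptR n)).2 (fun j => ?_) ?_
    · have e : θ ⟨chartMap θ (ptR n), (θ.symm (ptR n)).2⟩ = ptR n := θ.apply_symm_apply _
      rw [e]
      exact seg_lt (ptR_mem n) j
    · rw [hcast]
      have hLs : Lᶜ ⊆ ({chartMap θ (ptR n)}ᶜ : Set E) :=
        Set.compl_subset_compl.2 (Set.singleton_subset_iff.2 ⟨_, ptR_mem n, rfl⟩)
      have h1 := hr.mono subset_rfl hLs
      have hm3 : Set.MapsTo (chartMap θ) ({ptR n}ᶜ : Set (Fin (n + 1) → ℝ))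
          ({chartMap θ (ptR n)}ᶜ : Set E) := by
        intro v hv h
        rw [Set.mem_singleton_iff] at h
        exact hv (chartMap_injective θ h)
      have h2 := (box_std n).push (Set.mapsTo_univ (chartMap θ) Set.univ) hm3
      rw [map_sub, push_single, ← locCh_eq] at h2
      have h3 : Bd ℤ ((n : ℤ) + 1) Set.univ ({chartMap θ (ptR n)}ᶜ : Set E) (η • x) := by
        refine Bd.of_mem_C (Submodule.smul_mem _ _ (hxne _ ?_))
        unfold ptR
        rw [if_pos rfl]
        norm_num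
      have h4 := (h1.add (h2.smul ε)).add h3
      convert h4 using 1
      change cD - (r + ε) • locCh ℤ θ = cD - ε • cB - η • x - r • locCh ℤ θ +
        ε • (cB - locCh ℤ θ) + η • x
      rw [smul_sub, add_smul]
      abel
  · -- the left end
    have hpt : ((θ.symm (fun j => if j = 0 then -(1 / 2) else 0) : N) : E) =
      chartMap θ (ptL n) := rfl
    rw [hpt]
    refine AbsDeg.of_chart hN θ (y := chartMap θ (ptL n)) (θ.symm (ptL n)).2 (fun j => ?_) ?_
    · have e : θ ⟨chartMap θ (ptL n), (θ.symm (ptL n)).2⟩ = ptL n := θ.apply_symm_apply _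
      rw [e]
      exact seg_lt (ptL_mem n) j
    · rw [hcast]
      have hLs : Lᶜ ⊆ ({chartMap θ (ptL n)}ᶜ : Set E) :=
        Set.compl_subset_compl.2 (Set.singleton_subset_iff.2 ⟨_, ptL_mem n, rfl⟩)
      have h1 := hr.mono subset_rfl hLs
      have h2 : Bd ℤ ((n : ℤ) + 1) Set.univ ({chartMap θ (ptL n)}ᶜ : Set E) (ε • cB) := by
        refine Bd.of_mem_C (Submodule.smul_mem _ _ (mem_C_single hbxcube (fun u => ?_) _))
        rw [Set.mem_compl_iff, Set.mem_singleton_iff]
        intro h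
        have h5 := congrFun (chartMap_injective θ h) 0
        rw [boxC_zero] at h5
        unfold ptL at h5
        rw [if_pos rfl] at h5
        have := (u 0).2.1
        linarith
      have h3 : Bd ℤ ((n : ℤ) + 1) Set.univ ({chartMap θ (ptL n)}ᶜ : Set E) (η • x) := by
        refine Bd.of_mem_C (Submodule.smul_mem _ _ (hxne _ ?_))
        unfold ptL
        rw [if_pos rfl]
        norm_num
      have h4 := (h1.add h2).add h3
      convert h4 using 1
      abel

end CubeHom
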