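import Pool.Agent.Lib.MP_cb6a70_gt_HB.DegJump

/-!
# The jump lemma
-/

namespace CubeHom

variable {n : ℕ}

theorem isClosed_bdry (m : ℕ) : IsClosed (bdry m) := by
  have h : bdry m = ⋃ i : Fin m, {u : Fin m → unitInterval | u i = 0 ∨ u i = 1} := by
    ext u
    simp [bdry]
  rw [h]
  refine isClosed_iUnion_of_finite fun i => ?_
  exact (isClosed_eq (continuous_apply i) continuous_const).union
    (isClosed_eq (continuous_apply i) continuous_const)

theorem isClosed_image_bdry {E : Type*} [TopologicalSpace E] [T2Space E] {m : ℕ}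
    (D : C(Fin m → unitInterval, E)) : IsClosed (D '' bdry m) :=
  ((isClosed_bdry m).isCompact.image D.continuous).isClosed

theorem cubeOf_isCube {E : Type*} [TopologicalSpace E] {m : ℕ}
    (D : C(Fin m → unitInterval, E)) : IsCube (m : ℤ) (cubeOf D) := by
  refine ⟨by omega, fun x y hxy => ?_⟩
  have : (fun i : Fin m => x i) = fun i : Fin m => y i := by
    funext i
    exact hxy i (by simp)
  exact congrArg D this

theorem cubeOf_mem_Z {E : Type*} [TopologicalSpace E] {m : ℕ}
    (D : C(Fin m → unitInterval, E)) :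
    (Finsupp.single (cubeOf D) 1 : Ch ℤ E) ∈ Z ℤ m Set.univ (D '' bdry m) := by
  refine single_mem_Z (cubeOf_isCube D) (fun i hi e he u => ?_) 1
  refine ⟨_, ⟨⟨i, hi⟩, ?_⟩, rfl⟩
  simp only [ins_apply_self]
  exact he

/-- Points in the interior of faces. -/
theorem exists_face_point {E : Type*} [TopologicalSpace E] (D : C(Fin n → unitInterval, E))
    {N : Set E} (hN : IsOpen N) {v : Fin n → unitInterval} (hv : v ∈ bdry n) (hvN : D v ∈ N) :
    ∃ (w : Fin n → unitInterval) (i : Fin n), (w i = 0 ∨ w i = 1) ∧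
      (∀ j, j ≠ i → w j ≠ 0 ∧ w j ≠ 1) ∧ D w ∈ N := by
  classical
  obtain ⟨i, hi⟩ := hv
  let F : ℝ → Fin n → unitInterval := fun t j =>
    if j = i then v i else Set.projIcc 0 1 zero_le_one ((1 - t) * v j + t / 2)
  have hF : Continuous F := by
    refine continuous_pi fun j => ?_
    by_cases hj : j = i
    · simpa [F, hj] using continuous_const
    · simp only [F, if_neg hj]
      exact continuous_projIcc.comp (by fun_prop)
  have hF0 : F 0 = v := by
    funext j
    by_cases hj : j = i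
    · simp [F, hj]
    · simp only [F, if_neg hj]
      rw [show (1 - 0) * (v j : ℝ) + 0 / 2 = v j by ring]
      exact Set.projIcc_val _ _
  have hop : IsOpen {t : ℝ | D (F t) ∈ N} := hN.preimage (D.continuous.comp hF)
  obtain ⟨δ, hδ, hδN⟩ := Metric.isOpen_iff.1 hop 0 (by
    simp only [Set.mem_ofPred_eq, hF0]
    exact hvN)
  have ht0 : 0 < min (δ / 2) 1 := lt_min (by linarith) one_pos
  have ht1 : min (δ / 2) 1 ≤ 1 := min_le_right _ _
  have htδ : min (δ / 2) 1 < δ := lt_of_le_of_lt (min_le_left _ _) (by linarith)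
  set t := min (δ / 2) 1 with ht
  refine ⟨F t, i, by simpa [F] using hi, fun j hj => ?_, hδN ?_⟩
  · have h1 := (v j).2.1
    have h2 := (v j).2.2
    have h3 : (1 - t) * (v j : ℝ) + t / 2 ∈ Set.Icc (0 : ℝ) 1 := by
      constructor <;> nlinarith
    have h4 : ((F t j : unitInterval) : ℝ) = (1 - t) * (v j : ℝ) + t / 2 := by
      simp only [F, if_neg hj]
      rw [Set.projIcc_of_mem _ h3]
    constructor
    · intro h
      rw [h] at h4
      simp only [Set.Icc.coe_zero] at h4
      nlinarith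
    · intro h
      rw [h] at h4
      simp only [Set.Icc.coe_one] at h4
      nlinarith
  · rw [mem_ball_zero_iff, Real.norm_eq_abs, abs_of_pos ht0]
    exact htδ

/-- The degrees are constant on connected sets in the complement of the boundary. -/
theorem AbsDeg.const {E : Type*} [TopologicalSpace E] [T2Space E] (hE : LocEuc n E)
    {A : Set E} (hA : IsClosed A) {c : Ch ℤ E} (hc : c ∈ Z ℤ n Set.univ A) {T : Set E}
    (hT : IsPreconnected T) (hTA : Disjoint T A) {x y : E} (hx : x ∈ T) (hy : y ∈ T) {d : ℕ}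
    (h : AbsDeg n c x d) : AbsDeg n c y d := by
  classical
  have hex : ∀ z ∈ T, ∃ d, AbsDeg n c z d := fun z hz =>
    AbsDeg.exists hE (Z_mono subset_rfl (fun a ha => by
      simp only [Set.mem_compl_iff, Set.mem_singleton_iff]
      rintro rfl
      exact Set.disjoint_left.1 hTA hz ha) hc)
  let dg : E → ℕ := fun z => if h : ∃ d, AbsDeg n c z d then h.choose else 0
  have hdg : ∀ z, ∀ d, AbsDeg n c z d → dg z = d := by
    intro z d hd
    have h1 : ∃ d, AbsDeg n c z d := ⟨d, hd⟩
    simp only [dg, dif_pos h1]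
    exact h1.choose_spec.unique hd
  have hcont : ContinuousOn dg T := by
    intro z hz
    obtain ⟨e, he⟩ := hex z hz
    have hzA : z ∉ A := Set.disjoint_left.1 hTA hz
    have h1 := he.locConst hE hA hc hzA
    refine ContinuousAt.continuousWithinAt ?_
    have h2 : dg =ᶠ[nhds z] fun _ => e := by
      filter_upwards [h1] with z' hz'
      exact hdg z' e hz'
    exact continuousAt_const.congr h2.symm
  have h1 := hT.constant hcont hx hy
  obtain ⟨e, he⟩ := hex y hy
  rw [hdg x d h, hdg y e he] at h1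
  rw [h1]
  exact he

/-- **Jump lemma.** Let `D` be a disc in the `n+1`-dimensional space `E`, injective on the
boundary, flat at a boundary point.  On the two sides of the chart the absolute degrees are
constant, coprime and of different parity. -/
theorem jump (hn : 1 ≤ n) {E : Type*} [TopologicalSpace E] [T2Space E] (hE : LocEuc (n + 1) E)
    (D : C(Fin (n + 1) → unitInterval, E)) (hinj : Set.InjOn D (bdry (n + 1)))
    {N : Set E} (hN : IsOpen N) (θ : N ≃ₜ (Fin (n + 1) → ℝ))
    (hθ : ∀ x : N, ((x : E) ∈ D '' bdry (n + 1) ↔ θ x 0 = 0)) :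
    ∃ a b : ℕ, Nat.Coprime a b ∧ a % 2 ≠ b % 2 ∧ ∀ x : N,
      (0 < θ x 0 → AbsDeg (n + 1) (Finsupp.single (cubeOf D) 1) (x : E) a) ∧
      (θ x 0 < 0 → AbsDeg (n + 1) (Finsupp.single (cubeOf D) 1) (x : E) b) := by
  obtain ⟨v, hv, hvx⟩ := (hθ (θ.symm 0)).2 (by rw [θ.apply_symm_apply]; rfl)
  obtain ⟨w, i, hwi, hw, hwN⟩ := exists_face_point D hN hv (by rw [hvx]; exact (θ.symm 0).2)
  have ha0 : θ ⟨D w, hwN⟩ 0 = 0 := (hθ ⟨D w, hwN⟩).1 ⟨w, ⟨i, hwi⟩, rfl⟩
  have hθ' : ∀ x : N, chTr θ (θ ⟨D w, hwN⟩) x 0 = θ x 0 := fun x => by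
    rw [chTr_apply, Pi.sub_apply, ha0, sub_zero]
  obtain ⟨r, ε, hε, hp, hm⟩ := jump_at hn D hinj hN (chTr θ (θ ⟨D w, hwN⟩))
    (fun x => by rw [hθ']; exact hθ x) hwi hw hwN (by rw [chTr_apply, sub_self])
  have hA := isClosed_image_bdry D
  have hZ := cubeOf_mem_Z D
  have hpos : ∀ s : ℝ, s ≠ 0 → ∀ x y : N, 0 < s * θ x 0 → 0 < s * θ y 0 → ∀ d,
      AbsDeg (n + 1) (Finsupp.single (cubeOf D) 1) (x : E) d →
      AbsDeg (n + 1) (Finsupp.single (cubeOf D) 1) (y : E) d := by
    intro s hs x y hx hy d hd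
    have hconv : Convex ℝ {v : Fin (n + 1) → ℝ | 0 < s * v 0} := by
      intro a ha b hb α β hα hβ hαβ
      simp only [Set.mem_ofPred_eq, Pi.add_apply, Pi.smul_apply, smul_eq_mul] at ha hb ⊢
      rcases hα.eq_or_lt with rfl | hα'
      · rw [zero_add] at hαβ
        subst hαβ
        simpa using hb
      · have h1 : 0 < α * (s * a 0) := mul_pos hα' ha
        have h2 : 0 ≤ β * (s * b 0) := mul_nonneg hβ hb.le
        nlinarith
    have hcon : IsPreconnected ((fun v => (θ.symm v : E)) '' {v | 0 < s * v 0}) :=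
      hconv.isPreconnected.image _ (continuous_subtype_val.comp θ.symm.continuous).continuousOn
    refine AbsDeg.const hE hA hZ hcon ?_ ⟨θ x, hx, ?_⟩ ⟨θ y, hy, ?_⟩ hd
    · rw [Set.disjoint_left]
      rintro _ ⟨v, hv, rfl⟩ h
      rw [hθ (θ.symm v), θ.apply_symm_apply] at h
      simp only [Set.mem_ofPred_eq, h, mul_zero, lt_irrefl] at hv
    · simp only [θ.symm_apply_apply]
    · simp only [θ.symm_apply_apply]
  refine ⟨(r + ε).natAbs, r.natAbs, ?_, ?_, fun x => ⟨fun hx => ?_, fun hx => ?_⟩⟩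
  · refine Int.isCoprime_iff_gcd_eq_one.1 ⟨ε, -ε, ?_⟩
    rcases hε with rfl | rfl <;> ring
  · rcases hε with rfl | rfl <;> omega
  · refine hpos 1 one_ne_zero _ x ?_ (by rwa [one_mul]) _ hp
    rw [one_mul, ← hθ', Homeomorph.apply_symm_apply]
    norm_num
  · refine hpos (-1) (by norm_num) _ x ?_ (by linarith) _ hm
    rw [← hθ', Homeomorph.apply_symm_apply]
    norm_num

end CubeHom
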