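import Pool.Agent.Lib.MP_cb6a70_gt_HB.Setup

/-!
# From the smooth setting to the topological setting
-/

namespace CubeHom

open scoped Manifold ContDiff
open Metric

/-- A topological manifold in the sense of Mathlib is locally Euclidean. -/
theorem locEuc_of_charted {n : ℕ} {M : Type} [TopologicalSpace M]
    [ChartedSpace (EuclideanSpace ℝ (Fin n)) M] : LocEuc n M := by
  intro x
  set e := chartAt (EuclideanSpace ℝ (Fin n)) x with he
  have hx : x ∈ e.source := mem_chart_source _ x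
  have hex : e x ∈ e.target := e.map_source hx
  obtain ⟨r, hr, hball⟩ := Metric.isOpen_iff.1 e.open_target _ hex
  set f : OpenPartialHomeomorph (EuclideanSpace ℝ (Fin n)) (EuclideanSpace ℝ (Fin n)) :=
    OpenPartialHomeomorph.univBall (e x) r with hf
  have hfs : f.source = Set.univ := OpenPartialHomeomorph.univBall_source _ _
  have hft : f.target = ball (e x) r := OpenPartialHomeomorph.univBall_target _ hr
  set g := f.trans e.symm with hg
  have hgs : g.source = Set.univ := by
    rw [hg, OpenPartialHomeomorph.trans_source, hfs, Set.univ_inter, Set.eq_univ_iff_forall]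
    intro y
    rw [Set.mem_preimage, OpenPartialHomeomorph.symm_source]
    exact hball (hft ▸ f.map_source (hfs ▸ Set.mem_univ y))
  have hgt : x ∈ g.target := by
    rw [hg, OpenPartialHomeomorph.trans_target]
    refine ⟨by simpa using hx, ?_⟩
    rw [Set.mem_preimage, OpenPartialHomeomorph.symm_symm, hft]
    exact mem_ball_self hr
  refine ⟨g.target, g.open_target, hgt, ⟨?_⟩⟩
  exact (g.toHomeomorphSourceTarget.symm.trans
    ((Homeomorph.setCongr hgs).trans (Homeomorph.Set.univ _))).trans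
      (EuclideanSpace.equiv (Fin n) ℝ).toHomeomorph

/-- The homeomorphism of `E × ℝ` with the space of functions, the last coordinate becoming the
first one. -/
noncomputable def lastFirst (n : ℕ) :
    (EuclideanSpace ℝ (Fin n) × ℝ) ≃ₜ (Fin (n + 1) → ℝ) where
  toFun p := Fin.cons p.2 (fun i => p.1 i)
  invFun v := (WithLp.toLp 2 (fun i => v i.succ), v 0)
  left_inv p := by
    ext <;> simp
  right_inv v := by
    ext i
    refine Fin.cases ?_ (fun j => ?_) i <;> simp
  continuous_toFun := by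
    refine continuous_pi fun i => ?_
    refine Fin.cases ?_ (fun j => ?_) i
    · simpa using continuous_snd
    · simp only [Fin.cons_succ]
      fun_prop
  continuous_invFun := by
    fun_prop

@[simp]
theorem lastFirst_zero (n : ℕ) (p : EuclideanSpace ℝ (Fin n) × ℝ) : lastFirst n p 0 = p.2 := rfl

/-- The complement of a codimension one subspace is a line. -/
theorem exists_line {n : ℕ} {F : Type} [NormedAddCommGroup F] [NormedSpace ℝ F]
    (L : (EuclideanSpace ℝ (Fin n) × F) ≃L[ℝ] EuclideanSpace ℝ (Fin (n + 1))) :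
    Nonempty (F ≃L[ℝ] ℝ) := by
  have : FiniteDimensional ℝ (EuclideanSpace ℝ (Fin n) × F) :=
    L.symm.toLinearEquiv.finiteDimensional
  have hF : FiniteDimensional ℝ F :=
    FiniteDimensional.of_surjective (LinearMap.snd ℝ (EuclideanSpace ℝ (Fin n)) F)
      LinearMap.snd_surjective
  have h1 := L.toLinearEquiv.finrank_eq
  rw [Module.finrank_prod, finrank_euclideanSpace_fin, finrank_euclideanSpace_fin] at h1
  exact ⟨ContinuousLinearEquiv.ofFinrankEq (by rw [Module.finrank_self]; omega)⟩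

/-- A smooth embedding in codimension one is locally flat. -/
theorem flat_of_smoothEmbedding {n : ℕ} {M N : Type} [TopologicalSpace M] [TopologicalSpace N]
    [ChartedSpace (EuclideanSpace ℝ (Fin n)) N]
    [ChartedSpace (EuclideanSpace ℝ (Fin (n + 1))) M] {ι : N → M}
    (hι : Manifold.IsSmoothEmbedding (𝓡 n) (𝓡 (n + 1)) ∞ ι) :
    ∀ s ∈ Set.range ι, ∃ W : Set M, IsOpen W ∧ s ∈ W ∧
      ∃ θ : W ≃ₜ (Fin (n + 1) → ℝ), ∀ x : W, ((x : M) ∈ Set.range ι ↔ θ x 0 = 0) := by
  rintro _ ⟨x₀, rfl⟩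
  have himm := hι.isImmersion.isImmersionAt x₀
  set φ := himm.domChart with hφ
  set ψ := himm.codChart with hψ
  have hx₀ : x₀ ∈ φ.source := himm.mem_domChart_source
  have hsrc : φ.source ⊆ ι ⁻¹' ψ.source := himm.source_subset_preimage_source
  obtain ⟨e⟩ := exists_line himm.equiv
  -- the linear identification
  set A : EuclideanSpace ℝ (Fin (n + 1)) ≃ₜ (EuclideanSpace ℝ (Fin n) × ℝ) :=
    (himm.equiv.symm.toHomeomorph).trans
      ((Homeomorph.refl _).prodCongr e.toHomeomorph) with hA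
  have hwr : ∀ x ∈ φ.source, A (ψ (ι x)) = (φ x, 0) := by
    intro x hx
    have hmem : (φ.extend (𝓡 n)) x ∈ (φ.extend (𝓡 n)).target :=
      (φ.extend (𝓡 n)).map_source (by rwa [OpenPartialHomeomorph.extend_source])
    have h1 := himm.writtenInCharts hmem
    have h2 : (ψ (ι x) : EuclideanSpace ℝ (Fin (n + 1))) = himm.equiv (φ x, 0) := by
      have h3 : himm.domChart.symm (himm.domChart x) = x := himm.domChart.left_inv hx
      simpa [Function.comp, hφ, hψ, h3] using h1
    rw [h2, hA]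
    simp
  -- the chart with values in the product
  set χ : OpenPartialHomeomorph M (EuclideanSpace ℝ (Fin n) × ℝ) :=
    ψ.transHomeomorph A with hχ
  have hχs : χ.source = ψ.source := rfl
  have hχa : ∀ y, χ y = A (ψ y) := fun y => rfl
  obtain ⟨W₀, hW₀, hW₀'⟩ := hι.isEmbedding.isOpen_iff.1 φ.open_source
  have hs₀ : ι x₀ ∈ χ.source := hsrc hx₀
  have hχ₀ : χ (ι x₀) = (φ x₀, 0) := hwr x₀ hx₀
  have hopen : IsOpen (χ.target ∩ χ.symm ⁻¹' W₀) := χ.isOpen_inter_preimage_symm hW₀
  have hmem : ((φ x₀, 0) : EuclideanSpace ℝ (Fin n) × ℝ) ∈ χ.target ∩ χ.symm ⁻¹' W₀ := by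
    rw [← hχ₀]
    refine ⟨χ.map_source hs₀, ?_⟩
    rw [Set.mem_preimage, χ.left_inv hs₀]
    have : x₀ ∈ ι ⁻¹' W₀ := hW₀' ▸ hx₀
    exact this
  obtain ⟨ε₁, hε₁, hb₁⟩ := Metric.isOpen_iff.1 hopen _ hmem
  obtain ⟨ε₂, hε₂, hb₂⟩ := Metric.isOpen_iff.1 φ.open_target _ (φ.map_source hx₀)
  set ε := min ε₁ ε₂ with hε
  have hεpos : 0 < ε := lt_min hε₁ hε₂
  set f : OpenPartialHomeomorph (EuclideanSpace ℝ (Fin n) × ℝ) (EuclideanSpace ℝ (Fin n) × ℝ) :=
    (OpenPartialHomeomorph.univBall (φ x₀) ε).prod (OpenPartialHomeomorph.univBall (0 : ℝ) ε)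
    with hf
  have hfs : f.source = Set.univ := by
    rw [hf, OpenPartialHomeomorph.prod_source, OpenPartialHomeomorph.univBall_source,
      OpenPartialHomeomorph.univBall_source, Set.univ_prod_univ]
  have hft : f.target = ball (φ x₀) ε ×ˢ ball (0 : ℝ) ε := by
    rw [hf, OpenPartialHomeomorph.prod_target, OpenPartialHomeomorph.univBall_target _ hεpos,
      OpenPartialHomeomorph.univBall_target _ hεpos]
  have hft1 : f.target ⊆ χ.target ∩ χ.symm ⁻¹' W₀ := by
    rw [hft, ball_prod_same]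
    exact (ball_subset_ball (min_le_left _ _)).trans hb₁
  have hft2 : ∀ p ∈ f.target, p.1 ∈ φ.target := by
    intro p hp
    rw [hft] at hp
    exact hb₂ (ball_subset_ball (min_le_right _ _) hp.1)
  set g := f.trans χ.symm with hg
  have hgs : g.source = Set.univ := by
    rw [hg, OpenPartialHomeomorph.trans_source, hfs, Set.univ_inter, Set.eq_univ_iff_forall]
    intro y
    rw [Set.mem_preimage, OpenPartialHomeomorph.symm_source]
    exact (hft1 (f.map_source (hfs ▸ Set.mem_univ y))).1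
  have hgt : ∀ y, y ∈ g.target ↔ y ∈ χ.source ∧ χ y ∈ f.target := by
    intro y
    rw [hg, OpenPartialHomeomorph.trans_target]
    simp
  have hgsymm : ∀ y ∈ g.target, f (g.symm y) = χ y := by
    intro y hy
    have h1 := ((hgt y).1 hy).2
    rw [hg, OpenPartialHomeomorph.trans_symm_eq_symm_trans_symm]
    simp [f.right_inv h1]
  have hf2 : ∀ p, (f p).2 = OpenPartialHomeomorph.univBall (0 : ℝ) ε p.2 := fun p => rfl
  have hzero : ∀ t : ℝ, OpenPartialHomeomorph.univBall (0 : ℝ) ε t = 0 ↔ t = 0 := by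
    intro t
    constructor
    · intro h
      have h1 := (OpenPartialHomeomorph.univBall (0 : ℝ) ε).left_inv (x := t) (by simp)
      rw [h, OpenPartialHomeomorph.univBall_symm_apply_center] at h1
      exact h1.symm
    · rintro rfl
      simp
  have hmemg : ι x₀ ∈ g.target := by
    rw [hgt]
    refine ⟨hs₀, ?_⟩
    rw [hχ₀, hft]
    exact ⟨mem_ball_self hεpos, mem_ball_self hεpos⟩
  refine ⟨g.target, g.open_target, hmemg, ?_⟩
  set θ : g.target ≃ₜ (Fin (n + 1) → ℝ) :=
    (g.toHomeomorphSourceTarget.symm.trans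
      ((Homeomorph.setCongr hgs).trans (Homeomorph.Set.univ _))).trans (lastFirst n) with hθ
  have hθ0 : ∀ y : g.target, θ y 0 = (g.symm y).2 := fun y => rfl
  refine ⟨θ, ?_⟩
  rintro ⟨y, hy⟩
  rw [hθ0, ← hzero, ← hf2, hgsymm y hy]
  have hy' := (hgt y).1 hy
  have hyW : y ∈ W₀ := by
    have := (hft1 hy'.2).2
    rwa [Set.mem_preimage, χ.left_inv hy'.1] at this
  constructor
  · rintro ⟨x, hx⟩
    have hx1 : x ∈ φ.source := by
      rw [← hW₀', Set.mem_preimage, hx]
      exact hyW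
    change (χ y).2 = 0
    have : (y : M) = ι x := hx.symm
    rw [this, hχa, hwr x hx1]
  · intro h
    have h1 : (χ y).1 ∈ φ.target := hft2 _ hy'.2
    have h2 : φ.symm (χ y).1 ∈ φ.source := φ.map_target h1
    refine ⟨φ.symm (χ y).1, ?_⟩
    have h3 : χ (ι (φ.symm (χ y).1)) = χ y := by
      rw [hχa, hwr _ h2, φ.right_inv h1]
      exact Prod.ext rfl h.symm
    exact χ.injOn (hsrc h2) hy'.1 h3

/-- The centred coordinate of a point of the cube. -/
noncomputable def cen {m : ℕ} (u : Fin m → unitInterval) : Fin m → ℝ := fun i => 2 * (u i : ℝ) - 1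

theorem continuous_cen {m : ℕ} : Continuous (cen (m := m)) := by
  unfold cen
  fun_prop

theorem abs_cen_le {m : ℕ} (u : Fin m → unitInterval) (i : Fin m) : |cen u i| ≤ 1 := by
  have h0 := (u i).2.1
  have h1 := (u i).2.2
  rw [abs_le]
  unfold cen
  constructor <;> linarith

theorem norm_cen_le {m : ℕ} (u : Fin m → unitInterval) : ‖cen u‖ ≤ 1 :=
  (pi_norm_le_iff_of_nonneg zero_le_one).2 fun i => abs_cen_le u i

theorem cen_eq_one_iff {m : ℕ} (u : Fin m → unitInterval) (i : Fin m) :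
    |cen u i| = 1 ↔ u i = 0 ∨ u i = 1 := by
  rw [abs_eq zero_le_one]
  unfold cen
  constructor
  · rintro (h | h)
    · right
      apply Subtype.ext
      change (u i : ℝ) = 1
      linarith
    · left
      apply Subtype.ext
      change (u i : ℝ) = 0
      linarith
  · rintro (h | h)
    · right
      rw [h]
      simp
    · left
      rw [h]
      norm_num

theorem norm_cen_eq_one_iff {m : ℕ} (u : Fin m → unitInterval) :
    ‖cen u‖ = 1 ↔ u ∈ bdry m := by
  constructor
  · intro h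
    by_contra hu
    have hu' : ∀ i, |cen u i| < 1 := fun i =>
      lt_of_le_of_ne (abs_cen_le u i) fun h' => hu ⟨i, (cen_eq_one_iff u i).1 h'⟩
    have : ‖cen u‖ < 1 := (pi_norm_lt_iff zero_lt_one).2 hu'
    exact this.ne h
  · rintro ⟨i, hi⟩
    refine le_antisymm (norm_cen_le u) ?_
    rw [← (cen_eq_one_iff u i).2 hi]
    exact norm_le_pi_norm (cen u) i

theorem cen_injective {m : ℕ} : Function.Injective (cen (m := m)) := by
  intro u v h
  ext i
  have := congrFun h i
  unfold cen at this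
  linarith

/-- Every point of the cube `[-1, 1] ^ m` is the centred coordinate of a point. -/
theorem exists_cen {m : ℕ} (v : Fin m → ℝ) (hv : ‖v‖ ≤ 1) : ∃ u, cen u = v := by
  have h : ∀ i, |v i| ≤ 1 := fun i => (norm_le_pi_norm v i).trans hv
  refine ⟨fun i => ⟨(v i + 1) / 2, ?_, ?_⟩, ?_⟩
  · have := (abs_le.1 (h i)).1
    linarith
  · have := (abs_le.1 (h i)).2
    linarith
  · funext i
    unfold cen
    change 2 * ((v i + 1) / 2) - 1 = v i
    ring

/-- Radial projection to the unit sphere. -/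
noncomputable def cubeNrm {m : ℕ} (w₀ : sphere (0 : EuclideanSpace ℝ (Fin m)) 1) (v : Fin m → ℝ) :
    sphere (0 : EuclideanSpace ℝ (Fin m)) 1 :=
  open scoped Classical in
  if h : v = 0 then w₀ else
    ⟨‖(WithLp.toLp 2 v : EuclideanSpace ℝ (Fin m))‖⁻¹ • (WithLp.toLp 2 v), by
      rw [mem_sphere_zero_iff_norm, norm_smul, norm_inv, norm_norm, inv_mul_cancel₀]
      rw [norm_ne_zero_iff]
      intro h'
      exact h (by simpa using congrArg WithLp.ofLp h')⟩

theorem cubeNrm_coe {m : ℕ} (w₀ : sphere (0 : EuclideanSpace ℝ (Fin m)) 1) {v : Fin m → ℝ}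
    (h : v ≠ 0) : (cubeNrm w₀ v : EuclideanSpace ℝ (Fin m)) =
      ‖(WithLp.toLp 2 v : EuclideanSpace ℝ (Fin m))‖⁻¹ • (WithLp.toLp 2 v) := by
  unfold cubeNrm
  rw [dif_neg h]

theorem toLp_norm_pos {m : ℕ} {v : Fin m → ℝ} (h : v ≠ 0) :
    0 < ‖(WithLp.toLp 2 v : EuclideanSpace ℝ (Fin m))‖ := by
  rw [norm_pos_iff]
  intro h'
  exact h (by simpa using congrArg WithLp.ofLp h')

theorem continuousOn_cubeNrm {m : ℕ} (w₀ : sphere (0 : EuclideanSpace ℝ (Fin m)) 1) :
    ContinuousOn (cubeNrm w₀) {v | v ≠ 0} := by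
  rw [Topology.IsInducing.subtypeVal.continuousOn_iff]
  have h : ContinuousOn (fun v : Fin m → ℝ =>
      ‖(WithLp.toLp 2 v : EuclideanSpace ℝ (Fin m))‖⁻¹ •
        (WithLp.toLp 2 v : EuclideanSpace ℝ (Fin m))) {v | v ≠ 0} := by
    refine ContinuousOn.smul (ContinuousOn.inv₀ ?_ fun v hv => (toLp_norm_pos hv).ne') ?_
    · fun_prop
    · fun_prop
  exact h.congr fun v hv => cubeNrm_coe w₀ hv

theorem cubeNrm_eq_iff {m : ℕ} (w₀ : sphere (0 : EuclideanSpace ℝ (Fin m)) 1) {v v' : Fin m → ℝ}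
    (hv : ‖v‖ = 1) (hv' : ‖v'‖ = 1) (h : cubeNrm w₀ v = cubeNrm w₀ v') : v = v' := by
  have h0 : v ≠ 0 := by
    rintro rfl
    simp at hv
  have h0' : v' ≠ 0 := by
    rintro rfl
    simp at hv'
  have h1 := congrArg Subtype.val h
  rw [cubeNrm_coe w₀ h0, cubeNrm_coe w₀ h0'] at h1
  set a := ‖(WithLp.toLp 2 v : EuclideanSpace ℝ (Fin m))‖⁻¹ with ha
  set b := ‖(WithLp.toLp 2 v' : EuclideanSpace ℝ (Fin m))‖⁻¹ with hb
  have hapos : 0 < a := inv_pos.2 (toLp_norm_pos h0)
  have hbpos : 0 < b := inv_pos.2 (toLp_norm_pos h0')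
  have h2 : a • v = b • v' := by
    have := congrArg WithLp.ofLp h1
    simpa using this
  have h3 : a = b := by
    have := congrArg norm h2
    rw [norm_smul, norm_smul, hv, hv', mul_one, mul_one, Real.norm_eq_abs, Real.norm_eq_abs,
      abs_of_pos hapos, abs_of_pos hbpos] at this
    exact this
  rw [← h3] at h2
  exact smul_right_injective _ hapos.ne' h2

theorem exists_nrm_eq {m : ℕ} (w₀ w : sphere (0 : EuclideanSpace ℝ (Fin m)) 1) :
    ∃ v : Fin m → ℝ, ‖v‖ = 1 ∧ cubeNrm w₀ v = w := by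
  set x : Fin m → ℝ := WithLp.ofLp (w : EuclideanSpace ℝ (Fin m)) with hx
  have hw : ‖(w : EuclideanSpace ℝ (Fin m))‖ = 1 := mem_sphere_zero_iff_norm.1 w.2
  have hx0 : x ≠ 0 := by
    intro h
    have : (w : EuclideanSpace ℝ (Fin m)) = 0 := by
      apply (WithLp.ofLp_injective 2)
      rw [← hx, h]
      rfl
    rw [this] at hw
    simp at hw
  have hxpos : 0 < ‖x‖ := norm_pos_iff.2 hx0
  have hv0 : ‖x‖⁻¹ • x ≠ 0 := smul_ne_zero (inv_ne_zero hxpos.ne') hx0
  refine ⟨‖x‖⁻¹ • x, ?_, ?_⟩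
  · rw [norm_smul, norm_inv, norm_norm, inv_mul_cancel₀ hxpos.ne']
  · apply Subtype.ext
    rw [cubeNrm_coe w₀ hv0]
    have h1 : (WithLp.toLp 2 (‖x‖⁻¹ • x) : EuclideanSpace ℝ (Fin m)) =
        ‖x‖⁻¹ • (w : EuclideanSpace ℝ (Fin m)) := by
      rw [WithLp.toLp_smul, hx]
    rw [h1, norm_smul, hw, norm_inv, norm_norm, mul_one, inv_inv, smul_smul,
      mul_inv_cancel₀ hxpos.ne', one_smul]

/-- A null-homotopic embedded sphere is filled by a disc. -/
theorem exists_disc {n : ℕ} {M : Type} [TopologicalSpace M]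
    (ι : C(sphere (0 : EuclideanSpace ℝ (Fin (n + 1))) 1, M)) (hinj : Function.Injective ι)
    (hnull : ι.Nullhomotopic) :
    ∃ D : C(Fin (n + 1) → unitInterval, M), Set.InjOn D (bdry (n + 1)) ∧
      D '' bdry (n + 1) = Set.range ι := by
  obtain ⟨y₀, ⟨H⟩⟩ := hnull
  obtain ⟨w₀⟩ : Nonempty (sphere (0 : EuclideanSpace ℝ (Fin (n + 1))) 1) :=
    (NormedSpace.sphere_nonempty.2 zero_le_one).to_subtype
  set d : (Fin (n + 1) → unitInterval) → M := fun u =>
    H (Set.projIcc 0 1 zero_le_one (2 * (1 - ‖cen u‖)), cubeNrm w₀ (cen u)) with hd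
  have hc1 : ContinuousOn d {u | cen u ≠ 0} := by
    refine H.continuous.comp_continuousOn ?_
    refine ContinuousOn.prodMk ?_ ?_
    · refine (continuous_projIcc.comp ?_).continuousOn
      have := continuous_cen (m := n + 1)
      fun_prop
    · exact (continuousOn_cubeNrm w₀).comp continuous_cen.continuousOn fun u hu => hu
  have hconst : ∀ u, ‖cen u‖ ≤ 1 / 2 → d u = y₀ := by
    intro u hu
    have : Set.projIcc (0 : ℝ) 1 zero_le_one (2 * (1 - ‖cen u‖)) = 1 :=
      Set.projIcc_of_right_le _ (by linarith)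
    rw [hd]
    simp only
    rw [this]
    exact H.apply_one _
  have hbd : ∀ u ∈ bdry (n + 1), d u = ι (cubeNrm w₀ (cen u)) := by
    intro u hu
    rw [hd]
    simp only
    rw [(norm_cen_eq_one_iff u).2 hu]
    have : Set.projIcc (0 : ℝ) 1 zero_le_one (2 * (1 - 1)) = 0 :=
      Set.projIcc_of_le_left _ (by norm_num)
    rw [this]
    exact H.apply_zero _
  have hc : Continuous d := by
    rw [continuous_iff_continuousAt]
    intro u
    by_cases hu : cen u = 0
    · have hev : d =ᶠ[nhds u] fun _ => y₀ := by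
        have hopen : IsOpen {v : Fin (n + 1) → unitInterval | ‖cen v‖ < 1 / 2} :=
          isOpen_lt (continuous_norm.comp continuous_cen) continuous_const
        refine Filter.eventually_of_mem (hopen.mem_nhds ?_) fun v hv => hconst v hv.le
        change ‖cen u‖ < 1 / 2
        rw [hu, norm_zero]
        norm_num
      exact continuousAt_const.congr hev.symm
    · have hopen : IsOpen {v : Fin (n + 1) → unitInterval | cen v ≠ 0} :=
        isOpen_ne_fun continuous_cen continuous_const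
      exact hc1.continuousAt (hopen.mem_nhds hu)
  refine ⟨⟨d, hc⟩, ?_, ?_⟩
  · intro u hu v hv huv
    change d u = d v at huv
    rw [hbd u hu, hbd v hv] at huv
    exact cen_injective (cubeNrm_eq_iff w₀ ((norm_cen_eq_one_iff u).2 hu)
      ((norm_cen_eq_one_iff v).2 hv) (hinj huv))
  · apply Set.Subset.antisymm
    · rintro _ ⟨u, hu, rfl⟩
      exact ⟨_, (hbd u hu).symm⟩
    · rintro _ ⟨w, rfl⟩
      obtain ⟨v, hv, hvw⟩ := exists_nrm_eq w₀ w
      obtain ⟨u, rfl⟩ := exists_cen v hv.le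
      have hu := (norm_cen_eq_one_iff u).1 hv
      exact ⟨u, hu, by change d u = ι w; rw [hbd u hu, hvw]⟩

end CubeHom
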