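import Pool.Agent.Lib.MP_cb6a70_gt_HB.Core
import Pool.Agent.Lib.MP_cb6a70_gt_HB.Smooth

/-!
# The final theorem
-/

namespace CubeHom

open scoped Manifold ContDiff
open Metric

/-- **Null-homotopic hyperspheres.** Let `M` be a closed connected smooth manifold of dimension
`n + 1 ≥ 3`, `ι : S^n → M` a null-homotopic smooth embedding, `U` and `V` the two components of
the complement of its image `S`.  If neither of the closed sides `U ∪ S`, `V ∪ S` is homotopy
equivalent to the closed ball, then both capped sides are simply connected. -/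
theorem main {n : ℕ} (hn : 2 ≤ n) {M : Type} [TopologicalSpace M] [T2Space M] [CompactSpace M]
    [ConnectedSpace M] [ChartedSpace (EuclideanSpace ℝ (Fin (n + 1))) M]
    [IsManifold (𝓡 (n + 1)) ∞ M]
    (ι : C(sphere (0 : EuclideanSpace ℝ (Fin (n + 1))) 1, M))
    (hι : Manifold.IsSmoothEmbedding (𝓡 n) (𝓡 (n + 1)) ∞ ι) (hnull : ι.Nullhomotopic)
    (U V : Set M) (hU : IsOpen U) (hV : IsOpen V) (hU' : IsConnected U) (hV' : IsConnected V)
    (hdisj : Disjoint U V) (hUV : U ∪ V = (Set.range ι)ᶜ)
    (hX : ¬ Nonempty (ContinuousMap.HomotopyEquiv ↥(U ∪ Set.range ι)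
      (closedBall (0 : EuclideanSpace ℝ (Fin (n + 1))) 1)))
    (hY : ¬ Nonempty (ContinuousMap.HomotopyEquiv ↥(V ∪ Set.range ι)
      (closedBall (0 : EuclideanSpace ℝ (Fin (n + 1))) 1))) :
    SimplyConnectedSpace (Cap ι (U ∪ Set.range ι)) ∧
      SimplyConnectedSpace (Cap ι (V ∪ Set.range ι)) := by
  have hM : LocEuc (n + 1) M := locEuc_of_charted
  obtain ⟨N, e₀, -, he₀, -⟩ := exists_embedding_euclidean_of_compact (I := 𝓡 (n + 1)) (M := M)
  have hballc : ContractibleSpace (closedBall (0 : EuclideanSpace ℝ (Fin (n + 1))) 1) :=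
    (convex_closedBall _ _).contractibleSpace ⟨0, by simp⟩
  obtain ⟨D, hD, hDι⟩ := exists_disc ι hι.isEmbedding.injective hnull
  have hflat := flat_of_smoothEmbedding hι
  rw [← hDι] at hflat
  let P : FlatSphere n M :=
    { D := D, U := U, V := V, inj := hD, openU := hU, openV := hV, connU := hU', connV := hV',
      disj := hdisj, compl := by rw [hUV, hDι],
      flat := strong_flat (by omega) D hU hV hU' hV' hdisj (by rw [hUV, hDι]) hflat }
  have hS : Set.range ι = P.S := hDι.symm
  have hS' : Set.range ι = P.symm.S := hDι.symm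
  have he : Topology.IsEmbedding (fun x => (EuclideanSpace.equiv (Fin N) ℝ) (e₀ x)) :=
    (EuclideanSpace.equiv (Fin N) ℝ).toHomeomorph.isEmbedding.comp he₀.isEmbedding
  have hV1 : ¬ ContractibleSpace ↥(P.V ∪ P.S) := by
    intro hc
    apply hY
    rw [← hS] at hc
    exact ContractibleSpace.hequiv _ _
  have hU1 : ¬ ContractibleSpace ↥(P.symm.V ∪ P.symm.S) := by
    intro hc
    apply hX
    rw [← hS'] at hc
    have hc' : ContractibleSpace ↥(U ∪ Set.range ι) := hc
    exact ContractibleSpace.hequiv _ _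
  have h1 := core hn hM _ he P hι.isEmbedding hS hV1
  have h2 := core hn hM _ he P.symm hι.isEmbedding hS' hU1
  have c1 := P.isClosed_side
  have c2 := P.symm.isClosed_side
  rw [← hS] at h1 c1
  rw [← hS'] at h2 c2
  exact ⟨cap_simplyConnected hn hι.isEmbedding (fun s => Or.inr ⟨s, rfl⟩) c1 h1,
    cap_simplyConnected hn hι.isEmbedding (fun s => Or.inr ⟨s, rfl⟩) c2 h2⟩

end CubeHom
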