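import Pool.Agent.Lib.MP_cb6a70_gt_HB.Fills

/-!
# Extension over the integer grid, skeleton by skeleton
-/

namespace CubeHom

open Set Topology

variable {X : Type*} [TopologicalSpace X]

/-- `Fills` for an arbitrary finite index type. -/
theorem Fills.extend {ι : Type*} [Fintype ι] (h : Fills X (Fintype.card ι))
    (g : (ι → unitInterval) → X) (hg : ContinuousOn g {u | ∃ i, u i = 0 ∨ u i = 1}) :
    ∃ G : (ι → unitInterval) → X, Continuous G ∧
      ∀ u, (∃ i, u i = 0 ∨ u i = 1) → G u = g u := by
  have e := Fintype.equivFin ι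
  have hφ : Continuous fun v : Fin (Fintype.card ι) → unitInterval => fun i => v (e i) :=
    continuous_pi fun i => continuous_apply _
  have hψ : Continuous fun v : ι → unitInterval => fun i => v (e.symm i) :=
    continuous_pi fun i => continuous_apply _
  obtain ⟨G, hG, hGg⟩ := h (fun v => g fun i => v (e i)) (hg.comp hφ.continuousOn (by
    rintro v ⟨i, hi⟩
    exact ⟨e.symm i, by simpa using hi⟩))
  refine ⟨fun v => G fun i => v (e.symm i), hG.comp hψ, ?_⟩
  rintro u ⟨i, hi⟩
  have h1 := hGg (fun i => u (e.symm i)) ⟨e i, by simpa using hi⟩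
  simpa using h1

variable {M : ℕ}

/-- The closed unit cube with lower corner `b`. -/
def cube (b : Fin M → ℤ) : Set (Fin M → ℝ) := {u | ∀ i, (b i : ℝ) ≤ u i ∧ u i ≤ b i + 1}

/-- The closed cell with lower corner `a` and directions `J`. -/
def cell (J : Finset (Fin M)) (a : Fin M → ℤ) : Set (Fin M → ℝ) :=
  {u | (∀ i ∈ J, (a i : ℝ) ≤ u i ∧ u i ≤ a i + 1) ∧ ∀ i, i ∉ J → u i = a i}

theorem isClosed_cube (b : Fin M → ℤ) : IsClosed (cube b) := by
  have : cube b = ⋂ i, {u : Fin M → ℝ | (b i : ℝ) ≤ u i} ∩ {u | u i ≤ b i + 1} := by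
    ext u; simp [cube]
  rw [this]
  exact isClosed_iInter fun i => (isClosed_le continuous_const (continuous_apply i)).inter
    (isClosed_le (continuous_apply i) continuous_const)

theorem isClosed_cell (J : Finset (Fin M)) (a : Fin M → ℤ) : IsClosed (cell J a) := by
  have : cell J a = (⋂ i ∈ J, {u : Fin M → ℝ | (a i : ℝ) ≤ u i} ∩ {u | u i ≤ a i + 1}) ∩
      ⋂ i, ⋂ (_ : i ∉ J), {u : Fin M → ℝ | u i = a i} := by
    ext u; simp [cell]
  rw [this]
  refine IsClosed.inter ?_ ?_
  · exact isClosed_biInter fun i _ => (isClosed_le continuous_const (continuous_apply i)).inter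
      (isClosed_le (continuous_apply i) continuous_const)
  · exact isClosed_iInter fun i => isClosed_iInter fun _ =>
      isClosed_eq (continuous_apply i) continuous_const

theorem cell_subset_cube (J : Finset (Fin M)) (a : Fin M → ℤ) : cell J a ⊆ cube a := by
  rintro u ⟨h1, h2⟩ i
  by_cases hi : i ∈ J
  · exact h1 i hi
  · rw [h2 i hi]
    exact ⟨le_rfl, by linarith⟩

theorem locallyFinite_cube : LocallyFinite (cube (M := M)) := by
  intro x
  refine ⟨Metric.ball x 1, Metric.ball_mem_nhds x one_pos, ?_⟩
  refine (Set.finite_Icc (fun i => ⌊x i⌋ - 2) (fun i => ⌊x i⌋ + 2)).subset ?_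
  rintro a ⟨y, hy, hyx⟩
  have h : ∀ i, |y i - x i| < 1 := by
    intro i
    have := (dist_le_pi_dist y x i).trans_lt hyx
    rwa [Real.dist_eq] at this
  constructor
  · intro i
    have h1 := (hy i).2
    have h2 := (abs_lt.1 (h i)).1
    have h3 := Int.floor_le (x i)
    have : ((⌊x i⌋ - 2 : ℤ) : ℝ) ≤ (a i : ℝ) := by push_cast; linarith
    exact_mod_cast this
  · intro i
    have h1 := (hy i).1
    have h2 := (abs_lt.1 (h i)).2
    have h3 := Int.lt_floor_add_one (x i)
    have : (a i : ℝ) ≤ ((⌊x i⌋ + 2 : ℤ) : ℝ) := by push_cast; linarith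
    exact_mod_cast this

theorem locallyFinite_cell :
    LocallyFinite fun p : Finset (Fin M) × (Fin M → ℤ) => cell p.1 p.2 := by
  intro x
  obtain ⟨U, hU, hf⟩ := locallyFinite_cube x
  refine ⟨U, hU, ((Set.finite_univ (α := Finset (Fin M))).prod hf).subset ?_⟩
  rintro p ⟨y, hy, hyU⟩
  exact ⟨mem_univ _, y, cell_subset_cube _ _ hy, hyU⟩

open Classical in
/-- The directions in which `u` is not an integer. -/
noncomputable def nonint (u : Fin M → ℝ) : Finset (Fin M) :=
  Finset.univ.filter fun i => u i ≠ ⌊u i⌋

theorem mem_nonint {u : Fin M → ℝ} {i : Fin M} : i ∈ nonint u ↔ u i ≠ ⌊u i⌋ := by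
  simp [nonint]

theorem notMem_nonint_of_eq {u : Fin M → ℝ} {i : Fin M} {n : ℤ} (h : u i = n) :
    i ∉ nonint u := by
  rw [mem_nonint, not_not, h, Int.floor_intCast]

/-- Points with fewer than `j` coordinates which are not integers. -/
def skel (M j : ℕ) : Set (Fin M → ℝ) := {u | (nonint u).card < j}

theorem isClosed_skel (j : ℕ) : IsClosed (skel M j) := by
  have : skel M j = ⋃ J ∈ {J : Finset (Fin M) | J.card < j},
      ⋂ i, ⋂ (_ : i ∉ J), (fun u : Fin M → ℝ => u i) ⁻¹' range ((↑) : ℤ → ℝ) := by
    ext u
    simp only [skel, mem_ofPred_eq, mem_iUnion, mem_iInter, mem_preimage, mem_range,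
      exists_prop]
    constructor
    · intro h
      refine ⟨nonint u, h, fun i hi => ⟨⌊u i⌋, ?_⟩⟩
      rw [mem_nonint, not_not] at hi
      exact hi.symm
    · rintro ⟨J, hJ, h⟩
      refine (Finset.card_le_card fun i hi => ?_).trans_lt hJ
      by_contra hiJ
      obtain ⟨n, hn⟩ := h i hiJ
      exact notMem_nonint_of_eq hn.symm hi
  rw [this]
  refine (Set.toFinite _).isClosed_biUnion fun J _ => isClosed_iInter fun i =>
    isClosed_iInter fun _ => Int.isClosedEmbedding_coe_real.isClosed_range.preimage
      (continuous_apply i)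

theorem mem_cell_floor (u : Fin M → ℝ) : u ∈ cell (nonint u) fun i => ⌊u i⌋ := by
  refine ⟨fun i _ => ⟨Int.floor_le _, (Int.lt_floor_add_one _).le⟩, fun i hi => ?_⟩
  rwa [mem_nonint, not_not] at hi

/-- Parametrisation of a cell. -/
noncomputable def par (J : Finset (Fin M)) (a : Fin M → ℤ) (s : J → unitInterval) :
    Fin M → ℝ := fun i => if h : i ∈ J then a i + (s ⟨i, h⟩ : ℝ) else a i

theorem continuous_par (J : Finset (Fin M)) (a : Fin M → ℤ) : Continuous (par J a) := by
  refine continuous_pi fun i => ?_
  by_cases h : i ∈ J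
  · simp only [par, h, dite_true]
    exact continuous_const.add (continuous_subtype_val.comp (continuous_apply _))
  · simp only [par, h, dite_false]
    exact continuous_const

/-- Retraction to the parameters. -/
noncomputable def coord (J : Finset (Fin M)) (a : Fin M → ℤ) (u : Fin M → ℝ) :
    J → unitInterval := fun i => projIcc 0 1 zero_le_one (u i - a i)

theorem continuous_coord (J : Finset (Fin M)) (a : Fin M → ℤ) : Continuous (coord J a) :=
  continuous_pi fun _ => continuous_projIcc.comp
    ((continuous_apply _).sub continuous_const)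

theorem par_coord {J : Finset (Fin M)} {a : Fin M → ℤ} {u : Fin M → ℝ} (hu : u ∈ cell J a) :
    par J a (coord J a u) = u := by
  funext i
  by_cases h : i ∈ J
  · have h1 := hu.1 i h
    have : (u i - a i) ∈ Icc (0 : ℝ) 1 := ⟨by linarith, by linarith⟩
    simp only [par, h, dite_true, coord]
    rw [projIcc_of_mem zero_le_one this]
    simp
  · simp only [par, h, dite_false]
    exact (hu.2 i h).symm

theorem exists_cell_ext {K : Set (Fin M → ℝ)} {j : ℕ} (hF : Fills X j)
    {F : (Fin M → ℝ) → X} (hc : ContinuousOn F (K ∪ skel M j)) (J : Finset (Fin M))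
    (hJ : J.card = j) (a : Fin M → ℤ) :
    ∃ G : (Fin M → ℝ) → X, Continuous G ∧ ∀ u ∈ cell J a,
      (∃ i ∈ J, u i = a i ∨ u i = a i + 1) → G u = F u := by
  subst hJ
  have hcard : Fintype.card J = J.card := Fintype.card_coe J
  rw [← hcard] at hF
  obtain ⟨G, hG, hGF⟩ := hF.extend (fun s => F (par J a s))
    (hc.comp (continuous_par J a).continuousOn (by
      rintro s ⟨i, hi⟩
      refine Or.inr ?_
      have hsub : nonint (par J a s) ⊆ J.erase i := by
        intro l hl
        have hlJ : l ∈ J := by
          by_contra h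
          refine notMem_nonint_of_eq (n := a l) ?_ hl
          simp [par, h]
        refine Finset.mem_erase.2 ⟨?_, hlJ⟩
        rintro rfl
        rcases hi with hi | hi
        · refine notMem_nonint_of_eq (n := a i) ?_ hl
          simp [par, hi]
        · refine notMem_nonint_of_eq (n := a i + 1) ?_ hl
          simp [par, hi]
      exact (Finset.card_le_card hsub).trans_lt (Finset.card_erase_lt_of_mem i.2)))
  refine ⟨fun u => G (coord J a u), hG.comp (continuous_coord J a), ?_⟩
  rintro u hu ⟨i, hi, h⟩
  have h1 := hGF (coord J a u) ?_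
  · rw [par_coord hu] at h1
    exact h1
  · refine ⟨⟨i, hi⟩, ?_⟩
    rcases h with h | h
    · left
      simp only [coord, h, sub_self]
      exact projIcc_left (zero_le_one' ℝ)
    · right
      simp only [coord, h]
      rw [add_sub_cancel_left]
      exact projIcc_right (zero_le_one' ℝ)

theorem grid_step {𝒟 : Set (Fin M → ℤ)} {j : ℕ} (hF : Fills X j) {g F : (Fin M → ℝ) → X}
    (hc : ContinuousOn F ((⋃ b ∈ 𝒟, cube b) ∪ skel M j)) (hg : EqOn F g (⋃ b ∈ 𝒟, cube b)) :
    ∃ F' : (Fin M → ℝ) → X, ContinuousOn F' ((⋃ b ∈ 𝒟, cube b) ∪ skel M (j + 1)) ∧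
      EqOn F' g (⋃ b ∈ 𝒟, cube b) := by
  classical
  set K : Set (Fin M → ℝ) := ⋃ b ∈ 𝒟, cube b with hK
  have hKc : IsClosed K := by
    rw [hK, biUnion_eq_iUnion]
    exact (locallyFinite_cube.comp_injective Subtype.val_injective).isClosed_iUnion
      fun b => isClosed_cube _
  have hcl : IsClosed (K ∪ skel M j) := hKc.union (isClosed_skel j)
  have hex : ∀ (J : Finset (Fin M)) (a : Fin M → ℤ), ∃ G : (Fin M → ℝ) → X, J.card = j →
      (Continuous G ∧ ∀ u ∈ cell J a,
        (∃ i ∈ J, u i = a i ∨ u i = a i + 1) → G u = F u) := by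
    intro J a
    by_cases hJ : J.card = j
    · obtain ⟨G, hG⟩ := exists_cell_ext hF hc J hJ a
      exact ⟨G, fun _ => hG⟩
    · exact ⟨F, fun h => absurd h hJ⟩
  choose Fc hFc using hex
  refine ⟨fun u => if u ∈ K ∪ skel M j then F u else Fc (nonint u) (fun i => ⌊u i⌋) u, ?_, ?_⟩
  · -- continuity
    have hI : K ∪ skel M (j + 1) ⊆ (K ∪ skel M j) ∪
        ⋃ p : {p : Finset (Fin M) × (Fin M → ℤ) // p.1.card = j ∧ ¬ cell p.1 p.2 ⊆ K},
          cell p.1.1 p.1.2 := by
      rintro u (hu | hu)
      · exact Or.inl (Or.inl hu)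
      · by_cases h : u ∈ K ∪ skel M j
        · exact Or.inl h
        · refine Or.inr (mem_iUnion.2 ⟨⟨(nonint u, fun i => ⌊u i⌋), ?_, ?_⟩, mem_cell_floor u⟩)
          · have h1 : ¬ (nonint u).card < j := fun h' => h (Or.inr h')
            have h2 : (nonint u).card < j + 1 := hu
            show (nonint u).card = j
            omega
          · intro hsub
            exact h (Or.inl (hsub (mem_cell_floor u)))
    refine ContinuousOn.mono ?_ hI
    refine ContinuousOn.union_of_isClosed ?_ ?_ hcl ?_
    · refine hc.congr fun u hu => ?_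
      simp only [hu, if_true]
    · refine (locallyFinite_cell.comp_injective Subtype.val_injective).continuousOn_iUnion
        (fun p => isClosed_cell _ _) ?_
      rintro ⟨⟨J, a⟩, hJ, hJK⟩
      replace hJ : J.card = j := hJ
      refine (hFc J a hJ).1.continuousOn.congr fun u hu => ?_
      by_cases h : u ∈ K ∪ skel M j
      · simp only [h, if_true]
        refine ((hFc J a hJ).2 u hu ?_).symm
        by_contra hb
        push Not at hb
        rcases h with h | h
        · -- the cell lies in a cube of the family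
          refine hJK ?_
          obtain ⟨b, hb𝒟, hub⟩ := mem_iUnion₂.1 h
          refine fun v hv => mem_iUnion₂.2 ⟨b, hb𝒟, fun i => ?_⟩
          by_cases hi : i ∈ J
          · have hab : b i = a i := by
              have h1 := hu.1 i hi
              have h2 := hb i hi
              have h3 := hub i
              have h4 : (a i : ℝ) < u i := lt_of_le_of_ne h1.1 (Ne.symm h2.1)
              have h5 : u i < a i + 1 := lt_of_le_of_ne h1.2 h2.2
              have h6 : (b i : ℝ) < a i + 1 := by linarith
              have h7 : (a i : ℝ) < b i + 1 := by linarith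
              have h8 : b i < a i + 1 := by exact_mod_cast h6
              have h9 : a i < b i + 1 := by exact_mod_cast h7
              omega
            rw [hab]
            exact hv.1 i hi
          · rw [hv.2 i hi, ← hu.2 i hi]
            exact hub i
        · -- a point with few non-integer coordinates is on the boundary
          have h' : (nonint u).card < j := h
          rw [← hJ] at h'
          obtain ⟨i, hi, hin⟩ := Finset.exists_mem_notMem_of_card_lt_card h'
          rw [mem_nonint, not_not] at hin
          have h1 := hu.1 i hi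
          have h2 := hb i hi
          have h4 : (a i : ℝ) < u i := lt_of_le_of_ne h1.1 (Ne.symm h2.1)
          have h5 : u i < a i + 1 := lt_of_le_of_ne h1.2 h2.2
          rw [hin] at h4 h5
          have h8 : a i < ⌊u i⌋ := by exact_mod_cast h4
          have h9 : ⌊u i⌋ < a i + 1 := by exact_mod_cast h5
          omega
      · simp only [h, if_false]
        have h1 : ¬ (nonint u).card < j := fun h' => h (Or.inr h')
        have hsub : nonint u ⊆ J := by
          intro i hi
          by_contra hiJ
          exact notMem_nonint_of_eq (hu.2 i hiJ) hi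
        have hn : nonint u = J := Finset.eq_of_subset_of_card_le hsub (by omega)
        have ha : (fun i => ⌊u i⌋) = a := by
          funext i
          by_cases hi : i ∈ J
          · have h2 := hu.1 i hi
            have h3 : u i ≠ ⌊u i⌋ := mem_nonint.1 (hn ▸ hi)
            refine Int.floor_eq_iff.2 ⟨h2.1, lt_of_le_of_ne h2.2 fun h4 => h3 ?_⟩
            rw [h4]
            have : ((a i : ℝ) + 1) = ((a i + 1 : ℤ) : ℝ) := by push_cast; ring
            rw [this, Int.floor_intCast]
          · rw [hu.2 i hi, Int.floor_intCast]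
        rw [hn, ha]
    · exact (locallyFinite_cell.comp_injective Subtype.val_injective).isClosed_iUnion
        fun p => isClosed_cell _ _
  · intro u hu
    have : u ∈ K ∪ skel M j := Or.inl hu
    simp only [this, if_true]
    exact hg hu

/-- Extension over all of the space. -/
theorem grid_ext (hF : ∀ j ≤ M, Fills X j) (𝒟 : Set (Fin M → ℤ)) (g : (Fin M → ℝ) → X)
    (hg : ContinuousOn g (⋃ b ∈ 𝒟, cube b)) :
    ∃ F : (Fin M → ℝ) → X, Continuous F ∧ EqOn F g (⋃ b ∈ 𝒟, cube b) := by
  have h : ∀ j, j ≤ M + 1 → ∃ F : (Fin M → ℝ) → X,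
      ContinuousOn F ((⋃ b ∈ 𝒟, cube b) ∪ skel M j) ∧ EqOn F g (⋃ b ∈ 𝒟, cube b) := by
    intro j
    induction j with
    | zero =>
      intro _
      refine ⟨g, ?_, fun u _ => rfl⟩
      have : skel M 0 = ∅ := by
        ext u; simp [skel]
      rwa [this, union_empty]
    | succ j ih =>
      intro hj
      obtain ⟨F, hc, he⟩ := ih (by omega)
      exact grid_step (hF j (by omega)) hc he
  obtain ⟨F, hc, he⟩ := h (M + 1) le_rfl
  refine ⟨F, ?_, he⟩
  rw [← continuousOn_univ]
  refine hc.mono fun u _ => Or.inr ?_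
  have : (nonint u).card ≤ Fintype.card (Fin M) := Finset.card_le_univ _
  rw [Fintype.card_fin] at this
  exact Nat.lt_succ_of_le this

end CubeHom
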