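import Mathlib

/-!
# The homotopy addition theorem for cubes

`hat`: if all the faces of codimension two of a `(k + 1)`-cube are mapped to the base point
(`2 ≤ k`), then the alternating sum of the classes of its faces vanishes in the `k`-th homotopy
group.
-/

set_option linter.unusedSectionVars false

open unitInterval

namespace CubeHom

namespace Hat

variable {X : Type*} [TopologicalSpace X] {x0 : X}
variable {N : Type*} [DecidableEq N]

/-- The class of a generalised loop, written additively. -/
def cls (f : GenLoop N X x0) : Additive (HomotopyGroup N X x0) :=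
  Additive.ofMul (Quotient.mk (GenLoop.Homotopic.setoid N x0) f)

theorem cls_eq {f g : GenLoop N X x0} (h : GenLoop.Homotopic f g) : cls f = cls g :=
  congrArg Additive.ofMul (Quotient.sound h)

theorem cls_trans [Nontrivial N] (i : N) (f g : GenLoop N X x0) :
    cls (GenLoop.transAt i f g) = cls f + cls g := by
  rw [add_comm]
  exact congrArg Additive.ofMul (HomotopyGroup.mul_spec (i := i) (p := g) (q := f)).symm

theorem cls_symm [Nontrivial N] (i : N) (f : GenLoop N X x0) :
    cls (GenLoop.symmAt i f) = - cls f :=
  congrArg Additive.ofMul (HomotopyGroup.inv_spec (i := i) (p := f)).symm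

theorem cls_const [Nontrivial N] : cls (GenLoop.const : GenLoop N X x0) = 0 := rfl

/-- A criterion for homotopies relative to the boundary. -/
theorem homotopic_of {f g : GenLoop N X x0} (H : C(I × (N → I), X))
    (h0 : ∀ u, H (0, u) = f u) (h1 : ∀ u, H (1, u) = g u)
    (hb : ∀ t u, u ∈ Cube.boundary N → H (t, u) = x0) : GenLoop.Homotopic f g := by
  refine ⟨{ toContinuousMap := H, map_zero_left := h0, map_one_left := h1, prop' := ?_ }⟩
  intro t u hu
  show H (t, u) = f u
  rw [hb t u hu]
  exact (f.2 u hu).symm

/-- The extreme values. -/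
def bit (b : Bool) : I := if b then 1 else 0

theorem bit_extr (b : Bool) : bit b = 0 ∨ bit b = 1 := by
  cases b
  · exact Or.inl rfl
  · exact Or.inr rfl

/-- `x` is `0` or `1`. -/
def Ex (x : I) : Prop := x = 0 ∨ x = 1

theorem mem_bd {u : N → I} : u ∈ Cube.boundary N ↔ ∃ i, Ex (u i) := Iff.rfl

/-- Clamping. -/
noncomputable def cl (r : ℝ) : I := Set.projIcc 0 1 zero_le_one r

theorem continuous_cl : Continuous cl := continuous_projIcc (h := zero_le_one)

theorem cl_of_nonpos {r : ℝ} (h : r ≤ 0) : cl r = 0 := Set.projIcc_of_le_left _ h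

theorem cl_of_one_le {r : ℝ} (h : 1 ≤ r) : cl r = 1 := Set.projIcc_of_right_le _ h

theorem cl_coe (x : I) : cl (x : ℝ) = x := Set.projIcc_val _ x

theorem coe_cl {r : ℝ} (h0 : 0 ≤ r) (h1 : r ≤ 1) : (cl r : ℝ) = r := by
  unfold cl
  rw [Set.projIcc_of_mem _ ⟨h0, h1⟩]

theorem cl_eq {r : ℝ} {x : I} (h : r = x) : cl r = x := by rw [h, cl_coe]

theorem Ex.cl_nonpos {r : ℝ} (h : r ≤ 0) : Ex (cl r) := Or.inl (cl_of_nonpos h)

theorem Ex.cl_one_le {r : ℝ} (h : 1 ≤ r) : Ex (cl r) := Or.inr (cl_of_one_le h)

/-- Convex combinations. -/
noncomputable def cvx (s a b : I) : I := cl ((1 - s) * a + s * b)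

theorem continuous_cvx : Continuous fun p : I × I × I => cvx p.1 p.2.1 p.2.2 := by
  unfold cvx
  exact continuous_cl.comp (by fun_prop)

theorem cvx_zero (a b : I) : cvx 0 a b = a := by
  unfold cvx
  exact cl_eq (by simp)

theorem cvx_one (a b : I) : cvx 1 a b = b := by
  unfold cvx
  exact cl_eq (by simp)

theorem cvx_self (s a : I) : cvx s a a = a := by
  unfold cvx
  exact cl_eq (by ring)

/-- The reparametrisation of the folded coordinate. -/
noncomputable def Xi (x : I) : I := cl (4 * x - 2)

/-- The height in the folded coordinate. -/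
noncomputable def gg (x : I) : I := cl (max (1 - 2 * x) (4 * x - 3))

theorem continuous_Xi : Continuous Xi := continuous_cl.comp (by fun_prop)

theorem continuous_gg : Continuous gg := continuous_cl.comp (by fun_prop)

theorem Xi_zero : Xi 0 = 0 := cl_of_nonpos (by simp)

theorem Xi_one : Xi 1 = 1 := cl_of_one_le (by norm_num)

theorem gg_zero : gg 0 = 1 := cl_of_one_le (by simp)

theorem gg_one : gg 1 = 1 := cl_of_one_le (by norm_num)

theorem Xi_ex {x : I} (h : Ex x) : Xi x = x := by
  rcases h with rfl | rfl
  exacts [Xi_zero, Xi_one]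

theorem gg_ex {x : I} (h : Ex x) : gg x = 1 := by
  rcases h with rfl | rfl
  exacts [gg_zero, gg_one]

theorem gg_or (x : I) : gg x = 0 ∨ Ex (Xi x) := by
  rcases le_or_gt (x : ℝ) (1 / 2) with h | h
  · exact Or.inr (Ex.cl_nonpos (by linarith))
  rcases le_or_gt (x : ℝ) (3 / 4) with h' | h'
  · exact Or.inl (cl_of_nonpos (by
      refine max_le ?_ ?_
      · linarith
      · linarith))
  · exact Or.inr (Ex.cl_one_le (by linarith))

/-- The time after folding. -/
noncomputable def TT (t g : I) : I := σ (σ t * σ g)

theorem continuous_TT : Continuous fun p : I × I => TT p.1 p.2 := by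
  unfold TT
  fun_prop

theorem TT_one_left (g : I) : TT 1 g = 1 := by
  unfold TT
  simp

theorem TT_one_right (t : I) : TT t 1 = 1 := by
  unfold TT
  simp

theorem TT_zero_left (g : I) : TT 0 g = g := by
  unfold TT
  simp

theorem TT_zero_right (t : I) : TT t 0 = t := by
  unfold TT
  simp

/-- The faces of codimension two are mapped to the base point. -/
def Sk (x0 : X) (H : C(I × (N → I), X)) : Prop :=
  (∀ t u i, Ex t → Ex (u i) → H (t, u) = x0) ∧
    ∀ t u i j, i ≠ j → Ex (u i) → Ex (u j) → H (t, u) = x0

/-- Folding in the direction `i`. -/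
noncomputable def fold (i : N) (H : C(I × (N → I), X)) : C(I × (N → I), X) where
  toFun p := H (TT p.1 (gg (p.2 i)), Function.update p.2 i (Xi (p.2 i)))
  continuous_toFun := by
    refine H.continuous.comp (Continuous.prodMk ?_ ?_)
    · exact continuous_TT.comp (Continuous.prodMk continuous_fst
        (continuous_gg.comp (by fun_prop)))
    · exact Continuous.update continuous_snd i (continuous_Xi.comp (by fun_prop))

theorem fold_apply (i : N) (H : C(I × (N → I), X)) (t : I) (u : N → I) :
    fold i H (t, u) = H (TT t (gg (u i)), Function.update u i (Xi (u i))) := rfl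

theorem upd_same (u : N → I) (i : N) (a : I) : Function.update u i a i = a := by simp

theorem upd_ne (u : N → I) {i j : N} (a : I) (h : j ≠ i) : Function.update u i a j = u j := by
  simp [h]

theorem fold_side {H : C(I × (N → I), X)} (hH : Sk x0 H) {i : N} {t : I} {u : N → I}
    (hu : Ex (u i)) : fold i H (t, u) = x0 := by
  rw [fold_apply, gg_ex hu, TT_one_right]
  exact hH.1 _ _ i (Or.inr rfl) (by rw [upd_same, Xi_ex hu]; exact hu)

theorem Sk.fold {H : C(I × (N → I), X)} (hH : Sk x0 H) (i : N) : Sk x0 (fold i H) := by
  constructor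
  · intro t u j ht hu
    rcases eq_or_ne j i with rfl | hj
    · exact fold_side hH hu
    rw [fold_apply]
    rcases ht with rfl | rfl
    · rw [TT_zero_left]
      rcases gg_or (u i) with h | h
      · rw [h]
        exact hH.1 _ _ j (Or.inl rfl) (by rwa [upd_ne _ _ hj])
      · exact hH.2 _ _ i j hj.symm (by rwa [upd_same]) (by rwa [upd_ne _ _ hj])
    · rw [TT_one_left]
      exact hH.1 _ _ j (Or.inr rfl) (by rwa [upd_ne _ _ hj])
  · intro t u j l hjl hj hl
    rcases eq_or_ne j i with rfl | hji
    · exact fold_side hH hj
    rcases eq_or_ne l i with rfl | hli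
    · exact fold_side hH hl
    rw [fold_apply]
    exact hH.2 _ _ j l hjl (by rwa [upd_ne _ _ hji]) (by rwa [upd_ne _ _ hli])

/-- The ends of a homotopy. -/
def IsEnd (H : C(I × (N → I), X)) (t : I) (E : GenLoop N X x0) : Prop := ∀ u, E u = H (t, u)

/-- The sides of a homotopy. -/
def IsSd (H : C(I × (N → I), X)) (i : N) (b : Bool) (S : GenLoop N X x0) : Prop :=
  ∀ u, S u = H (u i, Function.update u i (bit b))

theorem exists_end {H : C(I × (N → I), X)} (hH : Sk x0 H) {t : I} (ht : Ex t) :
    ∃ E : GenLoop N X x0, IsEnd H t E :=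
  ⟨⟨⟨fun u => H (t, u), by fun_prop⟩, fun u ⟨i, hi⟩ => hH.1 _ _ i ht hi⟩, fun _ => rfl⟩

theorem exists_side {H : C(I × (N → I), X)} (hH : Sk x0 H) (i : N) (b : Bool) :
    ∃ S : GenLoop N X x0, IsSd H i b S := by
  refine ⟨⟨⟨fun u => H (u i, Function.update u i (bit b)), ?_⟩, ?_⟩, fun _ => rfl⟩
  · exact H.continuous.comp (Continuous.prodMk (by fun_prop)
      (Continuous.update continuous_id i continuous_const))
  · rintro u ⟨j, hj⟩
    show H (u i, Function.update u i (bit b)) = x0
    rcases eq_or_ne j i with rfl | hji
    · exact hH.1 _ _ j hj (by rw [upd_same]; exact bit_extr b)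
    · exact hH.2 _ _ i j hji.symm (by rw [upd_same]; exact bit_extr b)
        (by rw [upd_ne _ _ hji]; exact hj)

/-- The end at time `1` is not changed by folding. -/
theorem end_one_fold {H : C(I × (N → I), X)} (hH : Sk x0 H) {i : N} {E E' : GenLoop N X x0}
    (hE : IsEnd H 1 E) (hE' : IsEnd (fold i H) 1 E') : cls E' = cls E := by
  refine cls_eq (homotopic_of
    (⟨fun p => H (1, Function.update p.2 i (cvx p.1 (Xi (p.2 i)) (p.2 i))), ?_⟩) ?_ ?_ ?_)
  · refine H.continuous.comp (Continuous.prodMk continuous_const
      (Continuous.update continuous_snd i ?_))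
    exact continuous_cvx.comp (Continuous.prodMk continuous_fst
      (Continuous.prodMk (continuous_Xi.comp (by fun_prop)) (by fun_prop)))
  · intro u
    show H (1, Function.update u i (cvx 0 (Xi (u i)) (u i))) = E' u
    rw [hE' u, fold_apply, TT_one_left, cvx_zero]
  · intro u
    show H (1, Function.update u i (cvx 1 (Xi (u i)) (u i))) = E u
    rw [hE u, cvx_one, Function.update_eq_self]
  · rintro t u ⟨j, hj⟩
    show H (1, Function.update u i (cvx t (Xi (u i)) (u i))) = x0
    rcases eq_or_ne j i with rfl | hji
    · exact hH.1 _ _ j (Or.inr rfl) (by rw [upd_same, Xi_ex hj, cvx_self]; exact hj)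
    · exact hH.1 _ _ j (Or.inr rfl) (by rw [upd_ne _ _ hji]; exact hj)

/-- The other sides are not changed by folding. -/
theorem side_fold {H : C(I × (N → I), X)} (hH : Sk x0 H) {i j : N} (hji : j ≠ i) {b : Bool}
    {S S' : GenLoop N X x0} (hS : IsSd H j b S) (hS' : IsSd (fold i H) j b S') :
    cls S' = cls S := by
  have hb := bit_extr b
  -- the intermediate loop
  obtain ⟨M, hM⟩ : ∃ M : GenLoop N X x0, ∀ u, M u =
      H (u j, Function.update (Function.update u j (bit b)) i (Xi (u i))) := by
    refine ⟨⟨⟨fun u => H (u j, Function.update (Function.update u j (bit b)) i (Xi (u i))), ?_⟩,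
      ?_⟩, fun _ => rfl⟩
    · exact H.continuous.comp (Continuous.prodMk (by fun_prop)
        (Continuous.update (Continuous.update continuous_id j continuous_const) i
          (continuous_Xi.comp (by fun_prop))))
    · rintro u ⟨l, hl⟩
      show H (u j, Function.update (Function.update u j (bit b)) i (Xi (u i))) = x0
      have e1 : Ex (Function.update (Function.update u j (bit b)) i (Xi (u i)) j) := by
        rw [upd_ne _ _ hji, upd_same]; exact hb
      rcases eq_or_ne l j with rfl | hlj
      · exact hH.1 _ _ l hl e1
      rcases eq_or_ne l i with rfl | hli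
      · exact hH.2 _ _ l j hlj (by rw [upd_same, Xi_ex hl]; exact hl) e1
      · exact hH.2 _ _ l j hlj (by rw [upd_ne _ _ hli, upd_ne _ _ hlj]; exact hl) e1
  have e1 : ∀ (u : N → I) (a : I),
      Ex (Function.update (Function.update u j (bit b)) i a j) := by
    intro u a
    rw [upd_ne _ _ hji, upd_same]; exact hb
  have h1 : cls S' = cls M := by
    refine cls_eq (homotopic_of
      (⟨fun p => H (TT (p.2 j) (gg (p.2 i) * σ p.1),
        Function.update (Function.update p.2 j (bit b)) i (Xi (p.2 i))), ?_⟩) ?_ ?_ ?_)
    · refine H.continuous.comp (Continuous.prodMk ?_ ?_)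
      · refine continuous_TT.comp (Continuous.prodMk (by fun_prop) ?_)
        exact (continuous_gg.comp (by fun_prop)).mul (by fun_prop)
      · exact Continuous.update (Continuous.update continuous_snd j continuous_const) i
          (continuous_Xi.comp (by fun_prop))
    · intro u
      show H (TT (u j) (gg (u i) * σ 0),
        Function.update (Function.update u j (bit b)) i (Xi (u i))) = S' u
      rw [hS' u, fold_apply, symm_zero, mul_one, upd_ne _ _ hji.symm]
    · intro u
      show H (TT (u j) (gg (u i) * σ 1),
        Function.update (Function.update u j (bit b)) i (Xi (u i))) = M u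
      rw [hM u, symm_one, mul_zero, TT_zero_right]
    · rintro t u ⟨l, hl⟩
      show H (TT (u j) (gg (u i) * σ t),
        Function.update (Function.update u j (bit b)) i (Xi (u i))) = x0
      rcases eq_or_ne l j with rfl | hlj
      · rcases hl with hl | hl
        · rw [hl, TT_zero_left]
          rcases gg_or (u i) with h | h
          · rw [h, zero_mul]
            exact hH.1 _ _ l (Or.inl rfl) (e1 _ _)
          · exact hH.2 _ _ i l hji.symm (by rw [upd_same]; exact h) (e1 _ _)
        · rw [hl, TT_one_left]
          exact hH.1 _ _ l (Or.inr rfl) (e1 _ _)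
      rcases eq_or_ne l i with rfl | hli
      · exact hH.2 _ _ l j hlj (by rw [upd_same, Xi_ex hl]; exact hl) (e1 _ _)
      · exact hH.2 _ _ l j hlj (by rw [upd_ne _ _ hli, upd_ne _ _ hlj]; exact hl) (e1 _ _)
  have h2 : cls M = cls S := by
    refine cls_eq (homotopic_of
      (⟨fun p => H (p.2 j, Function.update (Function.update p.2 j (bit b)) i
        (cvx p.1 (Xi (p.2 i)) (p.2 i))), ?_⟩) ?_ ?_ ?_)
    · refine H.continuous.comp (Continuous.prodMk (by fun_prop)
        (Continuous.update (Continuous.update continuous_snd j continuous_const) i ?_))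
      exact continuous_cvx.comp (Continuous.prodMk continuous_fst
        (Continuous.prodMk (continuous_Xi.comp (by fun_prop)) (by fun_prop)))
    · intro u
      show H (u j, Function.update (Function.update u j (bit b)) i
        (cvx 0 (Xi (u i)) (u i))) = M u
      rw [hM u, cvx_zero]
    · intro u
      show H (u j, Function.update (Function.update u j (bit b)) i
        (cvx 1 (Xi (u i)) (u i))) = S u
      rw [hS u, cvx_one]
      congr 2
      rw [Function.update_comm hji, Function.update_eq_self]
    · rintro t u ⟨l, hl⟩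
      show H (u j, Function.update (Function.update u j (bit b)) i
        (cvx t (Xi (u i)) (u i))) = x0
      rcases eq_or_ne l j with rfl | hlj
      · exact hH.1 _ _ l hl (e1 _ _)
      rcases eq_or_ne l i with rfl | hli
      · exact hH.2 _ _ l j hlj (by rw [upd_same, Xi_ex hl, cvx_self]; exact hl) (e1 _ _)
      · exact hH.2 _ _ l j hlj (by rw [upd_ne _ _ hli, upd_ne _ _ hlj]; exact hl) (e1 _ _)
  rw [h1, h2]

/-- The end at time `0` after folding is a concatenation. -/
theorem end_zero_fold [Nontrivial N] {H : C(I × (N → I), X)} {i : N}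
    {E S0 S1 E' : GenLoop N X x0} (hE : IsEnd H 0 E) (hS0 : IsSd H i false S0)
    (hS1 : IsSd H i true S1) (hE' : IsEnd (fold i H) 0 E') :
    cls E' = - cls S0 + (cls E + cls S1) := by
  have key : E' = GenLoop.transAt i (GenLoop.symmAt i S0) (GenLoop.transAt i E S1) := by
    refine GenLoop.ext _ _ fun u => ?_
    rw [hE' u, fold_apply, TT_zero_left]
    unfold GenLoop.transAt
    rw [GenLoop.coe_copy]
    split_ifs with h1
    · -- first half
      unfold GenLoop.symmAt
      rw [GenLoop.coe_copy]
      rw [hS0]
      have e1 : (fun j => if j = i then σ (Function.update u i (Set.projIcc 0 1 zero_le_one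
          (2 * (u i : ℝ))) i) else Function.update u i (Set.projIcc 0 1 zero_le_one
          (2 * (u i : ℝ))) j) = Function.update u i (σ (cl (2 * (u i : ℝ)))) := by
        funext j
        by_cases hj : j = i
        · subst hj
          simp [cl]
        · simp [hj]
      rw [e1, upd_same, Function.update_idem]
      have e2 : Xi (u i) = bit false := cl_of_nonpos (by linarith)
      have e3 : gg (u i) = σ (cl (2 * (u i : ℝ))) := by
        unfold gg
        refine cl_eq ?_
        rw [coe_symm_eq, coe_cl (by have := (u i).2.1; linarith) (by linarith),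
          max_eq_left (by linarith)]
      rw [e2, e3, if_pos rfl]
      rfl
    · rw [not_le] at h1
      rw [GenLoop.coe_copy]
      rw [upd_same]
      have e0 : ((Set.projIcc (0 : ℝ) 1 zero_le_one (2 * (u i : ℝ) - 1) : I) : ℝ) =
          2 * (u i : ℝ) - 1 := coe_cl (by linarith) (by have := (u i).2.2; linarith)
      rw [e0, Function.update_idem, Function.update_idem]
      split_ifs with h2
      · rw [hE]
        have e2 : gg (u i) = 0 := cl_of_nonpos (max_le (by linarith) (by linarith))
        rw [e2]
        congr 3
        unfold Xi cl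
        congr 1
        ring
      · rw [not_le] at h2
        rw [hS1, upd_same, Function.update_idem]
        have e2 : Xi (u i) = bit true := cl_of_one_le (by linarith)
        rw [e2]
        congr 2
        unfold gg cl
        congr 1
        rw [max_eq_right (by linarith)]
        ring
  rw [key, cls_trans, cls_symm, cls_trans]

/-- The homotopy addition theorem, first form. -/
theorem hat_raw [Nontrivial N] (s : Finset N) : ∀ (H : C(I × (N → I), X)), Sk x0 H →
    (∀ j ∉ s, ∀ t u, Ex (u j) → H (t, u) = x0) →
    ∀ (E0 E1 : GenLoop N X x0) (S0 S1 : N → GenLoop N X x0), IsEnd H 0 E0 → IsEnd H 1 E1 →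
    (∀ i, IsSd H i false (S0 i)) → (∀ i, IsSd H i true (S1 i)) →
    cls E1 = cls E0 + ∑ i ∈ s, (cls (S1 i) - cls (S0 i)) := by
  induction s using Finset.induction_on with
  | empty =>
    intro H hH hs E0 E1 S0 S1 hE0 hE1 _ _
    rw [Finset.sum_empty, add_zero]
    refine cls_eq (GenLoop.Homotopic.symm (homotopic_of H (fun u => (hE0 u).symm)
      (fun u => (hE1 u).symm) ?_))
    rintro t u ⟨j, hj⟩
    exact hs j (by simp) t u hj
  | insert i s hi ih =>
    intro H hH hs E0 E1 S0 S1 hE0 hE1 hS0 hS1
    obtain ⟨E0', hE0'⟩ := exists_end (hH.fold i) (Or.inl rfl : Ex (0 : I))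
    obtain ⟨E1', hE1'⟩ := exists_end (hH.fold i) (Or.inr rfl : Ex (1 : I))
    choose S0' hS0' using fun j => exists_side (hH.fold i) j false
    choose S1' hS1' using fun j => exists_side (hH.fold i) j true
    have h := ih (fold i H) (hH.fold i) (fun j hj t u hu => ?_) E0' E1' S0' S1' hE0' hE1' hS0' hS1'
    · rw [end_one_fold hH hE1 hE1', end_zero_fold hE0 (hS0 i) (hS1 i) hE0'] at h
      rw [h, Finset.sum_insert hi]
      have e1 : ∑ j ∈ s, (cls (S1' j) - cls (S0' j)) = ∑ j ∈ s, (cls (S1 j) - cls (S0 j)) := by
        refine Finset.sum_congr rfl fun j hj => ?_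
        have hji : j ≠ i := by
          rintro rfl
          exact hi hj
        rw [side_fold hH hji (hS1 j) (hS1' j), side_fold hH hji (hS0 j) (hS0' j)]
      rw [e1]
      abel
    · rcases eq_or_ne j i with rfl | hji
      · exact fold_side hH hu
      · rw [fold_apply]
        exact hs j (by simp [hji, hj]) _ _ (by rw [upd_ne _ _ hji]; exact hu)

/-! ### Permutations of the coordinates -/

/-- Permute the coordinates. -/
def pm (π : Equiv.Perm N) (f : GenLoop N X x0) : GenLoop N X x0 :=
  ⟨⟨fun u => f (u ∘ π), f.1.continuous.comp (by fun_prop)⟩, fun u ⟨i, hi⟩ =>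
    f.2 _ ⟨π.symm i, by
      show (u ∘ π) (π.symm i) = 0 ∨ (u ∘ π) (π.symm i) = 1
      simpa using hi⟩⟩

theorem pm_apply (π : Equiv.Perm N) (f : GenLoop N X x0) (u : N → I) : pm π f u = f (u ∘ π) :=
  rfl

theorem gl_ex (f : GenLoop N X x0) {u : N → I} {i : N} (h : Ex (u i)) : f u = x0 :=
  f.2 u ⟨i, h⟩

/-- A transposition changes the sign. -/
theorem cls_swap [Nontrivial N] {i j : N} (hij : i ≠ j) (f : GenLoop N X x0) :
    cls (pm (Equiv.swap i j) f) = - cls f := by
  -- the symmetric loop
  obtain ⟨ρ, hρ⟩ : ∃ ρ : GenLoop N X x0, ∀ u, ρ u =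
      f (Function.update (Function.update u i (cl (2 * (max (u i) (u j) : I) - 1))) j
        (cl (2 * (min (u i) (u j) : I)))) := by
    refine ⟨⟨⟨fun u => f (Function.update (Function.update u i
      (cl (2 * (max (u i) (u j) : I) - 1))) j (cl (2 * (min (u i) (u j) : I)))), ?_⟩, ?_⟩,
      fun _ => rfl⟩
    · refine f.1.continuous.comp (Continuous.update (Continuous.update continuous_id i
        (continuous_cl.comp (by fun_prop))) j (continuous_cl.comp (by fun_prop)))
    · rintro u ⟨l, hl⟩
      show f (Function.update (Function.update u i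
        (cl (2 * (max (u i) (u j) : I) - 1))) j (cl (2 * (min (u i) (u j) : I)))) = x0
      by_cases h : l = i ∨ l = j
      · have h' : min (u i) (u j) = 0 ∨ max (u i) (u j) = 1 := by
          rcases h with rfl | rfl
          · rcases hl with hl | hl
            · left; rw [hl]; exact min_eq_left (u j).2.1
            · right; rw [hl]; exact max_eq_left (u j).2.2
          · rcases hl with hl | hl
            · left; rw [hl]; exact min_eq_right (u i).2.1
            · right; rw [hl]; exact max_eq_right (u i).2.2
        rcases h' with h' | h'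
        · exact gl_ex f (i := j) (by rw [upd_same, h']; exact Ex.cl_nonpos (by simp))
        · exact gl_ex f (i := i) (by
            rw [upd_ne _ _ hij, upd_same, h']; exact Ex.cl_one_le (by norm_num))
      · rw [not_or] at h
        exact gl_ex f (i := l) (by rw [upd_ne _ _ h.2, upd_ne _ _ h.1]; exact hl)
  have h0 : cls ρ = 0 := by
    rw [← cls_const (N := N) (X := X) (x0 := x0)]
    refine cls_eq (homotopic_of
      (⟨fun p => f (Function.update (Function.update p.2 i
        (cl (2 * (max (p.2 i) (p.2 j) : I) - 1 + 2 * p.1))) j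
        (cl (2 * (min (p.2 i) (p.2 j) : I)))), ?_⟩) ?_ ?_ ?_)
    · refine f.1.continuous.comp (Continuous.update (Continuous.update continuous_snd i
        (continuous_cl.comp (by fun_prop))) j (continuous_cl.comp (by fun_prop)))
    · intro u
      show f (Function.update (Function.update u i
        (cl (2 * (max (u i) (u j) : I) - 1 + 2 * (0 : I)))) j
        (cl (2 * (min (u i) (u j) : I)))) = ρ u
      rw [hρ u]
      simp
    · intro u
      show f (Function.update (Function.update u i
        (cl (2 * (max (u i) (u j) : I) - 1 + 2 * (1 : I)))) j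
        (cl (2 * (min (u i) (u j) : I)))) = x0
      refine gl_ex f (i := i) ?_
      rw [upd_ne _ _ hij, upd_same]
      refine Ex.cl_one_le ?_
      have := (max (u i) (u j) : I).2.1
      simp only [Set.Icc.coe_one]
      linarith
    · rintro t u ⟨l, hl⟩
      show f (Function.update (Function.update u i
        (cl (2 * (max (u i) (u j) : I) - 1 + 2 * t))) j
        (cl (2 * (min (u i) (u j) : I)))) = x0
      by_cases h : l = i ∨ l = j
      · have h' : min (u i) (u j) = 0 ∨ max (u i) (u j) = 1 := by
          rcases h with rfl | rfl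
          · rcases hl with hl | hl
            · left; rw [hl]; exact min_eq_left (u j).2.1
            · right; rw [hl]; exact max_eq_left (u j).2.2
          · rcases hl with hl | hl
            · left; rw [hl]; exact min_eq_right (u i).2.1
            · right; rw [hl]; exact max_eq_right (u i).2.2
        rcases h' with h' | h'
        · exact gl_ex f (i := j) (by rw [upd_same, h']; exact Ex.cl_nonpos (by simp))
        · refine gl_ex f (i := i) ?_
          rw [upd_ne _ _ hij, upd_same, h']
          refine Ex.cl_one_le ?_
          have := t.2.1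
          simp only [Set.Icc.coe_one]
          linarith
      · rw [not_or] at h
        exact gl_ex f (i := l) (by rw [upd_ne _ _ h.2, upd_ne _ _ h.1]; exact hl)
  have key : ρ = GenLoop.transAt i (GenLoop.transAt j GenLoop.const (pm (Equiv.swap i j) f))
      (GenLoop.transAt j f GenLoop.const) := by
    refine GenLoop.ext _ _ fun u => ?_
    rw [hρ u]
    unfold GenLoop.transAt
    rw [GenLoop.coe_copy]
    split_ifs with h1
    · rw [GenLoop.coe_copy]
      rw [upd_ne _ _ hij.symm]
      split_ifs with h2
      · -- both small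
        rw [GenLoop.const_apply]
        refine gl_ex f (i := i) ?_
        rw [upd_ne _ _ hij, upd_same]
        refine Ex.cl_nonpos ?_
        have : ((max (u i) (u j) : I) : ℝ) ≤ 1 / 2 := by
          rcases le_total (u i) (u j) with h | h
          · rw [max_eq_right h]; exact h2
          · rw [max_eq_left h]; exact h1
        linarith
      · rw [not_le] at h2
        have h3 : u i ≤ u j := by
          show (u i : ℝ) ≤ u j
          linarith
        rw [max_eq_right h3, min_eq_left h3, pm_apply]
        congr 1
        funext l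
        rcases eq_or_ne l i with rfl | hli
        · rw [upd_ne _ _ hij, upd_same, Function.comp_apply, Equiv.swap_apply_left, upd_same]
          rfl
        rcases eq_or_ne l j with rfl | hlj
        · rw [upd_same, Function.comp_apply, Equiv.swap_apply_right, upd_ne _ _ hij, upd_same]
          rfl
        · rw [upd_ne _ _ hlj, upd_ne _ _ hli, Function.comp_apply,
            Equiv.swap_apply_of_ne_of_ne hli hlj, upd_ne _ _ hlj, upd_ne _ _ hli]
    · rw [not_le] at h1
      rw [GenLoop.coe_copy]
      rw [upd_ne _ _ hij.symm]
      split_ifs with h2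
      · have h3 : u j ≤ u i := by
          show (u j : ℝ) ≤ u i
          linarith
        rw [max_eq_left h3, min_eq_right h3]
        rfl
      · rw [not_le] at h2
        rw [GenLoop.const_apply]
        refine gl_ex f (i := j) ?_
        rw [upd_same]
        refine Ex.cl_one_le ?_
        have : 1 / 2 ≤ ((min (u i) (u j) : I) : ℝ) := by
          rcases le_total (u i) (u j) with h | h
          · rw [min_eq_left h]; exact h1.le
          · rw [min_eq_right h]; exact h2.le
        linarith
  rw [key, cls_trans, cls_trans, cls_trans, cls_const, zero_add, add_zero] at h0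
  exact eq_neg_of_add_eq_zero_left h0

theorem pm_one (f : GenLoop N X x0) : pm 1 f = f := rfl

theorem pm_mul (π π' : Equiv.Perm N) (f : GenLoop N X x0) :
    pm (π * π') f = pm π (pm π' f) := rfl

/-- Permutations of the coordinates act by their sign. -/
theorem cls_pm [Nontrivial N] [Fintype N] (π : Equiv.Perm N) (f : GenLoop N X x0) :
    cls (pm π f) = ((Equiv.Perm.sign π : ℤˣ) : ℤ) • cls f := by
  induction π using Equiv.Perm.swap_induction_on with
  | one => rw [pm_one, map_one, Units.val_one, one_smul]
  | swap_mul π x y hxy ih =>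
    rw [pm_mul, cls_swap hxy, ih, map_mul, Equiv.Perm.sign_swap hxy, Units.val_mul,
      Units.val_neg, Units.val_one, neg_one_mul, neg_smul]

end Hat

open Hat in
/-- **Homotopy addition theorem.** If all the faces of codimension two of a `(k + 1)`-cube are
mapped to the base point, the alternating sum of the classes of the faces is zero. -/
theorem hat {X : Type*} [TopologicalSpace X] {x0 : X} {k : ℕ} [Nontrivial (Fin k)]
    (τ : C((Fin (k + 1) → I), X))
    (h : ∀ u (i j : Fin (k + 1)), i ≠ j → (u i = 0 ∨ u i = 1) → (u j = 0 ∨ u j = 1) → τ u = x0)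
    (F : Fin (k + 1) → Bool → GenLoop (Fin k) X x0)
    (hF : ∀ i b v, F i b v = τ (i.insertNth (bit b) v)) :
    ∑ i : Fin (k + 1), ((-1 : ℤ) ^ (i : ℕ)) • (cls (F i true) - cls (F i false)) = 0 := by
  -- the homotopy in the direction `0`
  let H : C(I × (Fin k → I), X) :=
    ⟨fun p => τ (Fin.cons p.1 p.2), τ.continuous.comp (by fun_prop)⟩
  have hHa : ∀ t u, H (t, u) = τ (Fin.cons t u) := fun _ _ => rfl
  have hH : Sk x0 H := by
    constructor
    · intro t u i ht hu
      rw [hHa]
      exact h _ 0 i.succ (Fin.succ_ne_zero i).symm (by rw [Fin.cons_zero]; exact ht)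
        (by rw [Fin.cons_succ]; exact hu)
    · intro t u i j hij hi hj
      rw [hHa]
      exact h _ i.succ j.succ (by simpa using hij) (by rw [Fin.cons_succ]; exact hi)
        (by rw [Fin.cons_succ]; exact hj)
  choose S0 hS0 using fun i => exists_side hH i false
  choose S1 hS1 using fun i => exists_side hH i true
  have hraw := hat_raw (Finset.univ : Finset (Fin k)) H hH (fun j hj => by simp at hj)
    (F 0 false) (F 0 true) S0 S1 (fun u => by
      rw [hF, hHa, Fin.insertNth_zero']; rfl) (fun u => by
      rw [hF, hHa, Fin.insertNth_zero']; rfl) hS0 hS1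
  have key : ∀ (i : Fin k) (b : Bool) (S : GenLoop (Fin k) X x0), IsSd H i b S →
      cls S = ((-1 : ℤ) ^ (i : ℕ)) • cls (F i.succ b) := by
    intro i b S hS
    have e : S = pm (Fin.cycleRange i).symm (F i.succ b) := by
      refine GenLoop.ext _ _ fun u => ?_
      rw [hS u, pm_apply, hF, hHa]
      congr 1
      symm
      rw [Fin.insertNth_eq_iff]
      constructor
      · rw [Fin.cons_succ, upd_same]
      · funext m
        obtain ⟨j, rfl⟩ := (Fin.cycleRange i).surjective m
        rw [Fin.removeNth, Fin.succAbove_cycleRange, Function.comp_apply,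
          Equiv.symm_apply_apply]
        rcases eq_or_ne j i with rfl | hji
        · rw [Equiv.swap_apply_right, Fin.cons_zero]
        · rw [Equiv.swap_apply_of_ne_of_ne (Fin.succ_ne_zero j) (by simpa using hji),
            Fin.cons_succ, upd_ne _ _ hji]
    rw [e, cls_pm, Equiv.Perm.sign_symm, Fin.sign_cycleRange]
    congr 1
  rw [Fin.sum_univ_succ, hraw]
  simp only [Fin.val_zero, pow_zero, one_smul, Fin.val_succ, pow_succ, mul_neg_one, neg_smul,
    Finset.sum_neg_distrib]
  have e2 : ∑ i : Fin k, (cls (S1 i) - cls (S0 i)) =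
      ∑ i : Fin k, ((-1 : ℤ) ^ (i : ℕ)) • (cls (F i.succ true) - cls (F i.succ false)) := by
    refine Finset.sum_congr rfl fun i _ => ?_
    rw [key i true _ (hS1 i), key i false _ (hS0 i), smul_sub]
  rw [e2]
  abel

end CubeHom
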