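import Pool.Agent.Lib.MP_cb6a70_gt_HB.Basic

/-!
# A chain map which kills the degenerate cubes
-/

namespace CubeHom

variable {R : Type*} [CommRing R] {X : Type*} [TopologicalSpace X]

/-- Set the coordinate `i` to zero. -/
def zr (i : ℕ) : C(Cb, Cb) where
  toFun u := Function.update u i 0
  continuous_toFun := continuous_id.update i continuous_const

theorem zr_self (i : ℕ) (u : Cb) : zr i u i = 0 := by simp [zr]

theorem zr_ne {i l : ℕ} (h : l ≠ i) (u : Cb) : zr i u l = u l := by simp [zr, h]

/-- The operator on chains. -/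
noncomputable def zc (i : ℕ) : Ch R X →ₗ[R] Ch R X :=
  Finsupp.lmapDomain R R (fun σ : C(Cb, X) => σ.comp (zr i))

@[simp] theorem zc_single (i : ℕ) (σ : C(Cb, X)) (r : R) :
    zc i (Finsupp.single σ r) = Finsupp.single (σ.comp (zr i)) r := by
  simp [zc, Finsupp.mapDomain_single]

theorem zr_ins_self (i : ℕ) (e : I) : (zr i).comp (ins i e) = ins i 0 := by
  ext u l : 2
  simp only [ContinuousMap.comp_apply]
  rcases lt_trichotomy l i with h | h | h
  · rw [zr_ne (by omega), ins_apply_lt h, ins_apply_lt h]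
  · subst h
    rw [zr_self, ins_apply_self]
  · rw [zr_ne (by omega), ins_apply_gt h, ins_apply_gt h]

theorem zr_ins_lt {i l : ℕ} (h : i < l) (e : I) :
    (zr i).comp (ins l e) = (ins l e).comp (zr i) := by
  ext u m : 2
  simp only [ContinuousMap.comp_apply]
  by_cases hm : m = i
  · subst hm
    rw [zr_self, ins_apply_lt h, zr_self]
  · rw [zr_ne hm]
    rcases lt_trichotomy m l with h' | h' | h'
    · rw [ins_apply_lt h', ins_apply_lt h', zr_ne hm]
    · subst h'
      rw [ins_apply_self, ins_apply_self]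
    · rw [ins_apply_gt h', ins_apply_gt h', zr_ne (by omega)]

theorem zr_ins_gt {i l : ℕ} (h : l ≤ i) (e : I) :
    (zr (i + 1)).comp (ins l e) = (ins l e).comp (zr i) := by
  ext u m : 2
  simp only [ContinuousMap.comp_apply]
  by_cases hm : m = i + 1
  · subst hm
    rw [zr_self, ins_apply_gt (by omega), Nat.add_sub_cancel, zr_self]
  · rw [zr_ne hm]
    rcases lt_trichotomy m l with h' | h' | h'
    · rw [ins_apply_lt h', ins_apply_lt h', zr_ne (by omega)]
    · subst h'
      rw [ins_apply_self, ins_apply_self]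
    · rw [ins_apply_gt h', ins_apply_gt h', zr_ne (by omega)]

theorem zr_comm (i l : ℕ) : (zr i).comp (zr l) = (zr l).comp (zr i) := by
  ext u m : 2
  simp only [ContinuousMap.comp_apply]
  by_cases hi : m = i
  · subst hi
    by_cases hl : m = l
    · subst hl; rfl
    · rw [zr_self, zr_ne hl, zr_self]
  · by_cases hl : m = l
    · subst hl
      rw [zr_ne hi, zr_self, zr_self]
    · rw [zr_ne hi, zr_ne hl, zr_ne hl, zr_ne hi]

theorem zr_idem (i : ℕ) : (zr i).comp (zr i) = zr i := by
  ext u m : 2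
  simp only [ContinuousMap.comp_apply]
  by_cases hi : m = i
  · subst hi
    rw [zr_self, zr_self]
  · rw [zr_ne hi]

theorem face_zc_self (i : ℕ) (e : I) (c : Ch R X) : face i e (zc i c) = face i 0 c := by
  have h : (face (R := R) (X := X) i e).comp (zc i) = face i 0 := by
    ext σ : 2
    simp [ContinuousMap.comp_assoc, zr_ins_self]
  exact LinearMap.congr_fun h c

theorem face_zc_lt {i l : ℕ} (h : i < l) (e : I) (c : Ch R X) :
    face l e (zc i c) = zc i (face l e c) := by
  have h : (face (R := R) (X := X) l e).comp (zc i) = (zc i).comp (face l e) := by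
    ext σ : 2
    simp [ContinuousMap.comp_assoc, zr_ins_lt h]
  exact LinearMap.congr_fun h c

theorem face_zc_gt {i l : ℕ} (h : l ≤ i) (e : I) (c : Ch R X) :
    face l e (zc (i + 1) c) = zc i (face l e c) := by
  have h : (face (R := R) (X := X) l e).comp (zc (i + 1)) = (zc i).comp (face l e) := by
    ext σ : 2
    simp [ContinuousMap.comp_assoc, zr_ins_gt h]
  exact LinearMap.congr_fun h c

theorem zc_comm (i l : ℕ) (c : Ch R X) : zc i (zc l c) = zc l (zc i c) := by
  have h : (zc (R := R) (X := X) i).comp (zc l) = (zc l).comp (zc i) := by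
    ext σ : 2
    simp [ContinuousMap.comp_assoc, zr_comm]
  exact LinearMap.congr_fun h c

theorem dface_zc_self (i : ℕ) (c : Ch R X) : dface i (zc i c) = 0 := by
  rw [dface_apply, face_zc_self, face_zc_self, sub_self]

theorem dface_zc_lt {i l : ℕ} (h : i < l) (c : Ch R X) :
    dface l (zc i c) = zc i (dface l c) := by
  rw [dface_apply, dface_apply, face_zc_lt h, face_zc_lt h, map_sub]

theorem dface_zc_gt {i l : ℕ} (h : l ≤ i) (c : Ch R X) :
    dface l (zc (i + 1) c) = zc i (dface l c) := by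
  rw [dface_apply, dface_apply, face_zc_gt h, face_zc_gt h, map_sub]

/-- The normalisation `(1 - z_0) ... (1 - z_(k-1))`. -/
noncomputable def Nr : ℕ → (Ch R X →ₗ[R] Ch R X)
  | 0 => LinearMap.id
  | k + 1 => (Nr k).comp (LinearMap.id - zc k)

theorem Nr_zero (c : Ch R X) : Nr 0 c = c := rfl

theorem Nr_succ (k : ℕ) (c : Ch R X) : Nr (k + 1) c = Nr k (c - zc k c) := rfl

theorem dface_Nr_of_le (k : ℕ) : ∀ {l : ℕ}, k ≤ l → ∀ c : Ch R X,
    dface l (Nr k c) = Nr k (dface l c) := by
  induction k with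
  | zero => intro l _ c; rfl
  | succ k ih =>
    intro l hl c
    rw [Nr_succ, Nr_succ, ih (by omega), map_sub, dface_zc_lt (by omega)]

theorem dface_Nr (k : ℕ) : ∀ {l : ℕ}, l < k + 1 → ∀ c : Ch R X,
    dface l (Nr (k + 1) c) = Nr k (dface l c) := by
  induction k with
  | zero =>
    intro l hl c
    obtain rfl : l = 0 := by omega
    rw [Nr_succ, Nr_zero, Nr_zero, map_sub, dface_zc_self, sub_zero]
  | succ k ih =>
    intro l hl c
    rcases Nat.lt_succ_iff_lt_or_eq.1 hl with h | h
    · rw [Nr_succ, ih h, Nr_succ, map_sub, dface_zc_gt (by omega)]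
    · subst h
      rw [Nr_succ, dface_Nr_of_le (k + 1) le_rfl, map_sub, dface_zc_self, sub_zero]

theorem bd_Nr (k : ℕ) (c : Ch R X) :
    bd ((k : ℤ) + 1) (Nr (k + 1) c) = Nr k (bd ((k : ℤ) + 1) c) := by
  rw [bd_apply', bd_apply', show ((k : ℤ) + 1).toNat = k + 1 by omega, map_sum]
  refine Finset.sum_congr rfl fun i hi => ?_
  rw [Finset.mem_range] at hi
  rw [dface_Nr k hi, map_smul]

/-- The normalisation kills what does not depend on one of the coordinates. -/
theorem Nr_eq_zero (k : ℕ) : ∀ {i : ℕ}, i < k → ∀ c : Ch R X, zc i c = c → Nr k c = 0 := by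
  induction k with
  | zero => intro i hi; omega
  | succ k ih =>
    intro i hi c hc
    rw [Nr_succ]
    rcases Nat.lt_succ_iff_lt_or_eq.1 hi with h | h
    · refine ih h _ ?_
      rw [map_sub, zc_comm, hc]
    · subst h
      rw [hc, sub_self, map_zero]

theorem comp_zr_of_dependsOn {σ : C(Cb, X)} {i : ℕ} (h : DependsOn (σ : Cb → X) {j | j ≠ i}) :
    σ.comp (zr i) = σ := by
  ext u
  exact h fun j hj => zr_ne hj u

theorem Nr_degen {k : ℕ} {σ : C(Cb, X)} (h : Degen (k : ℤ) σ) (r : R) :
    Nr k (Finsupp.single σ r) = 0 := by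
  obtain ⟨i, hi, h⟩ := h
  refine Nr_eq_zero k (i := i) (by exact_mod_cast hi) _ ?_
  rw [zc_single, comp_zr_of_dependsOn h]

theorem isCube_zr {k : ℤ} {σ : C(Cb, X)} (h : IsCube k σ) (i : ℕ) : IsCube k (σ.comp (zr i)) := by
  refine ⟨h.1, dependsOn_comp_right h.2 fun x y hxy j hj => ?_⟩
  by_cases hj' : j = i
  · subst hj'
    rw [zr_self, zr_self]
  · rw [zr_ne hj', zr_ne hj']
    exact hxy j hj

theorem zc_mem_C {k : ℤ} (i : ℕ) {c : Ch R X} (hc : c ∈ C R k Set.univ) :
    zc i c ∈ C R k Set.univ := by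
  refine map_mem_of_supported (zc i) _ (fun σ hσ => ?_) hc
  rw [zc_single]
  exact mem_C_single (isCube_zr hσ.1 i) (fun _ => Set.mem_univ _) _

theorem Nr_mem_C {k : ℤ} (n : ℕ) : ∀ {c : Ch R X}, c ∈ C R k Set.univ →
    Nr n c ∈ C R k Set.univ := by
  induction n with
  | zero => intro c hc; exact hc
  | succ n ih =>
    intro c hc
    rw [Nr_succ]
    exact ih (Submodule.sub_mem _ hc (zc_mem_C n hc))

/-- The normalisation kills the `k`-chains which are zero relative to the empty set. -/
theorem Nr_Q (k : ℕ) {c : Ch R X} (hc : c ∈ Q R (k : ℤ) (∅ : Set X)) : Nr k c = 0 := by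
  have h := map_eq_of_supported (Nr k) (0 : Ch R X →ₗ[R] Ch R X) (fun σ hσ => ?_) hc
  · simpa using h
  rw [LinearMap.zero_apply]
  rcases hσ.2 with h | h
  · exact (h 0).elim
  · exact Nr_degen h 1

/-- The normalisation of a cube all of whose faces `u i = 0` are constant. -/
theorem Nr_const (x0 : X) {σ : C(Cb, X)} (k : ℕ)
    (h : ∀ i < k + 1, σ.comp (zr i) = ContinuousMap.const Cb x0) :
    Nr (k + 1) (Finsupp.single σ (1 : R)) =
      Finsupp.single σ 1 - Finsupp.single (ContinuousMap.const Cb x0) 1 := by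
  induction k with
  | zero => rw [Nr_succ, Nr_zero, zc_single, h 0 (by omega)]
  | succ k ih =>
    rw [Nr_succ, zc_single, h (k + 1) (by omega), map_sub, ih fun i hi => h i (by omega),
      Nr_eq_zero (k + 1) (i := 0) (by omega) (Finsupp.single (ContinuousMap.const Cb x0) (1 : R)),
      sub_zero]
    rw [zc_single]
    rfl

end CubeHom
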