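import Pool.Agent.Lib.MP_cb6a70_gt_HB.Cross
import Pool.Agent.Lib.MP_cb6a70_gt_HB.Fills
import Pool.Agent.Lib.MP_cb6a70_gt_HB.Deform
import Pool.Agent.Lib.MP_cb6a70_gt_HB.Nrm
import Pool.Agent.Lib.MP_cb6a70_gt_HB.HAT
import Pool.Agent.Lib.MP_cb6a70_gt_HB.Low

/-!
# Hurewicz: in a simply connected acyclic space all cube boundaries fill
-/

namespace CubeHom

section
variable {X : Type*} [TopologicalSpace X]

/-- Extension by zero of the points of the `n`-cube. -/
def exC (n : ℕ) : C(Fin n → I, Cb) where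
  toFun v := fun l => if h : l < n then v ⟨l, h⟩ else 0
  continuous_toFun := by
    refine continuous_pi fun l => ?_
    by_cases h : l < n
    · simpa [h] using continuous_apply _
    · simpa [h] using continuous_const

theorem exC_apply {n : ℕ} (v : Fin n → I) (i : Fin n) : exC n v i = v i := by
  simp [exC]

theorem exC_of_le {n : ℕ} (v : Fin n → I) {l : ℕ} (h : n ≤ l) : exC n v l = 0 := by
  simp [exC, Nat.not_lt.2 h]

/-- Restriction to the first `n` coordinates. -/
def reC (n : ℕ) : C(Cb, Fin n → I) where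
  toFun u := fun i => u i
  continuous_toFun := continuous_pi fun _ => continuous_apply _

theorem reC_exC (n : ℕ) (v : Fin n → I) : reC n (exC n v) = v := by
  funext i
  exact exC_apply v i

theorem exC_insertNth {n : ℕ} (i : Fin (n + 1)) (e : I) (v : Fin n → I) :
    exC (n + 1) (i.insertNth e v) = ins i e (exC n v) := by
  funext l
  rcases Nat.lt_or_ge l (n + 1) with hl | hl
  · obtain ⟨m, rfl⟩ : ∃ m : Fin (n + 1), l = m := ⟨⟨l, hl⟩, rfl⟩
    rw [exC_apply]
    rcases Fin.eq_self_or_eq_succAbove i m with rfl | ⟨m', rfl⟩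
    · rw [Fin.insertNth_apply_same, ins_apply_self]
    · rw [Fin.insertNth_apply_succAbove]
      rcases lt_or_ge m'.castSucc i with h | h
      · rw [Fin.succAbove_of_castSucc_lt _ _ h, ins_apply_lt (by
          rw [Fin.lt_def] at h
          exact h)]
        exact (exC_apply v m').symm
      · rw [Fin.succAbove_of_le_castSucc _ _ h, ins_apply_gt (by
          rw [Fin.le_def] at h
          simp only [Fin.val_castSucc] at h
          simp only [Fin.val_succ]
          omega), Fin.val_succ, Nat.add_sub_cancel]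
        exact (exC_apply v m').symm
  · rw [exC_of_le _ hl, ins_apply_gt (by omega), exC_of_le _ (by omega)]

theorem exists_ins (u : Cb) (i : ℕ) : ∃ w : Cb, ins i (u i) w = u := by
  refine ⟨fun l => if l < i then u l else u (l + 1), ?_⟩
  funext l
  rcases lt_trichotomy l i with h | h | h
  · rw [ins_apply_lt h, if_pos h]
  · subst h
    rw [ins_apply_self]
  · rw [ins_apply_gt h, if_neg (by omega)]
    congr 1
    omega

theorem pt_cases {x : I} (h : x = 0 ∨ x = 1) : ∃ e, x = pt e := by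
  rcases h with rfl | rfl
  · exact ⟨false, rfl⟩
  · exact ⟨true, rfl⟩

/-- Two consecutive insertions at the start. -/
theorem ins_succ_zero (i : ℕ) (e t : I) (w : Cb) :
    ins 0 t (ins i e w) = ins (i + 1) e (ins 0 t w) :=
  congrArg (fun f : C(Cb, Cb) => f w) (ins_ins (Nat.zero_le i) e t)

end

section
variable {X : Type*} [TopologicalSpace X] {x0 : X} {j : ℕ}

/-- The top of the deformed cube. -/
noncomputable def top (x0 : X) (j m : ℕ) (σ : C(Cb, X)) : C(Cb, X) :=
  (DD x0 j m σ).comp (ins 0 (pt true))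

theorem top_succ_face (hF : ∀ m < j, Fills X (m + 1)) {m : ℕ} {σ : C(Cb, X)}
    (hσ : IsCube ((m + 1 : ℕ) : ℤ) σ) {i : ℕ} (hi : i < m + 1) (e : Bool) :
    (top x0 j (m + 1) σ).comp (ins i (pt e)) = top x0 j m (σ.comp (ins i (pt e))) := by
  unfold top
  rw [← ins_ins_comp (Nat.zero_le i), (DD_succ hF m σ hσ).2.2.1 i hi e]

theorem isCube_face {m : ℕ} {σ : C(Cb, X)}
    (hσ : IsCube ((m + 1 : ℕ) : ℤ) σ) {i : ℕ} (hi : i < m + 1) (e : I) :
    IsCube (m : ℤ) (σ.comp (ins i e)) := by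
  have := hσ.face (i := i) (by push_cast; omega) e
  rwa [show (((m + 1 : ℕ) : ℤ)) - 1 = m by push_cast; ring] at this

/-- The faces of the top are constant. -/
theorem top_bdry (hF : ∀ m < j + 1, Fills X (m + 1)) {σ : C(Cb, X)}
    (hσ : IsCube ((j + 1 : ℕ) : ℤ) σ) {v : Fin (j + 1) → I} {i : Fin (j + 1)}
    (hi : v i = 0 ∨ v i = 1) :
    top x0 (j + 1) (j + 1) σ (exC (j + 1) v) = x0 := by
  obtain ⟨e, he⟩ := pt_cases hi
  obtain ⟨w, hw⟩ := exists_ins (exC (j + 1) v) i
  rw [exC_apply, he] at hw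
  rw [← hw]
  have h1 := top_succ_face (x0 := x0) hF hσ i.2 e
  have h2 : top x0 (j + 1) j (σ.comp (ins i (pt e))) = ContinuousMap.const Cb x0 := by
    have hc := isCube_face hσ i.2 (pt e)
    rcases j with _ | j
    · exact (DD_zero hF _ hc).2.2.2.1 (by omega)
    · exact (DD_succ hF j _ hc).2.2.2.1 (by omega)
  rw [h2] at h1
  exact congrArg (fun f : C(Cb, X) => f w) h1

/-- The top as a generalised loop. -/
noncomputable def topLoop (hF : ∀ m < j + 1, Fills X (m + 1)) (σ : C(Cb, X))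
    (hσ : IsCube ((j + 1 : ℕ) : ℤ) σ) : GenLoop (Fin (j + 1)) X x0 :=
  ⟨(top x0 (j + 1) (j + 1) σ).comp (exC (j + 1)), fun _ ⟨_, hi⟩ => top_bdry hF hσ hi⟩

theorem topLoop_apply (hF : ∀ m < j + 1, Fills X (m + 1)) (σ : C(Cb, X))
    (hσ : IsCube ((j + 1 : ℕ) : ℤ) σ) (v : Fin (j + 1) → I) :
    topLoop (x0 := x0) hF σ hσ v = top x0 (j + 1) (j + 1) σ (exC (j + 1) v) := rfl

variable [Nontrivial (Fin (j + 1))]

open Classical in
/-- The obstruction class of a cube. -/
noncomputable def ob (hF : ∀ m < j + 1, Fills X (m + 1)) (x0 : X) (σ : C(Cb, X)) :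
    Additive (HomotopyGroup (Fin (j + 1)) X x0) :=
  if hσ : IsCube ((j + 1 : ℕ) : ℤ) σ then Hat.cls (topLoop (x0 := x0) hF σ hσ) else 0

/-- The obstruction class of a chain. -/
noncomputable def Ob (hF : ∀ m < j + 1, Fills X (m + 1)) (x0 : X) :
    Ch ℤ X →ₗ[ℤ] Additive (HomotopyGroup (Fin (j + 1)) X x0) :=
  Finsupp.lift _ ℤ _ (ob hF x0)

theorem Ob_single (hF : ∀ m < j + 1, Fills X (m + 1)) (σ : C(Cb, X)) :
    Ob hF x0 (Finsupp.single σ 1) = ob hF x0 σ := by
  simp [Ob]

/-- The obstruction class vanishes on boundaries. -/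
theorem Ob_bd (hF : ∀ m < j + 1, Fills X (m + 1)) {b : Ch ℤ X}
    (hb : b ∈ C ℤ ((j + 1 + 1 : ℕ) : ℤ) (Set.univ : Set X)) :
    Ob hF x0 (bd ((j + 1 + 1 : ℕ) : ℤ) b) = 0 := by
  have h := map_eq_of_supported ((Ob hF x0).comp (bd ((j + 1 + 1 : ℕ) : ℤ))) 0
    (fun σ hσ => ?_) hb
  · simpa using h
  obtain ⟨hσ, -⟩ := hσ
  rw [LinearMap.comp_apply, LinearMap.zero_apply, bd_apply, Int.toNat_natCast, map_sum]
  have hc : ∀ (i : Fin (j + 1 + 1)) (e : Bool),
      IsCube ((j + 1 : ℕ) : ℤ) (σ.comp (ins i (pt e))) := fun i e => isCube_face hσ i.2 _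
  have hτ : ∀ (i : Fin (j + 1 + 1)) (e : Bool) (v : Fin (j + 1) → I),
      topLoop (x0 := x0) hF _ (hc i e) v =
        ((top x0 (j + 1) (j + 1 + 1) σ).comp (exC (j + 1 + 1))) (i.insertNth (pt e) v) := by
    intro i e v
    rw [topLoop_apply, ← top_succ_face hF hσ i.2 e, ContinuousMap.comp_apply,
      ContinuousMap.comp_apply, exC_insertNth]
  have hat' := hat (x0 := x0) ((top x0 (j + 1) (j + 1 + 1) σ).comp (exC (j + 1 + 1)))
    (fun u i l hil hi hl => ?_) (fun i e => topLoop (x0 := x0) hF _ (hc i e)) hτ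
  · rw [Finset.sum_range, ← hat']
    refine Finset.sum_congr rfl fun i _ => ?_
    rw [map_smul, map_sub, face_single, face_single, Ob_single, Ob_single]
    have h1 : ∀ e, ob hF x0 (σ.comp (ins i (pt e))) =
        Hat.cls (topLoop (x0 := x0) hF _ (hc i e)) := fun e => by
      rw [ob, dif_pos (hc i e)]
    exact congrArg₂ (fun a b => (-1 : ℤ) ^ (i : ℕ) • (a - b)) (h1 true) (h1 false)
  · obtain ⟨e, he⟩ := pt_cases hi
    obtain ⟨m, rfl⟩ := Fin.exists_succAbove_eq hil.symm
    have h2 := hτ i e (i.removeNth u)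
    have h3 : i.insertNth (pt e) (i.removeNth u) = u := by
      rw [← he, Fin.insertNth_self_removeNth]
    rw [h3] at h2
    rw [← h2]
    exact (topLoop (x0 := x0) hF _ (hc i e)).2 _ ⟨m, hl⟩

omit [Nontrivial (Fin (j + 1))]

/-- The loop of a generalised loop, as a cube. -/
def glCube (f : GenLoop (Fin (j + 1)) X x0) : C(Cb, X) := f.1.comp (reC (j + 1))

theorem glCube_isCube (f : GenLoop (Fin (j + 1)) X x0) :
    IsCube ((j + 1 : ℕ) : ℤ) (glCube f) := by
  refine ⟨by omega, fun x y hxy => ?_⟩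
  have : reC (j + 1) x = reC (j + 1) y := by
    funext i
    exact hxy i (by simp only [Set.mem_ofPred_eq]; have := i.2; omega)
  exact congrArg f this

theorem glCube_const (f : GenLoop (Fin (j + 1)) X x0) {g : C(Cb, Cb)} {i : ℕ} (hi : i < j + 1)
    (hg : ∀ u, g u i = 0 ∨ g u i = 1) : (glCube f).comp g = ContinuousMap.const Cb x0 := by
  ext u
  exact f.2 _ ⟨⟨i, hi⟩, hg u⟩

theorem glCube_zr (f : GenLoop (Fin (j + 1)) X x0) {i : ℕ} (hi : i < j + 1) :
    (glCube f).comp (zr i) = ContinuousMap.const Cb x0 :=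
  glCube_const f hi fun u => Or.inl (zr_self i u)

theorem glCube_ins (f : GenLoop (Fin (j + 1)) X x0) {i : ℕ} (hi : i < j + 1) (e : Bool) :
    (glCube f).comp (ins i (pt e)) = ContinuousMap.const Cb x0 :=
  glCube_const f hi fun u => by
    rw [ins_apply_self]
    cases e
    · exact Or.inl rfl
    · exact Or.inr rfl

theorem glCube_Z (f : GenLoop (Fin (j + 1)) X x0) :
    (Finsupp.single (glCube f) 1 : Ch ℤ X) ∈ Z ℤ ((j + 1 : ℕ) : ℤ) (Set.univ : Set X) ∅ := by
  refine ⟨mem_C_single (glCube_isCube f) (fun _ => Set.mem_univ _) _, ?_⟩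
  show bd ((j + 1 : ℕ) : ℤ) (Finsupp.single (glCube f) 1 : Ch ℤ X) ∈ Q ℤ _ ∅
  have h : bd ((j + 1 : ℕ) : ℤ) (Finsupp.single (glCube f) 1 : Ch ℤ X) = 0 := by
    rw [bd_apply, Int.toNat_natCast]
    refine Finset.sum_eq_zero fun i hi => ?_
    rw [Finset.mem_range] at hi
    have h1 : (glCube f).comp (ins i 1) = ContinuousMap.const Cb x0 := glCube_ins f hi true
    have h0 : (glCube f).comp (ins i 0) = ContinuousMap.const Cb x0 := glCube_ins f hi false
    rw [face_single, face_single, h1, h0, sub_self, smul_zero]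
  rw [h]
  exact Submodule.zero_mem _

/-- A generalised loop is homotopic to the top of its deformation. -/
theorem top_homotopic (hF : ∀ m < j + 1, Fills X (m + 1)) (f : GenLoop (Fin (j + 1)) X x0) :
    GenLoop.Homotopic f (topLoop hF (glCube f) (glCube_isCube f)) := by
  have hst := DD_succ (x0 := x0) hF j (glCube f) (glCube_isCube f)
  let H : C(I × (Fin (j + 1) → I), X) :=
    ⟨fun p => DD x0 (j + 1) (j + 1) (glCube f) (ins 0 p.1 (exC (j + 1) p.2)), by
      refine (DD x0 (j + 1) (j + 1) (glCube f)).continuous.comp (continuous_pi fun l => ?_)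
      rcases l with _ | l
      · simpa [ins] using continuous_fst
      · have h1 : Continuous fun p : I × (Fin (j + 1) → I) => exC (j + 1) p.2 l :=
          (continuous_apply l).comp ((exC (j + 1)).continuous.comp continuous_snd)
        simpa [ins] using h1⟩
  have hH : ∀ t v, H (t, v) = DD x0 (j + 1) (j + 1) (glCube f) (ins 0 t (exC (j + 1) v)) :=
    fun _ _ => rfl
  refine Hat.homotopic_of H (fun u => ?_) (fun u => rfl) (fun t u ⟨i, hi⟩ => ?_)
  · have h1 := congrArg (fun g : C(Cb, X) => g (exC (j + 1) u)) hst.2.1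
    rw [hH]
    refine Eq.trans h1 ?_
    show f (reC (j + 1) (exC (j + 1) u)) = f u
    rw [reC_exC]
  · obtain ⟨e, he⟩ := pt_cases hi
    obtain ⟨w, hw⟩ := exists_ins (exC (j + 1) u) i
    rw [exC_apply, he] at hw
    rw [hH, ← hw, ins_succ_zero]
    have h1 := congrArg (fun g : C(Cb, X) => g (ins 0 t w)) (hst.2.2.1 i i.2 e)
    refine Eq.trans h1 ?_
    rw [glCube_ins f i.2 e]
    have h2 : DD x0 (j + 1) j (ContinuousMap.const Cb x0) = ContinuousMap.const Cb x0 := by
      rcases j with _ | j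
      · exact (DD_zero hF _ (isCube_const 0 x0)).2.2.2.2 rfl
      · exact (DD_succ hF j _ (isCube_const (j + 1) x0)).2.2.2.2 rfl
    rw [h2]
    rfl

/-- The homotopy group in degree `j + 1 ≥ 2` vanishes. -/
theorem pi_zero [Nontrivial (Fin (j + 1))] (hF : ∀ m < j + 1, Fills X (m + 1))
    (hH : ∀ c ∈ Z ℤ ((j + 1 : ℕ) : ℤ) (Set.univ : Set X) ∅,
      Bd ℤ ((j + 1 : ℕ) : ℤ) Set.univ ∅ c) (f : GenLoop (Fin (j + 1)) X x0) :
    GenLoop.Homotopic f GenLoop.const := by
  obtain ⟨b, hb, hq⟩ := hH _ (glCube_Z f)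
  have h1 : Nr (j + 1) (Finsupp.single (glCube f) 1 - bd (((j + 1 : ℕ) : ℤ) + 1) b : Ch ℤ X) = 0 :=
    Nr_Q (j + 1) hq
  rw [map_sub, ← bd_Nr, Nr_const x0 j fun i hi => glCube_zr f hi, sub_eq_zero] at h1
  have h2 : (Nr (j + 1 + 1) b) ∈ C ℤ ((j + 1 + 1 : ℕ) : ℤ) (Set.univ : Set X) :=
    Nr_mem_C _ (by exact_mod_cast hb)
  have h3 := Ob_bd (x0 := x0) hF h2
  rw [show (((j + 1 + 1 : ℕ) : ℤ)) = ((j + 1 : ℕ) : ℤ) + 1 by push_cast; ring, ← h1, map_sub,
    Ob_single, Ob_single, sub_eq_zero] at h3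
  have h4 : ob hF x0 (glCube f) = Hat.cls f := by
    rw [ob, dif_pos (glCube_isCube f)]
    exact (Hat.cls_eq (top_homotopic hF f)).symm
  have h5 : ob hF x0 (ContinuousMap.const Cb x0) = Hat.cls (GenLoop.const : GenLoop _ X x0) := by
    rw [ob, dif_pos (isCube_const (j + 1) x0)]
    congr 1
    refine GenLoop.ext _ _ fun v => ?_
    rw [topLoop_apply, top]
    have h6 := (DD_succ (x0 := x0) hF j _ (isCube_const (j + 1) x0)).2.2.2.2 rfl
    rw [h6]
    rfl
  rw [h4, h5] at h3
  exact Quotient.exact (Additive.ofMul.injective h3)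

end

/-- **Main theorem of this file.** -/
theorem fills_of_acyclic {X : Type} [TopologicalSpace X] [SimplyConnectedSpace X]
    (hH : ∀ k : ℤ, 1 ≤ k → ∀ c ∈ Z ℤ k (Set.univ : Set X) ∅, Bd ℤ k Set.univ ∅ c) (m : ℕ) :
    Fills X m := by
  induction m using Nat.strong_induction_on with
  | _ m ih =>
    rcases m with _ | m
    · exact fills_zero
    rcases m with _ | m
    · exact fills_one
    rcases m with _ | j
    · exact fills_two
    refine fills_of_pi fun x0 f => ?_
    have : Nontrivial (Fin (j + 1 + 1)) := inferInstance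
    exact pi_zero (j := j + 1) (fun m hm => ih (m + 1) (by omega))
      (hH _ (by push_cast; omega)) f

end CubeHom
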