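import Pool.Agent.Lib.MP_cb6a70_gt_HB.Degree
import Pool.Agent.Lib.MP_cb6a70_gt_HB.Calc

/-!
# Two cycles of coprime degrees: the punctured space is acyclic
-/

namespace CubeHom

namespace Punct

variable {X : Type*} [TopologicalSpace X] (R : Type*) [CommRing R]

/-- Change of coefficients. -/
noncomputable def chg : Ch ℤ X →+ Ch R X := Finsupp.mapRange.addMonoidHom (Int.castAddHom R)

@[simp] theorem chg_single (σ : C(Cb, X)) (r : ℤ) :
    chg R (Finsupp.single σ r) = Finsupp.single σ (r : R) := by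
  simp [chg]

theorem chg_apply (c : Ch ℤ X) (σ : C(Cb, X)) : chg R c σ = (c σ : R) := by
  simp [chg]

theorem chg_smul (r : ℤ) (c : Ch ℤ X) : chg R (r • c) = (r : R) • chg R c := by
  ext σ
  rw [chg_apply, Finsupp.smul_apply, Finsupp.smul_apply, chg_apply, smul_eq_mul, smul_eq_mul,
    Int.cast_mul]

theorem chg_face (i : ℕ) (e : I) (c : Ch ℤ X) : face i e (chg R c) = chg R (face i e c) := by
  have h : ((face (R := R) (X := X) i e).toAddMonoidHom).comp (chg R) =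
      (chg R).comp (face (R := ℤ) i e).toAddMonoidHom := by
    refine Finsupp.addHom_ext fun σ r => ?_
    simp only [AddMonoidHom.comp_apply, LinearMap.toAddMonoidHom_coe, chg_single]
    unfold face
    simp [Finsupp.mapDomain_single]
  exact DFunLike.congr_fun h c

theorem chg_bd (k : ℤ) (c : Ch ℤ X) : bd k (chg R c) = chg R (bd k c) := by
  rw [bd_apply, bd_apply, map_sum]
  refine Finset.sum_congr rfl fun i _ => ?_
  rw [chg_smul, map_sub, chg_face, chg_face]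
  push_cast
  rfl

theorem chg_mem {S : Set (C(Cb, X))} {c : Ch ℤ X} (hc : c ∈ Finsupp.supported ℤ ℤ S) :
    chg R c ∈ Finsupp.supported R R S := by
  rw [Finsupp.mem_supported] at hc ⊢
  intro σ hσ
  apply hc
  rw [Finset.mem_coe, Finsupp.mem_support_iff] at hσ ⊢
  intro h
  rw [chg_apply, h, Int.cast_zero] at hσ
  exact hσ rfl

theorem mem_of_chg {S : Set (C(Cb, X))} (hinj : Function.Injective (Int.cast : ℤ → R))
    {c : Ch ℤ X} (hc : chg R c ∈ Finsupp.supported R R S) : c ∈ Finsupp.supported ℤ ℤ S := by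
  rw [Finsupp.mem_supported] at hc ⊢
  intro σ hσ
  apply hc
  rw [Finset.mem_coe, Finsupp.mem_support_iff] at hσ ⊢
  rw [chg_apply]
  intro h
  exact hσ (hinj (h.trans Int.cast_zero.symm))

theorem chg_Bd {k : ℤ} {U A : Set X} {c : Ch ℤ X} (h : Bd ℤ k U A c) : Bd R k U A (chg R c) := by
  obtain ⟨b, hb, h⟩ := h
  refine ⟨chg R b, chg_mem R hb, ?_⟩
  rw [chg_bd, ← map_sub]
  exact chg_mem R h

theorem chg_Z {k : ℤ} {U A : Set X} {c : Ch ℤ X} (h : c ∈ Z ℤ k U A) : chg R c ∈ Z R k U A := by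
  refine ⟨chg_mem R h.1, ?_⟩
  change bd k (chg R c) ∈ Q R (k - 1) A
  rw [chg_bd]
  exact chg_mem R h.2

theorem chg_diffCh {n : ℕ} (f h : C(Fin n → unitInterval, X)) :
    chg R (diffCh ℤ f h) = diffCh R f h := by
  unfold diffCh
  rw [map_sub, chg_single, chg_single, Int.cast_one]

theorem chg_locCh {n : ℕ} {S : Set X} (φ : S ≃ₜ (Fin n → ℝ)) :
    chg R (locCh ℤ φ) = locCh R φ := by
  unfold locCh
  rw [chg_single, Int.cast_one]

end Punct

section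

variable {X : Type*} [TopologicalSpace X]

/-- Clearing denominators. -/
theorem Punct.exists_int {R : Type*} [CommRing R] {a : ℤ}
    (hR : ∀ r : R, ∃ (N : ℕ) (z : ℤ), (z : R) = (a : R) ^ N * r) (b : Ch R X) :
    ∃ (N : ℕ) (b' : Ch ℤ X), Punct.chg R b' = ((a : R) ^ N) • b := by
  induction b using Finsupp.induction_linear with
  | zero => exact ⟨0, 0, by rw [map_zero, smul_zero]⟩
  | add b₁ b₂ h₁ h₂ =>
    obtain ⟨N₁, c₁, h₁⟩ := h₁
    obtain ⟨N₂, c₂, h₂⟩ := h₂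
    refine ⟨N₁ + N₂, (a ^ N₂) • c₁ + (a ^ N₁) • c₂, ?_⟩
    rw [map_add, Punct.chg_smul, Punct.chg_smul, h₁, h₂, smul_smul, smul_smul, smul_add,
      Int.cast_pow, Int.cast_pow, ← pow_add, ← pow_add, add_comm N₂ N₁]
  | single σ r =>
    obtain ⟨N, z, h⟩ := hR r
    refine ⟨N, Finsupp.single σ z, ?_⟩
    rw [Punct.chg_single, Finsupp.smul_single, smul_eq_mul, h]

/-- Descent of bounding. -/
theorem Punct.descend {R : Type*} [CommRing R] {a : ℤ}
    (hinj : Function.Injective (Int.cast : ℤ → R))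
    (hR : ∀ r : R, ∃ (N : ℕ) (z : ℤ), (z : R) = (a : R) ^ N * r) {k : ℤ} {A : Set X} {c : Ch ℤ X}
    (h : Bd R k Set.univ A (Punct.chg R c)) :
    ∃ N : ℕ, Bd ℤ k Set.univ A ((a ^ N) • c) := by
  obtain ⟨b, hb, h⟩ := h
  obtain ⟨N, b', hb'⟩ := Punct.exists_int hR b
  refine ⟨N, b', ?_, ?_⟩
  · refine Punct.mem_of_chg _ hinj ?_
    rw [hb']
    exact Submodule.smul_mem _ _ hb
  · refine Punct.mem_of_chg _ hinj ?_
    rw [map_sub, Punct.chg_smul, ← Punct.chg_bd, hb', map_smul, Int.cast_pow, ← smul_sub]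
    exact Submodule.smul_mem _ _ h

theorem Punct.cast_injective {a : ℤ} (ha : a ≠ 0) :
    Function.Injective (Int.cast : ℤ → Localization.Away a) := by
  have h := IsLocalization.injective (Localization.Away a)
    (powers_le_nonZeroDivisors_of_noZeroDivisors ha)
  intro x y hxy
  apply h
  rwa [eq_intCast, eq_intCast]

theorem Punct.exists_num (a : ℤ) (r : Localization.Away a) :
    ∃ (N : ℕ) (z : ℤ), (z : Localization.Away a) = (a : Localization.Away a) ^ N * r := by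
  obtain ⟨⟨z, s, hs⟩, h⟩ := IsLocalization.surj (Submonoid.powers a) r
  obtain ⟨N, rfl⟩ := hs
  refine ⟨N, z, ?_⟩
  simp only at h
  rw [eq_intCast, eq_intCast, Int.cast_pow] at h
  rw [← h, mul_comm]

theorem Punct.combine {k : ℤ} {U A : Set X} {c : Ch ℤ X} {a b : ℕ} (hab : Nat.Coprime a b)
    (h₁ : (a : ℤ) ≠ 0 → ∃ N : ℕ, Bd ℤ k U A (((a : ℤ) ^ N) • c))
    (h₂ : (b : ℤ) ≠ 0 → ∃ N : ℕ, Bd ℤ k U A (((b : ℤ) ^ N) • c)) : Bd ℤ k U A c := by
  by_cases ha : (a : ℤ) = 0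
  · have hb : b = 1 := by
      have ha' : a = 0 := by exact_mod_cast ha
      rw [ha'] at hab
      exact (Nat.coprime_zero_left b).1 hab
    obtain ⟨N, h⟩ := h₂ (by rw [hb]; norm_num)
    rw [hb] at h
    simpa using h
  by_cases hb : (b : ℤ) = 0
  · have ha : a = 1 := by
      have hb' : b = 0 := by exact_mod_cast hb
      rw [hb'] at hab
      exact (Nat.coprime_zero_right a).1 hab
    obtain ⟨N, h⟩ := h₁ (by rw [ha]; norm_num)
    rw [ha] at h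
    simpa using h
  obtain ⟨N, h₁⟩ := h₁ ha
  obtain ⟨M, h₂⟩ := h₂ hb
  have hcop : IsCoprime ((a : ℤ) ^ N) ((b : ℤ) ^ M) :=
    IsCoprime.pow (Nat.isCoprime_iff_coprime.2 hab)
  obtain ⟨u, v, huv⟩ := hcop
  have h3 := (h₁.smul u).add (h₂.smul v)
  rwa [smul_smul, smul_smul, ← add_smul, huv, one_smul] at h3

end

section

variable {n : ℕ} {Y : Type*} [TopologicalSpace Y] [T2Space Y]

omit [T2Space Y] in
theorem Punct.inChart_zero {S : Set Y} (φ : S ≃ₜ (Fin n → ℝ)) {y : Y} (hy : y ∈ S)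
    (h0 : φ ⟨y, hy⟩ = 0) : inChart φ {0} = {y} := by
  unfold inChart
  rw [Set.image_singleton]
  congr 1
  have h1 : φ.symm 0 = ⟨y, hy⟩ := by rw [← h0, Homeomorph.symm_apply_apply]
  rw [h1]

theorem Punct.loc_gen' {R : Type*} [CommRing R] {S : Set Y} (hS : IsOpen S)
    (φ : S ≃ₜ (Fin n → ℝ)) {y : Y} (hy : y ∈ S) (h0 : φ ⟨y, hy⟩ = 0) {w : Ch R Y}
    (hw : w ∈ Z R n Set.univ ({y}ᶜ : Set Y)) :
    ∃ r : R, Bd R n Set.univ ({y}ᶜ : Set Y) (w - r • locCh R φ) := by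
  have h1 := Punct.inChart_zero φ hy h0
  have h2 := loc_gen (R := R) hS φ (K := {0}) isCompact_singleton (convex_singleton 0)
    (Set.singleton_nonempty 0) (by
      intro x hx i
      rw [Set.mem_singleton_iff] at hx
      rw [hx]
      simp) (w := w) (by rw [h1]; exact hw)
  rw [h1] at h2
  exact h2

theorem Punct.locGen {R : Type*} [CommRing R] {f h : C(Fin n → unitInterval, Y)} {a : ℕ}
    (hd : ∀ y, AbsDeg n (diffCh ℤ f h) y a) (hu : IsUnit (((a : ℤ) : ℤ) : R)) :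
    LocGen n (diffCh R f h) := by
  intro y w hw
  obtain ⟨S, hS, φ, hy, h0, r, hr, hBd⟩ := hd y
  obtain ⟨s, hs⟩ := Punct.loc_gen' hS φ hy h0 hw
  have h1 := Punct.chg_Bd R hBd
  rw [map_sub, Punct.chg_smul, Punct.chg_diffCh, Punct.chg_locCh] at h1
  have hru : IsUnit (r : R) := by
    rcases Int.natAbs_eq r with h2 | h2
    · rw [h2, hr]; exact hu
    · rw [h2, hr, Int.cast_neg]; exact hu.neg
  obtain ⟨v, hv⟩ := hru.exists_left_inv
  refine ⟨s * v, ?_⟩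
  have h2 := hs.sub (h1.smul (s * v))
  have h3 : w - s • locCh R φ - (s * v) • (diffCh R f h - (r : R) • locCh R φ) =
      w - (s * v) • diffCh R f h := by
    rw [smul_sub, smul_smul, mul_assoc, hv, mul_one]
    abel
  rwa [h3] at h2

theorem Punct.surj {f₁ h₁ f₂ h₂ : C(Fin n → unitInterval, Y)} {a b : ℕ}
    (hab : Nat.Coprime a b) (hd₁ : ∀ y, AbsDeg n (diffCh ℤ f₁ h₁) y a)
    (hd₂ : ∀ y, AbsDeg n (diffCh ℤ f₂ h₂) y b) (y : Y) {w : Ch ℤ Y}
    (hw : w ∈ Z ℤ n Set.univ ({y}ᶜ : Set Y)) :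
    ∃ m₁ m₂ : ℤ, Bd ℤ n Set.univ ({y}ᶜ : Set Y)
      (w - (m₁ • diffCh ℤ f₁ h₁ + m₂ • diffCh ℤ f₂ h₂)) := by
  obtain ⟨S₁, hS₁, φ₁, hy₁, h01, r₁, hr₁, hB₁⟩ := hd₁ y
  obtain ⟨S₂, hS₂, φ₂, hy₂, h02, r₂, hr₂, hB₂⟩ := hd₂ y
  obtain ⟨s, hs⟩ := Punct.loc_gen' hS₁ φ₁ hy₁ h01 hw
  obtain ⟨ε, hε, hBε⟩ := loc_change hS₂ hS₁ φ₂ φ₁ hy₂ hy₁
    (by intro i; rw [h02]; simp) (by intro i; rw [h01]; simp)
  have hcop : IsCoprime r₁ (r₂ * ε) := by
    have h1 : IsCoprime r₁ r₂ := by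
      rw [Int.isCoprime_iff_gcd_eq_one, Int.gcd, hr₁, hr₂]
      exact hab
    have h2 : IsCoprime r₁ ε := by
      rcases hε with rfl | rfl
      · exact isCoprime_one_right
      · exact isCoprime_one_right.neg_right
    exact h1.mul_right h2
  obtain ⟨u, v, huv⟩ := hcop
  refine ⟨s * u, s * v, ?_⟩
  have h1 := (hs.sub (hB₁.smul (s * u))).sub ((hB₂.add (hBε.smul r₂)).smul (s * v))
  have h3 : w - s • locCh ℤ φ₁ - (s * u) • (diffCh ℤ f₁ h₁ - r₁ • locCh ℤ φ₁) -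
      (s * v) • (diffCh ℤ f₂ h₂ - r₂ • locCh ℤ φ₂ + r₂ • (locCh ℤ φ₂ - ε • locCh ℤ φ₁)) =
      w - ((s * u) • diffCh ℤ f₁ h₁ + (s * v) • diffCh ℤ f₂ h₂) +
        (s * (u * r₁ + v * (r₂ * ε)) - s) • locCh ℤ φ₁ := by
    module
  rw [h3, huv, mul_one, sub_self, zero_smul, add_zero] at h1
  exact h1

end

/-- If `Y` is a compact locally Euclidean space of dimension `n` with two cycles `[f₁] - [h₁]`,
`[f₂] - [h₂]` of constant coprime absolute degrees, then `Y` minus a point has no homology in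
positive degrees. -/
theorem acyclic_punctured {n : ℕ} (hn : 1 ≤ n) {Y : Type*} [TopologicalSpace Y] [T2Space Y]
    [CompactSpace Y] (hY : LocEuc n Y) {f₁ h₁ f₂ h₂ : C(Fin n → unitInterval, Y)}
    (hb₁ : ∀ u ∈ bdry n, f₁ u = h₁ u) (hb₂ : ∀ u ∈ bdry n, f₂ u = h₂ u)
    {a b : ℕ} (hab : Nat.Coprime a b) (hd₁ : ∀ y, AbsDeg n (diffCh ℤ f₁ h₁) y a)
    (hd₂ : ∀ y, AbsDeg n (diffCh ℤ f₂ h₂) y b) (y : Y) {k : ℤ} (hk : 1 ≤ k)
    {c : Ch ℤ Y} (hc : c ∈ Z ℤ k ({y}ᶜ : Set Y) ∅) : Bd ℤ k ({y}ᶜ : Set Y) ∅ c := by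
  -- homology of `Y`
  have unit : ∀ a : ℕ, IsUnit (((a : ℤ) : ℤ) : Localization.Away (a : ℤ)) := by
    intro a
    have := IsLocalization.Away.algebraMap_isUnit (S := Localization.Away (a : ℤ)) (a : ℤ)
    rwa [eq_intCast] at this
  have van : ∀ (f h : C(Fin n → unitInterval, Y)) (a : ℕ), (∀ u ∈ bdry n, f u = h u) →
      (∀ y, AbsDeg n (diffCh ℤ f h) y a) → ∀ {k : ℤ}, 1 ≤ k → k ≠ n → ∀ {c : Ch ℤ Y},
      c ∈ Z ℤ k Set.univ ∅ → (a : ℤ) ≠ 0 → ∃ N : ℕ, Bd ℤ k Set.univ ∅ (((a : ℤ) ^ N) • c) := by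
    intro f h a hb hd k hk hkn c hc ha
    exact Punct.descend (Punct.cast_injective ha) (Punct.exists_num _) (vanish_of_locGen hn hY hb (Punct.locGen hd (unit a)) hk hkn
      (Punct.chg_Z _ hc))
  have inj : ∀ (f h : C(Fin n → unitInterval, Y)) (a : ℕ), (∀ u ∈ bdry n, f u = h u) →
      (∀ y, AbsDeg n (diffCh ℤ f h) y a) → ∀ {c : Ch ℤ Y}, c ∈ Z ℤ n Set.univ ∅ →
      Bd ℤ n Set.univ ({y}ᶜ : Set Y) c →
      (a : ℤ) ≠ 0 → ∃ N : ℕ, Bd ℤ n Set.univ ∅ (((a : ℤ) ^ N) • c) := by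
    intro f h a hb hd c hc hcy ha
    exact Punct.descend (Punct.cast_injective ha) (Punct.exists_num _) (inj_of_locGen hn hY hb (Punct.locGen hd (unit a))
      (Punct.chg_Z _ hc) (Punct.chg_Bd _ hcy))
  have hcY : c ∈ Z ℤ k Set.univ ∅ := Z_mono (Set.subset_univ _) (Set.Subset.refl _) hc
  have hbound : Bd ℤ k Set.univ ∅ c := by
    by_cases hkn : k = n
    · subst hkn
      have hcy : Bd ℤ n Set.univ ({y}ᶜ : Set Y) c := Bd.of_mem_C hc.1
      exact Punct.combine hab (inj f₁ h₁ a hb₁ hd₁ hcY hcy) (inj f₂ h₂ b hb₂ hd₂ hcY hcy)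
    · exact Punct.combine hab (van f₁ h₁ a hb₁ hd₁ hk hkn hcY) (van f₂ h₂ b hb₂ hd₂ hk hkn hcY)
  obtain ⟨e, he, hce⟩ := hbound
  -- `e` is a relative cycle
  have hbe : bd (k + 1) e ∈ Q ℤ k ({y}ᶜ : Set Y) := by
    have h1 : bd (k + 1) e = c - (c - bd (k + 1) e) := by abel
    rw [h1]
    exact Submodule.sub_mem _ (C_le_Q _ _ hc.1) (Q_mono _ (Set.empty_subset _) hce)
  have heZ : e ∈ Z ℤ (k + 1) Set.univ ({y}ᶜ : Set Y) := by
    refine ⟨he, ?_⟩
    change bd (k + 1) e ∈ Q ℤ (k + 1 - 1) ({y}ᶜ : Set Y)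
    rwa [add_sub_cancel_right]
  -- it is homologous to an absolute cycle
  have habs : ∃ e₀ : Ch ℤ Y, bd (k + 1) e₀ ∈ Q ℤ k (∅ : Set Y) ∧
      e - e₀ ∈ Q ℤ (k + 1) ({y}ᶜ : Set Y) := by
    have hbb : ∀ g : Ch ℤ Y, bd (k + 1) (bd (k + 1 + 1) g) = 0 := by
      intro g
      have h1 := bd_bd (k + 1 + 1) g
      rwa [add_sub_cancel_right] at h1
    by_cases hkn : k + 1 = n
    · rw [hkn] at heZ
      obtain ⟨m₁, m₂, g, hg, hgq⟩ := Punct.surj hab hd₁ hd₂ y heZ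
      rw [← hkn] at hg hgq
      refine ⟨(m₁ • diffCh ℤ f₁ h₁ + m₂ • diffCh ℤ f₂ h₂) + bd (k + 1 + 1) g, ?_, ?_⟩
      · rw [map_add, hbb, add_zero, map_add, map_smul, map_smul]
        have z1 := (diffCh_mem (R := ℤ) hb₁).2
        have z2 := (diffCh_mem (R := ℤ) hb₂).2
        change bd (n : ℤ) _ ∈ Q ℤ ((n : ℤ) - 1) ∅ at z1
        change bd (n : ℤ) _ ∈ Q ℤ ((n : ℤ) - 1) ∅ at z2
        rw [← hkn, add_sub_cancel_right] at z1 z2
        exact Submodule.add_mem _ (Submodule.smul_mem _ _ z1) (Submodule.smul_mem _ _ z2)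
      · rwa [← sub_sub]
    · obtain ⟨S, hS, hy, ⟨φ⟩⟩ := hY y
      have h1 : inChart φ {φ ⟨y, hy⟩} = {y} := by
        unfold inChart
        rw [Set.image_singleton, Homeomorph.symm_apply_apply]
      have h2 := loc_vanish (R := ℤ) hS φ (K := {φ ⟨y, hy⟩}) isCompact_singleton
        (convex_singleton _) (Set.singleton_nonempty _) hkn (w := e) (by rw [h1]; exact heZ)
      rw [h1] at h2
      obtain ⟨g, hg, hgq⟩ := h2
      refine ⟨bd (k + 1 + 1) g, ?_, hgq⟩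
      rw [hbb]
      exact Submodule.zero_mem _
  obtain ⟨e₀, he₀, heq⟩ := habs
  rw [Q_eq_sup, Submodule.mem_sup] at heq
  obtain ⟨q₁, hq₁, q₂, hq₂, hq⟩ := heq
  refine ⟨q₁, hq₁, ?_⟩
  have h1 : c - bd (k + 1) q₁ = (c - bd (k + 1) e) + bd (k + 1) e₀ + bd (k + 1) q₂ := by
    have h2 : q₁ = e - e₀ - q₂ := by rw [← hq]; abel
    rw [h2, map_sub, map_sub]
    abel
  rw [h1]
  have h2 := bd_mem_Q hq₂
  rw [add_sub_cancel_right] at h2
  exact Submodule.add_mem _ (Submodule.add_mem _ hce he₀) h2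

end CubeHom
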