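import Pool.Agent.Lib.MP_cb6a70_gt_HB.Collapse
import Pool.Agent.Lib.MP_cb6a70_gt_HB.Punct
import Pool.Agent.Lib.MP_cb6a70_gt_HB.Hurewicz
import Pool.Agent.Lib.MP_cb6a70_gt_HB.Ane

/-!
# A side with a section and two discs of coprime degrees is contractible
-/

namespace CubeHom

theorem capL_ne_capC {n : ℕ} {M : Type} [TopologicalSpace M]
    {ι : Metric.sphere (0 : EuclideanSpace ℝ (Fin (n + 1))) 1 → M} {X₀ : Set M}
    (hι : Topology.IsEmbedding ι) (x : X₀) : capL ι X₀ x ≠ capC ι X₀ := by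
  intro h
  obtain ⟨s, _, hs⟩ := (capL_eq_capR_iff hι x _).1 h
  have h1 := s.2
  rw [hs, mem_sphere_iff_norm] at h1
  simp at h1

/-- The side is acyclic. -/
theorem acyclic_side {n : ℕ} (hn : 1 ≤ n) {M E : Type} [TopologicalSpace M] [TopologicalSpace E]
    [T2Space M] [T2Space E] [CompactSpace M] (hM : LocEuc (n + 1) M) (hE : LocEuc (n + 1) E)
    {p : E → M} (hp : Continuous p) (P : FlatSphere n M)
    {ι : Metric.sphere (0 : EuclideanSpace ℝ (Fin (n + 1))) 1 → M}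
    (hι : Topology.IsEmbedding ι) (hS : Set.range ι = P.S)
    (τ : SideSection p P.U P.S) (D₁ D₂ : C(Fin (n + 1) → unitInterval, E)) {a b : ℕ}
    (hab : Nat.Coprime a b)
    (hb₁ : ∀ u ∈ bdry (n + 1), ∀ x : ↥(P.U ∪ P.S), (x : M) ∈ P.U → D₁ u ≠ τ.σ x)
    (hb₂ : ∀ u ∈ bdry (n + 1), ∀ x : ↥(P.U ∪ P.S), (x : M) ∈ P.U → D₂ u ≠ τ.σ x)
    (ha₁ : ∀ x : ↥(P.U ∪ P.S), (x : M) ∈ P.U →
      AbsDeg (n + 1) (Finsupp.single (cubeOf D₁) 1) (τ.σ x) a)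
    (ha₂ : ∀ x : ↥(P.U ∪ P.S), (x : M) ∈ P.U →
      AbsDeg (n + 1) (Finsupp.single (cubeOf D₂) 1) (τ.σ x) b)
    {k : ℤ} (hk : 1 ≤ k) {c : Ch ℤ ↥(P.U ∪ P.S)} (hc : c ∈ Z ℤ k Set.univ ∅) :
    Bd ℤ k Set.univ ∅ c := by
  have hX : ∀ s, ι s ∈ P.U ∪ P.S := fun s => Or.inr (hS ▸ Set.mem_range_self s)
  have hL := capL_isClosedEmbedding hι hX
  have hT2 : T2Space (Cap ι (P.U ∪ P.S)) := cap_t2 hι hX P.isClosed_side
  have hcpt : CompactSpace (Cap ι (P.U ∪ P.S)) := cap_compact P.isClosed_side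
  have hY : LocEuc (n + 1) (Cap ι (P.U ∪ P.S)) := cap_locEuc hM P hι hS
  obtain ⟨f₁, h₁, hfh₁, hd₁⟩ := exists_capMap hn hM hE hp P hι hS τ D₁ hb₁ ha₁
  obtain ⟨f₂, h₂, hfh₂, hd₂⟩ := exists_capMap hn hM hE hp P hι hS τ D₂ hb₂ ha₂
  -- push the cycle to the punctured capped side
  let cL : C(↥(P.U ∪ P.S), Cap ι (P.U ∪ P.S)) := ⟨capL ι _, hL.continuous⟩
  have hmap : Set.MapsTo cL Set.univ ({capC ι (P.U ∪ P.S)}ᶜ : Set (Cap ι (P.U ∪ P.S))) :=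
    fun x _ h => capL_ne_capC hι x (Set.mem_singleton_iff.1 h)
  have hc' : push cL c ∈ Z ℤ k ({capC ι (P.U ∪ P.S)}ᶜ : Set (Cap ι (P.U ∪ P.S))) ∅ :=
    push_mem_Z hmap (Set.mapsTo_empty _ _) hc
  obtain ⟨e, heC, heQ⟩ := acyclic_punctured (by omega : 1 ≤ n + 1) hY hfh₁ hfh₂ hab hd₁ hd₂
    (capC ι (P.U ∪ P.S)) hk hc'
  -- the punctured capped side as a space
  let j : C({y : Cap ι (P.U ∪ P.S) // y ≠ capC ι (P.U ∪ P.S)}, Cap ι (P.U ∪ P.S)) :=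
    ⟨Subtype.val, continuous_subtype_val⟩
  have jinj : Function.Injective j := Subtype.val_injective
  have hrange : Set.range j = ({capC ι (P.U ∪ P.S)}ᶜ : Set (Cap ι (P.U ∪ P.S))) := by
    ext y
    constructor
    · rintro ⟨z, rfl⟩
      exact z.2
    · intro h
      exact ⟨⟨y, h⟩, rfl⟩
  rw [← hrange, ← map_push_C Topology.IsInducing.subtypeVal jinj] at heC
  obtain ⟨e', he', he'e⟩ := heC
  have he'e1 : push j e' = e := he'e
  let cL' : C(↥(P.U ∪ P.S), {y : Cap ι (P.U ∪ P.S) // y ≠ capC ι (P.U ∪ P.S)}) :=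
    ⟨fun x => ⟨capL ι _ x, capL_ne_capC hι x⟩, hL.continuous.subtype_mk _⟩
  have hQ : push cL' c - bd (k + 1) e' ∈
      Q ℤ k (∅ : Set {y : Cap ι (P.U ∪ P.S) // y ≠ capC ι (P.U ∪ P.S)}) := by
    have h1 : push j (push cL' c - bd (k + 1) e') ∈ Q ℤ k (∅ : Set (Cap ι (P.U ∪ P.S))) := by
      rw [map_sub, ← bd_push, he'e1, push_push]
      exact heQ
    rw [push_mem_Q_iff jinj] at h1
    exact h1
  -- the retraction
  obtain ⟨H, _, H1, _, H3⟩ := cap_retract hι hX P.isClosed_side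
  let g := hL.isEmbedding.toHomeomorph
  let ρ : C({y : Cap ι (P.U ∪ P.S) // y ≠ capC ι (P.U ∪ P.S)}, ↥(P.U ∪ P.S)) :=
    ⟨fun y => g.symm ⟨H (1, y), H1 y⟩, by fun_prop⟩
  have hρ : ρ.comp cL' = ContinuousMap.id _ := by
    ext x : 1
    have h1 : H (1, cL' x) = capL ι _ x := H3 1 (cL' x) ⟨x, rfl⟩
    have h2 : ρ (cL' x) = g.symm (g x) := congrArg g.symm (Subtype.ext h1)
    rw [ContinuousMap.comp_apply, h2, Homeomorph.symm_apply_apply]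
    rfl
  refine ⟨push ρ e', push_mem_C (fun _ _ => Set.mem_univ _) he', ?_⟩
  have h3 := push_mem_Q (f := ρ) (V := (∅ : Set ↥(P.U ∪ P.S))) (Set.mapsTo_empty _ _) hQ
  rw [map_sub, ← bd_push, push_push, hρ, push_id] at h3
  exact h3

/-- The side is contractible, if it is simply connected and embeds in a Euclidean space. -/
theorem contractible_side {n : ℕ} (hn : 1 ≤ n) {M E : Type} [TopologicalSpace M]
    [TopologicalSpace E] [T2Space M] [T2Space E] [CompactSpace M] (hM : LocEuc (n + 1) M)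
    (hE : LocEuc (n + 1) E) {p : E → M} (hp : Continuous p) (P : FlatSphere n M)
    {ι : Metric.sphere (0 : EuclideanSpace ℝ (Fin (n + 1))) 1 → M}
    (hι : Topology.IsEmbedding ι) (hS : Set.range ι = P.S)
    (τ : SideSection p P.U P.S) (D₁ D₂ : C(Fin (n + 1) → unitInterval, E)) {a b : ℕ}
    (hab : Nat.Coprime a b)
    (hb₁ : ∀ u ∈ bdry (n + 1), ∀ x : ↥(P.U ∪ P.S), (x : M) ∈ P.U → D₁ u ≠ τ.σ x)
    (hb₂ : ∀ u ∈ bdry (n + 1), ∀ x : ↥(P.U ∪ P.S), (x : M) ∈ P.U → D₂ u ≠ τ.σ x)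
    (ha₁ : ∀ x : ↥(P.U ∪ P.S), (x : M) ∈ P.U →
      AbsDeg (n + 1) (Finsupp.single (cubeOf D₁) 1) (τ.σ x) a)
    (ha₂ : ∀ x : ↥(P.U ∪ P.S), (x : M) ∈ P.U →
      AbsDeg (n + 1) (Finsupp.single (cubeOf D₂) 1) (τ.σ x) b)
    (hsc : SimplyConnectedSpace ↥(P.U ∪ P.S)) {N : ℕ} (e : M → (Fin N → ℝ))
    (he : Topology.IsEmbedding e) : ContractibleSpace ↥(P.U ∪ P.S) := by
  have hcpt : CompactSpace ↥(P.U ∪ P.S) := isCompact_iff_compactSpace.1 P.isClosed_side.isCompact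
  have hne : Nonempty ↥(P.U ∪ P.S) := by
    obtain ⟨x, hx⟩ := P.connU.nonempty
    exact ⟨⟨x, Or.inl hx⟩⟩
  have hH : ∀ k : ℤ, 1 ≤ k → ∀ c ∈ Z ℤ k (Set.univ : Set ↥(P.U ∪ P.S)) ∅,
      Bd ℤ k Set.univ ∅ c := fun k hk c hc =>
    acyclic_side hn hM hE hp P hι hS τ D₁ D₂ hab hb₁ hb₂ ha₁ ha₂ hk hc
  exact contractible_of_fills (fun x : ↥(P.U ∪ P.S) => e x)
    (he.comp Topology.IsEmbedding.subtypeVal) (P.locHalf_side hM) fun m => fills_of_acyclic hH m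

end CubeHom
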