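import Pool.Agent.Lib.MP_cb6a70_gt_HB.Cross

/-!
# Subdivision: the small cubes theorem
-/

namespace CubeHom

namespace Sub

/-! ### The algebra of the subdivision -/

section algebra

variable {R : Type*} [CommRing R] {E : Type*} [Ring E] [Algebra R E]

/-- The product `S 0 * ... * S (n - 1)`. -/
def subF (S : ℕ → E) : ℕ → E
  | 0 => 1
  | n + 1 => subF S n * S n

variable (R) in
/-- The homotopy. -/
def subG (S T : ℕ → E) (n : ℕ) : E :=
  ∑ i ∈ Finset.range n, ((-1 : R) ^ i) • (subF S i * T i)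

variable (R) in
/-- The boundary. -/
def subD (d : ℕ → E) (n : ℕ) : E :=
  ∑ i ∈ Finset.range n, ((-1 : R) ^ i) • d i

variable {S T d H K L : ℕ → E}

theorem d_mul_subF_of_le (h1 : ∀ l j, l < j → d j * S l = S l * d j) (n j : ℕ) (hn : n ≤ j) :
    d j * subF S n = subF S n * d j := by
  induction n with
  | zero => simp [subF]
  | succ n ih =>
    rw [subF, ← mul_assoc, ih (by omega), mul_assoc, h1 n j (by omega), mul_assoc]

theorem d_mul_subF_succ (h1 : ∀ l j, l < j → d j * S l = S l * d j)
    (h2 : ∀ j, d j * S j = d j) (h3 : ∀ l j, j ≤ l → d j * S (l + 1) = S l * d j)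
    (n j : ℕ) (hj : j ≤ n) : d j * subF S (n + 1) = subF S n * d j := by
  induction n with
  | zero =>
    obtain rfl : j = 0 := by omega
    simp [subF, h2]
  | succ n ih =>
    rw [subF, ← mul_assoc]
    rcases Nat.lt_or_ge n j with h | h
    · obtain rfl : j = n + 1 := by omega
      rw [d_mul_subF_of_le h1 (n + 1) (n + 1) le_rfl, mul_assoc, h2]
    · rw [ih h, mul_assoc, h3 n j h, ← mul_assoc, ← subF]

theorem subD_mul_subF (h1 : ∀ l j, l < j → d j * S l = S l * d j)
    (h2 : ∀ j, d j * S j = d j) (h3 : ∀ l j, j ≤ l → d j * S (l + 1) = S l * d j) (n : ℕ) :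
    subD R d (n + 1) * subF S (n + 1) = subF S n * subD R d (n + 1) := by
  rw [subD, Finset.sum_mul, Finset.mul_sum]
  refine Finset.sum_congr rfl fun j hj => ?_
  rw [smul_mul_assoc, mul_smul_comm,
    d_mul_subF_succ h1 h2 h3 n j (by simpa [Nat.lt_succ_iff] using hj)]

theorem subG_succ (n : ℕ) :
    subG R S T (n + 1) = subG R S T n + ((-1 : R) ^ n) • (subF S n * T n) := by
  rw [subG, subG, Finset.sum_range_succ]

theorem subD_succ (n : ℕ) :
    subD R d (n + 1) = subD R d n + ((-1 : R) ^ n) • d n := by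
  rw [subD, subD, Finset.sum_range_succ]

theorem subD_mul_subG (h1 : ∀ l j, l < j → d j * S l = S l * d j)
    (h2 : ∀ j, d j * S j = d j) (h3 : ∀ l j, j ≤ l → d j * S (l + 1) = S l * d j)
    (h4 : ∀ i j, j ≤ i → d j * T (i + 1) = T i * d j)
    (h5 : ∀ i j, i < j → d (j + 1) * T i = T i * d j)
    (h6 : ∀ i, d i * T i = H i - 1) (h7 : ∀ i, d (i + 1) * T i = K i - L i)
    (h8 : ∀ i, S i = L i + H i) (n : ℕ) :
    subD R d (n + 2) * subG R S T (n + 1) + subG R S T n * subD R d (n + 1) =
      subF S (n + 1) - 1 - ∑ i ∈ Finset.range (n + 1), subF S i * K i := by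
  induction n with
  | zero =>
    have e1 : subG R S T 1 = T 0 := by simp [subG, subF]
    have e0 : subG R S T 0 = 0 := by simp [subG]
    have e2 : subD R d 2 = d 0 - d 1 := by
      simp [subD, Finset.sum_range_succ, sub_eq_add_neg]
    rw [e1, e0, e2, zero_mul, add_zero, sub_mul, h6 0, h7 0]
    simp only [zero_add, Finset.sum_range_succ, Finset.sum_range_zero, subF, one_mul, h8 0]
    abel
  | succ n ih =>
    -- commutation of the new face with the old homotopy
    have hA : d (n + 2) * subG R S T (n + 1) = subG R S T (n + 1) * d (n + 1) := by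
      rw [subG, Finset.mul_sum, Finset.sum_mul]
      refine Finset.sum_congr rfl fun i hi => ?_
      have hi' : i < n + 1 := by simpa using hi
      rw [mul_smul_comm, smul_mul_assoc, ← mul_assoc,
        d_mul_subF_of_le h1 i (n + 2) (by omega), mul_assoc, h5 i (n + 1) hi', mul_assoc]
    have hB : subD R d (n + 1) * subF S (n + 1) * T (n + 1) =
        subF S n * T n * subD R d (n + 1) := by
      rw [subD_mul_subF h1 h2 h3, mul_assoc, mul_assoc]
      congr 1
      rw [subD, Finset.sum_mul, Finset.mul_sum]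
      refine Finset.sum_congr rfl fun j hj => ?_
      rw [smul_mul_assoc, mul_smul_comm, h4 n j (by simpa [Nat.lt_succ_iff] using hj)]
    have hC : d (n + 1) * subF S (n + 1) * T (n + 1) = subF S (n + 1) * (H (n + 1) - 1) := by
      rw [d_mul_subF_of_le h1 (n + 1) (n + 1) le_rfl, mul_assoc, h6]
    have hD : d (n + 2) * subF S (n + 1) * T (n + 1) =
        subF S (n + 1) * (K (n + 1) - L (n + 1)) := by
      rw [d_mul_subF_of_le h1 (n + 1) (n + 2) (by omega), mul_assoc, h7]
    have hsq : ((-1 : R) ^ (n + 1)) * ((-1 : R) ^ (n + 1)) = 1 := by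
      rw [← mul_pow]; simp
    have hsq2 : ((-1 : R) ^ (n + 2)) * ((-1 : R) ^ (n + 1)) = -1 := by
      rw [pow_succ, mul_right_comm, hsq]; simp
    have hG : subG R S T (n + 1) =
        subG R S T n + ((-1 : R) ^ n) • (subF S n * T n) := subG_succ n
    have hP : subD R d (n + 2) * (subF S (n + 1) * T (n + 1)) =
        subF S n * T n * subD R d (n + 1) +
          ((-1 : R) ^ (n + 1)) • (subF S (n + 1) * (H (n + 1) - 1)) := by
      rw [subD_succ (n + 1), add_mul, smul_mul_assoc, ← mul_assoc, hB, ← mul_assoc, hC]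
    have h9 : subD R d (n + 1 + 2) * subG R S T (n + 1 + 1) =
        subD R d (n + 2) * subG R S T (n + 1)
        + ((-1 : R) ^ (n + 1)) • (subF S n * T n * subD R d (n + 1))
        + subF S (n + 1) * (H (n + 1) - 1)
        + (((-1 : R) ^ (n + 2)) • (subG R S T (n + 1) * d (n + 1))
        + (-1 : R) • (subF S (n + 1) * (K (n + 1) - L (n + 1)))) := by
      rw [subG_succ (n + 1), show n + 1 + 2 = (n + 2) + 1 from rfl, subD_succ (n + 2),
        add_mul, mul_add, mul_add, mul_smul_comm, hP, smul_add, smul_smul, hsq, one_smul,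
        smul_mul_assoc, hA, smul_mul_smul_comm, hsq2, ← mul_assoc (d (n + 2)), hD]
      abel
    rw [h9]
    have h11 : subG R S T (n + 1) * subD R d (n + 1 + 1) =
        subG R S T n * subD R d (n + 1)
        + ((-1 : R) ^ n) • (subF S n * T n * subD R d (n + 1))
        + ((-1 : R) ^ (n + 1)) • (subG R S T (n + 1) * d (n + 1)) := by
      rw [subD_succ (n + 1), mul_add, mul_smul_comm]
      congr 1
      rw [hG, add_mul, smul_mul_assoc]
    rw [h11, Finset.sum_range_succ, show subF S (n + 1 + 1) = subF S (n + 1) * S (n + 1) from rfl,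
      h8 (n + 1)]
    have h12 : subD R d (n + 2) * subG R S T (n + 1) + subG R S T n * subD R d (n + 1) =
      subF S (n + 1) - 1 - ∑ i ∈ Finset.range (n + 1), subF S i * K i := ih
    have h13 : ((-1 : R) ^ (n + 2)) = (-1 : R) ^ n := by rw [pow_add]; simp
    have h14 : ((-1 : R) ^ (n + 1)) = -(-1 : R) ^ n := by rw [pow_succ]; simp
    rw [h13, h14]
    simp only [mul_sub, mul_add, mul_one, neg_smul, one_smul]
    have h15 : subD R d (n + 2) * subG R S T (n + 1) =
      subF S (n + 1) - 1 - ∑ i ∈ Finset.range (n + 1), subF S i * K i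
       - subG R S T n * subD R d (n + 1) := by rw [← h12]; abel
    rw [h15]
    abel

end algebra

/-! ### The maps of the subdivision -/

noncomputable section

/-- `t / 2`. -/
def loI (t : I) : I := ⟨(t : ℝ) / 2, by
  have h0 := t.2.1; have h1 := t.2.2
  constructor <;> linarith⟩

/-- `(1 + t) / 2`. -/
def hiI (t : I) : I := ⟨(1 + (t : ℝ)) / 2, by
  have h0 := t.2.1; have h1 := t.2.2
  constructor <;> linarith⟩

/-- `t + s (1 - t) / 2`. -/
def mI (s t : I) : I := ⟨(t : ℝ) + (s : ℝ) * (1 - (t : ℝ)) / 2, by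
  have h0 := t.2.1; have h1 := t.2.2
  have h2 := s.2.1; have h3 := s.2.2
  have h4 : 0 ≤ (s : ℝ) * (1 - (t : ℝ)) := mul_nonneg h2 (by linarith)
  have h5 : (s : ℝ) * (1 - (t : ℝ)) ≤ 1 * (1 - (t : ℝ)) :=
    mul_le_mul_of_nonneg_right h3 (by linarith)
  constructor <;> linarith⟩

theorem continuous_loI : Continuous loI :=
  Continuous.subtype_mk (by fun_prop) _

theorem continuous_hiI : Continuous hiI :=
  Continuous.subtype_mk (by fun_prop) _

theorem continuous_mI : Continuous (fun p : I × I => mI p.1 p.2) :=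
  Continuous.subtype_mk (by fun_prop) _

theorem mI_zero_left (t : I) : mI 0 t = t := by
  apply Subtype.ext; simp [mI]

theorem mI_one_left (t : I) : mI 1 t = hiI t := by
  apply Subtype.ext; simp [mI, hiI]; ring

theorem mI_zero_right (s : I) : mI s 0 = loI s := by
  apply Subtype.ext; simp [mI, loI]

theorem mI_one_right (s : I) : mI s 1 = 1 := by
  apply Subtype.ext; simp [mI]

theorem loI_zero : loI 0 = 0 := by
  apply Subtype.ext; simp [loI]

theorem hiI_one : hiI 1 = 1 := by
  apply Subtype.ext; simp [hiI]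

theorem loI_one : loI 1 = hiI 0 := by
  apply Subtype.ext; simp [loI, hiI]

/-- Apply `f` at the coordinate `i`. -/
def atc (f : I → I) (i : ℕ) (u : Cb) : Cb := fun j => if j = i then f (u j) else u j

theorem continuous_atc {f : I → I} (hf : Continuous f) (i : ℕ) : Continuous (atc f i) := by
  refine continuous_pi fun j => ?_
  unfold atc
  by_cases h : j = i
  · simp only [h, if_true]
    exact hf.comp (continuous_apply i)
  · simp only [h, if_false]
    exact continuous_apply j

/-- the lower half. -/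
def loC (i : ℕ) : C(Cb, Cb) := ⟨atc loI i, continuous_atc continuous_loI i⟩

/-- the upper half. -/
def hiC (i : ℕ) : C(Cb, Cb) := ⟨atc hiI i, continuous_atc continuous_hiI i⟩

/-- the value one. -/
def toC (i : ℕ) : C(Cb, Cb) := ⟨atc (fun _ => 1) i, continuous_atc continuous_const i⟩

/-- the square. -/
def sqC (i : ℕ) : C(Cb, Cb) where
  toFun u := fun j => if j < i then u j else if j = i then mI (u j) (u (j + 1)) else u (j + 1)
  continuous_toFun := by
    refine continuous_pi fun j => ?_
    by_cases h1 : j < i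
    · simp only [h1, if_true]
      exact continuous_apply j
    · by_cases h2 : j = i
      · simp only [h2, if_false, if_true, lt_irrefl]
        have h3 : Continuous (fun u : Cb => (u i, u (i + 1))) :=
          (continuous_apply i).prodMk (continuous_apply (i + 1))
        exact continuous_mI.comp h3
      · simp only [h1, h2, if_false]
        exact continuous_apply (j + 1)

theorem ins_apply (i : ℕ) (e : I) (u : Cb) (j : ℕ) :
    ins i e u j = if j < i then u j else if j = i then e else u (j - 1) := rfl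

theorem sqC_apply (i : ℕ) (u : Cb) (j : ℕ) :
    sqC i u j = if j < i then u j else if j = i then mI (u j) (u (j + 1)) else u (j + 1) := rfl

theorem atc_ins_of_lt (f : I → I) {l j : ℕ} (h : l < j) (e : I) (u : Cb) :
    atc f l (ins j e u) = ins j e (atc f l u) := by
  funext m
  simp only [atc, ins_apply]
  by_cases h1 : m = l
  · subst h1
    simp [h]
  · by_cases h2 : m < j
    · simp [h1, h2]
    · by_cases h3 : m = j
      · subst h3
        simp [h1]
      · have : m - 1 ≠ l := by omega
        simp [h1, h2, h3, this]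

theorem atc_ins_self (f : I → I) (j : ℕ) (e : I) (u : Cb) :
    atc f j (ins j e u) = ins j (f e) u := by
  funext m
  simp only [atc, ins_apply]
  by_cases h1 : m = j
  · subst h1
    simp
  · simp [h1]

theorem atc_ins_succ (f : I → I) {l j : ℕ} (h : j ≤ l) (e : I) (u : Cb) :
    atc f (l + 1) (ins j e u) = ins j e (atc f l u) := by
  funext m
  simp only [atc, ins_apply]
  by_cases h1 : m < j
  · have h2 : m ≠ l + 1 := by omega
    have h3 : m ≠ l := by omega
    simp [h1, h2, h3]
  · by_cases h2 : m = j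
    · have h3 : m ≠ l + 1 := by omega
      subst h2
      simp [h3]
    · by_cases h3 : m = l + 1
      · subst h3
        simp [h1, h2]
      · have h4 : m - 1 ≠ l := by omega
        simp [h1, h2, h3, h4]

theorem sqC_ins_le {i j : ℕ} (h : j ≤ i) (e : I) (u : Cb) :
    sqC (i + 1) (ins j e u) = ins j e (sqC i u) := by
  funext m
  simp only [sqC_apply, ins_apply]
  by_cases h1 : m < j
  · have h2 : m < i + 1 := by omega
    have h3 : m < i := by omega
    simp [h1, h2, h3]
  · by_cases h2 : m = j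
    · have h3 : m < i + 1 := by omega
      subst h2
      simp [h3]
    · obtain ⟨m, rfl⟩ : ∃ m', m = m' + 1 := ⟨m - 1, by omega⟩
      have e1 : ¬ (m + 1 < j) := h1
      have e2 : m + 1 ≠ j := h2
      have e3 : ¬ (m + 1 + 1 < j) := by omega
      have e4 : m + 1 + 1 ≠ j := by omega
      by_cases h3 : m < i
      · have h4 : m + 1 < i + 1 := by omega
        simp [e1, e2, h3]
      · by_cases h4 : m = i
        · subst h4
          simp [e1, e2, e3, e4]
        · have h5 : ¬ (m + 1 < i + 1) := by omega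
          simp [e1, e2, e3, e4, h3, h4]

theorem sqC_ins_gt {i j : ℕ} (h : i < j) (e : I) (u : Cb) :
    sqC i (ins (j + 1) e u) = ins j e (sqC i u) := by
  funext m
  simp only [sqC_apply, ins_apply]
  by_cases h1 : m < i
  · have h2 : m < j + 1 := by omega
    have h3 : m < j := by omega
    simp [h1, h2, h3]
  · by_cases h2 : m = i
    · subst h2
      have h2 : m < j + 1 := by omega
      have h4 : m + 1 < j + 1 := by omega
      simp [h, h2]
    · by_cases h3 : m < j
      · have h4 : m + 1 < j + 1 := by omega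
        simp [h1, h2, h3]
      · by_cases h4 : m = j
        · subst h4
          simp [h1, h2]
        · have h5 : ¬ (m + 1 < j + 1) := by omega
          have h6 : m + 1 ≠ j + 1 := by omega
          have h7 : ¬ (m - 1 < i) := by omega
          have h8 : m - 1 ≠ i := by omega
          have h9 : m - 1 + 1 = m := by omega
          simp [h1, h2, h3, h4, h7, h8, h9]

theorem sqC_ins_self (i : ℕ) (e : I) (u : Cb) :
    sqC i (ins i e u) = atc (fun t => mI e t) i u := by
  funext m
  simp only [sqC_apply, ins_apply, atc]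
  by_cases h1 : m < i
  · have h2 : m ≠ i := by omega
    simp [h1, h2]
  · by_cases h2 : m = i
    · subst h2
      simp
    · have h3 : ¬ (m + 1 < i) := by omega
      have h4 : m + 1 ≠ i := by omega
      simp [h1, h2, h3, h4]

theorem sqC_ins_succ (i : ℕ) (e : I) (u : Cb) :
    sqC i (ins (i + 1) e u) = atc (fun s => mI s e) i u := by
  funext m
  simp only [sqC_apply, ins_apply, atc]
  by_cases h1 : m < i
  · have h2 : m ≠ i := by omega
    have h3 : m < i + 1 := by omega
    simp [h1, h2, h3]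
  · by_cases h2 : m = i
    · subst h2
      simp
    · have h3 : ¬ (m + 1 < i + 1) := by omega
      have h4 : m + 1 ≠ i + 1 := by omega
      simp [h1, h2]

/-! ### The operators -/

section operators

variable {R : Type*} [CommRing R] {X : Type*} [TopologicalSpace X]

variable (R X) in
/-- Composition of all cubes with a self-map of the cube. -/
noncomputable def pre (a : C(Cb, Cb)) : Module.End R (Ch R X) :=
  Finsupp.lmapDomain R R (fun σ : C(Cb, X) => σ.comp a)

theorem pre_single (a : C(Cb, Cb)) (σ : C(Cb, X)) (r : R) :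
    pre R X a (Finsupp.single σ r) = Finsupp.single (σ.comp a) r := by
  simp [pre]

theorem pre_mul (a b : C(Cb, Cb)) : pre R X a * pre R X b = pre R X (b.comp a) := by
  refine Finsupp.lhom_ext fun σ r => ?_
  rw [Module.End.mul_apply, pre_single, pre_single, pre_single]
  rfl

theorem pre_mul_eq {a b a' b' : C(Cb, Cb)} (h : ∀ u, b (a u) = b' (a' u)) :
    pre R X a * pre R X b = pre R X a' * pre R X b' := by
  rw [pre_mul, pre_mul]
  congr 1
  exact ContinuousMap.ext h

theorem pre_mul_eq_one {a b c : C(Cb, Cb)} (h : ∀ u, b (a u) = c u) :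
    pre R X a * pre R X b = pre R X c := by
  rw [pre_mul]
  congr 1
  exact ContinuousMap.ext h

theorem pre_one : pre R X (ContinuousMap.id Cb) = 1 := by
  refine Finsupp.lhom_ext fun σ r => ?_
  rw [pre_single]
  rfl

variable (R X) in
/-- the face difference. -/
noncomputable def dF (j : ℕ) : Module.End R (Ch R X) := pre R X (ins j 1) - pre R X (ins j 0)

variable (R X) in
/-- subdivision in one direction. -/
noncomputable def sF (j : ℕ) : Module.End R (Ch R X) := pre R X (loC j) + pre R X (hiC j)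

theorem bd_eq (n : ℕ) : (bd (n : ℤ) : Module.End R (Ch R X)) = subD R (dF R X) n := by
  simp only [bd, subD, Int.toNat_natCast]
  rfl

theorem dF_mul (j : ℕ) (a : Module.End R (Ch R X)) :
    dF R X j * a = pre R X (ins j 1) * a - pre R X (ins j 0) * a := by
  refine LinearMap.ext fun c => ?_
  simp only [dF, Module.End.mul_apply, LinearMap.sub_apply]

theorem mul_dF (j : ℕ) (a : Module.End R (Ch R X)) :
    a * dF R X j = a * pre R X (ins j 1) - a * pre R X (ins j 0) := by
  refine LinearMap.ext fun c => ?_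
  simp only [dF, Module.End.mul_apply, LinearMap.sub_apply, map_sub]

theorem sF_mul (j : ℕ) (a : Module.End R (Ch R X)) :
    sF R X j * a = pre R X (loC j) * a + pre R X (hiC j) * a := add_mul _ _ _

theorem mul_sF (j : ℕ) (a : Module.End R (Ch R X)) :
    a * sF R X j = a * pre R X (loC j) + a * pre R X (hiC j) := mul_add _ _ _

theorem rel1 (l j : ℕ) (h : l < j) : dF R X j * sF R X l = sF R X l * dF R X j := by
  rw [dF_mul, mul_dF, mul_sF, mul_sF, sF_mul, sF_mul,
    pre_mul_eq (a := ins j 1) (b := loC l) (a' := loC l) (b' := ins j 1)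
      (fun u => atc_ins_of_lt _ h _ u),
    pre_mul_eq (a := ins j 0) (b := loC l) (a' := loC l) (b' := ins j 0)
      (fun u => atc_ins_of_lt _ h _ u),
    pre_mul_eq (a := ins j 1) (b := hiC l) (a' := hiC l) (b' := ins j 1)
      (fun u => atc_ins_of_lt _ h _ u),
    pre_mul_eq (a := ins j 0) (b := hiC l) (a' := hiC l) (b' := ins j 0)
      (fun u => atc_ins_of_lt _ h _ u)]

theorem rel2 (j : ℕ) : dF R X j * sF R X j = dF R X j := by
  rw [dF_mul, mul_sF, mul_sF,
    pre_mul_eq_one (a := ins j 1) (b := loC j) (c := ins j (loI 1))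
      (fun u => atc_ins_self _ _ _ u),
    pre_mul_eq_one (a := ins j 0) (b := loC j) (c := ins j (loI 0))
      (fun u => atc_ins_self _ _ _ u),
    pre_mul_eq_one (a := ins j 1) (b := hiC j) (c := ins j (hiI 1))
      (fun u => atc_ins_self _ _ _ u),
    pre_mul_eq_one (a := ins j 0) (b := hiC j) (c := ins j (hiI 0))
      (fun u => atc_ins_self _ _ _ u), loI_one, loI_zero, hiI_one, dF]
  abel

theorem rel3 (l j : ℕ) (h : j ≤ l) : dF R X j * sF R X (l + 1) = sF R X l * dF R X j := by
  rw [dF_mul, mul_dF, mul_sF, mul_sF, sF_mul, sF_mul,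
    pre_mul_eq (a := ins j 1) (b := loC (l + 1)) (a' := loC l) (b' := ins j 1)
      (fun u => atc_ins_succ _ h _ u),
    pre_mul_eq (a := ins j 0) (b := loC (l + 1)) (a' := loC l) (b' := ins j 0)
      (fun u => atc_ins_succ _ h _ u),
    pre_mul_eq (a := ins j 1) (b := hiC (l + 1)) (a' := hiC l) (b' := ins j 1)
      (fun u => atc_ins_succ _ h _ u),
    pre_mul_eq (a := ins j 0) (b := hiC (l + 1)) (a' := hiC l) (b' := ins j 0)
      (fun u => atc_ins_succ _ h _ u)]

theorem rel4 (i j : ℕ) (h : j ≤ i) :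
    dF R X j * pre R X (sqC (i + 1)) = pre R X (sqC i) * dF R X j := by
  rw [dF_mul, mul_dF,
    pre_mul_eq (a := ins j 1) (b := sqC (i + 1)) (a' := sqC i) (b' := ins j 1)
      (fun u => sqC_ins_le h _ u),
    pre_mul_eq (a := ins j 0) (b := sqC (i + 1)) (a' := sqC i) (b' := ins j 0)
      (fun u => sqC_ins_le h _ u)]

theorem rel5 (i j : ℕ) (h : i < j) :
    dF R X (j + 1) * pre R X (sqC i) = pre R X (sqC i) * dF R X j := by
  rw [dF_mul, mul_dF,
    pre_mul_eq (a := ins (j + 1) 1) (b := sqC i) (a' := sqC i) (b' := ins j 1)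
      (fun u => sqC_ins_gt h _ u),
    pre_mul_eq (a := ins (j + 1) 0) (b := sqC i) (a' := sqC i) (b' := ins j 0)
      (fun u => sqC_ins_gt h _ u)]

theorem rel6 (i : ℕ) :
    dF R X i * pre R X (sqC i) = pre R X (hiC i) - 1 := by
  rw [dF_mul,
    pre_mul_eq_one (a := ins i 1) (b := sqC i) (c := hiC i) (fun u => by
      rw [sqC_ins_self]
      simp only [mI_one_left]
      rfl),
    pre_mul_eq_one (a := ins i 0) (b := sqC i) (c := ContinuousMap.id Cb) (fun u => by
      rw [sqC_ins_self]
      simp only [mI_zero_left]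
      funext m
      simp [atc]), pre_one]

theorem rel7 (i : ℕ) :
    dF R X (i + 1) * pre R X (sqC i) = pre R X (toC i) - pre R X (loC i) := by
  rw [dF_mul,
    pre_mul_eq_one (a := ins (i + 1) 1) (b := sqC i) (c := toC i) (fun u => by
      rw [sqC_ins_succ]
      simp only [mI_one_right]
      rfl),
    pre_mul_eq_one (a := ins (i + 1) 0) (b := sqC i) (c := loC i) (fun u => by
      rw [sqC_ins_succ]
      simp only [mI_zero_right]
      rfl)]

/-! ### Preservation of chains -/

/-- `φ` maps chains of `U` of dimension `n` to chains of `U` of dimension `n'`, and zero chains to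
zero chains. -/
def Pres (n n' : ℕ) (φ : Module.End R (Ch R X)) : Prop :=
  (∀ U : Set X, ∀ c ∈ C R (n : ℤ) U, φ c ∈ C R (n' : ℤ) U) ∧
    (∀ A : Set X, ∀ c ∈ Q R (n : ℤ) A, φ c ∈ Q R (n' : ℤ) A)

theorem Pres.mul {n n' n'' : ℕ} {φ ψ : Module.End R (Ch R X)} (h : Pres n' n'' φ)
    (h' : Pres n n' ψ) : Pres n n'' (φ * ψ) :=
  ⟨fun U c hc => h.1 U _ (h'.1 U c hc), fun A c hc => h.2 A _ (h'.2 A c hc)⟩

theorem Pres.add {n n' : ℕ} {φ ψ : Module.End R (Ch R X)} (h : Pres n n' φ)
    (h' : Pres n n' ψ) : Pres n n' (φ + ψ) :=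
  ⟨fun U c hc => Submodule.add_mem _ (h.1 U c hc) (h'.1 U c hc),
    fun A c hc => Submodule.add_mem _ (h.2 A c hc) (h'.2 A c hc)⟩

theorem Pres.smul {n n' : ℕ} {φ : Module.End R (Ch R X)} (h : Pres n n' φ) (r : R) :
    Pres n n' (r • φ) :=
  ⟨fun U c hc => Submodule.smul_mem _ r (h.1 U c hc),
    fun A c hc => Submodule.smul_mem _ r (h.2 A c hc)⟩

theorem Pres.zero {n n' : ℕ} : Pres n n' (0 : Module.End R (Ch R X)) :=
  ⟨fun _ _ _ => Submodule.zero_mem _, fun _ _ _ => Submodule.zero_mem _⟩

theorem Pres.one {n : ℕ} : Pres n n (1 : Module.End R (Ch R X)) :=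
  ⟨fun _ _ hc => hc, fun _ _ hc => hc⟩

theorem Pres.sum {n n' : ℕ} {ι : Type*} (s : Finset ι) {φ : ι → Module.End R (Ch R X)}
    (h : ∀ i ∈ s, Pres n n' (φ i)) : Pres n n' (∑ i ∈ s, φ i) := by
  classical
  induction s using Finset.induction_on with
  | empty => simpa using Pres.zero
  | insert i s hi ih =>
    rw [Finset.sum_insert hi]
    exact (h i (Finset.mem_insert_self _ _)).add
      (ih fun j hj => h j (Finset.mem_insert_of_mem hj))

theorem isCube_nat {n : ℕ} {σ : C(Cb, X)} :
    IsCube (n : ℤ) σ ↔ ∀ u v : Cb, (∀ j < n, u j = v j) → σ u = σ v := by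
  constructor
  · rintro ⟨_, h⟩ u v huv
    exact h fun j hj => huv j (by simpa using hj)
  · intro h
    exact ⟨by positivity, fun u v huv => h u v fun j hj => huv j (by simpa using hj)⟩

theorem mem_supported_mapDomain {s t : Set C(Cb, X)} (a : C(Cb, Cb))
    (h : ∀ σ ∈ s, σ.comp a ∈ t) {c : Ch R X} (hc : c ∈ Finsupp.supported R R s) :
    pre R X a c ∈ Finsupp.supported R R t := by
  classical
  rw [Finsupp.mem_supported] at hc ⊢
  intro τ hτ
  have h1 := Finsupp.mapDomain_support (f := fun σ : C(Cb, X) => σ.comp a) (s := c) hτ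
  obtain ⟨σ, hσ, rfl⟩ := Finset.mem_image.mp h1
  exact h σ (hc hσ)

/-- `pre a` preserves chains if `a` is triangular. -/
theorem pres_pre {n n' : ℕ} {a : C(Cb, Cb)}
    (h1 : ∀ u v : Cb, (∀ j < n', u j = v j) → ∀ j < n, a u j = a v j)
    (h2 : ∀ i < n, ∃ i' < n', ∀ u v : Cb, (∀ j, j ≠ i' → u j = v j) →
      ∀ j, j ≠ i → a u j = a v j) :
    Pres n n' (pre R X a) := by
  have h3 : ∀ σ : C(Cb, X), IsCube (n : ℤ) σ → IsCube (n' : ℤ) (σ.comp a) := by
    intro σ hσ
    rw [isCube_nat] at hσ ⊢
    intro u v huv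
    exact hσ _ _ (h1 u v huv)
  refine ⟨fun U c hc => ?_, fun A c hc => ?_⟩
  · refine mem_supported_mapDomain a ?_ hc
    rintro σ ⟨hσ, hU⟩
    exact ⟨h3 σ hσ, fun u => hU _⟩
  · refine mem_supported_mapDomain a ?_ hc
    rintro σ ⟨hσ, hU⟩
    refine ⟨h3 σ hσ, ?_⟩
    rcases hU with hU | ⟨i, hi, hdeg⟩
    · exact Or.inl fun u => hU _
    · obtain ⟨i', hi', h4⟩ := h2 i (by exact_mod_cast hi)
      refine Or.inr ⟨i', by exact_mod_cast hi', fun u v huv => ?_⟩
      exact hdeg fun j hj => h4 u v (fun j hj => huv j hj) j hj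

theorem pres_atc {f : I → I} {hf : Continuous f} {i n : ℕ} :
    Pres n n (pre R X (⟨atc f i, continuous_atc hf i⟩ : C(Cb, Cb))) := by
  refine pres_pre (fun u v h j hj => ?_) (fun l hl => ⟨l, hl, fun u v h j hj => ?_⟩)
  · simp only [ContinuousMap.coe_mk, atc, h j hj]
  · simp only [ContinuousMap.coe_mk, atc, h j hj]

theorem pres_sF {i n : ℕ} : Pres n n (sF R X i) :=
  (pres_atc (hf := continuous_loI)).add (pres_atc (hf := continuous_hiI))

theorem pres_subF {m n : ℕ} : Pres n n (subF (sF R X) m) := by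
  induction m with
  | zero => exact Pres.one
  | succ m ih => exact ih.mul pres_sF

theorem pres_sqC {i n : ℕ} : Pres n (n + 1) (pre R X (sqC i)) := by
  refine pres_pre (fun u v h j hj => ?_) (fun l hl => ?_)
  · simp only [sqC_apply]
    rw [h j (by omega), h (j + 1) (by omega)]
  · rcases Nat.lt_or_ge i l with hil | hil
    · refine ⟨l + 1, by omega, fun u v h j hj => ?_⟩
      simp only [sqC_apply]
      by_cases h1 : j < i
      · rw [if_pos h1, if_pos h1, h j (by omega)]
      · by_cases h2 : j = i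
        · rw [if_neg h1, if_neg h1, if_pos h2, if_pos h2, h j (by omega), h (j + 1) (by omega)]
        · rw [if_neg h1, if_neg h1, if_neg h2, if_neg h2, h (j + 1) (by omega)]
    · refine ⟨l, by omega, fun u v h j hj => ?_⟩
      simp only [sqC_apply]
      by_cases h1 : j < i
      · rw [if_pos h1, if_pos h1, h j (by omega)]
      · by_cases h2 : j = i
        · rw [if_neg h1, if_neg h1, if_pos h2, if_pos h2, h j (by omega), h (j + 1) (by omega)]
        · rw [if_neg h1, if_neg h1, if_neg h2, if_neg h2, h (j + 1) (by omega)]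

theorem pres_subG {n m : ℕ} : Pres n (n + 1) (subG R (sF R X) (fun i => pre R X (sqC i)) m) :=
  Pres.sum _ fun _ _ => (pres_subF.mul pres_sqC).smul _

/-- the degenerate error term. -/
theorem toC_mem_Q {n i : ℕ} (hi : i < n) {U A : Set X} {c : Ch R X} (hc : c ∈ C R (n : ℤ) U) :
    pre R X (toC i) c ∈ Q R (n : ℤ) A := by
  refine mem_supported_mapDomain (toC i) ?_ hc
  rintro σ ⟨hσ, hU⟩
  refine ⟨?_, Or.inr ⟨i, by exact_mod_cast hi, fun u v huv => ?_⟩⟩
  · rw [isCube_nat] at hσ ⊢
    intro u v huv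
    refine hσ _ _ fun j hj => ?_
    simp only [toC, ContinuousMap.coe_mk, atc, huv j hj]
  · refine congrArg σ (funext fun j => ?_)
    simp only [toC, ContinuousMap.coe_mk, atc]
    by_cases h1 : j = i
    · simp [h1]
    · simp only [h1, if_false]
      exact huv j h1

/-- One subdivision step. -/
theorem subdiv_step {n : ℕ} {W U' V' A : Set X} {c : Ch R X} (hc : c ∈ C R (n : ℤ) W)
    (hd : bd (n : ℤ) c ∈ C R ((n : ℤ) - 1) U' ⊔ C R ((n : ℤ) - 1) V' ⊔ Q R ((n : ℤ) - 1) A) :
    ∃ b ∈ C R ((n : ℤ) + 1) W,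
      c - subF (sF R X) n c - bd ((n : ℤ) + 1) b ∈
        C R (n : ℤ) U' ⊔ C R (n : ℤ) V' ⊔ Q R (n : ℤ) A := by
  cases n with
  | zero =>
    refine ⟨0, Submodule.zero_mem _, ?_⟩
    have : c - subF (sF R X) 0 c - bd (((0 : ℕ) : ℤ) + 1) (0 : Ch R X) = 0 := by
      rw [map_zero, sub_zero]
      exact sub_self c
    rw [this]
    exact Submodule.zero_mem _
  | succ n =>
    have key := subD_mul_subG (R := R) (S := sF R X) (T := fun i => pre R X (sqC i))
      (d := dF R X) (H := fun i => pre R X (hiC i)) (K := fun i => pre R X (toC i))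
      (L := fun i => pre R X (loC i)) rel1 rel2 rel3 rel4 rel5 rel6 rel7 (fun _ => rfl) n
    have key' := LinearMap.congr_fun key c
    rw [← bd_eq, ← bd_eq] at key'
    have e1 : (((n + 1 : ℕ) : ℤ) - 1) = (n : ℤ) := by push_cast; ring
    have e2 : (((n + 2 : ℕ) : ℤ)) = ((n + 1 : ℕ) : ℤ) + 1 := by push_cast; ring
    rw [e1] at hd
    rw [e2] at key'
    refine ⟨-(subG R (sF R X) (fun i => pre R X (sqC i)) (n + 1) c), ?_, ?_⟩
    · have h1 := (pres_subG (R := R) (X := X) (n := n + 1) (m := n + 1)).1 W c hc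
      refine Submodule.neg_mem _ ?_
      exact_mod_cast h1
    · rw [map_neg]
      have h2 : subG R (sF R X) (fun i => pre R X (sqC i)) n (bd ((n + 1 : ℕ) : ℤ) c) ∈
          C R ((n + 1 : ℕ) : ℤ) U' ⊔ C R ((n + 1 : ℕ) : ℤ) V' ⊔ Q R ((n + 1 : ℕ) : ℤ) A := by
        have h3 := pres_subG (R := R) (X := X) (n := n) (m := n)
        obtain ⟨y, hy, q, hq, h4⟩ := Submodule.mem_sup.mp hd
        obtain ⟨a, ha, a', ha', h5⟩ := Submodule.mem_sup.mp hy
        rw [← h4, ← h5, map_add, map_add]
        exact Submodule.add_mem_sup (Submodule.add_mem_sup (h3.1 _ _ ha) (h3.1 _ _ ha'))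
          (h3.2 _ _ hq)
      have h6 : (∑ i ∈ Finset.range (n + 1), subF (sF R X) i * pre R X (toC i) :
          Module.End R (Ch R X)) c ∈ Q R ((n + 1 : ℕ) : ℤ) A := by
        rw [LinearMap.sum_apply]
        refine Submodule.sum_mem _ fun i hi => ?_
        rw [Module.End.mul_apply]
        exact (pres_subF (R := R) (X := X) (m := i) (n := n + 1)).2 A _
          (toC_mem_Q (by simpa using hi) hc)
      have h7 : c - subF (sF R X) (n + 1) c -
          -(bd (((n + 1 : ℕ) : ℤ) + 1)
            (subG R (sF R X) (fun i => pre R X (sqC i)) (n + 1) c)) =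
          -(subG R (sF R X) (fun i => pre R X (sqC i)) n (bd ((n + 1 : ℕ) : ℤ) c))
          - (∑ i ∈ Finset.range (n + 1), subF (sF R X) i * pre R X (toC i) :
          Module.End R (Ch R X)) c := by
        have h8 : bd (((n + 1 : ℕ) : ℤ) + 1)
            (subG R (sF R X) (fun i => pre R X (sqC i)) (n + 1) c) +
            subG R (sF R X) (fun i => pre R X (sqC i)) n (bd ((n + 1 : ℕ) : ℤ) c) =
            subF (sF R X) (n + 1) c - c -
            (∑ i ∈ Finset.range (n + 1), subF (sF R X) i * pre R X (toC i) :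
          Module.End R (Ch R X)) c := key'
        rw [← eq_sub_iff_add_eq] at h8
        rw [h8]
        abel
      rw [h7]
      exact Submodule.sub_mem _ (Submodule.neg_mem _ h2) (Submodule.mem_sup_right h6)

/-- Iterated subdivision. -/
theorem subdiv_iter {n : ℕ} {W U' V' A : Set X} {c : Ch R X} (hc : c ∈ C R (n : ℤ) W)
    (hd : bd (n : ℤ) c ∈ C R ((n : ℤ) - 1) U' ⊔ C R ((n : ℤ) - 1) V' ⊔ Q R ((n : ℤ) - 1) A)
    (m : ℕ) :
    ∃ b ∈ C R ((n : ℤ) + 1) W,
      c - (subF (sF R X) n ^ m) c - bd ((n : ℤ) + 1) b ∈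
        C R (n : ℤ) U' ⊔ C R (n : ℤ) V' ⊔ Q R (n : ℤ) A := by
  induction m generalizing c with
  | zero =>
    refine ⟨0, Submodule.zero_mem _, ?_⟩
    have : c - (subF (sF R X) n ^ 0) c - bd ((n : ℤ) + 1) (0 : Ch R X) = 0 := by
      rw [map_zero, sub_zero, pow_zero]
      exact sub_self c
    rw [this]
    exact Submodule.zero_mem _
  | succ m ih =>
    obtain ⟨b, hb, h1⟩ := subdiv_step (U' := U') (V' := V') (A := A) hc hd
    have hc' : subF (sF R X) n c ∈ C R (n : ℤ) W :=
      (pres_subF (R := R) (X := X) (m := n) (n := n)).1 W c hc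
    have hd' : bd (n : ℤ) (subF (sF R X) n c) ∈
        C R ((n : ℤ) - 1) U' ⊔ C R ((n : ℤ) - 1) V' ⊔ Q R ((n : ℤ) - 1) A := by
      cases n with
      | zero => exact hd
      | succ n =>
        have h2 := LinearMap.congr_fun
          (subD_mul_subF (R := R) (S := sF R X) (d := dF R X) rel1 rel2 rel3 n) c
        rw [← bd_eq] at h2
        have h3 : bd ((n + 1 : ℕ) : ℤ) (subF (sF R X) (n + 1) c) =
          subF (sF R X) n (bd ((n + 1 : ℕ) : ℤ) c) := h2
        have e1 : (((n + 1 : ℕ) : ℤ) - 1) = (n : ℤ) := by push_cast; ring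
        rw [e1] at hd ⊢
        rw [h3]
        have h3 := pres_subF (R := R) (X := X) (n := n) (m := n)
        obtain ⟨y, hy, q, hq, h4⟩ := Submodule.mem_sup.mp hd
        obtain ⟨a, ha, a', ha', h5⟩ := Submodule.mem_sup.mp hy
        rw [← h4, ← h5, map_add, map_add]
        exact Submodule.add_mem_sup (Submodule.add_mem_sup (h3.1 _ _ ha) (h3.1 _ _ ha'))
          (h3.2 _ _ hq)
    obtain ⟨b', hb', h4⟩ := ih hc' hd'
    refine ⟨b + b', Submodule.add_mem _ hb hb', ?_⟩
    have h5 : c - (subF (sF R X) n ^ (m + 1)) c - bd ((n : ℤ) + 1) (b + b') =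
        (c - subF (sF R X) n c - bd ((n : ℤ) + 1) b) +
        (subF (sF R X) n c - (subF (sF R X) n ^ m) (subF (sF R X) n c)
          - bd ((n : ℤ) + 1) b') := by
      rw [map_add, pow_succ, Module.End.mul_apply]
      abel
    rw [h5]
    exact Submodule.add_mem _ h1 h4

/-! ### Smallness -/

/-- `a` contracts the coordinate `j` by the factor `L j`. -/
def LipC (L : ℕ → ℝ) (a : C(Cb, Cb)) : Prop :=
  ∀ j, ∀ u v : Cb, dist (a u j) (a v j) ≤ L j * dist (u j) (v j)

variable (R) in
/-- chains of cubes `σ ∘ a`, `a` a contraction. -/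
def small (σ : C(Cb, X)) (L : ℕ → ℝ) : Submodule R (Ch R X) :=
  Finsupp.supported R R {τ | ∃ a, LipC L a ∧ τ = σ.comp a}

theorem LipC.atc {f : I → I} {hf : Continuous f}
    (hf2 : ∀ s t, dist (f s) (f t) ≤ (1 / 2) * dist s t) {L : ℕ → ℝ} (hL : ∀ j, 0 ≤ L j)
    {a : C(Cb, Cb)} (ha : LipC L a) (i : ℕ) :
    LipC (fun j => if j = i then L j / 2 else L j)
      (a.comp (⟨atc f i, continuous_atc hf i⟩ : C(Cb, Cb))) := by
  intro j u v
  refine (ha j _ _).trans ?_
  simp only [ContinuousMap.coe_mk, Sub.atc]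
  by_cases h : j = i
  · simp only [h, if_true]
    have := mul_le_mul_of_nonneg_left (hf2 (u i) (v i)) (hL i)
    linarith
  · simp only [h, if_false]
    exact le_rfl

theorem dist_loI (s t : I) : dist (loI s) (loI t) ≤ (1 / 2) * dist s t := by
  rw [Subtype.dist_eq, Subtype.dist_eq, Real.dist_eq, Real.dist_eq]
  simp only [loI]
  rw [← sub_div, abs_div]
  norm_num
  linarith

theorem dist_hiI (s t : I) : dist (hiI s) (hiI t) ≤ (1 / 2) * dist s t := by
  rw [Subtype.dist_eq, Subtype.dist_eq, Real.dist_eq, Real.dist_eq]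
  simp only [hiI]
  rw [← sub_div, abs_div]
  norm_num
  linarith

theorem small_sF {σ : C(Cb, X)} {L : ℕ → ℝ} (hL : ∀ j, 0 ≤ L j) (i : ℕ) {c : Ch R X}
    (hc : c ∈ small R σ L) :
    sF R X i c ∈ small R σ (fun j => if j = i then L j / 2 else L j) := by
  refine Submodule.add_mem _ ?_ ?_
  · refine mem_supported_mapDomain _ ?_ hc
    rintro _ ⟨a, ha, rfl⟩
    exact ⟨a.comp (loC i), ha.atc (hf := continuous_loI) dist_loI hL i, rfl⟩
  · refine mem_supported_mapDomain _ ?_ hc
    rintro _ ⟨a, ha, rfl⟩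
    exact ⟨a.comp (hiC i), ha.atc (hf := continuous_hiI) dist_hiI hL i, rfl⟩

theorem small_subF {σ : C(Cb, X)} {L : ℕ → ℝ} (hL : ∀ j, 0 ≤ L j) (n : ℕ) {c : Ch R X}
    (hc : c ∈ small R σ L) :
    subF (sF R X) n c ∈ small R σ (fun j => if j < n then L j / 2 else L j) := by
  induction n generalizing L c with
  | zero => simpa [subF] using hc
  | succ n ih =>
    have h1 := small_sF hL n hc
    have h2 := ih (L := fun j => if j = n then L j / 2 else L j)
      (fun j => by
        by_cases h : j = n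
        · simp only [h, if_true]
          have := hL n
          linarith
        · simp only [h, if_false]
          exact hL j) h1
    have h3 : (fun j => if j < n + 1 then L j / 2 else L j) =
        (fun j => if j < n then (if j = n then L j / 2 else L j) / 2 else
          if j = n then L j / 2 else L j) := by
      funext j
      rcases lt_trichotomy j n with h | h | h
      · have h4 : j < n + 1 := by omega
        have h5 : j ≠ n := by omega
        simp [h, h4, h5]
      · subst h
        simp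
      · have h4 : ¬ j < n + 1 := by omega
        have h5 : j ≠ n := by omega
        have h6 : ¬ j < n := by omega
        simp [h4, h5, h6]
    rw [h3]
    exact h2

theorem small_subF_pow {σ : C(Cb, X)} (n m : ℕ) (r : R) :
    (subF (sF R X) n ^ m) (Finsupp.single σ r) ∈
      small R σ (fun j => if j < n then (1 / 2 : ℝ) ^ m else 1) := by
  induction m with
  | zero =>
    have h0 : (subF (sF R X) n ^ 0) (Finsupp.single σ r) = Finsupp.single σ r := by
      rw [pow_zero]; rfl
    rw [h0]
    refine Finsupp.single_mem_supported R r ⟨ContinuousMap.id Cb, fun j u v => ?_, rfl⟩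
    simp
  | succ m ih =>
    rw [pow_succ' (subF (sF R X) n) m, Module.End.mul_apply]
    have h1 := small_subF (L := fun j => if j < n then (1 / 2 : ℝ) ^ m else 1)
      (fun j => by
        by_cases h : j < n
        · simp only [h, if_true]
          positivity
        · simp [h]) n ih
    have h3 : (fun j => if j < n then (1 / 2 : ℝ) ^ (m + 1) else 1) =
        (fun j => if j < n then (if j < n then (1 / 2 : ℝ) ^ m else 1) / 2 else
          if j < n then (1 / 2 : ℝ) ^ m else 1) := by
      funext j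
      by_cases h : j < n
      · simp only [h, if_true]
        rw [pow_succ]
        ring
      · simp [h]
    rw [h3]
    exact h1

/-- Extension by zero. -/
def extZ (n : ℕ) (x : Fin n → I) : Cb := fun j => if h : j < n then x ⟨j, h⟩ else 0

theorem continuous_extZ (n : ℕ) : Continuous (extZ n) := by
  refine continuous_pi fun j => ?_
  unfold extZ
  by_cases h : j < n
  · simp only [h, dif_pos]
    exact continuous_apply _
  · simp only [h, dif_neg, not_false_iff]
    exact continuous_const

theorem single_small {n : ℕ} {W U V : Set X} (hU : IsOpen U) (hV : IsOpen V) (hW : W ⊆ U ∪ V)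
    {σ : C(Cb, X)} (hσ : IsCube (n : ℤ) σ) (hσW : ∀ u, σ u ∈ W) (r : R) :
    ∃ m0 : ℕ, ∀ m ≥ m0, (subF (sF R X) n ^ m) (Finsupp.single σ r) ∈
      C R (n : ℤ) (U ∩ W) ⊔ C R (n : ℤ) (V ∩ W) := by
  classical
  let g : (Fin n → I) → X := fun x => σ (extZ n x)
  have hg : Continuous g := σ.continuous.comp (continuous_extZ n)
  let cov : Bool → Set (Fin n → I) := fun b => g ⁻¹' (if b then U else V)
  have hcov : ∀ b, IsOpen (cov b) := by
    intro b
    cases b
    · exact hV.preimage hg
    · exact hU.preimage hg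
  obtain ⟨δ, hδ, hball⟩ := lebesgue_number_lemma_of_metric (s := Set.univ) isCompact_univ hcov
    (fun x _ => by
      rcases hW (hσW (extZ n x)) with h | h
      · exact Set.mem_iUnion.mpr ⟨true, h⟩
      · exact Set.mem_iUnion.mpr ⟨false, h⟩)
  obtain ⟨m0, hm0⟩ := exists_pow_lt_of_lt_one hδ (show (1 / 2 : ℝ) < 1 by norm_num)
  refine ⟨m0, fun m hm => ?_⟩
  have hmδ : (1 / 2 : ℝ) ^ m < δ :=
    lt_of_le_of_lt (pow_le_pow_of_le_one (by norm_num) (by norm_num) hm) hm0
  have h1 : (subF (sF R X) n ^ m) (Finsupp.single σ r) ∈ C R (n : ℤ) W := by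
    have h2 : ∀ m : ℕ, Pres n n (subF (sF R X) n ^ m) := by
      intro m
      induction m with
      | zero => rw [pow_zero]; exact Pres.one
      | succ m ih => rw [pow_succ]; exact ih.mul pres_subF
    exact (h2 m).1 W _ (Finsupp.single_mem_supported R r ⟨hσ, hσW⟩)
  have h3 := small_subF_pow (R := R) (σ := σ) n m r
  have h4 : C R (n : ℤ) (U ∩ W) ⊔ C R (n : ℤ) (V ∩ W) =
      Finsupp.supported R R ({τ : C(Cb, X) | IsCube (n : ℤ) τ ∧ ∀ u, τ u ∈ U ∩ W} ∪
        {τ : C(Cb, X) | IsCube (n : ℤ) τ ∧ ∀ u, τ u ∈ V ∩ W}) :=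
    (Finsupp.supported_union _ _).symm
  rw [h4, Finsupp.mem_supported]
  intro τ hτ
  have h5 : τ ∈ {τ : C(Cb, X) | IsCube (n : ℤ) τ ∧ ∀ u, τ u ∈ W} :=
    (Finsupp.mem_supported R _).mp h1 hτ
  obtain ⟨a, ha, rfl⟩ := (Finsupp.mem_supported R _).mp h3 hτ
  obtain ⟨b, hb⟩ := hball (fun j : Fin n => a (fun _ => 0) j) (Set.mem_univ _)
  have h6 : ∀ u, (fun j : Fin n => a u j) ∈ cov b := by
    intro u
    apply hb
    rw [Metric.mem_ball, dist_pi_lt_iff hδ]
    intro j
    have h7 := ha j u (fun _ => 0)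
    simp only [j.2, if_true] at h7
    have h8 : dist (u j) (0 : I) ≤ 1 := by
      rw [Subtype.dist_eq, Real.dist_eq]
      have h0 := (u j).2.1
      have h1 := (u j).2.2
      simp only [Set.Icc.coe_zero, sub_zero]
      rw [abs_of_nonneg h0]
      exact h1
    calc dist (a u j) (a (fun _ => 0) j) ≤ (1 / 2 : ℝ) ^ m * dist (u j) (0 : I) := h7
      _ ≤ (1 / 2 : ℝ) ^ m * 1 := mul_le_mul_of_nonneg_left h8 (by positivity)
      _ < δ := by rw [mul_one]; exact hmδ
  have h9 : ∀ u, (σ.comp a) u = g (fun j : Fin n => a u j) := by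
    intro u
    refine (isCube_nat.mp hσ) _ _ fun j hj => ?_
    simp [extZ, hj]
  cases b with
  | true =>
    refine Or.inl ⟨h5.1, fun u => ⟨?_, h5.2 u⟩⟩
    rw [h9]
    exact h6 u
  | false =>
    refine Or.inr ⟨h5.1, fun u => ⟨?_, h5.2 u⟩⟩
    rw [h9]
    exact h6 u

theorem eventually_small {n : ℕ} {W U V : Set X} (hU : IsOpen U) (hV : IsOpen V)
    (hW : W ⊆ U ∪ V) {c : Ch R X} (hc : c ∈ C R (n : ℤ) W) :
    ∃ m0 : ℕ, ∀ m ≥ m0, (subF (sF R X) n ^ m) c ∈
      C R (n : ℤ) (U ∩ W) ⊔ C R (n : ℤ) (V ∩ W) := by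
  rw [C, Finsupp.supported_eq_span_single] at hc
  induction hc using Submodule.span_induction with
  | mem x hx =>
    obtain ⟨σ, ⟨hσ, hσW⟩, rfl⟩ := hx
    exact single_small hU hV hW hσ hσW 1
  | zero => exact ⟨0, fun m _ => by rw [map_zero]; exact Submodule.zero_mem _⟩
  | add x y _ _ hx hy =>
    obtain ⟨m1, h1⟩ := hx
    obtain ⟨m2, h2⟩ := hy
    refine ⟨max m1 m2, fun m hm => ?_⟩
    rw [map_add]
    exact Submodule.add_mem _ (h1 m (le_trans (le_max_left _ _) hm))
      (h2 m (le_trans (le_max_right _ _) hm))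
  | smul r x _ hx =>
    obtain ⟨m1, h1⟩ := hx
    refine ⟨m1, fun m hm => ?_⟩
    rw [map_smul]
    exact Submodule.smul_mem _ _ (h1 m hm)

end operators

end

end Sub

variable {R : Type*} [CommRing R]
variable {X : Type*} [TopologicalSpace X]

/-- **Small cubes.** A chain of `W ⊆ U ∪ V` whose boundary is small modulo `Q A` is homologous in
`W`, modulo `Q A`, to a small chain. -/
theorem small_cubes {k : ℤ} {W U V A : Set X} (hU : IsOpen U) (hV : IsOpen V) (hW : W ⊆ U ∪ V)
    {c : Ch R X} (hc : c ∈ C R k W)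
    (hd : bd k c ∈ C R (k - 1) (U ∩ W) ⊔ C R (k - 1) (V ∩ W) ⊔ Q R (k - 1) A) :
    ∃ b ∈ C R (k + 1) W,
      c - bd (k + 1) b ∈ C R k (U ∩ W) ⊔ C R k (V ∩ W) ⊔ Q R k A := by
  rcases lt_or_ge k 0 with hk | hk
  · refine ⟨0, Submodule.zero_mem _, ?_⟩
    rw [C_of_neg hk] at hc
    rw [(Submodule.mem_bot R).mp hc, map_zero, sub_zero]
    exact Submodule.zero_mem _
  · obtain ⟨n, rfl⟩ := Int.eq_ofNat_of_zero_le hk
    obtain ⟨m, hm⟩ := Sub.eventually_small hU hV hW hc
    obtain ⟨b, hb, h1⟩ := Sub.subdiv_iter hc hd m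
    refine ⟨b, hb, ?_⟩
    have h2 : c - bd ((n : ℤ) + 1) b =
        (c - (Sub.subF (Sub.sF R X) n ^ m) c - bd ((n : ℤ) + 1) b) +
          (Sub.subF (Sub.sF R X) n ^ m) c := by
      abel
    rw [h2]
    exact Submodule.add_mem _ h1 (Submodule.mem_sup_left (hm m le_rfl))

end CubeHom
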