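import Pool.Agent.Lib.MP_cb6a70_gt_HB.Calc

/-!
# Suspension isomorphism, local homology of Euclidean space
-/

namespace CubeHom

variable {R : Type*} [CommRing R]

/-- The `1`-cube `u ↦ 2 u₀ - 1` of the real line. -/
noncomputable def segCube : C(Cb, ℝ) := ⟨fun u => 2 * ((u 0 : I) : ℝ) - 1, by fun_prop⟩

/-- The `n`-cube `[-1,1]^n` of `ℝ^n`. -/
noncomputable def stdCube (n : ℕ) : C(Cb, Fin n → ℝ) :=
  ⟨fun u => fun i => 2 * ((u i : I) : ℝ) - 1, by fun_prop⟩

variable (R) in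
/-- The chain of `segCube`. -/
noncomputable def segCh : Ch R ℝ := Finsupp.single segCube 1

variable (R) in
/-- The chain of `stdCube`. -/
noncomputable def stdCh (n : ℕ) : Ch R (Fin n → ℝ) := Finsupp.single (stdCube n) 1

theorem stdCube_apply (n : ℕ) (u : Cb) (i : Fin n) : stdCube n u i = 2 * ((u i : I) : ℝ) - 1 := rfl

theorem segCube_apply (u : Cb) : segCube u = 2 * ((u 0 : I) : ℝ) - 1 := rfl

theorem stdCube_isCube (n : ℕ) : IsCube (n : ℤ) (stdCube n) := by
  refine ⟨by omega, fun u v huv => ?_⟩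
  funext i
  rw [stdCube_apply, stdCube_apply, huv i (by simp)]

theorem segCube_isCube : IsCube ((1 : ℕ) : ℤ) segCube := by
  refine ⟨by norm_num, fun u v huv => ?_⟩
  rw [segCube_apply, segCube_apply, huv 0 (by simp)]

theorem ends_ne (e : I) (he : e = 0 ∨ e = 1) : 2 * (e : ℝ) - 1 ≠ 0 := by
  rcases he with rfl | rfl <;> norm_num

theorem single_mem_Z {X : Type*} [TopologicalSpace X] {n : ℕ} {σ : C(Cb, X)} {A : Set X}
    (h1 : IsCube (n : ℤ) σ) (h2 : ∀ i < n, ∀ e : I, (e = 0 ∨ e = 1) → ∀ u, σ (ins i e u) ∈ A)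
    (r : R) : Finsupp.single σ r ∈ Z R n Set.univ A := by
  refine ⟨mem_C_single h1 (fun _ => Set.mem_univ _) r, ?_⟩
  change bd (n : ℤ) (Finsupp.single σ r) ∈ Q R ((n : ℤ) - 1) A
  rw [bd_apply]
  refine Submodule.sum_mem _ fun i hi => Submodule.smul_mem _ _ ?_
  rw [Finset.mem_range, Int.toNat_natCast] at hi
  rw [face_single, face_single]
  refine Submodule.sub_mem _ ?_ ?_
  · exact mem_Q_single (h1.face (by exact_mod_cast hi) 1)
      (Or.inl fun u => h2 i hi 1 (Or.inr rfl) u) r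
  · exact mem_Q_single (h1.face (by exact_mod_cast hi) 0)
      (Or.inl fun u => h2 i hi 0 (Or.inl rfl) u) r

theorem segCh_mem : segCh R ∈ Z R (1 : ℕ) Set.univ ({0}ᶜ : Set ℝ) := by
  refine single_mem_Z segCube_isCube (fun i hi e he u => ?_) 1
  have hi0 : i = 0 := by omega
  subst hi0
  simp only [Set.mem_compl_iff, Set.mem_singleton_iff, segCube_apply, ins_apply_self]
  exact ends_ne e he

theorem stdCh_mem (n : ℕ) : stdCh R n ∈ Z R n Set.univ ({0}ᶜ : Set (Fin n → ℝ)) := by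
  refine single_mem_Z (stdCube_isCube n) (fun i hi e he u => ?_) 1
  simp only [Set.mem_compl_iff, Set.mem_singleton_iff]
  intro h
  have h1 := congrFun h ⟨i, hi⟩
  simp only [stdCube_apply, ins_apply_self, Pi.zero_apply] at h1
  exact ends_ne e he h1

section
variable {B : Type*} [TopologicalSpace B]

/-- The inclusion of `B` at height `t`. -/
def inc (t : ℝ) : C(B, ℝ × B) := ⟨fun b => (t, b), by fun_prop⟩

/-- The projection to `B`. -/
def prj : C(ℝ × B, B) := ⟨Prod.snd, continuous_snd⟩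

theorem prj_inc (t : ℝ) (c : Ch R B) : push prj (push (inc t) c) = c := by
  rw [push_push]
  exact push_id c

theorem bd_segCh : bd (R := R) ((1 : ℕ) : ℤ) (segCh R) =
    Finsupp.single (ContinuousMap.const Cb (1 : ℝ)) 1 -
      Finsupp.single (ContinuousMap.const Cb (-1 : ℝ)) 1 := by
  rw [bd_apply]
  simp only [Int.toNat_natCast, Finset.range_one, Finset.sum_singleton, pow_zero, one_smul, segCh,
    face_single]
  congr 2
  · ext u
    simp only [ContinuousMap.comp_apply, segCube_apply, ins_apply_self, ContinuousMap.const_apply]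
    norm_num
  · ext u
    simp only [ContinuousMap.comp_apply, segCube_apply, ins_apply_self, ContinuousMap.const_apply]
    norm_num

theorem cr_const (t : ℝ) (c : Ch R B) :
    cr 0 (Finsupp.single (ContinuousMap.const Cb t) (1 : R)) c = push (inc t) c := by
  have h : cr 0 (Finsupp.single (ContinuousMap.const Cb t) (1 : R)) =
      (push (inc t) : Ch R B →ₗ[R] Ch R (ℝ × B)) := by
    ext σ : 2
    simp only [LinearMap.comp_apply, Finsupp.lsingle_apply, cr_single_single, push_single, mul_one]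
    congr 1
    ext u : 1
    simp only [crossCube_apply, ContinuousMap.const_apply, ContinuousMap.comp_apply, inc,
      ContinuousMap.coe_mk]
    congr 2
    funext j
    rw [drop_apply, zero_add]
  rw [h]

/-- The boundary of the suspension. -/
theorem bd_susp {k : ℤ} {c : Ch R B} (hc : c ∈ C R k Set.univ) :
    bd (((1 : ℕ) : ℤ) + k) (cr 1 (segCh R) c) =
      push (inc 1) c - push (inc (-1)) c - cr 1 (segCh R) (bd k c) := by
  rw [bd_cr segCh_mem.1 hc, bd_segCh, Nat.sub_self, map_sub, LinearMap.sub_apply, cr_const,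
    cr_const, pow_one, neg_one_smul, sub_eq_add_neg _ (cr 1 (segCh R) (bd k c))]

/-- The lower part. -/
def Amin (A : Set B) : Set (ℝ × B) := {p | p.1 < 0 ∨ p.2 ∈ A}

/-- The upper part. -/
def Aplus (B : Type*) : Set (ℝ × B) := {p | 0 < p.1}

theorem isOpen_Amin {A : Set B} (hA : IsOpen A) : IsOpen (Amin A) :=
  (isOpen_lt continuous_fst continuous_const).union (hA.preimage continuous_snd)

theorem isOpen_Aplus : IsOpen (Aplus B) := isOpen_lt continuous_const continuous_fst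

omit [TopologicalSpace B] in
theorem union_eq (A : Set B) :
    {p : ℝ × B | p.1 ≠ 0 ∨ p.2 ∈ A} = Aplus B ∪ Amin A := by
  ext ⟨t, b⟩
  simp only [Aplus, Amin, Set.mem_union, Set.mem_ofPred_eq]
  constructor
  · rintro (h | h)
    · rcases lt_or_gt_of_ne h with h | h
      · exact Or.inr (Or.inl h)
      · exact Or.inl h
    · exact Or.inr (Or.inr h)
  · rintro (h | h | h)
    · exact Or.inl h.ne'
    · exact Or.inl h.ne
    · exact Or.inr h

/-- The pair `(ℝ × B, A⁻)` is acyclic. -/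
theorem acyc_Amin {A : Set B} {k : ℤ} {w : Ch R (ℝ × B)} (hw : w ∈ Z R k Set.univ (Amin A)) :
    Bd R k Set.univ (Amin A) w := by
  obtain ⟨L, hL0, hL⟩ := exists_bound w ⟨Prod.fst, continuous_fst⟩
  let H : C(I × (ℝ × B), ℝ × B) := ⟨fun p => (p.2.1 - (p.1 : ℝ) * (L + 1), p.2.2), by fun_prop⟩
  have h1 := Bd_homotopy (R := R) (H := H) (k := k) (U := Set.univ) (V := Set.univ)
    (A := Amin A) (A' := Amin A) (fun _ _ _ => Set.mem_univ _) (by
      rintro t ⟨s, b⟩ (h | h)
      · left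
        change s - (t : ℝ) * (L + 1) < 0
        have := t.2.1
        have h3 : 0 ≤ (t : ℝ) * (L + 1) := mul_nonneg this (by linarith)
        simp only at h
        linarith
      · exact Or.inr h) hw
  have h2 : push (atTime H 0) w = w := by
    have : atTime H 0 = ContinuousMap.id _ := by
      ext p : 1
      simp [atTime, H]
    rw [this, push_id]
  have h3 : push (atTime H 1) w ∈ C R k (Amin A) := by
    refine push_mem_C_of_support hw.1 fun σ hσ u => ?_
    left
    have h4 := hL σ hσ u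
    simp only [ContinuousMap.coe_mk] at h4
    change (σ u).1 - ((1 : I) : ℝ) * (L + 1) < 0
    have h5 := le_abs_self (σ u).1
    have h6 : ((1 : I) : ℝ) = 1 := rfl
    rw [h6, one_mul]
    linarith
  rw [h2] at h1
  exact Bd.congr (h1.sub_comm) (Bd.of_mem_C h3)

/-- Moving the upper part to height one. -/
noncomputable def upH (B : Type*) [TopologicalSpace B] : C(I × (ℝ × B), ℝ × B) :=
  ⟨fun p => ((1 - (p.1 : ℝ)) * p.2.1 + (p.1 : ℝ), p.2.2), by fun_prop⟩

theorem upH_pos (t : I) (p : ℝ × B) (hp : p ∈ Aplus B) : upH B (t, p) ∈ Aplus B := by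
  change 0 < (1 - (t : ℝ)) * p.1 + (t : ℝ)
  have h1 := t.2.1
  have h2 := t.2.2
  have h3 : 0 < p.1 := hp
  rcases lt_or_ge (t : ℝ) (1 / 2) with h | h
  · have : 0 < (1 - (t : ℝ)) * p.1 := mul_pos (by linarith) h3
    linarith
  · have : 0 ≤ (1 - (t : ℝ)) * p.1 := mul_nonneg (by linarith) h3.le
    linarith

theorem atTime_upH_zero : atTime (upH B) 0 = ContinuousMap.id _ := by
  ext p : 1
  simp [atTime, upH]

theorem atTime_upH_one (c : Ch R (ℝ × B)) :
    push (atTime (upH B) 1) c = push (inc 1) (push prj c) := by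
  rw [push_push]
  congr 1
  congr 1
  ext p : 1
  simp [atTime, upH, inc, prj]

/-- Suspension is injective. -/
theorem susp_inj {A : Set B} (hA : IsOpen A) {k : ℤ} {c : Ch R B}
    (hc : c ∈ Z R k (Set.univ : Set B) A)
    (h : Bd R ((1 : ℕ) + k) Set.univ {p : ℝ × B | p.1 ≠ 0 ∨ p.2 ∈ A} (cr 1 (segCh R) c)) :
    Bd R k Set.univ A c := by
  obtain ⟨w, hw, hr⟩ := h
  have h1 := bd_susp (R := R) hc.1
  have h2 := bd_bd (R := R) (((1 : ℕ) : ℤ) + k + 1) w
  rw [add_sub_cancel_right] at h2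
  rw [Q_eq_sup] at hr
  obtain ⟨r1, hr1, r2, hr2, hr12⟩ := Submodule.mem_sup.mp hr
  have h3 : bd (((1 : ℕ) : ℤ) + k) r1 = push (inc 1) c - push (inc (-1)) c -
      cr 1 (segCh R) (bd k c) - bd (((1 : ℕ) : ℤ) + k) r2 := by
    rw [← h1, eq_sub_iff_add_eq, ← map_add, hr12, map_sub, h2, sub_zero]
  have e1 : ((1 : ℕ) : ℤ) + k = k + 1 := by push_cast; ring
  have h4 : Bd R k {p : ℝ × B | p.1 ≠ 0 ∨ p.2 ∈ A} (Amin A) (push (inc 1) c) := by
    refine ⟨r1, by rwa [← e1], ?_⟩
    rw [← e1, h3]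
    have h5 : push (inc 1) c - (push (inc 1) c - push (inc (-1)) c -
        cr 1 (segCh R) (bd k c) - bd (((1 : ℕ) : ℤ) + k) r2) =
        push (inc (-1)) c + cr 1 (segCh R) (bd k c) + bd (((1 : ℕ) : ℤ) + k) r2 := by abel
    rw [h5]
    refine Submodule.add_mem _ (Submodule.add_mem _ ?_ ?_) ?_
    · refine C_le_Q _ _ (push_mem_C (fun b _ => ?_) hc.1)
      exact Or.inl (by simp [inc])
    · have h6 := cr_mem_Q_right (n := 1) segCh_mem.1 (show bd k c ∈ Q R (k - 1) A from hc.2)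
      have e2 : ((1 : ℕ) : ℤ) + (k - 1) = k := by push_cast; ring
      rw [e2] at h6
      exact Q_mono _ (fun p hp => Or.inr hp.2) h6
    · have h6 := bd_mem_Q hr2
      have e2 : ((1 : ℕ) : ℤ) + k - 1 = k := by push_cast; ring
      rw [e2] at h6
      exact Q_mono _ (Set.empty_subset _) h6
  have h5 : push (inc 1) c ∈ C R k (Aplus B) :=
    push_mem_C (fun b _ => by simp [inc, Aplus]) hc.1
  obtain ⟨a, ha, h6⟩ := excision_inj isOpen_Aplus (isOpen_Amin hA) (union_eq A) h5 h4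
  refine ⟨push prj a, push_mem_C (Set.mapsTo_univ _ _) ha, ?_⟩
  have h7 := mem_Q_inter (Submodule.sub_mem _ h5 (by
    have := bd_mem_C ha
    rwa [add_sub_cancel_right] at this)) h6
  have h8 := push_mem_Q (f := prj) (V := A) (by
    rintro ⟨t, b⟩ ⟨ht, h | h⟩
    · exact absurd h (not_lt.mpr (le_of_lt ht))
    · exact h) h7
  rwa [map_sub, prj_inc, ← bd_push] at h8

/-- Suspension is surjective. -/
theorem susp_surj {A : Set B} (hA : IsOpen A) {k : ℤ} {w : Ch R (ℝ × B)}
    (hw : w ∈ Z R ((1 : ℕ) + k) Set.univ {p : ℝ × B | p.1 ≠ 0 ∨ p.2 ∈ A}) :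
    ∃ c ∈ Z R k (Set.univ : Set B) A,
      Bd R ((1 : ℕ) + k) Set.univ {p : ℝ × B | p.1 ≠ 0 ∨ p.2 ∈ A} (w - cr 1 (segCh R) c) := by
  have e1 : ((1 : ℕ) : ℤ) + k = k + 1 := by push_cast; ring
  have e2 : ((1 : ℕ) : ℤ) + k - 1 = k := by push_cast; ring
  have hdw : bd (((1 : ℕ) : ℤ) + k) w ∈ Q R (((1 : ℕ) : ℤ) + k - 1)
    {p : ℝ × B | p.1 ≠ 0 ∨ p.2 ∈ A} := hw.2
  have h2 := bd_bd (R := R) (((1 : ℕ) : ℤ) + k) w
  rw [e2] at hdw h2
  rw [Q_eq_sup] at hdw
  obtain ⟨v1, hv1, v2, hv2, hv⟩ := Submodule.mem_sup.mp hdw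
  obtain ⟨p, hp, b, hb, hpb⟩ := excision_surj isOpen_Aplus (isOpen_Amin hA) (union_eq A)
    (w := v1) (k := k) ⟨hv1, by
      change bd k v1 ∈ Q R (k - 1) (Amin A)
      have h3 : bd k v1 = - bd k v2 := by
        rw [eq_neg_iff_add_eq_zero, ← map_add, hv, h2]
      rw [h3]
      exact Submodule.neg_mem _ (Q_mono _ (Set.empty_subset _) (bd_mem_Q hv2))⟩
  have hpd : bd k p ∈ Q R (k - 1) (Aplus B ∩ Amin A) := mem_Q_inter (bd_mem_C hp.1) hp.2
  have hc : push prj p ∈ Z R k (Set.univ : Set B) A := by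
    refine ⟨push_mem_C (Set.mapsTo_univ _ _) hp.1, ?_⟩
    change bd k (push prj p) ∈ Q R (k - 1) A
    rw [bd_push]
    refine push_mem_Q ?_ hpd
    rintro ⟨t, b⟩ ⟨ht, h | h⟩
    · exact absurd h (not_lt.mpr (le_of_lt ht))
    · exact h
  refine ⟨push prj p, hc, ?_⟩
  -- the corrected chain
  have hP : prism (upH B) p ∈ C R (k + 1) (Aplus B) := prism_mem_C (fun t x hx => upH_pos t x hx)
    hp.1
  have hPd : prism (upH B) (bd k p) ∈ Q R k (Amin A) := by
    have h3 := prism_mem_Q (R := R) (H := upH B) (V := Aplus B ∩ Amin A) (by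
      rintro t ⟨s, b⟩ ⟨hs, h | h⟩
      · exact absurd h (not_lt.mpr (le_of_lt hs))
      · exact ⟨upH_pos t _ hs, Or.inr h⟩) hpd
    rw [sub_add_cancel] at h3
    exact Q_mono _ Set.inter_subset_right h3
  have hw'' : w - b + prism (upH B) p - cr 1 (segCh R) (push prj p) ∈
      Z R (((1 : ℕ) : ℤ) + k) Set.univ (Amin A) := by
    refine ⟨?_, ?_⟩
    · refine Submodule.sub_mem _ (Submodule.add_mem _ (Submodule.sub_mem _ hw.1 ?_) ?_) ?_
      · rw [e1]; exact C_mono _ (Set.subset_univ _) hb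
      · rw [e1]; exact C_mono _ (Set.subset_univ _) hP
      · exact C_mono _ (Set.subset_univ _) (cr_mem_C segCh_mem.1 hc.1)
    · change bd (((1 : ℕ) : ℤ) + k) _ ∈ Q R (((1 : ℕ) : ℤ) + k - 1) (Amin A)
      rw [map_sub, map_add, map_sub, bd_susp hc.1, e1, bd_prism (C_mono _ (Set.subset_univ _)
        hp.1), atTime_upH_zero, push_id, atTime_upH_one, add_sub_cancel_right, ← e1, ← hv, e1]
      have h3 : v1 + v2 - bd (k + 1) b + (push (inc 1) (push prj p) - p - prism (upH B) (bd k p)) -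
          (push (inc 1) (push prj p) - push (inc (-1)) (push prj p) -
            cr 1 (segCh R) (bd k (push prj p))) =
          (v1 - p - bd (k + 1) b) + v2 - prism (upH B) (bd k p) +
            push (inc (-1)) (push prj p) + cr 1 (segCh R) (bd k (push prj p)) := by abel
      rw [h3]
      refine Submodule.add_mem _ (Submodule.add_mem _ (Submodule.sub_mem _
        (Submodule.add_mem _ hpb (Q_mono _ (Set.empty_subset _) hv2)) hPd) ?_) ?_
      · refine C_le_Q _ _ (push_mem_C (fun b _ => ?_) hc.1)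
        exact Or.inl (by simp [inc])
      · have h6 := cr_mem_Q_right (n := 1) segCh_mem.1
          (show bd k (push prj p) ∈ Q R (k - 1) A from hc.2)
        have e3 : ((1 : ℕ) : ℤ) + (k - 1) = k := by push_cast; ring
        rw [e3] at h6
        exact Q_mono _ (fun p hp => Or.inr hp.2) h6
  have h4 := (acyc_Amin hw'').mono (Set.Subset.refl _)
    (show Amin A ⊆ {p : ℝ × B | p.1 ≠ 0 ∨ p.2 ∈ A} by
      rw [union_eq]; exact Set.subset_union_right)
  have h5 : w - cr 1 (segCh R) (push prj p) =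
      (w - b + prism (upH B) p - cr 1 (segCh R) (push prj p)) + (b - prism (upH B) p) := by abel
  rw [h5]
  refine h4.add (Bd.of_mem_C (Submodule.sub_mem _ ?_ ?_))
  · rw [e1]; exact hb
  · rw [e1, union_eq]; exact C_mono _ Set.subset_union_left hP

end

/-- **Suspension.** `c ↦ segCh × c` is an isomorphism
`H_k(B, A) → H_{k+1}(ℝ × B, (ℝ ∖ 0) × B ∪ ℝ × A)` for `A` open in `B`. -/
theorem suspension {B : Type*} [TopologicalSpace B] {A : Set B} (hA : IsOpen A) :
    (Sys.cone (crossHom (R := R) (n := 1) (Y := ℝ) (V' := {0}ᶜ) (A := A)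
      (A' := {p : ℝ × B | p.1 ≠ 0 ∨ p.2 ∈ A}) (segCh R) segCh_mem
      (fun _ hp => Or.inr hp.2) (fun _ hp => Or.inl hp.1))).Acyc Set.univ := by
  rw [cone_cross_iff]
  exact ⟨fun k c hc h => susp_inj hA hc h, fun k w hw => susp_surj hA hw⟩

/-- The homeomorphism `ℝ × (ℝ^n × B) ≃ ℝ^(n+1) × B`, forwards. -/
def consMap (n : ℕ) (B : Type*) [TopologicalSpace B] :
    C(ℝ × ((Fin n → ℝ) × B), (Fin (n + 1) → ℝ) × B) :=
  ⟨fun p => (Fin.cons p.1 p.2.1, p.2.2), by
    refine Continuous.prodMk ?_ (by fun_prop)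
    refine continuous_pi fun i => ?_
    refine Fin.cases ?_ (fun i => ?_) i
    · simpa using continuous_fst
    · simp only [Fin.cons_succ]; fun_prop⟩

/-- The homeomorphism `ℝ × (ℝ^n × B) ≃ ℝ^(n+1) × B`, backwards. -/
def tailMap (n : ℕ) (B : Type*) [TopologicalSpace B] :
    C((Fin (n + 1) → ℝ) × B, ℝ × ((Fin n → ℝ) × B)) :=
  ⟨fun p => (p.1 0, (Fin.tail p.1, p.2)), by
    refine Continuous.prodMk (by fun_prop) (Continuous.prodMk ?_ (by fun_prop))
    exact continuous_pi fun i => by unfold Fin.tail; fun_prop⟩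

theorem cons_tail (n : ℕ) {B : Type*} [TopologicalSpace B] :
    (consMap n B).comp (tailMap n B) = ContinuousMap.id _ := by
  ext p : 1
  simp [consMap, tailMap]

theorem tail_cons (n : ℕ) {B : Type*} [TopologicalSpace B] :
    (tailMap n B).comp (consMap n B) = ContinuousMap.id _ := by
  ext p : 1
  simp [consMap, tailMap]

theorem cons_ne (n : ℕ) {B : Type*} [TopologicalSpace B] (A : Set B)
    (p : ℝ × ((Fin n → ℝ) × B)) :
    ((consMap n B p).1 ≠ 0 ∨ (consMap n B p).2 ∈ A) ↔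
      (p.1 ≠ 0 ∨ p.2 ∈ {q : (Fin n → ℝ) × B | q.1 ≠ 0 ∨ q.2 ∈ A}) := by
  obtain ⟨t, x, b⟩ := p
  simp only [consMap, ContinuousMap.coe_mk, Set.mem_ofPred_eq]
  have h : (Fin.cons t x : Fin (n + 1) → ℝ) ≠ 0 ↔ t ≠ 0 ∨ x ≠ 0 := by
    rw [ne_eq, funext_iff, Fin.forall_fin_succ]
    simp only [Fin.cons_zero, Pi.zero_apply, Fin.cons_succ, not_and_or, funext_iff, ne_eq]
  rw [h, or_assoc]

theorem cr_stdCh_succ (n : ℕ) {B : Type*} [TopologicalSpace B] (c : Ch R B) :
    cr (n + 1) (stdCh R (n + 1)) c = push (consMap n B) (cr 1 (segCh R) (cr n (stdCh R n) c)) := by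
  have h : cr (B := B) (n + 1) (stdCh R (n + 1)) =
      (push (consMap n B)).comp ((cr 1 (segCh R)).comp (cr n (stdCh R n))) := by
    ext σ : 2
    simp only [LinearMap.comp_apply, Finsupp.lsingle_apply, stdCh, segCh, cr_single_single,
      push_single, mul_one]
    congr 1
    ext u : 1
    simp only [ContinuousMap.comp_apply, crossCube_apply, consMap, ContinuousMap.coe_mk]
    refine Prod.ext ?_ ?_
    · funext i
      simp only
      refine Fin.cases ?_ (fun i => ?_) i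
      · simp [stdCube_apply, segCube_apply]
      · simp only [stdCube_apply, Fin.cons_succ, Fin.val_succ, drop_apply]
        rw [add_comm]
    · simp only
      congr 1
      funext j
      simp only [drop_apply]
      congr 1
      omega
  rw [h]
  rfl

theorem std_sub1 (n : ℕ) {B : Type*} {A : Set B} :
    (Set.univ : Set (Fin n → ℝ)) ×ˢ A ⊆ {p : (Fin n → ℝ) × B | p.1 ≠ 0 ∨ p.2 ∈ A} :=
  fun _ hp => Or.inr hp.2

theorem std_sub2 (n : ℕ) {B : Type*} {A : Set B} :
    ({0}ᶜ : Set (Fin n → ℝ)) ×ˢ (Set.univ : Set B) ⊆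
      {p : (Fin n → ℝ) × B | p.1 ≠ 0 ∨ p.2 ∈ A} :=
  fun _ hp => Or.inl hp.1

theorem isOpen_std (n : ℕ) {B : Type*} [TopologicalSpace B] {A : Set B} (hA : IsOpen A) :
    IsOpen {p : (Fin n → ℝ) × B | p.1 ≠ 0 ∨ p.2 ∈ A} :=
  (isOpen_ne_fun continuous_fst continuous_const).union (hA.preimage continuous_snd)

/-- Iterated suspension, in terms of relative cycles. -/
theorem suspN (n : ℕ) {B : Type*} [TopologicalSpace B] {A : Set B} (hA : IsOpen A) :
    (∀ k : ℤ, ∀ c ∈ Z R k (Set.univ : Set B) A,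
      Bd R (n + k) Set.univ {p : (Fin n → ℝ) × B | p.1 ≠ 0 ∨ p.2 ∈ A} (cr n (stdCh R n) c) →
        Bd R k Set.univ A c) ∧
      (∀ k : ℤ, ∀ w ∈ Z R (n + k) (Set.univ : Set ((Fin n → ℝ) × B))
        {p : (Fin n → ℝ) × B | p.1 ≠ 0 ∨ p.2 ∈ A},
        ∃ c ∈ Z R k (Set.univ : Set B) A, Bd R (n + k) Set.univ
          {p : (Fin n → ℝ) × B | p.1 ≠ 0 ∨ p.2 ∈ A} (w - cr n (stdCh R n) c)) := by
  induction n with
  | zero =>
    let i0 : C(B, (Fin 0 → ℝ) × B) := ⟨fun b => (0, b), by fun_prop⟩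
    let p0 : C((Fin 0 → ℝ) × B, B) := ⟨Prod.snd, continuous_snd⟩
    have h1 : ∀ c : Ch R B, cr 0 (stdCh R 0) c = push i0 c := by
      intro c
      have h : cr (B := B) 0 (stdCh R 0) = push i0 := by
        ext σ : 2
        simp only [LinearMap.comp_apply, Finsupp.lsingle_apply, stdCh, cr_single_single,
          push_single, mul_one]
        congr 1
        ext u : 1
        simp only [ContinuousMap.comp_apply, crossCube_apply, i0, ContinuousMap.coe_mk]
        refine Prod.ext (Subsingleton.elim _ _) ?_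
        simp only
        congr 1
        funext j
        rw [drop_apply, zero_add]
      rw [h]
    have hset : {p : (Fin 0 → ℝ) × B | p.1 ≠ 0 ∨ p.2 ∈ A} = {p | p.2 ∈ A} := by
      ext p
      simp only [Set.mem_ofPred_eq]
      constructor
      · rintro (h | h)
        · exact absurd (Subsingleton.elim _ _) h
        · exact h
      · exact Or.inr
    have hip : i0.comp p0 = ContinuousMap.id _ := by
      ext p : 1
      exact Prod.ext (Subsingleton.elim _ _) rfl
    have hpi : p0.comp i0 = ContinuousMap.id _ := rfl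
    rw [hset]
    refine ⟨fun k c hc h => ?_, fun k w hw => ⟨push p0 w, ?_, ?_⟩⟩
    · rw [h1, Nat.cast_zero, zero_add] at h
      have h2 := Bd.push (f := p0) (V := Set.univ) (A' := A) (Set.mapsTo_univ _ _)
        (fun p hp => hp) h
      rwa [push_push, hpi, push_id] at h2
    · rw [Nat.cast_zero, zero_add] at hw
      exact push_mem_Z (Set.mapsTo_univ _ _) (fun p hp => hp) hw
    · rw [h1, push_push, hip, push_id, sub_self]
      exact Bd.zero _ _ _
  | succ n ih =>
    obtain ⟨ih1, ih2⟩ := ih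
    have hAn := isOpen_std n hA
    have e1 : ∀ k : ℤ, ((n + 1 : ℕ) : ℤ) + k = ((1 : ℕ) : ℤ) + ((n : ℤ) + k) := fun k => by
      push_cast; ring
    have hm1 : Set.MapsTo (consMap n B)
        {p : ℝ × ((Fin n → ℝ) × B) | p.1 ≠ 0 ∨ p.2 ∈ {q : (Fin n → ℝ) × B | q.1 ≠ 0 ∨ q.2 ∈ A}}
        {p : (Fin (n + 1) → ℝ) × B | p.1 ≠ 0 ∨ p.2 ∈ A} := fun p hp => (cons_ne n A p).2 hp
    have hm2 : Set.MapsTo (tailMap n B) {p : (Fin (n + 1) → ℝ) × B | p.1 ≠ 0 ∨ p.2 ∈ A}
        {p : ℝ × ((Fin n → ℝ) × B) |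
          p.1 ≠ 0 ∨ p.2 ∈ {q : (Fin n → ℝ) × B | q.1 ≠ 0 ∨ q.2 ∈ A}} := fun p hp => by
      refine (cons_ne n A _).1 ?_
      have := DFunLike.congr_fun (cons_tail n (B := B)) p
      simp only [ContinuousMap.comp_apply, ContinuousMap.id_apply] at this
      rw [this]
      exact hp
    refine ⟨fun k c hc h => ?_, fun k w hw => ?_⟩
    · rw [cr_stdCh_succ, e1] at h
      have h2 := Bd.push (f := tailMap n B) (Set.mapsTo_univ _ _) hm2 h
      rw [push_push, tail_cons, push_id] at h2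
      refine ih1 k c hc (susp_inj hAn ?_ h2)
      exact cr_mem_Z (stdCh_mem n) hc (Set.subset_univ _) (std_sub2 n) (std_sub1 n)
    · rw [e1] at hw
      obtain ⟨y, hy, h1⟩ := susp_surj hAn (push_mem_Z (f := tailMap n B)
        (Set.mapsTo_univ _ Set.univ) hm2 hw)
      obtain ⟨c, hc, h2⟩ := ih2 k y hy
      refine ⟨c, hc, ?_⟩
      have h3 := Bd.cr_right (R := R) (n := 1) segCh_mem h2 (W := Set.univ)
        (A' := {p : ℝ × ((Fin n → ℝ) × B) |
          p.1 ≠ 0 ∨ p.2 ∈ {q : (Fin n → ℝ) × B | q.1 ≠ 0 ∨ q.2 ∈ A}})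
        (Set.subset_univ _) (fun _ hp => Or.inl hp.1) (fun _ hp => Or.inr hp.2)
      rw [map_sub] at h3
      have h4 := Bd.push (f := consMap n B) (V := Set.univ) (Set.mapsTo_univ _ _) hm1
        (h1.trans h3)
      rw [map_sub, push_push, cons_tail, push_id, ← cr_stdCh_succ, ← e1] at h4
      exact h4

/-- **Iterated suspension.** `c ↦ stdCh n × c` is an isomorphism
`H_k(B, A) → H_{n+k}(ℝ^n × B, (ℝ^n ∖ 0) × B ∪ ℝ^n × A)` for `A` open in `B`. -/
theorem suspensionN (n : ℕ) {B : Type*} [TopologicalSpace B] {A : Set B} (hA : IsOpen A) :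
    (Sys.cone (crossHom (R := R) (n := n) (Y := Fin n → ℝ) (V' := {0}ᶜ) (A := A)
      (A' := {p : (Fin n → ℝ) × B | p.1 ≠ 0 ∨ p.2 ∈ A}) (stdCh R n) (stdCh_mem n)
      (fun _ hp => Or.inr hp.2) (fun _ hp => Or.inl hp.1))).Acyc Set.univ := by
  rw [cone_cross_iff]
  exact suspN n hA

end CubeHom
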