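import Pool.Agent.Lib.MP_cb6a70_gt_HB.Local
import Pool.Agent.Lib.MP_cb6a70_gt_HB.Calc

/-!
# Theorem L: the cross product with a locally generating cycle
-/

namespace CubeHom

variable {R : Type*} [CommRing R]

/-- `z` generates the local homology of `Y` at every point. -/
def LocGen {Y : Type*} [TopologicalSpace Y] (n : ℕ) (z : Ch R Y) : Prop :=
  ∀ y : Y, ∀ w ∈ Z R n Set.univ ({y}ᶜ : Set Y),
    ∃ r : R, Bd R n Set.univ ({y}ᶜ : Set Y) (w - r • z)

namespace TL

/-! ### Relative homology of the image of an embedding -/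

section embed

variable {X₀ X : Type*} [TopologicalSpace X₀] [TopologicalSpace X]

/-- A chain of the range of an embedding. -/
theorem exists_push_of_mem_C {j : C(X₀, X)} (hj : Topology.IsInducing j)
    (hj' : Function.Injective j) {k : ℤ} {c : Ch R X} (hc : c ∈ C R k (Set.range j)) :
    ∃ c₀ ∈ C R k (Set.univ : Set X₀), push j c₀ = c := by
  rw [← map_push_C hj hj'] at hc
  exact hc

/-- A relative cycle of the range of an embedding. -/
theorem exists_push_of_mem_Z {j : C(X₀, X)} (hj : Topology.IsInducing j)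
    (hj' : Function.Injective j) {k : ℤ} {A : Set X} {c : Ch R X}
    (hc : c ∈ Z R k (Set.range j) A) :
    ∃ c₀ ∈ Z R k (Set.univ : Set X₀) (j ⁻¹' A), push j c₀ = c := by
  obtain ⟨c₀, h0, rfl⟩ := exists_push_of_mem_C hj hj' hc.1
  refine ⟨c₀, ⟨h0, ?_⟩, rfl⟩
  have h1 : bd k (push j c₀) ∈ Q R (k - 1) A := hc.2
  rw [bd_push, push_mem_Q_iff hj'] at h1
  exact h1

theorem Bd_push_iff {j : C(X₀, X)} (hj : Topology.IsInducing j)
    (hj' : Function.Injective j) {k : ℤ} {A : Set X} {c₀ : Ch R X₀} :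
    Bd R k (Set.range j) A (push j c₀) ↔ Bd R k Set.univ (j ⁻¹' A) c₀ := by
  constructor
  · rintro ⟨b, hb, h⟩
    obtain ⟨b₀, hb₀, rfl⟩ := exists_push_of_mem_C hj hj' hb
    refine ⟨b₀, hb₀, ?_⟩
    rwa [bd_push, ← map_sub, push_mem_Q_iff hj'] at h
  · intro h
    exact h.push (fun x _ => Set.mem_range_self x) (fun x hx => hx)

/-- Excision along an open embedding, surjectivity. -/
theorem open_emb_surj {j : C(X₀, X)} (hj : Topology.IsOpenEmbedding j) {V : Set X}
    (hV : IsOpen V) (hcov : ∀ x, x ∈ Set.range j ∨ x ∈ V) {k : ℤ} {w : Ch R X}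
    (hw : w ∈ Z R k Set.univ V) :
    ∃ w₀ ∈ Z R k (Set.univ : Set X₀) (j ⁻¹' V), Bd R k Set.univ V (w - push j w₀) := by
  have hS : (Set.univ : Set X) = Set.range j ∪ V := by
    ext x
    simpa using hcov x
  obtain ⟨w', hw', h⟩ := excision_surj hj.isOpen_range hV hS hw
  obtain ⟨w₀, h0, rfl⟩ := exists_push_of_mem_Z hj.toIsInducing hj.injective hw'
  exact ⟨w₀, h0, h⟩

/-- Excision along an open embedding, injectivity. -/
theorem open_emb_inj {j : C(X₀, X)} (hj : Topology.IsOpenEmbedding j) {V : Set X}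
    (hV : IsOpen V) (hcov : ∀ x, x ∈ Set.range j ∨ x ∈ V) {k : ℤ} {c₀ : Ch R X₀}
    (hc : c₀ ∈ C R k Set.univ) (h : Bd R k Set.univ V (push j c₀)) :
    Bd R k Set.univ (j ⁻¹' V) c₀ := by
  have hS : (Set.univ : Set X) = Set.range j ∪ V := by
    ext x
    simpa using hcov x
  rw [← Bd_push_iff hj.toIsInducing hj.injective]
  exact excision_inj hj.isOpen_range hV hS (push_mem_C (fun x _ => Set.mem_range_self x) hc) h

end embed

/-! ### The boundary of the standard cube -/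

/-- The boundary of the box. -/
def boxBd (n : ℕ) : Set (Fin n → ℝ) := {x | ∃ i, x i = 1 ∨ x i = -1}

theorem stdCube_isCube (n : ℕ) : IsCube (n : ℤ) (stdCube n) := by
  refine ⟨by omega, fun x y hxy => ?_⟩
  funext i
  have h : x i = y i := hxy i (by simp only [Set.mem_ofPred_eq]; exact_mod_cast i.2)
  change 2 * ((x i : I) : ℝ) - 1 = 2 * ((y i : I) : ℝ) - 1
  rw [h]

theorem stdCh_mem_boxBd (n : ℕ) : stdCh R n ∈ Z R n Set.univ (boxBd n) := by
  refine ⟨mem_C_single (stdCube_isCube n) (fun _ => Set.mem_univ _) _, ?_⟩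
  change bd (n : ℤ) (stdCh R n) ∈ Q R ((n : ℤ) - 1) (boxBd n)
  rw [bd_apply]
  refine Submodule.sum_mem _ fun i hi => Submodule.smul_mem _ _ (Submodule.sub_mem _ ?_ ?_)
  all_goals
    rw [Finset.mem_range, Int.toNat_natCast] at hi
    unfold stdCh
    rw [face_single]
    refine C_le_Q _ _ (mem_C_single ((stdCube_isCube n).face (by exact_mod_cast hi) _)
      (fun u => ?_) _)
    refine ⟨⟨i, hi⟩, ?_⟩
    change 2 * ((ins i _ u i : I) : ℝ) - 1 = 1 ∨ 2 * ((ins i _ u i : I) : ℝ) - 1 = -1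
    rw [ins_apply_self]
    norm_num

/-! ### The chart chain, over a space mapped to the chart -/

section chart

variable {Y : Type*} [TopologicalSpace Y] {B : Type*} [TopologicalSpace B]

/-- The statement of Theorem L, unfolded. -/
def CrossIso (n : ℕ) (z : Ch R Y) (g : C(B, Y)) : Prop :=
  (∀ k : ℤ, ∀ c ∈ Z R k (Set.univ : Set B) ∅,
    Bd R (n + k) Set.univ {p : Y × B | p.1 ≠ g p.2} (cr n z c) → Bd R k Set.univ ∅ c) ∧
  (∀ k : ℤ, ∀ w ∈ Z R (n + k) (Set.univ : Set (Y × B)) {p : Y × B | p.1 ≠ g p.2},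
    ∃ c ∈ Z R k (Set.univ : Set B) ∅,
      Bd R (n + k) Set.univ {p : Y × B | p.1 ≠ g p.2} (w - cr n z c))

/-- The chart as a map to `Y`. -/
noncomputable def chartMap {n : ℕ} {S : Set Y} (φ : S ≃ₜ (Fin n → ℝ)) : C(Fin n → ℝ, Y) :=
  ⟨fun x => (φ.symm x : Y), continuous_subtype_val.comp φ.symm.continuous⟩

theorem push_chartMap {n : ℕ} {S : Set Y} (φ : S ≃ₜ (Fin n → ℝ)) :
    push (chartMap φ) (stdCh R n) = locCh R φ := by
  unfold stdCh locCh
  rw [push_single]
  rfl

theorem chartMap_isOpenEmbedding {n : ℕ} {S : Set Y} (hS : IsOpen S) (φ : S ≃ₜ (Fin n → ℝ)) :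
    Topology.IsOpenEmbedding (chartMap φ) :=
  hS.isOpenEmbedding_subtypeVal.comp φ.symm.isOpenEmbedding

theorem range_chartMap {n : ℕ} {S : Set Y} (φ : S ≃ₜ (Fin n → ℝ)) :
    Set.range (chartMap φ) = S := by
  ext y
  constructor
  · rintro ⟨x, rfl⟩
    exact (φ.symm x).2
  · intro hy
    exact ⟨φ ⟨y, hy⟩, by simp [chartMap]⟩

/-- The straight line homotopy of the shear. -/
def shearH {n : ℕ} (γ : C(B, Fin n → ℝ)) :
    C(I × ((Fin n → ℝ) × B), (Fin n → ℝ) × B) :=
  ⟨fun q => (q.2.1 - ((q.1 : I) : ℝ) • γ q.2.2, q.2.2), by fun_prop⟩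

/-- The shear. -/
def shear {n : ℕ} (γ : C(B, Fin n → ℝ)) : C((Fin n → ℝ) × B, (Fin n → ℝ) × B) :=
  ⟨fun q => (q.1 - γ q.2, q.2), by fun_prop⟩

/-- The inverse shear. -/
def unshear {n : ℕ} (γ : C(B, Fin n → ℝ)) : C((Fin n → ℝ) × B, (Fin n → ℝ) × B) :=
  ⟨fun q => (q.1 + γ q.2, q.2), by fun_prop⟩

theorem crossIso_locCh [T2Space Y] {n : ℕ} {S : Set Y} (hS : IsOpen S) (φ : S ≃ₜ (Fin n → ℝ))
    (g : C(B, Y)) (γ : C(B, Fin n → ℝ)) (hγ : ∀ b, g b = chartMap φ (γ b))
    (hγ1 : ∀ b i, |γ b i| < 1) : CrossIso n (locCh R φ) g := by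
  obtain ⟨hinj, hsurj⟩ := (cone_cross_iff (R := R) (n := n) (A := (∅ : Set B)) (stdCh R n)
    (stdCh_mem n) (fun _ hp => Or.inr hp.2) (fun _ hp => Or.inl hp.1)).mp
    (suspensionN n (isOpen_empty))
  -- the embedding
  let j : C((Fin n → ℝ) × B, Y × B) := (chartMap φ).prodMap (ContinuousMap.id B)
  have hj : Topology.IsOpenEmbedding j :=
    (chartMap_isOpenEmbedding hS φ).prodMap Topology.IsOpenEmbedding.id
  let V : Set (Y × B) := {p : Y × B | p.1 ≠ g p.2}
  have hV : IsOpen V := isOpen_ne_fun continuous_fst (g.continuous.comp continuous_snd)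
  have hcov : ∀ x, x ∈ Set.range j ∨ x ∈ V := by
    rintro ⟨y, b⟩
    by_cases h : y = g b
    · left
      exact ⟨(γ b, b), by rw [h, hγ]; rfl⟩
    · exact Or.inr h
  let A₀ : Set ((Fin n → ℝ) × B) := {p | p.1 ≠ 0 ∨ p.2 ∈ (∅ : Set B)}
  have hjV : ∀ p : (Fin n → ℝ) × B, p ∈ j ⁻¹' V ↔ p.1 ≠ γ p.2 := by
    rintro ⟨x, b⟩
    change chartMap φ x ≠ g b ↔ x ≠ γ b
    rw [hγ]
    exact (chartMap_isOpenEmbedding hS φ).injective.ne_iff
  have hsh : Set.MapsTo (shear γ) (j ⁻¹' V) A₀ := by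
    rintro ⟨x, b⟩ h
    rw [hjV] at h
    exact Or.inl (sub_ne_zero.mpr h)
  have hun : Set.MapsTo (unshear γ) A₀ (j ⁻¹' V) := by
    rintro ⟨x, b⟩ h
    rw [hjV]
    rcases h with h | h
    · intro h2
      exact h (add_eq_right.mp h2)
    · exact h.elim
  have hus : (unshear γ).comp (shear γ) = ContinuousMap.id _ := by
    ext p
    · simp [shear, unshear]
    · rfl
  have hjcr : ∀ c : Ch R B, push j (cr n (stdCh R n) c) = cr n (locCh R φ) c := by
    intro c
    rw [← push_cr, push_chartMap, push_id]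
  have hhom : ∀ k : ℤ, ∀ c ∈ Z R k (Set.univ : Set B) ∅,
      Bd R (n + k) Set.univ A₀ (push (shear γ) (cr n (stdCh R n) c) - cr n (stdCh R n) c) := by
    intro k c hc
    have h1 : cr n (stdCh R n) c ∈ Z R (n + k) Set.univ (boxBd n ×ˢ (Set.univ : Set B)) :=
      cr_mem_Z (stdCh_mem_boxBd n) hc (Set.subset_univ _) le_rfl (fun _ hp => hp.2.elim)
    have h2 := Bd_homotopy (H := shearH γ) (V := Set.univ) (A' := A₀) (fun _ _ _ => Set.mem_univ _)
      (by
        rintro t ⟨x, b⟩ ⟨⟨i, hi⟩, -⟩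
        refine Or.inl fun h0 => ?_
        have h3 : x i - (t : ℝ) * γ b i = 0 := congrFun h0 i
        have h4 := abs_lt.mp (hγ1 b i)
        have ht0 := t.2.1
        have ht1 := t.2.2
        have h5 : |(t : ℝ) * γ b i| < 1 := by
          rw [abs_mul, abs_of_nonneg ht0]
          calc (t : ℝ) * |γ b i| ≤ 1 * |γ b i| :=
                mul_le_mul_of_nonneg_right ht1 (abs_nonneg _)
            _ < 1 := by rw [one_mul]; exact hγ1 b i
        have h6 := abs_lt.mp h5
        rcases hi with hi | hi <;> (dsimp only at hi; rw [hi] at h3; linarith [h6.1, h6.2]))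
      h1
    have e1 : atTime (shearH γ) 1 = shear γ := by
      ext p
      · simp [atTime, shearH, shear]
      · rfl
    have e0 : atTime (shearH γ) 0 = ContinuousMap.id _ := by
      ext p
      · simp [atTime, shearH]
      · rfl
    rwa [e1, e0, push_id] at h2
  refine ⟨fun k c hc h => ?_, fun k w hw => ?_⟩
  · rw [← hjcr] at h
    have hcC : cr n (stdCh R n) c ∈ C R (n + k) Set.univ :=
      C_mono _ (Set.subset_univ _) (cr_mem_C (stdCh_mem n).1 hc.1)
    have h1 := open_emb_inj hj hV hcov hcC h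
    have h2 := h1.push (f := shear γ) (V := Set.univ) (fun _ _ => Set.mem_univ _) hsh
    exact hinj k c hc ((hhom k c hc).sub_comm.congr h2)
  · obtain ⟨w₀, hw₀, h0⟩ := open_emb_surj hj hV hcov hw
    have h1 := push_mem_Z (f := shear γ) (V := Set.univ) (fun _ _ => Set.mem_univ _) hsh hw₀
    obtain ⟨c, hc, h2⟩ := hsurj k _ h1
    refine ⟨c, hc, ?_⟩
    have h3 : Bd R (n + k) Set.univ A₀ (push (shear γ) (w₀ - cr n (stdCh R n) c)) := by
      rw [map_sub]
      exact h2.trans (hhom k c hc).sub_comm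
    have h4 := h3.push (f := unshear γ) (V := Set.univ) (fun _ _ => Set.mem_univ _) hun
    rw [push_push, hus, push_id] at h4
    have h5 := h4.push (f := j) (V := Set.univ) (A' := V) (fun _ _ => Set.mem_univ _)
      (fun _ hx => hx)
    rw [map_sub, hjcr] at h5
    exact h0.trans h5

/-- The statement only depends on the local class of the cycle, up to a unit. -/
theorem CrossIso.of_unit {n : ℕ} {z l : Ch R Y} {g : C(B, Y)} {s r : R} (hrs : r * s = 1)
    {V' : Set Y} (hV' : ∀ b, g b ∉ V') (h : Bd R n Set.univ V' (z - s • l))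
    (hl : CrossIso n l g) : CrossIso n z g := by
  have key : ∀ k : ℤ, ∀ c ∈ Z R k (Set.univ : Set B) ∅,
      Bd R (n + k) Set.univ {p : Y × B | p.1 ≠ g p.2} (cr n z c - s • cr n l c) := by
    intro k c hc
    have h1 := h.cr_left hc (W := Set.univ) (A' := {p : Y × B | p.1 ≠ g p.2})
      (Set.subset_univ _) (fun p hp h0 => hV' p.2 (h0 ▸ hp.1)) (fun _ hp => hp.2.elim)
    rwa [map_sub, map_smul, LinearMap.sub_apply, LinearMap.smul_apply] at h1
  refine ⟨fun k c hc h1 => hl.1 k c hc ?_, fun k w hw => ?_⟩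
  · have h2 := ((key k c hc).sub_comm.congr h1).smul r
    rwa [smul_smul, hrs, one_smul] at h2
  · obtain ⟨c, hc, h1⟩ := hl.2 k w hw
    have h2 : r • c ∈ Z R k (Set.univ : Set B) ∅ := Submodule.smul_mem _ _ hc
    refine ⟨r • c, h2, h1.trans ?_⟩
    have h3 := key k (r • c) h2
    rw [map_smul (cr n l), smul_smul, mul_comm s r, hrs, one_smul] at h3
    exact h3.sub_comm

end chart

/-! ### The local statement -/

/-- The closed box of radius `1/2`. -/
def halfBox (n : ℕ) : Set (Fin n → ℝ) := Set.univ.pi fun _ => Set.Icc (-(1 / 2)) (1 / 2)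

theorem halfBox_bound {n : ℕ} {x : Fin n → ℝ} (hx : x ∈ halfBox n) (i : Fin n) :
    -1 < x i ∧ x i < 1 := by
  have h := hx i (Set.mem_univ i)
  exact ⟨by linarith [h.1], by linarith [h.2]⟩

theorem crossIso_local {n : ℕ} {Y : Type*} [TopologicalSpace Y] [T2Space Y]
    (hY : LocEuc n Y) {z : Ch R Y} (hz : z ∈ Z R n Set.univ ∅) (hgen : LocGen n z) (y : Y) :
    ∃ W : Set Y, IsOpen W ∧ y ∈ W ∧ ∀ {B : Type*} [TopologicalSpace B] (g : C(B, Y)),
      (∀ b, g b ∈ W) → CrossIso n z g := by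
  obtain ⟨S, hS, hyS, ⟨φ₀⟩⟩ := hY y
  let φ : S ≃ₜ (Fin n → ℝ) := φ₀.trans (Homeomorph.subRight (φ₀ ⟨y, hyS⟩))
  have hφ : φ ⟨y, hyS⟩ = 0 := by simp [φ]
  have hφ' : chartMap φ 0 = y := by
    rw [← hφ]
    simp [chartMap]
  have hK : IsCompact (halfBox n) := isCompact_univ_pi fun _ => isCompact_Icc
  have hconv : Convex ℝ (halfBox n) := convex_pi fun _ _ => convex_Icc _ _
  have h0 : (0 : Fin n → ℝ) ∈ halfBox n := fun i _ => by
    constructor <;> norm_num
  -- the coefficient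
  obtain ⟨s, hs⟩ := loc_gen (R := R) hS φ hK hconv ⟨0, h0⟩ (fun x hx i => halfBox_bound hx i)
    (Z_mono le_rfl (Set.empty_subset _) hz)
  have hsing : inChart φ {0} = {y} := by
    unfold inChart
    rw [Set.image_singleton]
    exact congrArg _ hφ'
  have hK1 : ∀ x ∈ ({0} : Set (Fin n → ℝ)), ∀ i, -1 < x i ∧ x i < 1 := by
    rintro x rfl i
    constructor <;> norm_num
  have hl : locCh R φ ∈ Z R n Set.univ ({y}ᶜ : Set Y) := by
    rw [← hsing]
    exact locCh_mem φ hK1
  obtain ⟨r, hr⟩ := hgen y _ hl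
  have hsub : (inChart φ (halfBox n))ᶜ ⊆ ({y}ᶜ : Set Y) := by
    rw [← hsing]
    exact Set.compl_subset_compl.mpr (Set.image_mono (Set.singleton_subset_iff.mpr h0))
  have hrs : r * s = 1 := by
    have h1 : Bd R n Set.univ ({y}ᶜ : Set Y) ((1 - r * s) • locCh R φ) := by
      have h2 := (hs.mono le_rfl hsub).smul r
      have h3 := hr.add h2
      have h4 : (1 - r * s) • locCh R φ = locCh R φ - r • z + r • (z - s • locCh R φ) := by
        rw [smul_sub, smul_smul, sub_smul, one_smul]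
        abel
      rwa [← h4] at h3
    rw [← hsing] at h1
    have h5 := loc_free hS φ isCompact_singleton (convex_singleton _) (Set.singleton_nonempty _)
      hK1 h1
    exact (sub_eq_zero.mp h5).symm
  -- the open box
  have hOo : IsOpen (Set.univ.pi fun _ : Fin n => Set.Ioo (-(1 / 2) : ℝ) (1 / 2)) :=
    isOpen_set_pi Set.finite_univ fun _ _ => isOpen_Ioo
  refine ⟨chartMap φ '' (Set.univ.pi fun _ : Fin n => Set.Ioo (-(1 / 2) : ℝ) (1 / 2)),
    (chartMap_isOpenEmbedding hS φ).isOpenMap _ hOo, ⟨0, fun i _ => by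
      constructor <;> norm_num, hφ'⟩, ?_⟩
  intro B _ g hg
  have hgS : ∀ b, g b ∈ S := by
    intro b
    obtain ⟨x, -, hx⟩ := hg b
    rw [← hx]
    exact (φ.symm x).2
  let γ : C(B, Fin n → ℝ) := ⟨fun b => φ ⟨g b, hgS b⟩, by fun_prop⟩
  have hγ : ∀ b, g b = chartMap φ (γ b) := by
    intro b
    simp [chartMap, γ]
  have hγO : ∀ b, γ b ∈ Set.univ.pi fun _ : Fin n => Set.Ioo (-(1 / 2) : ℝ) (1 / 2) := by
    intro b
    obtain ⟨x, hx, hxb⟩ := hg b
    have : x = γ b := (chartMap_isOpenEmbedding hS φ).injective (hxb.trans (hγ b))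
    rwa [← this]
  refine CrossIso.of_unit hrs (V' := (inChart φ (halfBox n))ᶜ) ?_ hs
    (crossIso_locCh hS φ g γ hγ ?_)
  · intro b hb
    refine hb ⟨γ b, fun i hi => Set.Ioo_subset_Icc_self (hγO b i hi), (hγ b).symm⟩
  · intro b i
    have := hγO b i (Set.mem_univ i)
    exact abs_lt.mpr ⟨by linarith [this.1], by linarith [this.2]⟩

/-! ### Restriction to a subset of the base -/

section restrict

variable {Y : Type*} [TopologicalSpace Y] {B : Type*} [TopologicalSpace B]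

/-- The mapping cone over a subset of the base. -/
theorem cone_cross_of {n : ℕ} {V' : Set Y} {A : Set B} {A' : Set (Y × B)} (z : Ch R Y)
    (hz : z ∈ Z R n Set.univ V') (hA : Set.univ ×ˢ A ⊆ A') (hV : V' ×ˢ Set.univ ⊆ A') (U : Set B)
    (hi : ∀ k : ℤ, ∀ c ∈ Z R k U A,
      Bd R (n + k) (Prod.snd ⁻¹' U) A' (cr n z c) → Bd R k U A c)
    (hs : ∀ k : ℤ, ∀ w ∈ Z R (n + k) (Prod.snd ⁻¹' U : Set (Y × B)) A',
        ∃ c ∈ Z R k U A, Bd R (n + k) (Prod.snd ⁻¹' U) A' (w - cr n z c)) :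
    (Sys.cone (crossHom (R := R) (n := n) (Y := Y) (V' := V') (A := A) (A' := A') z hz hA
      hV)).Acyc U := by
  have e3 : ((-1 : R) ^ n) * ((-1 : R) ^ n) = 1 := by
    rw [← mul_pow]; simp
  rw [Sys.cone_acyc_iff_bij]
  refine ⟨?_, ?_⟩
  · rintro k c hc hdc ⟨w, hw, hcw⟩
    have hc' : c ∈ Z R k U A := by
      refine ⟨by simpa [cubeSys] using hc, ?_⟩
      have : bd k c ∈ Q R (k - 1) A := by simpa [cubeSys] using hdc
      exact this
    have hw' : w ∈ C R (n + (k + 1)) (Prod.snd ⁻¹' U : Set (Y × B)) := by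
      simpa [cubeSys] using hw
    have hcw' : cr n z c - ((-1 : R) ^ n) • bd (n + (k + 1)) w ∈ Q R (n + k) A' := by
      simpa [cubeSys, crossHom] using hcw
    obtain ⟨b, hb, h2⟩ := hi k c hc' ⟨((-1 : R) ^ n) • w, by
      rw [add_assoc]; exact Submodule.smul_mem _ _ hw', by
      rw [map_smul, add_assoc]; exact hcw'⟩
    exact ⟨b, by simpa [cubeSys] using hb, by simpa [cubeSys] using h2⟩
  · intro k w hw hdw
    have hw' : w ∈ C R (n + k) (Prod.snd ⁻¹' U : Set (Y × B)) := by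
      simpa [cubeSys] using hw
    have hdw' : ((-1 : R) ^ n) • bd (n + k) w ∈ Q R (n + (k - 1)) A' := by
      simpa [cubeSys] using hdw
    obtain ⟨c, hc, b, hb, hwb⟩ := hs k w ⟨hw', by
      change bd (n + k) w ∈ Q R (n + k - 1) A'
      have h4 := Submodule.smul_mem _ ((-1 : R) ^ n) hdw'
      rw [smul_smul, e3, one_smul, ← add_sub_assoc] at h4
      exact h4⟩
    refine ⟨c, by simpa [cubeSys] using hc.1, ?_, ((-1 : R) ^ n) • b, ?_, ?_⟩
    · have := hc.2
      simpa [cubeSys] using this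
    · have : ((-1 : R) ^ n) • b ∈ C R (n + (k + 1)) (Prod.snd ⁻¹' U : Set (Y × B)) := by
        rw [← add_assoc]; exact Submodule.smul_mem _ _ hb
      simpa [cubeSys] using this
    · have : w - cr n z c - ((-1 : R) ^ n) • bd (n + (k + 1)) (((-1 : R) ^ n) • b) ∈
          Q R (n + k) A' := by
        rw [map_smul, smul_smul, e3, one_smul, ← add_assoc]; exact hwb
      simpa [cubeSys, crossHom] using this

/-- Restriction of a map to a subset. -/
def resU (g : C(B, Y)) (U : Set B) : C(U, Y) := ⟨fun b => g b, by fun_prop⟩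

/-- The cone over a subset is acyclic if the statement holds for the subspace. -/
theorem cone_cross_of_crossIso {n : ℕ} (z : Ch R Y) (hz : z ∈ Z R n Set.univ ∅) (g : C(B, Y))
    (U : Set B) (h : CrossIso n z (resU g U)) :
    (Sys.cone (crossHom (R := R) (n := n) (Y := Y) (V' := ∅) (A := (∅ : Set B))
      (A' := {p : Y × B | p.1 ≠ g p.2}) z hz
      (fun _ hp => hp.2.elim) (fun _ hp => hp.1.elim))).Acyc U := by
  obtain ⟨hinj, hsurj⟩ := h
  let ι : C(U, B) := ⟨Subtype.val, continuous_subtype_val⟩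
  have hι : Topology.IsInducing ι := Topology.IsInducing.subtypeVal
  have hι' : Function.Injective ι := Subtype.val_injective
  have hιr : Set.range ι = U := Subtype.range_val
  let J : C(Y × U, Y × B) := (ContinuousMap.id Y).prodMap ι
  have hJ : Topology.IsInducing J := Topology.IsInducing.id.prodMap hι
  have hJ' : Function.Injective J := Function.injective_id.prodMap hι'
  have hJr : Set.range J = (Prod.snd ⁻¹' U : Set (Y × B)) := by
    ext ⟨y, b⟩
    constructor
    · rintro ⟨⟨y', b'⟩, h⟩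
      have h2 : (b' : B) = b := congrArg Prod.snd h
      exact h2 ▸ b'.2
    · intro hb
      exact ⟨(y, ⟨b, hb⟩), rfl⟩
  have hJcr : ∀ c₀ : Ch R U, cr n z (push ι c₀) = push J (cr n z c₀) := by
    intro c₀
    rw [← push_cr, push_id]
  refine cone_cross_of z hz _ _ U ?_ ?_
  · intro k c hc hB
    rw [← hιr] at hc
    obtain ⟨c₀, hc₀, rfl⟩ := exists_push_of_mem_Z hι hι' hc
    rw [hJcr, ← hJr] at hB
    have h1 := hinj k c₀ hc₀ ((Bd_push_iff hJ hJ').mp hB)
    exact ((Bd_push_iff hι hι').mpr h1).mono (le_of_eq hιr) le_rfl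
  · intro k w hw
    rw [← hJr] at hw
    obtain ⟨w₀, hw₀, rfl⟩ := exists_push_of_mem_Z hJ hJ' hw
    obtain ⟨c₀, hc₀, h1⟩ := hsurj k w₀ hw₀
    refine ⟨push ι c₀, ?_, ?_⟩
    · exact push_mem_Z (fun x _ => x.2) (fun _ hx => hx) hc₀
    · rw [hJcr, ← map_sub, ← hJr]
      exact (Bd_push_iff hJ hJ').mpr h1

end restrict

theorem C_empty {X : Type*} [TopologicalSpace X] (k : ℤ) : C R k (∅ : Set X) = ⊥ := by
  unfold C
  have h : {σ : C(Cb, X) | IsCube k σ ∧ ∀ u, σ u ∈ (∅ : Set X)} = ∅ := by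
    ext σ
    simp only [Set.mem_ofPred_eq, Set.mem_empty_iff_false, iff_false]
    rintro ⟨-, h⟩
    exact h fun _ => 0
  rw [h, Finsupp.supported_empty]

end TL

open TL in
/-- **Theorem L.** For a compact locally Euclidean space `Y` of dimension `n`, an `n`-cycle `z`
which generates the local homology at every point, and a map `g : B → Y`, the map `c ↦ z × c` is
an isomorphism `H_k(B) → H_{n+k}(Y × B, {y ≠ g b})` for all `k`. -/
theorem thmL {n : ℕ} {Y : Type*} [TopologicalSpace Y] [T2Space Y] [CompactSpace Y]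
    (hY : LocEuc n Y) {z : Ch R Y} (hz : z ∈ Z R n Set.univ ∅) (hgen : LocGen n z)
    {B : Type*} [TopologicalSpace B] (g : C(B, Y)) :
    (Sys.cone (crossHom (R := R) (n := n) (Y := Y) (V' := ∅) (A := (∅ : Set B))
      (A' := {p : Y × B | p.1 ≠ g p.2}) z hz
      (fun _ hp => hp.2.elim) (fun _ hp => hp.1.elim))).Acyc Set.univ := by
  choose W hWo hyW hW using fun y => crossIso_local hY hz hgen y
  obtain ⟨t, ht⟩ := isCompact_univ.elim_finite_subcover W hWo
    (fun y _ => Set.mem_iUnion.mpr ⟨y, hyW y⟩)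
  refine Sys.Acyc.of_finite_cover (ι := t) (fun i => g ⁻¹' (W i))
    (fun i => (hWo i).preimage g.continuous) ?_ isOpen_univ ?_ ?_
  · intro i U _ hU
    exact cone_cross_of_crossIso z hz g U (hW i (resU g U) fun b => hU b.2)
  · intro b _
    obtain ⟨i, hi, hb⟩ := Set.mem_iUnion₂.mp (ht (Set.mem_univ (g b)))
    exact Set.mem_iUnion.mpr ⟨⟨i, hi⟩, hb⟩
  · refine cone_cross_of_crossIso z hz g ∅ ⟨fun k c hc _ => ?_, fun k w hw => ?_⟩
    · have h1 : (Set.univ : Set (∅ : Set B)) = ∅ := Set.univ_eq_empty_iff.mpr inferInstance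
      have h2 : c ∈ C R k (Set.univ : Set (∅ : Set B)) := hc.1
      rw [h1, C_empty, Submodule.mem_bot] at h2
      rw [h2]
      exact Bd.zero _ _ _
    · have h1 : (Set.univ : Set (Y × (∅ : Set B))) = ∅ := Set.univ_eq_empty_iff.mpr inferInstance
      have h2 : w ∈ C R (n + k) (Set.univ : Set (Y × (∅ : Set B))) := hw.1
      rw [h1, C_empty, Submodule.mem_bot] at h2
      refine ⟨0, Submodule.zero_mem _, ?_⟩
      rw [h2, map_zero, sub_zero]
      exact Bd.zero _ _ _

end CubeHom
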